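import Pool.Agent.H77.K4.Defs

/-!
# A2: isotropy

Let `D' = {d : yq d = yr d}`.

`y_sum`: for `d ∈ D'`: `sum_u y_u d + yq d = 0`. Proof: apply `R1` to `d` and the element `t` of
`R2` for `τ = (1,0)` and for `τ = (0,1)`: all `y(t) = 0`, so
`sum_u om (y_u d) τ + om (yq d) (aq t) + om (yr d) (ar t) = 0`, and the last two terms are
`om (yq d) (aq t + ar t) = om (yq d) τ`. So `om (S, τ) = 0` for `S = sum_u y_u d + yq d` and both
`τ`, hence `S = 0`.

`card_le`: `# D' ≤ 4 ^ (card U + 1) * Str`. Proof: consider the linear map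
`Φ : D' → H := (Option U → V2 × V2)`, `Φ d u = (a_u d, y_u d)` for `u ∈ U` and
`Φ d none = (aq d + ar d, yq d)`. Its kernel is the set counted by `Str`. The form
`b (x, x') = sum_u (om (x u).1 (x' u).2 + om (x u).2 (x' u).1)` on `H` is a nondegenerate
symmetric (alternating) bilinear form, and `b (Φ d, Φ d') = 0` by `R1` (for `d, d' ∈ D'`:
`om (aq d) (yq d') + om (ar d) (yr d') = om (aq d + ar d) (yq d')`). So the image of `Φ` is totally
isotropic, hence of dimension at most half of `dim H = 4 (card U + 1)`: if `V ≤ V^⊥` then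
`2 dim V ≤ dim H` (`LinearMap.BilinForm.finrank_orthogonal` or the injection
`V → Dual (H / V)`...). So `# image ≤ 2 ^ (2 (card U + 1)) = 4 ^ (card U + 1)` and
`# D' = # image * # kernel`.
-/

set_option autoImplicit false

namespace Pool.Agent.H77.K4

open Finset Pool.Agent.H77.SV

variable {U D : Type} [Fintype U] [AddCommGroup D] [Module (ZMod 2) D] [Fintype D]

private theorem om_comm (a y : V2) : om a y = om y a := by
  unfold om
  ring

private theorem om_add_left (a b y : V2) : om (a + b) y = om a y + om b y := by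
  simp only [om, Prod.fst_add, Prod.snd_add]
  ring

private theorem om_add_right (a y z : V2) : om a (y + z) = om a y + om a z := by
  simp only [om, Prod.fst_add, Prod.snd_add]
  ring

private theorem om_zero_right (a : V2) : om a 0 = 0 := by
  simp [om]

private theorem om_smul_left (c : ZMod 2) (a y : V2) : om (c • a) y = c * om a y := by
  simp only [om, Prod.smul_fst, Prod.smul_snd, smul_eq_mul]
  ring

private theorem om_sum_left {ι : Type} (s : Finset ι) (f : ι → V2) (y : V2) :
    om (∑ i ∈ s, f i) y = ∑ i ∈ s, om (f i) y := by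
  simp only [om, Prod.fst_sum, Prod.snd_sum, Finset.sum_mul, Finset.sum_add_distrib]

private theorem eq_zero_of_om (a : V2) (h : ∀ y, om a y = 0) : a = 0 := by
  have h1 := h (1, 0)
  have h2 := h (0, 1)
  simp only [om, mul_zero, mul_one, zero_add, add_zero] at h1 h2
  exact Prod.ext h2 h1

/-- the symplectic form on the product -/
private def bb (ι : Type) [Fintype ι] : LinearMap.BilinForm (ZMod 2) (ι → V2 × V2) :=
  LinearMap.mk₂ (ZMod 2) (fun x x' => ∑ i, (om (x i).1 (x' i).2 + om (x i).2 (x' i).1))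
    (fun x y z => by
      rw [← Finset.sum_add_distrib]
      refine sum_congr rfl fun i _ => ?_
      rw [Pi.add_apply, Prod.fst_add, Prod.snd_add, om_add_left, om_add_left]
      ring)
    (fun c x y => by
      rw [smul_eq_mul, Finset.mul_sum]
      refine sum_congr rfl fun i _ => ?_
      rw [Pi.smul_apply, Prod.smul_fst, Prod.smul_snd, om_smul_left, om_smul_left]
      ring)
    (fun x y z => by
      rw [← Finset.sum_add_distrib]
      refine sum_congr rfl fun i _ => ?_
      rw [Pi.add_apply, Prod.fst_add, Prod.snd_add, om_add_right, om_add_right]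
      ring)
    (fun c x y => by
      rw [smul_eq_mul, Finset.mul_sum]
      refine sum_congr rfl fun i _ => ?_
      rw [Pi.smul_apply, Prod.smul_fst, Prod.smul_snd, om_comm, om_smul_left,
        om_comm (x i).2, om_smul_left, om_comm (y i).2, om_comm (y i).1]
      ring)

private theorem bb_apply {ι : Type} [Fintype ι] (x x' : ι → V2 × V2) :
    bb ι x x' = ∑ i, (om (x i).1 (x' i).2 + om (x i).2 (x' i).1) := rfl

private theorem bb_comm {ι : Type} [Fintype ι] (x x' : ι → V2 × V2) : bb ι x x' = bb ι x' x := by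
  rw [bb_apply, bb_apply]
  refine sum_congr rfl fun i _ => ?_
  rw [om_comm (x i).1, om_comm (x i).2, add_comm]

private theorem bb_left {ι : Type} [Fintype ι] (x : ι → V2 × V2) (h : ∀ y, bb ι x y = 0) :
    x = 0 := by
  classical
  funext i
  have h1 : ∀ z : V2 × V2, om (x i).1 z.2 + om (x i).2 z.1 = 0 := by
    intro z
    have h2 := h (Pi.single i z)
    rw [bb_apply, Finset.sum_eq_single i] at h2
    · rwa [Pi.single_eq_same] at h2
    · intro j _ hj
      rw [Pi.single_eq_of_ne hj]
      simp [om]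
    · intro hi
      exact absurd (Finset.mem_univ _) hi
  refine Prod.ext (eq_zero_of_om _ fun y => ?_) (eq_zero_of_om _ fun y => ?_)
  · have h2 := h1 (0, y)
    rwa [om_zero_right, add_zero] at h2
  · have h2 := h1 (y, 0)
    rwa [om_zero_right, zero_add] at h2

private theorem bb_nondeg (ι : Type) [Fintype ι] : (bb ι).Nondegenerate :=
  ⟨fun x h => bb_left x h, fun x h => bb_left x fun y => by rw [bb_comm]; exact h y⟩

private theorem isotropic_card {ι : Type} [Fintype ι] (V : Submodule (ZMod 2) (ι → V2 × V2))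
    (h : ∀ x ∈ V, ∀ y ∈ V, bb ι x y = 0) :
    Module.finrank (ZMod 2) V ≤ 2 * Fintype.card ι := by
  have h1 := LinearMap.BilinForm.finrank_orthogonal (bb_nondeg ι) V
  have h2 : V ≤ (bb ι).orthogonal V := by
    intro x hx y hy
    exact h y hy x hx
  have h3 := Submodule.finrank_mono h2
  have h4 : Module.finrank (ZMod 2) (ι → V2 × V2) = Fintype.card ι * 4 := by
    rw [Module.finrank_pi_fintype]
    simp only [Module.finrank_prod, Module.finrank_self, Finset.sum_const, Finset.card_univ,
      smul_eq_mul]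
  have h5 := Submodule.finrank_le V
  omega

theorem y_sum {X : Dat U D} (hX : X.Good) {d : D} (hd : X.yq d = X.yr d) :
    ∑ u, X.y u d + X.yq d = 0 := by
  apply eq_zero_of_om
  intro τ
  obtain ⟨t, ht, hq, hr, hs⟩ := hX.R2 τ
  have h := hX.R1 d t
  have h1 : ∑ u, (om (X.a u d) (X.y u t) + om (X.y u d) (X.a u t)) = om (∑ u, X.y u d) τ := by
    rw [om_sum_left]
    refine sum_congr rfl fun u _ => ?_
    rw [(ht u).1, (ht u).2, om_zero_right, zero_add]
  rw [h1, hq, hr, om_zero_right, om_zero_right, zero_add, zero_add, ← hd, add_assoc,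
    ← om_add_right, hs] at h
  rw [om_add_left]
  exact h

theorem card_le {X : Dat U D} (hX : X.Good) :
    Nat.card {d : D // X.yq d = X.yr d} ≤ 4 ^ (Fintype.card U + 1) * X.Str := by
  classical
  let D' : Submodule (ZMod 2) D := LinearMap.eqLocus X.yq X.yr
  have hD' : ∀ d : D', X.yq d = X.yr d := fun d => d.2
  let Φ : D' →ₗ[ZMod 2] (Option U → V2 × V2) := LinearMap.pi fun o =>
    o.elim (((X.aq + X.ar).prod X.yq).comp D'.subtype)
      (fun u => ((X.a u).prod (X.y u)).comp D'.subtype)
  have hΦ1 : ∀ (d : D') (u : U), Φ d (some u) = (X.a u d, X.y u d) := fun d u => rfl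
  have hΦ0 : ∀ d : D', Φ d none = (X.aq d + X.ar d, X.yq d) := fun d => rfl
  have hiso : ∀ x ∈ LinearMap.range Φ, ∀ y ∈ LinearMap.range Φ, bb (Option U) x y = 0 := by
    rintro _ ⟨d, rfl⟩ _ ⟨e, rfl⟩
    have h := hX.R1 d e
    rw [bb_apply, Fintype.sum_option, hΦ0, hΦ0]
    have h1 : ∑ u : U, (om (Φ d (some u)).1 (Φ e (some u)).2 + om (Φ d (some u)).2 (Φ e (some u)).1)
        = ∑ u : U, (om (X.a u d) (X.y u e) + om (X.y u d) (X.a u e)) := rfl
    rw [h1]
    have h2 : om (X.aq d + X.ar d, X.yq d).1 (X.aq e + X.ar e, X.yq e).2 +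
        om (X.aq d + X.ar d, X.yq d).2 (X.aq e + X.ar e, X.yq e).1 =
        (om (X.aq d) (X.yq e) + om (X.yq d) (X.aq e)) +
        (om (X.ar d) (X.yr e) + om (X.yr d) (X.ar e)) := by
      show om (X.aq d + X.ar d) (X.yq e) + om (X.yq d) (X.aq e + X.ar e) = _
      rw [om_add_left, om_add_right, ← hD' d, ← hD' e]
      ring
    rw [h2, add_comm, ← add_assoc]
    exact h
  have hfin := isotropic_card _ hiso
  rw [Fintype.card_option] at hfin
  have hker : Nat.card (LinearMap.ker Φ) ≤ X.Str := by
    unfold Dat.Str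
    refine Nat.card_le_card_of_injective (fun d : LinearMap.ker Φ =>
      (⟨d.1.1, ?_⟩ : {d : D // (∀ u, X.a u d = 0 ∧ X.y u d = 0) ∧ X.yq d = 0 ∧ X.yr d = 0 ∧
        X.aq d = X.ar d})) ?_
    · have h : Φ d.1 = 0 := d.2
      have h1 : ∀ u, (X.a u d.1.1, X.y u d.1.1) = (0 : V2 × V2) := fun u => by
        rw [← hΦ1 d.1 u, h]
        rfl
      have h0 : (X.aq d.1.1 + X.ar d.1.1, X.yq d.1.1) = (0 : V2 × V2) := by
        rw [← hΦ0 d.1, h]
        rfl
      have h2 : X.yq d.1.1 = 0 := congrArg Prod.snd h0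
      have h3 : X.aq d.1.1 + X.ar d.1.1 = 0 := congrArg Prod.fst h0
      refine ⟨fun u => ⟨congrArg Prod.fst (h1 u), congrArg Prod.snd (h1 u)⟩, h2, ?_, ?_⟩
      · rw [← hD' d.1]
        exact h2
      · have h4 : ∀ x y : V2, x + y = 0 → x = y := by decide +kernel
        exact h4 _ _ h3
    · intro d e hde
      apply Subtype.ext
      apply Subtype.ext
      have h5 := congrArg (fun x : {d : D // (∀ u, X.a u d = 0 ∧ X.y u d = 0) ∧ X.yq d = 0 ∧
        X.yr d = 0 ∧ X.aq d = X.ar d} => x.1) hde
      exact h5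
  have hcard : Nat.card {d : D // X.yq d = X.yr d} = Nat.card D' := rfl
  have h1 : Nat.card D' = 2 ^ Module.finrank (ZMod 2) D' := by
    rw [Module.natCard_eq_pow_finrank (K := ZMod 2), Nat.card_zmod]
  have h2 : Nat.card (LinearMap.ker Φ) = 2 ^ Module.finrank (ZMod 2) (LinearMap.ker Φ) := by
    rw [Module.natCard_eq_pow_finrank (K := ZMod 2), Nat.card_zmod]
  have h3 := LinearMap.finrank_range_add_finrank_ker Φ
  rw [hcard, h1, ← h3, pow_add, ← h2]
  refine Nat.mul_le_mul ?_ hker
  have h4 : (4 : ℕ) ^ (Fintype.card U + 1) = 2 ^ (2 * (Fintype.card U + 1)) := by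
    rw [pow_mul]
    norm_num
  rw [h4]
  exact Nat.pow_le_pow_right (by norm_num) hfin

end Pool.Agent.H77.K4
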