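import Pool.Agent.H77.K4.A4
import Pool.Agent.H77.K4.A2

/-!
# A6: planes 3, 4, 5

Let `t = (1,0), (0,1), (1,1)` for `k = 3, 4, 5` (`tk k`). The sum over the patterns in a coset of
the plane `{a ∈ {0,t}, c ∈ {0, J2 t}}` is at most `4 * (1/2)^(card M) * Km M t`.

Use `sum_NW` with representatives `R = {(a0, c0) : a0 ∈ A0, c0 ∈ C0}`, where `A0` (two elements,
containing `0`) represents `V2 / {0,t}` and `C0` (two elements, containing `0`) represents
`V2 / {0, J2 t}`. Then `cS k (a0,c0) a y` is `2 * sg (dot c0 y)` if `a + a0 ∈ {0,t}` and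
`y ∈ {0,t}`, and `0` otherwise (`dot (J2 t) y = om t y` vanishes iff `y ∈ {0,t}`). Write
`n = card U + 1`. By `y_sum` the product of the signs is `1`. So the sum is
`(1/4)^n * 2^n * 2 * sum over a0 ∈ A0 of #S(a0)`, with `S(a0)` the set of `d` with `yq d = yr d`,
all `a_u d + a0 ∈ {0,t}`, `aq d + ar d + a0 ∈ {0,t}`, all `y_u d ∈ {0,t}`, `yq d ∈ {0,t}`. Adding the
element of `R2` for `τ = a0` is an injection of `S(a0)` into `S(0)`, so the sum is at most
`4 * (1/2)^n * #S(0)`. Finally `#S(0) ≤ 2^(n - card M) * Km M t`: `S(0)` is a subgroup, and on it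
`d ↦ (a_u d (u ∉ M), aq d + ar d)` has values in `{0,t}^(card U - card M + 1)`; a fibre of this map
has at most as many elements as the kernel (differences), and the kernel is the set counted by
`Km M t`.
-/

set_option autoImplicit false

namespace Pool.Agent.H77.K4

open Finset Pool.Agent.H77.SV

/-- the vector `t` of the plane `k = 3, 4, 5` -/
def tk (k : Fin 6) : V2 := if k = 3 then (1, 0) else if k = 4 then (0, 1) else (1, 1)

namespace A6

/-- integer version of the local factor -/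
def cZ (k : Fin 6) (r : LL) (a y : V2) : ℤ :=
  ∑ c : V2, if inW k ((a, c) + r) then (if dot c y = 0 then 1 else -1) else 0

theorem cS_eq (k : Fin 6) (r : LL) (a y : V2) : cS k r a y = (cZ k r a y : ℝ) := by
  unfold cS cZ sg
  push_cast
  rfl

/-- `x ∈ {0, t}` -/
def In (t x : V2) : Prop := x = 0 ∨ x = t

instance (t x : V2) : Decidable (In t x) := inferInstanceAs (Decidable (x = 0 ∨ x = t))

theorem cZ_abs : ∀ k : Fin 6, 3 ≤ (k : ℕ) → ∀ (r : LL) (a y : V2),
    |cZ k r a y| = if In (tk k) (a + r.1) ∧ In (tk k) y then 2 else 0 := by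
  decide +kernel

/-- representatives of `V2 / {0,t}` -/
def ra (k : Fin 6) : V2 := if k = 3 then (0, 1) else (1, 0)

/-- representatives of `V2 / {0, J2 t}` -/
def rc (k : Fin 6) : V2 := if k = 4 then (0, 1) else (1, 0)

/-- representatives -/
def R (k : Fin 6) : Finset LL := ({0, ra k} : Finset V2) ×ˢ ({0, rc k} : Finset V2)

theorem hR1 : ∀ k : Fin 6, 3 ≤ (k : ℕ) → ∀ x : LL, ∃ r ∈ R k, inW k (x + r) := by
  decide +kernel

theorem hR2 : ∀ k : Fin 6, 3 ≤ (k : ℕ) → ∀ x : LL, ∀ r ∈ R k, ∀ s ∈ R k,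
    inW k (x + r) → inW k (x + s) → s = r := by
  decide +kernel

theorem hR (k : Fin 6) (hk : 3 ≤ (k : ℕ)) (x : LL) : ∃! r, r ∈ R k ∧ inW k (x + r) := by
  obtain ⟨r, h1, h2⟩ := hR1 k hk x
  exact ⟨r, ⟨h1, h2⟩, fun s hs => hR2 k hk x r h1 s hs.1 h2 hs.2⟩

theorem card_R : ∀ k : Fin 6, 3 ≤ (k : ℕ) → (R k).card = 4 := by
  decide +kernel

theorem v2_self (a : V2) : a + a = 0 := by
  revert a
  decide

theorem v2_eq {a b : V2} (h : a + b = 0) : a = b := by
  revert h
  revert a b
  decide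

theorem In_add {t x y : V2} (hx : In t x) (hy : In t y) : In t (x + y) := by
  rcases hx with rfl | rfl <;> rcases hy with rfl | rfl
  · left; simp
  · right; simp
  · right; simp
  · left; exact v2_self _

theorem In_zero_iff {t x y : V2} (hx : In t x) (hy : In t y) (h : x = 0 ↔ y = 0) : x + y = 0 := by
  rcases hx with rfl | rfl
  · rw [h.mp rfl, add_zero]
  · rcases hy with rfl | rfl
    · rw [h.mpr rfl, add_zero]
    · exact v2_self _

variable {U D : Type} [Fintype U] [DecidableEq U] [AddCommGroup D] [Module (ZMod 2) D] [Fintype D]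

/-- membership in the set `S(a0)` -/
def PS (X : Dat U D) (t a0 : V2) (d : D) : Prop :=
  X.yq d = X.yr d ∧ (∀ u, In t (X.a u d + a0) ∧ In t (X.y u d)) ∧ In t (X.aq d + X.ar d + a0) ∧
    In t (X.yq d)

open Classical in
theorem S_le {X : Dat U D} (hX : X.Good) (t a0 : V2) :
    (univ.filter fun d : D => PS X t a0 d).card ≤ (univ.filter fun d : D => PS X t 0 d).card := by
  obtain ⟨e, he1, he2, he3, he4⟩ := hX.R2 a0
  refine card_le_card_of_injOn (fun d => d + e) ?_ ?_
  · intro d hd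
    simp only [coe_filter, mem_univ, true_and, Set.mem_ofPred_eq] at hd ⊢
    obtain ⟨h1, h2, h3, h4⟩ := hd
    refine ⟨?_, fun u => ⟨?_, ?_⟩, ?_, ?_⟩
    · rw [map_add, map_add, h1, he2, he3]
    · rw [map_add, (he1 u).1, add_zero]
      exact (h2 u).1
    · rw [map_add, (he1 u).2, add_zero]
      exact (h2 u).2
    · rw [map_add, map_add, add_zero]
      have : X.aq d + X.aq e + (X.ar d + X.ar e) = X.aq d + X.ar d + (X.aq e + X.ar e) := by abel
      rw [this, he4]
      exact h3
    · rw [map_add, he2, add_zero]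
      exact h4
  · intro d _ e' _ h
    exact add_right_cancel h

open Classical in
theorem S0_le (X : Dat U D) (M : Finset U) (t : V2) :
    (univ.filter fun d : D => PS X t 0 d).card ≤
      X.Km M t * 2 ^ (Fintype.card U - M.card + 1) := by
  have hc : (univ : Finset (({u // u ∉ M} → Bool) × Bool)).card =
      2 ^ (Fintype.card U - M.card + 1) := by
    rw [card_univ, Fintype.card_prod, Fintype.card_fun, Fintype.card_bool]
    have : Fintype.card {u // u ∉ M} = Fintype.card U - M.card := by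
      rw [Fintype.card_subtype_compl (fun u => u ∈ M)]
      congr 1
      rw [Fintype.card_subtype]
      congr 1
      ext u
      simp
    rw [this, pow_succ]
  rw [← hc]
  let f : D → ({u // u ∉ M} → Bool) × Bool := fun d =>
    (fun u => decide (X.a u.1 d = 0), decide (X.aq d + X.ar d = 0))
  refine card_le_mul_card_image_of_maps_to (f := f) (fun a _ => mem_univ _) _ fun b _ => ?_
  have hs : X.Km M t = (univ.filter fun d : D => (∀ u, (u ∉ M → X.a u d = 0) ∧
      (X.a u d = 0 ∨ X.a u d = t) ∧ (X.y u d = 0 ∨ X.y u d = t)) ∧ X.aq d = X.ar d ∧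
      X.yq d = X.yr d ∧ (X.yq d = 0 ∨ X.yq d = t)).card := by
    unfold Dat.Km
    rw [Nat.card_eq_fintype_card, Fintype.card_subtype]
  rw [hs]
  rcases (filter (fun d => f d = b) (univ.filter fun d : D => PS X t 0 d)).eq_empty_or_nonempty
    with h0 | ⟨e, he⟩
  · rw [h0, card_empty]
    exact Nat.zero_le _
  · simp only [mem_filter, mem_univ, true_and] at he
    obtain ⟨⟨e1, e2, e3, e4⟩, e5⟩ := he
    refine card_le_card_of_injOn (fun d => d + e) ?_ ?_
    · intro d hd
      simp only [coe_filter, mem_filter, mem_univ, true_and, Set.mem_ofPred_eq] at hd ⊢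
      obtain ⟨⟨h1, h2, h3, h4⟩, h5⟩ := hd
      rw [← e5] at h5
      have h6 : ∀ u, u ∉ M → (X.a u d = 0 ↔ X.a u e = 0) := by
        intro u hu
        have := congrFun (congrArg Prod.fst h5) ⟨u, hu⟩
        simpa [f] using this
      have h7 : X.aq d + X.ar d = 0 ↔ X.aq e + X.ar e = 0 := by
        have := congrArg Prod.snd h5
        simpa [f] using this
      simp only [add_zero] at h2 h3 e2 e3
      refine ⟨fun u => ⟨fun hu => ?_, ?_, ?_⟩, ?_, ?_, ?_⟩
      · rw [map_add]
        exact In_zero_iff (h2 u).1 (e2 u).1 (h6 u hu)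
      · rw [map_add]
        exact In_add (h2 u).1 (e2 u).1
      · rw [map_add]
        exact In_add (h2 u).2 (e2 u).2
      · apply v2_eq
        rw [map_add, map_add]
        have : X.aq d + X.aq e + (X.ar d + X.ar e) = (X.aq d + X.ar d) + (X.aq e + X.ar e) := by abel
        rw [this]
        exact In_zero_iff h3 e3 h7
      · rw [map_add, map_add, h1, e1]
      · rw [map_add]
        exact In_add h4 e4
    · intro d _ e' _ h
      exact add_right_cancel h

theorem pre (N m : ℕ) (hm : m ≤ N) (K : ℝ) :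
    4 * (1 / 4 : ℝ) ^ (N + 2) * (4 * (2 ^ (N + 1) * (K * 2 ^ (N - m + 1)))) =
      4 * (1 / 2 : ℝ) ^ m * K := by
  obtain ⟨j, rfl⟩ := Nat.exists_eq_add_of_le hm
  rw [Nat.add_sub_cancel_left]
  have h1 : (1 / 4 : ℝ) ^ (m + j + 2) = (1 / 2) ^ (m + j + 2) * (1 / 2) ^ (m + j + 2) := by
    rw [← mul_pow]
    norm_num
  have h2 : (1 / 2 : ℝ) ^ (m + j + 2) * 2 ^ (m + j + 1) = 1 / 2 := by
    have : (1 / 2 : ℝ) ^ (m + j + 1) * 2 ^ (m + j + 1) = 1 := by
      rw [← mul_pow]
      norm_num
    calc (1 / 2 : ℝ) ^ (m + j + 2) * 2 ^ (m + j + 1) =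
        (1 / 2) * ((1 / 2 : ℝ) ^ (m + j + 1) * 2 ^ (m + j + 1)) := by ring
      _ = 1 / 2 := by rw [this, mul_one]
  have h3 : (1 / 2 : ℝ) ^ (m + j + 2) * 2 ^ (j + 1) = (1 / 2) * (1 / 2) ^ m := by
    have : (1 / 2 : ℝ) ^ (j + 1) * 2 ^ (j + 1) = 1 := by
      rw [← mul_pow]
      norm_num
    calc (1 / 2 : ℝ) ^ (m + j + 2) * 2 ^ (j + 1) =
        (1 / 2) * (1 / 2) ^ m * ((1 / 2 : ℝ) ^ (j + 1) * 2 ^ (j + 1)) := by ring
      _ = _ := by rw [this, mul_one]
  calc _ = 16 * ((1 / 2 : ℝ) ^ (m + j + 2) * 2 ^ (m + j + 1)) *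
        ((1 / 2 : ℝ) ^ (m + j + 2) * 2 ^ (j + 1)) * K := by rw [h1]; ring
    _ = _ := by rw [h2, h3]; ring

end A6

open Classical in
theorem NW_345 {U D : Type} [Fintype U] [DecidableEq U] [Nonempty U] [AddCommGroup D] [Module (ZMod 2) D]
    [Fintype D] {X : Dat U D} (hX : X.Good) (M : Finset U) (k : Fin 6) (hk : 3 ≤ (k : ℕ)) :
    (∑ v : U → LL, ∑ vq : LL, ∑ vr : LL, if NW k v vq vr then X.Tm v vq vr else 0) ≤
      4 * (1 / 2 : ℝ) ^ M.card * (X.Km M (tk k) : ℝ) := by
  rw [sum_NW X k (A6.R k) (A6.hR k hk)]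
  have hab : ∀ (r : LL) (a y : V2), |cS k r a y| =
      if A6.In (tk k) (a + r.1) ∧ A6.In (tk k) y then 2 else 0 := by
    intro r a y
    rw [A6.cS_eq, ← Int.cast_abs, A6.cZ_abs k hk]
    split_ifs <;> norm_num
  have h1 : ∀ r : LL, (∑ d : D, if X.yq d = X.yr d then
      (∏ u, cS k r (X.a u d) (X.y u d)) * cS k r (X.aq d + X.ar d) (X.yq d) else 0) ≤
      2 ^ (Fintype.card U + 1) * ((X.Km M (tk k) : ℝ) * 2 ^ (Fintype.card U - M.card + 1)) := by
    intro r
    have h2 : (∑ d : D, if X.yq d = X.yr d then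
        (∏ u, cS k r (X.a u d) (X.y u d)) * cS k r (X.aq d + X.ar d) (X.yq d) else 0) ≤
        ∑ d : D, if A6.PS X (tk k) r.1 d then (2 : ℝ) ^ (Fintype.card U + 1) else 0 := by
      refine sum_le_sum fun d _ => ?_
      by_cases hq : X.yq d = X.yr d
      · rw [if_pos hq]
        refine le_trans (le_abs_self _) ?_
        rw [abs_mul, abs_prod]
        by_cases hu : ∀ u, A6.In (tk k) (X.a u d + r.1) ∧ A6.In (tk k) (X.y u d)
        · have e1 : ∏ u, |cS k r (X.a u d) (X.y u d)| = 2 ^ (Fintype.card U) := by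
            rw [prod_congr rfl (fun u _ => ?_ : ∀ u ∈ univ, |cS k r (X.a u d) (X.y u d)| = 2)]
            · rw [prod_const, card_univ]
            · rw [hab, if_pos (hu u)]
          rw [e1, hab]
          by_cases hl : A6.In (tk k) (X.aq d + X.ar d + r.1) ∧ A6.In (tk k) (X.yq d)
          · rw [if_pos hl, if_pos ⟨hq, hu, hl.1, hl.2⟩, pow_succ]
          · rw [if_neg hl, mul_zero]
            split_ifs
            · positivity
            · exact le_rfl
        · obtain ⟨u, hu⟩ := not_forall.mp hu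
          have e1 : ∏ u, |cS k r (X.a u d) (X.y u d)| = 0 := by
            refine prod_eq_zero (mem_univ u) ?_
            rw [hab, if_neg hu]
          rw [e1, zero_mul]
          split_ifs
          · positivity
          · exact le_rfl
      · rw [if_neg hq]
        split_ifs
        · positivity
        · exact le_rfl
    refine le_trans h2 ?_
    rw [← sum_filter, sum_const, nsmul_eq_mul, mul_comm]
    refine mul_le_mul_of_nonneg_left ?_ (by positivity)
    have h3 := (A6.S_le hX (tk k) r.1).trans (A6.S0_le X M (tk k))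
    exact_mod_cast h3
  calc _ ≤ 4 * (1 / 4 : ℝ) ^ (Fintype.card U + 2) * ∑ _r ∈ A6.R k,
        2 ^ (Fintype.card U + 1) * ((X.Km M (tk k) : ℝ) * 2 ^ (Fintype.card U - M.card + 1)) :=
        mul_le_mul_of_nonneg_left (sum_le_sum fun r _ => h1 r) (by positivity)
    _ = 4 * (1 / 2 : ℝ) ^ M.card * (X.Km M (tk k) : ℝ) := by
        rw [sum_const, A6.card_R k hk, nsmul_eq_mul]
        have := A6.pre (Fintype.card U) M.card (card_le_univ M) (X.Km M (tk k) : ℝ)
        push_cast
        exact this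

end Pool.Agent.H77.K4
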