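import Pool.Agent.H77.K4.A3

/-!
# A7: bound of one term, and the number of degenerate patterns

`Tm_le`: `|Tm| ≤ (1/4)^(card U + 2) * K0`: the sum over `d` is over the elements with prescribed
values of the `a`'s, a set which is empty or in bijection (difference with one element) with a subset
of the set counted by `K0`; every summand has absolute value at most 1.

`card_deg`: the number of patterns for which `v` takes at most two values on `M` is at most
`16^2 * 2^(card M) * 16^(card U - card M + 2)`: the map from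
`(LL × LL) × (M → Bool) × ({u // u ∉ M} → LL) × LL × LL` to patterns is surjective onto these
patterns (choose two values containing the values on `M`).
-/

set_option autoImplicit false

namespace Pool.Agent.H77.K4

open Finset Pool.Agent.H77.SV

theorem abs_sg_le (t : ZMod 2) : |sg t| ≤ 1 := by
  unfold sg
  split_ifs <;> simp

theorem Tm_le {U D : Type} [Fintype U] [DecidableEq U] [AddCommGroup D] [Module (ZMod 2) D] [Fintype D]
    (X : Dat U D) (v : U → LL) (vq vr : LL) :
    |X.Tm v vq vr| ≤ (1 / 4 : ℝ) ^ (Fintype.card U + 2) * X.K0 := by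
  classical
  unfold Dat.Tm
  rw [abs_mul, abs_of_nonneg (by positivity : (0 : ℝ) ≤ (1 / 4 : ℝ) ^ (Fintype.card U + 2))]
  refine mul_le_mul_of_nonneg_left ?_ (by positivity)
  have h1 : |∑ d : D, if (∀ u, X.a u d = (v u).1) ∧ X.aq d = vq.1 ∧ X.ar d = vr.1 then
      (∏ u, sg (dot (v u).2 (X.y u d))) * sg (dot vq.2 (X.yq d)) * sg (dot vr.2 (X.yr d)) else 0| ≤
      ∑ d : D, if (∀ u, X.a u d = (v u).1) ∧ X.aq d = vq.1 ∧ X.ar d = vr.1 then (1 : ℝ) else 0 := by
    refine (abs_sum_le_sum_abs _ _).trans (sum_le_sum fun d _ => ?_)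
    split_ifs with h
    · rw [abs_mul, abs_mul, abs_prod]
      have h2 : ∏ u, |sg (dot (v u).2 (X.y u d))| ≤ 1 :=
        prod_le_one (fun _ _ => abs_nonneg _) (fun _ _ => abs_sg_le _)
      have h3 := abs_sg_le (dot vq.2 (X.yq d))
      have h4 := abs_sg_le (dot vr.2 (X.yr d))
      have h5 : 0 ≤ ∏ u, |sg (dot (v u).2 (X.y u d))| := prod_nonneg fun _ _ => abs_nonneg _
      calc (∏ u, |sg (dot (v u).2 (X.y u d))|) * |sg (dot vq.2 (X.yq d))| *
            |sg (dot vr.2 (X.yr d))| ≤ 1 * 1 * 1 :=
          mul_le_mul (mul_le_mul h2 h3 (abs_nonneg _) (by norm_num)) h4 (abs_nonneg _)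
            (by norm_num)
        _ = 1 := by norm_num
    · simp
  refine h1.trans ?_
  rw [← sum_filter, sum_const, nsmul_eq_mul, mul_one]
  have h2 : (univ.filter fun d : D => (∀ u, X.a u d = (v u).1) ∧ X.aq d = vq.1 ∧
      X.ar d = vr.1).card ≤ X.K0 := by
    rcases (univ.filter fun d : D => (∀ u, X.a u d = (v u).1) ∧ X.aq d = vq.1 ∧
      X.ar d = vr.1).eq_empty_or_nonempty with he | ⟨d0, hd0⟩
    · rw [he]
      simp
    · rw [mem_filter] at hd0
      obtain ⟨-, h1, h2, h3⟩ := hd0
      unfold Dat.K0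
      rw [Nat.card_eq_fintype_card, Fintype.card_subtype]
      refine card_le_card_of_injOn (fun d => d - d0) ?_ ?_
      · intro d hd
        rw [mem_coe, mem_filter] at hd
        obtain ⟨-, g1, g2, g3⟩ := hd
        rw [mem_coe, mem_filter]
        refine ⟨mem_univ _, fun u => ?_, ?_, ?_⟩
        · rw [map_sub, g1 u, h1 u, sub_self]
        · rw [map_sub, g2, h2, sub_self]
        · rw [map_sub, g3, h3, sub_self]
      · intro d _ e _ h
        exact sub_left_injective h
  exact_mod_cast h2

theorem two_values {U : Type} (M : Finset U) (v : U → LL) [DecidableEq LL]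
    (h : (M.image v).card ≤ 2) : ∃ w1 w2 : LL, ∀ u ∈ M, v u = w1 ∨ v u = w2 := by
  rcases (M.image v).eq_empty_or_nonempty with he | ⟨w1, hw1⟩
  · refine ⟨0, 0, fun u hu => ?_⟩
    exact absurd (mem_image_of_mem v hu) (by rw [he]; simp)
  · have h1 : ((M.image v).erase w1).card ≤ 1 := by
      rw [card_erase_of_mem hw1]
      omega
    rcases ((M.image v).erase w1).eq_empty_or_nonempty with he | ⟨w2, hw2⟩
    · refine ⟨w1, w1, fun u hu => ?_⟩
      left
      by_contra hne
      have : v u ∈ (M.image v).erase w1 := mem_erase.2 ⟨hne, mem_image_of_mem v hu⟩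
      rw [he] at this
      simp at this
    · refine ⟨w1, w2, fun u hu => ?_⟩
      by_cases hne : v u = w1
      · exact Or.inl hne
      · right
        exact card_le_one.1 h1 _ (mem_erase.2 ⟨hne, mem_image_of_mem v hu⟩) _ hw2

open Classical in
theorem card_deg {U : Type} [Fintype U] [DecidableEq U] (M : Finset U) :
    ((univ : Finset ((U → LL) × LL × LL)).filter fun x => (M.image x.1).card ≤ 2).card ≤
      16 ^ 2 * 2 ^ M.card * 16 ^ (Fintype.card U - M.card + 2) := by
  let T : Type := (LL × LL) × (M → Bool) × ({u // u ∉ M} → LL) × LL × LL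
  let F : T → (U → LL) × LL × LL := fun t =>
    (fun u => if h : u ∈ M then (if t.2.1 ⟨u, h⟩ then t.1.1 else t.1.2) else t.2.2.1 ⟨u, h⟩,
      t.2.2.2.1, t.2.2.2.2)
  have hT : Fintype.card T = 16 ^ 2 * 2 ^ M.card * 16 ^ (Fintype.card U - M.card + 2) := by
    have hLL : Fintype.card LL = 16 := by
      simp [LL, V2]
    have h1 : Fintype.card {u // u ∉ M} = Fintype.card U - M.card := by
      rw [Fintype.card_subtype_compl, Fintype.card_coe]
    simp only [T, Fintype.card_prod, Fintype.card_fun, Fintype.card_bool, Fintype.card_coe, hLL, h1]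
    ring
  rw [← hT, ← card_univ (α := T)]
  refine card_le_card_of_surjOn F ?_
  rintro ⟨v, q, r⟩ hx
  rw [mem_coe, mem_filter] at hx
  obtain ⟨w1, w2, hw⟩ := two_values M v (by convert hx.2)
  refine ⟨((w1, w2), (fun u => decide (v u = w1)), (fun u => v u), q, r), mem_coe.2 (mem_univ _), ?_⟩
  refine Prod.ext (funext fun u => ?_) rfl
  simp only [F]
  split_ifs with h h2
  · have h3 : v u = w1 := by simpa using h2
    exact h3.symm
  · rcases hw u h with h3 | h3
    · exact absurd h3 (by simpa using h2)
    · exact h3.symm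
  · rfl

end Pool.Agent.H77.K4
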