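import Pool.Agent.H77.K4.Defs
import Pool.Agent.H77.SV.Lc

/-!
# B1: symbols

* `bt_neg_one`, `bt_two`: the supplementary laws (`jacobiSym.at_neg_one`, `jacobiSym.at_two`,
  `ZMod.χ₄`, `ZMod.χ₈` evaluated at `p mod 8`).
* `bt_qr`: quadratic reciprocity: `bt p q + bt q p = bt p (-1) * bt q (-1)` (the right-hand side is
  `1` iff `p = q = 3 mod 4`). `jacobiSym.quadratic_reciprocity'` or `ZMod.legendreSym` versions.
* `bt_mulN`, `bt_prod`: multiplicativity (`bt_mul` in `SV/Lc.lean`).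
* `bt_sq`: `bt p (a * a) = 0`.
-/

set_option autoImplicit false

namespace Pool.Agent.H77.K4

open Finset Pool.Agent.H77.SV

private lemma b1_odd {p : ℕ} (hp : p.Prime) (h2 : p ≠ 2) : Odd p := hp.odd_of_ne_two h2

private lemma b1_jac {p : ℕ} (hp : p.Prime) {a : ℤ} (ha : ¬ (p : ℤ) ∣ a) :
    jacobiSym a p = 1 ∨ jacobiSym a p = -1 := by
  apply jacobiSym.eq_one_or_neg_one
  have h1 : ¬ p ∣ a.natAbs := fun h => ha (Int.natCast_dvd.2 h)
  have h2 : Nat.Coprime p a.natAbs := (Nat.Prime.coprime_iff_not_dvd hp).2 h1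
  rw [Int.gcd_comm]
  simpa [Int.gcd] using h2

theorem bt_neg_one {p : ℕ} (hp : p.Prime) (h2 : p ≠ 2) :
    bt p (-1) = if p % 4 = 3 then 1 else 0 := by
  have hodd := Nat.odd_iff.1 (b1_odd hp h2)
  unfold bt
  rw [jacobiSym.at_neg_one (b1_odd hp h2)]
  have h4 : p % 4 = 1 ∨ p % 4 = 3 := by omega
  rcases h4 with h | h
  · rw [ZMod.χ₄_nat_one_mod_four h, if_neg (by norm_num), if_neg (by omega)]
  · rw [ZMod.χ₄_nat_three_mod_four h, if_pos rfl, if_pos h]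

theorem bt_two {p : ℕ} (hp : p.Prime) (h2 : p ≠ 2) :
    bt p 2 = if p % 8 = 3 ∨ p % 8 = 5 then 1 else 0 := by
  have hodd := Nat.odd_iff.1 (b1_odd hp h2)
  unfold bt
  rw [jacobiSym.at_two (b1_odd hp h2)]
  have h8 : p % 8 = 1 ∨ p % 8 = 3 ∨ p % 8 = 5 ∨ p % 8 = 7 := by omega
  have hm : ZMod.χ₈ (p : ZMod 8) = ZMod.χ₈ ((p % 8 : ℕ) : ZMod 8) := by
    rw [ZMod.natCast_mod]
  rw [hm]
  rcases h8 with h | h | h | h <;> rw [h] <;> decide

theorem bt_qr {p q : ℕ} (hp : p.Prime) (hq : q.Prime) (h2 : p ≠ 2) (h2' : q ≠ 2) (hpq : p ≠ q) :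
    bt p (q : ℤ) + bt q (p : ℤ) = bt p (-1) * bt q (-1) := by
  have hop := b1_odd hp h2
  have hoq := b1_odd hq h2'
  have hp4 := Nat.odd_iff.1 hop
  have hq4 := Nat.odd_iff.1 hoq
  have hnp : ¬ (p : ℤ) ∣ (q : ℤ) := by
    rw [Int.natCast_dvd_natCast]
    intro h
    exact hpq ((Nat.prime_dvd_prime_iff_eq hp hq).1 h)
  have hnq : ¬ (q : ℤ) ∣ (p : ℤ) := by
    rw [Int.natCast_dvd_natCast]
    intro h
    exact hpq ((Nat.prime_dvd_prime_iff_eq hq hp).1 h).symm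
  rw [bt_neg_one hp h2, bt_neg_one hq h2']
  have hc : (p % 4 = 1 ∨ p % 4 = 3) := by omega
  have hc' : (q % 4 = 1 ∨ q % 4 = 3) := by omega
  unfold bt
  rcases hc with h | h
  · have e : jacobiSym (p : ℤ) q = jacobiSym (q : ℤ) p :=
      jacobiSym.quadratic_reciprocity_one_mod_four h hoq
    rw [e, if_neg (show ¬ p % 4 = 3 by omega)]
    rcases b1_jac hp hnp with h1 | h1 <;> rw [h1] <;> rcases hc' with h' | h' <;> simp [h'] <;> rfl
  · rcases hc' with h' | h'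
    · have e : jacobiSym (q : ℤ) p = jacobiSym (p : ℤ) q :=
        jacobiSym.quadratic_reciprocity_one_mod_four h' hop
      rw [← e, if_neg (show ¬ q % 4 = 3 by omega)]
      rcases b1_jac hp hnp with h1 | h1 <;> rw [h1] <;> simp [h] <;> rfl
    · have e : jacobiSym (p : ℤ) q = - jacobiSym (q : ℤ) p :=
        jacobiSym.quadratic_reciprocity_three_mod_four h h'
      rw [e, if_pos h, if_pos h']
      rcases b1_jac hp hnp with h1 | h1 <;> rw [h1] <;> simp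

theorem bt_prod {p : ℕ} (hp : p.Prime) (S : Finset ℕ) (g : ℕ → ℤ) (h : ∀ q ∈ S, ¬ (p : ℤ) ∣ g q) :
    bt p (∏ q ∈ S, g q) = ∑ q ∈ S, bt p (g q) ∧ ¬ (p : ℤ) ∣ ∏ q ∈ S, g q := by
  classical
  have hpi : Prime (p : ℤ) := Nat.prime_iff_prime_int.1 hp
  induction S using Finset.induction_on with
  | empty =>
    refine ⟨?_, ?_⟩
    · simp [bt_one]
    · rw [Finset.prod_empty]
      exact hpi.not_dvd_one
  | insert a S ha ih =>
    obtain ⟨h1, h2⟩ := ih (fun q hq => h q (Finset.mem_insert_of_mem hq))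
    have h3 := h a (Finset.mem_insert_self a S)
    rw [Finset.prod_insert ha, Finset.sum_insert ha]
    refine ⟨?_, ?_⟩
    · rw [bt_mul hp h3 h2, h1]
    · intro hd
      rcases hpi.dvd_or_dvd hd with h4 | h4
      · exact h3 h4
      · exact h2 h4

theorem bt_sq {p : ℕ} (hp : p.Prime) {a : ℤ} (h : ¬ (p : ℤ) ∣ a) : bt p (a * a) = 0 := by
  rw [bt_mul hp h h]
  exact CharTwo.add_self_eq_zero _

end Pool.Agent.H77.K4
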