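import Pool.Agent.H77.K4.B1

/-!
# B2: reciprocity

Let `d = (v, s, t)`, `d' = (v', s', t')` in `G2 Y Z`, `P = oddP Y Z`, `ε_p = bt p (-1)`,
`e_p = bt p 2`. Then `sum_(p ∈ P) [om (v_p) (y_p(d')) + om (y_p(d)) (v'_p)] = 0`.

Proof (`om` is bilinear and symmetric: `om x y = om y x`, and `om x x = 0`).
* The terms with `bt p q`, `p ≠ q`: `sum_(p ≠ q) bt p q [om v_p v'_q + om v_q v'_p]`; exchange `p`
  and `q` in the second part: `sum_(p ≠ q) (bt p q + bt q p) om v_p v'_q =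
  sum_(p ≠ q) ε_p ε_q om v_p v'_q` (`bt_qr`).
* The terms with `rho`: `rho_p (om v_p v'_p + om v_p v'_p) = 0`.
* The terms with `NN`: `om v_p (NN v'_p) + om (NN v_p) v'_p = ε_p om v_p v'_p` for each of the three
  types (finite check over `F_2`), and `ε_p = ε_p ε_p`; with the first item this gives
  `om a a'` for `a = sum_p ε_p v_p`, `a' = sum_p ε_p v'_p`.
* The terms with `t`: `om b t' + om t b'`, `b = sum_p e_p v_p`, `b' = sum_p e_p v'_p`.
* The terms with `s`: `om a s' + om s a'`.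
By the definition of `G2`: `s = (0, s2)`, `b.1 = 0`, `a.2 + s2 = t.1`, `b.2 = a.1` and the same for
`d'`. So `om a a' + om a s' + om s a' = a.1 (a'.2 + s2') + (a.2 + s2) a'.1 = a.1 t'.1 + t.1 a'.1`, and
`om b t' + om t b' = b.2 t'.1 + t.1 b'.2 = a.1 t'.1 + t.1 a'.1`. The sum is `0` in `F_2`.
-/

set_option autoImplicit false

namespace Pool.Agent.H77.K4

open Finset Pool.Agent.H77.SV

private theorem B2_two : (2 : ZMod 2) = 0 := rfl

private theorem B2_idem : ∀ x : ZMod 2, x * x = x := by decide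

private theorem B2_N (Y Z p : ℕ) (x y : V2) :
    om x (NN (typ Y Z p) (bt p (-1)) y) + om (NN (typ Y Z p) (bt p (-1)) x) y =
      bt p (-1) * om x y := by
  unfold NN om
  split_ifs
  · linear_combination (bt p (-1) * x.2 * y.2) * B2_two
  · linear_combination (bt p (-1) * x.1 * y.1) * B2_two
  · ring

private theorem B2_add_right (x y z : V2) : om x (y + z) = om x y + om x z := by
  unfold om; simp only [Prod.fst_add, Prod.snd_add]; ring

private theorem B2_add_left (x y z : V2) : om (x + y) z = om x z + om y z := by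
  unfold om; simp only [Prod.fst_add, Prod.snd_add]; ring

private theorem B2_smul_right (c : ZMod 2) (x y : V2) : om x (c • y) = c * om x y := by
  unfold om; simp only [Prod.smul_fst, Prod.smul_snd, smul_eq_mul]; ring

private theorem B2_smul_left (c : ZMod 2) (x y : V2) : om (c • x) y = c * om x y := by
  unfold om; simp only [Prod.smul_fst, Prod.smul_snd, smul_eq_mul]; ring

private theorem B2_sum_right {ι : Type} (S : Finset ι) (x : V2) (f : ι → V2) :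
    om x (∑ i ∈ S, f i) = ∑ i ∈ S, om x (f i) := by
  unfold om
  rw [Prod.fst_sum, Prod.snd_sum, mul_sum, mul_sum, ← sum_add_distrib]

private theorem B2_sum_left {ι : Type} (S : Finset ι) (x : V2) (f : ι → V2) :
    om (∑ i ∈ S, f i) x = ∑ i ∈ S, om (f i) x := by
  unfold om
  rw [Prod.fst_sum, Prod.snd_sum, sum_mul, sum_mul, ← sum_add_distrib]

private theorem B2_term (Y Z p : ℕ) (d d' : EE) :
    om (d.1 p) (yL Y Z p d') + om (yL Y Z p d) (d'.1 p) =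
      (∑ q ∈ (oddP Y Z).erase p, bt p q * om (d.1 p) (d'.1 q) +
        ∑ q ∈ (oddP Y Z).erase p, bt p q * om (d.1 q) (d'.1 p)) +
      bt p 2 * (om (d.1 p) d'.2.2 + om d.2.2 (d'.1 p)) +
      bt p (-1) * (om (d.1 p) d'.2.1 + om d.2.1 (d'.1 p)) +
      bt p (-1) * om (d.1 p) (d'.1 p) := by
  have hN := B2_N Y Z p (d.1 p) (d'.1 p)
  have h1 : yL Y Z p d' = yF Y Z d'.1 d'.2.1 d'.2.2 p := rfl
  have h2 : yL Y Z p d = yF Y Z d.1 d.2.1 d.2.2 p := rfl
  rw [h1, h2]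
  unfold yF
  simp only [B2_add_right, B2_add_left, B2_smul_right, B2_smul_left, B2_sum_right, B2_sum_left]
  linear_combination hN + (rho Y Z p * om (d.1 p) (d'.1 p)) * B2_two

private theorem B2_mem {Y Z p : ℕ} (h : p ∈ oddP Y Z) : p.Prime ∧ p ≠ 2 := by
  unfold oddP at h
  rw [mem_erase] at h
  exact ⟨Nat.prime_of_mem_primeFactors h.2, h.1⟩

theorem R1 {Y Z : ℕ} {d d' : EE} (hd : d ∈ G2 Y Z) (hd' : d' ∈ G2 Y Z) :
    ∑ p ∈ oddP Y Z, (om (d.1 p) (yL Y Z p d') + om (yL Y Z p d) (d'.1 p)) = 0 := by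
  obtain ⟨-, hs, h1, h2, h3⟩ := hd
  obtain ⟨-, hs', h1', h2', h3'⟩ := hd'
  set P := oddP Y Z with hP
  have hc1 : ∑ p ∈ P, bt p 2 * (d.1 p).1 = 0 := h1
  have hc1' : ∑ p ∈ P, bt p 2 * (d'.1 p).1 = 0 := h1'
  have hc2 : ∑ p ∈ P, bt p (-1) * (d.1 p).2 + d.2.1.2 + d.2.2.1 = 0 := h2
  have hc2' : ∑ p ∈ P, bt p (-1) * (d'.1 p).2 + d'.2.1.2 + d'.2.2.1 = 0 := h2'
  have hc3 : ∑ p ∈ P, bt p 2 * (d.1 p).2 + ∑ p ∈ P, bt p (-1) * (d.1 p).1 = 0 := by
    rw [← sum_add_distrib]; exact h3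
  have hc3' : ∑ p ∈ P, bt p 2 * (d'.1 p).2 + ∑ p ∈ P, bt p (-1) * (d'.1 p).1 = 0 := by
    rw [← sum_add_distrib]; exact h3'
  -- the double sum
  have hdouble : ∑ p ∈ P, (∑ q ∈ P.erase p, bt p q * om (d.1 p) (d'.1 q) +
      ∑ q ∈ P.erase p, bt p q * om (d.1 q) (d'.1 p)) +
      ∑ p ∈ P, bt p (-1) * om (d.1 p) (d'.1 p) =
      ∑ p ∈ P, ∑ q ∈ P, bt p (-1) * bt q (-1) * om (d.1 p) (d'.1 q) := by
    have hswap : ∑ p ∈ P, ∑ q ∈ P.erase p, bt p q * om (d.1 q) (d'.1 p) =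
        ∑ p ∈ P, ∑ q ∈ P.erase p, bt q p * om (d.1 p) (d'.1 q) := by
      apply Finset.sum_comm'
      intro x y
      simp only [mem_erase]
      constructor
      · rintro ⟨a, b, c⟩; exact ⟨⟨fun h => b h.symm, a⟩, c⟩
      · rintro ⟨⟨a, b⟩, c⟩; exact ⟨b, fun h => a h.symm, c⟩
    rw [sum_add_distrib, hswap, ← sum_add_distrib, ← sum_add_distrib]
    apply sum_congr rfl
    intro p hp
    obtain ⟨hpp, hp2⟩ := B2_mem hp
    rw [← sum_erase_add P _ hp, ← sum_add_distrib, B2_idem]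
    congr 1
    apply sum_congr rfl
    intro q hq
    rw [mem_erase] at hq
    obtain ⟨hqp, hq2⟩ := B2_mem hq.2
    rw [← bt_qr hpp hqp hp2 hq2 (Ne.symm hq.1)]
    ring
  have hprod : ∑ p ∈ P, ∑ q ∈ P, bt p (-1) * bt q (-1) * om (d.1 p) (d'.1 q) =
      (∑ p ∈ P, bt p (-1) * (d.1 p).1) * (∑ p ∈ P, bt p (-1) * (d'.1 p).2) +
      (∑ p ∈ P, bt p (-1) * (d.1 p).2) * (∑ p ∈ P, bt p (-1) * (d'.1 p).1) := by
    rw [sum_mul_sum, sum_mul_sum, ← sum_add_distrib]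
    apply sum_congr rfl
    intro p _
    rw [← sum_add_distrib]
    apply sum_congr rfl
    intro q _
    unfold om
    ring
  have ht : ∑ p ∈ P, bt p 2 * (om (d.1 p) d'.2.2 + om d.2.2 (d'.1 p)) =
      (∑ p ∈ P, bt p 2 * (d.1 p).1) * d'.2.2.2 + (∑ p ∈ P, bt p 2 * (d.1 p).2) * d'.2.2.1 +
      (d.2.2.1 * (∑ p ∈ P, bt p 2 * (d'.1 p).2) + d.2.2.2 * (∑ p ∈ P, bt p 2 * (d'.1 p).1)) := by
    rw [sum_mul, sum_mul, mul_sum, mul_sum, ← sum_add_distrib, ← sum_add_distrib,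
      ← sum_add_distrib]
    apply sum_congr rfl
    intro p _
    unfold om
    ring
  have hsg : ∑ p ∈ P, bt p (-1) * (om (d.1 p) d'.2.1 + om d.2.1 (d'.1 p)) =
      (∑ p ∈ P, bt p (-1) * (d.1 p).1) * d'.2.1.2 + (∑ p ∈ P, bt p (-1) * (d.1 p).2) * d'.2.1.1 +
      (d.2.1.1 * (∑ p ∈ P, bt p (-1) * (d'.1 p).2) +
        d.2.1.2 * (∑ p ∈ P, bt p (-1) * (d'.1 p).1)) := by
    rw [sum_mul, sum_mul, mul_sum, mul_sum, ← sum_add_distrib, ← sum_add_distrib,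
      ← sum_add_distrib]
    apply sum_congr rfl
    intro p _
    unfold om
    ring
  have hall : ∑ p ∈ P, (om (d.1 p) (yL Y Z p d') + om (yL Y Z p d) (d'.1 p)) =
      (∑ p ∈ P, (∑ q ∈ P.erase p, bt p q * om (d.1 p) (d'.1 q) +
      ∑ q ∈ P.erase p, bt p q * om (d.1 q) (d'.1 p)) +
      ∑ p ∈ P, bt p (-1) * om (d.1 p) (d'.1 p)) +
      ∑ p ∈ P, bt p 2 * (om (d.1 p) d'.2.2 + om d.2.2 (d'.1 p)) +
      ∑ p ∈ P, bt p (-1) * (om (d.1 p) d'.2.1 + om d.2.1 (d'.1 p)) := by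
    rw [← sum_add_distrib, ← sum_add_distrib, ← sum_add_distrib]
    apply sum_congr rfl
    intro p _
    rw [B2_term]
    ring
  rw [hall, hdouble, hprod, ht, hsg, hs, hs', hc1, hc1']
  generalize (∑ p ∈ P, bt p (-1) * (d.1 p).1) = a1 at *
  generalize (∑ p ∈ P, bt p (-1) * (d.1 p).2) = a2 at *
  generalize (∑ p ∈ P, bt p (-1) * (d'.1 p).1) = a1' at *
  generalize (∑ p ∈ P, bt p (-1) * (d'.1 p).2) = a2' at *
  generalize (∑ p ∈ P, bt p 2 * (d.1 p).2) = b2 at *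
  generalize (∑ p ∈ P, bt p 2 * (d'.1 p).2) = b2' at *
  linear_combination a1 * hc2' + a1' * hc2 + d'.2.2.1 * hc3 + d.2.2.1 * hc3' -
    (a1 * d'.2.2.1 + a1' * d.2.2.1) * B2_two

end Pool.Agent.H77.K4
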