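import Pool.Agent.H77.K4.Defs2

/-!
# C1: incomplete character sums

`inc_sum`: `p` an odd prime, `R ≥ 1` prime to `p`, `h : ℤ → ℝ` periodic mod `R`, `|h| ≤ 1`. Then
`|sum_(y < N) ((y + a) / p) h (y)| ≤ p R`.
Proof. The summand is periodic modulo `p R`. The sum over a full period is `0`: by the Chinese
remainder theorem `y ↦ (y mod p, y mod R)` is a bijection of `ℤ/pR`, so the sum is
`(sum_(u mod p) ((u + a)/p)) * (sum_(v mod R) h (v))` and the first factor vanishes
(`quadraticChar_sum_zero`, or `ZMod`/`MulChar.sum_eq_zero_of_ne_one`; `jacobiSym` for a prime is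
`legendreSym`). So the sum is at most the number of terms of the last, incomplete period.

`inc4`: four odd primes `p1, ..., p4 ≤ K`, one of them different from the three others; integers
`a_i`. Then `|sum_(y < N) prod_i ((y + a_i) / p_i)| ≤ K^4`. (`R` = product of the three others.)
`inc4` is also used with `a_i = a + const`; the sum is over naturals `y < N`.
-/

set_option autoImplicit false

namespace Pool.Agent.H77.K4

open Finset Pool.Agent.H77.SV

private theorem c1_abs_jz (a : ℤ) (p : ℕ) : |jz a p| ≤ 1 := by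
  unfold jz
  rcases jacobiSym.trichotomy a p with h | h | h <;> rw [h] <;> norm_num

private theorem c1_jz_add_mul (a k : ℤ) (p : ℕ) : jz (a + p * k) p = jz a p := by
  unfold jz
  rw [jacobiSym.mod_left a p, jacobiSym.mod_left (a + p * k) p]
  simp

private theorem c1_jz_of_dvd {R : ℤ} (a : ℤ) {p : ℕ} (h : (p : ℤ) ∣ R) : jz (a + R) p = jz a p := by
  obtain ⟨k, rfl⟩ := h
  exact c1_jz_add_mul a k p

private theorem c1_range_cast (p : ℕ) [NeZero p] (g : ZMod p → ℤ) :
    ∑ u ∈ range p, g (u : ZMod p) = ∑ x : ZMod p, g x := by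
  refine Finset.sum_nbij' (fun u => (u : ZMod p)) (fun x => x.val) ?_ ?_ ?_ ?_ ?_
  · intro a _; exact mem_univ _
  · intro x _; exact mem_range.2 (ZMod.val_lt x)
  · intro a ha; exact ZMod.val_cast_of_lt (mem_range.1 ha)
  · intro x _; exact ZMod.natCast_zmod_val x
  · intro a _; rfl

private theorem c1_inner {p R : ℕ} (hp : p.Prime) (h2 : p ≠ 2) (hc : p.Coprime R) (c : ℤ) :
    ∑ u ∈ range p, jz (c + R * u) p = 0 := by
  have : Fact p.Prime := ⟨hp⟩
  have hR : ((R : ℕ) : ZMod p) ≠ 0 := by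
    intro h
    rw [ZMod.natCast_eq_zero_iff] at h
    have := Nat.Coprime.eq_one_of_dvd hc h
    exact hp.one_lt.ne' this
  have h1 : ∀ u : ℕ, jz (c + R * u) p =
      ((quadraticChar (ZMod p) ((c : ZMod p) + (R : ZMod p) * (u : ZMod p)) : ℤ) : ℝ) := by
    intro u
    unfold jz
    rw [← jacobiSym.legendreSym.to_jacobiSym, legendreSym]
    push_cast
    rfl
  simp only [h1]
  rw [← Int.cast_sum]
  have h3 := c1_range_cast p (fun x => quadraticChar (ZMod p) ((c : ZMod p) + (R : ZMod p) * x))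
  rw [h3]
  have hb : Function.Bijective (fun x : ZMod p => (c : ZMod p) + (R : ZMod p) * x) := by
    constructor
    · intro x y hxy
      exact mul_left_cancel₀ hR (add_left_cancel hxy)
    · intro y
      refine ⟨(R : ZMod p)⁻¹ * (y - c), ?_⟩
      simp only
      rw [← mul_assoc, mul_inv_cancel₀ hR]
      ring
  have h4 := hb.sum_comp (fun x => quadraticChar (ZMod p) x)
  rw [h4, quadraticChar_sum_zero (by rwa [ZMod.ringChar_zmod_n]), Int.cast_zero]

private theorem c1_period {p R : ℕ} (hp : p.Prime) (h2 : p ≠ 2) (hc : p.Coprime R) (h : ℤ → ℝ)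
    (hper : ∀ y, h (y + R) = h y) (a : ℤ) :
    ∑ y ∈ range (R * p), jz ((y : ℤ) + a) p * h y = 0 := by
  have hper' : ∀ (y : ℤ) (u : ℕ), h (y + R * u) = h y := by
    intro y u
    induction u with
    | zero => simp
    | succ n ih =>
      rw [← ih, ← hper (y + R * n)]
      congr 1
      push_cast
      ring
  have key : ∀ m : ℕ, ∑ y ∈ range (R * m), jz ((y : ℤ) + a) p * h y =
      ∑ v ∈ range R, h v * ∑ u ∈ range m, jz ((v + a : ℤ) + R * u) p := by
    intro m
    induction m with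
    | zero => simp
    | succ n ih =>
      rw [Nat.mul_succ, sum_range_add, ih, ← sum_add_distrib]
      refine sum_congr rfl fun v _ => ?_
      rw [sum_range_succ, mul_add]
      congr 1
      have e : (((R * n + v : ℕ)) : ℤ) = (v : ℤ) + R * n := by push_cast; ring
      rw [e, hper']
      rw [mul_comm]
      congr 2
      ring
  rw [key]
  refine sum_eq_zero fun v _ => ?_
  rw [c1_inner hp h2 hc, mul_zero]

theorem inc_sum {p R : ℕ} (hp : p.Prime) (h2 : p ≠ 2) (hR : 0 < R) (hc : p.Coprime R) (h : ℤ → ℝ)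
    (hper : ∀ y, h (y + R) = h y) (hb : ∀ y, |h y| ≤ 1) (a : ℤ) (N : ℕ) :
    |∑ y ∈ range N, jz ((y : ℤ) + a) p * h y| ≤ p * R := by
  have hper' : ∀ (y : ℤ) (u : ℕ), h (y + R * u) = h y := by
    intro y u
    induction u with
    | zero => simp
    | succ n ih =>
      rw [← ih, ← hper (y + R * n)]
      congr 1
      push_cast
      ring
  have hshift : ∀ (a : ℤ) (m s : ℕ), ∑ y ∈ range (R * p * m + s), jz ((y : ℤ) + a) p * h y =
      ∑ y ∈ range s, jz ((y : ℤ) + a) p * h y := by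
    intro a m s
    induction m with
    | zero => simp
    | succ n ih =>
      have e : R * p * (n + 1) + s = R * p + (R * p * n + s) := by ring
      rw [e, sum_range_add, c1_period hp h2 hc h hper a, zero_add, ← ih]
      refine sum_congr rfl fun y _ => ?_
      have e1 : (((R * p + y : ℕ)) : ℤ) = (y : ℤ) + R * (p : ℕ) := by push_cast; ring
      rw [e1, hper']
      congr 1
      have e2 : (y : ℤ) + R * (p : ℕ) + a = (y + a) + p * R := by ring
      rw [e2, c1_jz_add_mul]
  have hN : N = R * p * (N / (R * p)) + N % (R * p) := (Nat.div_add_mod N (R * p)).symm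
  rw [hN, hshift]
  calc |∑ y ∈ range (N % (R * p)), jz ((y : ℤ) + a) p * h y|
      ≤ ∑ y ∈ range (N % (R * p)), |jz ((y : ℤ) + a) p * h y| := abs_sum_le_sum_abs _ _
    _ ≤ ∑ y ∈ range (N % (R * p)), (1 : ℝ) := by
        refine sum_le_sum fun y _ => ?_
        rw [abs_mul]
        exact mul_le_one₀ (c1_abs_jz _ _) (abs_nonneg _) (hb _)
    _ = ((N % (R * p) : ℕ) : ℝ) := by simp
    _ ≤ ((R * p : ℕ) : ℝ) := by
        exact_mod_cast (Nat.mod_lt _ (Nat.mul_pos hR hp.pos)).le
    _ = p * R := by push_cast; ring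

theorem inc4 {K : ℕ} (p : Fin 4 → ℕ) (a : Fin 4 → ℤ) (hp : ∀ i, (p i).Prime ∧ p i ≠ 2 ∧ p i ≤ K)
    (h : ∃ i, ∀ j, j ≠ i → p j ≠ p i) (N : ℕ) :
    |∑ y ∈ range N, ∏ i, jz ((y : ℤ) + a i) (p i)| ≤ (K : ℝ) ^ 4 := by
  obtain ⟨i, hi⟩ := h
  have h1 : ∀ y : ℕ, ∏ i, jz ((y : ℤ) + a i) (p i) =
      jz ((y : ℤ) + a i) (p i) * ∏ j ∈ univ.erase i, jz ((y : ℤ) + a j) (p j) := by
    intro y
    rw [mul_prod_erase univ (fun j => jz ((y : ℤ) + a j) (p j)) (mem_univ i)]
  simp only [h1]
  have hcop : (p i).Coprime (∏ j ∈ univ.erase i, p j) := by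
    refine Nat.Coprime.prod_right fun j hj => ?_
    rw [Nat.coprime_primes (hp i).1 (hp j).1]
    exact (hi j (ne_of_mem_erase hj)).symm
  have hpos : 0 < ∏ j ∈ univ.erase i, p j := prod_pos fun j _ => (hp j).1.pos
  have := inc_sum (hp i).1 (hp i).2.1 hpos hcop
    (fun y => ∏ j ∈ univ.erase i, jz (y + a j) (p j)) ?_ ?_ (a i) N
  · refine this.trans ?_
    have h2 : (p i : ℝ) * ((∏ j ∈ univ.erase i, p j : ℕ) : ℝ) = ∏ j, (p j : ℝ) := by
      push_cast
      rw [mul_prod_erase univ (fun j => (p j : ℝ)) (mem_univ i)]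
    rw [h2]
    calc ∏ j, (p j : ℝ) ≤ ∏ _j : Fin 4, (K : ℝ) :=
          prod_le_prod (fun j _ => Nat.cast_nonneg _) fun j _ => by exact_mod_cast (hp j).2.2
      _ = (K : ℝ) ^ 4 := by simp
  · intro y
    refine prod_congr rfl fun j hj => ?_
    have e : y + ((∏ j ∈ univ.erase i, p j : ℕ) : ℤ) + a j =
        (y + a j) + ((∏ j ∈ univ.erase i, p j : ℕ) : ℤ) := by ring
    rw [e]
    apply c1_jz_of_dvd
    exact Int.natCast_dvd_natCast.2 (dvd_prod_of_mem p hj)
  · intro y
    rw [abs_prod]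
    exact prod_le_one (fun j _ => abs_nonneg _) fun j _ => c1_abs_jz _ _

end Pool.Agent.H77.K4
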