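import Pool.Agent.H77.K4.Defs

/-!
# Definitions for the coupled patterns
-/

set_option autoImplicit false

namespace Pool.Agent.H77.K4

open Finset Pool.Agent.H77.SV

/-- real Jacobi symbol `(a / p)` -/
def jz (a : ℤ) (p : ℕ) : ℝ := ((jacobiSym a p : ℤ) : ℝ)

/-- the phase: `sum over the odd primes of X Y Z of c_p . y_p` -/
def Ph (Y Z : ℕ) (G : ℕ → LL) (s t : V2) : ZMod 2 :=
  ∑ p ∈ oddP Y Z, dot (G p).2 (yF Y Z (fun q => (G q).1) s t p)

/-- the function on primes given by `V` on primes `≤ z`, by `v` on the primes `uu j`, by `vq`, `vr`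
on the largest primes of `Y`, `Z` -/
def GV (z Y Z k : ℕ) (v : Fin k → LL) (vq vr : LL) (V : Fin (z + 1) → LL) (p : ℕ) : LL :=
  if h : p < z + 1 then V ⟨p, h⟩ else if p = lpf Y then vq else if p = lpf Z then vr else
    ∑ j : Fin k, if uu z Y Z j = p then v j else 0

/-- the odd primes of `n b c` -/
def P0 (n b c : ℕ) : Finset ℕ := ((n * b * c).primeFactors).erase 2

/-- conditions on `(n, b, c)` which do not involve `p, m, q, r`: here `Y = b q`, `Z = c r`,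
`X = n p m`, `p` is the `i`-th and `m` the `j`-th large prime of `X` -/
structure KeyOK (P : Par) (z k i j n b c : ℕ) : Prop where
  hn : 1 ≤ n
  hb : 1 ≤ b ∧ b ≤ z
  hc : 1 ≤ c ∧ c ≤ z
  hw : ∀ p : ℕ, p.Prime → p ≠ 2 → p ≤ P.w → ¬ p ∣ n * b * c
  hsq : ∀ p : ℕ, p.Prime → p ≠ 2 → ¬ p ^ 2 ∣ n * b * c
  hob : Odd b
  hoc : Odd c
  hI : ∀ l < P.J, ((P.I z l).filter (· ∣ n)).card = if l = i ∨ l = j then 0 else 1
  hm : ∀ p : ℕ, p.Prime → p ∣ n → z < p → p ≤ z ^ P.M → ∃ l < P.J, p ∈ P.I z l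
  hA : ∏ p ∈ (P0 n 1 1).filter (· ≤ z), p ≤ z ^ P.A
  hk : (n.primeFactors.filter (z < ·)).card + 2 = k

open Classical in
/-- the possible primes `m` -/
noncomputable def Mset (P : Par) (z T i j n : ℕ) : Finset ℕ :=
  (Ioc 0 (2 * T)).filter fun m => m.Prime ∧ (if j < P.J then m ∈ P.I z j else z ^ P.M < m) ∧
    ¬ m ∣ n ∧ (n.primeFactors.filter fun u => z < u ∧ u < m).card + (if i < j then 1 else 0) = j

/-- the possible primes `q` -/
def Qset (T b : ℕ) : Finset ℕ :=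
  (Ioc 0 T).filter fun q => q.Prime ∧ T / 2 < b * q ∧ b * q ≤ T ∧ (b * q) % 16 = 1

/-- four different odd primes not dividing `n b c` with `b q + c r = n p m` -/
structure Tup (n b c p m q r : ℕ) : Prop where
  hp : p.Prime
  hm : m.Prime
  hq : q.Prime
  hr : r.Prime
  p2 : p ≠ 2
  m2 : m ≠ 2
  q2 : q ≠ 2
  r2 : r ≠ 2
  pm : p ≠ m
  pq : p ≠ q
  pr : p ≠ r
  mq : m ≠ q
  mr : m ≠ r
  qr : q ≠ r
  np : ¬ p ∣ n * b * c
  nm : ¬ m ∣ n * b * c
  nq : ¬ q ∣ n * b * c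
  nr : ¬ r ∣ n * b * c
  eq : b * q + c * r = n * p * m

/-- the classes mod 8 -/
def cls (p m q r : ℕ) : Fin 8 × Fin 8 × Fin 8 × Fin 8 :=
  (Fin.ofNat 8 p, Fin.ofNat 8 m, Fin.ofNat 8 q, Fin.ofNat 8 r)

end Pool.Agent.H77.K4
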