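import Pool.Agent.H77.K4.B1
import Pool.Agent.H77.K4.Defs2

/-!
# C10: separation of the phase: the elementary symbols

Let `n b c ≠ 0` be divisible by the square of no odd prime, and fix a class `κ` mod 8 of
`(p, m, q, r)`. A function `φ` of the tuples `Tup n b c p m q r` of class `κ` is called separated
with coefficients `(c1, c2)`, `Sep n b c κ c1 c2 φ`, if
`φ(p,m,q,r) = F(p) + f(m,q) + g(m,r) + c1 [m/p] + c2 [b q/p]` (`[a/p] = bt p a`).
Sums of separated functions are separated, the coefficients add (`sep_add`, `sep_sum`), and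
multiples (`sep_mul`).

Claims (`sy`), for a tuple of class `κ`, `ε_x = bt x (-1)` depends only on `κ` (`bt_neg_one`), `bt x 2`
too (`bt_two`). All arguments below are prime to the modulus, so `bt_mul`, `bt_congr` apply.
* `[m/p]`: (1, 0); `[p/m] = [m/p] + ε_p ε_m`: (1, 0) (`bt_qr`).
* `[q/p] = [b q/p] + [b/p]`: (0, 1). `[r/p]`: `c r = - b q mod p`: `[r/p] = [c/p] + ε_p + [b q/p]`:
  (0, 1). `[p/q] = [q/p] + ε_p ε_q`, `[p/r] = [r/p] + ε_p ε_r`: (0, 1).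
* `[m/q]`, `[q/m]`, `[m/r]`, `[r/m]`: (0, 0).
* `[r/q]`: `c r = n p m mod q`: `[r/q] = [c/q] + [n/q] + [p/q] + [m/q]`: (0, 1). `[q/r]`:
  `b q = n p m mod r`: `[q/r] = [b/r] + [n/r] + [p/r] + [m/r]`: (0, 1).
* for a constant integer or an odd prime `u | n b c`: `[u/x]`, `[x/u]` with `x = p, m, q, r`: (0, 0).
* `rho (b q) (c r) x`: 
  `x = p`: `p ∤ b q, c r`, `(b q + c r)/p = n m`: `[n m c r / p]`: (1, 1).
  `x = m`: `[n p c r / m]`: (1, 0).
  `x = q`: `q | b q`: `[b c r / q] = [b c/q] + [r/q]`: (0, 1).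
  `x = r`: `r ∤ b q`, `r | c r`: `[(n p m) c / r]`: `[p/r] + ...`: (0, 1).
  `x = u` an odd prime dividing `n` (then not `b q`, `c r`): `[(n/u) p m c r / u]`: (0, 0).
  `x = u | b`: `[(b/u) q c r / u]`: (0, 0). `x = u | c`: `[n p m (c/u) r / u]`: (0, 0).
* `typ (b q) (c r) x` is `0` for `x = p, m`, `1` for `x = q`, `2` for `x = r`, and constant for `x = u`.
-/

set_option autoImplicit false

namespace Pool.Agent.H77.K4

open Finset Pool.Agent.H77.SV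

/-- separated functions on the tuples of class `κ` -/
def Sep (n b c : ℕ) (κ : Fin 8 × Fin 8 × Fin 8 × Fin 8) (c1 c2 : ZMod 2)
    (φ : ℕ → ℕ → ℕ → ℕ → ZMod 2) : Prop :=
  ∃ (F : ℕ → ZMod 2) (f g : ℕ → ℕ → ZMod 2), ∀ p m q r : ℕ, Tup n b c p m q r →
    cls p m q r = κ →
    φ p m q r = F p + f m q + g m r + c1 * bt p (m : ℤ) + c2 * bt p ((b * q : ℕ) : ℤ)

theorem sep_add {n b c : ℕ} {κ : Fin 8 × Fin 8 × Fin 8 × Fin 8} {c1 c2 c1' c2' : ZMod 2}
    {φ φ' : ℕ → ℕ → ℕ → ℕ → ZMod 2} (h : Sep n b c κ c1 c2 φ) (h' : Sep n b c κ c1' c2' φ') :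
    Sep n b c κ (c1 + c1') (c2 + c2') (fun p m q r => φ p m q r + φ' p m q r) := by
  obtain ⟨F, f, g, h⟩ := h
  obtain ⟨F', f', g', h'⟩ := h'
  refine ⟨fun p => F p + F' p, fun m q => f m q + f' m q, fun m r => g m r + g' m r,
    fun p m q r hT hk => ?_⟩
  simp only [h p m q r hT hk, h' p m q r hT hk]
  ring

theorem sep_mul {n b c : ℕ} {κ : Fin 8 × Fin 8 × Fin 8 × Fin 8} {c1 c2 : ZMod 2} (e : ZMod 2)
    {φ : ℕ → ℕ → ℕ → ℕ → ZMod 2} (h : Sep n b c κ c1 c2 φ) :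
    Sep n b c κ (e * c1) (e * c2) (fun p m q r => e * φ p m q r) := by
  obtain ⟨F, f, g, h⟩ := h
  refine ⟨fun p => e * F p, fun m q => e * f m q, fun m r => e * g m r,
    fun p m q r hT hk => ?_⟩
  simp only [h p m q r hT hk]
  ring

theorem sep_sum {n b c : ℕ} {κ : Fin 8 × Fin 8 × Fin 8 × Fin 8} {ι : Type} (S : Finset ι)
    {c1 c2 : ι → ZMod 2} {φ : ι → ℕ → ℕ → ℕ → ℕ → ZMod 2}
    (h : ∀ a ∈ S, Sep n b c κ (c1 a) (c2 a) (φ a)) :
    Sep n b c κ (∑ a ∈ S, c1 a) (∑ a ∈ S, c2 a) (fun p m q r => ∑ a ∈ S, φ a p m q r) := by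
  classical
  induction S using Finset.induction_on with
  | empty =>
    refine ⟨fun _ => 0, fun _ _ => 0, fun _ _ => 0, fun p m q r _ _ => ?_⟩
    simp
  | insert a S ha ih =>
    have h1 := sep_add (h a (mem_insert_self a S)) (ih fun x hx => h x (mem_insert_of_mem hx))
    simp only [sum_insert ha]
    exact h1

/-- the elementary symbols -/
structure Sy (n b c : ℕ) (κ : Fin 8 × Fin 8 × Fin 8 × Fin 8) : Prop where
  mp : Sep n b c κ 1 0 (fun p m _ _ => bt p (m : ℤ))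
  pm : Sep n b c κ 1 0 (fun p m _ _ => bt m (p : ℤ))
  qp : Sep n b c κ 0 1 (fun p _ q _ => bt p (q : ℤ))
  rp : Sep n b c κ 0 1 (fun p _ _ r => bt p (r : ℤ))
  pq : Sep n b c κ 0 1 (fun p _ q _ => bt q (p : ℤ))
  pr : Sep n b c κ 0 1 (fun p _ _ r => bt r (p : ℤ))
  mq : Sep n b c κ 0 0 (fun _ m q _ => bt q (m : ℤ))
  qm : Sep n b c κ 0 0 (fun _ m q _ => bt m (q : ℤ))
  mr : Sep n b c κ 0 0 (fun _ m _ r => bt r (m : ℤ))
  rm : Sep n b c κ 0 0 (fun _ m _ r => bt m (r : ℤ))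
  rq : Sep n b c κ 0 1 (fun _ _ q r => bt q (r : ℤ))
  qr : Sep n b c κ 0 1 (fun _ _ q r => bt r (q : ℤ))
  /-- any function of one of the variables -/
  one_p : ∀ F : ℕ → ZMod 2, Sep n b c κ 0 0 (fun p _ _ _ => F p)
  one_m : ∀ F : ℕ → ZMod 2, Sep n b c κ 0 0 (fun _ m _ _ => F m)
  one_q : ∀ F : ℕ → ZMod 2, Sep n b c κ 0 0 (fun _ _ q _ => F q)
  one_r : ∀ F : ℕ → ZMod 2, Sep n b c κ 0 0 (fun _ _ _ r => F r)
  rho_p : Sep n b c κ 1 1 (fun p _ q r => rho (b * q) (c * r) p)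
  rho_m : Sep n b c κ 1 0 (fun _ m q r => rho (b * q) (c * r) m)
  rho_q : Sep n b c κ 0 1 (fun _ _ q r => rho (b * q) (c * r) q)
  rho_r : Sep n b c κ 0 1 (fun _ _ q r => rho (b * q) (c * r) r)
  rho_u : ∀ u ∈ P0 n b c, Sep n b c κ 0 0 (fun _ _ q r => rho (b * q) (c * r) u)
  typ : ∀ p m q r : ℕ, Tup n b c p m q r → typ (b * q) (c * r) p = 0 ∧
    typ (b * q) (c * r) m = 0 ∧ typ (b * q) (c * r) q = 1 ∧ typ (b * q) (c * r) r = 2 ∧
    ∀ u ∈ P0 n b c, typ (b * q) (c * r) u = typ b c u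

/-! ### Auxiliary facts -/

private theorem aux_congr {p : ℕ} {a b : ℤ} (h : a ≡ b [ZMOD p]) : bt p a = bt p b := by
  unfold bt
  rw [jacobiSym.mod_left a p, jacobiSym.mod_left b p, h]

private theorem aux_mulZ {p : ℕ} (hp : p.Prime) {a b : ℤ} (ha : ¬ (p : ℤ) ∣ a)
    (hb : ¬ (p : ℤ) ∣ b) : bt p (a * b) = bt p a + bt p b := by
  have hc : ∀ x : ℤ, ¬ (p : ℤ) ∣ x → jacobiSym x p = 1 ∨ jacobiSym x p = -1 := by
    intro x hx
    refine jacobiSym.eq_one_or_neg_one ?_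
    have h1 : IsCoprime (p : ℤ) x := (Nat.prime_iff_prime_int.mp hp).coprime_iff_not_dvd.mpr hx
    exact Int.isCoprime_iff_gcd_eq_one.mp h1.symm
  unfold bt
  rw [jacobiSym.mul_left]
  rcases hc a ha with h1 | h1 <;> rcases hc b hb with h2 | h2 <;> rw [h1, h2] <;> decide

private theorem aux_mul {p : ℕ} (hp : p.Prime) {a b : ℕ} (ha : ¬ p ∣ a) (hb : ¬ p ∣ b) :
    bt p ((a * b : ℕ) : ℤ) = bt p (a : ℤ) + bt p (b : ℤ) := by
  rw [Nat.cast_mul]
  exact aux_mulZ hp (fun h => ha (Int.natCast_dvd_natCast.mp h))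
    (fun h => hb (Int.natCast_dvd_natCast.mp h))

private theorem aux_nd {p : ℕ} (hp : p.Prime) {a b : ℕ} (ha : ¬ p ∣ a) (hb : ¬ p ∣ b) :
    ¬ p ∣ a * b := fun h => (hp.dvd_mul.mp h).elim ha hb

private theorem aux_ne {p q : ℕ} (hp : p.Prime) (hq : q.Prime) (h : p ≠ q) : ¬ p ∣ q :=
  fun h' => h ((Nat.prime_dvd_prime_iff_eq hp hq).mp h')

private theorem aux_x {n b c x : ℕ} (h : ¬ x ∣ n * b * c) : ¬ x ∣ n ∧ ¬ x ∣ b ∧ ¬ x ∣ c :=
  ⟨fun h' => h (Dvd.dvd.mul_right (Dvd.dvd.mul_right h' b) c),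
    fun h' => h (Dvd.dvd.mul_right (Dvd.dvd.mul_left h' n) c),
    fun h' => h (Dvd.dvd.mul_left h' (n * b))⟩

/-- the sign bit of a class -/
private def ee (x : Fin 8) : ZMod 2 := if (x : ℕ) % 4 = 3 then 1 else 0

private theorem aux_ee {p : ℕ} (hp : p.Prime) (h2 : p ≠ 2) : bt p (-1) = ee (Fin.ofNat 8 p) := by
  rw [bt_neg_one hp h2]
  unfold ee
  have h : ((Fin.ofNat 8 p : Fin 8) : ℕ) = p % 8 := rfl
  rw [h]
  have h3 : p % 8 % 4 = p % 4 := by omega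
  rw [h3]

private theorem aux_z2 (x : ZMod 2) : x + x = 0 := by
  revert x
  decide

private theorem aux_qr {p q : ℕ} (hp : p.Prime) (hq : q.Prime) (h2 : p ≠ 2) (h2' : q ≠ 2)
    (hpq : p ≠ q) : bt q (p : ℤ) = bt p (q : ℤ) +
      ee (Fin.ofNat 8 p) * ee (Fin.ofNat 8 q) := by
  have h := bt_qr hp hq h2 h2' hpq
  rw [aux_ee hp h2, aux_ee hq h2'] at h
  rw [← h]
  linear_combination - aux_z2 (bt p (q : ℤ))

private theorem aux_neg {p b q c r : ℕ} (hp : p.Prime) (hbq : ¬ p ∣ b * q)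
    (h : p ∣ b * q + c * r) : bt p ((c * r : ℕ) : ℤ) = bt p (-1) + bt p ((b * q : ℕ) : ℤ) := by
  have h1 : ((c * r : ℕ) : ℤ) ≡ (-1) * ((b * q : ℕ) : ℤ) [ZMOD p] := by
    apply Int.ModEq.symm
    rw [Int.modEq_iff_dvd]
    have h2 : ((c * r : ℕ) : ℤ) - (-1) * ((b * q : ℕ) : ℤ) = ((b * q + c * r : ℕ) : ℤ) := by
      push_cast
      ring
    rw [h2]
    exact Int.natCast_dvd_natCast.mpr h
  rw [aux_congr h1]
  refine aux_mulZ hp ?_ (fun h => hbq (Int.natCast_dvd_natCast.mp h))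
  intro h2
  have h3 : (p : ℤ) ∣ 1 := (dvd_neg.mp h2)
  have h4 : p ∣ 1 := by exact_mod_cast h3
  exact hp.one_lt.ne' (Nat.dvd_one.mp h4)

private theorem aux_cg {p a b : ℕ} (h : a ≡ b [MOD p]) : bt p (a : ℤ) = bt p (b : ℤ) :=
  aux_congr (Int.natCast_modEq_iff.mpr h)

section
variable {n b c p m q r : ℕ} (T : Tup n b c p m q r)
include T

private theorem t_qp : bt p (q : ℤ) = bt p (b : ℤ) + bt p ((b * q : ℕ) : ℤ) := by
  have h := aux_mul T.hp (aux_x T.np).2.1 (aux_ne T.hp T.hq T.pq)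
  rw [h]
  linear_combination - aux_z2 (bt p (b : ℤ))

private theorem t_p : p ∣ b * q + c * r := by
  rw [T.eq]
  exact Dvd.dvd.mul_right (Dvd.intro_left n rfl) m

private theorem t_pbq : ¬ p ∣ b * q := aux_nd T.hp (aux_x T.np).2.1 (aux_ne T.hp T.hq T.pq)

private theorem t_pcr : ¬ p ∣ c * r := aux_nd T.hp (aux_x T.np).2.2 (aux_ne T.hp T.hr T.pr)

private theorem t_mbq : ¬ m ∣ b * q := aux_nd T.hm (aux_x T.nm).2.1 (aux_ne T.hm T.hq T.mq)

private theorem t_mcr : ¬ m ∣ c * r := aux_nd T.hm (aux_x T.nm).2.2 (aux_ne T.hm T.hr T.mr)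

private theorem t_rbq : ¬ r ∣ b * q :=
  aux_nd T.hr (aux_x T.nr).2.1 (aux_ne T.hr T.hq (Ne.symm T.qr))

private theorem t_crp : bt p ((c * r : ℕ) : ℤ) = bt p (-1) + bt p ((b * q : ℕ) : ℤ) :=
  aux_neg T.hp (t_pbq T) (t_p T)

private theorem t_rp : bt p (r : ℤ) = bt p (c : ℤ) + bt p (-1) + bt p ((b * q : ℕ) : ℤ) := by
  have h := aux_mul T.hp (aux_x T.np).2.2 (aux_ne T.hp T.hr T.pr)
  have h2 := t_crp T
  rw [h] at h2
  linear_combination h2 - aux_z2 (bt p (c : ℤ))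

private theorem t_pm : bt m (p : ℤ) = bt p (m : ℤ) +
    ee (Fin.ofNat 8 p) * ee (Fin.ofNat 8 m) := aux_qr T.hp T.hm T.p2 T.m2 T.pm

private theorem t_pq : bt q (p : ℤ) = bt p (b : ℤ) + bt p ((b * q : ℕ) : ℤ) +
    ee (Fin.ofNat 8 p) * ee (Fin.ofNat 8 q) := by
  rw [aux_qr T.hp T.hq T.p2 T.q2 T.pq, t_qp T]

private theorem t_pr : bt r (p : ℤ) = bt p (c : ℤ) + bt p (-1) + bt p ((b * q : ℕ) : ℤ) +
    ee (Fin.ofNat 8 p) * ee (Fin.ofNat 8 r) := by
  rw [aux_qr T.hp T.hr T.p2 T.r2 T.pr, t_rp T]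

omit T in
private theorem t_npm {u : ℕ} (hu : u.Prime) (h1 : ¬ u ∣ n) (h2 : ¬ u ∣ p) (h3 : ¬ u ∣ m) :
    bt u ((n * p * m : ℕ) : ℤ) = bt u (n : ℤ) + bt u (p : ℤ) + bt u (m : ℤ) := by
  rw [aux_mul hu (aux_nd hu h1 h2) h3, aux_mul hu h1 h2]

private theorem t_rq : bt q (r : ℤ) = bt q (c : ℤ) + bt q (n : ℤ) + bt q (m : ℤ) +
    (bt p (b : ℤ) + bt p ((b * q : ℕ) : ℤ) + ee (Fin.ofNat 8 p) * ee (Fin.ofNat 8 q)) := by
  have h1 : c * r ≡ n * p * m [MOD q] := by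
    rw [← T.eq]
    have h2 : b * q + c * r ≡ 0 + c * r [MOD q] :=
      Nat.ModEq.add_right _ ((Nat.modEq_zero_iff_dvd).mpr (Dvd.intro_left b rfl))
    rw [zero_add] at h2
    exact h2.symm
  have h3 := aux_cg h1
  rw [aux_mul T.hq (aux_x T.nq).2.2 (aux_ne T.hq T.hr T.qr),
    t_npm T.hq (aux_x T.nq).1 (aux_ne T.hq T.hp (Ne.symm T.pq))
      (aux_ne T.hq T.hm (Ne.symm T.mq)), t_pq T] at h3
  linear_combination h3 - aux_z2 (bt q (c : ℤ))

private theorem t_qr : bt r (q : ℤ) = bt r (b : ℤ) + bt r (n : ℤ) + bt r (m : ℤ) +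
    (bt p (c : ℤ) + bt p (-1) + bt p ((b * q : ℕ) : ℤ) +
      ee (Fin.ofNat 8 p) * ee (Fin.ofNat 8 r)) := by
  have h1 : b * q ≡ n * p * m [MOD r] := by
    rw [← T.eq]
    have h2 : b * q + c * r ≡ b * q + 0 [MOD r] :=
      Nat.ModEq.add_left _ ((Nat.modEq_zero_iff_dvd).mpr (Dvd.intro_left c rfl))
    rw [add_zero] at h2
    exact h2.symm
  have h3 := aux_cg h1
  rw [aux_mul T.hr (aux_x T.nr).2.1 (aux_ne T.hr T.hq (Ne.symm T.qr)),
    t_npm T.hr (aux_x T.nr).1 (aux_ne T.hr T.hp (Ne.symm T.pr))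
      (aux_ne T.hr T.hm (Ne.symm T.mr)), t_pr T] at h3
  linear_combination h3 - aux_z2 (bt r (b : ℤ))

private theorem t_rho_p : rho (b * q) (c * r) p =
    bt p (n : ℤ) + bt p (-1) + bt p (m : ℤ) + bt p ((b * q : ℕ) : ℤ) := by
  unfold rho
  rw [if_neg (t_pbq T), if_neg (t_pcr T)]
  have h1 : (b * q + c * r) / p = n * m := by
    rw [T.eq, show n * p * m = (n * m) * p by ring]
    exact Nat.mul_div_cancel _ T.hp.pos
  rw [h1, aux_mul T.hp (aux_nd T.hp (aux_x T.np).1 (aux_ne T.hp T.hm T.pm)) (t_pcr T),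
    aux_mul T.hp (aux_x T.np).1 (aux_ne T.hp T.hm T.pm), t_crp T]
  ring

private theorem t_rho_m : rho (b * q) (c * r) m =
    bt m (n : ℤ) + (bt p (m : ℤ) + ee (Fin.ofNat 8 p) * ee (Fin.ofNat 8 m)) + bt m (c : ℤ) +
      bt m (r : ℤ) := by
  unfold rho
  rw [if_neg (t_mbq T), if_neg (t_mcr T)]
  have h1 : (b * q + c * r) / m = n * p := by
    rw [T.eq]
    exact Nat.mul_div_cancel _ T.hm.pos
  rw [h1, aux_mul T.hm (aux_nd T.hm (aux_x T.nm).1 (aux_ne T.hm T.hp (Ne.symm T.pm))) (t_mcr T),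
    aux_mul T.hm (aux_x T.nm).1 (aux_ne T.hm T.hp (Ne.symm T.pm)),
    aux_mul T.hm (aux_x T.nm).2.2 (aux_ne T.hm T.hr T.mr), t_pm T]
  ring

private theorem t_rho_q : rho (b * q) (c * r) q =
    bt q (b : ℤ) + (bt q (c : ℤ) + (bt q (r : ℤ))) := by
  unfold rho
  rw [if_pos (Dvd.intro_left b rfl), Nat.mul_div_cancel _ T.hq.pos,
    aux_mul T.hq (aux_x T.nq).2.1 (aux_nd T.hq (aux_x T.nq).2.2 (aux_ne T.hq T.hr T.qr)),
    aux_mul T.hq (aux_x T.nq).2.2 (aux_ne T.hq T.hr T.qr)]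

private theorem t_rho_r : rho (b * q) (c * r) r =
    bt r (n : ℤ) + bt r (p : ℤ) + bt r (m : ℤ) + bt r (c : ℤ) := by
  unfold rho
  rw [if_neg (t_rbq T), if_pos (Dvd.intro_left c rfl), Nat.mul_div_cancel _ T.hr.pos, T.eq,
    aux_mul T.hr (aux_nd T.hr (aux_nd T.hr (aux_x T.nr).1 (aux_ne T.hr T.hp (Ne.symm T.pr)))
      (aux_ne T.hr T.hm (Ne.symm T.mr))) (aux_x T.nr).2.2,
    t_npm T.hr (aux_x T.nr).1 (aux_ne T.hr T.hp (Ne.symm T.pr))
      (aux_ne T.hr T.hm (Ne.symm T.mr))]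

/-- an odd prime of `n b c` divides none of `p, m, q, r` -/
private theorem t_u {u : ℕ} (hu : u.Prime) (h : u ∣ n * b * c) :
    ¬ u ∣ p ∧ ¬ u ∣ m ∧ ¬ u ∣ q ∧ ¬ u ∣ r := by
  refine ⟨fun h' => ?_, fun h' => ?_, fun h' => ?_, fun h' => ?_⟩
  · exact T.np ((Nat.prime_dvd_prime_iff_eq hu T.hp).mp h' ▸ h)
  · exact T.nm ((Nat.prime_dvd_prime_iff_eq hu T.hm).mp h' ▸ h)
  · exact T.nq ((Nat.prime_dvd_prime_iff_eq hu T.hq).mp h' ▸ h)
  · exact T.nr ((Nat.prime_dvd_prime_iff_eq hu T.hr).mp h' ▸ h)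

end

private theorem mem_P0 {n b c u : ℕ} (h : u ∈ P0 n b c) : u.Prime ∧ u ≠ 2 ∧ u ∣ n * b * c := by
  unfold P0 at h
  rw [mem_erase, Nat.mem_primeFactors] at h
  exact ⟨h.2.1, h.1, h.2.2.1⟩

theorem sy {n b c : ℕ} (hn : n * b * c ≠ 0)
    (hsq : ∀ p : ℕ, p.Prime → p ≠ 2 → ¬ p ^ 2 ∣ n * b * c)
    (κ : Fin 8 × Fin 8 × Fin 8 × Fin 8) : Sy n b c κ := by
  refine
    { mp := ?_, pm := ?_, qp := ?_, rp := ?_, pq := ?_, pr := ?_, mq := ?_, qm := ?_, mr := ?_,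
      rm := ?_, rq := ?_, qr := ?_, one_p := ?_, one_m := ?_, one_q := ?_, one_r := ?_,
      rho_p := ?_, rho_m := ?_, rho_q := ?_, rho_r := ?_, rho_u := ?_, typ := ?_ }
  · refine ⟨fun _ => 0, fun _ _ => 0, fun _ _ => 0, fun p m q r T hk => ?_⟩
    ring
  · refine ⟨fun _ => ee κ.1 * ee κ.2.1, fun _ _ => 0, fun _ _ => 0, fun p m q r T hk => ?_⟩
    beta_reduce
    rw [t_pm T, ← hk]
    simp only [cls]
    ring
  · refine ⟨fun p => bt p (b : ℤ), fun _ _ => 0, fun _ _ => 0, fun p m q r T hk => ?_⟩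
    beta_reduce
    rw [t_qp T]
    ring
  · refine ⟨fun p => bt p (c : ℤ) + bt p (-1), fun _ _ => 0, fun _ _ => 0,
      fun p m q r T hk => ?_⟩
    beta_reduce
    rw [t_rp T]
    ring
  · refine ⟨fun p => bt p (b : ℤ) + ee κ.1 * ee κ.2.2.1, fun _ _ => 0, fun _ _ => 0,
      fun p m q r T hk => ?_⟩
    beta_reduce
    rw [t_pq T, ← hk]
    simp only [cls]
    ring
  · refine ⟨fun p => bt p (c : ℤ) + bt p (-1) + ee κ.1 * ee κ.2.2.2, fun _ _ => 0, fun _ _ => 0,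
      fun p m q r T hk => ?_⟩
    beta_reduce
    rw [t_pr T, ← hk]
    simp only [cls]
    ring
  · refine ⟨fun _ => 0, fun m q => bt q (m : ℤ), fun _ _ => 0, fun p m q r T hk => ?_⟩
    ring
  · refine ⟨fun _ => 0, fun m q => bt m (q : ℤ), fun _ _ => 0, fun p m q r T hk => ?_⟩
    ring
  · refine ⟨fun _ => 0, fun _ _ => 0, fun m r => bt r (m : ℤ), fun p m q r T hk => ?_⟩
    ring
  · refine ⟨fun _ => 0, fun _ _ => 0, fun m r => bt m (r : ℤ), fun p m q r T hk => ?_⟩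
    ring
  · refine ⟨fun p => bt p (b : ℤ) + ee κ.1 * ee κ.2.2.1,
      fun m q => bt q (c : ℤ) + bt q (n : ℤ) + bt q (m : ℤ), fun _ _ => 0,
      fun p m q r T hk => ?_⟩
    beta_reduce
    rw [t_rq T, ← hk]
    simp only [cls]
    ring
  · refine ⟨fun p => bt p (c : ℤ) + bt p (-1) + ee κ.1 * ee κ.2.2.2, fun _ _ => 0,
      fun m r => bt r (b : ℤ) + bt r (n : ℤ) + bt r (m : ℤ),
      fun p m q r T hk => ?_⟩
    beta_reduce
    rw [t_qr T, ← hk]
    simp only [cls]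
    ring
  · intro F
    refine ⟨F, fun _ _ => 0, fun _ _ => 0, fun p m q r T hk => ?_⟩
    ring
  · intro F
    refine ⟨fun _ => 0, fun m _ => F m, fun _ _ => 0, fun p m q r T hk => ?_⟩
    ring
  · intro F
    refine ⟨fun _ => 0, fun _ q => F q, fun _ _ => 0, fun p m q r T hk => ?_⟩
    ring
  · intro F
    refine ⟨fun _ => 0, fun _ _ => 0, fun _ r => F r, fun p m q r T hk => ?_⟩
    ring
  · refine ⟨fun p => bt p (n : ℤ) + bt p (-1), fun _ _ => 0, fun _ _ => 0,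
      fun p m q r T hk => ?_⟩
    beta_reduce
    rw [t_rho_p T]
    ring
  · refine ⟨fun _ => ee κ.1 * ee κ.2.1, fun _ _ => 0,
      fun m r => bt m (n : ℤ) + bt m (c : ℤ) + bt m (r : ℤ), fun p m q r T hk => ?_⟩
    beta_reduce
    rw [t_rho_m T, ← hk]
    simp only [cls]
    ring
  · refine ⟨fun p => bt p (b : ℤ) + ee κ.1 * ee κ.2.2.1,
      fun m q => bt q (b : ℤ) + bt q (c : ℤ) + (bt q (c : ℤ) + bt q (n : ℤ) + bt q (m : ℤ)),
      fun _ _ => 0, fun p m q r T hk => ?_⟩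
    beta_reduce
    rw [t_rho_q T, t_rq T, ← hk]
    simp only [cls]
    ring
  · refine ⟨fun p => bt p (c : ℤ) + bt p (-1) + ee κ.1 * ee κ.2.2.2, fun _ _ => 0,
      fun m r => bt r (n : ℤ) + bt r (m : ℤ) + bt r (c : ℤ), fun p m q r T hk => ?_⟩
    beta_reduce
    rw [t_rho_r T, t_pr T, ← hk]
    simp only [cls]
    ring
  · intro u hu
    obtain ⟨hup, hu2, hud⟩ := mem_P0 hu
    have hsu := hsq u hup hu2
    by_cases hb : u ∣ b
    · obtain ⟨b', rfl⟩ := hb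
      have hc : ¬ u ∣ c := by
        rintro ⟨c', rfl⟩
        exact hsu ⟨n * b' * c', by ring⟩
      have hb' : ¬ u ∣ b' := by
        rintro ⟨b'', rfl⟩
        exact hsu ⟨n * b'' * c, by ring⟩
      refine ⟨fun _ => 0, fun _ q => bt u (b' : ℤ) + bt u (q : ℤ),
        fun _ r => bt u (c : ℤ) + bt u (r : ℤ), fun p m q r T hk => ?_⟩
      obtain ⟨h1, h2, h3, h4⟩ := t_u T hup hud
      beta_reduce
      unfold rho
      rw [if_pos (Dvd.dvd.mul_right (Dvd.intro b' rfl) q),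
        show u * b' * q / u = b' * q by
          rw [mul_assoc]; exact Nat.mul_div_cancel_left _ hup.pos,
        aux_mul hup (aux_nd hup hb' h3) (aux_nd hup hc h4), aux_mul hup hb' h3,
        aux_mul hup hc h4]
      ring
    · by_cases hc : u ∣ c
      · obtain ⟨c', rfl⟩ := hc
        have hn' : ¬ u ∣ n := by
          rintro ⟨n', rfl⟩
          exact hsu ⟨n' * b * c', by ring⟩
        have hc' : ¬ u ∣ c' := by
          rintro ⟨c'', rfl⟩
          exact hsu ⟨n * b * c'', by ring⟩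
        refine ⟨fun p => bt u (n : ℤ) + bt u (p : ℤ), fun m _ => bt u (m : ℤ),
          fun _ r => bt u (c' : ℤ) + bt u (r : ℤ), fun p m q r T hk => ?_⟩
        obtain ⟨h1, h2, h3, h4⟩ := t_u T hup hud
        beta_reduce
        unfold rho
        rw [if_neg (aux_nd hup hb h3), if_pos (Dvd.dvd.mul_right (Dvd.intro c' rfl) r),
          show u * c' * r / u = c' * r by
            rw [mul_assoc]; exact Nat.mul_div_cancel_left _ hup.pos, T.eq,
          aux_mul hup (aux_nd hup (aux_nd hup hn' h1) h2) (aux_nd hup hc' h4),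
          t_npm hup hn' h1 h2, aux_mul hup hc' h4]
        ring
      · have hn1 : u ∣ n := by
          rcases (hup.dvd_mul.mp hud) with h | h
          · rcases (hup.dvd_mul.mp h) with h | h
            · exact h
            · exact absurd h hb
          · exact absurd h hc
        obtain ⟨n', rfl⟩ := hn1
        have hn' : ¬ u ∣ n' := by
          rintro ⟨n'', rfl⟩
          exact hsu ⟨n'' * b * c, by ring⟩
        refine ⟨fun p => bt u (n' : ℤ) + bt u (p : ℤ), fun m _ => bt u (m : ℤ),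
          fun _ r => bt u (c : ℤ) + bt u (r : ℤ), fun p m q r T hk => ?_⟩
        obtain ⟨h1, h2, h3, h4⟩ := t_u T hup hud
        beta_reduce
        unfold rho
        rw [if_neg (aux_nd hup hb h3), if_neg (aux_nd hup hc h4), T.eq,
          show u * n' * p * m / u = n' * p * m by
            rw [mul_assoc, mul_assoc, Nat.mul_div_cancel_left _ hup.pos, mul_assoc],
          aux_mul hup (aux_nd hup (aux_nd hup hn' h1) h2) (aux_nd hup hc h4),
          aux_mul hup (aux_nd hup hn' h1) h2, aux_mul hup hn' h1, aux_mul hup hc h4]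
        ring
  · intro p m q r T
    have hq : q ∣ b * q := Dvd.intro_left b rfl
    have hr : r ∣ c * r := Dvd.intro_left c rfl
    refine ⟨?_, ?_, ?_, ?_, ?_⟩
    · unfold typ
      rw [if_neg (t_pbq T), if_neg (t_pcr T)]
    · unfold typ
      rw [if_neg (t_mbq T), if_neg (t_mcr T)]
    · unfold typ
      rw [if_pos hq]
    · unfold typ
      rw [if_neg (t_rbq T), if_pos hr]
    · intro u hu
      obtain ⟨hup, hu2, hud⟩ := mem_P0 hu
      obtain ⟨h1, h2, h3, h4⟩ := t_u T hup hud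
      have e1 : u ∣ b * q ↔ u ∣ b :=
        ⟨fun h => (hup.dvd_mul.mp h).resolve_right h3, fun h => Dvd.dvd.mul_right h q⟩
      have e2 : u ∣ c * r ↔ u ∣ c :=
        ⟨fun h => (hup.dvd_mul.mp h).resolve_right h4, fun h => Dvd.dvd.mul_right h r⟩
      unfold typ
      simp only [e1, e2]

end Pool.Agent.H77.K4
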