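import Pool.Agent.H77.K4.C10

/-!
# C11: separation of the phase, and the condition at 2

Hypotheses as in C10; `G0 : ℕ → LL`, `vp, vm, vq, vr ∈ LL`, `s, t` are fixed. `G` runs through the
functions with `G = G0` on `P0 n b c` and `G p = vp`, `G m = vm`, `G q = vq`, `G r = vr`.

`oddP_tup`: `oddP (b q) (c r) = P0 n b c ∪ {p, m, q, r}` (`(b q + c r)(b q)(c r) = (n b c) p m q r`).

`sep_phase`: `Ph (b q) (c r) G s t` is separated with coefficients `QQ (vp + vm)`,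
`QQ (vp + vq + vr)`. Proof: write `G1 = P0`, and expand
`Ph = sum over x ∈ oddP, y ∈ oddP, y ≠ x, of (dot c_x a_y) [y/x]
 + sum over x of { (dot c_x t) [2/x] + (dot c_x s) [-1/x] + (dot c_x a_x) rho_x
 + dot c_x (NN (typ x) [-1/x] a_x) }`, `(a_x, c_x) = G x`.
Split the sums over `P0`, `p`, `m`, `q`, `r`. All terms with `x, y ∈ P0` are constant; the terms with
one of `x, y` in `P0` are functions of one variable; the terms with `2`, `-1`, `NN` are functions of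
one variable (`typ` is constant). The remaining coefficients (use `Sy`, `sep_add`, `sep_mul`):
`c1 = dot c_p a_m + dot c_m a_p + dot c_p a_p + dot c_m a_m = QQ (vp + vm)`;
`c2 = dot c_p a_q + dot c_p a_r + dot c_q a_p + dot c_r a_p + dot c_q a_r + dot c_r a_q +
 dot c_p a_p + dot c_q a_q + dot c_r a_r = QQ (vp + vq + vr)`. (A function of the tuples which only
depends on the class and the constants is separated with coefficients 0.) Since `G` is not a function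
of the tuple in the statement, first replace `Ph` by the expression in the constants `G0, vp, ...`.

`sep_cd`: the condition at 2 only depends on `κ` and the constants (`bt_two`, `bt_neg_one` for
`p, m, q, r`).
-/

set_option autoImplicit false

namespace Pool.Agent.H77.K4

open Finset Pool.Agent.H77.SV

/-- `G` has the prescribed values -/
def Pre (n b c p m q r : ℕ) (G0 : ℕ → LL) (vp vm vq vr : LL) (G : ℕ → LL) : Prop :=
  (∀ u ∈ P0 n b c, G u = G0 u) ∧ G p = vp ∧ G m = vm ∧ G q = vq ∧ G r = vr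

theorem oddP_tup {n b c p m q r : ℕ} (hn : n * b * c ≠ 0) (h : Tup n b c p m q r) :
    oddP (b * q) (c * r) = P0 n b c ∪ {p, m, q, r} := by
  have hprod : (b * q + c * r) * (b * q) * (c * r) = n * b * c * (p * (m * (q * r))) := by
    rw [h.eq]; ring
  have h0 : n * b * c * (p * (m * (q * r))) ≠ 0 := by
    have := h.hp.ne_zero
    have := h.hm.ne_zero
    have := h.hq.ne_zero
    have := h.hr.ne_zero
    positivity
  ext x
  rw [oddP, hprod, mem_erase, Nat.mem_primeFactors, mem_union, P0, mem_erase,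
    Nat.mem_primeFactors, mem_insert, mem_insert, mem_insert, mem_singleton]
  constructor
  · rintro ⟨h2, hx, hd, _⟩
    rcases hx.dvd_mul.1 hd with hd | hd
    · exact Or.inl ⟨h2, hx, hd, hn⟩
    · right
      rcases hx.dvd_mul.1 hd with hd | hd
      · exact Or.inl ((Nat.prime_dvd_prime_iff_eq hx h.hp).1 hd)
      · rcases hx.dvd_mul.1 hd with hd | hd
        · exact Or.inr (Or.inl ((Nat.prime_dvd_prime_iff_eq hx h.hm).1 hd))
        · rcases hx.dvd_mul.1 hd with hd | hd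
          · exact Or.inr (Or.inr (Or.inl ((Nat.prime_dvd_prime_iff_eq hx h.hq).1 hd)))
          · exact Or.inr (Or.inr (Or.inr ((Nat.prime_dvd_prime_iff_eq hx h.hr).1 hd)))
  · rintro (⟨h2, hx, hd, _⟩ | hx | hx | hx | hx)
    · exact ⟨h2, hx, hd.mul_right _, h0⟩
    · rw [hx]
      exact ⟨h.p2, h.hp, (dvd_mul_right p _).mul_left _, h0⟩
    · rw [hx]
      exact ⟨h.m2, h.hm, ((dvd_mul_right m _).mul_left p).mul_left _, h0⟩
    · rw [hx]
      exact ⟨h.q2, h.hq, (((dvd_mul_right q _).mul_left m).mul_left p).mul_left _, h0⟩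
    · rw [hx]
      exact ⟨h.r2, h.hr, (((dvd_mul_left r _).mul_left m).mul_left p).mul_left _, h0⟩

private lemma nP0 {n b c x : ℕ} (h : ¬ x ∣ n * b * c) : x ∉ P0 n b c := by
  intro hx
  rw [P0, mem_erase, Nat.mem_primeFactors] at hx
  exact h hx.2.2.1

/-- sum over `oddP` -/
private lemma sumO {n b c p m q r : ℕ} (h : Tup n b c p m q r) (g : ℕ → ZMod 2) :
    ∑ y ∈ P0 n b c ∪ {p, m, q, r}, g y = ∑ y ∈ P0 n b c, g y + (g p + (g m + (g q + g r))) := by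
  rw [sum_union, sum_insert, sum_insert, sum_insert, sum_singleton]
  · simp [h.qr]
  · simp [h.mq, h.mr]
  · simp [h.pm, h.pq, h.pr]
  · rw [disjoint_left]
    intro x hx hx'
    rw [mem_insert, mem_insert, mem_insert, mem_singleton] at hx'
    rcases hx' with e | e | e | e
    · rw [e] at hx; exact nP0 h.np hx
    · rw [e] at hx; exact nP0 h.nm hx
    · rw [e] at hx; exact nP0 h.nq hx
    · rw [e] at hx; exact nP0 h.nr hx

private lemma dot_add' (c u v : V2) : dot c (u + v) = dot c u + dot c v := by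
  unfold dot
  simp only [Prod.fst_add, Prod.snd_add]
  ring

private lemma dot_smul' (c u : V2) (e : ZMod 2) : dot c (e • u) = e * dot c u := by
  unfold dot
  simp only [Prod.smul_fst, Prod.smul_snd, smul_eq_mul]
  ring

private lemma dot_sum' (c : V2) (S : Finset ℕ) (f : ℕ → V2) :
    dot c (∑ y ∈ S, f y) = ∑ y ∈ S, dot c (f y) := by
  unfold dot
  rw [Prod.fst_sum, Prod.snd_sum, mul_sum, mul_sum, ← sum_add_distrib]

/-- the expanded term of the phase -/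
private def EE1 (O : Finset ℕ) (Y Z : ℕ) (G : ℕ → LL) (s t : V2) (x : ℕ) : ZMod 2 :=
  (∑ y ∈ O, dot (G x).2 (G y).1 * bt x (y : ℤ) - dot (G x).2 (G x).1 * bt x (x : ℤ)) +
    (dot (G x).2 t * bt x 2 + dot (G x).2 s * bt x (-1) +
      dot (G x).2 (NN (typ Y Z x) (bt x (-1)) (G x).1)) + dot (G x).2 (G x).1 * rho Y Z x

private lemma term_eq {Y Z : ℕ} {G : ℕ → LL} {s t : V2} {x : ℕ} (hx : x ∈ oddP Y Z) :
    dot (G x).2 (yF Y Z (fun q => (G q).1) s t x) = EE1 (oddP Y Z) Y Z G s t x := by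
  unfold yF EE1
  rw [dot_add', dot_add', dot_add', dot_add', dot_smul', dot_smul', dot_smul', dot_sum']
  have e : ∑ y ∈ (oddP Y Z).erase x, dot (G x).2 (bt x (y : ℤ) • (G y).1) =
      ∑ y ∈ oddP Y Z, dot (G x).2 (G y).1 * bt x (y : ℤ) - dot (G x).2 (G x).1 * bt x (x : ℤ) := by
    rw [← Finset.sum_erase_eq_sub hx]
    refine sum_congr rfl fun y _ => ?_
    rw [dot_smul', mul_comm]
  rw [e]
  ring

private lemma Ph_eq {n b c p m q r : ℕ} (hn : n * b * c ≠ 0) (h : Tup n b c p m q r)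
    (G : ℕ → LL) (s t : V2) :
    Ph (b * q) (c * r) G s t =
      ∑ x ∈ P0 n b c, EE1 (P0 n b c ∪ {p, m, q, r}) (b * q) (c * r) G s t x +
      (EE1 (P0 n b c ∪ {p, m, q, r}) (b * q) (c * r) G s t p +
      (EE1 (P0 n b c ∪ {p, m, q, r}) (b * q) (c * r) G s t m +
      (EE1 (P0 n b c ∪ {p, m, q, r}) (b * q) (c * r) G s t q +
      EE1 (P0 n b c ∪ {p, m, q, r}) (b * q) (c * r) G s t r))) := by
  rw [← sumO h, ← oddP_tup hn h]
  exact sum_congr rfl fun x hx => term_eq hx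

private lemma sep_cong {n b c : ℕ} {κ : Fin 8 × Fin 8 × Fin 8 × Fin 8} {c1 c2 c1' c2' : ZMod 2}
    {φ : ℕ → ℕ → ℕ → ℕ → ZMod 2} (h : Sep n b c κ c1 c2 φ) (h1 : c1 = c1') (h2 : c2 = c2') :
    Sep n b c κ c1' c2' φ := by
  subst h1 h2
  exact h

theorem sep_phase {n b c : ℕ} (hn : n * b * c ≠ 0)
    (hsq : ∀ p : ℕ, p.Prime → p ≠ 2 → ¬ p ^ 2 ∣ n * b * c)
    (κ : Fin 8 × Fin 8 × Fin 8 × Fin 8) (G0 : ℕ → LL) (vp vm vq vr : LL) (s t : V2) :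
    ∃ (F : ℕ → ZMod 2) (f g : ℕ → ℕ → ZMod 2), ∀ p m q r : ℕ, Tup n b c p m q r →
      cls p m q r = κ → ∀ G : ℕ → LL, Pre n b c p m q r G0 vp vm vq vr G →
      Ph (b * q) (c * r) G s t = F p + f m q + g m r + QQ (vp + vm) * bt p (m : ℤ) +
        QQ (vp + vq + vr) * bt p ((b * q : ℕ) : ℤ) := by
  have S := sy hn hsq κ
  -- constants
  set KT : V2 → V2 → ℕ → Fin 3 → ZMod 2 := fun cc aa x τ =>
    dot cc t * bt x 2 + dot cc s * bt x (-1) + dot cc (NN τ (bt x (-1)) aa) with hKT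
  set PS : V2 → ℕ → ZMod 2 := fun cc x => ∑ y ∈ P0 n b c, dot cc (G0 y).1 * bt x (y : ℤ) with hPS
  -- primes of `P0`
  set φ0 : ℕ → ℕ → ℕ → ℕ → ℕ → ZMod 2 := fun x p m q r =>
    ((PS (G0 x).2 x - dot (G0 x).2 (G0 x).1 * bt x (x : ℤ)) + KT (G0 x).2 (G0 x).1 x (typ b c x)) +
      (dot (G0 x).2 vp.1 * bt x (p : ℤ) + (dot (G0 x).2 vm.1 * bt x (m : ℤ) +
      (dot (G0 x).2 vq.1 * bt x (q : ℤ) + (dot (G0 x).2 vr.1 * bt x (r : ℤ) +
      dot (G0 x).2 (G0 x).1 * rho (b * q) (c * r) x)))) with hφ0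
  have s0 : ∀ x ∈ P0 n b c, Sep n b c κ 0 0 (φ0 x) := by
    intro x hx
    refine sep_cong (sep_add (S.one_p fun _ => (PS (G0 x).2 x - dot (G0 x).2 (G0 x).1 *
      bt x (x : ℤ)) + KT (G0 x).2 (G0 x).1 x (typ b c x))
      (sep_add (sep_mul (dot (G0 x).2 vp.1) (S.one_p fun p => bt x (p : ℤ)))
      (sep_add (sep_mul (dot (G0 x).2 vm.1) (S.one_m fun m => bt x (m : ℤ)))
      (sep_add (sep_mul (dot (G0 x).2 vq.1) (S.one_q fun q => bt x (q : ℤ)))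
      (sep_add (sep_mul (dot (G0 x).2 vr.1) (S.one_r fun r => bt x (r : ℤ)))
      (sep_mul (dot (G0 x).2 (G0 x).1) (S.rho_u x hx))))))) ?_ ?_ <;> ring
  have sp : Sep n b c κ (dot vp.2 vm.1 + dot vp.2 vp.1)
      (dot vp.2 vq.1 + dot vp.2 vr.1 + dot vp.2 vp.1) (fun p m q r =>
      (PS vp.2 p + KT vp.2 vp.1 p 0) + (dot vp.2 vm.1 * bt p (m : ℤ) +
      (dot vp.2 vq.1 * bt p (q : ℤ) + (dot vp.2 vr.1 * bt p (r : ℤ) +
      dot vp.2 vp.1 * rho (b * q) (c * r) p)))) := by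
    refine sep_cong (sep_add (S.one_p fun p => PS vp.2 p + KT vp.2 vp.1 p 0)
      (sep_add (sep_mul (dot vp.2 vm.1) S.mp)
      (sep_add (sep_mul (dot vp.2 vq.1) S.qp)
      (sep_add (sep_mul (dot vp.2 vr.1) S.rp)
      (sep_mul (dot vp.2 vp.1) S.rho_p))))) ?_ ?_ <;> ring
  have sm : Sep n b c κ (dot vm.2 vp.1 + dot vm.2 vm.1) 0 (fun p m q r =>
      (PS vm.2 m + KT vm.2 vm.1 m 0) + (dot vm.2 vp.1 * bt m (p : ℤ) +
      (dot vm.2 vq.1 * bt m (q : ℤ) + (dot vm.2 vr.1 * bt m (r : ℤ) +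
      dot vm.2 vm.1 * rho (b * q) (c * r) m)))) := by
    refine sep_cong (sep_add (S.one_m fun m => PS vm.2 m + KT vm.2 vm.1 m 0)
      (sep_add (sep_mul (dot vm.2 vp.1) S.pm)
      (sep_add (sep_mul (dot vm.2 vq.1) S.qm)
      (sep_add (sep_mul (dot vm.2 vr.1) S.rm)
      (sep_mul (dot vm.2 vm.1) S.rho_m))))) ?_ ?_ <;> ring
  have sq : Sep n b c κ 0 (dot vq.2 vp.1 + dot vq.2 vr.1 + dot vq.2 vq.1) (fun p m q r =>
      (PS vq.2 q + KT vq.2 vq.1 q 1) + (dot vq.2 vp.1 * bt q (p : ℤ) +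
      (dot vq.2 vm.1 * bt q (m : ℤ) + (dot vq.2 vr.1 * bt q (r : ℤ) +
      dot vq.2 vq.1 * rho (b * q) (c * r) q)))) := by
    refine sep_cong (sep_add (S.one_q fun q => PS vq.2 q + KT vq.2 vq.1 q 1)
      (sep_add (sep_mul (dot vq.2 vp.1) S.pq)
      (sep_add (sep_mul (dot vq.2 vm.1) S.mq)
      (sep_add (sep_mul (dot vq.2 vr.1) S.rq)
      (sep_mul (dot vq.2 vq.1) S.rho_q))))) ?_ ?_ <;> ring
  have sr : Sep n b c κ 0 (dot vr.2 vp.1 + dot vr.2 vq.1 + dot vr.2 vr.1) (fun p m q r =>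
      (PS vr.2 r + KT vr.2 vr.1 r 2) + (dot vr.2 vp.1 * bt r (p : ℤ) +
      (dot vr.2 vm.1 * bt r (m : ℤ) + (dot vr.2 vq.1 * bt r (q : ℤ) +
      dot vr.2 vr.1 * rho (b * q) (c * r) r)))) := by
    refine sep_cong (sep_add (S.one_r fun r => PS vr.2 r + KT vr.2 vr.1 r 2)
      (sep_add (sep_mul (dot vr.2 vp.1) S.pr)
      (sep_add (sep_mul (dot vr.2 vm.1) S.mr)
      (sep_add (sep_mul (dot vr.2 vq.1) S.qr)
      (sep_mul (dot vr.2 vr.1) S.rho_r))))) ?_ ?_ <;> ring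
  have sA : Sep n b c κ 0 0 (fun p m q r => ∑ x ∈ P0 n b c, φ0 x p m q r) :=
    sep_cong (sep_sum (P0 n b c) s0) (by simp) (by simp)
  have c1 : 0 + ((dot vp.2 vm.1 + dot vp.2 vp.1) + ((dot vm.2 vp.1 + dot vm.2 vm.1) + (0 + 0))) =
      QQ (vp + vm) := by
    unfold QQ dot
    simp only [Prod.fst_add, Prod.snd_add]
    ring
  have c2 : 0 + ((dot vp.2 vq.1 + dot vp.2 vr.1 + dot vp.2 vp.1) + (0 +
      ((dot vq.2 vp.1 + dot vq.2 vr.1 + dot vq.2 vq.1) +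
      (dot vr.2 vp.1 + dot vr.2 vq.1 + dot vr.2 vr.1)))) = QQ (vp + vq + vr) := by
    unfold QQ dot
    simp only [Prod.fst_add, Prod.snd_add]
    ring
  obtain ⟨F, f, g, hF⟩ := sep_cong (sep_add sA (sep_add sp (sep_add sm (sep_add sq sr)))) c1 c2
  refine ⟨F, f, g, fun p m q r ht hκ G hG => ?_⟩
  rw [← hF p m q r ht hκ, Ph_eq hn ht]
  obtain ⟨hG0, hGp, hGm, hGq, hGr⟩ := hG
  obtain ⟨tp, tm, tq, tr, tu⟩ := S.typ p m q r ht
  have hps : ∀ (cc : V2) (x : ℕ), ∑ y ∈ P0 n b c ∪ {p, m, q, r}, dot cc (G y).1 * bt x (y : ℤ) =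
      PS cc x + (dot cc vp.1 * bt x (p : ℤ) + (dot cc vm.1 * bt x (m : ℤ) +
        (dot cc vq.1 * bt x (q : ℤ) + dot cc vr.1 * bt x (r : ℤ)))) := by
    intro cc x
    rw [sumO ht (fun y => dot cc (G y).1 * bt x (y : ℤ)), hGp, hGm, hGq, hGr]
    congr 1
    exact sum_congr rfl fun y hy => by rw [hG0 y hy]
  have e0 : ∑ x ∈ P0 n b c, EE1 (P0 n b c ∪ {p, m, q, r}) (b * q) (c * r) G s t x =
      ∑ x ∈ P0 n b c, φ0 x p m q r := by
    refine sum_congr rfl fun x hx => ?_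
    unfold EE1
    rw [hps, hG0 x hx, tu x hx]
    simp only [hφ0, hKT]
    ring
  have ep : EE1 (P0 n b c ∪ {p, m, q, r}) (b * q) (c * r) G s t p =
      (PS vp.2 p + KT vp.2 vp.1 p 0) + (dot vp.2 vm.1 * bt p (m : ℤ) +
      (dot vp.2 vq.1 * bt p (q : ℤ) + (dot vp.2 vr.1 * bt p (r : ℤ) +
      dot vp.2 vp.1 * rho (b * q) (c * r) p))) := by
    unfold EE1
    rw [hps, hGp, tp]
    simp only [hKT]
    ring
  have em : EE1 (P0 n b c ∪ {p, m, q, r}) (b * q) (c * r) G s t m =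
      (PS vm.2 m + KT vm.2 vm.1 m 0) + (dot vm.2 vp.1 * bt m (p : ℤ) +
      (dot vm.2 vq.1 * bt m (q : ℤ) + (dot vm.2 vr.1 * bt m (r : ℤ) +
      dot vm.2 vm.1 * rho (b * q) (c * r) m))) := by
    unfold EE1
    rw [hps, hGm, tm]
    simp only [hKT]
    ring
  have eq' : EE1 (P0 n b c ∪ {p, m, q, r}) (b * q) (c * r) G s t q =
      (PS vq.2 q + KT vq.2 vq.1 q 1) + (dot vq.2 vp.1 * bt q (p : ℤ) +
      (dot vq.2 vm.1 * bt q (m : ℤ) + (dot vq.2 vr.1 * bt q (r : ℤ) +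
      dot vq.2 vq.1 * rho (b * q) (c * r) q))) := by
    unfold EE1
    rw [hps, hGq, tq]
    simp only [hKT]
    ring
  have er : EE1 (P0 n b c ∪ {p, m, q, r}) (b * q) (c * r) G s t r =
      (PS vr.2 r + KT vr.2 vr.1 r 2) + (dot vr.2 vp.1 * bt r (p : ℤ) +
      (dot vr.2 vm.1 * bt r (m : ℤ) + (dot vr.2 vq.1 * bt r (q : ℤ) +
      dot vr.2 vr.1 * rho (b * q) (c * r) r))) := by
    unfold EE1
    rw [hps, hGr, tr]
    simp only [hKT]
    ring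
  rw [e0, ep, em, eq', er]

/-- the bit of `(2/p)` from the class -/
private def b2 (k : Fin 8) : ZMod 2 := if (k : ℕ) = 3 ∨ (k : ℕ) = 5 then 1 else 0

/-- the bit of `(-1/p)` from the class -/
private def b1 (k : Fin 8) : ZMod 2 := if (k : ℕ) % 4 = 3 then 1 else 0

private lemma bt2 {p : ℕ} (hp : p.Prime) (h2 : p ≠ 2) {k : Fin 8} (hk : Fin.ofNat 8 p = k) :
    bt p 2 = b2 k := by
  rw [bt_two hp h2, ← hk, b2]
  rfl

private lemma bt1 {p : ℕ} (hp : p.Prime) (h2 : p ≠ 2) {k : Fin 8} (hk : Fin.ofNat 8 p = k) :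
    bt p (-1) = b1 k := by
  have h : ((Fin.ofNat 8 p : Fin 8) : ℕ) = p % 8 := rfl
  rw [bt_neg_one hp h2, ← hk, b1, h]
  have : p % 8 % 4 = p % 4 := by omega
  rw [this]

theorem sep_cd {n b c : ℕ} (hn : n * b * c ≠ 0)
    (κ : Fin 8 × Fin 8 × Fin 8 × Fin 8) (G0 : ℕ → LL) (vp vm vq vr : LL) (s t : V2) :
    ∃ R : Prop, ∀ p m q r : ℕ, Tup n b c p m q r →
      cls p m q r = κ → ∀ G : ℕ → LL, Pre n b c p m q r G0 vp vm vq vr G →
      (Cd (b * q) (c * r) (fun u => (G u).1, s, t) ↔ R) := by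
  refine ⟨(∑ x ∈ P0 n b c, bt x 2 * (G0 x).1.1 + (b2 κ.1 * vp.1.1 + (b2 κ.2.1 * vm.1.1 +
      (b2 κ.2.2.1 * vq.1.1 + b2 κ.2.2.2 * vr.1.1))) = 0) ∧
    (∑ x ∈ P0 n b c, bt x (-1) * (G0 x).1.2 + (b1 κ.1 * vp.1.2 + (b1 κ.2.1 * vm.1.2 +
      (b1 κ.2.2.1 * vq.1.2 + b1 κ.2.2.2 * vr.1.2))) + s.2 + t.1 = 0) ∧
    (∑ x ∈ P0 n b c, (bt x 2 * (G0 x).1.2 + bt x (-1) * (G0 x).1.1) +
      ((b2 κ.1 * vp.1.2 + b1 κ.1 * vp.1.1) + ((b2 κ.2.1 * vm.1.2 + b1 κ.2.1 * vm.1.1) +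
      ((b2 κ.2.2.1 * vq.1.2 + b1 κ.2.2.1 * vq.1.1) +
      (b2 κ.2.2.2 * vr.1.2 + b1 κ.2.2.2 * vr.1.1)))) = 0), ?_⟩
  intro p m q r ht hκ G hG
  obtain ⟨hG0, hGp, hGm, hGq, hGr⟩ := hG
  have k1 : Fin.ofNat 8 p = κ.1 := congrArg (fun x => x.1) hκ
  have k2 : Fin.ofNat 8 m = κ.2.1 := congrArg (fun x => x.2.1) hκ
  have k3 : Fin.ofNat 8 q = κ.2.2.1 := congrArg (fun x => x.2.2.1) hκ
  have k4 : Fin.ofNat 8 r = κ.2.2.2 := congrArg (fun x => x.2.2.2) hκ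
  have e1 : cL1 (b * q) (c * r) (fun u => (G u).1, s, t) =
      ∑ x ∈ P0 n b c, bt x 2 * (G0 x).1.1 + (b2 κ.1 * vp.1.1 + (b2 κ.2.1 * vm.1.1 +
      (b2 κ.2.2.1 * vq.1.1 + b2 κ.2.2.2 * vr.1.1))) := by
    show ∑ x ∈ oddP (b * q) (c * r), bt x 2 * (G x).1.1 = _
    rw [oddP_tup hn ht, sumO ht (fun x => bt x 2 * (G x).1.1), hGp, hGm, hGq, hGr,
      bt2 ht.hp ht.p2 k1, bt2 ht.hm ht.m2 k2, bt2 ht.hq ht.q2 k3, bt2 ht.hr ht.r2 k4]
    congr 1
    exact sum_congr rfl fun x hx => by rw [hG0 x hx]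
  have e2 : cL2 (b * q) (c * r) (fun u => (G u).1, s, t) =
      ∑ x ∈ P0 n b c, bt x (-1) * (G0 x).1.2 + (b1 κ.1 * vp.1.2 + (b1 κ.2.1 * vm.1.2 +
      (b1 κ.2.2.1 * vq.1.2 + b1 κ.2.2.2 * vr.1.2))) + s.2 + t.1 := by
    show ∑ x ∈ oddP (b * q) (c * r), bt x (-1) * (G x).1.2 + s.2 + t.1 = _
    rw [oddP_tup hn ht, sumO ht (fun x => bt x (-1) * (G x).1.2), hGp, hGm, hGq, hGr,
      bt1 ht.hp ht.p2 k1, bt1 ht.hm ht.m2 k2, bt1 ht.hq ht.q2 k3, bt1 ht.hr ht.r2 k4]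
    congr 3
    exact sum_congr rfl fun x hx => by rw [hG0 x hx]
  have e3 : cL3 (b * q) (c * r) (fun u => (G u).1, s, t) =
      ∑ x ∈ P0 n b c, (bt x 2 * (G0 x).1.2 + bt x (-1) * (G0 x).1.1) +
      ((b2 κ.1 * vp.1.2 + b1 κ.1 * vp.1.1) + ((b2 κ.2.1 * vm.1.2 + b1 κ.2.1 * vm.1.1) +
      ((b2 κ.2.2.1 * vq.1.2 + b1 κ.2.2.1 * vq.1.1) +
      (b2 κ.2.2.2 * vr.1.2 + b1 κ.2.2.2 * vr.1.1)))) := by
    show ∑ x ∈ oddP (b * q) (c * r), (bt x 2 * (G x).1.2 + bt x (-1) * (G x).1.1) = _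
    rw [oddP_tup hn ht, sumO ht (fun x => bt x 2 * (G x).1.2 + bt x (-1) * (G x).1.1), hGp, hGm,
      hGq, hGr, bt2 ht.hp ht.p2 k1, bt2 ht.hm ht.m2 k2, bt2 ht.hq ht.q2 k3, bt2 ht.hr ht.r2 k4,
      bt1 ht.hp ht.p2 k1, bt1 ht.hm ht.m2 k2, bt1 ht.hq ht.q2 k3, bt1 ht.hr ht.r2 k4]
    congr 1
    exact sum_congr rfl fun x hx => by rw [hG0 x hx]
  unfold Cd
  rw [e1, e2, e3]

end Pool.Agent.H77.K4
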