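import Pool.Agent.H77.K4.C3
import Pool.Agent.H77.K4.X2

/-!
# C13: case I, the sum over `p, q, r`

Fix `i < J`, naturals `n, m, b, c ≥ 1`, `b, c ≤ z`, and functions of absolute value at most 1. Let
`S = sum over p ∈ I i, q ∈ Qset b, r ∈ Qset c with b q + c r = n p m of
F(p) f(q) g(r) sg(bt p (b q))`. Then `S = 0` if `2 T < z^(ee i) n m`, and
`|S| ≤ 1000 (n m) (2T/(n m))^(7/4)`.

Proof. If there is a term, then `T < b q + c r = n p m ≤ 2 T` (`T/2 < b q` in natural numbers means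
`T < 2 b q`), and `z^(ee i) < p ≤ z^(ff i) ≤ z^M`. So `z^(ee i) n m < 2 T`, and
`T < n m z^M`. Put `n' = n m`, `K = 2T / n'` (natural division); every `p` which occurs is `≤ K`.
`K ≤ 2T/n' < 2 z^M`, `n' > T/z^M ≥ z^(29 M)`, so `K^5 ≤ 32 z^(5M) ≤ z^(29M) ≤ n'` (`2 ≤ z`).
For `p ∈ I i` (odd prime, as `p > z ≥ 2`) and `q ∈ Qset b`: `p ∤ b` (`b ≤ z < p`), `p ≠ q` (`q > z^M`,
because `T < 2 b q ≤ 2 z q`), so `sg (bt p (b q)) = jz (b q) p`. So
`S = sum over p ∈ (I i).filter (· ≤ K), Y ≤ n' p of F(p) f'(Y) g'(n' p - Y) jz Y p` with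
`f'(Y) = f (Y / b)` if `b | Y` and `Y / b ∈ Qset b`, and `0` otherwise; the same for `g'`, `c`.
Apply `lemI`; `K ≥ 1` if there is a term, and `K^(7/4) ≤ (2T/n')^(7/4)`.
-/

set_option autoImplicit false

namespace Pool.Agent.H77.K4

open Finset Pool.Agent.H77.SV

private theorem c13_sg {p : ℕ} (hp : p.Prime) {a : ℕ} (h : ¬ p ∣ a) :
    sg (bt p ((a : ℕ) : ℤ)) = jz (a : ℤ) p := by
  have : Fact p.Prime := ⟨hp⟩
  have hg : (a : ℤ).gcd p = 1 := by
    rw [Int.gcd_natCast_natCast]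
    exact Nat.Coprime.symm ((Nat.Prime.coprime_iff_not_dvd hp).mpr h)
  unfold sg bt jz
  rcases jacobiSym.eq_one_or_neg_one hg with h1 | h1
  · rw [h1]
    norm_num
  · rw [h1]
    norm_num

private theorem c13_r (R : Finset ℕ) (c B N : ℕ) (hc : 1 ≤ c) (A : ℝ) (g : ℕ → ℝ) :
    ∑ r ∈ R, (if B + c * r = N then A * g r else 0) =
      if B ≤ N then A * (if c ∣ N - B ∧ (N - B) / c ∈ R then g ((N - B) / c) else 0) else 0 := by
  by_cases hB : B ≤ N
  · rw [if_pos hB]
    by_cases hd : c ∣ N - B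
    · obtain ⟨k, hk⟩ := hd
      have hk2 : (N - B) / c = k := by
        rw [hk]
        exact Nat.mul_div_cancel_left k hc
      have hiff : ∀ r, (B + c * r = N) ↔ r = k := by
        intro r
        constructor
        · intro h
          have h1 : c * r = c * k := by omega
          exact Nat.eq_of_mul_eq_mul_left hc h1
        · rintro rfl
          omega
      simp only [hiff]
      rw [sum_ite_eq' R k (fun r => A * g r), hk2]
      by_cases hkR : k ∈ R
      · rw [if_pos hkR, if_pos ⟨⟨k, hk⟩, hkR⟩]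
      · rw [if_neg hkR, if_neg (fun h => hkR h.2), mul_zero]
    · rw [if_neg (fun h => hd h.1), mul_zero]
      refine sum_eq_zero fun r _ => if_neg fun h => hd ⟨r, by omega⟩
  · rw [if_neg hB]
    refine sum_eq_zero fun r _ => if_neg fun h => hB (by omega)

private theorem c13_q (Q : Finset ℕ) (b N : ℕ) (hb : 1 ≤ b) (f G : ℕ → ℝ) :
    ∑ q ∈ Q, (if b * q ≤ N then f q * G (b * q) else 0) =
      ∑ Y ∈ range (N + 1), (if b ∣ Y ∧ Y / b ∈ Q then f (Y / b) else 0) * G Y := by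
  simp only [ite_mul, zero_mul]
  rw [← sum_filter, ← sum_filter]
  refine sum_nbij' (fun q => b * q) (fun Y => Y / b) ?_ ?_ ?_ ?_ ?_
  · intro q hq
    rw [mem_filter] at hq ⊢
    refine ⟨mem_range.mpr (by omega), Dvd.intro _ rfl, ?_⟩
    rw [Nat.mul_div_cancel_left q hb]
    exact hq.1
  · intro Y hY
    rw [mem_filter] at hY ⊢
    refine ⟨hY.2.2, ?_⟩
    rw [Nat.mul_div_cancel' hY.2.1]
    have := mem_range.mp hY.1
    omega
  · intro q hq
    exact Nat.mul_div_cancel_left q hb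
  · intro Y hY
    exact Nat.mul_div_cancel' (mem_filter.mp hY).2.1
  · intro q hq
    rw [Nat.mul_div_cancel_left q hb]

private theorem c13_Q {T b q : ℕ} (hq : q ∈ Qset T b) : T < 2 * (b * q) ∧ b * q ≤ T := by
  unfold Qset at hq
  rw [mem_filter] at hq
  obtain ⟨_, _, h1, h2, _⟩ := hq
  omega

theorem case1_in {P : Par} (hP : P.Adm) {z T i : ℕ} (hz : 2 ≤ z) (hT : P.TZ z T) (hi : i < P.J)
    {n m b c : ℕ} (hn : 1 ≤ n) (hm : 1 ≤ m) (hb : 1 ≤ b ∧ b ≤ z) (hc : 1 ≤ c ∧ c ≤ z)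
    (F f g : ℕ → ℝ) (hF : ∀ p, |F p| ≤ 1) (hf : ∀ p, |f p| ≤ 1) (hg : ∀ p, |g p| ≤ 1) :
    |∑ p ∈ P.I z i, ∑ q ∈ Qset T b, ∑ r ∈ Qset T c,
      if b * q + c * r = n * p * m then F p * f q * g r * sg (bt p ((b * q : ℕ) : ℤ)) else 0| ≤
      if 2 * T < z ^ P.ee i * (n * m) then 0 else
        1000 * (n * m) * ((2 * T : ℝ) / (n * m)) ^ (7 / 4 : ℝ) := by
  have hnm : 1 ≤ n * m := Nat.one_le_iff_ne_zero.mpr (by positivity)
  have hE0 : 400 ≤ P.E0 := by
    have := hP.hE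
    have := hP.hA
    omega
  have hee : 1 ≤ P.ee i := by
    unfold Par.ee
    have hB := hP.hB
    exact Nat.one_le_iff_ne_zero.mpr (by positivity)
  have hM1 : 400 ≤ P.M := by
    have h := hP.hB
    have h2 : 1 ≤ (13 * P.B) ^ P.J := Nat.one_le_iff_ne_zero.mpr (by positivity)
    unfold Par.M Par.ee
    nlinarith
  have hffM : P.ff i ≤ P.M := by
    have := ff_le_M hP hi
    omega
  -- facts on members of `I`
  have hI : ∀ p ∈ P.I z i, p.Prime ∧ z ^ P.ee i < p ∧ z < p ∧ p ≤ z ^ P.M := by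
    intro p hp
    unfold Par.I at hp
    rw [mem_filter, mem_Ioc] at hp
    refine ⟨hp.2, hp.1.1, ?_, hp.1.2.trans (Nat.pow_le_pow_right (by omega) hffM)⟩
    calc z = z ^ 1 := (pow_one z).symm
      _ ≤ z ^ P.ee i := Nat.pow_le_pow_right (by omega) hee
      _ < p := hp.1.1
  -- facts on the equation
  have heq : ∀ p ∈ P.I z i, ∀ q ∈ Qset T b, ∀ r ∈ Qset T c, b * q + c * r = n * p * m →
      T < n * m * p ∧ n * m * p ≤ 2 * T := by
    intro p _ q hq r hr h
    have h1 := c13_Q hq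
    have h2 := c13_Q hr
    have h3 : n * p * m = n * m * p := by ring
    omega
  by_cases hbig : 2 * T < z ^ P.ee i * (n * m)
  · rw [if_pos hbig]
    refine le_of_eq ?_
    rw [abs_eq_zero]
    refine sum_eq_zero fun p hp => sum_eq_zero fun q hq => sum_eq_zero fun r hr => if_neg fun h => ?_
    have h1 := heq p hp q hq r hr h
    have h2 := (hI p hp).2.1
    have h3 : z ^ P.ee i * (n * m) ≤ n * m * p := by
      rw [mul_comm]
      exact Nat.mul_le_mul_left _ h2.le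
    omega
  rw [if_neg hbig]
  have hR0 : (0 : ℝ) ≤ 1000 * (n * m) * ((2 * T : ℝ) / (n * m)) ^ (7 / 4 : ℝ) := by positivity
  by_cases hex : ∃ p ∈ P.I z i, ∃ q ∈ Qset T b, ∃ r ∈ Qset T c, b * q + c * r = n * p * m
  swap
  · have h0 : ∑ p ∈ P.I z i, ∑ q ∈ Qset T b, ∑ r ∈ Qset T c,
        (if b * q + c * r = n * p * m then F p * f q * g r * sg (bt p ((b * q : ℕ) : ℤ)) else 0) =
          0 :=
      sum_eq_zero fun p hp => sum_eq_zero fun q hq => sum_eq_zero fun r hr =>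
        if_neg fun h => hex ⟨p, hp, q, hq, r, hr, h⟩
    rw [h0, abs_zero]
    exact hR0
  obtain ⟨p0, hp0, q0, hq0, r0, hr0, h0⟩ := hex
  have h01 := heq p0 hp0 q0 hq0 r0 hr0 h0
  have hz1 : 0 < z ^ P.M := by positivity
  -- size of `n m`
  have hbound : z ^ (29 * P.M) < n * m := by
    have h1 : T < n * m * z ^ P.M := lt_of_lt_of_le h01.1 (Nat.mul_le_mul_left _ (hI p0 hp0).2.2.2)
    have h2 : z ^ (29 * P.M) * z ^ P.M < n * m * z ^ P.M := by
      calc z ^ (29 * P.M) * z ^ P.M = z ^ (30 * P.M) := by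
            rw [← pow_add]
            congr 1
            ring
        _ ≤ T := hT.1
        _ < _ := h1
    exact lt_of_mul_lt_mul_right h2 (Nat.zero_le _)
  obtain ⟨K, hKdef⟩ : ∃ K, K = 2 * T / (n * m) := ⟨_, rfl⟩
  have hKp : ∀ p, p ≤ K ↔ n * m * p ≤ 2 * T := by
    intro p
    rw [hKdef, Nat.le_div_iff_mul_le (by omega), mul_comm]
  have hK1 : 1 ≤ K := le_trans (hI p0 hp0).1.one_lt.le ((hKp p0).mpr h01.2)
  have hK2 : K ≤ 2 * z ^ P.M := by
    have h1 : T < n * m * z ^ P.M := lt_of_lt_of_le h01.1 (Nat.mul_le_mul_left _ (hI p0 hp0).2.2.2)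
    have h2 : n * m * K ≤ 2 * T := (hKp K).mp le_rfl
    have h3 : n * m * K ≤ n * m * (2 * z ^ P.M) := by
      calc n * m * K ≤ 2 * T := h2
        _ ≤ 2 * (n * m * z ^ P.M) := by omega
        _ = n * m * (2 * z ^ P.M) := by ring
    exact Nat.le_of_mul_le_mul_left h3 (by omega)
  have hKn : K ^ 5 ≤ n * m := by
    calc K ^ 5 ≤ (2 * z ^ P.M) ^ 5 := Nat.pow_le_pow_left hK2 5
      _ ≤ (z * z ^ P.M) ^ 5 := Nat.pow_le_pow_left (Nat.mul_le_mul_right _ hz) 5
      _ = z ^ ((1 + P.M) * 5) := by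
          rw [pow_mul, pow_add, pow_one]
      _ ≤ z ^ (29 * P.M) := Nat.pow_le_pow_right (by omega) (by omega)
      _ ≤ n * m := hbound.le
  -- the functions
  have hnd : ∀ p ∈ P.I z i, ∀ q ∈ Qset T b, ¬ p ∣ b * q := by
    intro p hp q hq hd
    obtain ⟨hpp, _, hzp, hpM⟩ := hI p hp
    rcases (Nat.Prime.dvd_mul hpp).mp hd with h | h
    · have := Nat.le_of_dvd (by omega) h
      omega
    · have hqp : q.Prime := by
        unfold Qset at hq
        exact (mem_filter.mp hq).2.1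
      have h1 : p = q := (Nat.prime_dvd_prime_iff_eq hpp hqp).mp h
      have h2 := (c13_Q hq).1
      have h3 : z ^ (30 * P.M) < z ^ (2 + P.M) := by
        calc z ^ (30 * P.M) ≤ T := hT.1
          _ < 2 * (b * q) := h2
          _ ≤ z * (z * z ^ P.M) := by
              rw [← h1]
              exact Nat.mul_le_mul hz (Nat.mul_le_mul hb.2 hpM)
          _ = z ^ (2 + P.M) := by
              rw [pow_add]
              ring
      have h4 := (Nat.pow_lt_pow_iff_right (by omega : 1 < z)).mp h3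
      omega
  obtain ⟨f', hf'⟩ : ∃ f' : ℕ → ℝ, ∀ Y, f' Y =
      if b ∣ Y ∧ Y / b ∈ Qset T b then f (Y / b) else 0 := ⟨_, fun _ => rfl⟩
  obtain ⟨g', hg'⟩ : ∃ g' : ℕ → ℝ, ∀ Y, g' Y =
      if c ∣ Y ∧ Y / c ∈ Qset T c then g (Y / c) else 0 := ⟨_, fun _ => rfl⟩
  have hmain : ∑ p ∈ P.I z i, ∑ q ∈ Qset T b, ∑ r ∈ Qset T c,
      (if b * q + c * r = n * p * m then F p * f q * g r * sg (bt p ((b * q : ℕ) : ℤ)) else 0) =
      ∑ p ∈ (P.I z i).filter (· ≤ K), ∑ Y ∈ range (n * m * p + 1),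
        F p * f' Y * g' (n * m * p - Y) * jz (Y : ℤ) p := by
    rw [← sum_subset (filter_subset (· ≤ K) (P.I z i))]
    · refine sum_congr rfl fun p hp => ?_
      have hpI := (mem_filter.mp hp).1
      have hN : n * p * m = n * m * p := by ring
      rw [hN]
      obtain ⟨G, hG⟩ : ∃ G : ℕ → ℝ, ∀ Y, G Y = F p * jz (Y : ℤ) p * g' (n * m * p - Y) :=
        ⟨_, fun _ => rfl⟩
      have e1 : ∀ q ∈ Qset T b, ∑ r ∈ Qset T c,
          (if b * q + c * r = n * m * p then F p * f q * g r * sg (bt p ((b * q : ℕ) : ℤ)) else 0) =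
          if b * q ≤ n * m * p then f q * G (b * q) else 0 := by
        intro q hq
        have e2 : ∀ r ∈ Qset T c,
            (if b * q + c * r = n * m * p then
              F p * f q * g r * sg (bt p ((b * q : ℕ) : ℤ)) else 0) =
            if b * q + c * r = n * m * p then
              (F p * f q * jz ((b * q : ℕ) : ℤ) p) * g r else 0 := by
          intro r _
          rw [c13_sg (hI p hpI).1 (hnd p hpI q hq)]
          split_ifs
          · ring
          · rfl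
        rw [sum_congr rfl e2, c13_r _ _ _ _ hc.1, ← hg', hG]
        split_ifs
        · ring
        · rfl
      rw [sum_congr rfl e1, c13_q (Qset T b) b (n * m * p) hb.1 f G]
      refine sum_congr rfl fun Y _ => ?_
      rw [← hf', hG]
      ring
    · intro p hp hp2
      refine sum_eq_zero fun q hq => sum_eq_zero fun r hr => if_neg fun h => hp2 ?_
      exact mem_filter.mpr ⟨hp, (hKp p).mpr (heq p hp q hq r hr h).2⟩
  rw [hmain]
  have hPp : ∀ p ∈ (P.I z i).filter (· ≤ K), p.Prime ∧ p ≠ 2 ∧ p ≤ K := by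
    intro p hp
    rw [mem_filter] at hp
    obtain ⟨hpp, _, hzp, _⟩ := hI p hp.1
    exact ⟨hpp, by omega, hp.2⟩
  have hf1 : ∀ Y, |f' Y| ≤ 1 := by
    intro Y
    rw [hf']
    split_ifs
    · exact hf _
    · rw [abs_zero]
      exact zero_le_one
  have hg1 : ∀ Y, |g' Y| ≤ 1 := by
    intro Y
    rw [hg']
    split_ifs
    · exact hg _
    · rw [abs_zero]
      exact zero_le_one
  refine (lemI (n * m) K hK1 hKn ((P.I z i).filter (· ≤ K)) hPp F f' g' hF hf1 hg1).trans ?_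
  · have hKle : (K : ℝ) ≤ (2 * T : ℝ) / (n * m) := by
      rw [hKdef]
      have h := @Nat.cast_div_le ℝ _ _ _ (2 * T) (n * m)
      push_cast at h
      exact h
    have h1 : (K : ℝ) ^ (7 / 4 : ℝ) ≤ ((2 * T : ℝ) / (n * m)) ^ (7 / 4 : ℝ) :=
      Real.rpow_le_rpow (by positivity) hKle (by norm_num)
    push_cast
    exact mul_le_mul_of_nonneg_left h1 (by positivity)

end Pool.Agent.H77.K4
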