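import Pool.Agent.H77.K4.C6
import Pool.Agent.H77.K4.X2

/-!
# C15: case II, the sum over `m, p, q, r`

Fix `i < J`, naturals `n, b, c ≥ 1`, `b, c ≤ z`, `h`, and functions of absolute value at most 1. `Mm` is
a set of primes `m` with `z^(13 ff i) < m` and `2^h < m ≤ 2^(h+1)`. Let
`S_m = sum over p ∈ I i, q ∈ Qset b, r ∈ Qset c with b q + c r = n p m of
F(p) f_m(q) g_m(r) sg(bt p m)`. Then `sum_(m ∈ Mm) |S_m| = 0` if `2T < z^(ee i) n 2^h`, and
`sum_(m ∈ Mm) |S_m| ≤ 1000 n 4^h (2T/(n 2^h))^(7/4)`.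

Proof. If there is a term then `T < n p m ≤ 2T` (see C13) and `p > z^(ee i)`, `m > 2^h`, so
`z^(ee i) n 2^h < 2T`. Put `N = 2^h`, `K = min (2T / (n N)) (z^(ff i))`; all `p` which occur are `≤ K`
(`n p m ≤ 2T`, `m > N`). `Mm` is nonempty, so `2 N ≥ m > z^(13 ff i)` and
`N ≥ z^(6 ff i) ≥ K^6`. As `p ≤ z^(ff i) < m`, `p ∤ m` and `sg (bt p m) = jz m p`. Extend the sum over
`m` to all `m ∈ (N, 2N]` with `f_m = 0` for `m ∉ Mm`, write the inner sum as a sum over `Y = b q` as in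
C13, and apply `lemII`.
-/

set_option autoImplicit false

namespace Pool.Agent.H77.K4

open Finset Pool.Agent.H77.SV

private theorem eeff_pos {P : Par} (hP : P.Adm) (i : ℕ) : 1 ≤ P.ee i ∧ 1 ≤ P.ff i := by
  have hB := hP.hB
  have hE := hP.hE
  have h1 : 1 ≤ P.ee i := by
    unfold Par.ee
    have h0 : 0 < P.E0 := by omega
    have h2 : 0 < (13 * P.B) ^ i := Nat.pow_pos (by omega)
    exact Nat.mul_pos h0 h2
  refine ⟨h1, ?_⟩
  unfold Par.ff
  exact Nat.mul_pos (by omega) h1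

private theorem inner_eq (b c X : ℕ) (A B : Finset ℕ) (u v : ℕ → ℝ) (w : ℝ) :
    ∑ q ∈ A, ∑ r ∈ B, (if b * q + c * r = X then w * u q * v r else 0) =
    ∑ Y ∈ range (X + 1), w * (∑ q ∈ A, if b * q = Y then u q else 0) *
      (∑ r ∈ B, if c * r = X - Y then v r else 0) := by
  have h1 : ∀ Y ∈ range (X + 1), w * (∑ q ∈ A, if b * q = Y then u q else 0) *
      (∑ r ∈ B, if c * r = X - Y then v r else 0) =
      ∑ q ∈ A, ∑ r ∈ B, (if b * q = Y ∧ c * r = X - Y then w * u q * v r else 0) := by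
    intro Y _
    rw [mul_assoc, Finset.sum_mul_sum, Finset.mul_sum]
    refine sum_congr rfl fun q _ => ?_
    rw [Finset.mul_sum]
    refine sum_congr rfl fun r _ => ?_
    by_cases ha : b * q = Y
    · by_cases hb : c * r = X - Y
      · rw [if_pos ha, if_pos hb, if_pos ⟨ha, hb⟩]
        ring
      · rw [if_neg hb, if_neg (show ¬ (b * q = Y ∧ c * r = X - Y) from fun h => hb h.2)]
        ring
    · rw [if_neg ha, if_neg (show ¬ (b * q = Y ∧ c * r = X - Y) from fun h => ha h.1)]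
      ring
  rw [sum_congr rfl h1]
  symm
  rw [sum_comm]
  refine sum_congr rfl fun q _ => ?_
  rw [sum_comm]
  refine sum_congr rfl fun r _ => ?_
  by_cases h : b * q + c * r = X
  · rw [if_pos h, sum_eq_single_of_mem (b * q)]
    · rw [if_pos ⟨rfl, by omega⟩]
    · exact mem_range.2 (by omega)
    · intro Y _ hY
      exact if_neg fun h' => hY h'.1.symm
  · rw [if_neg h, sum_eq_zero]
    intro Y hY
    have hY' := mem_range.1 hY
    refine if_neg fun h' => h ?_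
    obtain ⟨h1, h2⟩ := h'
    omega

private theorem one_le (b : ℕ) (hb : 1 ≤ b) (A : Finset ℕ) (u : ℕ → ℝ) (hu : ∀ q, |u q| ≤ 1)
    (Y : ℕ) : |∑ q ∈ A, if b * q = Y then u q else 0| ≤ 1 := by
  by_cases h : ∃ q ∈ A, b * q = Y
  · obtain ⟨q, hq, rfl⟩ := h
    rw [sum_eq_single_of_mem q hq]
    · rw [if_pos rfl]
      exact hu q
    · intro r _ hr
      refine if_neg fun h => hr ?_
      exact Nat.eq_of_mul_eq_mul_left hb h
  · rw [sum_eq_zero]
    · simp
    · intro q hq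
      exact if_neg fun h' => h ⟨q, hq, h'⟩

private theorem sg_jz {p m : ℕ} (hp : p.Prime) (hm : m.Prime) (h : p < m) :
    sg (bt p (m : ℤ)) = jz (m : ℤ) p := by
  have : NeZero p := ⟨hp.ne_zero⟩
  have hc : (m : ℤ).gcd (p : ℤ) = 1 := by
    rw [Int.gcd_natCast_natCast]
    exact (Nat.coprime_primes hm hp).2 (by omega)
  have h0 : jacobiSym (m : ℤ) p ≠ 0 := by
    intro h0
    exact (jacobiSym.eq_zero_iff_not_coprime.1 h0) hc
  unfold sg bt jz
  rcases jacobiSym.trichotomy (m : ℤ) p with h1 | h1 | h1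
  · exact absurd h1 h0
  · rw [h1]
    norm_num
  · rw [h1]
    norm_num


theorem case2_in {P : Par} (hP : P.Adm) {z T i : ℕ} (hz : 2 ≤ z) (hT : P.TZ z T) (hi : i < P.J)
    {n b c : ℕ} (hn : 1 ≤ n) (hb : 1 ≤ b ∧ b ≤ z) (hc : 1 ≤ c ∧ c ≤ z) (h : ℕ) (Mm : Finset ℕ)
    (hM : ∀ m ∈ Mm, m.Prime ∧ z ^ (13 * P.ff i) < m ∧ 2 ^ h < m ∧ m ≤ 2 ^ (h + 1))
    (F : ℕ → ℝ) (f g : ℕ → ℕ → ℝ) (hF : ∀ p, |F p| ≤ 1) (hf : ∀ m p, |f m p| ≤ 1)
    (hg : ∀ m p, |g m p| ≤ 1) :
    ∑ m ∈ Mm, |∑ p ∈ P.I z i, ∑ q ∈ Qset T b, ∑ r ∈ Qset T c,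
      if b * q + c * r = n * p * m then F p * f m q * g m r * sg (bt p (m : ℤ)) else 0| ≤
      if 2 * T < z ^ P.ee i * (n * 2 ^ h) then 0 else
        1000 * n * 4 ^ h * ((2 * T : ℝ) / (n * 2 ^ h)) ^ (7 / 4 : ℝ) := by
  obtain ⟨hee, hff⟩ := eeff_pos hP i
  have hzee : 2 ≤ z ^ P.ee i := by
    calc 2 ≤ z := hz
      _ = z ^ 1 := (pow_one z).symm
      _ ≤ z ^ P.ee i := Nat.pow_le_pow_right (by omega) hee
  have hN : 0 < 2 ^ h := Nat.pow_pos (by norm_num)
  -- a term forces an inequality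
  have key : ∀ m ∈ Mm, ∀ p ∈ P.I z i, ∀ q ∈ Qset T b, ∀ r ∈ Qset T c,
      b * q + c * r = n * p * m → n * p * 2 ^ h ≤ 2 * T := by
    intro m hm p _ q hq r hr he
    have h1 : b * q ≤ T := (mem_filter.1 hq).2.2.2.1
    have h2 : c * r ≤ T := (mem_filter.1 hr).2.2.2.1
    have h3 : n * p * 2 ^ h ≤ n * p * m := Nat.mul_le_mul_left _ (hM m hm).2.2.1.le
    omega
  by_cases hcase : 2 * T < z ^ P.ee i * (n * 2 ^ h)
  · rw [if_pos hcase]
    refine le_of_eq (sum_eq_zero fun m hm => ?_)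
    rw [abs_eq_zero]
    refine sum_eq_zero fun p hp => sum_eq_zero fun q hq => sum_eq_zero fun r hr => if_neg ?_
    intro he
    have h1 := key m hm p hp q hq r hr he
    have h2 : z ^ P.ee i < p := (mem_Ioc.1 (mem_filter.1 hp).1).1
    have h3 : z ^ P.ee i * (n * 2 ^ h) ≤ p * (n * 2 ^ h) := Nat.mul_le_mul_right _ h2.le
    have h4 : p * (n * 2 ^ h) = n * p * 2 ^ h := by ring
    omega
  · rw [if_neg hcase]
    rcases Mm.eq_empty_or_nonempty with rfl | ⟨m0, hm0⟩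
    · rw [sum_empty]
      positivity
    have hnN : 0 < n * 2 ^ h := Nat.mul_pos hn hN
    set K : ℕ := min (2 * T / (n * 2 ^ h)) (z ^ P.ff i) with hKdef
    have hK1 : 1 ≤ K := by
      refine le_min ?_ (Nat.pow_pos (by omega))
      rw [Nat.le_div_iff_mul_le hnN]
      have : 1 * (n * 2 ^ h) ≤ z ^ P.ee i * (n * 2 ^ h) := Nat.mul_le_mul_right _ (by omega)
      omega
    have hKN : K ^ 6 ≤ 2 ^ h := by
      have h1 : K ^ 6 ≤ (z ^ P.ff i) ^ 6 := Nat.pow_le_pow_left (min_le_right _ _) 6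
      have h2 : 2 * (z ^ P.ff i) ^ 6 ≤ z ^ (13 * P.ff i) := by
        have e1 : z ^ (13 * P.ff i) = (z ^ P.ff i) ^ 7 * (z ^ P.ff i) ^ 6 := by
          rw [← pow_add, ← pow_mul]
          congr 1
          ring
        rw [e1]
        refine Nat.mul_le_mul_right _ ?_
        have e2 : z ≤ z ^ P.ff i := by
          calc z = z ^ 1 := (pow_one z).symm
            _ ≤ z ^ P.ff i := Nat.pow_le_pow_right (by omega) hff
        calc 2 ≤ z ^ P.ff i := by omega
          _ = (z ^ P.ff i) ^ 1 := (pow_one _).symm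
          _ ≤ (z ^ P.ff i) ^ 7 := Nat.pow_le_pow_right (by omega) (by norm_num)
      have h3 := (hM m0 hm0).2.1
      have h4 := (hM m0 hm0).2.2.2
      have h5 : 2 ^ (h + 1) = 2 * 2 ^ h := by ring
      omega
    set Pp : Finset ℕ := (P.I z i).filter (· ≤ K) with hPp
    have hPpp : ∀ p ∈ Pp, p.Prime ∧ p ≠ 2 ∧ p ≤ K := by
      intro p hp
      obtain ⟨h1, h2⟩ := mem_filter.1 hp
      obtain ⟨h3, h4⟩ := mem_filter.1 h1
      have h5 := (mem_Ioc.1 h3).1
      exact ⟨h4, by omega, h2⟩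
    set f' : ℕ → ℕ → ℝ := fun m Y => ∑ q ∈ Qset T b, if b * q = Y then f m q else 0 with hf'
    set g' : ℕ → ℕ → ℝ := fun m Y => ∑ r ∈ Qset T c, if c * r = Y then g m r else 0 with hg'
    have hlem := lemII n (2 ^ h) K hn hK1 hKN Pp hPpp F f' g' hF
      (fun m Y => one_le b hb.1 _ _ (hf m) Y) (fun m Y => one_le c hc.1 _ _ (hg m) Y)
    have hin : ∀ m ∈ Mm, (∑ p ∈ P.I z i, ∑ q ∈ Qset T b, ∑ r ∈ Qset T c,
        if b * q + c * r = n * p * m then F p * f m q * g m r * sg (bt p (m : ℤ)) else 0) =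
        ∑ p ∈ Pp, ∑ Y ∈ range (n * m * p + 1),
          F p * jz (m : ℤ) p * f' m Y * g' m (n * m * p - Y) := by
      intro m hm
      rw [hPp, sum_filter]
      refine sum_congr rfl fun p hp => ?_
      obtain ⟨hp1, hp2⟩ := mem_filter.1 hp
      obtain ⟨hp3, hp4⟩ := mem_Ioc.1 hp1
      by_cases hpK : p ≤ K
      · rw [if_pos hpK]
        have hpm : p < m := by
          have h1 := (hM m hm).2.1
          have h2 : z ^ P.ff i ≤ z ^ (13 * P.ff i) := Nat.pow_le_pow_right (by omega) (by omega)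
          omega
        have h1 := inner_eq b c (n * m * p) (Qset T b) (Qset T c) (f m) (g m)
          (F p * jz (m : ℤ) p)
        rw [← h1]
        refine sum_congr rfl fun q _ => sum_congr rfl fun r _ => ?_
        have h2 : n * p * m = n * m * p := by ring
        rw [h2, sg_jz hp2 (hM m hm).1 hpm]
        split_ifs
        · ring
        · rfl
      · rw [if_neg hpK]
        refine sum_eq_zero fun q hq => sum_eq_zero fun r hr => if_neg ?_
        intro he
        apply hpK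
        have h1 := key m hm p hp q hq r hr he
        refine le_min ?_ hp4
        rw [Nat.le_div_iff_mul_le hnN]
        have h4 : p * (n * 2 ^ h) = n * p * 2 ^ h := by ring
        omega
    have hsub : Mm ⊆ Ioc (2 ^ h) (2 * 2 ^ h) := by
      intro m hm
      have h3 := (hM m hm).2.2
      have h5 : 2 ^ (h + 1) = 2 * 2 ^ h := by ring
      rw [mem_Ioc]
      omega
    calc ∑ m ∈ Mm, |∑ p ∈ P.I z i, ∑ q ∈ Qset T b, ∑ r ∈ Qset T c,
          if b * q + c * r = n * p * m then F p * f m q * g m r * sg (bt p (m : ℤ)) else 0|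
        = ∑ m ∈ Mm, |∑ p ∈ Pp, ∑ Y ∈ range (n * m * p + 1),
          F p * jz (m : ℤ) p * f' m Y * g' m (n * m * p - Y)| :=
          sum_congr rfl fun m hm => by rw [hin m hm]
      _ ≤ ∑ m ∈ Ioc (2 ^ h) (2 * 2 ^ h), |∑ p ∈ Pp, ∑ Y ∈ range (n * m * p + 1),
          F p * jz (m : ℤ) p * f' m Y * g' m (n * m * p - Y)| :=
          sum_le_sum_of_subset_of_nonneg hsub fun _ _ _ => abs_nonneg _
      _ ≤ 1000 * n * ((2 ^ h : ℕ) : ℝ) ^ 2 * (K : ℝ) ^ (7 / 4 : ℝ) := hlem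
      _ ≤ 1000 * n * 4 ^ h * ((2 * T : ℝ) / (n * 2 ^ h)) ^ (7 / 4 : ℝ) := by
          have e1 : ((2 ^ h : ℕ) : ℝ) ^ 2 = 4 ^ h := by
            push_cast
            rw [← pow_mul, mul_comm, pow_mul]
            norm_num
          have e2 : (K : ℝ) ≤ (2 * T : ℝ) / (n * 2 ^ h) := by
            have h1 : (K : ℝ) ≤ ((2 * T / (n * 2 ^ h) : ℕ) : ℝ) := by
              exact_mod_cast min_le_left _ _
            have h2 : ((2 * T / (n * 2 ^ h) : ℕ) : ℝ) ≤
                ((2 * T : ℕ) : ℝ) / ((n * 2 ^ h : ℕ) : ℝ) := Nat.cast_div_le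
            push_cast at h2
            exact h1.trans h2
          rw [e1]
          exact mul_le_mul_of_nonneg_left
            (Real.rpow_le_rpow (Nat.cast_nonneg _) e2 (by norm_num)) (by positivity)

end Pool.Agent.H77.K4
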