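import Pool.Agent.H77.K4.C12
import Pool.Agent.H77.K4.C15

/-!
# C16: case II

If `QQ (v i + v j) = 1`, `QQ (v i + vq + vr) = 0`, `i < J`, `i < j < k`, then the sum of `TT` over `SSk`
is at most `T^2 / z^2`, for `z ≥ z0(P, k)`.

Proof. As in C14, `fib_sum` and `fibT` give the sum over `n ≤ 2T`, `b, c ≤ z` with `KeyOK`, `ω`,
`m ∈ Mset`, and `p, q, r`, with `c1 = 1`, `c2 = 0`. The elements of `Mset` are primes
`m > z^(13 ff i)`: if `j < J` then `m > z^(ee j) ≥ z^(ee (i+1))`, otherwise `m > z^M`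
(`ee_succ`, `ff_le_M`). Split `Mset` into the dyadic pieces `2^h < m ≤ 2^(h+1)`,
`h ≤ log_2 (2T)`.
Main terms: for given `b, c, h`, summing the bound of C15 over `n ≤ 2T/(z^(ee i) 2^h)`:
`1000 4^h (2T/2^h)^(7/4) sum n^(-3/4) ≤ 1000 4^h (2T/2^h)^(7/4) 4 (2T/(z^(ee i) 2^h))^(1/4) =
4000 (2T)^2 z^(-ee i/4)`. The number of `h` is `≤ log_2 (2T) + 1 ≤ z` for `z ≥ z0`; total
`2^15 z^(A+2) * z^2 * z * 16000 T^2 z^(-25(A+3)) ≤ T^2/(2 z^2)`.
Diagonal terms (`q = r`) as in C14.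
-/

set_option autoImplicit false
set_option maxHeartbeats 400000

namespace Pool.Agent.H77.K4

open Finset Pool.Agent.H77.SV

/-! ### Sums of `n^(-3/4)` -/

private lemma c16_step (N : ℕ) :
    4 * (N : ℝ) ^ (1 / 4 : ℝ) + ((N + 1 : ℕ) : ℝ) ^ (-(3 / 4) : ℝ) ≤
      4 * ((N + 1 : ℕ) : ℝ) ^ (1 / 4 : ℝ) := by
  set a : ℝ := (N : ℝ) ^ (1 / 4 : ℝ) with ha
  set b : ℝ := ((N + 1 : ℕ) : ℝ) ^ (1 / 4 : ℝ) with hb
  have hN : (0 : ℝ) ≤ N := Nat.cast_nonneg N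
  have hN1 : (0 : ℝ) < ((N + 1 : ℕ) : ℝ) := by positivity
  have ha0 : 0 ≤ a := Real.rpow_nonneg hN _
  have hb0 : 0 < b := Real.rpow_pos_of_pos hN1 _
  have ha4 : a ^ 4 = N := by
    rw [ha, ← Real.rpow_natCast, ← Real.rpow_mul hN]
    norm_num
  have hb4 : b ^ 4 = N + 1 := by
    rw [hb, ← Real.rpow_natCast, ← Real.rpow_mul hN1.le]
    norm_num
  have hab : a ≤ b := Real.rpow_le_rpow hN (by push_cast; linarith) (by norm_num)
  have hc : ((N + 1 : ℕ) : ℝ) ^ (-(3 / 4) : ℝ) = (b ^ 3)⁻¹ := by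
    rw [hb, ← Real.rpow_natCast, ← Real.rpow_mul hN1.le, ← Real.rpow_neg hN1.le]
    norm_num
  rw [hc]
  have h1 : (b - a) * (b ^ 3 + b ^ 2 * a + b * a ^ 2 + a ^ 3) = 1 := by
    have : (b - a) * (b ^ 3 + b ^ 2 * a + b * a ^ 2 + a ^ 3) = b ^ 4 - a ^ 4 := by ring
    rw [this, ha4, hb4]; ring
  have h2 : b ^ 3 + b ^ 2 * a + b * a ^ 2 + a ^ 3 ≤ 4 * b ^ 3 := by
    have e1 : b ^ 2 * a ≤ b ^ 2 * b := by gcongr
    have e2 : b * a ^ 2 ≤ b * b ^ 2 := by gcongr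
    have e3 : a ^ 3 ≤ b ^ 3 := by gcongr
    nlinarith
  have h3 : 1 ≤ (b - a) * (4 * b ^ 3) := by
    rw [← h1]
    exact mul_le_mul_of_nonneg_left h2 (by linarith)
  have hb3 : 0 < b ^ 3 := by positivity
  have h4 : (b ^ 3)⁻¹ ≤ 4 * (b - a) := by
    rw [inv_le_iff_one_le_mul₀ hb3]
    linarith
  linarith

private lemma c16_sum (N : ℕ) :
    ∑ n ∈ Icc 1 N, (n : ℝ) ^ (-(3 / 4) : ℝ) ≤ 4 * (N : ℝ) ^ (1 / 4 : ℝ) := by
  induction N with
  | zero => simp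
  | succ N ih =>
    rw [sum_Icc_succ_top (by omega)]
    exact (add_le_add_left ih _).trans (c16_step N)

/-! ### The main bound -/

private noncomputable def c16_Bd (P : Par) (z T i n h : ℕ) : ℝ :=
  if 2 * T < z ^ P.ee i * (n * 2 ^ h) then 0 else
    1000 * n * 4 ^ h * ((2 * T : ℝ) / (n * 2 ^ h)) ^ (7 / 4 : ℝ)

private lemma c16_Bd_nonneg (P : Par) (z T i n h : ℕ) : 0 ≤ c16_Bd P z T i n h := by
  unfold c16_Bd
  split_ifs
  · exact le_rfl
  · positivity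

private lemma c16_sumBd {P : Par} {z T i : ℕ} (hz : 2 ≤ z) (hT : 1 ≤ T) (h : ℕ) :
    ∑ n ∈ Icc 1 (2 * T), c16_Bd P z T i n h ≤
      16000 * (T : ℝ) ^ 2 * ((z : ℝ) ^ P.ee i) ^ (-(1 / 4) : ℝ) := by
  set c : ℝ := 1000 * 4 ^ h * ((2 * T : ℝ) / 2 ^ h) ^ (7 / 4 : ℝ) with hc
  have hz0 : (0 : ℝ) < z := by exact_mod_cast (by omega : 0 < z)
  have hT0 : (0 : ℝ) < T := by exact_mod_cast (by omega : 0 < T)
  have hc0 : 0 ≤ c := by positivity
  set K : ℕ := 2 * T / (z ^ P.ee i * 2 ^ h) with hK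
  have hpos : 0 < z ^ P.ee i * 2 ^ h := by positivity
  have h1 : ∑ n ∈ Icc 1 (2 * T), c16_Bd P z T i n h ≤
      ∑ n ∈ Icc 1 K, c * (n : ℝ) ^ (-(3 / 4) : ℝ) := by
    have hsub : Icc 1 K ⊆ Icc 1 (2 * T) := by
      intro n hn
      rw [mem_Icc] at hn ⊢
      exact ⟨hn.1, hn.2.trans (Nat.div_le_self _ _)⟩
    rw [← sum_subset hsub]
    · refine sum_le_sum fun n hn => ?_
      rw [mem_Icc] at hn
      have hn0 : (0 : ℝ) < n := by exact_mod_cast (by omega : 0 < n)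
      unfold c16_Bd
      split_ifs
      · positivity
      · apply le_of_eq
        have e1 : (2 * T : ℝ) / (n * 2 ^ h) = ((2 * T : ℝ) / 2 ^ h) * (n : ℝ)⁻¹ := by
          field_simp
        rw [e1, Real.mul_rpow (by positivity) (by positivity), hc, Real.inv_rpow hn0.le,
          ← Real.rpow_neg hn0.le]
        have e2 : (n : ℝ) * (n : ℝ) ^ (-(7 / 4) : ℝ) = (n : ℝ) ^ (-(3 / 4) : ℝ) := by
          nth_rewrite 1 [← Real.rpow_one (n : ℝ)]
          rw [← Real.rpow_add hn0]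
          norm_num
        rw [← e2]
        ring
    · intro n hn hn'
      rw [mem_Icc] at hn hn'
      unfold c16_Bd
      rw [if_pos]
      have : K < n := by
        by_contra hcon
        exact hn' ⟨hn.1, by omega⟩
      rw [hK, Nat.div_lt_iff_lt_mul hpos] at this
      calc 2 * T < n * (z ^ P.ee i * 2 ^ h) := this
        _ = z ^ P.ee i * (n * 2 ^ h) := by ring
  refine h1.trans ?_
  rw [← mul_sum]
  have hKle : (K : ℝ) ≤ ((2 * T : ℝ) / 2 ^ h) * ((z : ℝ) ^ P.ee i)⁻¹ := by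
    have : (K : ℝ) ≤ ((2 * T : ℕ) : ℝ) / ((z ^ P.ee i * 2 ^ h : ℕ) : ℝ) := Nat.cast_div_le
    refine this.trans (le_of_eq ?_)
    push_cast
    field_simp
  calc c * ∑ n ∈ Icc 1 K, (n : ℝ) ^ (-(3 / 4) : ℝ) ≤ c * (4 * (K : ℝ) ^ (1 / 4 : ℝ)) := by
        gcongr
        exact c16_sum K
    _ ≤ c * (4 * (((2 * T : ℝ) / 2 ^ h) * ((z : ℝ) ^ P.ee i)⁻¹) ^ (1 / 4 : ℝ)) := by
        gcongr
    _ = 16000 * (T : ℝ) ^ 2 * ((z : ℝ) ^ P.ee i) ^ (-(1 / 4) : ℝ) := by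
        have hx : (0 : ℝ) < (2 * T : ℝ) / 2 ^ h := by positivity
        rw [Real.mul_rpow hx.le (by positivity), Real.inv_rpow (by positivity),
          ← Real.rpow_neg (by positivity), hc]
        have e : ((2 * T : ℝ) / 2 ^ h) ^ (7 / 4 : ℝ) * ((2 * T : ℝ) / 2 ^ h) ^ (1 / 4 : ℝ) =
            ((2 * T : ℝ) / 2 ^ h) ^ 2 := by
          rw [← Real.rpow_add hx, ← Real.rpow_natCast]
          norm_num
        have e4 : (4 : ℝ) ^ h = ((2 : ℝ) ^ h) ^ 2 := by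
          rw [← pow_mul, mul_comm h 2, pow_mul]
          norm_num
        calc 1000 * 4 ^ h * ((2 * T : ℝ) / 2 ^ h) ^ (7 / 4 : ℝ) *
              (4 * (((2 * T : ℝ) / 2 ^ h) ^ (1 / 4 : ℝ) * ((z : ℝ) ^ P.ee i) ^ (-(1 / 4) : ℝ))) =
              4000 * 4 ^ h * (((2 * T : ℝ) / 2 ^ h) ^ (7 / 4 : ℝ) *
                ((2 * T : ℝ) / 2 ^ h) ^ (1 / 4 : ℝ)) * ((z : ℝ) ^ P.ee i) ^ (-(1 / 4) : ℝ) := by
              ring
          _ = 4000 * ((2 : ℝ) ^ h) ^ 2 * (((2 * T : ℝ) / 2 ^ h) ^ 2) *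
                ((z : ℝ) ^ P.ee i) ^ (-(1 / 4) : ℝ) := by rw [e, e4]
          _ = 16000 * (T : ℝ) ^ 2 * ((z : ℝ) ^ P.ee i) ^ (-(1 / 4) : ℝ) := by
              field_simp
              ring

/-! ### The dyadic decomposition -/

private lemma c16_ee_mono {P : Par} (hP : P.Adm) {a b : ℕ} (h : a ≤ b) : P.ee a ≤ P.ee b := by
  unfold Par.ee
  exact Nat.mul_le_mul_left _ (Nat.pow_le_pow_right (by have := hP.hB; omega) h)

private lemma c16_dyad {P : Par} (hP : P.Adm) {z T i j : ℕ} (hz : 2 ≤ z) (hT : P.TZ z T)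
    (hi : i < P.J) (hij : i < j) {n b c : ℕ} (hn : 1 ≤ n) (hb : 1 ≤ b ∧ b ≤ z)
    (hc : 1 ≤ c ∧ c ≤ z) (F : ℕ → ℝ) (f g : ℕ → ℕ → ℝ) (hF : ∀ p, |F p| ≤ 1)
    (hf : ∀ m p, |f m p| ≤ 1) (hg : ∀ m p, |g m p| ≤ 1) :
    ∑ m ∈ Mset P z T i j n, |∑ p ∈ P.I z i, ∑ q ∈ Qset T b, ∑ r ∈ Qset T c,
      if b * q + c * r = n * p * m then F p * f m q * g m r * sg (bt p (m : ℤ)) else 0| ≤
      ∑ h ∈ range (Nat.log 2 (2 * T) + 1), c16_Bd P z T i n h := by
  classical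
  rw [← sum_fiberwise_of_maps_to (s := Mset P z T i j n) (t := range (Nat.log 2 (2 * T) + 1))
    (g := fun m => Nat.log 2 (m - 1))]
  · refine sum_le_sum fun h _ => ?_
    unfold c16_Bd
    refine case2_in hP hz hT hi hn hb hc h _ (fun m hm => ?_) F f g hF hf hg
    rw [mem_filter] at hm
    obtain ⟨hm, hlog⟩ := hm
    unfold Mset at hm
    rw [mem_filter] at hm
    obtain ⟨hm0, hmp, hmI, hmn, -⟩ := hm
    have h2 := hmp.two_le
    refine ⟨hmp, ?_, ?_, ?_⟩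
    · rw [← ee_succ]
      split_ifs at hmI with hjJ
      · have : z ^ P.ee j < m := by
          unfold Par.I at hmI
          rw [mem_filter, mem_Ioc] at hmI
          exact hmI.1.1
        exact lt_of_le_of_lt (Nat.pow_le_pow_right (by omega) (c16_ee_mono hP hij)) this
      · refine lt_of_le_of_lt (Nat.pow_le_pow_right (by omega) ?_) hmI
        rw [ee_succ]
        exact ff_le_M hP hi
    · have h3 := Nat.pow_log_le_self 2 (x := m - 1) (by omega)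
      rw [hlog] at h3
      omega
    · have h3 := Nat.lt_pow_succ_log_self (b := 2) (by norm_num) (m - 1)
      rw [hlog] at h3
      omega
  · intro m hm
    unfold Mset at hm
    rw [mem_filter, mem_Ioc] at hm
    rw [mem_range]
    have : Nat.log 2 (m - 1) ≤ Nat.log 2 (2 * T) := Nat.log_mono_right (by omega)
    omega

/-! ### The terms of a fibre -/

private lemma c16_sw {ι : Type*} {Ω : ℕ} (s : Finset ι) (κ : ℝ) (a : Fin Ω → ι → ℝ) :
    ∑ x ∈ s, κ * ∑ ω, a ω x = κ * ∑ ω, ∑ x ∈ s, a ω x := by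
  rw [← mul_sum, sum_comm]

private noncomputable def c16_Dg (P : Par) (z T i j n b c : ℕ) : ℝ :=
  ∑ m ∈ Mset P z T i j n, ∑ p ∈ P.I z i, ∑ q ∈ Qset T b, ∑ r ∈ Qset T c,
    if q = r ∧ b * q + c * r = n * p * m then (1 : ℝ) else 0

private lemma c16_Dg_nonneg (P : Par) (z T i j n b c : ℕ) : 0 ≤ c16_Dg P z T i j n b c := by
  unfold c16_Dg
  refine sum_nonneg fun _ _ => sum_nonneg fun _ _ => sum_nonneg fun _ _ => sum_nonneg fun _ _ => ?_
  split_ifs <;> norm_num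

private lemma c16_sg_abs (t : ZMod 2) : |sg t| ≤ 1 := by
  unfold sg
  split_ifs <;> norm_num

private lemma c16_fib {P : Par} (hP : P.Adm) {z T k i j : ℕ} (hz : 2 ≤ z) (hwz : P.w ≤ z)
    (hT : P.TZ z T) (hi : i < P.J) (hj : j < k) (hik : i < k) (hij : i < j) {n b c : ℕ}
    (hK : KeyOK P z k i j n b c) (v : Fin k → LL) (vq vr : LL)
    (h1 : QQ (v ⟨i, hik⟩ + v ⟨j, hj⟩) = 1) (h2 : QQ (v ⟨i, hik⟩ + vq + vr) = 0) :
    |∑ m ∈ Mset P z T i j n, ∑ p ∈ P.I z i, ∑ q ∈ Qset T b, ∑ r ∈ Qset T c,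
      if q ≠ r ∧ b * q + c * r = n * p * m then TT z (b * q) (c * r) k v vq vr else 0| ≤
      2 ^ 15 * (z : ℝ) ^ (P.A + 2) * (∑ h ∈ range (Nat.log 2 (2 * T) + 1), c16_Bd P z T i n h +
        c16_Dg P z T i j n b c) := by
  obtain ⟨Ω, F, f, g, κ0, hκ, hκΩ, hF, hf, hg, hval⟩ :=
    fibT hP hz hwz hT hi hj hik (by omega) hK v vq vr
  set G : Fin Ω → ℕ → ℕ → ℕ → ℕ → ℝ := fun ω m p q r =>
    F ω p * f ω m q * g ω m r * sg (bt p (m : ℤ)) with hG
  have hGabs : ∀ ω m p q r, |G ω m p q r| ≤ 1 := by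
    intro ω m p q r
    simp only [hG, abs_mul]
    have a1 := hF ω p
    have a2 := hf ω m q
    have a3 := hg ω m r
    have a4 := c16_sg_abs (bt p (m : ℤ))
    have b1 : |F ω p| * |f ω m q| ≤ 1 := mul_le_one₀ a1 (abs_nonneg _) a2
    have b2 : |F ω p| * |f ω m q| * |g ω m r| ≤ 1 := mul_le_one₀ b1 (abs_nonneg _) a3
    exact mul_le_one₀ b2 (abs_nonneg _) a4
  have hstep : ∑ m ∈ Mset P z T i j n, ∑ p ∈ P.I z i, ∑ q ∈ Qset T b, ∑ r ∈ Qset T c,
      (if q ≠ r ∧ b * q + c * r = n * p * m then TT z (b * q) (c * r) k v vq vr else 0) =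
      κ0 * ∑ ω, ∑ m ∈ Mset P z T i j n, ∑ p ∈ P.I z i, ∑ q ∈ Qset T b, ∑ r ∈ Qset T c,
        ((if b * q + c * r = n * p * m then G ω m p q r else 0) -
          (if q = r ∧ b * q + c * r = n * p * m then G ω m p q r else 0)) := by
    have : ∀ m ∈ Mset P z T i j n, ∀ p ∈ P.I z i, ∀ q ∈ Qset T b, ∀ r ∈ Qset T c,
        (if q ≠ r ∧ b * q + c * r = n * p * m then TT z (b * q) (c * r) k v vq vr else 0) =
        κ0 * ∑ ω, ((if b * q + c * r = n * p * m then G ω m p q r else 0) -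
          (if q = r ∧ b * q + c * r = n * p * m then G ω m p q r else 0)) := by
      intro m hm p hp q hq r hr
      by_cases he : b * q + c * r = n * p * m
      · by_cases hqr : q = r
        · subst hqr
          simp [he]
        · rw [if_pos ⟨hqr, he⟩, hval p m q r ⟨hm, hp, hq, hr, hqr, he⟩]
          congr 1
          refine sum_congr rfl fun ω _ => ?_
          rw [if_pos he, if_neg (fun h => hqr h.1), sub_zero, h1, h2, one_mul, zero_mul]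
          have : sg 0 = 1 := by simp [sg]
          rw [this, mul_one]
      · simp [he]
    rw [sum_congr rfl fun m hm => sum_congr rfl fun p hp => sum_congr rfl fun q hq =>
      sum_congr rfl fun r hr => this m hm p hp q hq r hr]
    simp only [c16_sw]
  rw [hstep, abs_mul, abs_of_nonneg hκ]
  set R : ℝ := ∑ h ∈ range (Nat.log 2 (2 * T) + 1), c16_Bd P z T i n h +
        c16_Dg P z T i j n b c with hR
  have hR0 : 0 ≤ R := add_nonneg (sum_nonneg fun _ _ => c16_Bd_nonneg _ _ _ _ _ _)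
    (c16_Dg_nonneg _ _ _ _ _ _ _ _)
  have hω : ∀ ω : Fin Ω, |∑ m ∈ Mset P z T i j n, ∑ p ∈ P.I z i, ∑ q ∈ Qset T b, ∑ r ∈ Qset T c,
        ((if b * q + c * r = n * p * m then G ω m p q r else 0) -
          (if q = r ∧ b * q + c * r = n * p * m then G ω m p q r else 0))| ≤ R := by
    intro ω
    simp only [sum_sub_distrib]
    refine (abs_sub _ _).trans (add_le_add ?_ ?_)
    · refine (abs_sum_le_sum_abs _ _).trans ?_
      exact c16_dyad hP hz hT hi hij hK.hn hK.hb hK.hc (F ω) (f ω) (g ω) (hF ω) (hf ω) (hg ω)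
    · unfold c16_Dg
      refine (abs_sum_le_sum_abs _ _).trans (sum_le_sum fun m _ => ?_)
      refine (abs_sum_le_sum_abs _ _).trans (sum_le_sum fun p _ => ?_)
      refine (abs_sum_le_sum_abs _ _).trans (sum_le_sum fun q _ => ?_)
      refine (abs_sum_le_sum_abs _ _).trans (sum_le_sum fun r _ => ?_)
      split_ifs
      · exact hGabs _ _ _ _ _
      · simp
  calc κ0 * |∑ ω, ∑ m ∈ Mset P z T i j n, ∑ p ∈ P.I z i, ∑ q ∈ Qset T b, ∑ r ∈ Qset T c,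
        ((if b * q + c * r = n * p * m then G ω m p q r else 0) -
          (if q = r ∧ b * q + c * r = n * p * m then G ω m p q r else 0))| ≤
        κ0 * ∑ _ω : Fin Ω, R := by
        gcongr
        exact (abs_sum_le_sum_abs _ _).trans (sum_le_sum fun ω _ => hω ω)
    _ = (κ0 * Ω) * R := by
        rw [sum_const, card_univ, Fintype.card_fin, nsmul_eq_mul]; ring
    _ ≤ _ := by gcongr

/-! ### The diagonal terms -/

private lemma c16_card_pf (X : ℕ) (hX : X ≠ 0) : X.primeFactors.card ≤ Nat.log 2 X := by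
  apply Nat.le_log_of_pow_le (by norm_num)
  calc 2 ^ X.primeFactors.card ≤ ∏ p ∈ X.primeFactors, p :=
        Finset.pow_card_le_prod _ _ _ fun p hp => (Nat.prime_of_mem_primeFactors hp).two_le
    _ ≤ X := Nat.le_of_dvd (Nat.pos_of_ne_zero hX) (Nat.prod_primeFactors_dvd X)

private lemma c16_diag {P : Par} {z T i j : ℕ} {b c : ℕ} (hb : 1 ≤ b ∧ b ≤ z)
    (hc : 1 ≤ c ∧ c ≤ z) :
    ∑ n ∈ Icc 1 (2 * T), c16_Dg P z T i j n b c ≤ T * (Nat.log 2 (2 * z * T) : ℝ) ^ 2 := by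
  classical
  -- replace by a count
  have h1 : ∀ n ∈ Icc 1 (2 * T), c16_Dg P z T i j n b c ≤
      ∑ q ∈ Ioc 0 T, ∑ x ∈ ((b + c) * q).primeFactors ×ˢ ((b + c) * q).primeFactors,
        if (b + c) * q = n * x.1 * x.2 then (1 : ℝ) else 0 := by
    intro n hn
    rw [mem_Icc] at hn
    unfold c16_Dg
    -- sum over r
    have e1 : ∀ m p q, ∑ r ∈ Qset T c,
        (if q = r ∧ b * q + c * r = n * p * m then (1 : ℝ) else 0) ≤
        if (b + c) * q = n * p * m then (1 : ℝ) else 0 := by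
      intro m p q
      calc ∑ r ∈ Qset T c, (if q = r ∧ b * q + c * r = n * p * m then (1 : ℝ) else 0) ≤
          ∑ r ∈ Qset T c, if q = r then (if (b + c) * q = n * p * m then (1 : ℝ) else 0) else 0 := by
            refine sum_le_sum fun r _ => ?_
            by_cases hqr : q = r
            · subst hqr
              simp [add_mul]
            · simp [hqr]
        _ ≤ _ := by
            rw [sum_ite_eq]
            split_ifs <;> norm_num
    calc ∑ m ∈ Mset P z T i j n, ∑ p ∈ P.I z i, ∑ q ∈ Qset T b, ∑ r ∈ Qset T c,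
          (if q = r ∧ b * q + c * r = n * p * m then (1 : ℝ) else 0) ≤
        ∑ m ∈ Mset P z T i j n, ∑ p ∈ P.I z i, ∑ q ∈ Qset T b,
          (if (b + c) * q = n * p * m then (1 : ℝ) else 0) :=
          sum_le_sum fun m _ => sum_le_sum fun p _ => sum_le_sum fun q _ => e1 m p q
      _ ≤ ∑ m ∈ Mset P z T i j n, ∑ p ∈ P.I z i, ∑ q ∈ Ioc 0 T,
          (if (b + c) * q = n * p * m then (1 : ℝ) else 0) := by
          refine sum_le_sum fun m _ => sum_le_sum fun p _ => ?_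
          refine sum_le_sum_of_subset_of_nonneg (filter_subset _ _) fun _ _ _ => ?_
          split_ifs <;> norm_num
      _ = ∑ q ∈ Ioc 0 T, ∑ x ∈ P.I z i ×ˢ Mset P z T i j n,
          (if (b + c) * q = n * x.1 * x.2 then (1 : ℝ) else 0) := by
          simp_rw [sum_product]
          rw [sum_comm]
          simp_rw [sum_comm (s := Mset P z T i j n) (t := Ioc 0 T)]
          rw [sum_comm]
      _ ≤ _ := by
          refine sum_le_sum fun q hq => ?_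
          rw [mem_Ioc] at hq
          rw [← sum_filter, ← sum_filter]
          refine sum_le_sum_of_subset_of_nonneg (fun x hx => ?_) fun _ _ _ => by norm_num
          rw [mem_filter, mem_product] at hx ⊢
          obtain ⟨⟨hx1, hx2⟩, hx3⟩ := hx
          have hne : (b + c) * q ≠ 0 := by
            have := hb.1
            exact Nat.mul_ne_zero (by omega) (by omega)
          refine ⟨⟨?_, ?_⟩, hx3⟩
          · rw [Nat.mem_primeFactors]
            refine ⟨?_, ?_, hne⟩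
            · unfold Par.I at hx1
              exact (mem_filter.1 hx1).2
            · rw [hx3]
              exact Dvd.dvd.mul_right (Dvd.intro_left _ rfl) _
          · rw [Nat.mem_primeFactors]
            refine ⟨?_, ?_, hne⟩
            · unfold Mset at hx2
              exact (mem_filter.1 hx2).2.1
            · rw [hx3]
              exact Dvd.intro_left _ rfl
  refine (sum_le_sum h1).trans ?_
  rw [sum_comm]
  have h2 : ∀ q ∈ Ioc 0 T, ∑ n ∈ Icc 1 (2 * T),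
      ∑ x ∈ ((b + c) * q).primeFactors ×ˢ ((b + c) * q).primeFactors,
        (if (b + c) * q = n * x.1 * x.2 then (1 : ℝ) else 0) ≤
      (Nat.log 2 (2 * z * T) : ℝ) ^ 2 := by
    intro q hq
    rw [mem_Ioc] at hq
    have hne : (b + c) * q ≠ 0 := by
      have := hb.1
      exact Nat.mul_ne_zero (by omega) (by omega)
    rw [sum_comm]
    have h3 : ∀ x ∈ ((b + c) * q).primeFactors ×ˢ ((b + c) * q).primeFactors,
        ∑ n ∈ Icc 1 (2 * T), (if (b + c) * q = n * x.1 * x.2 then (1 : ℝ) else 0) ≤ 1 := by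
      intro x hx
      rw [mem_product] at hx
      have p1 := (Nat.prime_of_mem_primeFactors hx.1).pos
      have p2 := (Nat.prime_of_mem_primeFactors hx.2).pos
      rw [← sum_filter, sum_const, nsmul_eq_mul, mul_one]
      have : ((Icc 1 (2 * T)).filter fun n => (b + c) * q = n * x.1 * x.2).card ≤ 1 := by
        rw [card_le_one]
        intro a ha b' hb'
        rw [mem_filter] at ha hb'
        have : a * x.1 * x.2 = b' * x.1 * x.2 := ha.2.symm.trans hb'.2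
        exact Nat.eq_of_mul_eq_mul_right p1 (Nat.eq_of_mul_eq_mul_right p2 this)
      exact_mod_cast this
    refine (sum_le_sum h3).trans ?_
    rw [sum_const, nsmul_eq_mul, mul_one, card_product, sq]
    have h4 : ((b + c) * q).primeFactors.card ≤ Nat.log 2 (2 * z * T) := by
      refine (c16_card_pf _ hne).trans (Nat.log_mono_right ?_)
      exact Nat.mul_le_mul (by omega) hq.2
    exact_mod_cast Nat.mul_le_mul h4 h4
  refine (sum_le_sum h2).trans ?_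
  rw [sum_const, nsmul_eq_mul, Nat.card_Ioc, Nat.sub_zero]

/-! ### The size of `z` -/

private lemma c16_z0 (M : ℕ) : ∃ z0 : ℕ, ∀ z T : ℕ, z0 ≤ z → T < (z + 1) ^ (30 * M) →
    (Nat.log 2 (2 * z * T)) ^ 2 ≤ z := by
  set D : ℝ := 8 * ((30 * M + 2 : ℕ) : ℝ) ^ 2 with hD
  have hD0 : 0 < D := by positivity
  have hlo := (Real.isLittleO_pow_log_id_atTop (n := 2)).bound (c := D⁻¹) (by positivity)
  rw [Filter.eventually_atTop] at hlo
  obtain ⟨x0, hx0⟩ := hlo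
  refine ⟨Nat.ceil x0 + 2, fun z T hz hT => ?_⟩
  have hzx : x0 ≤ ((z + 1 : ℕ) : ℝ) := by
    have : x0 ≤ (Nat.ceil x0 : ℝ) := Nat.le_ceil x0
    have h' : ((Nat.ceil x0 : ℕ) : ℝ) ≤ ((z + 1 : ℕ) : ℝ) := by exact_mod_cast (by omega)
    linarith
  have hl := hx0 _ hzx
  have hz1 : (1 : ℝ) ≤ ((z + 1 : ℕ) : ℝ) := by exact_mod_cast (by omega)
  rw [Real.norm_of_nonneg (by positivity), id, Real.norm_of_nonneg (by positivity)] at hl
  rcases Nat.eq_zero_or_pos T with rfl | hT0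
  · simp
  have hX : 2 * z * T ≤ (z + 1) ^ (30 * M + 2) := by
    rw [pow_add]
    calc 2 * z * T ≤ (z + 1) ^ 2 * (z + 1) ^ (30 * M) := Nat.mul_le_mul (by nlinarith) hT.le
      _ = _ := by ring
  have hzp : 0 < z := by omega
  have hXpos : 0 < 2 * z * T := by positivity
  have hlog : (Nat.log 2 (2 * z * T) : ℝ) ≤ 2 * ((30 * M + 2 : ℕ) : ℝ) *
      Real.log ((z + 1 : ℕ) : ℝ) := by
    have h1 : (Nat.log 2 (2 * z * T) : ℝ) * Real.log 2 ≤ Real.log ((2 * z * T : ℕ) : ℝ) := by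
      rw [← Real.log_pow]
      apply Real.log_le_log (by positivity)
      exact_mod_cast Nat.pow_log_le_self 2 (by omega)
    have h2 : Real.log ((2 * z * T : ℕ) : ℝ) ≤ ((30 * M + 2 : ℕ) : ℝ) *
        Real.log ((z + 1 : ℕ) : ℝ) := by
      rw [← Real.log_pow]
      apply Real.log_le_log (by exact_mod_cast hXpos)
      exact_mod_cast hX
    have h3 : (1 / 2 : ℝ) ≤ Real.log 2 := by
      have := Real.log_two_gt_d9
      linarith
    have h4 : (0 : ℝ) ≤ Nat.log 2 (2 * z * T) := Nat.cast_nonneg _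
    nlinarith
  have hfin : ((Nat.log 2 (2 * z * T) : ℕ) : ℝ) ^ 2 ≤ z := by
    have h0 : (0 : ℝ) ≤ Nat.log 2 (2 * z * T) := Nat.cast_nonneg _
    calc ((Nat.log 2 (2 * z * T) : ℕ) : ℝ) ^ 2 ≤
        (2 * ((30 * M + 2 : ℕ) : ℝ) * Real.log ((z + 1 : ℕ) : ℝ)) ^ 2 := by gcongr
      _ = (D / 2) * Real.log ((z + 1 : ℕ) : ℝ) ^ 2 := by rw [hD]; ring
      _ ≤ (D / 2) * (D⁻¹ * ((z + 1 : ℕ) : ℝ)) := by gcongr
      _ = ((z + 1 : ℕ) : ℝ) / 2 := by field_simp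
      _ ≤ z := by
          push_cast
          have : (1 : ℝ) ≤ z := by exact_mod_cast (by omega)
          linarith
  exact_mod_cast hfin

/-! ### Final estimates -/

private lemma c16_zpow {P : Par} (hP : P.Adm) {z i : ℕ} (hz : 2 ≤ z) :
    ((z : ℝ) ^ P.ee i) ^ (-(1 / 4) : ℝ) ≤ ((z : ℝ) ^ (25 * (P.A + 3)))⁻¹ := by
  have hz0 : (0 : ℝ) < z := by exact_mod_cast (by omega : 0 < z)
  have hz1 : (1 : ℝ) ≤ z := by exact_mod_cast (by omega : 1 ≤ z)
  have hE : 100 * (P.A + 3) ≤ P.ee i := by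
    have := c16_ee_mono hP (Nat.zero_le i)
    have h0 : P.ee 0 = P.E0 := by simp [Par.ee]
    have := hP.hE
    omega
  have h1 : ((z : ℝ) ^ (25 * (P.A + 3))) ^ (4 : ℝ) ≤ (z : ℝ) ^ P.ee i := by
    have : ((z : ℝ) ^ (25 * (P.A + 3))) ^ (4 : ℝ) = (z : ℝ) ^ (100 * (P.A + 3)) := by
      rw [show (4 : ℝ) = ((4 : ℕ) : ℝ) by norm_num, Real.rpow_natCast, ← pow_mul]
      congr 1
      ring
    rw [this]
    exact pow_le_pow_right₀ hz1 hE
  rw [Real.rpow_neg (by positivity)]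
  apply inv_anti₀ (by positivity)
  calc (z : ℝ) ^ (25 * (P.A + 3)) = (((z : ℝ) ^ (25 * (P.A + 3))) ^ (4 : ℝ)) ^ (1 / 4 : ℝ) := by
        rw [← Real.rpow_mul (by positivity)]
        norm_num
    _ ≤ _ := Real.rpow_le_rpow (by positivity) h1 (by norm_num)

private lemma c16_split (S : Finset ℕ) (z H : ℕ) (C : ℝ) (X : ℕ → ℕ → ℝ) (D : ℕ → ℕ → ℕ → ℝ) :
    ∑ n ∈ S, ∑ b ∈ Icc 1 z, ∑ c ∈ Icc 1 z, C * (∑ h ∈ range H, X n h + D n b c) =
      C * ((z : ℝ) ^ 2 * ∑ h ∈ range H, ∑ n ∈ S, X n h +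
        ∑ b ∈ Icc 1 z, ∑ c ∈ Icc 1 z, ∑ n ∈ S, D n b c) := by
  have e1 : ∑ n ∈ S, ∑ b ∈ Icc 1 z, ∑ c ∈ Icc 1 z, C * (∑ h ∈ range H, X n h + D n b c) =
      ∑ n ∈ S, (C * ((z : ℝ) ^ 2 * ∑ h ∈ range H, X n h) +
        C * ∑ b ∈ Icc 1 z, ∑ c ∈ Icc 1 z, D n b c) := by
    refine sum_congr rfl fun n _ => ?_
    have e2 : ∀ b ∈ Icc 1 z, ∑ c ∈ Icc 1 z, C * (∑ h ∈ range H, X n h + D n b c) =
        C * (z * ∑ h ∈ range H, X n h) + C * ∑ c ∈ Icc 1 z, D n b c := by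
      intro b _
      rw [← mul_sum, sum_add_distrib, sum_const, Nat.card_Icc, Nat.add_sub_cancel, nsmul_eq_mul,
        mul_add]
    rw [sum_congr rfl e2, sum_add_distrib, sum_const, Nat.card_Icc, Nat.add_sub_cancel,
      nsmul_eq_mul, ← mul_sum]
    ring
  rw [e1, sum_add_distrib, ← mul_sum, ← mul_sum, ← mul_sum, ← mul_add]
  rw [sum_comm (s := range H) (t := S)]
  have e3 : ∑ n ∈ S, ∑ b ∈ Icc 1 z, ∑ c ∈ Icc 1 z, D n b c =
      ∑ b ∈ Icc 1 z, ∑ c ∈ Icc 1 z, ∑ n ∈ S, D n b c := by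
    rw [sum_comm]
    exact sum_congr rfl fun b _ => sum_comm
  rw [e3]

theorem case2 {P : Par} (hP : P.Adm) (k : ℕ) : ∃ z0 : ℕ, ∀ z T : ℕ, z0 ≤ z → P.TZ z T →
    ∀ (v : Fin k → LL) (vq vr : LL) (i j : Fin k), (i : ℕ) < P.J → i < j →
      QQ (v i + v j) = 1 → QQ (v i + vq + vr) = 0 →
      |∑ x ∈ SSk P z T k, TT z x.1 x.2 k v vq vr| ≤ (T : ℝ) ^ 2 / z ^ 2 := by
  classical
  obtain ⟨z1, hz1⟩ := c16_z0 P.M
  refine ⟨max z1 (max P.w 2), fun z T hz hT v vq vr i j hi hij h1 h2 => ?_⟩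
  have hz1' : z1 ≤ z := le_trans (le_max_left _ _) hz
  have hwz : P.w ≤ z := le_trans (le_trans (le_max_left _ _) (le_max_right _ _)) hz
  have hz2 : 2 ≤ z := le_trans (le_trans (le_max_right _ _) (le_max_right _ _)) hz
  have hL := hz1 z T hz1' hT.2
  set l : ℕ := Nat.log 2 (2 * z * T) with hl
  have hzR : (0 : ℝ) < z := by exact_mod_cast (by omega : 0 < z)
  have hzR1 : (1 : ℝ) ≤ z := by exact_mod_cast (by omega : 1 ≤ z)
  have hzR2 : (2 : ℝ) ≤ z := by exact_mod_cast hz2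
  have hMbig : 100 * (P.A + 3) ≤ P.M := by
    have h0 : P.ee 0 ≤ P.ee P.J := c16_ee_mono hP (Nat.zero_le _)
    have h0' : P.ee 0 = P.E0 := by simp [Par.ee]
    have := hP.hE
    have : P.M = P.ee P.J := rfl
    omega
  have hTbig : z ^ (30 * P.M) ≤ T := hT.1
  have hTpos : 1 ≤ T := le_trans (Nat.one_le_pow _ _ (by omega)) hTbig
  have hTR : (0 : ℝ) < T := by exact_mod_cast (by omega : 0 < T)
  have hH : Nat.log 2 (2 * T) + 1 ≤ z := by
    have : Nat.log 2 (2 * T) ≤ l := by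
      rw [hl]
      exact Nat.log_mono_right (by nlinarith)
    rcases Nat.lt_or_ge l 2 with h | h
    · omega
    · nlinarith
  have hij' : (i : ℕ) < (j : ℕ) := hij
  rw [fib_sum hP hz2 hwz hT hi j.2 (by omega : (i : ℕ) ≠ (j : ℕ))
    (fun x => TT z x.1 x.2 k v vq vr)]
  set C : ℝ := 2 ^ 15 * (z : ℝ) ^ (P.A + 2) with hC
  have hC0 : 0 ≤ C := by positivity
  set H : ℕ := Nat.log 2 (2 * T) + 1 with hHdef
  have hbound : ∀ n ∈ Icc 1 (2 * T), ∀ b ∈ Icc 1 z, ∀ c ∈ Icc 1 z,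
      |if KeyOK P z k i j n b c then
        ∑ m ∈ Mset P z T i j n, ∑ p ∈ P.I z i, ∑ q ∈ Qset T b, ∑ r ∈ Qset T c,
          if q ≠ r ∧ b * q + c * r = n * p * m then TT z (b * q) (c * r) k v vq vr else 0
      else 0| ≤ C * (∑ h ∈ range H, c16_Bd P z T i n h + c16_Dg P z T i j n b c) := by
    intro n _ b _ c _
    split_ifs with hK
    · exact c16_fib hP hz2 hwz hT hi j.2 i.2 hij' hK v vq vr h1 h2
    · rw [abs_zero]
      exact mul_nonneg hC0 (add_nonneg (sum_nonneg fun _ _ => c16_Bd_nonneg _ _ _ _ _ _)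
        (c16_Dg_nonneg _ _ _ _ _ _ _ _))
  have htot : |∑ n ∈ Icc 1 (2 * T), ∑ b ∈ Icc 1 z, ∑ c ∈ Icc 1 z,
      if KeyOK P z k i j n b c then
        ∑ m ∈ Mset P z T i j n, ∑ p ∈ P.I z i, ∑ q ∈ Qset T b, ∑ r ∈ Qset T c,
          if q ≠ r ∧ b * q + c * r = n * p * m then TT z (b * q) (c * r) k v vq vr else 0
      else 0| ≤ ∑ n ∈ Icc 1 (2 * T), ∑ b ∈ Icc 1 z, ∑ c ∈ Icc 1 z,
        C * (∑ h ∈ range H, c16_Bd P z T i n h + c16_Dg P z T i j n b c) := by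
    refine (abs_sum_le_sum_abs _ _).trans (sum_le_sum fun n hn => ?_)
    refine (abs_sum_le_sum_abs _ _).trans (sum_le_sum fun b hb => ?_)
    refine (abs_sum_le_sum_abs _ _).trans (sum_le_sum fun c hc => ?_)
    exact hbound n hn b hb c hc
  refine htot.trans ?_
  have hsplit : ∑ n ∈ Icc 1 (2 * T), ∑ b ∈ Icc 1 z, ∑ c ∈ Icc 1 z,
        C * (∑ h ∈ range H, c16_Bd P z T i n h + c16_Dg P z T i j n b c) =
      C * ((z : ℝ) ^ 2 * ∑ h ∈ range H, ∑ n ∈ Icc 1 (2 * T), c16_Bd P z T i n h +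
        ∑ b ∈ Icc 1 z, ∑ c ∈ Icc 1 z, ∑ n ∈ Icc 1 (2 * T), c16_Dg P z T i j n b c) := by
    exact c16_split _ z H C _ _
  rw [hsplit]
  have hmain : ∑ h ∈ range H, ∑ n ∈ Icc 1 (2 * T), c16_Bd P z T i n h ≤
      z * (16000 * (T : ℝ) ^ 2 * ((z : ℝ) ^ (25 * (P.A + 3)))⁻¹) := by
    calc ∑ h ∈ range H, ∑ n ∈ Icc 1 (2 * T), c16_Bd P z T i n h ≤
        ∑ _h ∈ range H, 16000 * (T : ℝ) ^ 2 * ((z : ℝ) ^ (25 * (P.A + 3)))⁻¹ := by
          refine sum_le_sum fun h _ => (c16_sumBd hz2 hTpos h).trans ?_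
          gcongr
          exact c16_zpow hP hz2
      _ = H * (16000 * (T : ℝ) ^ 2 * ((z : ℝ) ^ (25 * (P.A + 3)))⁻¹) := by
          rw [sum_const, card_range, nsmul_eq_mul]
      _ ≤ _ := by
          gcongr
  have hdiag : ∑ b ∈ Icc 1 z, ∑ c ∈ Icc 1 z, ∑ n ∈ Icc 1 (2 * T), c16_Dg P z T i j n b c ≤
      (z : ℝ) ^ 2 * (T * z) := by
    calc ∑ b ∈ Icc 1 z, ∑ c ∈ Icc 1 z, ∑ n ∈ Icc 1 (2 * T), c16_Dg P z T i j n b c ≤
        ∑ _b ∈ Icc 1 z, ∑ _c ∈ Icc 1 z, ((T : ℝ) * z) := by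
          refine sum_le_sum fun b hb => sum_le_sum fun c hc => ?_
          refine (c16_diag (mem_Icc.1 hb) (mem_Icc.1 hc)).trans ?_
          gcongr
          rw [← hl]
          exact_mod_cast hL
      _ = _ := by
          simp only [sum_const, Nat.card_Icc, Nat.add_sub_cancel, nsmul_eq_mul]
          ring
  have hA1 := hP.hA
  -- the final inequality
  have hm1 : C * ((z : ℝ) ^ 2 * (z * (16000 * (T : ℝ) ^ 2 * ((z : ℝ) ^ (25 * (P.A + 3)))⁻¹))) ≤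
      (T : ℝ) ^ 2 / (2 * z ^ 2) := by
    rw [hC, le_div_iff₀ (by positivity)]
    have hexp : (z : ℝ) ^ (25 * (P.A + 3)) = (z : ℝ) ^ (P.A + 7) * (z : ℝ) ^ (24 * P.A + 68) := by
      rw [← pow_add]
      congr 1
      ring
    have h32 : (2 : ℝ) ^ 30 ≤ (z : ℝ) ^ (24 * P.A + 68) := by
      calc (2 : ℝ) ^ 30 ≤ (2 : ℝ) ^ (24 * P.A + 68) := pow_le_pow_right₀ (by norm_num) (by omega)
        _ ≤ _ := by gcongr
    rw [hexp]
    have hp1 : (0 : ℝ) < (z : ℝ) ^ (P.A + 7) := by positivity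
    have hp2 : (0 : ℝ) < (z : ℝ) ^ (24 * P.A + 68) := by positivity
    have e : 2 ^ 15 * (z : ℝ) ^ (P.A + 2) * ((z : ℝ) ^ 2 * (z * (16000 * (T : ℝ) ^ 2 *
        ((z : ℝ) ^ (P.A + 7) * (z : ℝ) ^ (24 * P.A + 68))⁻¹))) * (2 * z ^ 2) =
        (2 ^ 16 * 16000) * (T : ℝ) ^ 2 / (z : ℝ) ^ (24 * P.A + 68) := by
      have e7 : (z : ℝ) ^ (P.A + 7) = (z : ℝ) ^ (P.A + 2) * (z : ℝ) ^ 2 * z * z ^ 2 := by ring
      rw [e7]
      field_simp
    rw [e, div_le_iff₀ hp2]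
    nlinarith [sq_nonneg (T : ℝ)]
  have hm2 : C * ((z : ℝ) ^ 2 * (T * z)) ≤ (T : ℝ) ^ 2 / (2 * z ^ 2) := by
    rw [hC, le_div_iff₀ (by positivity)]
    have hTb : (z : ℝ) ^ (P.A + 7) * 2 ^ 16 ≤ T := by
      calc (z : ℝ) ^ (P.A + 7) * 2 ^ 16 ≤ (z : ℝ) ^ (P.A + 7) * (z : ℝ) ^ 16 := by gcongr
        _ = (z : ℝ) ^ (P.A + 23) := by rw [← pow_add]
        _ ≤ (z : ℝ) ^ (30 * P.M) := pow_le_pow_right₀ hzR1 (by omega)
        _ ≤ T := by exact_mod_cast hTbig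
    calc 2 ^ 15 * (z : ℝ) ^ (P.A + 2) * ((z : ℝ) ^ 2 * ((T : ℝ) * z)) * (2 * (z : ℝ) ^ 2) =
        ((z : ℝ) ^ (P.A + 7) * 2 ^ 16) * (T : ℝ) := by ring
      _ ≤ (T : ℝ) * T := by gcongr
      _ = (T : ℝ) ^ 2 := by ring
  calc C * ((z : ℝ) ^ 2 * ∑ h ∈ range H, ∑ n ∈ Icc 1 (2 * T), c16_Bd P z T i n h +
        ∑ b ∈ Icc 1 z, ∑ c ∈ Icc 1 z, ∑ n ∈ Icc 1 (2 * T), c16_Dg P z T i j n b c) ≤
      C * ((z : ℝ) ^ 2 * (z * (16000 * (T : ℝ) ^ 2 * ((z : ℝ) ^ (25 * (P.A + 3)))⁻¹)) +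
        (z : ℝ) ^ 2 * (T * z)) := by gcongr
    _ = C * ((z : ℝ) ^ 2 * (z * (16000 * (T : ℝ) ^ 2 * ((z : ℝ) ^ (25 * (P.A + 3)))⁻¹))) +
        C * ((z : ℝ) ^ 2 * (T * z)) := by ring
    _ ≤ (T : ℝ) ^ 2 / (2 * z ^ 2) + (T : ℝ) ^ 2 / (2 * z ^ 2) := add_le_add hm1 hm2
    _ = (T : ℝ) ^ 2 / z ^ 2 := by
        field_simp
        ring

end Pool.Agent.H77.K4
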