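import Pool.Agent.H77.K4.C1

/-!
# C2: the fourth moment of the matrices

`n, K ≥ 1`, `Pp` a set of odd primes `≤ K`, `|F| ≤ 1`, and for `y < n`, `j, l ≤ K`
`mx y j l = F (j + l) * ((y + n j) / (j + l))` if `j + l ∈ Pp`, and `0` otherwise. Then
`sum_(y < n) sum_(j, j' ≤ K) (sum_(l ≤ K) mx y j l * mx y j' l)^2 ≤ 100 (n K^3 + K^8)`.

Proof. Expand the square: the left side is the sum over `j, j', l, l' ≤ K` and `y < n` of
`mx y j l * mx y j' l * mx y j l' * mx y j' l'`. The number of `(j, j', l, l')` with `j = j'` or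
`l = l'` is at most `2 (K+1)^3 ≤ 16 K^3`; each of them contributes at most `n`. For the others, if all
of `p1 = j + l`, `p2 = j' + l`, `p3 = j + l'`, `p4 = j' + l'` are in `Pp` (otherwise the contribution
is `0`): `p1 ≠ p2`, `p1 ≠ p3`, `p4 ≠ p2`, `p4 ≠ p3`. If `p1 = p4` and `p2 = p3` then adding gives a
contradiction (`j + l = j' + l'` and `j' + l = j + l'` imply `2 l = 2 l'`). So one of the four is
different from the three others: if `p1 ≠ p4` it is `p1`; if `p2 ≠ p3` it is `p2`. By `inc4` the sum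
over `y` is at most `K^4` in absolute value; there are `(K+1)^4 ≤ 16 K^4` terms.
-/

set_option autoImplicit false

namespace Pool.Agent.H77.K4

open Finset Pool.Agent.H77.SV

/-- the matrices -/
noncomputable def mx (n : ℕ) (Pp : Finset ℕ) (F : ℕ → ℝ) (y j l : ℕ) : ℝ :=
  if j + l ∈ Pp then F (j + l) * jz ((y : ℤ) + n * j) (j + l) else 0

private theorem jz_abs_le (a : ℤ) (p : ℕ) : |jz a p| ≤ 1 := by
  unfold jz
  rcases jacobiSym.trichotomy a p with h | h | h <;> rw [h] <;> simp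

private theorem mx_abs_le (n : ℕ) (Pp : Finset ℕ) (F : ℕ → ℝ) (hF : ∀ p, |F p| ≤ 1)
    (y j l : ℕ) : |mx n Pp F y j l| ≤ 1 := by
  unfold mx
  split_ifs
  · rw [abs_mul]
    exact mul_le_one₀ (hF _) (abs_nonneg _) (jz_abs_le _ _)
  · simp

private theorem term_bound (n K : ℕ) (Pp : Finset ℕ)
    (hPp : ∀ p ∈ Pp, p.Prime ∧ p ≠ 2 ∧ p ≤ K) (F : ℕ → ℝ) (hF : ∀ p, |F p| ≤ 1)
    (j j' l l' : ℕ) :
    ∑ y ∈ range n, (mx n Pp F y j l * mx n Pp F y j' l) *
      (mx n Pp F y j l' * mx n Pp F y j' l') ≤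
      if j = j' ∨ l = l' then (n : ℝ) else (K : ℝ) ^ 4 := by
  have h1 := mx_abs_le n Pp F hF
  split_ifs with h
  · calc ∑ y ∈ range n, (mx n Pp F y j l * mx n Pp F y j' l) *
          (mx n Pp F y j l' * mx n Pp F y j' l')
        ≤ ∑ _y ∈ range n, (1 : ℝ) := by
          refine sum_le_sum fun y _ => (le_abs_self _).trans ?_
          rw [abs_mul, abs_mul, abs_mul]
          exact mul_le_one₀ (mul_le_one₀ (h1 _ _ _) (abs_nonneg _) (h1 _ _ _))
            (mul_nonneg (abs_nonneg _) (abs_nonneg _))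
            (mul_le_one₀ (h1 _ _ _) (abs_nonneg _) (h1 _ _ _))
      _ = n := by simp
  · rw [not_or] at h
    obtain ⟨hj, hl⟩ := h
    by_cases hall : j + l ∈ Pp ∧ j' + l ∈ Pp ∧ j + l' ∈ Pp ∧ j' + l' ∈ Pp
    · obtain ⟨m1, m2, m3, m4⟩ := hall
      have key := inc4 (K := K) ![j + l, j' + l, j + l', j' + l']
        ![(n : ℤ) * j, (n : ℤ) * j', (n : ℤ) * j, (n : ℤ) * j']
        (by
          intro i
          fin_cases i
          · exact hPp _ m1
          · exact hPp _ m2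
          · exact hPp _ m3
          · exact hPp _ m4)
        (by
          by_cases h14 : j + l = j' + l'
          · refine ⟨1, ?_⟩
            intro i hi
            fin_cases i
            · simp; omega
            · exact absurd rfl hi
            · simp; omega
            · simp; omega
          · refine ⟨0, ?_⟩
            intro i hi
            fin_cases i
            · exact absurd rfl hi
            · simp; omega
            · simp; omega
            · simp; omega) n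
      have heq : ∑ y ∈ range n, (mx n Pp F y j l * mx n Pp F y j' l) *
          (mx n Pp F y j l' * mx n Pp F y j' l') =
          (F (j + l) * F (j' + l) * F (j + l') * F (j' + l')) *
          ∑ y ∈ range n, ∏ i, jz ((y : ℤ) +
            ![(n : ℤ) * j, (n : ℤ) * j', (n : ℤ) * j, (n : ℤ) * j'] i)
            (![j + l, j' + l, j + l', j' + l'] i) := by
        rw [mul_sum]
        refine sum_congr rfl fun y _ => ?_
        unfold mx
        rw [if_pos m1, if_pos m2, if_pos m3, if_pos m4, Fin.prod_univ_four]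
        simp only [Matrix.cons_val]
        ring
      rw [heq]
      refine (le_abs_self _).trans ?_
      rw [abs_mul]
      have hFF : |F (j + l) * F (j' + l) * F (j + l') * F (j' + l')| ≤ 1 := by
        rw [abs_mul, abs_mul, abs_mul]
        exact mul_le_one₀ (mul_le_one₀ (mul_le_one₀ (hF _) (abs_nonneg _) (hF _))
          (abs_nonneg _) (hF _)) (abs_nonneg _) (hF _)
      calc _ ≤ 1 * (K : ℝ) ^ 4 := mul_le_mul hFF key (abs_nonneg _) zero_le_one
        _ = _ := one_mul _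
    · have hz : ∀ y, (mx n Pp F y j l * mx n Pp F y j' l) *
          (mx n Pp F y j l' * mx n Pp F y j' l') = 0 := by
        intro y
        unfold mx
        by_cases m1 : j + l ∈ Pp
        · by_cases m2 : j' + l ∈ Pp
          · by_cases m3 : j + l' ∈ Pp
            · by_cases m4 : j' + l' ∈ Pp
              · exact absurd ⟨m1, m2, m3, m4⟩ hall
              · rw [if_neg m4]; ring
            · rw [if_neg m3]; ring
          · rw [if_neg m2]; ring
        · rw [if_neg m1]; ring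
      rw [sum_congr rfl fun y _ => hz y, sum_const_zero]
      positivity

theorem mom4 (n K : ℕ) (hn : 1 ≤ n) (hK : 1 ≤ K) (Pp : Finset ℕ)
    (hPp : ∀ p ∈ Pp, p.Prime ∧ p ≠ 2 ∧ p ≤ K) (F : ℕ → ℝ) (hF : ∀ p, |F p| ≤ 1) :
    ∑ y ∈ range n, ∑ j ∈ range (K + 1), ∑ j' ∈ range (K + 1),
      (∑ l ∈ range (K + 1), mx n Pp F y j l * mx n Pp F y j' l) ^ 2 ≤
      100 * ((n : ℝ) * K ^ 3 + K ^ 8) := by
  have hexp : ∑ y ∈ range n, ∑ j ∈ range (K + 1), ∑ j' ∈ range (K + 1),
      (∑ l ∈ range (K + 1), mx n Pp F y j l * mx n Pp F y j' l) ^ 2 =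
      ∑ j ∈ range (K + 1), ∑ j' ∈ range (K + 1), ∑ l ∈ range (K + 1), ∑ l' ∈ range (K + 1),
        ∑ y ∈ range n, (mx n Pp F y j l * mx n Pp F y j' l) *
          (mx n Pp F y j l' * mx n Pp F y j' l') := by
    rw [sum_comm]
    refine sum_congr rfl fun j _ => ?_
    rw [sum_comm]
    refine sum_congr rfl fun j' _ => ?_
    calc ∑ y ∈ range n, (∑ l ∈ range (K + 1), mx n Pp F y j l * mx n Pp F y j' l) ^ 2
        = ∑ y ∈ range n, ∑ l ∈ range (K + 1), ∑ l' ∈ range (K + 1),
            (mx n Pp F y j l * mx n Pp F y j' l) *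
            (mx n Pp F y j l' * mx n Pp F y j' l') := by
          refine sum_congr rfl fun y _ => ?_
          rw [sq, sum_mul_sum]
      _ = ∑ l ∈ range (K + 1), ∑ y ∈ range n, ∑ l' ∈ range (K + 1),
            (mx n Pp F y j l * mx n Pp F y j' l) *
            (mx n Pp F y j l' * mx n Pp F y j' l') := sum_comm
      _ = _ := by
          refine sum_congr rfl fun l _ => ?_
          rw [sum_comm]
  rw [hexp]
  have hb : ∑ j ∈ range (K + 1), ∑ j' ∈ range (K + 1), ∑ l ∈ range (K + 1),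
      ∑ l' ∈ range (K + 1), ∑ y ∈ range n, (mx n Pp F y j l * mx n Pp F y j' l) *
        (mx n Pp F y j l' * mx n Pp F y j' l') ≤
      ∑ j ∈ range (K + 1), ∑ j' ∈ range (K + 1), ∑ l ∈ range (K + 1),
      ∑ l' ∈ range (K + 1), ((if j = j' then (n : ℝ) else 0) + (if l = l' then (n : ℝ) else 0) +
        (K : ℝ) ^ 4) := by
    refine sum_le_sum fun j _ => sum_le_sum fun j' _ => sum_le_sum fun l _ =>
      sum_le_sum fun l' _ => (term_bound n K Pp hPp F hF j j' l l').trans ?_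
    have hn0 : (0 : ℝ) ≤ n := Nat.cast_nonneg n
    have hK0 : (0 : ℝ) ≤ (K : ℝ) ^ 4 := by positivity
    by_cases h1 : j = j' <;> by_cases h2 : l = l'
    all_goals simp [h1, h2]
    all_goals linarith
  refine hb.trans ?_
  have hs1 : ∑ j ∈ range (K + 1), ∑ j' ∈ range (K + 1), ∑ l ∈ range (K + 1),
      ∑ l' ∈ range (K + 1), ((if j = j' then (n : ℝ) else 0) + (if l = l' then (n : ℝ) else 0) +
        (K : ℝ) ^ 4) = 2 * (n * ((K : ℝ) + 1) ^ 3) + ((K : ℝ) + 1) ^ 4 * (K : ℝ) ^ 4 := by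
    have hA : ∀ m ∈ range (K + 1), ∑ m' ∈ range (K + 1), (if m = m' then (n : ℝ) else 0) = n := by
      intro m hm
      rw [sum_ite_eq, if_pos hm]
    simp only [sum_add_distrib, sum_const, card_range, nsmul_eq_mul]
    have e1 : ∑ j ∈ range (K + 1), ∑ j' ∈ range (K + 1),
        ((K + 1 : ℕ) : ℝ) * (((K + 1 : ℕ) : ℝ) * (if j = j' then (n : ℝ) else 0)) =
        ((K : ℝ) + 1) ^ 3 * n := by
      have : ∀ j ∈ range (K + 1), ∑ j' ∈ range (K + 1),
          ((K + 1 : ℕ) : ℝ) * (((K + 1 : ℕ) : ℝ) * (if j = j' then (n : ℝ) else 0)) =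
          ((K + 1 : ℕ) : ℝ) * (((K + 1 : ℕ) : ℝ) * n) := by
        intro j hj
        rw [← mul_sum, ← mul_sum, hA j hj]
      rw [sum_congr rfl this, sum_const, card_range, nsmul_eq_mul]
      push_cast
      ring
    have e2 : ∑ l ∈ range (K + 1), ∑ l' ∈ range (K + 1), (if l = l' then (n : ℝ) else 0) =
        ((K : ℝ) + 1) * n := by
      rw [sum_congr rfl hA, sum_const, card_range, nsmul_eq_mul]
      push_cast
      ring
    rw [e1, e2]
    push_cast
    ring
  rw [hs1]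
  have hK1 : (1 : ℝ) ≤ K := by exact_mod_cast hK
  have hle : (K : ℝ) + 1 ≤ 2 * K := by linarith
  have h0 : (0 : ℝ) ≤ (K : ℝ) + 1 := by linarith
  have hn0 : (0 : ℝ) ≤ n := Nat.cast_nonneg n
  have p3 : ((K : ℝ) + 1) ^ 3 ≤ 8 * (K : ℝ) ^ 3 := by
    calc ((K : ℝ) + 1) ^ 3 ≤ (2 * (K : ℝ)) ^ 3 := by gcongr
      _ = 8 * (K : ℝ) ^ 3 := by ring
  have p4 : ((K : ℝ) + 1) ^ 4 ≤ 16 * (K : ℝ) ^ 4 := by
    calc ((K : ℝ) + 1) ^ 4 ≤ (2 * (K : ℝ)) ^ 4 := by gcongr
      _ = 16 * (K : ℝ) ^ 4 := by ring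
  have hK4 : (0 : ℝ) ≤ (K : ℝ) ^ 4 := by positivity
  have q1 := mul_le_mul_of_nonneg_left p3 hn0
  have q2 := mul_le_mul_of_nonneg_right p4 hK4
  have q3 : (0 : ℝ) ≤ n * (K : ℝ) ^ 3 := by positivity
  have q4 : (0 : ℝ) ≤ (K : ℝ) ^ 8 := by positivity
  have q5 : 16 * (K : ℝ) ^ 4 * (K : ℝ) ^ 4 = 16 * (K : ℝ) ^ 8 := by ring
  nlinarith

end Pool.Agent.H77.K4
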