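import Pool.Agent.H77.K4.C1

/-!
# C4: the norm of a Hankel matrix

Let `h : ℕ → ℝ`, `|f|, |g| ≤ 1` real, and `Λ ≥ |sum_(s ≤ 2K) h(s) e(s a / (2K+1))|` for all `a`
(`e(x) = exp (2 π i x)`). Then `|sum_(j, l ≤ K) f(j) g(l) h(j + l)| ≤ (K + 1) Λ`.

Proof. `N = 2K + 1`. By orthogonality (`j + l ≤ 2 K < N`, so `s = j + l mod N` with `s ≤ 2K` means
`s = j + l`): `h(j+l) = (1/N) sum_(a < N) e(-(j+l)a/N) hh(a)`, `hh(a) = sum_(s ≤ 2K) h(s) e(s a/N)`.
So the sum is `(1/N) sum_a hh(a) ff(a) gg(a)`, `ff(a) = sum_j f(j) e(-j a/N)`, `gg` the same. By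
Cauchy and Parseval (`sum_a |ff(a)|^2 = N sum_j f(j)^2 ≤ N (K+1)`) it is at most
`(1/N) Λ (N (K+1))^(1/2) (N (K+1))^(1/2) = Λ (K+1)`.
(One can use `ZMod.stdAddChar`/`ZMod.dft`, or geometric sums of `exp (2 π i a / N)`.)
-/

set_option autoImplicit false

namespace Pool.Agent.H77.K4

open Finset Pool.Agent.H77.SV

/-- `exp (2 π i a / N)` -/
noncomputable def en (N : ℕ) (a : ℤ) : ℂ := Complex.exp (2 * Real.pi * Complex.I * a / N)

private lemma c4_en_add (N : ℕ) (a b : ℤ) : en N (a + b) = en N a * en N b := by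
  unfold en
  rw [← Complex.exp_add]
  congr 1
  push_cast
  ring

private lemma c4_norm (N : ℕ) (a : ℤ) : ‖en N a‖ = 1 := by
  unfold en
  have : (2 * Real.pi * Complex.I * a / N : ℂ) = ((2 * Real.pi * a / N : ℝ) : ℂ) * Complex.I := by
    push_cast
    ring
  rw [this, Complex.norm_exp_ofReal_mul_I]

private lemma c4_conj (N : ℕ) (a : ℤ) : (starRingEnd ℂ) (en N a) = en N (-a) := by
  unfold en
  rw [← Complex.exp_conj]
  congr 1
  simp [Complex.conj_ofReal, map_ofNat, neg_div]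

private lemma c4_zpow (N : ℕ) (k : ℤ) : en N k = en N 1 ^ k := by
  unfold en
  rw [← Complex.exp_int_mul]
  congr 1
  push_cast
  ring

private lemma c4_pow (N : ℕ) (k : ℤ) (a : ℕ) : en N (k * a) = en N k ^ a := by
  rw [c4_zpow N (k * a), c4_zpow N k, zpow_mul, zpow_natCast]

private lemma c4_prim {N : ℕ} (hN : 0 < N) : IsPrimitiveRoot (en N 1) N := by
  have := Complex.isPrimitiveRoot_exp N hN.ne'
  convert this using 1
  unfold en
  push_cast
  simp

private lemma c4_orth {N : ℕ} (hN : 0 < N) (k : ℤ) :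
    ∑ a ∈ range N, en N (k * a) = if (N : ℤ) ∣ k then (N : ℂ) else 0 := by
  have hp := c4_prim hN
  simp only [c4_pow]
  split_ifs with h
  · have : en N k = 1 := by
      rw [c4_zpow]; exact (hp.zpow_eq_one_iff_dvd k).2 h
    simp [this]
  · have h1 : en N k ≠ 1 := by
      rw [c4_zpow]; exact fun h' => h ((hp.zpow_eq_one_iff_dvd k).1 h')
    have h2 : en N k ^ N = 1 := by
      rw [← c4_pow, c4_zpow]
      exact (hp.zpow_eq_one_iff_dvd _).2 (Dvd.intro_left k rfl)
    rw [geom_sum_eq h1, h2]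
    simp

private lemma c4_parseval (K : ℕ) (f : ℕ → ℝ) (hf : ∀ p, |f p| ≤ 1) :
    ∑ a ∈ range (2 * K + 1), ‖∑ j ∈ range (K + 1), (f j : ℂ) * en (2 * K + 1) (-(j : ℤ) * a)‖ ^ 2 ≤
      (2 * K + 1 : ℝ) * (K + 1) := by
  have hN : 0 < 2 * K + 1 := by omega
  have key : ((∑ a ∈ range (2 * K + 1),
      ‖∑ j ∈ range (K + 1), (f j : ℂ) * en (2 * K + 1) (-(j : ℤ) * a)‖ ^ 2 : ℝ) : ℂ) =
      (((2 * K + 1 : ℝ) * ∑ j ∈ range (K + 1), f j ^ 2 : ℝ) : ℂ) := by
    push_cast
    have h1 : ∀ a ∈ range (2 * K + 1),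
        ((‖∑ j ∈ range (K + 1), (f j : ℂ) * en (2 * K + 1) (-(j : ℤ) * a)‖ : ℂ) ^ 2) =
        ∑ j ∈ range (K + 1), ∑ l ∈ range (K + 1), (f j : ℂ) * f l *
          en (2 * K + 1) (((l : ℤ) - j) * a) := by
      intro a _
      rw [← Complex.mul_conj', map_sum, sum_mul_sum]
      refine sum_congr rfl fun j _ => sum_congr rfl fun l _ => ?_
      rw [map_mul, c4_conj, Complex.conj_ofReal]
      have : en (2 * K + 1) (((l : ℤ) - j) * a) =
          en (2 * K + 1) (-(j : ℤ) * a) * en (2 * K + 1) (-(-(l : ℤ) * a)) := by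
        rw [← c4_en_add]
        congr 1
        ring
      rw [this]
      ring
    rw [sum_congr rfl h1, sum_comm, mul_sum]
    refine sum_congr rfl fun j hj => ?_
    rw [sum_comm]
    have h2 : ∀ l ∈ range (K + 1), (∑ a ∈ range (2 * K + 1), (f j : ℂ) * f l *
        en (2 * K + 1) (((l : ℤ) - j) * a)) = if l = j then (f j : ℂ) * f l * (2 * K + 1) else 0 := by
      intro l hl
      rw [← mul_sum, c4_orth hN]
      have hj' := mem_range.1 hj
      have hl' := mem_range.1 hl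
      by_cases hlj : l = j
      · subst hlj
        simp
      · have : ¬ (((2 * K + 1 : ℕ) : ℤ) ∣ (l : ℤ) - j) := by
          intro hd
          have := Int.eq_zero_of_abs_lt_dvd hd (by
            rw [abs_lt]; constructor <;> push_cast <;> omega)
          omega
        rw [if_neg this, if_neg hlj, mul_zero]
    rw [sum_congr rfl h2, sum_ite_eq' (range (K + 1)) j, if_pos hj]
    ring
  have key' := Complex.ofReal_injective key
  rw [key']
  have h3 : ∑ j ∈ range (K + 1), f j ^ 2 ≤ K + 1 := by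
    calc ∑ j ∈ range (K + 1), f j ^ 2 ≤ ∑ j ∈ range (K + 1), (1 : ℝ) := by
          refine sum_le_sum fun j _ => ?_
          have := hf j
          rw [← sq_abs]
          exact pow_le_one₀ (abs_nonneg _) this
      _ = K + 1 := by simp
  have h4 : (0 : ℝ) ≤ 2 * K + 1 := by positivity
  exact mul_le_mul_of_nonneg_left h3 h4

theorem hankel (K : ℕ) (h f g : ℕ → ℝ) (hf : ∀ p, |f p| ≤ 1) (hg : ∀ p, |g p| ≤ 1) (Λ : ℝ)
    (hΛ : ∀ a < 2 * K + 1,
      ‖∑ s ∈ range (2 * K + 1), (h s : ℂ) * en (2 * K + 1) ((s : ℤ) * a)‖ ≤ Λ) :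
    |∑ j ∈ range (K + 1), ∑ l ∈ range (K + 1), f j * g l * h (j + l)| ≤ (K + 1) * Λ := by
  have hN : 0 < 2 * K + 1 := by omega
  have hN' : (0 : ℝ) < 2 * K + 1 := by positivity
  set hh : ℕ → ℂ := fun a => ∑ s ∈ range (2 * K + 1), (h s : ℂ) * en (2 * K + 1) ((s : ℤ) * a)
    with hhdef
  set ff : ℕ → ℂ := fun a => ∑ j ∈ range (K + 1), (f j : ℂ) * en (2 * K + 1) (-(j : ℤ) * a)
    with ffdef
  set gg : ℕ → ℂ := fun a => ∑ j ∈ range (K + 1), (g j : ℂ) * en (2 * K + 1) (-(j : ℤ) * a)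
    with ggdef
  have hΛ0 : 0 ≤ Λ := (norm_nonneg _).trans (hΛ 0 hN)
  have key : (((2 * K + 1 : ℝ) * ∑ j ∈ range (K + 1), ∑ l ∈ range (K + 1),
      f j * g l * h (j + l) : ℝ) : ℂ) = ∑ a ∈ range (2 * K + 1), hh a * (ff a * gg a) := by
    have h1 : ∀ a ∈ range (2 * K + 1), hh a * (ff a * gg a) =
        ∑ j ∈ range (K + 1), ∑ l ∈ range (K + 1), ∑ s ∈ range (2 * K + 1),
          (f j : ℂ) * g l * h s * en (2 * K + 1) (((s : ℤ) - (j + l)) * a) := by
      intro a _
      rw [ffdef, ggdef, hhdef]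
      simp only
      rw [sum_mul_sum, mul_sum]
      refine sum_congr rfl fun j _ => ?_
      rw [mul_sum]
      refine sum_congr rfl fun l _ => ?_
      rw [sum_mul]
      refine sum_congr rfl fun s _ => ?_
      have : en (2 * K + 1) (((s : ℤ) - (j + l)) * a) = en (2 * K + 1) ((s : ℤ) * a) *
          (en (2 * K + 1) (-(j : ℤ) * a) * en (2 * K + 1) (-(l : ℤ) * a)) := by
        rw [← c4_en_add, ← c4_en_add]
        congr 1
        ring
      rw [this]
      ring
    rw [sum_congr rfl h1, sum_comm (s := range (2 * K + 1))]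
    push_cast
    rw [mul_sum]
    refine sum_congr rfl fun j hj => ?_
    rw [sum_comm (s := range (2 * K + 1)), mul_sum]
    refine sum_congr rfl fun l hl => ?_
    rw [sum_comm]
    have hj' := mem_range.1 hj
    have hl' := mem_range.1 hl
    have h2 : ∀ s ∈ range (2 * K + 1), (∑ a ∈ range (2 * K + 1), (f j : ℂ) * g l * h s *
        en (2 * K + 1) (((s : ℤ) - (j + l)) * a)) =
        if s = j + l then (f j : ℂ) * g l * h s * (2 * K + 1) else 0 := by
      intro s hs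
      have hs' := mem_range.1 hs
      rw [← mul_sum, c4_orth hN]
      by_cases hsj : s = j + l
      · subst hsj
        simp
      · have : ¬ (((2 * K + 1 : ℕ) : ℤ) ∣ (s : ℤ) - (j + l)) := by
          intro hd
          have := Int.eq_zero_of_abs_lt_dvd hd (by
            rw [abs_lt]; constructor <;> push_cast <;> omega)
          omega
        rw [if_neg this, if_neg hsj, mul_zero]
    rw [sum_congr rfl h2, sum_ite_eq' (range (2 * K + 1)) (j + l),
      if_pos (mem_range.2 (by omega))]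
    ring
  have hnorm : |(2 * K + 1 : ℝ) * ∑ j ∈ range (K + 1), ∑ l ∈ range (K + 1),
      f j * g l * h (j + l)| ≤ (2 * K + 1) * ((K + 1) * Λ) := by
    rw [← Real.norm_eq_abs, ← Complex.norm_real, key]
    calc ‖∑ a ∈ range (2 * K + 1), hh a * (ff a * gg a)‖
        ≤ ∑ a ∈ range (2 * K + 1), ‖hh a * (ff a * gg a)‖ := norm_sum_le _ _
      _ ≤ ∑ a ∈ range (2 * K + 1), Λ * ((‖ff a‖ ^ 2 + ‖gg a‖ ^ 2) / 2) := by
          refine sum_le_sum fun a ha => ?_
          rw [norm_mul, norm_mul]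
          refine mul_le_mul (hΛ a (mem_range.1 ha)) ?_ (by positivity) hΛ0
          nlinarith [sq_nonneg (‖ff a‖ - ‖gg a‖)]
      _ = Λ * ((∑ a ∈ range (2 * K + 1), ‖ff a‖ ^ 2 + ∑ a ∈ range (2 * K + 1), ‖gg a‖ ^ 2) / 2) := by
          rw [← mul_sum, ← sum_div, sum_add_distrib]
      _ ≤ Λ * (((2 * K + 1 : ℝ) * (K + 1) + (2 * K + 1 : ℝ) * (K + 1)) / 2) := by
          have h1 := c4_parseval K f hf
          have h2 := c4_parseval K g hg
          refine mul_le_mul_of_nonneg_left ?_ hΛ0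
          have h3 := add_le_add h1 h2
          exact div_le_div_of_nonneg_right h3 (by norm_num)
      _ = (2 * K + 1) * ((K + 1) * Λ) := by ring
  rw [abs_mul, abs_of_pos hN'] at hnorm
  exact le_of_mul_le_mul_left hnorm hN'

end Pool.Agent.H77.K4
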