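import Pool.Agent.H77.K4.C5

/-!
# C6: the bilinear sum of case II

`n, K ≥ 1`, `K^6 ≤ N`, `Pp` a set of odd primes `≤ K`, `|F| ≤ 1`, `|f m|, |g m| ≤ 1`. Then
`sum_(N < m ≤ 2N) |sum_(p ∈ Pp) sum_(Y ≤ n m p) F(p) (m/p) f_m(Y) g_m(n m p - Y)| ≤
1000 n N^2 K^(7/4)`.

Proof. Fix `m`, put `n' = n m ≤ 2 n N`. As in C3 write `Y = y + n' j`, `0 ≤ y < n'`, `l = p - j`: the
inner sum is `sum_(y < n') sum_(j, l ≤ K) f_m(y + n' j) g'(l) h_m(j + l)` with
`h_m(s) = F(s) (m/s)` if `s ∈ Pp` and `0` otherwise, `|g'| ≤ 1`. By `hankel` it is at most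
`n' (K+1) Λ_m`, `Λ_m = max_(a < 2K+1) |sum_(p ∈ Pp) F(p) (m/p) e(p a/(2K+1))|`.
By `mom4m`: `sum_m Λ_m^4 ≤ sum_a sum_m |...|^4 ≤ (2K+1) * 4 N K^2 ≤ 12 N K^3`, and by Hölder
`sum_(N < m ≤ 2N) Λ_m ≤ N^(3/4) (12 N K^3)^(1/4) ≤ 2 N K^(3/4)`. Total:
`2 n N * (K+1) * 2 N K^(3/4) ≤ 8 n N^2 K^(7/4)`.
-/

set_option autoImplicit false

namespace Pool.Agent.H77.K4

open Finset Pool.Agent.H77.SV

private theorem c6_norm_en (N : ℕ) (a : ℤ) : ‖en N a‖ = 1 := by
  unfold en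
  have : (2 * Real.pi * Complex.I * a / N : ℂ) = ((2 * Real.pi * a / N : ℝ) : ℂ) * Complex.I := by
    push_cast
    ring
  rw [this, Complex.norm_exp_ofReal_mul_I]

/-- splitting of a sum over `Y ≤ n' p` -/
private theorem c6_split (n' p : ℕ) (hn : 1 ≤ n') (G : ℕ → ℝ) :
    ∑ Y ∈ range (n' * p + 1), G Y =
      ∑ y ∈ range n', ∑ j ∈ range (p + 1), if y ≤ n' * (p - j) then G (y + n' * j) else 0 := by
  have h1 : ∀ m : ℕ, ∑ Y ∈ range (n' * m), G Y =
      ∑ y ∈ range n', ∑ j ∈ range m, G (y + n' * j) := by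
    intro m
    induction m with
    | zero => simp
    | succ k ih =>
      rw [Nat.mul_succ, sum_range_add, ih, ← sum_add_distrib]
      refine sum_congr rfl fun y _ => ?_
      rw [sum_range_succ]
      congr 2
      ring
  rw [sum_range_succ, h1]
  have h2 : ∀ y ∈ range n', (∑ j ∈ range (p + 1), if y ≤ n' * (p - j) then G (y + n' * j) else 0) =
      ∑ j ∈ range p, G (y + n' * j) + if y = 0 then G (n' * p) else 0 := by
    intro y hy
    have hy' := mem_range.1 hy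
    rw [sum_range_succ]
    congr 1
    · refine sum_congr rfl fun j hj => ?_
      have hj' := mem_range.1 hj
      rw [if_pos]
      calc y ≤ n' * 1 := by omega
        _ ≤ n' * (p - j) := Nat.mul_le_mul_left _ (by omega)
    · by_cases h : y = 0
      · simp [h]
      · rw [if_neg h, if_neg]
        simp
        omega
  rw [sum_congr rfl h2, sum_add_distrib]
  congr 1
  rw [sum_ite_eq' (range n') 0 (fun _ => G (n' * p))]
  rw [if_pos (mem_range.2 (by omega))]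

/-- one value of `m` -/
private theorem c6_one (n' K : ℕ) (hn : 1 ≤ n') (Pp : Finset ℕ)
    (hPp : ∀ p ∈ Pp, p ≤ K) (H : ℕ → ℝ) (f g : ℕ → ℝ)
    (hf : ∀ p, |f p| ≤ 1) (hg : ∀ p, |g p| ≤ 1) (Λ : ℝ)
    (hΛ : ∀ a < 2 * K + 1, ‖∑ p ∈ Pp, (H p : ℂ) * en (2 * K + 1) ((p : ℤ) * a)‖ ≤ Λ) :
    |∑ p ∈ Pp, ∑ Y ∈ range (n' * p + 1), H p * f Y * g (n' * p - Y)| ≤ n' * ((K + 1) * Λ) := by
  classical
  set h : ℕ → ℝ := fun s => if s ∈ Pp then H s else 0 with hh
  have hsum : ∑ p ∈ Pp, ∑ Y ∈ range (n' * p + 1), H p * f Y * g (n' * p - Y) =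
      ∑ y ∈ range n', ∑ j ∈ range (K + 1), ∑ l ∈ range (K + 1),
        f (y + n' * j) * (if y ≤ n' * l then g (n' * l - y) else 0) * h (j + l) := by
    have h1 : ∀ p ∈ Pp, ∑ Y ∈ range (n' * p + 1), H p * f Y * g (n' * p - Y) =
        ∑ y ∈ range n', ∑ j ∈ range (K + 1), if j ≤ p then
          (f (y + n' * j) * (if y ≤ n' * (p - j) then g (n' * (p - j) - y) else 0) * H p) else 0 := by
      intro p hp
      rw [c6_split n' p hn (fun Y => H p * f Y * g (n' * p - Y))]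
      refine sum_congr rfl fun y _ => ?_
      have hpK := hPp p hp
      have hfil : (range (K + 1)).filter (fun j => j ≤ p) = range (p + 1) := by
        ext j
        simp only [mem_filter, mem_range]
        omega
      rw [← sum_filter (s := range (K + 1)) (p := fun j => j ≤ p), hfil]
      refine sum_congr rfl fun j hj => ?_
      have hj' : j ≤ p := by have := mem_range.1 hj; omega
      have e : n' * p - (y + n' * j) = n' * (p - j) - y := by
        rw [Nat.mul_sub]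
        omega
      split_ifs with hy
      · rw [e]; ring
      · ring
    rw [sum_congr rfl h1, sum_comm]
    refine sum_congr rfl fun y _ => ?_
    rw [sum_comm]
    refine sum_congr rfl fun j hj => ?_
    -- fixed `y`, `j`
    rw [← sum_filter]
    have h2 : ∀ l ∈ range (K + 1), l ∉ (range (K + 1)).filter (fun l => j + l ∈ Pp) →
        f (y + n' * j) * (if y ≤ n' * l then g (n' * l - y) else 0) * h (j + l) = 0 := by
      intro l hl hl'
      have : j + l ∉ Pp := fun hc => hl' (mem_filter.2 ⟨hl, hc⟩)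
      simp [hh, this]
    rw [← sum_subset (filter_subset _ _) h2]
    refine sum_nbij' (fun p => p - j) (fun l => j + l) ?_ ?_ ?_ ?_ ?_
    · intro p hp
      rw [mem_filter] at hp
      rw [mem_filter, mem_range]
      have := hPp p hp.1
      refine ⟨by omega, ?_⟩
      rw [Nat.add_sub_cancel' hp.2]
      exact hp.1
    · intro l hl
      rw [mem_filter] at hl
      rw [mem_filter]
      exact ⟨hl.2, by omega⟩
    · intro p hp
      rw [mem_filter] at hp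
      exact Nat.add_sub_cancel' hp.2
    · intro l hl
      exact Nat.add_sub_cancel_left ..
    · intro p hp
      rw [mem_filter] at hp
      rw [Nat.add_sub_cancel' hp.2]
      simp [hh, hp.1]
  rw [hsum]
  have hE : ∀ a < 2 * K + 1,
      ‖∑ s ∈ range (2 * K + 1), (h s : ℂ) * en (2 * K + 1) ((s : ℤ) * a)‖ ≤ Λ := by
    intro a ha
    have : ∑ s ∈ range (2 * K + 1), (h s : ℂ) * en (2 * K + 1) ((s : ℤ) * a) =
        ∑ p ∈ Pp, (H p : ℂ) * en (2 * K + 1) ((p : ℤ) * a) := by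
      have hsub : Pp ⊆ range (2 * K + 1) := by
        intro p hp
        have := hPp p hp
        exact mem_range.2 (by omega)
      rw [← sum_subset hsub]
      · refine sum_congr rfl fun p hp => ?_
        simp [hh, hp]
      · intro s _ hs
        simp [hh, hs]
    rw [this]
    exact hΛ a ha
  calc |∑ y ∈ range n', ∑ j ∈ range (K + 1), ∑ l ∈ range (K + 1),
        f (y + n' * j) * (if y ≤ n' * l then g (n' * l - y) else 0) * h (j + l)|
      ≤ ∑ y ∈ range n', |∑ j ∈ range (K + 1), ∑ l ∈ range (K + 1),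
        f (y + n' * j) * (if y ≤ n' * l then g (n' * l - y) else 0) * h (j + l)| :=
        abs_sum_le_sum_abs _ _
    _ ≤ ∑ _y ∈ range n', ((K + 1) * Λ) := by
        refine sum_le_sum fun y _ => ?_
        refine hankel K h (fun j => f (y + n' * j))
          (fun l => if y ≤ n' * l then g (n' * l - y) else 0) (fun j => hf _) ?_ Λ hE
        intro l
        show |if y ≤ n' * l then g (n' * l - y) else 0| ≤ 1
        split_ifs
        · exact hg _
        · simp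
    _ = n' * ((K + 1) * Λ) := by simp

theorem lemII (n N K : ℕ) (hn : 1 ≤ n) (hK : 1 ≤ K) (hKN : K ^ 6 ≤ N) (Pp : Finset ℕ)
    (hPp : ∀ p ∈ Pp, p.Prime ∧ p ≠ 2 ∧ p ≤ K) (F : ℕ → ℝ) (f g : ℕ → ℕ → ℝ)
    (hF : ∀ p, |F p| ≤ 1) (hf : ∀ m p, |f m p| ≤ 1) (hg : ∀ m p, |g m p| ≤ 1) :
    ∑ m ∈ Ioc N (2 * N), |∑ p ∈ Pp, ∑ Y ∈ range (n * m * p + 1),
      F p * jz (m : ℤ) p * f m Y * g m (n * m * p - Y)| ≤
      1000 * n * (N : ℝ) ^ 2 * (K : ℝ) ^ (7 / 4 : ℝ) := by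
  have hN1 : 1 ≤ N := le_trans (Nat.one_le_pow _ _ hK) hKN
  set S : ℕ → ℕ → ℝ := fun m a =>
    ‖∑ p ∈ Pp, ((F p * jz (m : ℤ) p : ℝ) : ℂ) * en (2 * K + 1) ((p : ℤ) * a)‖ with hS
  set Q : ℕ → ℝ := fun m => ∑ a ∈ range (2 * K + 1), S m a ^ 4 with hQ
  set L : ℕ → ℝ := fun m => Q m ^ (1 / 4 : ℝ) with hL
  have hS0 : ∀ m a, 0 ≤ S m a := fun m a => norm_nonneg _
  have hQ0 : ∀ m, 0 ≤ Q m := fun m => sum_nonneg fun a _ => pow_nonneg (hS0 m a) 4
  have hL0 : ∀ m, 0 ≤ L m := fun m => Real.rpow_nonneg (hQ0 m) _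
  have hL4 : ∀ m, L m ^ 4 = Q m := by
    intro m
    rw [hL]
    simp only
    rw [← Real.rpow_natCast, ← Real.rpow_mul (hQ0 m)]
    norm_num
  have hSL : ∀ m, ∀ a < 2 * K + 1, S m a ≤ L m := by
    intro m a ha
    rw [← pow_le_pow_iff_left₀ (hS0 m a) (hL0 m) (by norm_num : (4 : ℕ) ≠ 0), hL4]
    exact single_le_sum (f := fun a => S m a ^ 4) (fun a _ => pow_nonneg (hS0 m a) 4)
      (mem_range.2 ha)
  -- one `m`
  have hone : ∀ m ∈ Ioc N (2 * N), |∑ p ∈ Pp, ∑ Y ∈ range (n * m * p + 1),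
      F p * jz (m : ℤ) p * f m Y * g m (n * m * p - Y)| ≤ 4 * n * N * K * L m := by
    intro m hm
    rw [mem_Ioc] at hm
    have hnm : 1 ≤ n * m := Nat.mul_pos hn (by omega)
    have := c6_one (n * m) K hnm Pp (fun p hp => (hPp p hp).2.2) (fun p => F p * jz (m : ℤ) p)
      (f m) (g m) (hf m) (hg m) (L m) (fun a ha => hSL m a ha)
    refine this.trans ?_
    have h1 : ((n * m : ℕ) : ℝ) ≤ n * (2 * N) := by
      push_cast
      have : (m : ℝ) ≤ 2 * N := by exact_mod_cast hm.2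
      exact mul_le_mul_of_nonneg_left this (Nat.cast_nonneg _)
    have h2 : (K : ℝ) + 1 ≤ 2 * K := by
      have : (1 : ℝ) ≤ K := by exact_mod_cast hK
      linarith
    calc ((n * m : ℕ) : ℝ) * (((K : ℝ) + 1) * L m) ≤ (n * (2 * N)) * ((2 * K) * L m) := by
          refine mul_le_mul h1 (mul_le_mul_of_nonneg_right h2 (hL0 m)) ?_ ?_
          · have := hL0 m
            positivity
          · positivity
      _ = 4 * n * N * K * L m := by ring
  have hsumQ : ∑ m ∈ Ioc N (2 * N), Q m ≤ 12 * N * (K : ℝ) ^ 3 := by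
    rw [hQ]
    simp only
    rw [sum_comm]
    calc ∑ a ∈ range (2 * K + 1), ∑ m ∈ Ioc N (2 * N), S m a ^ 4
        ≤ ∑ _a ∈ range (2 * K + 1), 4 * (N : ℝ) * K ^ 2 := by
          refine sum_le_sum fun a _ => ?_
          exact mom4m N K hK hKN Pp hPp F hF (fun p => en (2 * K + 1) ((p : ℤ) * a))
            (fun p => c6_norm_en _ _)
      _ = (2 * K + 1) * (4 * (N : ℝ) * K ^ 2) := by simp
      _ ≤ (3 * K) * (4 * (N : ℝ) * K ^ 2) := by
          refine mul_le_mul_of_nonneg_right ?_ (by positivity)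
          have : (1 : ℝ) ≤ K := by exact_mod_cast hK
          linarith
      _ = 12 * N * (K : ℝ) ^ 3 := by ring
  have hsumL : ∑ m ∈ Ioc N (2 * N), L m ≤ 2 * N * (K : ℝ) ^ (3 / 4 : ℝ) := by
    have h0 : 0 ≤ ∑ m ∈ Ioc N (2 * N), L m := sum_nonneg fun m _ => hL0 m
    have hc : ((#(Ioc N (2 * N)) : ℕ) : ℝ) = N := by
      rw [Nat.card_Ioc]
      congr 1
      omega
    have h1 := pow_sum_div_card_le_sum_pow (s := Ioc N (2 * N)) (f := L) (fun m _ => hL0 m) 3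
    simp only [hL4] at h1
    rw [hc] at h1
    have h2 := h1.trans hsumQ
    have hNpos : (0 : ℝ) < N := by exact_mod_cast hN1
    rw [div_le_iff₀ (by positivity)] at h2
    have hKr : (0 : ℝ) ≤ (K : ℝ) := Nat.cast_nonneg _
    have h3 : ((K : ℝ) ^ (3 / 4 : ℝ)) ^ 4 = (K : ℝ) ^ 3 := by
      rw [← Real.rpow_natCast, ← Real.rpow_mul hKr]
      norm_num
    rw [← pow_le_pow_iff_left₀ h0 (by positivity) (by norm_num : (4 : ℕ) ≠ 0)]
    rw [mul_pow, mul_pow, h3]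
    have h4 : (0 : ℝ) ≤ (N : ℝ) ^ 4 * (K : ℝ) ^ 3 := by positivity
    refine (le_of_eq rfl).trans (h2.trans ?_)
    have e : 2 ^ 4 * (N : ℝ) ^ 4 * (K : ℝ) ^ 3 = 16 * ((N : ℝ) ^ 4 * (K : ℝ) ^ 3) := by ring
    have e2 : 12 * (N : ℝ) * (K : ℝ) ^ 3 * (N : ℝ) ^ 3 = 12 * ((N : ℝ) ^ 4 * (K : ℝ) ^ 3) := by ring
    rw [e, e2]
    exact mul_le_mul_of_nonneg_right (by norm_num) h4
  calc ∑ m ∈ Ioc N (2 * N), |∑ p ∈ Pp, ∑ Y ∈ range (n * m * p + 1),
      F p * jz (m : ℤ) p * f m Y * g m (n * m * p - Y)|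
      ≤ ∑ m ∈ Ioc N (2 * N), 4 * n * N * K * L m := sum_le_sum hone
    _ = 4 * n * N * K * ∑ m ∈ Ioc N (2 * N), L m := by rw [mul_sum]
    _ ≤ 4 * n * N * K * (2 * N * (K : ℝ) ^ (3 / 4 : ℝ)) :=
        mul_le_mul_of_nonneg_left hsumL (by positivity)
    _ = 8 * n * (N : ℝ) ^ 2 * ((K : ℝ) ^ (1 : ℝ) * (K : ℝ) ^ (3 / 4 : ℝ)) := by
        rw [Real.rpow_one]; ring
    _ = 8 * n * (N : ℝ) ^ 2 * (K : ℝ) ^ (7 / 4 : ℝ) := by
        rw [← Real.rpow_add (by exact_mod_cast hK)]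
        norm_num
    _ ≤ 1000 * n * (N : ℝ) ^ 2 * (K : ℝ) ^ (7 / 4 : ℝ) := by
        refine mul_le_mul_of_nonneg_right ?_ (by positivity)
        refine mul_le_mul_of_nonneg_right ?_ (by positivity)
        refine mul_le_mul_of_nonneg_right ?_ (by positivity)
        norm_num

end Pool.Agent.H77.K4
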