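import Pool.Agent.H77.K4.X4
import Pool.Agent.H77.K4.Defs2

/-!
# C8: the fibres of `(Y, Z) ↦ (n, b, c)`

Fix `i < J`, `j < k`, `i ≠ j`, `w ≤ z`. For `x = (Y, Z) ∈ SSk`: `q = lpf Y`, `r = lpf Z`,
`b = Y / q`, `c = Z / r`, `p = uu i`, `m = uu j`, `n = X / (p m)`.

`fib_iff`. From left to right: `Fac`, `UU` and `Ok` for `x` give everything: `b = Y / lpf Y ≤ z`; `b`,
`c` are odd as `Y`, `Z` are; `hw`, `hsq`: `n b c | X Y Z`; `hI`: the primes of `I l` dividing
`X = n p m` are those dividing `n`, and `p`, `m` (`p ∈ I i`; `m ∈ I j` if `j < J`, `m > z^M`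
otherwise; `p, m ∤ n` as `p^2, m^2 ∤ X Y Z`; the intervals are disjoint); the rank of `m`: the
elements of `bgX` smaller than `m = uu j` are `uu 0, ..., uu (j-1)`; they are the primes `u | n` with
`z < u < m` and, if `i < j`, the prime `p`.

From right to left. `q > z^M ≥ z`: `T/2 < b q`, `b ≤ z`, `T ≥ z^(30M)`; the same for `r`. So
`q, r ∤ b c`; `q ∤ n p m = X`: otherwise `q | c r`, so `q = r`. `p > z`, `m > z`, `p ≠ m`. So `p, m,
q, r` are distinct and do not divide `n b c`, and `(Y + Z) Y Z = (n b c) p m q r` has no square of an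
odd prime as a divisor; its odd primes are those of `n b c` and `p, m, q, r` (all `> w`). `Y`, `Z`
coprime: `b`, `c` are coprime by `hsq` and oddness. `lpf (b q) = q` as `b ≤ z < q`. `hI`, `hn`, `hA`,
the number of primes `> z` of `X` (`hk`), as above. Then `UU` holds for `x`: `uu i = ppI i = p`; `m =
uu j` because exactly `j` elements of `bgX` are smaller than `m`.

`fib_sum`: reindex the sum over `SSk` by `x ↦ (n, b, c, m, p, q, r)`; `n ≤ X ≤ 2 T`, `b, c ≤ z`.
The inverse map is `(b q, c r)`.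
-/

set_option autoImplicit false

namespace Pool.Agent.H77.K4

open Finset Pool.Agent.H77.SV

/-! ### The intervals -/

private lemma ee_pos {P : Par} (hP : P.Adm) (i : ℕ) : 1 ≤ P.ee i := by
  have h1 : 0 < P.E0 := by have := hP.hE; omega
  have h2 : 0 < 13 * P.B := by have := hP.hB; omega
  exact Nat.mul_pos h1 (pow_pos h2 _)

private lemma ff_pos {P : Par} (hP : P.Adm) (i : ℕ) : 1 ≤ P.ff i := by
  have h2 : 0 < P.B := by have := hP.hB; omega
  exact Nat.mul_pos h2 (ee_pos hP i)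

private lemma ee_mono {P : Par} (hP : P.Adm) {i j : ℕ} (h : i ≤ j) : P.ee i ≤ P.ee j := by
  have h2 : 0 < 13 * P.B := by have := hP.hB; omega
  exact Nat.mul_le_mul le_rfl (Nat.pow_le_pow_right h2 h)

private lemma ff_le_ee {P : Par} (hP : P.Adm) {i j : ℕ} (h : i < j) : P.ff i ≤ P.ee j := by
  have h1 := ee_succ P i
  have h2 := ee_mono hP (show i + 1 ≤ j from h)
  omega

private lemma M_pos {P : Par} (hP : P.Adm) : 1 ≤ P.M := ee_pos hP _

private lemma memI {P : Par} {z i u : ℕ} : u ∈ P.I z i ↔ (z ^ P.ee i < u ∧ u ≤ z ^ P.ff i) ∧ u.Prime := by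
  rw [Par.I, mem_filter, mem_Ioc]

private lemma I_gt {P : Par} (hP : P.Adm) {z i u : ℕ} (hz : 2 ≤ z) (h : u ∈ P.I z i) : z < u := by
  have h1 := (memI.1 h).1.1
  have h2 : z ^ 1 ≤ z ^ P.ee i := Nat.pow_le_pow_right (by omega) (ee_pos hP i)
  rw [pow_one] at h2
  omega

private lemma I_le {P : Par} (hP : P.Adm) {z i u : ℕ} (hz : 2 ≤ z) (hi : i < P.J)
    (h : u ∈ P.I z i) : u ≤ z ^ P.M := by
  have h1 := (memI.1 h).1.2
  have h3 := ff_le_M hP hi
  have h2 : z ^ P.ff i ≤ z ^ P.M := Nat.pow_le_pow_right (by omega) (by omega)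
  omega

private lemma I_eq {P : Par} (hP : P.Adm) {z i j u : ℕ} (hz : 2 ≤ z)
    (h : u ∈ P.I z i) (h' : u ∈ P.I z j) : i = j := by
  have key : ∀ a b : ℕ, a < b → u ∈ P.I z a → u ∈ P.I z b → False := by
    intro a b hab ha hb
    have h1 := (memI.1 ha).1.2
    have h2 := (memI.1 hb).1.1
    have h3 : z ^ P.ff a ≤ z ^ P.ee b := Nat.pow_le_pow_right (by omega) (ff_le_ee hP hab)
    omega
  rcases lt_trichotomy i j with hl | hl | hl
  · exact (key _ _ hl h h').elim
  · exact hl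
  · exact (key _ _ hl h' h).elim

/-! ### Divisors of `n p m` -/

private lemma dvd_npm {n p m u : ℕ} (hp : p.Prime) (hm : m.Prime) (hu : u.Prime) :
    u ∣ n * p * m ↔ u ∣ n ∨ u = p ∨ u = m := by
  rw [hu.dvd_mul, hu.dvd_mul, Nat.prime_dvd_prime_iff_eq hu hp, Nat.prime_dvd_prime_iff_eq hu hm,
    or_assoc]

private lemma bgX_eq {n p m z Y Z : ℕ} (hn : 1 ≤ n) (hp : p.Prime) (hm : m.Prime)
    (hzp : z < p) (hzm : z < m) (he : Y + Z = n * p * m) :
    bgX z Y Z = insert p (insert m (n.primeFactors.filter (z < ·))) := by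
  have h0 : n * p * m ≠ 0 := by
    have := hp.pos
    have := hm.pos
    positivity
  ext u
  rw [bgX, mem_filter, mem_insert, mem_insert, mem_filter, he, Nat.mem_primeFactors,
    Nat.mem_primeFactors]
  constructor
  · rintro ⟨⟨hu, hd, _⟩, hzu⟩
    rcases (dvd_npm hp hm hu).1 hd with h | h | h
    · exact Or.inr (Or.inr ⟨⟨hu, h, by omega⟩, hzu⟩)
    · exact Or.inl h
    · exact Or.inr (Or.inl h)
  · rintro (h | h | ⟨⟨hu, hd, _⟩, hzu⟩)
    · subst h; exact ⟨⟨hp, (dvd_npm hp hm hp).2 (Or.inr (Or.inl rfl)), h0⟩, hzp⟩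
    · subst h; exact ⟨⟨hm, (dvd_npm hp hm hm).2 (Or.inr (Or.inr rfl)), h0⟩, hzm⟩
    · exact ⟨⟨hu, (dvd_npm hp hm hu).2 (Or.inl hd), h0⟩, hzu⟩

private lemma bgX_card {n p m z Y Z : ℕ} (hn : 1 ≤ n) (hp : p.Prime) (hm : m.Prime)
    (hzp : z < p) (hzm : z < m) (hpm : p ≠ m) (hpn : ¬ p ∣ n) (hmn : ¬ m ∣ n)
    (he : Y + Z = n * p * m) :
    (bgX z Y Z).card = (n.primeFactors.filter (z < ·)).card + 2 := by
  rw [bgX_eq hn hp hm hzp hzm he, card_insert_of_notMem, card_insert_of_notMem]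
  · intro h
    exact hmn (Nat.dvd_of_mem_primeFactors (mem_filter.1 h).1)
  · intro h
    rcases mem_insert.1 h with h | h
    · exact hpm h
    · exact hpn (Nat.dvd_of_mem_primeFactors (mem_filter.1 h).1)

private lemma bgX_rank {n p m z Y Z : ℕ} (hn : 1 ≤ n) (hp : p.Prime) (hm : m.Prime)
    (hzp : z < p) (hzm : z < m) (hpn : ¬ p ∣ n)
    (he : Y + Z = n * p * m) :
    ((bgX z Y Z).filter (· < m)).card =
      (n.primeFactors.filter fun u => z < u ∧ u < m).card + if p < m then 1 else 0 := by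
  have h1 : (bgX z Y Z).filter (· < m) =
      (if p < m then {p} else ∅) ∪ (n.primeFactors.filter fun u => z < u ∧ u < m) := by
    rw [bgX_eq hn hp hm hzp hzm he]
    ext u
    rw [mem_filter, mem_insert, mem_insert, mem_filter, mem_union, mem_filter]
    constructor
    · rintro ⟨h | h | h, hu⟩
      · left
        rw [← h, if_pos hu]
        exact mem_singleton_self u
      · omega
      · exact Or.inr ⟨h.1, h.2, hu⟩
    · rintro (h | h)
      · split_ifs at h with hpm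
        · rw [mem_singleton] at h
          subst h
          exact ⟨Or.inl rfl, hpm⟩
        · simp at h
      · exact ⟨Or.inr (Or.inr ⟨h.1, h.2.1⟩), h.2.2⟩
  rw [h1, card_union_of_disjoint, add_comm]
  · congr 1
    split_ifs <;> simp
  · rw [disjoint_left]
    intro u hu hu'
    split_ifs at hu with hpm
    · rw [mem_singleton] at hu
      subst hu
      exact hpn (Nat.dvd_of_mem_primeFactors (mem_filter.1 hu').1)
    · simp at hu

private lemma smP_eq {n p m z Y Z : ℕ} (hn : 1 ≤ n) (hp : p.Prime) (hm : m.Prime)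
    (hzp : z < p) (hzm : z < m) (hY : Y ≠ 0) (hZ : Z ≠ 0) (he : Y + Z = n * p * m) :
    (smP z Y Z).filter (· ∣ Y + Z) = (P0 n 1 1).filter (· ≤ z) := by
  have h0 : (Y + Z) * Y * Z ≠ 0 := by
    have : Y + Z ≠ 0 := by omega
    positivity
  ext u
  rw [smP, oddP, P0, mem_filter, mem_filter, mem_erase, mem_filter, mem_erase,
    Nat.mem_primeFactors, Nat.mem_primeFactors, mul_one, mul_one]
  constructor
  · rintro ⟨⟨⟨h2, hu, _, _⟩, hz⟩, hd⟩
    rw [he, dvd_npm hp hm hu] at hd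
    rcases hd with hd | hd | hd
    · exact ⟨⟨h2, hu, hd, by omega⟩, hz⟩
    · omega
    · omega
  · rintro ⟨⟨h2, hu, hd, _⟩, hz⟩
    have hd' : u ∣ Y + Z := by
      rw [he, dvd_npm hp hm hu]
      exact Or.inl hd
    exact ⟨⟨⟨h2, hu, (hd'.mul_right Y).mul_right Z, h0⟩, hz⟩, hd'⟩

/-! ### Ranks -/

private lemma uu_rank {P : Par} {z Y Z k : ℕ} (hU : UU P z Y Z k) {j : ℕ} (hj : j < k) :
    ((bgX z Y Z).filter (· < uu z Y Z j)).card = j := by
  have h1 : (bgX z Y Z).filter (· < uu z Y Z j) = (range j).image (uu z Y Z) := by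
    ext u
    rw [mem_filter, mem_image]
    constructor
    · rintro ⟨hu, hlt⟩
      obtain ⟨j', hj', rfl⟩ := hU.surj u hu
      refine ⟨j', mem_range.2 ?_, rfl⟩
      by_contra hge
      rcases (not_lt.1 hge).lt_or_eq with h | h
      · have := hU.mono _ _ h hj'
        omega
      · subst h
        omega
    · rintro ⟨l, hl, rfl⟩
      rw [mem_range] at hl
      exact ⟨hU.mem l (hl.trans hj), hU.mono _ _ hl hj⟩
  rw [h1, card_image_of_injOn, card_range]
  intro a ha b hb hab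
  rw [coe_range, Set.mem_Iio] at ha hb
  have hab' : uu z Y Z a = uu z Y Z b := hab
  rcases lt_trichotomy a b with h | h | h
  · have := hU.mono _ _ h (hb.trans hj)
    omega
  · exact h
  · have := hU.mono _ _ h (ha.trans hj)
    omega

/-! ### Squares and the largest prime factor -/

private lemma sqf_mul {N s : ℕ} (hs : s.Prime)
    (hN : ∀ u : ℕ, u.Prime → u ≠ 2 → ¬ u ^ 2 ∣ N) (hsN : ¬ s ∣ N) :
    ∀ u : ℕ, u.Prime → u ≠ 2 → ¬ u ^ 2 ∣ N * s := by
  intro u hu h2 hd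
  by_cases hus : u = s
  · subst hus
    rw [sq] at hd
    exact hsN (Nat.dvd_of_mul_dvd_mul_right hu.pos hd)
  · have hc : Nat.Coprime (u ^ 2) s := Nat.Coprime.pow_left 2 ((Nat.coprime_primes hu hs).2 hus)
    exact hN u hu h2 (hc.dvd_of_dvd_mul_right hd)

private lemma lpf_mul {b q : ℕ} (hb : 1 ≤ b) (hq : q.Prime) (hbq : b ≤ q) : lpf (b * q) = q := by
  have h0 : b * q ≠ 0 := by
    have := hq.pos
    positivity
  refine le_antisymm ?_ ?_
  · refine Finset.sup_le fun u hu => ?_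
    rw [Nat.mem_primeFactors] at hu
    rcases (hu.1.dvd_mul).1 hu.2.1 with h | h
    · exact (Nat.le_of_dvd hb h).trans hbq
    · exact Nat.le_of_dvd hq.pos h
  · exact Finset.le_sup (f := id) (Nat.mem_primeFactors.2 ⟨hq, Dvd.intro_left b rfl, h0⟩)

private lemma not_dvd_small {b u z : ℕ} (hb : 1 ≤ b) (hbz : b ≤ z) (hu : z < u) : ¬ u ∣ b :=
  fun h => absurd (Nat.le_of_dvd hb h) (by omega)

private lemma q_big {P : Par} (hP : P.Adm) {z T b q : ℕ} (hz : 2 ≤ z) (hT : P.TZ z T)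
    (hbz : b ≤ z) (hq : T / 2 < b * q) : z ^ P.M < q := by
  by_contra hle
  rw [not_lt] at hle
  have hM := M_pos hP
  have h1 : 2 * (b * q) ≤ z * (z * z ^ P.M) :=
    Nat.mul_le_mul hz (Nat.mul_le_mul hbz hle)
  have h2 : z * (z * z ^ P.M) = z ^ (P.M + 2) := by ring
  have h3 : z ^ (P.M + 2) ≤ z ^ (30 * P.M) := Nat.pow_le_pow_right (by omega) (by omega)
  have h4 := hT.1
  omega

private lemma I_card {P : Par} (hP : P.Adm) {z i j l n p m Y Z : ℕ} (hz : 2 ≤ z)
    (hl : l < P.J) (hp : p ∈ P.I z i) (hm : m.Prime)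
    (hmI : if j < P.J then m ∈ P.I z j else z ^ P.M < m) (hpm : p ≠ m) (hpn : ¬ p ∣ n)
    (hmn : ¬ m ∣ n) (he : Y + Z = n * p * m) :
    ((P.I z l).filter (· ∣ Y + Z)).card = ((P.I z l).filter (· ∣ n)).card +
      ((if l = i then 1 else 0) + (if l = j then 1 else 0)) := by
  have hpp := (memI.1 hp).2
  have e1 : p ∈ P.I z l ↔ l = i :=
    ⟨fun h => I_eq hP hz h hp, fun h => by rw [h]; exact hp⟩
  have e2 : m ∈ P.I z l ↔ l = j := by
    by_cases hj : j < P.J
    · rw [if_pos hj] at hmI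
      exact ⟨fun h => I_eq hP hz h hmI, fun h => by rw [h]; exact hmI⟩
    · rw [if_neg hj] at hmI
      constructor
      · intro h
        have := I_le hP hz hl h
        omega
      · intro h
        omega
  have h1 : (P.I z l).filter (· ∣ Y + Z) =
      ((P.I z l).filter (· ∣ n)) ∪ ((if l = i then {p} else ∅) ∪ (if l = j then {m} else ∅)) := by
    ext u
    rw [mem_filter, mem_union, mem_union, mem_filter, he]
    constructor
    · rintro ⟨hu, hd⟩
      rcases (dvd_npm hpp hm (memI.1 hu).2).1 hd with h | h | h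
      · exact Or.inl ⟨hu, h⟩
      · right; left
        subst h
        rw [if_pos (e1.1 hu)]
        exact mem_singleton_self u
      · right; right
        subst h
        rw [if_pos (e2.1 hu)]
        exact mem_singleton_self u
    · rintro (h | h | h)
      · exact ⟨h.1, (dvd_npm hpp hm (memI.1 h.1).2).2 (Or.inl h.2)⟩
      · split_ifs at h with hli
        · rw [mem_singleton] at h
          subst h
          exact ⟨e1.2 hli, (dvd_npm hpp hm hpp).2 (Or.inr (Or.inl rfl))⟩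
        · simp at h
      · split_ifs at h with hli
        · rw [mem_singleton] at h
          subst h
          exact ⟨e2.2 hli, (dvd_npm hpp hm hm).2 (Or.inr (Or.inr rfl))⟩
        · simp at h
  rw [h1, card_union_of_disjoint, card_union_of_disjoint]
  · congr 1
    congr 1
    · split_ifs <;> simp
    · split_ifs <;> simp
  · split_ifs <;> simp [hpm]
  · rw [disjoint_left]
    intro u hu hu'
    rw [mem_filter] at hu
    rcases mem_union.1 hu' with h | h
    · split_ifs at h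
      · rw [mem_singleton] at h
        subst h
        exact hpn hu.2
      · simp at h
    · split_ifs at h
      · rw [mem_singleton] at h
        subst h
        exact hmn hu.2
      · simp at h

/-- from the pair to the tuple -/
private lemma fib_fwd {P : Par} (hP : P.Adm) {z T k i j : ℕ} (hz : 2 ≤ z)
    (hT : P.TZ z T) (hi : i < P.J) (hj : j < k) (hij : i ≠ j) {n b c p m q r : ℕ}
    (hx : (b * q, c * r) ∈ SSk P z T k) (hup : uu z (b * q) (c * r) i = p)
    (hum : uu z (b * q) (c * r) j = m) (hlq : lpf (b * q) = q) (hlr : lpf (c * r) = r)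
    (he : b * q + c * r = n * p * m) :
    KeyOK P z k i j n b c ∧ p ∈ P.I z i ∧ m ∈ Mset P z T i j n ∧ q ∈ Qset T b ∧ r ∈ Qset T c ∧
      q ≠ r := by
  have hxs := (mem_filter.1 hx).1
  have hk := (mem_filter.1 hx).2
  have hF := fac hP hz hT hxs
  have hU := uufac hP hz hT hx
  simp only at hk hF hU
  have hik : i < k := lt_of_lt_of_le hi hU.Jk
  have hqp : q.Prime := by have := hF.pq; rwa [hlq] at this
  have hrp : r.Prime := by have := hF.pr; rwa [hlr] at this
  have hpp : p.Prime := by have := hU.prime i hik; rwa [hup] at this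
  have hmp : m.Prime := by have := hU.prime j hj; rwa [hum] at this
  have hzp : z < p := by have := hU.gt i hik; rwa [hup] at this
  have hzm : z < m := by have := hU.gt j hj; rwa [hum] at this
  have hpI : p ∈ P.I z i := by have := hU.ppm i hi; rwa [hup] at this
  have hmI : if j < P.J then m ∈ P.I z j else z ^ P.M < m := by
    split_ifs with h
    · have := hU.ppm j h; rwa [hum] at this
    · have := hU.big j (by omega) hj; rwa [hum] at this
  have hYT := hF.hT
  have hY0 : b * q ≠ 0 := by omega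
  have hZ0 : c * r ≠ 0 := by omega
  have hb0 : 1 ≤ b := Nat.one_le_iff_ne_zero.2 (left_ne_zero_of_mul hY0)
  have hc0 : 1 ≤ c := Nat.one_le_iff_ne_zero.2 (left_ne_zero_of_mul hZ0)
  have hbz : b ≤ z := by
    have := hF.bq
    rwa [hlq, Nat.mul_div_cancel _ hqp.pos] at this
  have hcz : c ≤ z := by
    have := hF.cr
    rwa [hlr, Nat.mul_div_cancel _ hrp.pos] at this
  have hX0 : n * p * m ≠ 0 := by rw [← he]; omega
  have hn0 : 1 ≤ n := Nat.one_le_iff_ne_zero.2 (left_ne_zero_of_mul (left_ne_zero_of_mul hX0))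
  have hok := hF.hok
  have hdv : n * b * c ∣ (b * q + c * r) * (b * q) * (c * r) := by
    rw [he]
    exact ⟨p * m * q * r, by ring⟩
  have hpm : p ≠ m := by
    intro h
    rw [← hup, ← hum] at h
    rcases lt_trichotomy i j with hl | hl | hl
    · have := hU.mono _ _ hl hj
      omega
    · exact hij hl
    · have := hU.mono _ _ hl hik
      omega
  have hp2 : p ≠ 2 := by omega
  have hm2 : m ≠ 2 := by omega
  have hpn : ¬ p ∣ n := by
    rintro ⟨t, rfl⟩
    refine hok.hsq p hpp hp2 ?_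
    rw [he]
    exact ⟨t * m * (b * q) * (c * r), by ring⟩
  have hmn : ¬ m ∣ n := by
    rintro ⟨t, rfl⟩
    refine hok.hsq m hmp hm2 ?_
    rw [he]
    exact ⟨t * p * (b * q) * (c * r), by ring⟩
  have hbc := bgX_card hn0 hpp hmp hzp hzm hpm hpn hmn he
  have hcardI : ∀ l < P.J, ((P.I z l).filter (· ∣ n)).card = if l = i ∨ l = j then 0 else 1 := by
    intro l hl
    have h1 := I_card hP hz hl hpI hmp hmI hpm hpn hmn he
    have h2 := hok.hI l hl
    rw [h2] at h1
    by_cases hli : l = i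
    · subst hli
      simp only [if_true, true_or] at h1 ⊢
      omega
    · by_cases hlj : l = j
      · subst hlj
        simp only [if_true, or_true] at h1 ⊢
        omega
      · simp only [hli, hlj, if_false, or_self] at h1 ⊢
        omega
  have hmrank : (n.primeFactors.filter fun u => z < u ∧ u < m).card + (if i < j then 1 else 0)
      = j := by
    have h1 := bgX_rank hn0 hpp hmp hzp hzm hpn he
    have h2 := uu_rank hU hj
    rw [hum, h1] at h2
    have h3 : p < m ↔ i < j := by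
      rw [← hup, ← hum]
      constructor
      · intro h
        by_contra hge
        have hji : j < i := by omega
        have := hU.mono _ _ hji hik
        omega
      · intro h
        exact hU.mono _ _ h hj
    simp only [h3] at h2
    exact h2
  refine ⟨⟨hn0, ⟨hb0, hbz⟩, ⟨hc0, hcz⟩, ?_, ?_, ?_, ?_, hcardI, ?_, ?_, ?_⟩, hpI, ?_, ?_, ?_, ?_⟩
  · intro u hu h2 huw hd
    exact hok.hw u hu h2 huw (hd.trans hdv)
  · intro u hu h2 hd
    exact hok.hsq u hu h2 (hd.trans hdv)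
  · have h7 := hok.hY
    have : Odd (b * q) := Nat.odd_iff.2 (by omega)
    exact (Nat.odd_mul.1 this).1
  · have h7 := hok.hZ
    have : Odd (c * r) := Nat.odd_iff.2 (by omega)
    exact (Nat.odd_mul.1 this).1
  · intro u hu hd hzu hule
    exact hok.hn u hu (by rw [he]; exact (hd.mul_right p).mul_right m) hzu hule
  · rw [← smP_eq hn0 hpp hmp hzp hzm hY0 hZ0 he]
    exact hok.hA
  · rw [← hbc]; exact hk
  · rw [Mset, mem_filter, mem_Ioc]
    refine ⟨⟨hmp.pos, ?_⟩, hmp, hmI, hmn, hmrank⟩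
    have h1 : m ∣ b * q + c * r := by rw [he]; exact Dvd.intro_left _ rfl
    have h2 := Nat.le_of_dvd (by omega) h1
    omega
  · rw [Qset, mem_filter, mem_Ioc]
    have h1 : q ≤ b * q := Nat.le_mul_of_pos_left q hb0
    exact ⟨⟨hqp.pos, by omega⟩, hqp, by omega, hYT.2.1, hok.hY⟩
  · rw [Qset, mem_filter, mem_Ioc]
    have h1 : r ≤ c * r := Nat.le_mul_of_pos_left r hc0
    exact ⟨⟨hrp.pos, by omega⟩, hrp, by omega, hYT.2.2.2, hok.hZ⟩
  · have := hF.ne
    rwa [hlq, hlr] at this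

open Classical in
private lemma mem_SS {P : Par} {z T : ℕ} {x : ℕ × ℕ} : x ∈ SS P z T ↔
    ((T / 2 < x.1 ∧ x.1 ≤ T) ∧ T / 2 < x.2 ∧ x.2 ≤ T) ∧ Ok P z x.1 x.2 := by
  rw [SS, mem_filter, mem_product, mem_Ioc, mem_Ioc]

/-- from the tuple to the pair -/
private lemma fib_bwd {P : Par} (hP : P.Adm) {z T k i j : ℕ} (hz : 2 ≤ z) (hwz : P.w ≤ z)
    (hT : P.TZ z T) (hi : i < P.J) (hij : i ≠ j) {n b c p m q r : ℕ}
    (hK : KeyOK P z k i j n b c) (hpI : p ∈ P.I z i) (hm : m ∈ Mset P z T i j n)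
    (hq : q ∈ Qset T b) (hr : r ∈ Qset T c) (hqr : q ≠ r) (he : b * q + c * r = n * p * m) :
    (b * q, c * r) ∈ SSk P z T k ∧ uu z (b * q) (c * r) i = p ∧ uu z (b * q) (c * r) j = m ∧
      lpf (b * q) = q ∧ lpf (c * r) = r := by
  rw [Mset, mem_filter, mem_Ioc] at hm
  rw [Qset, mem_filter, mem_Ioc] at hq hr
  obtain ⟨⟨hm0, hmT⟩, hmp, hmI, hmn, hmrank⟩ := hm
  obtain ⟨⟨hq0, hqT⟩, hqp, hq1, hq2, hq3⟩ := hq
  obtain ⟨⟨hr0, hrT⟩, hrp, hr1, hr2, hr3⟩ := hr
  have hpp : p.Prime := (memI.1 hpI).2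
  have hzp : z < p := I_gt hP hz hpI
  have hpM : p ≤ z ^ P.M := I_le hP hz hi hpI
  have hzM : z ≤ z ^ P.M := Nat.le_self_pow (by have := M_pos hP; omega) z
  have hzm : z < m := by
    split_ifs at hmI with h
    · exact I_gt hP hz hmI
    · omega
  have hpm : p ≠ m := by
    rintro rfl
    split_ifs at hmI with h
    · exact hij (I_eq hP hz hpI hmI)
    · omega
  have hb0 := hK.hb.1
  have hbz := hK.hb.2
  have hc0 := hK.hc.1
  have hcz := hK.hc.2
  have hn0 := hK.hn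
  have hqM : z ^ P.M < q := q_big hP hz hT hbz hq1
  have hrM : z ^ P.M < r := q_big hP hz hT hcz hr1
  have hpn : ¬ p ∣ n := by
    intro hd
    have h1 := hK.hI i hi
    rw [if_pos (Or.inl rfl), card_eq_zero] at h1
    have h2 : p ∈ (P.I z i).filter (· ∣ n) := mem_filter.2 ⟨hpI, hd⟩
    rw [h1] at h2
    simp at h2
  have hqb : ¬ q ∣ b := not_dvd_small hb0 hbz (by omega)
  have hqc : ¬ q ∣ c := not_dvd_small hc0 hcz (by omega)
  have hrb : ¬ r ∣ b := not_dvd_small hb0 hbz (by omega)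
  have hrc : ¬ r ∣ c := not_dvd_small hc0 hcz (by omega)
  have hqX : ¬ q ∣ n * p * m := by
    intro hd
    rw [← he] at hd
    have h1 : q ∣ c * r := (Nat.dvd_add_right (Dvd.intro_left b rfl)).1 hd
    rcases hqp.dvd_mul.1 h1 with h | h
    · exact hqc h
    · exact hqr ((Nat.prime_dvd_prime_iff_eq hqp hrp).1 h)
  have hrX : ¬ r ∣ n * p * m := by
    intro hd
    rw [← he] at hd
    have h1 : r ∣ b * q := (Nat.dvd_add_left (Dvd.intro_left c rfl)).1 hd
    rcases hrp.dvd_mul.1 h1 with h | h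
    · exact hrb h
    · exact hqr ((Nat.prime_dvd_prime_iff_eq hrp hqp).1 h).symm
  have hqn : ¬ q ∣ n := fun h => hqX ((h.mul_right p).mul_right m)
  have hrn : ¬ r ∣ n := fun h => hrX ((h.mul_right p).mul_right m)
  have hqp' : q ≠ p := fun h => hqX (by rw [h]; exact ⟨n * m, by ring⟩)
  have hqm' : q ≠ m := fun h => hqX (by rw [h]; exact ⟨n * p, by ring⟩)
  have hrp' : r ≠ p := fun h => hrX (by rw [h]; exact ⟨n * m, by ring⟩)
  have hrm' : r ≠ m := fun h => hrX (by rw [h]; exact ⟨n * p, by ring⟩)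
  have hpb : ¬ p ∣ b := not_dvd_small hb0 hbz hzp
  have hpc : ¬ p ∣ c := not_dvd_small hc0 hcz hzp
  have hmb : ¬ m ∣ b := not_dvd_small hb0 hbz hzm
  have hmc : ¬ m ∣ c := not_dvd_small hc0 hcz hzm
  -- no prime divides the product of the others
  have nd : ∀ {s t u : ℕ}, s.Prime → ¬ s ∣ t → ¬ s ∣ u → ¬ s ∣ t * u := by
    intro s t u hs h1 h2 h
    rcases hs.dvd_mul.1 h with h | h
    · exact h1 h
    · exact h2 h
  have ne_dvd : ∀ {s t : ℕ}, s.Prime → t.Prime → s ≠ t → ¬ s ∣ t := fun hs ht h hd =>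
    h ((Nat.prime_dvd_prime_iff_eq hs ht).1 hd)
  have f0 := hK.hsq
  have f1 := sqf_mul hpp f0 (nd hpp (nd hpp hpn hpb) hpc)
  have f2 := sqf_mul hmp f1 (nd hmp (nd hmp (nd hmp hmn hmb) hmc) (ne_dvd hmp hpp hpm.symm))
  have f3 := sqf_mul hqp f2 (nd hqp (nd hqp (nd hqp (nd hqp hqn hqb) hqc) (ne_dvd hqp hpp hqp'))
    (ne_dvd hqp hmp hqm'))
  have f4 := sqf_mul hrp f3 (nd hrp (nd hrp (nd hrp (nd hrp (nd hrp hrn hrb) hrc)
    (ne_dvd hrp hpp hrp')) (ne_dvd hrp hmp hrm')) (ne_dvd hrp hqp hqr.symm))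
  have hprod : (b * q + c * r) * (b * q) * (c * r) = n * b * c * p * m * q * r := by
    rw [he]; ring
  have hsq : ∀ u : ℕ, u.Prime → u ≠ 2 → ¬ u ^ 2 ∣ (b * q + c * r) * (b * q) * (c * r) := by
    rw [hprod]; exact f4
  have hoY : (b * q) % 2 = 1 := by omega
  have hco : Nat.Coprime (b * q) (c * r) := by
    by_contra h
    obtain ⟨u, hu, h1, h2⟩ := Nat.Prime.not_coprime_iff_dvd.1 h
    have hu2 : u ≠ 2 := by
      rintro rfl
      omega
    refine hsq u hu hu2 ?_
    have h3 : u * u ∣ (b * q) * (c * r) := Nat.mul_dvd_mul h1 h2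
    rw [sq, mul_assoc]
    exact h3.mul_left _
  have hlq : lpf (b * q) = q := lpf_mul hb0 hqp (by omega)
  have hlr : lpf (c * r) = r := lpf_mul hc0 hrp (by omega)
  have hY0 : b * q ≠ 0 := by omega
  have hZ0 : c * r ≠ 0 := by omega
  have hbc := bgX_card hn0 hpp hmp hzp hzm hpm hpn hmn he
  have hok : Ok P z (b * q) (c * r) := by
    refine ⟨hq3, hr3, hco, ?_, hsq, ?_, ?_, ?_, ?_, ?_⟩
    · intro u hu h2 huw hd
      rw [hprod] at hd
      have h6 : ∀ s : ℕ, s.Prime → z < s → ¬ u ∣ s := by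
        intro s hs hzs h
        have := (Nat.prime_dvd_prime_iff_eq hu hs).1 h
        omega
      exact nd hu (nd hu (nd hu (nd hu (hK.hw u hu h2 huw) (h6 p hpp hzp)) (h6 m hmp hzm))
        (h6 q hqp (by omega))) (h6 r hrp (by omega)) hd
    · rw [hlq]; exact Nat.mul_le_mul hbz le_rfl
    · rw [hlr]; exact Nat.mul_le_mul hcz le_rfl
    · intro l hl
      have h1 := I_card hP hz hl hpI hmp hmI hpm hpn hmn he
      rw [h1, hK.hI l hl]
      by_cases hli : l = i
      · subst hli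
        simp [hij]
      · by_cases hlj : l = j
        · subst hlj
          simp [hij.symm]
        · simp [hli, hlj]
    · intro u hu hd hzu hule
      rw [he] at hd
      rcases (dvd_npm hpp hmp hu).1 hd with h | h | h
      · exact hK.hm u hu h hzu hule
      · exact ⟨i, hi, by rw [h]; exact hpI⟩
      · split_ifs at hmI with hjJ
        · exact ⟨j, hjJ, by rw [h]; exact hmI⟩
        · omega
    · rw [smP_eq hn0 hpp hmp hzp hzm hY0 hZ0 he]
      exact hK.hA
  have hx : (b * q, c * r) ∈ SSk P z T k := by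
    refine mem_filter.2 ⟨?_, ?_⟩
    · exact mem_SS.2 ⟨⟨⟨hq1, hq2⟩, hr1, hr2⟩, hok⟩
    · show (bgX z (b * q) (c * r)).card = k
      rw [hbc]
      exact hK.hk
  have hU := uufac hP hz hT hx
  simp only at hU
  have hik : i < k := lt_of_lt_of_le hi hU.Jk
  have hup : uu z (b * q) (c * r) i = p := by
    have h1 := hok.hI i hi
    rw [card_eq_one] at h1
    obtain ⟨a, ha⟩ := h1
    have h2 : p ∈ (P.I z i).filter (· ∣ b * q + c * r) :=
      mem_filter.2 ⟨hpI, by rw [he]; exact ⟨n * m, by ring⟩⟩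
    have h3 : uu z (b * q) (c * r) i ∈ (P.I z i).filter (· ∣ b * q + c * r) :=
      mem_filter.2 ⟨hU.ppm i hi, hU.dvd i hik⟩
    rw [ha, mem_singleton] at h2 h3
    rw [h2, h3]
  have hmb' : m ∈ bgX z (b * q) (c * r) := by
    rw [bgX_eq hn0 hpp hmp hzp hzm he]
    exact mem_insert_of_mem (mem_insert_self _ _)
  obtain ⟨j', hj', hum⟩ := hU.surj m hmb'
  have hjj : j' = j := by
    have h1 := bgX_rank hn0 hpp hmp hzp hzm hpn he
    have h2 := uu_rank hU hj'
    rw [hum, h1] at h2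
    have h3 : p < m ↔ i < j' := by
      rw [← hup, ← hum]
      constructor
      · intro h
        by_contra hge
        have hji : j' ≤ i := by omega
        rcases hji.lt_or_eq with h4 | h4
        · have := hU.mono _ _ h4 hik
          omega
        · rw [h4] at h
          omega
      · intro h
        exact hU.mono _ _ h hj'
    simp only [h3] at h2
    have h4 : i ≠ j' := by
      rintro rfl
      exact hpm (hup.symm.trans hum)
    split_ifs at h2 hmrank <;> omega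
  subst hjj
  exact ⟨hx, hup, hum, hlq, hlr⟩

theorem fib_iff {P : Par} (hP : P.Adm) {z T k i j : ℕ} (hz : 2 ≤ z) (hwz : P.w ≤ z)
    (hT : P.TZ z T) (hi : i < P.J) (hj : j < k) (hij : i ≠ j) (n b c p m q r : ℕ) :
    ((b * q, c * r) ∈ SSk P z T k ∧ uu z (b * q) (c * r) i = p ∧ uu z (b * q) (c * r) j = m ∧
      lpf (b * q) = q ∧ lpf (c * r) = r ∧ b * q + c * r = n * p * m) ↔
    (KeyOK P z k i j n b c ∧ p ∈ P.I z i ∧ m ∈ Mset P z T i j n ∧ q ∈ Qset T b ∧ r ∈ Qset T c ∧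
      q ≠ r ∧ b * q + c * r = n * p * m) := by
  constructor
  · rintro ⟨h1, h2, h3, h4, h5, h6⟩
    obtain ⟨g1, g2, g3, g4, g5, g6⟩ := fib_fwd hP hz hT hi hj hij h1 h2 h3 h4 h5 h6
    exact ⟨g1, g2, g3, g4, g5, g6, h6⟩
  · rintro ⟨g1, g2, g3, g4, g5, g6, h6⟩
    obtain ⟨h1, h2, h3, h4, h5⟩ := fib_bwd hP hz hwz hT hi hij g1 g2 g3 g4 g5 g6 h6
    exact ⟨h1, h2, h3, h4, h5, h6⟩

/-- the tuples `(n, b, c, m, p, q, r)` over the elements of `SSk` -/
private def Cnd (P : Par) (z T k i j : ℕ) (t : ℕ × ℕ × ℕ × ℕ × ℕ × ℕ × ℕ) : Prop :=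
  KeyOK P z k i j t.1 t.2.1 t.2.2.1 ∧ t.2.2.2.2.1 ∈ P.I z i ∧
    t.2.2.2.1 ∈ Mset P z T i j t.1 ∧ t.2.2.2.2.2.1 ∈ Qset T t.2.1 ∧
    t.2.2.2.2.2.2 ∈ Qset T t.2.2.1 ∧ t.2.2.2.2.2.1 ≠ t.2.2.2.2.2.2 ∧
    t.2.1 * t.2.2.2.2.2.1 + t.2.2.1 * t.2.2.2.2.2.2 = t.1 * t.2.2.2.2.1 * t.2.2.2.1

open Classical in
private noncomputable def TS (P : Par) (z T k i j : ℕ) :
    Finset (ℕ × ℕ × ℕ × ℕ × ℕ × ℕ × ℕ) :=
  ((Icc 1 (2 * T)) ×ˢ (Icc 1 z) ×ˢ (Icc 1 z) ×ˢ (Ioc 0 (2 * T)) ×ˢ (P.I z i) ×ˢ (Ioc 0 T) ×ˢ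
    (Ioc 0 T)).filter (Cnd P z T k i j)

private lemma sum_sub {s t : Finset ℕ} [DecidablePred (· ∈ t)] (h : t ⊆ s) (g : ℕ → ℝ) :
    ∑ x ∈ t, g x = ∑ x ∈ s, if x ∈ t then g x else 0 := by
  rw [← sum_filter]
  refine sum_congr ?_ fun _ _ => rfl
  ext x
  rw [mem_filter]
  exact ⟨fun hx => ⟨h hx, hx⟩, fun hx => hx.2⟩

open Classical in
private lemma rhs_eq (P : Par) (z T k i j : ℕ) (f : ℕ × ℕ → ℝ) :
    (∑ n ∈ Icc 1 (2 * T), ∑ b ∈ Icc 1 z, ∑ c ∈ Icc 1 z,
      if KeyOK P z k i j n b c then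
        ∑ m ∈ Mset P z T i j n, ∑ p ∈ P.I z i, ∑ q ∈ Qset T b, ∑ r ∈ Qset T c,
          if q ≠ r ∧ b * q + c * r = n * p * m then f (b * q, c * r) else 0
      else 0) =
    ∑ t ∈ TS P z T k i j, f (t.2.1 * t.2.2.2.2.2.1, t.2.2.1 * t.2.2.2.2.2.2) := by
  rw [TS, sum_filter, sum_product]
  refine sum_congr rfl fun n _ => ?_
  rw [sum_product]
  refine sum_congr rfl fun b _ => ?_
  rw [sum_product]
  refine sum_congr rfl fun c _ => ?_
  have hsM : Mset P z T i j n ⊆ Ioc 0 (2 * T) := filter_subset _ _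
  have hsQ : ∀ b, Qset T b ⊆ Ioc 0 T := fun b => filter_subset _ _
  by_cases hK : KeyOK P z k i j n b c
  · rw [if_pos hK, sum_product, sum_sub hsM]
    refine sum_congr rfl fun m _ => ?_
    by_cases hm : m ∈ Mset P z T i j n
    · rw [if_pos hm, sum_product]
      refine sum_congr rfl fun p hp => ?_
      rw [sum_product, sum_sub (hsQ b)]
      refine sum_congr rfl fun q _ => ?_
      by_cases hq : q ∈ Qset T b
      · rw [if_pos hq, sum_sub (hsQ c)]
        refine sum_congr rfl fun r _ => ?_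
        by_cases hr : r ∈ Qset T c
        · rw [if_pos hr]
          by_cases he : q ≠ r ∧ b * q + c * r = n * p * m
          · rw [if_pos he, if_pos]
            exact ⟨hK, hp, hm, hq, hr, he.1, he.2⟩
          · rw [if_neg he, if_neg]
            exact fun h => he ⟨h.2.2.2.2.2.1, h.2.2.2.2.2.2⟩
        · rw [if_neg hr, if_neg]
          exact fun h => hr h.2.2.2.2.1
      · rw [if_neg hq]
        refine (sum_eq_zero fun r _ => ?_).symm
        rw [if_neg]
        exact fun h => hq h.2.2.2.1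
    · rw [if_neg hm]
      refine (sum_eq_zero fun t _ => ?_).symm
      rw [if_neg]
      exact fun h => hm h.2.2.1
  · rw [if_neg hK]
    refine (sum_eq_zero fun t _ => ?_).symm
    rw [if_neg]
    exact fun h => hK h.1

open Classical in
theorem fib_sum {P : Par} (hP : P.Adm) {z T k i j : ℕ} (hz : 2 ≤ z) (hwz : P.w ≤ z)
    (hT : P.TZ z T) (hi : i < P.J) (hj : j < k) (hij : i ≠ j) (f : ℕ × ℕ → ℝ) :
    ∑ x ∈ SSk P z T k, f x = ∑ n ∈ Icc 1 (2 * T), ∑ b ∈ Icc 1 z, ∑ c ∈ Icc 1 z,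
      if KeyOK P z k i j n b c then
        ∑ m ∈ Mset P z T i j n, ∑ p ∈ P.I z i, ∑ q ∈ Qset T b, ∑ r ∈ Qset T c,
          if q ≠ r ∧ b * q + c * r = n * p * m then f (b * q, c * r) else 0
      else 0 := by
  rw [rhs_eq]
  refine Finset.sum_nbij'
    (fun x : ℕ × ℕ => ((x.1 + x.2) / (uu z x.1 x.2 i * uu z x.1 x.2 j), x.1 / lpf x.1,
      x.2 / lpf x.2, uu z x.1 x.2 j, uu z x.1 x.2 i, lpf x.1, lpf x.2))
    (fun t => (t.2.1 * t.2.2.2.2.2.1, t.2.2.1 * t.2.2.2.2.2.2)) ?_ ?_ ?_ ?_ ?_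
  · rintro ⟨Y, Z⟩ hx
    have hxs := (mem_filter.1 hx).1
    have hF := fac hP hz hT hxs
    have hU := uufac hP hz hT hx
    simp only at hF hU ⊢
    have hik : i < k := lt_of_lt_of_le hi hU.Jk
    have hYq : Y / lpf Y * lpf Y = Y := Nat.div_mul_cancel hF.dq
    have hZr : Z / lpf Z * lpf Z = Z := Nat.div_mul_cancel hF.dr
    have hne : uu z Y Z i ≠ uu z Y Z j := by
      intro h
      rcases lt_trichotomy i j with hl | hl | hl
      · have := hU.mono _ _ hl hj
        omega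
      · exact hij hl
      · have := hU.mono _ _ hl hik
        omega
    have hdd : uu z Y Z i * uu z Y Z j ∣ Y + Z :=
      Nat.Coprime.mul_dvd_of_dvd_of_dvd ((Nat.coprime_primes (hU.prime i hik) (hU.prime j hj)).2 hne)
        (hU.dvd i hik) (hU.dvd j hj)
    have hX : (Y + Z) / (uu z Y Z i * uu z Y Z j) * uu z Y Z i * uu z Y Z j = Y + Z := by
      rw [mul_assoc]
      exact Nat.div_mul_cancel hdd
    have key := (fib_iff hP hz hwz hT hi hj hij ((Y + Z) / (uu z Y Z i * uu z Y Z j)) (Y / lpf Y)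
      (Z / lpf Z) (uu z Y Z i) (uu z Y Z j) (lpf Y) (lpf Z)).1 (by
        rw [hYq, hZr]
        exact ⟨hx, rfl, rfl, rfl, rfl, hX.symm⟩)
    have hmem := mem_Ioc.1 (mem_filter.1 key.2.2.1).1
    have hqm := mem_Ioc.1 (mem_filter.1 key.2.2.2.1).1
    have hrm := mem_Ioc.1 (mem_filter.1 key.2.2.2.2.1).1
    have hYT := hF.hT
    refine mem_filter.2 ⟨?_, key⟩
    rw [mem_product, mem_product, mem_product, mem_product, mem_product, mem_product, mem_Icc,
      mem_Icc, mem_Icc, mem_Ioc, mem_Ioc, mem_Ioc]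
    refine ⟨⟨key.1.hn, ?_⟩, key.1.hb, key.1.hc, hmem, key.2.1, hqm, hrm⟩
    exact (Nat.div_le_self _ _).trans (by omega)
  · rintro ⟨n, b, c, m, p, q, r⟩ ht
    have h := (mem_filter.1 ht).2
    exact ((fib_iff hP hz hwz hT hi hj hij n b c p m q r).2 h).1
  · rintro ⟨Y, Z⟩ hx
    have hxs := (mem_filter.1 hx).1
    have hF := fac hP hz hT hxs
    simp only at hF ⊢
    rw [Nat.div_mul_cancel hF.dq, Nat.div_mul_cancel hF.dr]
  · rintro ⟨n, b, c, m, p, q, r⟩ ht
    have h := (mem_filter.1 ht).2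
    obtain ⟨_, h2, h3, h4, h5, h6⟩ := (fib_iff hP hz hwz hT hi hj hij n b c p m q r).2 h
    have hm0 := (mem_Ioc.1 (mem_filter.1 h.2.2.1).1).1
    have hq0 := (mem_Ioc.1 (mem_filter.1 h.2.2.2.1).1).1
    have hr0 := (mem_Ioc.1 (mem_filter.1 h.2.2.2.2.1).1).1
    have hp0 := (memI.1 h.2.1).2.pos
    simp only at h2 h3 h4 h5 h6 hm0 hq0 hr0 hp0 ⊢
    rw [h4, h5, h2, h3, h6, Nat.mul_div_cancel _ hq0, Nat.mul_div_cancel _ hr0, mul_assoc,
      Nat.mul_div_cancel _ (Nat.mul_pos hp0 hm0)]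
  · rintro ⟨Y, Z⟩ hx
    have hxs := (mem_filter.1 hx).1
    have hF := fac hP hz hT hxs
    simp only at hF ⊢
    rw [Nat.div_mul_cancel hF.dq, Nat.div_mul_cancel hF.dr]

end Pool.Agent.H77.K4
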