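import Pool.Agent.H77.K4.D1
import Pool.Agent.H77.K4.B3
import Pool.Agent.H77.SV.SqCl
import Pool.Agent.H77.SV.Kap

/-!
# D2: the condition at 2 for the points of the curve

`C2_congr`: `C2 x x'` depends only on the classes of `x`, `x'` modulo squares: if `x y` and `x' y'`
are squares then `C2 x x' → C2 y y'`. (Let `x y = r^2`. Then `vb 2 x = vb 2 y`
(`vb_of_isSquare`), and `(x.num * x.den) * (y.num * y.den)` is the square of an integer
(`x.num * x.den = x * x.den^2`, so it is a rational square), so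
`up 2 (x.num x.den) * up 2 (y.num y.den)` is the square of an odd integer, `= 1 mod 8`; hence both
odd parts have the same `e4` and `e8`.)

`C2_int`: for integers `a, c ≠ 0`: `C2 a c` iff `e8 (up 2 a) = 0`, `e4 (up 2 c) = v_2(a)`,
`e8 (up 2 c) = e4 (up 2 a)` (`num = a`, `den = 1`).

`two_point`: `C2 (k1 Q) (k2 Q)` for every point `Q` of `F3.E Y Z`, if `Nice Y Z`.
Proof. `X = Y + Z = 2 X'`, `X' = 1 mod 8`. `A = X Y^2 Z = 2 α`, `B = X^2 Y Z = 4 β` with
`α = X' Y^2 Z = 1 mod 8`, `β = X'^2 Y Z = 1 mod 8` (all factors are `1 mod 8`).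
Zero point: `k1 = k2 = 1`. Points of order 2 (values of `kap`): `x = 0`: `(k1, k2) = (A B, -A)`,
odd parts `1`, `-1`, valuation `3`: `e8 1 = 0`, `e4 (-1) = 1 = 3`, `e8 (-1) = 0 = e4 1`. `x = A`:
`(A, A (A - B))`, `A (A - B) = 4 α (α - 2 β)`, odd part of it `= -1 mod 8`, valuation of `A` is 1.
`x = B`: `(B, B - A)`, `B - A = 2 (2 β - α)`: odd parts `1`, `1`, valuation `2`.
Other points `(x, y)`: `x ≠ 0, A, B`, `(k1, k2) = (x, x - A)`, `y^2 = x (x - A) (x - B)`, `y ≠ 0`.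
Let `x = a / δ` in lowest terms (`δ = x.den`). `y^2 δ^4 = δ * a (a - A δ) (a - B δ)`, so the integer
`δ * N`, `N = a (a - A δ) (a - B δ)`, is a rational square, hence the square of an integer
(`Rat.isSquare_intCast_iff`), and `δ`, `N` are coprime (`a` and `δ` are), `δ > 0`, so
`δ = e^2` and `N = N'^2` (`Int.sq_of_coprime`; `N > 0`). Then `a`, `e` are coprime, and `two_int`
applies to `a`, `e`. Finally `x ~ a` and `x - A = (a - A e^2)/e^2 ~ a - A e^2` modulo squares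
(`C2_congr`).
-/

set_option autoImplicit false

namespace Pool.Agent.H77.K4

open Finset Pool.Agent.H77.SV

private lemma d2_odd8 {a : ℤ} (ha : a % 2 = 1) : a % 8 = 1 ∨ a % 8 = 3 ∨ a % 8 = 5 ∨ a % 8 = 7 := by
  omega

private lemma d2_mul2 (a b : ℤ) : (a * b) % 8 = ((a % 8) * (b % 8)) % 8 := Int.mul_emod a b 8

private lemma d2_up {N u : ℤ} {v : ℕ} (hu : u % 2 = 1) (h : N = 2 ^ v * u) :
    up 2 N = u ∧ padicValInt 2 N = v := by
  have hp : Fact (Nat.Prime 2) := ⟨Nat.prime_two⟩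
  have hu0 : u ≠ 0 := by
    rintro rfl
    simp at hu
  have hnd : ¬ ((2 : ℕ) : ℤ) ∣ u := by
    push_cast
    omega
  have hv : padicValInt 2 N = v := by
    rw [h, padicValInt.mul (pow_ne_zero _ two_ne_zero) hu0, padicValInt.eq_zero_of_not_dvd hnd,
      add_zero]
    have h1 : ((2 : ℤ) ^ v) = ((2 ^ v : ℕ) : ℤ) := by push_cast; rfl
    rw [h1, padicValInt.of_nat]
    exact padicValNat.prime_pow v
  refine ⟨?_, hv⟩
  unfold up
  rw [hv, h]
  push_cast
  exact Int.mul_ediv_cancel_left _ (pow_ne_zero _ two_ne_zero)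

private lemma d2_ex {N : ℤ} (hN : N ≠ 0) : ∃ (v : ℕ) (u : ℤ), N = 2 ^ v * u ∧ u % 2 = 1 := by
  obtain ⟨h1, h2⟩ := up_spec Nat.prime_two hN
  refine ⟨padicValInt 2 N, up 2 N, ?_, ?_⟩
  · simpa using h1
  · push_cast at h2
    omega

private lemma d2_sq8 {s : ℤ} (hs : s % 2 = 1) : (s * s) % 8 = 1 := by
  rcases d2_odd8 hs with h | h | h | h <;> rw [d2_mul2, h] <;> norm_num

private lemma d2_e4 {a b : ℤ} (h : a % 8 = b % 8) : e4 a = e4 b := by
  unfold e4
  have : a % 4 = b % 4 := by omega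
  rw [this]

private lemma d2_e8 {a b : ℤ} (h : a % 8 = b % 8) : e8 a = e8 b := by
  unfold e8
  rw [h]

/-- two integers whose product is a square -/
private lemma d2_class {M N : ℤ} (hM : M ≠ 0) (hN : N ≠ 0) (h : IsSquare (M * N)) :
    up 2 M % 8 = up 2 N % 8 := by
  obtain ⟨i, u, hi, hu⟩ := d2_ex hM
  obtain ⟨j, w, hj, hw⟩ := d2_ex hN
  rw [(d2_up hu hi).1, (d2_up hw hj).1]
  obtain ⟨r, hr⟩ := h
  have hr0 : r ≠ 0 := by
    rintro rfl
    exact (mul_ne_zero hM hN) (by rw [hr, mul_zero])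
  obtain ⟨k, s, hk, hs⟩ := d2_ex hr0
  have huw : (u * w) % 2 = 1 := by
    rw [Int.mul_emod, hu, hw]
    norm_num
  have hss : (s * s) % 2 = 1 := by
    have := d2_sq8 hs
    omega
  have h1 : M * N = 2 ^ (i + j) * (u * w) := by
    rw [hi, hj, pow_add]
    ring
  have h2 : M * N = 2 ^ (2 * k) * (s * s) := by
    rw [hr, hk]
    ring
  have h3 : u * w = s * s := (d2_up huw h1).1.symm.trans (d2_up hss h2).1
  have h4 : (u * w) % 8 = 1 := by
    rw [h3]
    exact d2_sq8 hs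
  rw [d2_mul2] at h4
  rcases d2_odd8 hu with h | h | h | h <;> rcases d2_odd8 hw with h' | h' | h' | h' <;>
    rw [h, h'] at h4 ⊢ <;> norm_num at h4

private lemma d2_key (z : ℚ) : ((z.num * z.den : ℤ) : ℚ) = z * (z.den : ℚ) ^ 2 := by
  have h := Rat.mul_den_eq_num z
  push_cast
  rw [← h]
  ring

private lemma d2_ne {z : ℚ} (hz : z ≠ 0) : (z.num * z.den : ℤ) ≠ 0 := by
  have h2 : (z.den : ℤ) ≠ 0 := by exact_mod_cast z.den_nz
  exact mul_ne_zero (Rat.num_ne_zero.2 hz) h2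

private lemma d2_classQ {x y : ℚ} (hx : x ≠ 0) (hy : y ≠ 0) (h : IsSquare (x * y)) :
    up 2 (x.num * x.den) % 8 = up 2 (y.num * y.den) % 8 := by
  refine d2_class (d2_ne hx) (d2_ne hy) ?_
  rw [← Rat.isSquare_intCast_iff]
  obtain ⟨r, hr⟩ := h
  refine ⟨r * (x.den * y.den), ?_⟩
  rw [Int.cast_mul, d2_key, d2_key]
  linear_combination ((x.den : ℚ) * y.den) ^ 2 * hr

theorem C2_congr {x x' y y' : ℚ} (hx : x ≠ 0) (hx' : x' ≠ 0) (hy : y ≠ 0) (hy' : y' ≠ 0)
    (h : IsSquare (x * y)) (h' : IsSquare (x' * y')) (hC : C2 x x') : C2 y y' := by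
  have h1 := d2_classQ hx hy h
  have h2 := d2_classQ hx' hy' h'
  have h3 := vb_of_isSquare Nat.prime_two hx hy h
  obtain ⟨c1, c2, c3⟩ := hC
  exact ⟨(d2_e8 h1).symm.trans c1, ((d2_e4 h2).symm.trans c2).trans h3,
    ((d2_e8 h2).symm.trans c3).trans (d2_e4 h1)⟩

private lemma d2_int {a c : ℤ} (h : e8 (up 2 a) = 0 ∧
    e4 (up 2 c) = ((padicValInt 2 a : ℕ) : ZMod 2) ∧ e8 (up 2 c) = e4 (up 2 a)) :
    C2 (a : ℚ) (c : ℚ) := by
  unfold C2 vb
  rw [Rat.num_intCast, Rat.den_intCast, Rat.num_intCast, Rat.den_intCast, padicValRat.of_int]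
  simpa using h

private lemma d2_C2 {a c u w : ℤ} {i k : ℕ} (ha : a = 2 ^ i * u) (hu : u % 8 = 1)
    (hc : c = 2 ^ k * w) (h : (w % 8 = 1 ∧ i % 2 = 0) ∨ (w % 8 = 7 ∧ i % 2 = 1)) :
    C2 (a : ℚ) (c : ℚ) := by
  have hu2 : u % 2 = 1 := by omega
  have hw2 : w % 2 = 1 := by omega
  obtain ⟨h1, h2⟩ := d2_up hu2 ha
  obtain ⟨h3, h4⟩ := d2_up hw2 hc
  apply d2_int
  rw [h1, h2, h3]
  have e1 : e8 u = 0 := by
    unfold e8
    rw [hu]
    norm_num
  have e2 : e4 u = 0 := by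
    unfold e4
    rw [if_neg (by omega)]
  rw [e1, e2]
  refine ⟨rfl, ?_, ?_⟩
  · rcases h with ⟨h5, h6⟩ | ⟨h5, h6⟩
    · have h7 : ((i : ℕ) : ZMod 2) = 0 := by
        rw [ZMod.natCast_eq_zero_iff]
        omega
      rw [h7]
      unfold e4
      rw [if_neg (by omega)]
    · have h7 : ((i : ℕ) : ZMod 2) = 1 := by
        have h8 : i = (i - 1) + 1 := by omega
        have h9 : ((i - 1 : ℕ) : ZMod 2) = 0 := by
          rw [ZMod.natCast_eq_zero_iff]
          omega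
        rw [h8]
        push_cast
        rw [h9, zero_add]
      rw [h7]
      unfold e4
      rw [if_pos (by omega)]
  · unfold e8
    rw [if_neg (by omega)]

private lemma d2_gen {α β : ℤ} (hα : α % 8 = 1) (hβ : β % 8 = 1) {x y : ℚ} (hx : x ≠ 0)
    (hA : x ≠ 2 * α) (hB : x ≠ 4 * β) (h : y ^ 2 = x * (x - 2 * α) * (x - 4 * β)) :
    C2 x (x - 2 * α) := by
  have hd0 : (x.den : ℚ) ≠ 0 := by exact_mod_cast x.den_nz
  have hdpos : (0 : ℤ) < (x.den : ℤ) := by exact_mod_cast x.pos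
  have hxd : x * x.den = x.num := Rat.mul_den_eq_num x
  have hcop : IsCoprime x.num (x.den : ℤ) := by
    rw [Int.isCoprime_iff_gcd_eq_one]
    exact x.reduced
  obtain ⟨a, ha⟩ : ∃ a, a = x.num := ⟨_, rfl⟩
  obtain ⟨δ, hδ⟩ : ∃ δ : ℤ, δ = (x.den : ℤ) := ⟨_, rfl⟩
  have hδQ : (δ : ℚ) = (x.den : ℚ) := by
    rw [hδ]
    push_cast
    rfl
  rw [← ha, ← hδ] at hcop
  rw [← hδ] at hdpos
  rw [← ha, ← hδQ] at hxd
  rw [← hδQ] at hd0
  obtain ⟨N, hN⟩ : ∃ N, N = a * (a - 2 * α * δ) * (a - 4 * β * δ) := ⟨_, rfl⟩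
  have hsq : IsSquare (δ * N) := by
    rw [← Rat.isSquare_intCast_iff]
    refine ⟨y * δ ^ 2, ?_⟩
    rw [hN]
    push_cast
    rw [← hxd]
    linear_combination (-(δ : ℚ) ^ 4) * h
  have hcopN : IsCoprime δ N := by
    have h1 : IsCoprime δ a := hcop.symm
    have h2 : IsCoprime δ (a - 2 * α * δ) := by
      have : a - 2 * α * δ = a + δ * (-(2 * α)) := by ring
      rw [this]
      exact h1.add_mul_left_right _
    have h3 : IsCoprime δ (a - 4 * β * δ) := by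
      have : a - 4 * β * δ = a + δ * (-(4 * β)) := by ring
      rw [this]
      exact h1.add_mul_left_right _
    rw [hN]
    exact (h1.mul_right h2).mul_right h3
  obtain ⟨c, hc⟩ := hsq
  have hδsq : ∃ e : ℤ, δ = e ^ 2 := by
    obtain ⟨e, he | he⟩ := Int.sq_of_isCoprime hcopN (by rw [hc]; ring : δ * N = c ^ 2)
    · exact ⟨e, he⟩
    · exfalso
      have := sq_nonneg e
      omega
  have hN0 : N ≠ 0 := by
    have ha0 : a ≠ 0 := by
      rintro h0
      rw [h0, Int.cast_zero] at hxd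
      rcases mul_eq_zero.1 hxd with h1 | h1
      · exact hx h1
      · exact hd0 h1
    have h1 : a - 2 * α * δ ≠ 0 := by
      intro h0
      have h2 : (a : ℚ) = 2 * α * δ := by
        have : a = 2 * α * δ := by linarith
        rw [this]
        push_cast
        rfl
      rw [← hxd] at h2
      exact hA (mul_right_cancel₀ hd0 h2)
    have h1' : a - 4 * β * δ ≠ 0 := by
      intro h0
      have h2 : (a : ℚ) = 4 * β * δ := by
        have : a = 4 * β * δ := by linarith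
        rw [this]
        push_cast
        rfl
      rw [← hxd] at h2
      exact hB (mul_right_cancel₀ hd0 h2)
    rw [hN]
    exact mul_ne_zero (mul_ne_zero ha0 h1) h1'
  have hNsq : IsSquare N := by
    obtain ⟨e, he | he⟩ := Int.sq_of_isCoprime hcopN.symm (by rw [mul_comm, hc]; ring : N * δ = c ^ 2)
    · exact ⟨e, by rw [he]; ring⟩
    · exfalso
      have h1 : N < 0 := lt_of_le_of_ne (by rw [he]; have := sq_nonneg e; linarith) hN0
      have h2 : δ * N < 0 := mul_neg_of_pos_of_neg hdpos h1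
      have h3 := mul_self_nonneg c
      omega
  obtain ⟨e, he⟩ := hδsq
  have he0 : e ≠ 0 := by
    rintro rfl
    rw [he] at hdpos
    norm_num at hdpos
  have hcop' : IsCoprime a e := by
    rw [he] at hcop
    exact (IsCoprime.pow_right_iff two_pos).1 hcop
  rw [he] at hN
  have hfin := two_int hα hβ he0 hcop' (by rw [← hN]; exact hN0) (by rw [← hN]; exact hNsq)
  have hC := d2_int hfin
  have heQ : (e : ℚ) ≠ 0 := by exact_mod_cast he0
  have hδe : (δ : ℚ) = (e : ℚ) ^ 2 := by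
    rw [he]
    push_cast
    rfl
  rw [hδe] at hxd
  have hxA : x - 2 * α ≠ 0 := sub_ne_zero.2 hA
  have haQ : (a : ℚ) ≠ 0 := by
    rw [← hxd]
    exact mul_ne_zero hx (pow_ne_zero 2 heQ)
  have hcQ : ((a - 2 * α * e ^ 2 : ℤ) : ℚ) = (x - 2 * α) * e ^ 2 := by
    push_cast
    rw [← hxd]
    ring
  have hcQ0 : ((a - 2 * α * e ^ 2 : ℤ) : ℚ) ≠ 0 := by
    rw [hcQ]
    exact mul_ne_zero hxA (pow_ne_zero 2 heQ)
  refine C2_congr haQ hcQ0 hx hxA ?_ ?_ hC
  · exact ⟨x * e, by rw [← hxd]; ring⟩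
  · exact ⟨(x - 2 * α) * e, by rw [hcQ]; ring⟩

private lemma d2_AB (Y Z : ℤ) : F3.A Y Z = (Y + Z) * Y ^ 2 * Z ∧ F3.B Y Z = (Y + Z) ^ 2 * Y * Z := by
  constructor
  · simp [Fam.A, Fam.l, F3, Fin.prod_univ_three]
  · simp [Fam.B, Fam.l, F3, Fin.prod_univ_three]

theorem two_point {Y Z : ℕ} (h : Nice Y Z) (Q : (F3.E (Y : ℤ) (Z : ℤ)).Point) :
    C2 (k1 Q) (k2 Q) := by
  obtain ⟨α, β, hα, hβ, hA, hB⟩ : ∃ α β : ℤ, α % 8 = 1 ∧ β % 8 = 1 ∧
      F3.A (Y : ℤ) (Z : ℤ) = 2 * α ∧ F3.B (Y : ℤ) (Z : ℤ) = 4 * β := by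
    obtain ⟨h1, h2⟩ := d2_AB (Y : ℤ) (Z : ℤ)
    have hY := h.hY
    have hZ := h.hZ
    obtain ⟨W, hW⟩ : ∃ W : ℤ, ((Y : ℤ) + Z) = 2 * W := ⟨((Y : ℤ) + Z) / 2, by omega⟩
    have hW8 : W % 8 = 1 := by omega
    have hY8 : (Y : ℤ) % 8 = 1 := by omega
    have hZ8 : (Z : ℤ) % 8 = 1 := by omega
    refine ⟨W * (Y : ℤ) * Y * Z, W * W * Y * Z, ?_, ?_, ?_, ?_⟩
    · rw [d2_mul2, d2_mul2 (W * (Y : ℤ)), d2_mul2 W, hW8, hY8, hZ8]
      norm_num
    · rw [d2_mul2, d2_mul2 (W * W), d2_mul2 W, hW8, hY8, hZ8]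
      norm_num
    · rw [h1, hW]
      ring
    · rw [h2, hW]
      ring
  have hαβ : (α * β) % 8 = 1 := by
    rw [d2_mul2, hα, hβ]
    norm_num
  have hA' : ((F3.A (Y : ℤ) (Z : ℤ) : ℤ) : ℚ) = 2 * α := by
    rw [hA]
    push_cast
    rfl
  have hB' : ((F3.B (Y : ℤ) (Z : ℤ) : ℤ) : ℚ) = 4 * β := by
    rw [hB]
    push_cast
    rfl
  have hα0 : (α : ℚ) ≠ 0 := by
    have : α ≠ 0 := by
      rintro rfl
      norm_num at hα
    exact_mod_cast this
  have hβ0 : (β : ℚ) ≠ 0 := by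
    have : β ≠ 0 := by
      rintro rfl
      norm_num at hβ
    exact_mod_cast this
  have hAB : (4 * β : ℚ) ≠ 2 * α := by
    intro h0
    have : 4 * β = 2 * α := by exact_mod_cast h0
    omega
  cases Q with
  | zero =>
    have e1 : k1 (WeierstrassCurve.Affine.Point.zero : (F3.E (Y : ℤ) (Z : ℤ)).Point) = ((1 : ℤ) : ℚ) := by
      rw [Int.cast_one]
      rfl
    have e2 : k2 (WeierstrassCurve.Affine.Point.zero : (F3.E (Y : ℤ) (Z : ℤ)).Point) = ((1 : ℤ) : ℚ) := by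
      rw [Int.cast_one]
      rfl
    rw [e1, e2]
    exact d2_C2 (i := 0) (k := 0) (u := 1) (w := 1) (by norm_num) (by norm_num) (by norm_num)
      (Or.inl ⟨by norm_num, by norm_num⟩)
  | some x y hxy =>
    have heq : y ^ 2 = x * (x - 2 * α) * (x - 4 * β) := by
      have h1 := (WeierstrassCurve.Affine.equation_iff x y).1 hxy.1
      simp only [hA', hB'] at h1
      linear_combination h1
    have e1 : k1 (WeierstrassCurve.Affine.Point.some x y hxy : (F3.E (Y : ℤ) (Z : ℤ)).Point) =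
        if x = 0 then (0 - (2 * α : ℚ)) * (0 - 4 * β) else x - 0 := by
      rw [← hA', ← hB']
      rfl
    have e2 : k2 (WeierstrassCurve.Affine.Point.some x y hxy : (F3.E (Y : ℤ) (Z : ℤ)).Point) =
        if x = 2 * α then ((2 * α : ℚ) - 0) * (2 * α - 4 * β) else x - 2 * α := by
      rw [← hA', ← hB']
      rfl
    rw [e1, e2]
    by_cases hx0 : x = 0
    · subst hx0
      rw [if_pos rfl, if_neg (by
        intro h0
        exact hα0 (by linarith))]
      have f1 : ((0 : ℚ) - 2 * α) * (0 - 4 * β) = ((2 ^ 3 * (α * β) : ℤ) : ℚ) := by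
        push_cast
        ring
      have f2 : ((0 : ℚ) - 2 * α) = ((2 ^ 1 * (-α) : ℤ) : ℚ) := by
        push_cast
        ring
      rw [f1, f2]
      exact d2_C2 rfl hαβ rfl (Or.inr ⟨by omega, by norm_num⟩)
    · rw [if_neg hx0, sub_zero]
      by_cases hxA : x = 2 * α
      · rw [if_pos hxA, hxA]
        have f1 : (2 * α : ℚ) = ((2 ^ 1 * α : ℤ) : ℚ) := by
          push_cast
          ring
        have f2 : ((2 * α : ℚ) - 0) * (2 * α - 4 * β) = ((2 ^ 2 * (α * (α - 2 * β)) : ℤ) : ℚ) := by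
          push_cast
          ring
        rw [f2, f1]
        refine d2_C2 rfl hα rfl (Or.inr ⟨?_, by norm_num⟩)
        have : (α - 2 * β) % 8 = 7 := by omega
        rw [d2_mul2, hα, this]
        norm_num
      · rw [if_neg hxA]
        by_cases hxB : x = 4 * β
        · rw [hxB]
          have f1 : (4 * β : ℚ) = ((2 ^ 2 * β : ℤ) : ℚ) := by
            push_cast
            ring
          have f2 : (4 * β : ℚ) - 2 * α = ((2 ^ 1 * (2 * β - α) : ℤ) : ℚ) := by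
            push_cast
            ring
          rw [f2, f1]
          exact d2_C2 rfl hβ rfl (Or.inl ⟨by omega, by norm_num⟩)
        · exact d2_gen hα hβ hx0 hxA hxB heq

end Pool.Agent.H77.K4
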