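import Pool.Agent.H77.K4.D1
import Pool.Agent.H77.SV.SqCl
import Pool.Agent.H77.SV.LcO

/-!
# D3: classes mod 8 of the odd part of a rational number

Let `x ≠ 0` be rational, `O` a finite set of odd primes with `vb q x = 0` for all odd primes
`q ∉ O`. Then `e4 (up 2 (x.num x.den)) = [x < 0] + sum_(q ∈ O) vb q x * e4 q` and
`e8 (up 2 (x.num x.den)) = sum_(q ∈ O) vb q x * e8 q`.

Proof. Let `N = x.num x.den`, `r = (sign) * 2^(0 or 1) * prod over q ∈ O with vb q x = 1 of q`, where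
the sign is that of `x` and the exponent of 2 is `vb 2 x`. Then `x` and `r` have the same sign and
the same `vb q` for all primes `q`, so `x r` is a square (`isSquare_mul_of_vb`), hence `N r` is the
square of an integer and the odd parts of `N` and `r` have product `= 1 mod 8`, so the same `e4`,
`e8` (`e4_mul`, `e8_mul`). Compute the odd part of `r`: `sign * prod q`, and use `e4_mul`, `e8_mul`,
`e4 (-1) = 1`, `e8 (-1) = 0`. (Compare the proof of `lb_eq_sum` in `SV/LcO.lean`.)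
-/

set_option autoImplicit false

namespace Pool.Agent.H77.K4

open Finset Pool.Agent.H77.SV

private lemma d3_two (t : ZMod 2) : t + t = 0 := CharTwo.add_self_eq_zero t

private lemma d3_01 : ∀ t : ZMod 2, t = 0 ∨ t = 1 := by decide

private lemma d3_up_eq {N u : ℤ} {v : ℕ} (hu : u % 2 = 1)
    (h : N = (2 : ℤ) ^ v * u) : up 2 N = u := by
  have hN : N ≠ 0 := by
    rw [h]
    exact mul_ne_zero (pow_ne_zero _ (by norm_num)) (by omega)
  have h1 : padicValInt 2 N = v := by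
    have h3 := (up_spec Nat.prime_two hN)
    set w := padicValInt 2 N with hw
    obtain ⟨h4, h5⟩ := h3
    have h5' : up 2 N % 2 = 1 := by
      have : ¬ (2 : ℤ) ∣ up 2 N := by exact_mod_cast h5
      omega
    have h4' : N = (2 : ℤ) ^ w * up 2 N := by exact_mod_cast h4
    rcases lt_trichotomy w v with hlt | heq | hgt
    · exfalso
      obtain ⟨k, hk⟩ := Nat.exists_eq_add_of_lt hlt
      have h6 : (2 : ℤ) ^ w * up 2 N = (2 : ℤ) ^ w * (2 * (2 ^ k * u)) := by
        rw [← h4', h, hk]; ring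
      have h7 := mul_left_cancel₀ (pow_ne_zero w (by norm_num : (2 : ℤ) ≠ 0)) h6
      omega
    · exact heq
    · exfalso
      obtain ⟨k, hk⟩ := Nat.exists_eq_add_of_lt hgt
      have h6 : (2 : ℤ) ^ v * u = (2 : ℤ) ^ v * (2 * (2 ^ k * up 2 N)) := by
        rw [← h]
        nth_rewrite 1 [h4']
        rw [hk]; ring
      have h7 := mul_left_cancel₀ (pow_ne_zero v (by norm_num : (2 : ℤ) ≠ 0)) h6
      omega
  unfold up
  rw [h1, h]
  push_cast
  exact Int.mul_ediv_cancel_left _ (pow_ne_zero v (by norm_num))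

private lemma d3_up_odd {N : ℤ} (hN : N ≠ 0) : up 2 N % 2 = 1 := by
  have h5 := (up_spec Nat.prime_two hN).2
  have : ¬ (2 : ℤ) ∣ up 2 N := by exact_mod_cast h5
  omega

private lemma d3_mul_odd {a b : ℤ} (ha : a % 2 = 1) (hb : b % 2 = 1) : (a * b) % 2 = 1 := by
  rw [Int.mul_emod, ha, hb]; rfl

private lemma d3_up_mul {M N : ℤ} (hM : M ≠ 0) (hN : N ≠ 0) :
    up 2 (M * N) = up 2 M * up 2 N := by
  obtain ⟨h1, -⟩ := up_spec Nat.prime_two hM
  obtain ⟨h3, -⟩ := up_spec Nat.prime_two hN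
  have h1' : M = (2 : ℤ) ^ (padicValInt 2 M) * up 2 M := by exact_mod_cast h1
  have h3' : N = (2 : ℤ) ^ (padicValInt 2 N) * up 2 N := by exact_mod_cast h3
  refine d3_up_eq (v := padicValInt 2 M + padicValInt 2 N)
    (d3_mul_odd (d3_up_odd hM) (d3_up_odd hN)) ?_
  calc M * N = ((2 : ℤ) ^ (padicValInt 2 M) * up 2 M) * ((2 : ℤ) ^ (padicValInt 2 N) * up 2 N) := by
        rw [← h1', ← h3']
    _ = _ := by rw [pow_add]; ring

private lemma d3_e4_sq {a : ℤ} (ha : a % 2 = 1) : e4 (a * a) = 0 := by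
  rw [e4_mul ha ha]; exact d3_two _

private lemma d3_e8_sq {a : ℤ} (ha : a % 2 = 1) : e8 (a * a) = 0 := by
  rw [e8_mul ha ha]; exact d3_two _

/-- if `N * r` is a square then the classes agree -/
private lemma d3_cls {N r : ℤ} (hN : N ≠ 0) (hr : r ≠ 0) (h : IsSquare (N * r)) :
    e4 (up 2 N) = e4 (up 2 r) ∧ e8 (up 2 N) = e8 (up 2 r) := by
  obtain ⟨m, hm⟩ := h
  have hm0 : m ≠ 0 := by
    rintro rfl
    exact mul_ne_zero hN hr (by rw [hm]; ring)
  have h1 : up 2 N * up 2 r = up 2 m * up 2 m := by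
    rw [← d3_up_mul hN hr, hm, d3_up_mul hm0 hm0]
  constructor
  · have h2 : e4 (up 2 N) + e4 (up 2 r) = 0 := by
      rw [← e4_mul (d3_up_odd hN) (d3_up_odd hr), h1]
      exact d3_e4_sq (d3_up_odd hm0)
    exact CharTwo.add_eq_zero.1 h2
  · have h2 : e8 (up 2 N) + e8 (up 2 r) = 0 := by
      rw [← e8_mul (d3_up_odd hN) (d3_up_odd hr), h1]
      exact d3_e8_sq (d3_up_odd hm0)
    exact CharTwo.add_eq_zero.1 h2

private lemma d3_prod (A : Finset ℕ) (hA : ∀ q ∈ A, q.Prime ∧ q ≠ 2) :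
    (∏ q ∈ A, (q : ℤ)) % 2 = 1 ∧ e4 (∏ q ∈ A, (q : ℤ)) = ∑ q ∈ A, e4 q ∧
      e8 (∏ q ∈ A, (q : ℤ)) = ∑ q ∈ A, e8 q := by
  induction A using Finset.induction_on with
  | empty => simp [e4, e8]
  | insert q A hq ih =>
    have hA' : ∀ r ∈ A, r.Prime ∧ r ≠ 2 := fun r hr => hA r (Finset.mem_insert_of_mem hr)
    obtain ⟨h1, h2, h3⟩ := ih hA'
    have hqp := hA q (Finset.mem_insert_self _ _)
    have hqo : (q : ℤ) % 2 = 1 := by
      have := hqp.1.eq_two_or_odd
      omega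
    rw [Finset.prod_insert hq, Finset.sum_insert hq, Finset.sum_insert hq]
    exact ⟨d3_mul_odd hqo h1, by rw [e4_mul hqo h1, h2], by rw [e8_mul hqo h1, h3]⟩

private lemma d3_not_dvd_one {p : ℕ} (hp : p.Prime) : ¬ (p : ℤ) ∣ 1 := by
  intro h
  have h1 : (p : ℤ) ∣ ((1 : ℕ) : ℤ) := by exact_mod_cast h
  rw [Int.natCast_dvd_natCast] at h1
  exact hp.one_lt.ne' (Nat.dvd_one.1 h1)

private lemma d3_vb_one {p : ℕ} (hp : p.Prime) : vb p 1 = 0 := by
  have := vb_int hp (d3_not_dvd_one hp)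
  rwa [Int.cast_one] at this

private lemma d3_vb_neg_one {p : ℕ} (hp : p.Prime) : vb p (-1) = 0 := by
  have h : ¬ (p : ℤ) ∣ -1 := by rw [Int.dvd_neg]; exact d3_not_dvd_one hp
  have := vb_int hp h
  rwa [Int.cast_neg, Int.cast_one] at this

private lemma d3_vb_prime {p q : ℕ} (hp : p.Prime) (hq : q.Prime) :
    vb p (q : ℚ) = if p = q then 1 else 0 := by
  by_cases h : p = q
  · subst h
    rw [if_pos rfl]
    unfold vb
    rw [padicValRat.self hp.one_lt]
    rfl
  · rw [if_neg h]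
    have h1 : ¬ (p : ℤ) ∣ (q : ℤ) := by
      rw [Int.natCast_dvd_natCast, Nat.prime_dvd_prime_iff_eq hp hq]
      exact h
    have := vb_int hp h1
    rwa [Int.cast_natCast] at this

private lemma d3_vb_prod {p : ℕ} (hp : p.Prime) (A : Finset ℕ) (hA : ∀ q ∈ A, q.Prime) :
    vb p (∏ q ∈ A, (q : ℚ)) = if p ∈ A then 1 else 0 := by
  induction A using Finset.induction_on with
  | empty =>
    rw [Finset.prod_empty, if_neg (Finset.notMem_empty _)]
    exact d3_vb_one hp
  | insert q A hq ih =>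
    have hA' : ∀ r ∈ A, r.Prime := fun r hr => hA r (Finset.mem_insert_of_mem hr)
    have hqp := hA q (Finset.mem_insert_self _ _)
    rw [Finset.prod_insert hq, vb_mul hp (Nat.cast_ne_zero.2 hqp.ne_zero)
      (Finset.prod_ne_zero_iff.2 fun r hr => Nat.cast_ne_zero.2 (hA' r hr).ne_zero), ih hA',
      d3_vb_prime hp hqp]
    by_cases h : p = q
    · subst h
      simp [hq]
    · simp [h]

theorem e_sum {x : ℚ} (hx : x ≠ 0) (O : Finset ℕ) (hO' : ∀ q ∈ O, q.Prime ∧ q ≠ 2)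
    (hO : ∀ q : ℕ, q.Prime → q ≠ 2 → q ∉ O → vb q x = 0) :
    e4 (up 2 (x.num * x.den)) = (if x < 0 then 1 else 0) + ∑ q ∈ O, vb q x * e4 q ∧
    e8 (up 2 (x.num * x.den)) = ∑ q ∈ O, vb q x * e8 q := by
  classical
  set A := O.filter (fun q => vb q x = 1) with hA
  have hAp : ∀ q ∈ A, q.Prime ∧ q ≠ 2 := fun q hq => hO' q (Finset.mem_filter.1 hq).1
  set s : ℤ := if x < 0 then -1 else 1 with hs
  have hs0 : s ≠ 0 := by rw [hs]; split_ifs <;> norm_num
  have hso : s % 2 = 1 := by rw [hs]; split_ifs <;> norm_num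
  set t : ℕ := if vb 2 x = 1 then 1 else 0 with ht
  set P : ℤ := ∏ q ∈ A, (q : ℤ) with hP
  obtain ⟨hPo, hP4, hP8⟩ := d3_prod A hAp
  have hP0 : P ≠ 0 := by omega
  set r : ℤ := (2 : ℤ) ^ t * (s * P) with hr
  have hr0 : r ≠ 0 := mul_ne_zero (pow_ne_zero _ (by norm_num)) (mul_ne_zero hs0 hP0)
  have hPc : (P : ℚ) = ∏ q ∈ A, (q : ℚ) := by rw [hP]; push_cast; rfl
  have hPpos : (0 : ℚ) < P := by
    rw [hPc]
    exact Finset.prod_pos fun q hq => Nat.cast_pos.2 (hAp q hq).1.pos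
  have hvs : ∀ q : ℕ, q.Prime → vb q (s : ℚ) = 0 := by
    intro q hq
    rw [hs]
    split_ifs
    · rw [Int.cast_neg, Int.cast_one]; exact d3_vb_neg_one hq
    · rw [Int.cast_one]; exact d3_vb_one hq
  have hvt : ∀ q : ℕ, q.Prime → vb q ((2 : ℚ) ^ t) = if q = 2 ∧ vb 2 x = 1 then 1 else 0 := by
    intro q hq
    rw [ht]
    by_cases h : vb 2 x = 1
    · rw [if_pos h, pow_one]
      have := d3_vb_prime hq Nat.prime_two
      rw [Nat.cast_ofNat] at this
      rw [this]
      simp [h]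
    · rw [if_neg h, pow_zero, d3_vb_one hq]
      simp [h]
  have hs0' : (s : ℚ) ≠ 0 := Int.cast_ne_zero.2 hs0
  have hP0' : (P : ℚ) ≠ 0 := Int.cast_ne_zero.2 hP0
  have ht0' : ((2 : ℚ) ^ t) ≠ 0 := pow_ne_zero _ (by norm_num)
  have hrc : (r : ℚ) = (2 : ℚ) ^ t * ((s : ℚ) * (P : ℚ)) := by rw [hr]; push_cast; rfl
  have hsq : IsSquare (x * (r : ℚ)) := by
    refine isSquare_mul_of_vb hx (Int.cast_ne_zero.2 hr0) ?_ ?_
    · rw [hrc, hs]
      have h2 : (0 : ℚ) < 2 ^ t := pow_pos (by norm_num) _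
      have h3 : (0 : ℚ) < 2 ^ t * P := mul_pos h2 hPpos
      split_ifs with h
      · simp only [h, true_iff]
        push_cast
        nlinarith
      · simp only [h, false_iff, not_lt]
        push_cast
        nlinarith
    · intro q hq
      rw [hrc, vb_mul hq ht0' (mul_ne_zero hs0' hP0'), vb_mul hq hs0' hP0', hvs q hq, zero_add,
        hvt q hq, hPc, d3_vb_prod hq A (fun q hq => (hAp q hq).1)]
      by_cases hq2 : q = 2
      · subst hq2
        have h2A : 2 ∉ A := fun h => (hAp 2 h).2 rfl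
        rw [if_neg h2A, add_zero]
        rcases d3_01 (vb 2 x) with h | h
        · rw [h]; rfl
        · rw [h]; rfl
      · have h3 : ¬ (q = 2 ∧ vb 2 x = 1) := fun h => hq2 h.1
        rw [if_neg h3, zero_add]
        by_cases hqO : q ∈ O
        · rcases d3_01 (vb q x) with h | h
          · have : q ∉ A := by
              rw [hA, Finset.mem_filter]
              rintro ⟨_, h'⟩
              rw [h] at h'
              exact absurd h' (by decide)
            rw [if_neg this, h]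
          · have : q ∈ A := by
              rw [hA, Finset.mem_filter]
              exact ⟨hqO, h⟩
            rw [if_pos this, h]
        · have : q ∉ A := fun h => hqO (Finset.mem_filter.1 h).1
          rw [if_neg this, hO q hq hq2 hqO]
  have hN0 : x.num * (x.den : ℤ) ≠ 0 :=
    mul_ne_zero (Rat.num_ne_zero.2 hx) (by exact_mod_cast x.den_nz)
  have hsqZ : IsSquare ((x.num * (x.den : ℤ)) * r) := by
    rw [← Rat.isSquare_intCast_iff]
    obtain ⟨w, hw⟩ := hsq
    refine ⟨w * x.den, ?_⟩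
    have hxd : (x.num : ℚ) = x * x.den := by
      rw [mul_comm]
      exact (Rat.den_mul_eq_num x).symm
    push_cast
    rw [hxd]
    linear_combination (x.den : ℚ) ^ 2 * hw
  obtain ⟨h4, h8⟩ := d3_cls hN0 hr0 hsqZ
  have hup : up 2 r = s * P := d3_up_eq (v := t) (d3_mul_odd hso hPo) hr
  have hsum : ∀ f : ℕ → ZMod 2, ∑ q ∈ A, f q = ∑ q ∈ O, vb q x * f q := by
    intro f
    rw [hA, Finset.sum_filter]
    refine Finset.sum_congr rfl fun q _ => ?_
    rcases d3_01 (vb q x) with h | h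
    · rw [h, zero_mul, if_neg (by decide)]
    · rw [h, one_mul, if_pos rfl]
  constructor
  · rw [h4, hup, e4_mul hso hPo, hP4, hsum]
    congr 1
    rw [hs]
    split_ifs <;> decide
  · rw [h8, hup, e8_mul hso hPo, hP8, hsum]
    have : e8 s = 0 := by
      rw [hs]
      split_ifs <;> decide
    rw [this, zero_add]

theorem bt_e4 {p : ℕ} (hp : p.Prime) (h2 : p ≠ 2) : bt p (-1) = e4 p := by
  have ho : p % 2 = 1 := by
    have := hp.eq_two_or_odd
    omega
  unfold bt e4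
  rw [jacobiSym.at_neg_one (Nat.odd_iff.2 ho), ZMod.χ₄_nat_eq_if_mod_four]
  have h0 : ¬ (p % 2 = 0) := by omega
  rw [if_neg h0]
  by_cases h : p % 4 = 1
  · have h3 : ¬ ((p : ℤ) % 4 = 3) := by omega
    rw [if_pos h, if_neg (by norm_num), if_neg h3]
  · have h3 : (p : ℤ) % 4 = 3 := by omega
    rw [if_neg h, if_pos rfl, if_pos h3]

theorem bt_e8 {p : ℕ} (hp : p.Prime) (h2 : p ≠ 2) : bt p 2 = e8 p := by
  have ho : p % 2 = 1 := by
    have := hp.eq_two_or_odd
    omega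
  unfold bt e8
  rw [jacobiSym.at_two (Nat.odd_iff.2 ho), ZMod.χ₈_nat_eq_if_mod_eight]
  have h0 : ¬ (p % 2 = 0) := by omega
  rw [if_neg h0]
  by_cases h : p % 8 = 1 ∨ p % 8 = 7
  · have h3 : ¬ ((p : ℤ) % 8 = 3 ∨ (p : ℤ) % 8 = 5) := by omega
    rw [if_pos h, if_neg (by norm_num), if_neg h3]
  · have h3 : (p : ℤ) % 8 = 3 ∨ (p : ℤ) % 8 = 5 := by omega
    rw [if_neg h, if_pos rfl, if_pos h3]

end Pool.Agent.H77.K4
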