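import Mathlib

/-!
# D5: rank, torsion and the order of `G / 2 G`

Let `G` be a finitely generated abelian group with (at least) four elements `t` such that
`t + t = 0`. Let `f : G → V` (a finite set) be a map such that `f g = f h` implies `g - h ∈ 2 G`.
Then `2 ^ (rank G + 2) ≤ # V`.

Proof. The induced map `G / 2G → V` (choose representatives) is injective, so `# V ≥ # (G / 2 G)`
(`G / 2 G` is finite). It remains to see `# (G / 2G) ≥ 2^r * # G[2]`, and `# G[2] ≥ 4`.
By the structure theorem (`AddCommGroup.equiv_free_prod_directSum_zmod` or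
`Module.equiv_free_prod_directSum` over `ℤ`): `G ≅ ℤ^r × H`, `H` finite, so `G[2] ≅ H[2]`,
`G / 2G ≅ (ℤ/2)^r × H / 2H`, and `# (H / 2H) = # H[2]` (first isomorphism theorem for
multiplication by 2 on the finite group `H`).
Alternatively: let `N` be the torsion subgroup (finite); `G / N` is free of rank `r` with basis
`b_i`; lift it to `w_i ∈ G`; the elements `sum ε_i w_i + h`, `ε ∈ {0,1}^r`, `h` in a set of
representatives of `N / 2 N`, are pairwise incongruent modulo `2 G`, because `2 G ∩ N = 2 N`
(`G / N` is torsion free: `2 g ∈ N` implies `g ∈ N`).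
-/

set_option autoImplicit false

namespace Pool.Agent.H77.K4

open Finset

/-- the order of `H / 2H` is the order of the 2-torsion -/
theorem card_quot_two {H : Type*} [AddCommGroup H] [Finite H] :
    Nat.card (H ⧸ (AddMonoidHom.id H + AddMonoidHom.id H).range)
      = Nat.card ((AddMonoidHom.id H + AddMonoidHom.id H).ker) := by
  set D : H →+ H := AddMonoidHom.id H + AddMonoidHom.id H with hD
  have h1 : Nat.card H = Nat.card (H ⧸ D.range) * Nat.card D.range :=
    AddSubgroup.card_eq_card_quotient_mul_card_addSubgroup D.range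
  have h2 : Nat.card H = Nat.card (H ⧸ D.ker) * Nat.card D.ker :=
    AddSubgroup.card_eq_card_quotient_mul_card_addSubgroup D.ker
  have h3 : Nat.card (H ⧸ D.ker) = Nat.card D.range :=
    Nat.card_congr (QuotientAddGroup.quotientKerEquivRange D).toEquiv
  have hpos : 0 < Nat.card D.range := Nat.card_pos
  rw [h3] at h2
  have h4 : Nat.card D.range * Nat.card (H ⧸ D.range)
      = Nat.card D.range * Nat.card D.ker := by
    rw [mul_comm, ← h1, h2]
  exact Nat.eq_of_mul_eq_mul_left hpos h4

theorem two_pow_rank_add {G : Type*} [AddCommGroup G] [Module.Finite ℤ G] {X : Type*}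
    (V : Finset X) (f : G → X) (hV : ∀ g, f g ∈ V)
    (hf : ∀ g h, f g = f h → ∃ a, g - h = a + a)
    (T : Finset G) (hT : T.card = 4) (hT2 : ∀ t ∈ T, t + t = 0) :
    2 ^ (Module.finrank ℤ G + 2) ≤ V.card := by
  classical
  haveI : AddGroup.FG G := by
    have : Module.Finite ℤ G := inferInstance
    exact Module.Finite.iff_addGroup_fg.mp this
  obtain ⟨n, ι, _, p, hp, e, ⟨φ⟩⟩ := AddCommGroup.equiv_free_prod_directSum_zmod (G := G)
  haveI : ∀ i, NeZero (p i ^ e i) := fun i => ⟨pow_ne_zero _ (hp i).ne_zero⟩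
  set H := DirectSum ι (fun i => ZMod (p i ^ e i)) with hH
  haveI : Finite H := Finite.of_equiv _ (DirectSum.addEquivProd (fun i => ZMod (p i ^ e i))).symm.toEquiv
  -- the rank
  have hrank : Module.finrank ℤ G ≤ n := by
    have h0 : Module.finrank ℤ G = Module.finrank ℤ ((Fin n →₀ ℤ) × H) :=
      LinearEquiv.finrank_eq φ.toIntLinearEquiv
    rw [h0]
    set P : ((Fin n →₀ ℤ) × H) →ₗ[ℤ] (Fin n →₀ ℤ) := LinearMap.fst ℤ _ _ with hP
    have h1 := rank_quotient_add_rank_of_isDomain (R := ℤ) (LinearMap.ker P)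
    have h2 : Module.rank ℤ (LinearMap.ker P) = 0 := by
      rw [rank_eq_zero_iff]
      rintro ⟨⟨x, y⟩, hx⟩
      have hx0 : x = 0 := hx
      refine ⟨(Nat.card H : ℤ), ?_, ?_⟩
      · exact_mod_cast (Nat.card_pos (α := H)).ne'
      · apply Subtype.ext
        show ((Nat.card H : ℤ)) • ((x, y) : (Fin n →₀ ℤ) × H) = 0
        rw [hx0]
        refine Prod.ext ?_ ?_
        · simp
        · show ((Nat.card H : ℤ)) • y = 0
          rw [natCast_zsmul]
          exact card_nsmul_eq_zero'
    have h3 : Module.rank ℤ (((Fin n →₀ ℤ) × H) ⧸ LinearMap.ker P) ≤ (n : Cardinal) := by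
      have h4 : Module.rank ℤ (((Fin n →₀ ℤ) × H) ⧸ LinearMap.ker P)
          ≤ Module.rank ℤ (Fin n →₀ ℤ) :=
        LinearMap.rank_le_of_injective _
          (LinearMap.ker_eq_bot.mp (Submodule.ker_liftQ_eq_bot (LinearMap.ker P) P le_rfl le_rfl))
      refine h4.trans ?_
      simp
    have h5 : Module.rank ℤ ((Fin n →₀ ℤ) × H) ≤ (n : Cardinal) := by
      rw [← h1, h2, add_zero]
      exact h3
    exact Module.finrank_le_of_rank_le h5
  -- the map to `(ℤ/2)^n × H/2H`
  set D : H →+ H := AddMonoidHom.id H + AddMonoidHom.id H with hD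
  have hDa : ∀ x, D x = x + x := fun x => rfl
  set C := (Fin n → ZMod 2) × (H ⧸ D.range) with hC
  set ψ : G → C := fun g =>
    (fun i => (((φ g).1 i : ℤ) : ZMod 2), QuotientAddGroup.mk (φ g).2) with hψ
  have hsurj : Function.Surjective ψ := by
    rintro ⟨u, w⟩
    obtain ⟨y, rfl⟩ := QuotientAddGroup.mk_surjective w
    refine ⟨φ.symm (Finsupp.equivFunOnFinite.symm (fun i => ((u i).val : ℤ)), y), ?_⟩
    simp only [hψ, AddEquiv.apply_symm_apply]
    refine Prod.ext ?_ rfl
    funext i
    simp
  have hker : ∀ g h a, g - h = a + a → ψ g = ψ h := by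
    intro g h a hgh
    have hg : g = h + (a + a) := by rw [← hgh]; abel
    have h1 : φ g = φ h + (φ a + φ a) := by rw [hg, map_add, map_add]
    refine Prod.ext ?_ ?_
    · funext i
      show (((φ g).1 i : ℤ) : ZMod 2) = (((φ h).1 i : ℤ) : ZMod 2)
      rw [h1]
      show ((((φ h).1 i + ((φ a).1 i + (φ a).1 i) : ℤ)) : ZMod 2) = _
      push_cast
      rw [CharTwo.add_self_eq_zero, add_zero]
    · show (QuotientAddGroup.mk (φ g).2 : H ⧸ D.range) = QuotientAddGroup.mk (φ h).2
      rw [h1]
      show (QuotientAddGroup.mk ((φ h).2 + ((φ a).2 + (φ a).2)) : H ⧸ D.range) = _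
      rw [QuotientAddGroup.mk_add, ← hDa]
      have h2 : (QuotientAddGroup.mk (D (φ a).2) : H ⧸ D.range) = 0 := by
        rw [QuotientAddGroup.eq_zero_iff]
        exact ⟨_, rfl⟩
      rw [h2, add_zero]
  haveI : Finite C := by
    haveI : Finite (H ⧸ D.range) := inferInstance
    infer_instance
  -- `C` injects into `V`
  obtain ⟨s, hs⟩ := hsurj.hasRightInverse
  have hinj : Function.Injective (fun c : C => (⟨f (s c), hV _⟩ : V)) := by
    intro c c' hcc
    have h1 : f (s c) = f (s c') := congrArg Subtype.val hcc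
    obtain ⟨a, ha⟩ := hf _ _ h1
    rw [← hs c, ← hs c']
    exact hker _ _ a ha
  have hcard : Nat.card C ≤ V.card := by
    have := Nat.card_le_card_of_injective _ hinj
    simpa using this
  -- the torsion
  have hT4 : 4 ≤ Nat.card D.ker := by
    have h1 : ∀ t ∈ T, (φ t).1 = 0 ∧ (φ t).2 ∈ D.ker := by
      intro t ht
      have h2 : φ t + φ t = 0 := by rw [← map_add, hT2 t ht, map_zero]
      constructor
      · ext i
        have h3 : (φ t).1 i + (φ t).1 i = 0 := by
          have := congrArg (fun z : (Fin n →₀ ℤ) × H => z.1 i) h2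
          simpa using this
        show (φ t).1 i = 0
        omega
      · rw [AddMonoidHom.mem_ker, hDa]
        have := congrArg Prod.snd h2
        simpa using this
    have h5 : Function.Injective (fun t : T => (⟨(φ t.1).2, (h1 t.1 t.2).2⟩ : D.ker)) := by
      intro t t' htt
      have h6 : (φ t.1).2 = (φ t'.1).2 := congrArg Subtype.val htt
      apply Subtype.ext
      apply φ.injective
      exact Prod.ext ((h1 _ t.2).1.trans (h1 _ t'.2).1.symm) h6
    have h7 := Nat.card_le_card_of_injective _ h5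
    have h8 : Nat.card T = 4 := by simp [hT]
    omega
  have hC2 : Nat.card C = 2 ^ n * Nat.card (H ⧸ D.range) := by
    rw [hC, Nat.card_prod, Nat.card_fun]
    simp
  have hq : Nat.card (H ⧸ D.range) = Nat.card D.ker := card_quot_two
  calc 2 ^ (Module.finrank ℤ G + 2) ≤ 2 ^ (n + 2) :=
        Nat.pow_le_pow_right (by norm_num) (by omega)
    _ = 2 ^ n * 4 := by rw [pow_add]; norm_num
    _ ≤ 2 ^ n * Nat.card (H ⧸ D.range) := Nat.mul_le_mul_left _ (by omega)
    _ = Nat.card C := hC2.symm
    _ ≤ V.card := hcard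

end Pool.Agent.H77.K4
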