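import Pool.Agent.H63.SW.Main
import Pool.Agent.H37.SFG.Theta
import Pool.Agent.H77.K4.Defs4

/-!
# L1: primes in a fixed residue class

`W ≥ 1`. There is `x0` such that for `b ≥ 1`, `x0 b ≤ T`, `a` prime to `W`:
`#{q prime : T/2 < b q ≤ T, q = a mod W} ≥ T / (5 b φ(W) log T)`.

Proof. `x = T / b` (real). `T/2 < b q` (natural division) iff `T < 2 b q`. So the set is the set of
primes `q = a mod W` in `(x/2, x]`. By orthogonality of characters (`χ(a)^(-1)`)
`φ(W) sum_(q ≤ x, q = a) log q = sum_χ χ^(-1)(a) sum_(q ≤ x) χ(q) log q`. For `χ ≠ 1`, `theta_char` with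
`d0 = 1/2`, `A = 1` (`W ≤ (log x)^(1/2)` for `x` large): `≤ C x / log x`. For `χ = 1` the sum is
`θ(x)` minus `sum_(q | W) log q`, and `theta_pnt` with `A = 1`: `x + O(x / log x)`. So
`θ(x; W, a) = x/φ(W) + O_W(x / log x)`, the same for `x/2`, and
`θ(x; W, a) - θ(x/2; W, a) ≥ x/(2 φ(W)) - C_W x/log x ≥ x/(5 φ(W))` for `x ≥ x0`. Each prime counts
`log q ≤ log T`.
-/

set_option autoImplicit false

namespace Pool.Agent.H77.K4

open Finset Pool.Agent.H77.SV

theorem q_low (W : ℕ) (hW : 1 ≤ W) : ∃ x0 : ℕ, ∀ T b : ℕ, 1 ≤ b → x0 * b ≤ T →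
    ∀ a : ℕ, a.Coprime W →
    (T : ℝ) / (5 * b * W.totient * Real.log T) ≤
      (((Ioc 0 T).filter fun q : ℕ => q.Prime ∧ T / 2 < b * q ∧ b * q ≤ T ∧
        q % W = a % W).card : ℝ) := by
  classical
  obtain ⟨C, hC, hth⟩ := Pool.Agent.H37.SFG.theta_class (1 / 2) (by norm_num) (by norm_num) 1
  have hev : ∀ᶠ M : ℕ in Filter.atTop, (2 : ℕ) ≤ M ∧ (W : ℝ) ^ 2 ≤ Real.log M ∧
      20 * C ≤ Real.log M := by
    have h1 : Filter.Tendsto (fun M : ℕ => Real.log M) Filter.atTop Filter.atTop :=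
      Real.tendsto_log_atTop.comp tendsto_natCast_atTop_atTop
    exact (Filter.eventually_ge_atTop 2).and ((h1.eventually_ge_atTop _).and
      (h1.eventually_ge_atTop _))
  obtain ⟨K, hK⟩ := Filter.eventually_atTop.1 hev
  refine ⟨2 * K + 4, fun T b hb hT a ha => ?_⟩
  have hb0 : 0 < b := hb
  set N := T / b with hN
  have hNx : 2 * K + 4 ≤ N := (Nat.le_div_iff_mul_le hb0).2 hT
  have hM : T / 2 / b = N / 2 := by rw [Nat.div_div_eq_div_mul, mul_comm, ← Nat.div_div_eq_div_mul]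
  obtain ⟨hN2, hNW, hNC⟩ := hK N (by omega)
  obtain ⟨hM2, hMW, hMC⟩ := hK (N / 2) (by omega)
  have hr : a % W < W := Nat.mod_lt _ hW
  have hrc : (a % W).Coprime W := by
    have h1 : Nat.gcd (a % W) W = Nat.gcd W a := (Nat.gcd_rec W a).symm
    rw [Nat.Coprime, h1, Nat.gcd_comm]
    exact ha
  have hpow : ∀ M : ℕ, (W : ℝ) ^ 2 ≤ Real.log M → (W : ℝ) ≤ Real.log M ^ ((1 : ℝ) - 1 / 2) := by
    intro M h
    have h1 : (1 : ℝ) - 1 / 2 = 1 / 2 := by norm_num
    rw [h1, ← Real.sqrt_eq_rpow]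
    exact Real.le_sqrt_of_sq_le h
  have h1 := hth N hN2 W (a % W) hW (hpow N hNW) hr hrc
  have h2 := hth (N / 2) hM2 W (a % W) hW (hpow _ hMW) hr hrc
  rw [pow_one] at h1 h2
  have hTb : (b : ℝ) * N ≤ T := by
    have := Nat.mul_div_le T b
    exact_mod_cast this
  have hTb' : (T : ℝ) < b * (N + 1) := by
    have := Nat.lt_mul_div_succ T hb0
    rw [← hN] at this
    exact_mod_cast this
  have hN4 : (4 : ℝ) ≤ N := by
    have : 4 ≤ N := by omega
    exact_mod_cast this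
  have hbR : (1 : ℝ) ≤ b := by exact_mod_cast hb
  have hT4 : (4 : ℝ) ≤ T := by nlinarith
  have hT0 : 4 ≤ T := by exact_mod_cast hT4
  have hlogT : 0 < Real.log T := Real.log_pos (by linarith)
  have hφ : (0 : ℝ) < W.totient := by exact_mod_cast Nat.totient_pos.2 hW
  have hM' : ((N / 2 : ℕ) : ℝ) ≤ N / 2 := Nat.cast_div_le
  have hlogN : 0 < Real.log N := Real.log_pos (by linarith)
  have hlogM : 0 < Real.log (N / 2 : ℕ) := by
    refine Real.log_pos ?_
    exact_mod_cast (lt_of_lt_of_le one_lt_two hM2)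
  have e1 : C * N / Real.log N ≤ N / 20 := by
    rw [div_le_div_iff₀ hlogN (by norm_num)]
    nlinarith
  have e2 : C * (N / 2 : ℕ) / Real.log (N / 2 : ℕ) ≤ N / 40 := by
    rw [div_le_div_iff₀ hlogM (by norm_num)]
    have h3 : C * ((N / 2 : ℕ) : ℝ) ≤ C * (N / 2) := mul_le_mul_of_nonneg_left hM' hC.le
    nlinarith
  have hdiff : (N : ℝ) * (2 / 5) ≤ W.totient *
      (Pool.Agent.H37.SFQ.fW 0 N W (a % W) - Pool.Agent.H37.SFQ.fW 0 (N / 2) W (a % W)) := by
    have h3 := (abs_le.1 h1).1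
    have h4 := (abs_le.1 h2).2
    nlinarith
  set S := (Ioc 0 T).filter fun q : ℕ => q.Prime ∧ T / 2 < b * q ∧ b * q ≤ T ∧
        q % W = a % W with hS
  have hcount : Pool.Agent.H37.SFQ.fW 0 N W (a % W) - Pool.Agent.H37.SFQ.fW 0 (N / 2) W (a % W) ≤
      S.card * Real.log T := by
    unfold Pool.Agent.H37.SFQ.fW
    have hsub : (Pool.Agent.H37.SFQ.wp 0 (N / 2)).filter (fun p => p % W = a % W) ⊆
        (Pool.Agent.H37.SFQ.wp 0 N).filter (fun p => p % W = a % W) := by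
      intro q hq
      rw [Finset.mem_filter, Pool.Agent.H37.SFQ.mem_wp] at hq ⊢
      exact ⟨⟨⟨hq.1.1.1, by omega⟩, hq.1.2⟩, hq.2⟩
    rw [← Finset.sum_sdiff hsub, add_sub_cancel_right, ← nsmul_eq_mul]
    refine (Finset.sum_le_card_nsmul _ _ (Real.log T) ?_).trans ?_
    · intro q hq
      rw [Finset.mem_sdiff, Finset.mem_filter, Pool.Agent.H37.SFQ.mem_wp] at hq
      refine Real.log_le_log (by exact_mod_cast hq.1.1.2.pos) ?_
      have h3 : q ≤ T := by
        have h5 : N ≤ T := Nat.div_le_self T b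
        omega
      exact_mod_cast h3
    · rw [nsmul_eq_mul, nsmul_eq_mul]
      refine mul_le_mul_of_nonneg_right ?_ hlogT.le
      refine Nat.cast_le.2 (Finset.card_le_card ?_)
      intro q hq
      rw [Finset.mem_sdiff, Finset.mem_filter, Finset.mem_filter, Pool.Agent.H37.SFQ.mem_wp,
        Pool.Agent.H37.SFQ.mem_wp] at hq
      obtain ⟨⟨⟨⟨hq0, hqN⟩, hqp⟩, hqr⟩, hqn⟩ := hq
      have hqN' : q ≤ N := by omega
      have hbq : b * q ≤ T := (Nat.mul_le_mul_left b hqN').trans (Nat.mul_div_le T b)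
      have hqM : N / 2 < q := by
        by_contra hcon
        exact hqn ⟨⟨⟨hq0, by omega⟩, hqp⟩, hqr⟩
      rw [hS, Finset.mem_filter, Finset.mem_Ioc]
      refine ⟨⟨hq0, hqN'.trans (Nat.div_le_self T b)⟩, hqp, ?_, hbq, hqr⟩
      rw [← hM, Nat.div_lt_iff_lt_mul hb0] at hqM
      rwa [mul_comm]
  have hfin : (T : ℝ) ≤ 5 * b * W.totient * Real.log T * S.card := by
    have h3 : (N : ℝ) * (2 / 5) ≤ W.totient * (S.card * Real.log T) :=
      hdiff.trans (mul_le_mul_of_nonneg_left hcount hφ.le)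
    have h4 : (T : ℝ) ≤ b * (2 * N) := by nlinarith
    nlinarith
  rw [div_le_iff₀ (by positivity)]
  linarith

end Pool.Agent.H77.K4
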