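import Pool.Agent.H77.K4.Defs4
import Pool.Agent.H77.K4.N1
import Pool.Agent.H77.SV.Crt

/-!
# L10: sums over `Bset` and the number of classes

`sum_B`: there is `c > 0` with `sum_(b ∈ Bset w z) 1/b ≥ c log z / log w` for `2 ≤ w ≤ z`. Proof. Every
`n ≤ z` is `n = n1 s^2 b` with `n1` composed of primes `≤ w` and `b ∈ Bset w z` (the part of `n` composed
of primes `> w` is `s^2 b`, `b` squarefree). So
`log z ≤ sum_(n ≤ z) 1/n ≤ (prod_(p ≤ w) (1 - 1/p)^(-1)) (sum 1/s^2) sum_b 1/b ≤ C log w * 2 * sum_b 1/b`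
(Mertens: `prod_(p ≤ w) (1-1/p)^(-1) ≤ exp (sum_(p ≤ w) (1/p + 1/p^2)) ≤ C log w`, `mert2` with
`x = 2`).

`sum_BB`: the same for coprime pairs: `≥ c (log z/log w)^2` for `384 ≤ w ≤ z`. Proof. The pairs
`(b, c)` which are not coprime have a common prime `p > w`, and contribute at most
`sum_(p > w) (1/p^2) (sum_b 1/b)^2 ≤ (1/w) (sum_b 1/b)^2` (`b = p b'`, `b' ∈ Bset`).

`card_Cl`: `# Cl w / φ(WW w)^2 ≥ c / log w` for `w ≥ 3`. Proof. By the Chinese remainder theorem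
`# Cl = prod_(p ∈ oP w) (p-1)(p-2)` (modulo 16 exactly one class pair), `φ(WW) = 8 prod (p-1)`. So the
ratio is `(1/64) prod (p-2)/(p-1) = (1/64) prod (1 - 1/(p-1)) ≥ c exp (- sum_(3 ≤ p ≤ w) 1/p)`
(`1 - u ≥ exp (-u - u^2)` for `u ≤ 1/2`, `sum 1/(p-1) - 1/p` and `sum 1/(p-1)^2` converge).
-/

set_option autoImplicit false

namespace Pool.Agent.H77.K4

open Finset Pool.Agent.H77.SV

private theorem sum_inv_primes_le : ∃ C : ℝ, 0 < C ∧ ∀ w : ℕ, 2 ≤ w →
    ∑ p ∈ (Ioc 2 w).filter Nat.Prime, 1 / (p : ℝ) ≤ Real.log (Real.log w) + C := by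
  obtain ⟨C, hC0, hC⟩ := mert2
  refine ⟨|Real.log (Real.log 2)| + C / Real.log 2, ?_, fun w hw => ?_⟩
  · have : 0 < Real.log 2 := Real.log_pos (by norm_num)
    positivity
  · have h := (abs_le.1 (hC 2 w le_rfl hw)).2
    push_cast at h
    have h2 := neg_abs_le (Real.log (Real.log 2))
    linarith

private theorem prod_primes_le : ∃ C : ℝ, 0 < C ∧ ∀ w : ℕ, 2 ≤ w →
    ∏ p ∈ (Ioc 0 w).filter Nat.Prime, (1 + 1 / (p : ℝ)) ≤ C * Real.log w := by
  obtain ⟨C, hC0, hC⟩ := sum_inv_primes_le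
  refine ⟨Real.exp (1 / 2 + C), Real.exp_pos _, fun w hw => ?_⟩
  have hlw : 0 < Real.log w := Real.log_pos (by exact_mod_cast (by omega : 1 < w))
  have e : (Ioc 0 w).filter Nat.Prime = insert 2 ((Ioc 2 w).filter Nat.Prime) := by
    ext p
    simp only [mem_filter, mem_Ioc, mem_insert]
    constructor
    · rintro ⟨⟨h0, h1⟩, h2⟩
      rcases h2.two_le.eq_or_lt with h | h
      · left; exact h.symm
      · right; exact ⟨⟨h, h1⟩, h2⟩
    · rintro (rfl | ⟨⟨h0, h1⟩, h2⟩)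
      · exact ⟨⟨by norm_num, hw⟩, Nat.prime_two⟩
      · exact ⟨⟨by omega, h1⟩, h2⟩
  calc ∏ p ∈ (Ioc 0 w).filter Nat.Prime, (1 + 1 / (p : ℝ))
      ≤ ∏ p ∈ (Ioc 0 w).filter Nat.Prime, Real.exp (1 / (p : ℝ)) := by
        apply prod_le_prod
        · intro p _; positivity
        · intro p _
          have := Real.add_one_le_exp (1 / (p : ℝ))
          linarith
    _ = Real.exp (∑ p ∈ (Ioc 0 w).filter Nat.Prime, 1 / (p : ℝ)) := (Real.exp_sum _ _).symm
    _ ≤ Real.exp ((1 / 2 + C) + Real.log (Real.log w)) := by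
        apply Real.exp_le_exp.2
        rw [e, sum_insert (by simp)]
        have := hC w hw
        push_cast
        linarith
    _ = Real.exp (1 / 2 + C) * Real.log w := by
        rw [Real.exp_add, Real.exp_log hlw]

private theorem sum_sq_le (z : ℕ) : ∑ s ∈ Icc 1 z, 1 / (s : ℝ) ^ 2 ≤ 2 := by
  rcases Nat.eq_zero_or_pos z with rfl | hz
  · simp
  have h1 : Icc 1 z = insert 1 (Ioc 1 z) := by
    ext x; simp only [mem_Icc, mem_insert, mem_Ioc]; omega
  rw [h1, sum_insert (by simp)]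
  have h2 := sum_Ioc_inv_sq_le_sub (α := ℝ) (k := 1) (n := z) one_ne_zero hz
  simp only [inv_eq_one_div] at h2
  have h3 : (0 : ℝ) < z := by exact_mod_cast hz
  have h4 : 0 < 1 / (z : ℝ) := by positivity
  push_cast at h2 ⊢
  norm_num at h2 ⊢
  have h5 : (0:ℝ) < (z : ℝ)⁻¹ := by positivity
  linarith

/-- decomposition -/
private theorem decomp (w z n : ℕ) (hn : n ∈ Icc 1 z) : ∃ s ∈ Icc 1 z,
    ∃ S ∈ ((Ioc 0 w).filter Nat.Prime).powerset, ∃ b ∈ Bset w z, n = s ^ 2 * (∏ p ∈ S, p) * b := by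
  rw [mem_Icc] at hn
  obtain ⟨a, s, hab, hsq⟩ := Nat.sq_mul_squarefree n
  have hs0 : s ≠ 0 := by
    rintro rfl
    simp at hab; omega
  have ha0 : a ≠ 0 := hsq.ne_zero
  have hprod : ∏ p ∈ a.primeFactors, p = a := Nat.prod_primeFactors_of_squarefree hsq
  set S := a.primeFactors.filter (· ≤ w) with hS
  set R := a.primeFactors.filter (fun p => ¬ p ≤ w) with hR
  have hSR : (∏ p ∈ S, p) * (∏ p ∈ R, p) = a := by
    rw [hS, hR, prod_filter_mul_prod_filter_not, hprod]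
  have hRdvd : (∏ p ∈ R, p) ∣ a := Dvd.intro_left _ hSR
  have hR0 : (∏ p ∈ R, p) ≠ 0 := ne_zero_of_dvd_ne_zero ha0 hRdvd
  have hale : a ≤ n := by
    rw [← hab]
    exact Nat.le_mul_of_pos_left _ (by positivity)
  refine ⟨s, ?_, S, ?_, ∏ p ∈ R, p, ?_, ?_⟩
  · rw [mem_Icc]
    refine ⟨by omega, ?_⟩
    have h1 : s ≤ s ^ 2 := Nat.le_self_pow (by norm_num) s
    have h2 : s ^ 2 ≤ n := by
      rw [← hab]; exact Nat.le_mul_of_pos_right _ (by omega)
    omega
  · rw [mem_powerset]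
    intro p hp
    rw [hS, mem_filter] at hp
    have hpp := Nat.prime_of_mem_primeFactors hp.1
    rw [mem_filter, mem_Ioc]
    exact ⟨⟨hpp.pos, hp.2⟩, hpp⟩
  · rw [Bset, mem_filter, mem_Icc]
    refine ⟨⟨Nat.pos_of_ne_zero hR0, ?_⟩, hsq.squarefree_of_dvd hRdvd, ?_⟩
    · exact ((Nat.le_of_dvd (Nat.pos_of_ne_zero ha0) hRdvd).trans hale).trans hn.2
    · intro p hp
      rw [Nat.mem_primeFactors] at hp
      obtain ⟨hpp, hpd, _⟩ := hp
      obtain ⟨q, hq, hpq⟩ := (hpp.prime.dvd_finsetProd_iff _).1 hpd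
      rw [hR, mem_filter] at hq
      have hqp := Nat.prime_of_mem_primeFactors hq.1
      have : p = q := (Nat.prime_dvd_prime_iff_eq hpp hqp).1 hpq
      subst this
      omega
  · rw [mul_assoc, hSR, hab]

theorem sum_B : ∃ c : ℝ, 0 < c ∧ ∀ w z : ℕ, 2 ≤ w → w ≤ z →
    c * (Real.log z / Real.log w) ≤ ∑ b ∈ Bset w z, 1 / (b : ℝ) := by
  obtain ⟨C, hC0, hC⟩ := prod_primes_le
  refine ⟨1 / (2 * C), by positivity, fun w z hw hwz => ?_⟩
  have hlw : 0 < Real.log w := Real.log_pos (by exact_mod_cast (by omega : 1 < w))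
  classical
  choose! s hs S hS b hb hn using decomp w z
  set P := (Ioc 0 w).filter Nat.Prime with hP
  set F : ℕ × Finset ℕ × ℕ → ℝ := fun x => (1 / (x.1 : ℝ) ^ 2) * (∏ p ∈ x.2.1, (1 / (p : ℝ))) * (1 / (x.2.2 : ℝ))
    with hF
  have h1 : ∑ n ∈ Icc 1 z, 1 / (n : ℝ) = ∑ n ∈ Icc 1 z, F (s n, S n, b n) := by
    apply sum_congr rfl
    intro n hn'
    have := hn n hn'
    simp only [hF]
    conv_lhs => rw [this]
    push_cast
    rw [prod_div_distrib]
    simp only [prod_const_one]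
    rw [one_div_mul_one_div, one_div_mul_one_div]
  have hinj : Set.InjOn (fun n => (s n, S n, b n)) (Icc 1 z : Finset ℕ) := by
    intro m hm n hn' hmn
    simp only [Prod.mk.injEq] at hmn
    rw [hn m hm, hn n hn', hmn.1, hmn.2.1, hmn.2.2]
  have h2 : ∑ n ∈ Icc 1 z, F (s n, S n, b n) = ∑ x ∈ (Icc 1 z).image (fun n => (s n, S n, b n)), F x :=
    (sum_image hinj).symm
  have h3 : ∑ x ∈ (Icc 1 z).image (fun n => (s n, S n, b n)), F x ≤
      ∑ x ∈ (Icc 1 z) ×ˢ (P.powerset ×ˢ Bset w z), F x := by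
    apply sum_le_sum_of_subset_of_nonneg
    · intro x hx
      rw [mem_image] at hx
      obtain ⟨n, hn', rfl⟩ := hx
      rw [mem_product, mem_product]
      exact ⟨hs n hn', hS n hn', hb n hn'⟩
    · intro x _ _
      simp only [hF]
      positivity
  have h4 : ∑ x ∈ (Icc 1 z) ×ˢ (P.powerset ×ˢ Bset w z), F x =
      (∑ s ∈ Icc 1 z, 1 / (s : ℝ) ^ 2) * ((∏ p ∈ P, (1 + 1 / (p : ℝ))) * ∑ b ∈ Bset w z, 1 / (b : ℝ)) := by
    rw [sum_product, sum_mul]
    apply sum_congr rfl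
    intro s _
    rw [prod_one_add, sum_mul_sum, mul_sum, sum_product]
    apply sum_congr rfl
    intro t _
    rw [mul_sum]
    apply sum_congr rfl
    intro b _
    simp only [hF]
    ring
  have h5 : Real.log z ≤ ∑ n ∈ Icc 1 z, 1 / (n : ℝ) := by
    have h6 := log_add_one_le_harmonic z
    rw [harmonic_eq_sum_Icc] at h6
    push_cast at h6
    simp only [one_div]
    refine le_trans ?_ h6
    apply Real.log_le_log
    · exact_mod_cast (by omega : 0 < z)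
    · linarith
  have hB0 : 0 ≤ ∑ b ∈ Bset w z, 1 / (b : ℝ) := sum_nonneg fun _ _ => by positivity
  have hP0 : 0 ≤ ∏ p ∈ P, (1 + 1 / (p : ℝ)) := prod_nonneg fun _ _ => by positivity
  have h7 : Real.log z ≤ 2 * (C * Real.log w * ∑ b ∈ Bset w z, 1 / (b : ℝ)) := by
    calc Real.log z ≤ (∑ s ∈ Icc 1 z, 1 / (s : ℝ) ^ 2) *
        ((∏ p ∈ P, (1 + 1 / (p : ℝ))) * ∑ b ∈ Bset w z, 1 / (b : ℝ)) := by
          rw [← h4]; linarith
      _ ≤ 2 * (C * Real.log w * ∑ b ∈ Bset w z, 1 / (b : ℝ)) := by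
          apply mul_le_mul (sum_sq_le z) _ (by positivity) (by norm_num)
          exact mul_le_mul_of_nonneg_right (hC w hw) hB0
  rw [div_mul_div_comm, one_mul, div_le_iff₀ (by positivity)]
  linarith

private theorem sum_div_le (w z p : ℕ) (hp : p.Prime) :
    ∑ b ∈ (Bset w z).filter (p ∣ ·), 1 / (b : ℝ) ≤ 1 / (p : ℝ) * ∑ b ∈ Bset w z, 1 / (b : ℝ) := by
  classical
  rw [mul_sum]
  have h1 : ∑ b ∈ (Bset w z).filter (p ∣ ·), 1 / (b : ℝ) =
      ∑ b ∈ (Bset w z).filter (p ∣ ·), 1 / (p : ℝ) * (1 / ((b / p : ℕ) : ℝ)) := by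
    apply sum_congr rfl
    intro b hb
    rw [mem_filter] at hb
    obtain ⟨k, hk⟩ := hb.2
    rw [hk, Nat.mul_div_cancel_left _ hp.pos]
    push_cast
    rw [one_div_mul_one_div]
  rw [h1]
  have hinj : Set.InjOn (fun b => b / p) ((Bset w z).filter (p ∣ ·) : Finset ℕ) := by
    intro a ha b hb hab
    simp only [coe_filter, Set.mem_ofPred_eq] at ha hb
    simp only at hab
    rw [← Nat.mul_div_cancel' ha.2, ← Nat.mul_div_cancel' hb.2, hab]
  rw [← sum_image (f := fun b : ℕ => 1 / (p : ℝ) * (1 / (b : ℝ))) hinj]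
  apply sum_le_sum_of_subset_of_nonneg
  · intro x hx
    rw [mem_image] at hx
    obtain ⟨b, hb, rfl⟩ := hx
    rw [mem_filter] at hb
    obtain ⟨hb, hpb⟩ := hb
    rw [Bset, mem_filter, mem_Icc] at hb ⊢
    obtain ⟨⟨h1, h2⟩, h3, h4⟩ := hb
    have hd : b / p ∣ b := Nat.div_dvd_of_dvd hpb
    have hpos : 0 < b / p := Nat.div_pos (Nat.le_of_dvd (by omega) hpb) hp.pos
    refine ⟨⟨hpos, (Nat.div_le_self _ _).trans h2⟩, h3.squarefree_of_dvd hd, ?_⟩
    intro q hq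
    exact h4 q (Nat.primeFactors_mono hd (by omega) hq)
  · intro x _ _
    positivity

theorem sum_BB : ∃ c : ℝ, 0 < c ∧ ∀ w z : ℕ, 384 ≤ w → w ≤ z →
    c * (Real.log z / Real.log w) ^ 2 ≤
      ∑ b ∈ Bset w z, ∑ e ∈ (Bset w z).filter (fun e => b.Coprime e), 1 / ((b : ℝ) * e) := by
  classical
  obtain ⟨c, hc0, hc⟩ := sum_B
  refine ⟨c ^ 2 / 2, by positivity, fun w z hw hwz => ?_⟩
  have hlw : 0 < Real.log w := Real.log_pos (by exact_mod_cast (by omega : 1 < w))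
  have hlz : 0 < Real.log z := Real.log_pos (by exact_mod_cast (by omega : 1 < z))
  set B := Bset w z with hB
  set σ := ∑ b ∈ B, 1 / (b : ℝ) with hσ
  have hσ0 : 0 ≤ σ := sum_nonneg fun _ _ => by positivity
  have h1 := hc w z (by omega) hwz
  have h2 : c ^ 2 * (Real.log z / Real.log w) ^ 2 ≤ σ ^ 2 := by
    rw [← mul_pow]
    exact pow_le_pow_left₀ (by positivity) h1 2
  have h3 : σ ^ 2 = ∑ b ∈ B, ∑ e ∈ B.filter (fun e => b.Coprime e), 1 / ((b : ℝ) * e) +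
      ∑ b ∈ B, ∑ e ∈ B.filter (fun e => ¬ b.Coprime e), 1 / ((b : ℝ) * e) := by
    rw [← sum_add_distrib, sq, hσ, sum_mul_sum]
    apply sum_congr rfl
    intro b _
    rw [sum_filter_add_sum_filter_not]
    apply sum_congr rfl
    intro e _
    rw [one_div_mul_one_div]
  have h4 : ∑ b ∈ B, ∑ e ∈ B.filter (fun e => ¬ b.Coprime e), 1 / ((b : ℝ) * e) ≤
      ∑ p ∈ (Ioc w z).filter Nat.Prime, (∑ b ∈ B.filter (p ∣ ·), 1 / (b : ℝ)) ^ 2 := by
    have h5 : ∀ b ∈ B, ∑ e ∈ B.filter (fun e => ¬ b.Coprime e), 1 / ((b : ℝ) * e) ≤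
        ∑ e ∈ B, ∑ p ∈ (Ioc w z).filter Nat.Prime,
          (if p ∣ b then 1 / (b : ℝ) else 0) * (if p ∣ e then 1 / (e : ℝ) else 0) := by
      intro b hb
      rw [sum_filter]
      apply sum_le_sum
      intro e he
      have hnn : ∀ p ∈ (Ioc w z).filter Nat.Prime,
          0 ≤ (if p ∣ b then 1 / (b : ℝ) else 0) * (if p ∣ e then 1 / (e : ℝ) else 0) := by
        intro p _
        apply mul_nonneg <;> split_ifs <;> positivity
      by_cases h : b.Coprime e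
      · rw [if_neg (not_not.2 h)]
        exact sum_nonneg hnn
      · rw [if_pos h]
        obtain ⟨p, hp, hpb, hpe⟩ := Nat.Prime.not_coprime_iff_dvd.1 h
        have hb' := hb
        rw [hB, Bset, mem_filter, mem_Icc] at hb'
        have hmem : p ∈ (Ioc w z).filter Nat.Prime := by
          rw [mem_filter, mem_Ioc]
          refine ⟨⟨?_, ?_⟩, hp⟩
          · apply hb'.2.2
            rw [Nat.mem_primeFactors]
            exact ⟨hp, hpb, by omega⟩
          · exact (Nat.le_of_dvd (by omega) hpb).trans hb'.1.2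
        refine le_trans ?_ (single_le_sum hnn hmem)
        rw [if_pos hpb, if_pos hpe, one_div_mul_one_div]
    refine (sum_le_sum h5).trans (le_of_eq ?_)
    have h6 : ∀ b ∈ B, ∑ e ∈ B, ∑ p ∈ (Ioc w z).filter Nat.Prime,
          (if p ∣ b then 1 / (b : ℝ) else 0) * (if p ∣ e then 1 / (e : ℝ) else 0) =
        ∑ p ∈ (Ioc w z).filter Nat.Prime, (if p ∣ b then 1 / (b : ℝ) else 0) *
          ∑ e ∈ B, (if p ∣ e then 1 / (e : ℝ) else 0) := by
      intro b _
      rw [sum_comm]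
      apply sum_congr rfl
      intro p _
      rw [mul_sum]
    rw [sum_congr rfl h6, sum_comm]
    apply sum_congr rfl
    intro p _
    rw [← sum_mul, sum_filter, sq]
  have h7 : ∑ p ∈ (Ioc w z).filter Nat.Prime, (∑ b ∈ B.filter (p ∣ ·), 1 / (b : ℝ)) ^ 2 ≤
      σ ^ 2 / 2 := by
    have h8 : ∀ p ∈ (Ioc w z).filter Nat.Prime, (∑ b ∈ B.filter (p ∣ ·), 1 / (b : ℝ)) ^ 2 ≤
        ((p : ℝ) ^ 2)⁻¹ * σ ^ 2 := by
      intro p hp
      rw [mem_filter] at hp
      have h9 := sum_div_le w z p hp.2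
      calc _ ≤ (1 / (p : ℝ) * σ) ^ 2 := pow_le_pow_left₀ (sum_nonneg fun _ _ => by positivity) h9 2
        _ = _ := by rw [mul_pow, one_div, inv_pow]
    refine (sum_le_sum h8).trans ?_
    rw [← sum_mul]
    have h10 : ∑ p ∈ (Ioc w z).filter Nat.Prime, ((p : ℝ) ^ 2)⁻¹ ≤ 1 / 2 := by
      calc ∑ p ∈ (Ioc w z).filter Nat.Prime, ((p : ℝ) ^ 2)⁻¹ ≤ ∑ p ∈ Ioc w z, ((p : ℝ) ^ 2)⁻¹ :=
            sum_le_sum_of_subset_of_nonneg (filter_subset _ _) fun _ _ _ => by positivity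
        _ ≤ (w : ℝ)⁻¹ - (z : ℝ)⁻¹ := sum_Ioc_inv_sq_le_sub (by omega) hwz
        _ ≤ 1 / 2 := by
            have h11 : (0 : ℝ) ≤ (z : ℝ)⁻¹ := by positivity
            have h12 : (w : ℝ)⁻¹ ≤ (2 : ℝ)⁻¹ := by
              apply inv_anti₀ (by norm_num)
              exact_mod_cast (by omega : 2 ≤ w)
            linarith
    calc _ ≤ 1 / 2 * σ ^ 2 := mul_le_mul_of_nonneg_right h10 (sq_nonneg _)
      _ = _ := by ring
  linarith

private theorem card_loc (p : ℕ) (h3 : 3 ≤ p) :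
    (p - 1) * (p - 2) ≤ ((Ico (0 : ℤ) (p : ℤ) ×ˢ Ico (0 : ℤ) (p : ℤ)).filter
      fun x => ¬ (p : ℤ) ∣ x.1 ∧ ¬ (p : ℤ) ∣ x.2 ∧ ¬ (p : ℤ) ∣ x.1 + x.2).card := by
  classical
  -- inject `(a, b) ∈ Icc 1 (p-1) × (Icc 1 (p-1) minus p - a)`
  have h1 : ((Icc 1 (p - 1)).sigma fun a => (Icc 1 (p - 1)).erase (p - a)).card =
      (p - 1) * (p - 2) := by
    rw [card_sigma]
    have : ∀ a ∈ Icc 1 (p - 1), ((Icc 1 (p - 1)).erase (p - a)).card = p - 2 := by
      intro a ha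
      rw [mem_Icc] at ha
      rw [card_erase_of_mem (by rw [mem_Icc]; omega), Nat.card_Icc]
      omega
    rw [sum_congr rfl this, sum_const, Nat.card_Icc, smul_eq_mul]
    congr 1
  rw [← h1]
  apply card_le_card_of_injOn (fun x => ((x.1 : ℤ), (x.2 : ℤ)))
  · rintro ⟨a, b⟩ hx
    simp only [coe_sigma, Set.mem_sigma_iff, mem_coe, mem_Icc, mem_erase] at hx
    obtain ⟨ha, hb1, hb2⟩ := hx
    simp only [coe_filter, mem_product, mem_Ico, Set.mem_ofPred_eq]
    refine ⟨⟨by omega, by omega⟩, ?_, ?_, ?_⟩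
    · intro hd
      have := Int.natCast_dvd_natCast.1 hd
      have := Nat.le_of_dvd (by omega) this
      omega
    · intro hd
      have := Int.natCast_dvd_natCast.1 hd
      have := Nat.le_of_dvd (by omega) this
      omega
    · intro hd
      have hd' : p ∣ a + b := by exact_mod_cast hd
      obtain ⟨k, hk⟩ := hd'
      have hk1 : k < 2 := by
        by_contra hcon
        have : p * 2 ≤ p * k := Nat.mul_le_mul_left _ (by omega)
        omega
      have hk0 : k ≠ 0 := by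
        rintro rfl
        omega
      have : k = 1 := by omega
      subst this
      omega
  · rintro ⟨a, b⟩ _ ⟨c, d⟩ _ h
    simp only [Prod.mk.injEq, Nat.cast_inj] at h
    rw [h.1, h.2]

private theorem mem_oP {w p : ℕ} : p ∈ oP w ↔ (2 < p ∧ p ≤ w) ∧ p.Prime := by
  rw [oP, mem_filter, mem_Ioc]

private theorem card_Cl_ge (w : ℕ) : ∏ p ∈ oP w, ((p - 1) * (p - 2)) ≤ (Cl w).card := by
  classical
  set Q := insert 2 (oP w) with hQ
  have h2 : 2 ∉ oP w := by rw [mem_oP]; omega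
  set e : ℕ → ℕ := fun p => if p = 2 then 4 else 1 with he
  set L : ℕ → ℤ → ℤ → Prop := fun p x y => if p = 2 then x % 16 = 1 ∧ y % 16 = 1 else
    ¬ (p : ℤ) ∣ x ∧ ¬ (p : ℤ) ∣ y ∧ ¬ (p : ℤ) ∣ x + y with hL
  have hprime : ∀ p ∈ Q, p.Prime := by
    intro p hp
    rw [hQ, mem_insert] at hp
    rcases hp with rfl | hp
    · exact Nat.prime_two
    · exact (mem_oP.1 hp).2
  have hne : ∀ p ∈ oP w, p ≠ 2 := by
    rintro p hp rfl
    exact h2 hp
  have hcrt := crt2 Q hprime e L (by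
    intro p hp x y x' y' hx hy hxy
    simp only [hL, he] at hx hy hxy ⊢
    by_cases hp2 : p = 2
    · subst hp2
      simp only [if_true] at hx hy hxy ⊢
      have hx' : x % 16 = x' % 16 := hx
      have hy' : y % 16 = y' % 16 := hy
      omega
    · rw [if_neg hp2] at hx hy hxy ⊢
      rw [pow_one] at hx hy
      have h1 := hx.add hy
      refine ⟨fun h => hxy.1 ?_, fun h => hxy.2.1 ?_, fun h => hxy.2.2 ?_⟩
      · exact (Int.ModEq.dvd_iff hx).2 h
      · exact (Int.ModEq.dvd_iff hy).2 h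
      · exact (Int.ModEq.dvd_iff h1).2 h)
  have hprod : ∏ p ∈ Q, ((p : ℤ) ^ e p) = (WW w : ℤ) := by
    rw [hQ, prod_insert h2, WW]
    push_cast
    congr 1
    apply prod_congr rfl
    intro p hp
    simp only [he, if_neg (hne p hp), pow_one]
  rw [hprod] at hcrt
  have hge : ∏ p ∈ oP w, ((p - 1) * (p - 2)) ≤ ∏ p ∈ Q, ((Ico (0 : ℤ) ((p : ℤ) ^ e p) ×ˢ
      Ico (0 : ℤ) ((p : ℤ) ^ e p)).filter fun x => L p x.1 x.2).card := by
    rw [hQ, prod_insert h2]
    have hA : 1 ≤ ((Ico (0 : ℤ) (((2 : ℕ) : ℤ) ^ e 2) ×ˢ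
      Ico (0 : ℤ) (((2 : ℕ) : ℤ) ^ e 2)).filter fun x => L 2 x.1 x.2).card := by
      rw [Nat.one_le_iff_ne_zero, card_ne_zero]
      refine ⟨(1, 1), ?_⟩
      simp only [he, hL, mem_filter, mem_product, mem_Ico, if_true]
      norm_num
    have hBB : ∏ p ∈ oP w, ((p - 1) * (p - 2)) ≤ ∏ p ∈ oP w, ((Ico (0 : ℤ) ((p : ℤ) ^ e p) ×ˢ
      Ico (0 : ℤ) ((p : ℤ) ^ e p)).filter fun x => L p x.1 x.2).card := by
      apply prod_le_prod'
      intro p hp
      have h := card_loc p (mem_oP.1 hp).1.1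
      simp only [he, hL, if_neg (hne p hp), pow_one]
      exact h
    calc _ = 1 * ∏ p ∈ oP w, ((p - 1) * (p - 2)) := (one_mul _).symm
      _ ≤ _ := Nat.mul_le_mul hA hBB
  refine (hge.trans (le_of_eq (by convert hcrt.symm))).trans (?_ : ((Ico (0 : ℤ) (WW w : ℤ) ×ˢ
    Ico (0 : ℤ) (WW w : ℤ)).filter fun x => ∀ p ∈ Q, L p x.1 x.2).card ≤ (Cl w).card)
  apply card_le_card_of_injOn (fun x => (x.1.toNat, x.2.toNat))
  · rintro ⟨x, y⟩ hx
    simp only [coe_filter, mem_product, mem_Ico, Set.mem_ofPred_eq] at hx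
    obtain ⟨⟨⟨hx0, hx1⟩, hy0, hy1⟩, hl⟩ := hx
    lift x to ℕ using hx0
    lift y to ℕ using hy0
    simp only [Int.toNat_natCast, Cl, coe_filter, mem_product, mem_range, Set.mem_ofPred_eq]
    have hl2 := hl 2 (mem_insert_self _ _)
    simp only [hL, if_true] at hl2
    refine ⟨⟨by omega, by omega⟩, by omega, by omega, ?_⟩
    intro p hp
    have hlp := hl p (mem_insert_of_mem hp)
    simp only [hL, if_neg (hne p hp)] at hlp
    exact_mod_cast hlp
  · rintro ⟨a, b⟩ ha ⟨c, d⟩ hc h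
    simp only [coe_filter, mem_product, mem_Ico, Set.mem_ofPred_eq] at ha hc
    simp only [Prod.mk.injEq] at h
    ext
    · show a = c
      omega
    · show b = d
      omega

private theorem totient_prod_primes (S : Finset ℕ) (hS : ∀ p ∈ S, p.Prime) :
    (∏ p ∈ S, p).totient = ∏ p ∈ S, (p - 1) := by
  classical
  induction S using Finset.induction_on with
  | empty => simp
  | insert q S hq ih =>
    rw [prod_insert hq, prod_insert hq, Nat.totient_mul, ih fun p hp => hS p (mem_insert_of_mem hp),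
      Nat.totient_prime (hS q (mem_insert_self _ _))]
    apply Nat.Coprime.prod_right
    intro p hp
    rw [Nat.coprime_primes (hS q (mem_insert_self _ _)) (hS p (mem_insert_of_mem hp))]
    rintro rfl
    exact hq hp

private theorem totient_WW (w : ℕ) : (WW w).totient = 8 * ∏ p ∈ oP w, (p - 1) := by
  rw [WW, Nat.totient_mul, totient_prod_primes _ fun p hp => (mem_oP.1 hp).2]
  · congr 1
  · apply Nat.Coprime.prod_right
    intro p hp
    have h := mem_oP.1 hp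
    have : Nat.Coprime (2 ^ 4) p := by
      apply Nat.Coprime.pow_left
      rw [Nat.coprime_primes Nat.prime_two h.2]
      omega
    exact this

private theorem prod_ge : ∃ c : ℝ, 0 < c ∧ ∀ w : ℕ, 3 ≤ w →
    c / Real.log w ≤ ∏ p ∈ oP w, (((p : ℝ) - 2) / ((p : ℝ) - 1)) := by
  obtain ⟨C, hC0, hC⟩ := sum_inv_primes_le
  refine ⟨Real.exp (-(C + 3)), Real.exp_pos _, fun w hw => ?_⟩
  have hlw : 0 < Real.log w := Real.log_pos (by exact_mod_cast (by omega : 1 < w))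
  have h1 : ∀ p ∈ oP w, Real.exp (-(1 / (p : ℝ) + 6 * ((p : ℝ) ^ 2)⁻¹)) ≤
      ((p : ℝ) - 2) / ((p : ℝ) - 1) := by
    intro p hp
    have hp3 : (3 : ℝ) ≤ p := by exact_mod_cast (mem_oP.1 hp).1.1
    have hpos : 0 < ((p : ℝ) - 2) / ((p : ℝ) - 1) := div_pos (by linarith) (by linarith)
    rw [← Real.le_log_iff_exp_le hpos]
    have h2 := Real.one_sub_inv_le_log_of_pos hpos
    refine le_trans ?_ h2
    rw [inv_div]
    have h3 : 1 - ((p : ℝ) - 1) / ((p : ℝ) - 2) = -(1 / ((p : ℝ) - 2)) := by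
      have : (p : ℝ) - 2 ≠ 0 := by linarith
      field_simp
      ring
    rw [h3, neg_le_neg_iff]
    have h4 : 1 / ((p : ℝ) - 2) = 1 / (p : ℝ) + 2 / ((p : ℝ) * ((p : ℝ) - 2)) := by
      have : (p : ℝ) - 2 ≠ 0 := by linarith
      field_simp
      ring
    rw [h4]
    have h5 : 2 / ((p : ℝ) * ((p : ℝ) - 2)) ≤ 6 * ((p : ℝ) ^ 2)⁻¹ := by
      rw [← div_eq_mul_inv, div_le_div_iff₀ (by nlinarith) (by positivity)]
      nlinarith
    linarith
  calc Real.exp (-(C + 3)) / Real.log w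
      = Real.exp (-(Real.log (Real.log w) + C + 3)) := by
        rw [show -(Real.log (Real.log w) + C + 3) = -(C + 3) - Real.log (Real.log w) by ring,
          Real.exp_sub, Real.exp_log hlw]
    _ ≤ Real.exp (∑ p ∈ oP w, (-(1 / (p : ℝ) + 6 * ((p : ℝ) ^ 2)⁻¹))) := by
        apply Real.exp_le_exp.2
        rw [sum_neg_distrib, neg_le_neg_iff, sum_add_distrib, ← mul_sum]
        have h6 := hC w (by omega)
        have h7 : ∑ p ∈ oP w, ((p : ℝ) ^ 2)⁻¹ ≤ 1 / 2 := by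
          calc ∑ p ∈ oP w, ((p : ℝ) ^ 2)⁻¹ ≤ ∑ p ∈ Ioc 2 w, ((p : ℝ) ^ 2)⁻¹ :=
                sum_le_sum_of_subset_of_nonneg (filter_subset _ _) fun _ _ _ => by positivity
            _ ≤ ((2 : ℕ) : ℝ)⁻¹ - (w : ℝ)⁻¹ := sum_Ioc_inv_sq_le_sub (by omega) (by omega)
            _ ≤ 1 / 2 := by
                have h11 : (0 : ℝ) ≤ (w : ℝ)⁻¹ := by positivity
                push_cast
                linarith
        have h8 : ∑ p ∈ oP w, 1 / (p : ℝ) ≤ Real.log (Real.log w) + C := h6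
        linarith
    _ = ∏ p ∈ oP w, Real.exp (-(1 / (p : ℝ) + 6 * ((p : ℝ) ^ 2)⁻¹)) := Real.exp_sum _ _
    _ ≤ _ := prod_le_prod (fun _ _ => (Real.exp_pos _).le) h1

theorem card_Cl : ∃ c : ℝ, 0 < c ∧ ∀ w : ℕ, 3 ≤ w →
    c / Real.log w ≤ ((Cl w).card : ℝ) / ((WW w).totient : ℝ) ^ 2 := by
  obtain ⟨c, hc0, hc⟩ := prod_ge
  refine ⟨c / 64, by positivity, fun w hw => ?_⟩
  have h1 := hc w hw
  have h2 : (∏ p ∈ oP w, (((p : ℝ) - 1) * ((p : ℝ) - 2))) ≤ ((Cl w).card : ℝ) := by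
    have h := card_Cl_ge w
    have h' : ((∏ p ∈ oP w, ((p - 1) * (p - 2)) : ℕ) : ℝ) ≤ ((Cl w).card : ℝ) := by exact_mod_cast h
    refine le_trans (le_of_eq ?_) h'
    push_cast
    apply prod_congr rfl
    intro p hp
    have hp3 := (mem_oP.1 hp).1.1
    rw [Nat.cast_sub (by omega), Nat.cast_sub (by omega)]
    push_cast
    ring
  have h3 : ((WW w).totient : ℝ) = 8 * ∏ p ∈ oP w, ((p : ℝ) - 1) := by
    rw [totient_WW]
    push_cast
    congr 1
    apply prod_congr rfl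
    intro p hp
    have hp3 := (mem_oP.1 hp).1.1
    rw [Nat.cast_sub (by omega)]
    push_cast
    ring
  have hpos : 0 < ∏ p ∈ oP w, ((p : ℝ) - 1) := by
    apply prod_pos
    intro p hp
    have hp3 : (3 : ℝ) ≤ p := by exact_mod_cast (mem_oP.1 hp).1.1
    linarith
  rw [h3, le_div_iff₀ (by positivity)]
  refine le_trans ?_ h2
  have h4 : ∏ p ∈ oP w, (((p : ℝ) - 1) * ((p : ℝ) - 2)) =
      (∏ p ∈ oP w, (((p : ℝ) - 2) / ((p : ℝ) - 1))) * (∏ p ∈ oP w, ((p : ℝ) - 1)) ^ 2 := by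
    rw [← prod_pow, ← prod_mul_distrib]
    apply prod_congr rfl
    intro p hp
    have hp3 : (3 : ℝ) ≤ p := by exact_mod_cast (mem_oP.1 hp).1.1
    have : (p : ℝ) - 1 ≠ 0 := by linarith
    field_simp
  rw [h4]
  calc c / 64 / Real.log w * (8 * ∏ p ∈ oP w, ((p : ℝ) - 1)) ^ 2
      = c / Real.log w * (∏ p ∈ oP w, ((p : ℝ) - 1)) ^ 2 := by ring
    _ ≤ _ := mul_le_mul_of_nonneg_right h1 (sq_nonneg _)

end Pool.Agent.H77.K4
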