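import Pool.Agent.H77.K4.Defs4
import Pool.Agent.H12.Brun

/-!
# L6: the Brun-Hooley lower bound sieve, densities

`0 ≤ δ p ≤ 1/100` for `p ∈ A` and for every block `Λ_k = sum_(p ∈ A, blk y p = k) δ p ≤ 0.8`. Then
`sum_(D ⊆ A) lam y D prod_(p ∈ D) δ p ≥ 0.7 prod_(p ∈ A) (1 - δ p)`.

Proof. As in L5, the sum is `prod_k Y_k - sum_k E_k prod_(j ≠ k) Y_j`, with
`Y_k = sum_(i ≤ r_k) (-1)^i e_i(δ on A_k)`, `E_k = e_(r_k + 1)(δ on A_k)`, `r_k = 2k + 2`, products over
the blocks. Truncation at the even `r_k` gives `Y_k ≥ π_k = prod_(A_k) (1 - δ) > 0` (Bonferroni;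
`Pool.Agent.H12` has `bonferroni`/`tsum'` lemmas, see `H24/KS/AbSieve.lean`), and
`E_k ≤ Λ_k^(r_k+1)/(r_k+1)! ≤ 0.8^(2k+3)/(2k+3)!`. `π_k ≥ exp (- 1.02 Λ_k) ≥ 0.44`
(`1 - δ ≥ exp (-1.02 δ)` for `δ ≤ 1/100`). So
`sum = (prod Y_k) (1 - sum_k E_k/Y_k) ≥ (prod π_k) (1 - sum_k 0.8^(2k+3)/((2k+3)! 0.44)) ≥ 0.7 prod π_k`:
`0.8^3/6 = 0.0854`, `0.8^5/120 = 0.00274`, the rest is at most `0.0001`; sum `≤ 0.089`,
divided by `0.44`: `≤ 0.21`.
-/

set_option autoImplicit false

namespace Pool.Agent.H77.K4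

open Finset Pool.Agent.H77.SV

private theorem l6_blocks (u : ℕ → ℝ) (b : ℕ → ℕ) (f : ℕ → ℕ → ℝ) (K : Finset ℕ) :
    ∀ A : Finset ℕ, (∀ p ∈ A, b p ∈ K) →
    ∑ D ∈ A.powerset, (∏ p ∈ D, u p) * ∏ k ∈ K, f k (D.filter fun p => b p = k).card =
    ∏ k ∈ K, ∑ D ∈ (A.filter fun p => b p = k).powerset, (∏ p ∈ D, u p) * f k D.card := by
  induction K using Finset.induction_on with
  | empty =>
    intro A hA
    have : A = ∅ := Finset.eq_empty_of_forall_notMem fun p hp => by simpa using hA p hp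
    subst this
    simp
  | insert k0 K hk0 ih =>
    intro A hA
    rw [Finset.prod_insert hk0]
    have hA' : ∀ p ∈ A.filter (fun p => b p ≠ k0), b p ∈ K := by
      intro p hp
      rw [Finset.mem_filter] at hp
      rcases Finset.mem_insert.1 (hA p hp.1) with h | h
      · exact absurd h hp.2
      · exact h
    have ih' := ih (A.filter fun p => b p ≠ k0) hA'
    have hfil : ∀ k ∈ K, ((A.filter fun p => b p ≠ k0).filter fun p => b p = k) =
        A.filter fun p => b p = k := by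
      intro k hk
      ext p
      simp only [Finset.mem_filter]
      constructor
      · rintro ⟨⟨h1, _⟩, h3⟩
        exact ⟨h1, h3⟩
      · rintro ⟨h1, h3⟩
        exact ⟨⟨h1, fun h => hk0 (by rw [← h, h3]; exact hk)⟩, h3⟩
    have ih2 : ∑ D ∈ (A.filter fun p => b p ≠ k0).powerset,
        (∏ p ∈ D, u p) * ∏ k ∈ K, f k (D.filter fun p => b p = k).card =
        ∏ k ∈ K, ∑ D ∈ (A.filter fun p => b p = k).powerset, (∏ p ∈ D, u p) * f k D.card := by
      rw [ih']
      exact Finset.prod_congr rfl fun k hk => by rw [hfil k hk]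
    rw [← ih2, Finset.sum_mul_sum, ← Finset.sum_product']
    refine Finset.sum_nbij' (fun D => (D.filter fun p => b p = k0, D.filter fun p => b p ≠ k0))
      (fun x => x.1 ∪ x.2) ?_ ?_ ?_ ?_ ?_
    · intro D hD
      rw [Finset.mem_powerset] at hD
      rw [Finset.mem_product, Finset.mem_powerset, Finset.mem_powerset]
      exact ⟨Finset.filter_subset_filter _ hD, Finset.filter_subset_filter _ hD⟩
    · intro x hx
      rw [Finset.mem_product, Finset.mem_powerset, Finset.mem_powerset] at hx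
      rw [Finset.mem_powerset]
      exact Finset.union_subset (hx.1.trans (Finset.filter_subset _ _))
        (hx.2.trans (Finset.filter_subset _ _))
    · intro D _
      exact Finset.filter_union_filter_not_eq _ _
    · rintro ⟨D0, D1⟩ hx
      rw [Finset.mem_product, Finset.mem_powerset, Finset.mem_powerset] at hx
      have h0 : ∀ p ∈ D0, b p = k0 := fun p hp => (Finset.mem_filter.1 (hx.1 hp)).2
      have h1 : ∀ p ∈ D1, b p ≠ k0 := fun p hp => (Finset.mem_filter.1 (hx.2 hp)).2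
      refine Prod.ext ?_ ?_
      · ext p
        simp only [Finset.mem_filter, Finset.mem_union]
        constructor
        · rintro ⟨h | h, h'⟩
          · exact h
          · exact absurd h' (h1 p h)
        · intro h
          exact ⟨Or.inl h, h0 p h⟩
      · ext p
        simp only [Finset.mem_filter, Finset.mem_union]
        constructor
        · rintro ⟨h | h, h'⟩
          · exact absurd (h0 p h) h'
          · exact h
        · intro h
          exact ⟨Or.inr h, h1 p h⟩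
    · intro D hD
      have hcard : ∏ p ∈ D, u p = (∏ p ∈ D.filter (fun p => b p = k0), u p) *
          ∏ p ∈ D.filter (fun p => b p ≠ k0), u p :=
        (Finset.prod_filter_mul_prod_filter_not D (fun p => b p = k0) u).symm
      have hf : ∏ k ∈ K, f k (D.filter fun p => b p = k).card =
          ∏ k ∈ K, f k ((D.filter fun p => b p ≠ k0).filter fun p => b p = k).card := by
        refine Finset.prod_congr rfl fun k hk => ?_
        have : ((D.filter fun p => b p ≠ k0).filter fun p => b p = k) =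
            D.filter fun p => b p = k := by
          ext p
          simp only [Finset.mem_filter]
          constructor
          · rintro ⟨⟨h1, _⟩, h3⟩
            exact ⟨h1, h3⟩
          · rintro ⟨h1, h3⟩
            exact ⟨⟨h1, fun h => hk0 (by rw [← h, h3]; exact hk)⟩, h3⟩
        rw [this]
      rw [Finset.prod_insert hk0, hf, hcard]
      ring

private theorem l6_card (A : Finset ℕ) (u : ℕ → ℝ) (g : ℕ → ℝ) :
    ∑ D ∈ A.powerset, (∏ p ∈ D, -u p) * g D.card =
      ∑ i ∈ range (A.card + 1), (-1 : ℝ) ^ i * Pool.Agent.H12.esym A u i * g i := by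
  rw [Finset.sum_powerset]
  refine Finset.sum_congr rfl fun i _ => ?_
  unfold Pool.Agent.H12.esym
  rw [Finset.mul_sum, Finset.sum_mul]
  refine Finset.sum_congr rfl fun D hD => ?_
  rw [(Finset.mem_powersetCard.1 hD).2, Finset.prod_neg, (Finset.mem_powersetCard.1 hD).2]

private theorem l6_esym0 (A : Finset ℕ) (u : ℕ → ℝ) (i : ℕ) (h : A.card < i) :
    Pool.Agent.H12.esym A u i = 0 := by
  unfold Pool.Agent.H12.esym
  rw [Finset.powersetCard_eq_empty.2 h, Finset.sum_empty]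

private theorem l6_y_eq (A : Finset ℕ) (u : ℕ → ℝ) (r : ℕ) :
    ∑ D ∈ A.powerset, (∏ p ∈ D, -u p) * (if D.card ≤ r then (1 : ℝ) else 0) =
      Pool.Agent.H12.tsum' A u r := by
  rw [l6_card A u (fun m => if m ≤ r then (1 : ℝ) else 0)]
  unfold Pool.Agent.H12.tsum'
  have h1 : ∀ m ∈ range (A.card + 1), (-1 : ℝ) ^ m * Pool.Agent.H12.esym A u m *
      (if m ≤ r then (1 : ℝ) else 0)
      = if m ∈ range (r + 1) then (-1 : ℝ) ^ m * Pool.Agent.H12.esym A u m else 0 := by
    intro m _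
    by_cases h : m ≤ r
    · have : m ∈ range (r + 1) := Finset.mem_range.2 (by omega)
      rw [if_pos h, if_pos this, mul_one]
    · have : m ∉ range (r + 1) := fun hh => h (by have := Finset.mem_range.1 hh; omega)
      rw [if_neg h, if_neg this, mul_zero]
  rw [Finset.sum_congr rfl h1, Finset.sum_ite_mem]
  have h2 : ∀ m ∈ range (r + 1), m ∉ range (A.card + 1) ∩ range (r + 1) →
      (-1 : ℝ) ^ m * Pool.Agent.H12.esym A u m = 0 := by
    intro m hm hm'
    have : ¬ m < A.card + 1 := fun h => hm' (Finset.mem_inter.2 ⟨Finset.mem_range.2 h, hm⟩)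
    rw [l6_esym0 A u m (by omega), mul_zero]
  exact Finset.sum_subset Finset.inter_subset_right h2

private theorem l6_e_eq (A : Finset ℕ) (u : ℕ → ℝ) (r : ℕ) :
    ∑ D ∈ A.powerset, (∏ p ∈ D, -u p) * (if D.card = r then (1 : ℝ) else 0) =
      (-1) ^ r * Pool.Agent.H12.esym A u r := by
  rw [l6_card A u (fun m => if m = r then (1 : ℝ) else 0)]
  rw [Finset.sum_eq_single r]
  · rw [if_pos rfl, mul_one]
  · intro m _ hm
    rw [if_neg hm, mul_zero]
  · intro h
    have : ¬ r < A.card + 1 := fun h' => h (Finset.mem_range.2 h')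
    rw [l6_esym0 A u r (by omega)]
    simp

private theorem l6_pi (A : Finset ℕ) (δ : ℕ → ℝ) (h : ∀ p ∈ A, 0 ≤ δ p ∧ δ p ≤ 1 / 100)
    (hΛ : ∑ p ∈ A, δ p ≤ 0.8) : 0.4 ≤ ∏ p ∈ A, (1 - δ p) := by
  have h1 : ∀ p ∈ A, Real.exp (-(100 / 99) * δ p) ≤ 1 - δ p := by
    intro p hp
    obtain ⟨h2, h3⟩ := h p hp
    have h4 := Real.add_one_le_exp (100 / 99 * δ p)
    have h5 : 0 < Real.exp (100 / 99 * δ p) := Real.exp_pos _
    rw [neg_mul, Real.exp_neg, inv_le_iff_one_le_mul₀ h5]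
    nlinarith
  have h2 : ∏ p ∈ A, Real.exp (-(100 / 99) * δ p) ≤ ∏ p ∈ A, (1 - δ p) :=
    Finset.prod_le_prod (fun p _ => (Real.exp_pos _).le) h1
  rw [← Real.exp_sum, ← Finset.mul_sum] at h2
  have h3 : Real.exp (-(100 / 99) * 0.8) ≤ Real.exp (-(100 / 99) * ∑ p ∈ A, δ p) := by
    rw [Real.exp_le_exp]
    linarith
  have h4 : Real.exp (-(100 / 99) * 0.8) = Real.exp (-(100 / 99) * 0.2) ^ 4 := by
    rw [← Real.exp_nat_mul]
    congr 1
    norm_num
  have h5 := Real.add_one_le_exp (-(100 / 99) * 0.2 : ℝ)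
  have h6 : (0.797 : ℝ) ≤ Real.exp (-(100 / 99) * 0.2) := by
    norm_num at h5 ⊢
    linarith
  have h7 : (0.797 : ℝ) ^ 4 ≤ Real.exp (-(100 / 99) * 0.2) ^ 4 :=
    pow_le_pow_left₀ (by norm_num) h6 4
  have h8 : (0.4 : ℝ) ≤ 0.797 ^ 4 := by norm_num
  linarith

private theorem l6_num (k : ℕ) :
    (0.8 : ℝ) ^ (2 * k + 3) / ((2 * k + 3).factorial : ℝ) ≤ 0.0854 * (1 / 10) ^ k := by
  induction k with
  | zero =>
    norm_num [Nat.factorial]
  | succ k ih =>
    have h1 : (((2 * (k + 1) + 3).factorial : ℕ) : ℝ) =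
        (2 * (k : ℝ) + 5) * ((2 * (k : ℝ) + 4) * ((2 * k + 3).factorial : ℝ)) := by
      rw [show 2 * (k + 1) + 3 = (2 * k + 3) + 1 + 1 by ring, Nat.factorial_succ,
        Nat.factorial_succ]
      push_cast
      ring
    have h0 : (0 : ℝ) < ((2 * k + 3).factorial : ℝ) := by positivity
    have hk : (0 : ℝ) ≤ k := Nat.cast_nonneg k
    have h2 : (0.8 : ℝ) ^ (2 * (k + 1) + 3) / (((2 * (k + 1) + 3).factorial : ℕ) : ℝ) =
        (0.8 : ℝ) ^ (2 * k + 3) / ((2 * k + 3).factorial : ℝ) *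
          (0.64 / ((2 * (k : ℝ) + 5) * (2 * (k : ℝ) + 4))) := by
      rw [h1, show 2 * (k + 1) + 3 = (2 * k + 3) + 2 by ring, pow_add]
      field_simp
      norm_num
    rw [h2]
    have h3 : 0.64 / ((2 * (k : ℝ) + 5) * (2 * (k : ℝ) + 4)) ≤ 1 / 10 := by
      rw [div_le_div_iff₀ (by positivity) (by norm_num)]
      nlinarith
    calc (0.8 : ℝ) ^ (2 * k + 3) / ((2 * k + 3).factorial : ℝ) *
          (0.64 / ((2 * (k : ℝ) + 5) * (2 * (k : ℝ) + 4)))
        ≤ (0.0854 * (1 / 10) ^ k) * (1 / 10) :=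
          mul_le_mul ih h3 (by positivity) (by positivity)
      _ = 0.0854 * (1 / 10) ^ (k + 1) := by rw [pow_succ]; ring

private theorem l6_numsum (K : Finset ℕ) :
    ∑ k ∈ K, (0.8 : ℝ) ^ (2 * k + 3) / ((2 * k + 3).factorial : ℝ) ≤ 0.1 := by
  have h1 : ∑ k ∈ K, (0.8 : ℝ) ^ (2 * k + 3) / ((2 * k + 3).factorial : ℝ) ≤
      ∑ k ∈ K, 0.0854 * (1 / 10 : ℝ) ^ k := Finset.sum_le_sum fun k _ => l6_num k
  have hs : Summable fun k : ℕ => (1 / 10 : ℝ) ^ k :=
    summable_geometric_of_lt_one (by norm_num) (by norm_num)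
  have h2 : ∑ k ∈ K, (1 / 10 : ℝ) ^ k ≤ ∑' k : ℕ, (1 / 10 : ℝ) ^ k :=
    hs.sum_le_tsum K fun k _ => by positivity
  rw [tsum_geometric_of_lt_one (by norm_num) (by norm_num)] at h2
  rw [← Finset.mul_sum] at h1
  norm_num at h1 h2 ⊢
  linarith

private theorem l6_ite (K : Finset ℕ) (c : ℕ → ℕ) (hc : ∀ k, k ∉ K → c k = 0)
    (P : Prop) [Decidable P]
    (hP : P ↔ (∀ k, c k ≤ 2 * k + 3) ∧ ∀ k k', c k = 2 * k + 3 → c k' = 2 * k' + 3 → k = k') :
    (if P then (1 : ℝ) else 0) = ∏ k ∈ K, (if c k ≤ 2 * k + 2 then (1 : ℝ) else 0) +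
      ∑ k ∈ K, (if c k = 2 * k + 3 then (1 : ℝ) else 0) *
        ∏ j ∈ K.erase k, (if c j ≤ 2 * j + 2 then (1 : ℝ) else 0) := by
  by_cases h : ∃ k ∈ K, c k = 2 * k + 3 ∧ ∀ j ∈ K.erase k, c j ≤ 2 * j + 2
  · obtain ⟨k, hk, h1, h2⟩ := h
    have hlt : ∀ j, j ≠ k → c j ≤ 2 * j + 2 := by
      intro j hj
      by_cases hjK : j ∈ K
      · exact h2 j (Finset.mem_erase.2 ⟨hj, hjK⟩)
      · rw [hc j hjK]
        omega
    have hPt : P := by
      rw [hP]
      refine ⟨fun j => ?_, fun i j hi hj => ?_⟩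
      · by_cases hj : j = k
        · rw [hj, h1]
        · have := hlt j hj
          omega
      · have hik : i = k := by
          by_contra hne
          have := hlt i hne
          omega
        have hjk : j = k := by
          by_contra hne
          have := hlt j hne
          omega
        rw [hik, hjk]
    have hprod : ∏ k ∈ K, (if c k ≤ 2 * k + 2 then (1 : ℝ) else 0) = 0 :=
      Finset.prod_eq_zero hk (by rw [if_neg (by omega)])
    rw [if_pos hPt, hprod, zero_add, Finset.sum_eq_single k]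
    · rw [if_pos h1, one_mul]
      exact (Finset.prod_eq_one fun j hj => if_pos (h2 j hj)).symm
    · intro i _ hik
      rw [Finset.prod_eq_zero (i := k) (Finset.mem_erase.2 ⟨hik.symm, hk⟩) (by rw [if_neg (by omega)]),
        mul_zero]
    · intro h'
      exact absurd hk h'
  · have hsum : ∑ k ∈ K, (if c k = 2 * k + 3 then (1 : ℝ) else 0) *
        ∏ j ∈ K.erase k, (if c j ≤ 2 * j + 2 then (1 : ℝ) else 0) = 0 := by
      refine Finset.sum_eq_zero fun k hk => ?_
      by_cases h1 : c k = 2 * k + 3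
      · have : ∃ j ∈ K.erase k, ¬ c j ≤ 2 * j + 2 := by
          by_contra hcon
          push Not at hcon
          exact h ⟨k, hk, h1, hcon⟩
        obtain ⟨j, hj, hj'⟩ := this
        rw [Finset.prod_eq_zero hj (by rw [if_neg hj']), mul_zero]
      · rw [if_neg h1, zero_mul]
    rw [hsum, add_zero]
    by_cases hall : ∀ k ∈ K, c k ≤ 2 * k + 2
    · have hlt : ∀ k, c k ≤ 2 * k + 2 := by
        intro k
        by_cases hk : k ∈ K
        · exact hall k hk
        · rw [hc k hk]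
          omega
      have hPt : P := by
        rw [hP]
        refine ⟨fun j => ?_, fun i j hi hj => ?_⟩
        · have := hlt j
          omega
        · have := hlt i
          omega
      rw [if_pos hPt]
      exact (Finset.prod_eq_one fun j hj => if_pos (hall j hj)).symm
    · push Not at hall
      obtain ⟨k, hk, hk'⟩ := hall
      have hPf : ¬ P := by
        rw [hP]
        rintro ⟨h1, h2⟩
        have hk1 : c k = 2 * k + 3 := by
          have := h1 k
          omega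
        refine h ⟨k, hk, hk1, fun j hj => ?_⟩
        have hjk : j ≠ k := (Finset.mem_erase.1 hj).1
        have h3 := h1 j
        by_contra hcon
        exact hjk (h2 j k (by omega) hk1)
      rw [if_neg hPf]
      exact (Finset.prod_eq_zero hk (by rw [if_neg (by omega)])).symm

theorem bh_dens (y : ℕ) (A : Finset ℕ) (δ : ℕ → ℝ) (h : ∀ p ∈ A, 0 ≤ δ p ∧ δ p ≤ 1 / 100)
    (hΛ : ∀ k, ∑ p ∈ A.filter (fun p => blk y p = k), δ p ≤ 0.8) :
    0.7 * ∏ p ∈ A, (1 - δ p) ≤ ∑ D ∈ A.powerset, lam y D * ∏ p ∈ D, δ p := by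
  classical
  set K : Finset ℕ := A.image (blk y) with hK
  have hAK : ∀ p ∈ A, blk y p ∈ K := fun p hp => Finset.mem_image_of_mem _ hp
  set f0 : ℕ → ℕ → ℝ := fun k i => if i ≤ 2 * k + 2 then 1 else 0 with hf0
  set g : ℕ → ℕ → ℕ → ℝ := fun k j i =>
    if j = k then (if i = 2 * k + 3 then 1 else 0) else f0 j i with hg
  have hlam : ∀ D ∈ A.powerset, lam y D * ∏ p ∈ D, δ p =
      (∏ p ∈ D, -δ p) * ∏ k ∈ K, f0 k (D.filter fun p => blk y p = k).card +
      ∑ k ∈ K, (∏ p ∈ D, -δ p) * ∏ j ∈ K, g k j (D.filter fun p => blk y p = j).card := by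
    intro D hD
    rw [Finset.mem_powerset] at hD
    have hc : ∀ k, k ∉ K → (D.filter fun p => blk y p = k).card = 0 := by
      intro k hk
      rw [Finset.card_eq_zero, Finset.filter_eq_empty_iff]
      intro p hp h
      exact hk (h ▸ hAK p (hD hp))
    have h1 := l6_ite K (fun k => (D.filter fun p => blk y p = k).card) hc (AdmD y D) Iff.rfl
    have h2 : lam y D * ∏ p ∈ D, δ p = (∏ p ∈ D, -δ p) * (if AdmD y D then (1 : ℝ) else 0) := by
      rw [lam, Finset.prod_neg]
      split_ifs <;> simp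
    rw [h2, h1, mul_add, Finset.mul_sum]
    congr 1
    refine Finset.sum_congr rfl fun k hk => ?_
    rw [← Finset.mul_prod_erase K _ hk]
    have h3 : g k k (D.filter fun p => blk y p = k).card =
        if (D.filter fun p => blk y p = k).card = 2 * k + 3 then (1 : ℝ) else 0 := by
      simp only [hg, if_true]
    have h4 : ∏ j ∈ K.erase k, g k j (D.filter fun p => blk y p = j).card =
        ∏ j ∈ K.erase k, (if (D.filter fun p => blk y p = j).card ≤ 2 * j + 2 then (1 : ℝ) else 0) :=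
      Finset.prod_congr rfl fun j hj => by
        simp only [hg, hf0, if_neg (Finset.mem_erase.1 hj).1]
    rw [h3, h4]
  rw [Finset.sum_congr rfl hlam, Finset.sum_add_distrib, Finset.sum_comm,
    l6_blocks (fun p => -δ p) (blk y) f0 K A hAK]
  have hB : ∀ k ∈ K, ∑ D ∈ A.powerset,
      (∏ p ∈ D, -δ p) * ∏ j ∈ K, g k j (D.filter fun p => blk y p = j).card =
      ∏ j ∈ K, ∑ D ∈ (A.filter fun p => blk y p = j).powerset, (∏ p ∈ D, -δ p) * g k j D.card :=
    fun k _ => l6_blocks (fun p => -δ p) (blk y) (g k) K A hAK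
  rw [Finset.sum_congr rfl hB]
  set Y : ℕ → ℝ := fun k =>
    ∑ D ∈ (A.filter fun p => blk y p = k).powerset, (∏ p ∈ D, -δ p) * f0 k D.card with hY
  set E : ℕ → ℝ := fun k =>
    Pool.Agent.H12.esym (A.filter fun p => blk y p = k) δ (2 * k + 3) with hE
  set π : ℕ → ℝ := fun k => ∏ p ∈ A.filter (fun p => blk y p = k), (1 - δ p) with hπ
  have hA' : ∀ k, ∀ p ∈ A.filter (fun p => blk y p = k), 0 ≤ δ p ∧ δ p ≤ 1 / 100 :=
    fun k p hp => h p (Finset.mem_filter.1 hp).1
  have hYeq : ∀ k, Y k = Pool.Agent.H12.tsum' (A.filter fun p => blk y p = k) δ (2 * k + 2) := by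
    intro k
    simp only [hY, hf0]
    exact l6_y_eq _ _ _
  have hπ4 : ∀ k, 0.4 ≤ π k := fun k => l6_pi _ δ (hA' k) (hΛ k)
  have hYπ : ∀ k, π k ≤ Y k := by
    intro k
    have h1 := (Pool.Agent.H12.bonferroni (A.filter fun p => blk y p = k) δ
      (fun p hp => ⟨(hA' k p hp).1, (hA' k p hp).2.trans (by norm_num)⟩) (2 * k + 2)).1
    rw [Even.neg_one_pow ⟨k + 1, by ring⟩, one_mul] at h1
    rw [hYeq]
    simp only [hπ]
    linarith
  have hYpos : ∀ k, 0 < Y k := fun k => by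
    have h1 := hπ4 k
    have h2 := hYπ k
    have : (0 : ℝ) < 0.4 := by norm_num
    linarith
  have hEe : ∀ k, E k ≤ (0.8 : ℝ) ^ (2 * k + 3) / ((2 * k + 3).factorial : ℝ) := by
    intro k
    refine (Pool.Agent.H12.esym_le (A.filter fun p => blk y p = k) δ (fun p hp => (hA' k p hp).1)
      (2 * k + 3)).trans ?_
    have h1 : 0 ≤ ∑ p ∈ A.filter (fun p => blk y p = k), δ p :=
      Finset.sum_nonneg fun p hp => (hA' k p hp).1
    have h2 := pow_le_pow_left₀ h1 (hΛ k) (2 * k + 3)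
    exact div_le_div_of_nonneg_right h2 (by positivity)
  have hterm : ∀ k ∈ K, ∏ j ∈ K, ∑ D ∈ (A.filter fun p => blk y p = j).powerset,
      (∏ p ∈ D, -δ p) * g k j D.card = -(E k * ∏ j ∈ K.erase k, Y j) := by
    intro k hk
    rw [← Finset.mul_prod_erase K _ hk]
    have h1 : ∑ D ∈ (A.filter fun p => blk y p = k).powerset, (∏ p ∈ D, -δ p) * g k k D.card =
        -E k := by
      have : ∀ D ∈ (A.filter fun p => blk y p = k).powerset, (∏ p ∈ D, -δ p) * g k k D.card =
          (∏ p ∈ D, -δ p) * (if D.card = 2 * k + 3 then (1 : ℝ) else 0) := by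
        intro D _
        simp only [hg, if_true]
      rw [Finset.sum_congr rfl this, l6_e_eq, Odd.neg_one_pow ⟨k + 1, by ring⟩]
      simp only [hE]
      ring
    have h2 : ∏ j ∈ K.erase k, ∑ D ∈ (A.filter fun p => blk y p = j).powerset,
        (∏ p ∈ D, -δ p) * g k j D.card = ∏ j ∈ K.erase k, Y j := by
      refine Finset.prod_congr rfl fun j hj => ?_
      simp only [hg, if_neg (Finset.mem_erase.1 hj).1, hY]
    rw [h1, h2]
    ring
  rw [Finset.sum_congr rfl hterm, Finset.sum_neg_distrib]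
  have hP0 : 0 < ∏ k ∈ K, Y k := Finset.prod_pos fun k _ => hYpos k
  have hterm2 : ∀ k ∈ K, E k * ∏ j ∈ K.erase k, Y j ≤
      ((0.8 : ℝ) ^ (2 * k + 3) / ((2 * k + 3).factorial : ℝ)) * (2.5 * ∏ j ∈ K, Y j) := by
    intro k hk
    have h1 : ∏ j ∈ K.erase k, Y j ≤ 2.5 * ∏ j ∈ K, Y j := by
      rw [← Finset.mul_prod_erase K _ hk]
      have h2 : 0 < ∏ j ∈ K.erase k, Y j := Finset.prod_pos fun j _ => hYpos j
      have h3 : 1 ≤ 2.5 * Y k := by
        have h4 := hπ4 k
        have h5 := hYπ k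
        norm_num at h4 ⊢
        linarith
      nlinarith
    have h2 : 0 < ∏ j ∈ K.erase k, Y j := Finset.prod_pos fun j _ => hYpos j
    exact mul_le_mul (hEe k) h1 h2.le (by positivity)
  have hsum2 := Finset.sum_le_sum hterm2
  rw [← Finset.sum_mul] at hsum2
  have h5 := mul_le_mul_of_nonneg_right (l6_numsum K)
    (show (0 : ℝ) ≤ 2.5 * ∏ j ∈ K, Y j by positivity)
  have hprod : ∏ p ∈ A, (1 - δ p) = ∏ k ∈ K, π k := by
    simp only [hπ]
    exact (Finset.prod_fiberwise_of_maps_to hAK _).symm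
  have h6 : ∏ k ∈ K, π k ≤ ∏ k ∈ K, Y k :=
    Finset.prod_le_prod (fun k _ => (by norm_num : (0 : ℝ) ≤ 0.4).trans (hπ4 k)) fun k _ => hYπ k
  rw [hprod]
  have h7 : ∑ k ∈ K, E k * ∏ j ∈ K.erase k, Y j ≤ 0.25 * ∏ j ∈ K, Y j := by
    refine hsum2.trans (h5.trans (le_of_eq ?_))
    ring
  change 0.7 * ∏ k ∈ K, π k ≤ ∏ k ∈ K, Y k + -∑ k ∈ K, E k * ∏ j ∈ K.erase k, Y j
  norm_num at h7 ⊢
  linarith

end Pool.Agent.H77.K4
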