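import Pool.Agent.H77.K4.L5
import Pool.Agent.H77.K4.L6
import Pool.Agent.H77.K4.L7
import Pool.Agent.H77.K4.X2

/-!
# L8: the sieve inequality

For admissible `P` and `z ≥ z0(P)`, all `T`, `b, c ≥ 1`, classes `α, β`, with `Qs = Qa w T b α`,
`Rs = Qa w T c β`:
`sum_(pp ∈ prod I_i) NB ≥ 0.7 VV0 # Qs # Rs (prod L_i) - sum_(d ∈ Ds z M) 2^ω(d) |Er Qs Rs b c d|`.

Proof. Fix `pp`; the `pp i` are distinct primes (the intervals are disjoint), in `Pr z y`,
`y = z^M`, `q0 = prod pp i ≤ z^(sum ff i) ≤ z^M`. Let `A = Pr z y \ {pp i}`. For `x = (q, r)` with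
`q0 | X = b q + c r` (that is, all `pp i | X`), `bh_lower` for the set `{p ∈ A : p | X}` gives
`1[no p ∈ A divides X] ≥ sum_(D ⊆ A, prod D | X) lam y D`. Sum over `x`:
`NB ≥ sum_(D ⊆ A) lam y D #{x : q0 prod D | X} =
 sum_D lam y D (# Qs # Rs/φ(q0 prod D) + Er (q0 prod D))`. The main part is
`# Qs # Rs/φ(q0) * sum_D lam y D prod_(p ∈ D) 1/(p-1) ≥ # Qs # Rs/φ(q0) * 0.7 prod_(p ∈ A) (1 - 1/(p-1))`
(`bh_dens`, `blk_sum`; `1/(p-1) ≤ 1/100` for `z ≥ 101`), which is at least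
`0.7 VV0 # Qs # Rs prod_i 1/pp_i` (`φ(q0) ≤ q0`, `A ⊆ Pr z y`). The error part is at least
`- sum_(D ⊆ A admissible) |Er (q0 prod D)|`, `d = q0 prod D ∈ Ds z M`: squarefree, `≤ y * y^9`
(`bh_level`). Sum over `pp`: every `d` arises from at most `2^ω(d)` pairs `(pp, D)`: the set
`{pp i} ⊆ primeFactors d` determines `pp` (`pp i` is its element in `I i`) and `D`. And
`sum_pp prod 1/pp_i = prod L_i`.
-/

set_option autoImplicit false

namespace Pool.Agent.H77.K4

open Finset Pool.Agent.H77.SV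

private theorem l8_pos {P : Par} (hP : P.Adm) (i : ℕ) : 1 ≤ P.ee i := by
  have h1 : 1 ≤ P.E0 := by
    have := hP.hE
    omega
  have h2 : 1 ≤ (13 * P.B) ^ i := Nat.one_le_pow _ _ (by have := hP.hB; omega)
  exact Nat.mul_pos h1 h2

private theorem l8_fe {P : Par} (hP : P.Adm) {i j : ℕ} (hij : i < j) : P.ff i ≤ P.ee j := by
  have h1 : P.ee (i + 1) ≤ P.ee j :=
    Nat.mul_le_mul_left _ (Nat.pow_le_pow_right (by have := hP.hB; omega) hij)
  rw [ee_succ] at h1
  omega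

private theorem l8_I {P : Par} {z i p : ℕ} :
    p ∈ P.I z i ↔ z ^ P.ee i < p ∧ p ≤ z ^ P.ff i ∧ p.Prime := by
  rw [Par.I, mem_filter, mem_Ioc, and_assoc]

private theorem l8_dj {P : Par} (hP : P.Adm) {z i j p : ℕ} (hz : 2 ≤ z) (hi : p ∈ P.I z i)
    (hj : p ∈ P.I z j) : i = j := by
  rw [l8_I] at hi hj
  have key : ∀ a b, a < b → z ^ P.ff a ≤ z ^ P.ee b := fun a b h =>
    Nat.pow_le_pow_right (by omega) (l8_fe hP h)
  rcases lt_trichotomy i j with h | h | h
  · have := key i j h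
    omega
  · exact h
  · have := key j i h
    omega

private theorem l8_Pr {w z p : ℕ} : p ∈ Pr w z ↔ w < p ∧ p ≤ z ∧ p.Prime := by
  unfold Pr
  rw [mem_filter, mem_Ioc, and_assoc]

private theorem l8_IP {P : Par} (hP : P.Adm) {z p : ℕ} (hz : 2 ≤ z) {i : ℕ} (hi : i < P.J)
    (h : p ∈ P.I z i) : p ∈ Pr z (z ^ P.M) := by
  rw [l8_I] at h
  rw [l8_Pr]
  refine ⟨?_, ?_, h.2.2⟩
  · have hze : z ≤ z ^ P.ee i := by
      calc z = z ^ 1 := (pow_one z).symm
        _ ≤ z ^ P.ee i := Nat.pow_le_pow_right (by omega) (l8_pos hP i)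
    omega
  · have := ff_le_M hP hi
    exact h.2.1.trans (Nat.pow_le_pow_right (by omega) (by omega))

private theorem l8_sumff {P : Par} (hP : P.Adm) (n : ℕ) : ∑ i ∈ range n, P.ff i ≤ P.ee n := by
  induction n with
  | zero => simp
  | succ n ih =>
    rw [sum_range_succ, ee_succ]
    have h1 : P.ee n ≤ P.ff n := by
      unfold Par.ff
      have := hP.hB
      exact Nat.le_mul_of_pos_left _ (by omega)
    omega

private theorem l8_phi (E : Finset ℕ) (h : ∀ p ∈ E, p.Prime) :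
    ((∏ p ∈ E, p).totient : ℝ) = ∏ p ∈ E, ((p : ℝ) - 1) := by
  classical
  induction E using Finset.induction_on with
  | empty => simp
  | insert a E ha ih =>
    rw [prod_insert ha, prod_insert ha, Nat.totient_mul, Nat.cast_mul,
      ih fun p hp => h p (mem_insert_of_mem hp)]
    · have hp := h a (mem_insert_self _ _)
      rw [Nat.totient_prime hp, Nat.cast_sub hp.one_le, Nat.cast_one]
    · rw [Nat.coprime_prod_right_iff]
      intro p hp
      exact (Nat.coprime_primes (h a (mem_insert_self _ _)) (h p (mem_insert_of_mem hp))).2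
        (fun hap => ha (hap ▸ hp))

private theorem l8_sqf (E : Finset ℕ) (h : ∀ p ∈ E, p.Prime) : Squarefree (∏ p ∈ E, p) := by
  classical
  refine squarefree_prod_of_pairwise_isCoprime ?_ fun p hp => (h p hp).squarefree
  intro p hp q hq hpq
  exact (Nat.coprime_iff_isRelPrime).1 ((Nat.coprime_primes (h p hp) (h q hq)).2 hpq)

private theorem l8_dvd (E : Finset ℕ) (h : ∀ p ∈ E, p.Prime) (n : ℕ) :
    ∏ p ∈ E, p ∣ n ↔ ∀ p ∈ E, p ∣ n := by
  constructor
  · intro h1 p hp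
    exact (dvd_prod_of_mem (fun p => p) hp).trans h1
  · intro h1
    exact prod_primes_dvd n (fun p hp => (h p hp).prime) h1

open Classical in
/-- the primes which are sieved out -/
private noncomputable def AA (z M : ℕ) {J : ℕ} (pp : Fin J → ℕ) : Finset ℕ :=
  (Pr z (z ^ M)).filter fun p => ∀ i, p ≠ pp i

private theorem l8_AA {z M J : ℕ} {pp : Fin J → ℕ} {p : ℕ} :
    p ∈ AA z M pp ↔ p ∈ Pr z (z ^ M) ∧ ∀ i, p ≠ pp i := by
  classical
  unfold AA
  rw [mem_filter]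

open Classical in
/-- counting by the sieve weights -/
private theorem l8_count (y : ℕ) (A : Finset ℕ) {ι : Type} (U : Finset ι) (X : ι → ℕ) :
    ∑ D ∈ A.powerset, lam y D * ((U.filter fun x => ∀ p ∈ D, p ∣ X x).card : ℝ) ≤
      ((U.filter fun x => ∀ p ∈ A, ¬ p ∣ X x).card : ℝ) := by
  have h1 : ((U.filter fun x => ∀ p ∈ A, ¬ p ∣ X x).card : ℝ) =
      ∑ x ∈ U, (if A.filter (fun p => p ∣ X x) = ∅ then (1 : ℝ) else 0) := by
    rw [card_filter, Nat.cast_sum]
    refine sum_congr rfl fun x _ => ?_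
    by_cases h : ∀ p ∈ A, ¬ p ∣ X x
    · rw [if_pos h, if_pos (filter_eq_empty_iff.2 h), Nat.cast_one]
    · rw [if_neg h, if_neg (fun h' => h (filter_eq_empty_iff.1 h')), Nat.cast_zero]
  rw [h1]
  calc ∑ D ∈ A.powerset, lam y D * ((U.filter fun x => ∀ p ∈ D, p ∣ X x).card : ℝ) =
      ∑ D ∈ A.powerset, ∑ x ∈ U, (if ∀ p ∈ D, p ∣ X x then lam y D else 0) := by
        refine sum_congr rfl fun D _ => ?_
        rw [card_filter, Nat.cast_sum, mul_sum]
        refine sum_congr rfl fun x _ => ?_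
        split_ifs <;> simp
    _ = ∑ x ∈ U, ∑ D ∈ (A.filter (fun p => p ∣ X x)).powerset, lam y D := by
        rw [sum_comm]
        refine sum_congr rfl fun x _ => ?_
        rw [← sum_filter]
        refine sum_congr ?_ fun _ _ => rfl
        ext D
        rw [mem_filter, mem_powerset, mem_powerset]
        constructor
        · rintro ⟨h2, h3⟩ p hp
          exact mem_filter.2 ⟨h2 hp, h3 p hp⟩
        · intro h2
          exact ⟨fun p hp => (mem_filter.1 (h2 hp)).1, fun p hp => (mem_filter.1 (h2 hp)).2⟩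
    _ ≤ _ := sum_le_sum fun x _ => bh_lower y _

open Classical in
private theorem l8_err (y : ℕ) (A : Finset ℕ) (e : Finset ℕ → ℝ) :
    - ∑ D ∈ A.powerset.filter (AdmD y), |e D| ≤ ∑ D ∈ A.powerset, lam y D * e D := by
  rw [sum_filter, ← sum_neg_distrib]
  refine sum_le_sum fun D _ => ?_
  unfold lam
  split_ifs with h
  · have h1 : |(-1 : ℝ) ^ D.card * e D| = |e D| := by
      rw [abs_mul, abs_pow, abs_neg, abs_one, one_pow, one_mul]
    rw [← h1]
    exact neg_abs_le _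
  · simp

/-- the exact number of pairs -/
private theorem l8_num {Qs Rs : Finset ℕ} {b c J : ℕ} {pp : Fin J → ℕ}
    (hpr : ∀ i, (pp i).Prime) (hinj : Function.Injective pp) {D : Finset ℕ}
    (hD : ∀ p ∈ D, p.Prime ∧ ∀ i, p ≠ pp i) {V : Finset (ℕ × ℕ)}
    (hV : ∀ x, x ∈ V ↔ (x ∈ Qs ×ˢ Rs ∧ ∀ i, pp i ∣ b * x.1 + c * x.2) ∧
      ∀ p ∈ D, p ∣ b * x.1 + c * x.2) :
    (V.card : ℝ) =
      (Qs.card : ℝ) * Rs.card / (∏ i, pp i).totient * ∏ p ∈ D, 1 / ((p : ℝ) - 1) +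
        Er Qs Rs b c ((∏ i, pp i) * ∏ p ∈ D, p) := by
  classical
  have hS : ∏ i, pp i = ∏ p ∈ univ.image pp, p := by
    rw [prod_image fun i _ j _ h => hinj h]
  have hSp : ∀ p ∈ univ.image pp, p.Prime := by
    intro p hp
    obtain ⟨i, -, rfl⟩ := mem_image.1 hp
    exact hpr i
  have hDp : ∀ p ∈ D, p.Prime := fun p hp => (hD p hp).1
  have hdj : Disjoint (univ.image pp) D := by
    rw [disjoint_left]
    intro p hp hpD
    obtain ⟨i, -, rfl⟩ := mem_image.1 hp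
    exact (hD _ hpD).2 i rfl
  have hE : (∏ i, pp i) * ∏ p ∈ D, p = ∏ p ∈ univ.image pp ∪ D, p := by
    rw [hS, prod_union hdj]
  have hEp : ∀ p ∈ univ.image pp ∪ D, p.Prime := by
    intro p hp
    rcases mem_union.1 hp with h | h
    · exact hSp p h
    · exact hDp p h
  have hset : V =
      (Qs ×ˢ Rs).filter fun x => (∏ i, pp i) * ∏ p ∈ D, p ∣ b * x.1 + c * x.2 := by
    ext x
    rw [hV, mem_filter, hE, l8_dvd _ hEp, and_assoc]
    refine and_congr_right fun _ => ?_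
    constructor
    · rintro ⟨h1, h2⟩ p hp
      rcases mem_union.1 hp with h | h
      · obtain ⟨i, -, rfl⟩ := mem_image.1 h
        exact h1 i
      · exact h2 p h
    · intro h
      exact ⟨fun i => h _ (mem_union_left _ (mem_image_of_mem _ (mem_univ i))),
        fun p hp => h p (mem_union_right _ hp)⟩
  rw [hset]
  unfold Er
  have hphi : (((∏ i, pp i) * ∏ p ∈ D, p).totient : ℝ) =
      ((∏ i, pp i).totient : ℝ) * ∏ p ∈ D, ((p : ℝ) - 1) := by
    rw [hE, l8_phi _ hEp, prod_union hdj, hS, l8_phi _ hSp]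
  rw [hphi]
  have h1 : ∏ p ∈ D, 1 / ((p : ℝ) - 1) = 1 / ∏ p ∈ D, ((p : ℝ) - 1) := by
    rw [prod_div_distrib, prod_const_one]
  rw [h1]
  ring

open Classical in
private theorem l8_main {P : Par} (hP : P.Adm) {z T b c α β : ℕ} (hz : 101 ≤ z)
    (hblk : ∀ k : ℕ, ∑ p ∈ (Pr z (z ^ P.M)).filter (fun p => blk (z ^ P.M) p = k),
      1 / ((p : ℝ) - 1) ≤ 0.8) {pp : Fin P.J → ℕ} (hpp : ∀ i : Fin P.J, pp i ∈ P.I z i) :
    0.7 * VV0 z P.M * ((Qa P.w T b α).card : ℝ) * (Qa P.w T c β).card * ∏ i, 1 / (pp i : ℝ) -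
      ∑ D ∈ (AA z P.M pp).powerset.filter (AdmD (z ^ P.M)),
        |Er (Qa P.w T b α) (Qa P.w T c β) b c ((∏ i, pp i) * ∏ p ∈ D, p)| ≤
      (NB P z T b c α β pp : ℝ) := by
  classical
  set Qs := Qa P.w T b α
  set Rs := Qa P.w T c β
  set y := z ^ P.M with hy
  set A := AA z P.M pp with hA
  have hpr : ∀ i, (pp i).Prime := fun i => (l8_I.1 (hpp i)).2.2
  have hinj : Function.Injective pp := by
    intro i j h
    have h1 := hpp i
    rw [h] at h1
    exact Fin.ext (l8_dj hP (by omega) h1 (hpp j))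
  have hAP : A ⊆ Pr z y := fun p hp => (l8_AA.1 hp).1
  have hAge : ∀ p ∈ Pr z y, (101 : ℝ) ≤ (p : ℝ) - 1 := by
    intro p hp
    have h1 := (l8_Pr.1 hp).1
    have h2 : (102 : ℝ) ≤ (p : ℝ) := by
      have : 102 ≤ p := by omega
      exact_mod_cast this
    linarith
  have hδ : ∀ p ∈ Pr z y, 0 ≤ 1 / ((p : ℝ) - 1) ∧ 1 / ((p : ℝ) - 1) ≤ 1 / 100 := by
    intro p hp
    have h1 := hAge p hp
    refine ⟨by positivity, ?_⟩
    exact one_div_le_one_div_of_le (by norm_num) (by linarith)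
  -- NB as a filtered set
  have hNB : (NB P z T b c α β pp : ℝ) =
      ((((Qs ×ˢ Rs).filter fun x => ∀ i, pp i ∣ b * x.1 + c * x.2).filter
        fun x => ∀ p ∈ A, ¬ p ∣ b * x.1 + c * x.2).card : ℝ) := by
    unfold NB
    congr 2
    ext x
    rw [mem_filter, mem_filter, mem_filter, and_assoc]
    refine and_congr_right fun _ => ?_
    refine and_congr_right fun _ => ?_
    constructor
    · intro h p hp
      exact h p (hAP hp) (l8_AA.1 hp).2
    · intro h p hp h1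
      exact h p (l8_AA.2 ⟨hp, h1⟩)
  rw [hNB]
  refine le_trans ?_ (l8_count y A _ _)
  refine le_trans (b := ∑ D ∈ A.powerset, lam y D * ((Qs.card : ℝ) * Rs.card /
    (∏ i, pp i).totient * ∏ p ∈ D, 1 / ((p : ℝ) - 1) +
      Er Qs Rs b c ((∏ i, pp i) * ∏ p ∈ D, p))) ?_ (le_of_eq (sum_congr rfl fun D hD => ?_))
  swap
  · refine congrArg (fun t => lam y D * t) (l8_num hpr hinj (fun p hp => ?_)
      (fun x => by simp only [mem_filter])).symm
    have h1 := l8_AA.1 (mem_powerset.1 hD hp)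
    exact ⟨(l8_Pr.1 h1.1).2.2, h1.2⟩
  have hsum : ∑ D ∈ A.powerset, lam y D * ((Qs.card : ℝ) * Rs.card /
      (∏ i, pp i).totient * ∏ p ∈ D, 1 / ((p : ℝ) - 1) +
      Er Qs Rs b c ((∏ i, pp i) * ∏ p ∈ D, p)) =
      (Qs.card : ℝ) * Rs.card / (∏ i, pp i).totient *
        ∑ D ∈ A.powerset, lam y D * ∏ p ∈ D, 1 / ((p : ℝ) - 1) +
      ∑ D ∈ A.powerset, lam y D * Er Qs Rs b c ((∏ i, pp i) * ∏ p ∈ D, p) := by
    rw [mul_sum, ← sum_add_distrib]
    refine sum_congr rfl fun D _ => ?_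
    ring
  rw [hsum]
  have herr := l8_err y A fun D => Er Qs Rs b c ((∏ i, pp i) * ∏ p ∈ D, p)
  have hdens := bh_dens y A (fun p => 1 / ((p : ℝ) - 1)) (fun p hp => hδ p (hAP hp)) (by
    intro k
    refine le_trans (sum_le_sum_of_subset_of_nonneg ?_ ?_) (hblk k)
    · intro p hp
      rw [mem_filter] at hp ⊢
      exact ⟨hAP hp.1, hp.2⟩
    · intro p hp _
      exact (hδ p (mem_filter.1 hp).1).1)
  have hVA : VV0 z P.M ≤ ∏ p ∈ A, (1 - 1 / ((p : ℝ) - 1)) := by
    unfold VV0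
    rw [← prod_sdiff hAP]
    have h1 : ∏ p ∈ Pr z y \ A, (1 - 1 / ((p : ℝ) - 1)) ≤ 1 := by
      refine prod_le_one (fun p hp => ?_) fun p hp => ?_
      · have := (hδ p (mem_sdiff.1 hp).1).2
        linarith
      · have := (hδ p (mem_sdiff.1 hp).1).1
        linarith
    have h2 : 0 ≤ ∏ p ∈ A, (1 - 1 / ((p : ℝ) - 1)) := by
      refine prod_nonneg fun p hp => ?_
      have := (hδ p (hAP hp)).2
      linarith
    calc _ ≤ 1 * ∏ p ∈ A, (1 - 1 / ((p : ℝ) - 1)) := mul_le_mul_of_nonneg_right h1 h2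
      _ = _ := one_mul _
  have hV0 : 0 ≤ VV0 z P.M := by
    refine prod_nonneg fun p hp => ?_
    have := (hδ p hp).2
    linarith
  have hq0 : 0 < ∏ i, pp i := prod_pos fun i _ => (hpr i).pos
  have hphi : ∏ i, 1 / (pp i : ℝ) ≤ 1 / ((∏ i, pp i).totient : ℝ) := by
    rw [prod_div_distrib, prod_const_one]
    have h1 : 0 < (∏ i, pp i).totient := Nat.totient_pos.2 hq0
    refine one_div_le_one_div_of_le (by exact_mod_cast h1) ?_
    rw [← Nat.cast_prod]
    exact_mod_cast Nat.totient_le _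
  have hpi0 : 0 ≤ ∏ i, 1 / (pp i : ℝ) := prod_nonneg fun i _ => by positivity
  have hmain : 0.7 * VV0 z P.M * (Qs.card : ℝ) * Rs.card * ∏ i, 1 / (pp i : ℝ) ≤
      (Qs.card : ℝ) * Rs.card / (∏ i, pp i).totient *
        ∑ D ∈ A.powerset, lam y D * ∏ p ∈ D, 1 / ((p : ℝ) - 1) := by
    have hQ : (0 : ℝ) ≤ (Qs.card : ℝ) * Rs.card := by positivity
    calc 0.7 * VV0 z P.M * (Qs.card : ℝ) * Rs.card * ∏ i, 1 / (pp i : ℝ) =
        ((Qs.card : ℝ) * Rs.card * ∏ i, 1 / (pp i : ℝ)) * (0.7 * VV0 z P.M) := by ring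
      _ ≤ ((Qs.card : ℝ) * Rs.card * (1 / ((∏ i, pp i).totient : ℝ))) *
          (0.7 * ∏ p ∈ A, (1 - 1 / ((p : ℝ) - 1))) := by
        refine mul_le_mul (mul_le_mul_of_nonneg_left hphi hQ)
          (mul_le_mul_of_nonneg_left hVA (by norm_num)) (by positivity) ?_
        exact mul_nonneg hQ (by positivity)
      _ ≤ ((Qs.card : ℝ) * Rs.card * (1 / ((∏ i, pp i).totient : ℝ))) *
          ∑ D ∈ A.powerset, lam y D * ∏ p ∈ D, 1 / ((p : ℝ) - 1) :=
        mul_le_mul_of_nonneg_left hdens (mul_nonneg hQ (by positivity))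
      _ = _ := by ring
  have herr' : -∑ D ∈ A.powerset.filter (AdmD y),
      |Er Qs Rs b c ((∏ i, pp i) * ∏ p ∈ D, p)| ≤
      ∑ D ∈ A.powerset, lam y D * Er Qs Rs b c ((∏ i, pp i) * ∏ p ∈ D, p) := herr
  linarith

open Classical in
/-- the sum of the errors -/
private theorem l8_errsum {P : Par} (hP : P.Adm) {z : ℕ} (hz : 2 ≤ z) (e : ℕ → ℝ)
    (he : ∀ d, 0 ≤ e d) :
    ∑ pp ∈ Fintype.piFinset (fun i : Fin P.J => P.I z i),
      ∑ D ∈ (AA z P.M pp).powerset.filter (AdmD (z ^ P.M)), e ((∏ i, pp i) * ∏ p ∈ D, p) ≤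
      ∑ d ∈ Ds z P.M, 2 ^ d.primeFactors.card * e d := by
  classical
  have h1 : ∑ d ∈ Ds z P.M, 2 ^ d.primeFactors.card * e d =
      ∑ x ∈ (Ds z P.M).sigma (fun d => d.primeFactors.powerset), e x.1 := by
    rw [sum_sigma]
    refine sum_congr rfl fun d _ => ?_
    have h2 : ∑ s ∈ d.primeFactors.powerset, e (⟨d, s⟩ : Σ _ : ℕ, Finset ℕ).fst =
        ∑ _s ∈ d.primeFactors.powerset, e d := rfl
    rw [h2, sum_const, card_powerset, nsmul_eq_mul]
    push_cast
    rfl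
  rw [h1, ← sum_sigma (s := Fintype.piFinset (fun i : Fin P.J => P.I z i))
    (t := fun pp => (AA z P.M pp).powerset.filter (AdmD (z ^ P.M)))
    (f := fun x => e ((∏ i, x.1 i) * ∏ p ∈ x.2, p))]
  set g : (Σ _ : (Fin P.J → ℕ), Finset ℕ) → (Σ _ : ℕ, Finset ℕ) :=
    fun x => ⟨(∏ i, x.1 i) * ∏ p ∈ x.2, p, univ.image x.1⟩ with hg
  have basic : ∀ x ∈ (Fintype.piFinset (fun i : Fin P.J => P.I z i)).sigma
      (fun pp => (AA z P.M pp).powerset.filter (AdmD (z ^ P.M))),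
      (∀ i : Fin P.J, x.1 i ∈ P.I z i) ∧ AdmD (z ^ P.M) x.2 ∧
      (∀ p ∈ x.2, p ∈ Pr z (z ^ P.M) ∧ ∀ i, p ≠ x.1 i) ∧
      (∀ p ∈ univ.image x.1 ∪ x.2, p.Prime) ∧
      (∏ i, x.1 i) * ∏ p ∈ x.2, p = ∏ p ∈ univ.image x.1 ∪ x.2, p := by
    rintro ⟨pp, D⟩ hx
    rw [mem_sigma, Fintype.mem_piFinset, mem_filter, mem_powerset] at hx
    obtain ⟨hpp, hD, hadm⟩ := hx
    have hpp : ∀ i : Fin P.J, pp i ∈ P.I z i := hpp
    have hD' : ∀ p ∈ D, p ∈ Pr z (z ^ P.M) ∧ ∀ i, p ≠ pp i := fun p hp => l8_AA.1 (hD hp)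
    have hinj : Function.Injective pp := by
      intro i j h
      have h1 := hpp i
      rw [h] at h1
      exact Fin.ext (l8_dj hP hz h1 (hpp j))
    refine ⟨hpp, hadm, hD', ?_, ?_⟩
    · intro p hp
      rcases mem_union.1 hp with h | h
      · obtain ⟨i, -, rfl⟩ := mem_image.1 h
        exact (l8_I.1 (hpp i)).2.2
      · exact (l8_Pr.1 (hD' p h).1).2.2
    · show (∏ i, pp i) * ∏ p ∈ D, p = _
      rw [prod_union, prod_image fun i _ j _ h => hinj h]
      rw [disjoint_left]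
      intro p hp hpD
      obtain ⟨i, -, rfl⟩ := mem_image.1 hp
      exact (hD' _ hpD).2 i rfl
  have hinjg : Set.InjOn g ((Fintype.piFinset (fun i : Fin P.J => P.I z i)).sigma
      (fun pp => (AA z P.M pp).powerset.filter (AdmD (z ^ P.M)))) := by
    rintro ⟨pp, D⟩ hx ⟨pp', D'⟩ hx' h
    obtain ⟨a1, a2, a3, a4, a5⟩ := basic _ (Finset.mem_coe.1 hx)
    obtain ⟨b1, b2, b3, b4, b5⟩ := basic _ (Finset.mem_coe.1 hx')
    simp only [hg] at h a1 a2 a3 a4 a5 b1 b2 b3 b4 b5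
    rw [Sigma.mk.injEq] at h
    obtain ⟨h1, h2⟩ := h
    have h2 : univ.image pp = univ.image pp' := eq_of_heq h2
    rw [a5, b5] at h1
    have h3 : univ.image pp ∪ D = univ.image pp' ∪ D' := by
      rw [← Nat.primeFactors_prod a4, ← Nat.primeFactors_prod b4, h1]
    have h4 : pp = pp' := by
      funext i
      have h5 : pp i ∈ univ.image pp' := h2 ▸ mem_image_of_mem _ (mem_univ i)
      obtain ⟨j, -, hj⟩ := mem_image.1 h5
      have h6 := b1 j
      rw [hj] at h6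
      have h7 : (i : ℕ) = j := l8_dj hP hz (a1 i) h6
      rw [← hj, Fin.ext h7]
    subst h4
    have h5 : D = D' := by
      ext p
      constructor
      · intro hp
        have h6 : p ∈ univ.image pp ∪ D' := h3 ▸ mem_union_right _ hp
        rcases mem_union.1 h6 with h7 | h7
        · obtain ⟨i, -, rfl⟩ := mem_image.1 h7
          exact absurd rfl ((a3 _ hp).2 i)
        · exact h7
      · intro hp
        have h6 : p ∈ univ.image pp ∪ D := h3.symm ▸ mem_union_right _ hp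
        rcases mem_union.1 h6 with h7 | h7
        · obtain ⟨i, -, rfl⟩ := mem_image.1 h7
          exact absurd rfl ((b3 _ hp).2 i)
        · exact h7
    rw [h5]
  calc ∑ x ∈ (Fintype.piFinset (fun i : Fin P.J => P.I z i)).sigma
        (fun pp => (AA z P.M pp).powerset.filter (AdmD (z ^ P.M))),
        e ((∏ i, x.1 i) * ∏ p ∈ x.2, p) =
      ∑ u ∈ (((Fintype.piFinset (fun i : Fin P.J => P.I z i)).sigma
        (fun pp => (AA z P.M pp).powerset.filter (AdmD (z ^ P.M)))).image g), e u.1 := by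
        rw [sum_image hinjg]
    _ ≤ _ := by
      refine sum_le_sum_of_subset_of_nonneg ?_ fun u _ _ => he _
      intro u hu
      obtain ⟨x, hx, rfl⟩ := mem_image.1 hu
      obtain ⟨a1, a2, a3, a4, a5⟩ := basic x hx
      rw [mem_sigma]
      have hE : ∀ p ∈ univ.image x.1 ∪ x.2, p ∈ Pr z (z ^ P.M) := by
        intro p hp
        rcases mem_union.1 hp with h | h
        · obtain ⟨i, -, rfl⟩ := mem_image.1 h
          exact l8_IP hP hz i.2 (a1 i)
        · exact (a3 p h).1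
      have hpf : ((∏ i, x.1 i) * ∏ p ∈ x.2, p).primeFactors = univ.image x.1 ∪ x.2 := by
        rw [a5, Nat.primeFactors_prod a4]
      constructor
      · show (∏ i, x.1 i) * ∏ p ∈ x.2, p ∈ Ds z P.M
        unfold Ds
        rw [mem_filter, mem_Icc, hpf]
        refine ⟨⟨?_, ?_⟩, ?_, ?_⟩
        · rw [a5]
          exact Nat.succ_le_of_lt (prod_pos fun p hp => (a4 p hp).pos)
        · have h2 : ∏ i, x.1 i ≤ z ^ P.M := by
            calc ∏ i, x.1 i ≤ ∏ i : Fin P.J, z ^ P.ff i :=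
                  prod_le_prod' fun i _ => (l8_I.1 (a1 i)).2.1
              _ = ∏ i ∈ range P.J, z ^ P.ff i := (prod_range fun i => z ^ P.ff i).symm
              _ = z ^ ∑ i ∈ range P.J, P.ff i := prod_pow_eq_pow_sum _ _ _
              _ ≤ z ^ P.M := Nat.pow_le_pow_right (by omega) (l8_sumff hP P.J)
          have h3 : ∏ p ∈ x.2, p ≤ (z ^ P.M) ^ 9 :=
            bh_level (Nat.one_le_pow _ _ (by omega)) a2 fun p hp =>
              ⟨(l8_Pr.1 (a3 p hp).1).2.2, (l8_Pr.1 (a3 p hp).1).2.1⟩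
          calc (∏ i, x.1 i) * ∏ p ∈ x.2, p ≤ z ^ P.M * (z ^ P.M) ^ 9 := Nat.mul_le_mul h2 h3
            _ = z ^ (10 * P.M) := by
              rw [← pow_mul, ← pow_add]
              congr 1
              ring
        · rw [a5]
          exact l8_sqf _ a4
        · intro p hp
          have := l8_Pr.1 (hE p hp)
          exact ⟨this.1, this.2.1⟩
      · show univ.image x.1 ∈ ((∏ i, x.1 i) * ∏ p ∈ x.2, p).primeFactors.powerset
        rw [hpf, mem_powerset]
        exact subset_union_left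

theorem sieve_low {P : Par} (hP : P.Adm) : ∃ z0 : ℕ, ∀ z T b c α β : ℕ, z0 ≤ z →
    0.7 * VV0 z P.M * ((Qa P.w T b α).card : ℝ) * (Qa P.w T c β).card *
        ∏ i ∈ range P.J, P.L z i -
      ∑ d ∈ Ds z P.M, 2 ^ d.primeFactors.card *
        |Er (Qa P.w T b α) (Qa P.w T c β) b c d| ≤
    ∑ pp ∈ Fintype.piFinset (fun i : Fin P.J => P.I z i), (NB P z T b c α β pp : ℝ) := by
  classical
  have hM : 1 ≤ P.M := l8_pos hP P.J
  obtain ⟨z1, hz1⟩ := blk_sum P.M hM
  refine ⟨max 101 z1, fun z T b c α β hz => ?_⟩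
  have hz101 : 101 ≤ z := le_trans (le_max_left _ _) hz
  have hblk := hz1 z (le_trans (le_max_right _ _) hz)
  have hstep : ∑ pp ∈ Fintype.piFinset (fun i : Fin P.J => P.I z i),
      (0.7 * VV0 z P.M * ((Qa P.w T b α).card : ℝ) * (Qa P.w T c β).card *
        ∏ i, 1 / (pp i : ℝ) -
      ∑ D ∈ (AA z P.M pp).powerset.filter (AdmD (z ^ P.M)),
        |Er (Qa P.w T b α) (Qa P.w T c β) b c ((∏ i, pp i) * ∏ p ∈ D, p)|) ≤
      ∑ pp ∈ Fintype.piFinset (fun i : Fin P.J => P.I z i), (NB P z T b c α β pp : ℝ) :=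
    sum_le_sum fun pp hpp => l8_main hP hz101 hblk fun i => Fintype.mem_piFinset.1 hpp i
  rw [sum_sub_distrib, ← mul_sum] at hstep
  have hL : ∑ pp ∈ Fintype.piFinset (fun i : Fin P.J => P.I z i), ∏ i, 1 / (pp i : ℝ) =
      ∏ i ∈ range P.J, P.L z i := by
    rw [prod_range]
    unfold Par.L
    rw [prod_univ_sum]
  rw [hL] at hstep
  have he := l8_errsum hP (show 2 ≤ z by omega)
    (fun d => |Er (Qa P.w T b α) (Qa P.w T c β) b c d|) (fun d => abs_nonneg _)
  refine le_trans ?_ hstep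
  exact sub_le_sub_left he _

end Pool.Agent.H77.K4
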