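import Pool.Agent.H77.K4.L1
import Pool.Agent.H77.K4.L4
import Pool.Agent.H77.K4.L8
import Pool.Agent.H77.K4.L9
import Pool.Agent.H77.K4.L10

/-!
# L11: lower bound for `S1`

There is an absolute `c > 0` such that for admissible `P` and `z ≥ z0(P)`, `TZ z T`:
`# S1 ≥ c U0`.

Proof. `card_S1` and `sieve_low`. For `b ∈ Bset w z`, `(α, β) ∈ Cl w`: `b` is prime to `WW w` (odd: prime
factors `> w ≥ 384`), and `α` is prime to `WW w`, so `Qa w T b α` is the set of L1 with `W = WW w` and a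
class `a` with `b a = α mod W`, `a` prime to `W`. So `# Qa ≥ T/(5 b φ(W) log T)` for
`T/b ≥ z^(30M-1) ≥ x0(w)`, `z` large. `log T ≤ 30 M log (z+1) ≤ 31 M log z` for `z` large. Main terms:
`0.7 VV0 (prod L_i) sum_(b, c coprime) sum_(Cl) T^2/(25 b c φ(W)^2 (31 M log z)^2) ≥
 c' (1/M) (prod L_i) T^2 M^(-2) (log z)^(-2) (# Cl/φ(W)^2) sum 1/(b c) ≥
 c'' (prod L_i) T^2 M^(-3) (log z)^(-2) (1/log w) (log z/log w)^2 = c'' U0` (`V_low`, `sum_BB`,
`card_Cl`). Error terms: `err_sum` with `N1 = T/b`, `N2 = T/c` (natural division; elements of `Qa` are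
`≤ T/b` and `> z^M`; `T/b ≥ z^(20M)`): total
`≤ sum_(b,c ≤ z) # Cl * C_M (T/b)(T/c)/z ≤ # Cl C_M T^2 (1 + log z)^2/z`, which is at most `(c''/2) U0`
for `z ≥ z0(P)`, because `U0 ≥ T^2 2^(-J) M^(-3) (log w)^(-3)` (`L_low`).
-/

set_option autoImplicit false

namespace Pool.Agent.H77.K4

open Finset Pool.Agent.H77.SV

private lemma l11_M {P : Par} (hP : P.Adm) : 1 ≤ P.M := by
  have h1 : 1 ≤ P.E0 := by
    have := hP.hE
    omega
  have h2 : 1 ≤ (13 * P.B) ^ P.J := Nat.one_le_pow _ _ (by have := hP.hB; omega)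
  exact Nat.mul_pos h1 h2

private lemma l11_cop {w b : ℕ} (h2 : ¬ 2 ∣ b) (h : ∀ p ∈ oP w, ¬ p ∣ b) : b.Coprime (WW w) := by
  unfold WW
  refine Nat.Coprime.mul_right ?_ (Nat.Coprime.prod_right fun p hp => ?_)
  · have : (16 : ℕ) = 2 ^ 4 := by norm_num
    rw [this]
    exact Nat.Coprime.pow_right 4 ((Nat.Prime.coprime_iff_not_dvd Nat.prime_two).2 h2).symm
  · unfold oP at hp
    have hp' := (mem_filter.1 hp).2
    exact ((Nat.Prime.coprime_iff_not_dvd hp').2 (h p hp)).symm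

private lemma l11_Bcop {w z b : ℕ} (hw : 384 ≤ w) (hb : b ∈ Bset w z) : b.Coprime (WW w) := by
  simp only [Bset, mem_filter, mem_Icc] at hb
  obtain ⟨⟨h1, h2⟩, -, h3⟩ := hb
  refine l11_cop (fun hd => ?_) (fun p hp hd => ?_)
  · have := h3 2 (Nat.mem_primeFactors.2 ⟨Nat.prime_two, hd, by omega⟩)
    omega
  · unfold oP at hp
    rw [mem_filter, mem_Ioc] at hp
    have := h3 p (Nat.mem_primeFactors.2 ⟨hp.2, hd, by omega⟩)
    omega

private lemma l11_card {w z T b α x0 : ℕ} (hw : 384 ≤ w) (hb : b ∈ Bset w z)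
    (hα : α.Coprime (WW w)) (hαW : α < WW w)
    (hq : ∀ T b : ℕ, 1 ≤ b → x0 * b ≤ T → ∀ a : ℕ, a.Coprime (WW w) →
      (T : ℝ) / (5 * b * (WW w).totient * Real.log T) ≤
        (((Ioc 0 T).filter fun q : ℕ => q.Prime ∧ T / 2 < b * q ∧ b * q ≤ T ∧
          q % WW w = a % WW w).card : ℝ)) (hx : x0 * b ≤ T) :
    (T : ℝ) / (5 * b * (WW w).totient * Real.log T) ≤ ((Qa w T b α).card : ℝ) := by
  have hbW := l11_Bcop hw hb
  have hb1 : 1 ≤ b := by
    simp only [Bset, mem_filter, mem_Icc] at hb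
    omega
  have hW1 : 1 < WW w := by
    have : 16 ≤ WW w := by
      unfold WW
      have : 0 < ∏ p ∈ oP w, p := prod_pos fun p hp => by
        unfold oP at hp
        exact (mem_filter.1 hp).2.pos
      omega
    omega
  obtain ⟨m, -, hm⟩ := Nat.exists_mul_mod_eq_one_of_coprime hbW hW1
  have hmW : m.Coprime (WW w) := by
    refine Nat.coprime_of_mul_modEq_one b ?_
    show m * b % WW w = 1 % WW w
    rw [mul_comm, hm, Nat.mod_eq_of_lt hW1]
  refine (hq T b hb1 hx (m * α) (Nat.Coprime.mul_left hmW hα)).trans ?_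
  have hsub : ((Ioc 0 T).filter fun q : ℕ => q.Prime ∧ T / 2 < b * q ∧ b * q ≤ T ∧
      q % WW w = (m * α) % WW w) ⊆ Qa w T b α := by
    intro q hq'
    rw [mem_filter] at hq'
    obtain ⟨g1, g2, g3, g4, g5⟩ := hq'
    unfold Qa
    rw [mem_filter]
    refine ⟨g1, g2, g3, g4, ?_⟩
    rw [Nat.mul_mod, g5, ← Nat.mul_mod, ← mul_assoc, Nat.mul_mod, hm, one_mul, Nat.mod_mod,
      Nat.mod_eq_of_lt hαW]
  exact_mod_cast card_le_card hsub

private lemma l11_q {M z T b q : ℕ} (hM : 1 ≤ M) (hz : 2 ≤ z) (hT : z ^ (30 * M) ≤ T)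
    (hb : b ≤ z) (h2 : T / 2 < b * q) : z ^ M < q := by
  have h3 : T < 2 * z * q := by
    calc T < 2 * (b * q) := by omega
      _ ≤ 2 * (z * q) := Nat.mul_le_mul_left 2 (Nat.mul_le_mul_right q hb)
      _ = 2 * z * q := by ring
  have h4 : z ^ (30 * M) < z ^ 2 * q := by
    calc z ^ (30 * M) ≤ T := hT
      _ < 2 * z * q := h3
      _ ≤ z * z * q := Nat.mul_le_mul_right q (Nat.mul_le_mul_right z hz)
      _ = z ^ 2 * q := by ring
  have h5 : z ^ (30 * M) = z ^ 2 * z ^ (30 * M - 2) := by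
    rw [← pow_add]
    congr 1
    omega
  rw [h5] at h4
  have h6 : z ^ (30 * M - 2) < q := Nat.lt_of_mul_lt_mul_left h4
  exact lt_of_le_of_lt (Nat.pow_le_pow_right (by omega) (by omega)) h6

/-- the elements of `Qa` -/
private lemma l11_mem {w M z T b α : ℕ} (hM : 1 ≤ M) (hz : 2 ≤ z) (hT : z ^ (30 * M) ≤ T)
    (hb1 : 1 ≤ b) (hb : b ≤ z) : ∀ q ∈ Qa w T b α, q.Prime ∧ z ^ M < q ∧ q ≤ T / b := by
  intro q hq
  unfold Qa at hq
  rw [mem_filter] at hq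
  obtain ⟨-, g2, g3, g4, -⟩ := hq
  refine ⟨g2, l11_q hM hz hT hb g3, ?_⟩
  rw [Nat.le_div_iff_mul_le (by omega), mul_comm]
  exact g4

private lemma l11_N {M z T b : ℕ} (hM : 1 ≤ M) (hz : 2 ≤ z) (hT : z ^ (30 * M) ≤ T)
    (hb1 : 1 ≤ b) (hb : b ≤ z) : z ^ (20 * M) ≤ T / b := by
  rw [Nat.le_div_iff_mul_le (by omega)]
  calc z ^ (20 * M) * b ≤ z ^ (20 * M) * z := Nat.mul_le_mul_left _ hb
    _ = z ^ (20 * M + 1) := (pow_succ _ _).symm
    _ ≤ z ^ (30 * M) := Nat.pow_le_pow_right (by omega) (by omega)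
    _ ≤ T := hT

/-- `(log z)^2 ≤ 16 sqrt z` -/
private lemma l11_log {z : ℕ} (hz : 1 ≤ z) : Real.log z ^ 2 ≤ 16 * Real.sqrt z := by
  have hz1 : (1 : ℝ) ≤ z := by exact_mod_cast hz
  have hz0 : (0 : ℝ) ≤ z := by linarith
  set s := Real.sqrt z with hs
  have hs0 : 0 ≤ s := Real.sqrt_nonneg _
  have hss : s ^ 2 = z := Real.sq_sqrt hz0
  set t := Real.sqrt s with ht
  have ht0 : 0 ≤ t := Real.sqrt_nonneg _
  have htt : t ^ 2 = s := Real.sq_sqrt hs0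
  have h4 : (z : ℝ) = t ^ 4 := by
    rw [← hss, ← htt]
    ring
  have htpos : 0 < t := by
    rcases ht0.lt_or_eq with h | h
    · exact h
    · rw [← h] at h4
      norm_num at h4
      linarith
  have h5 : Real.log z = 4 * Real.log t := by
    rw [h4, Real.log_pow]
    norm_num
  have h6 : Real.log t ≤ t - 1 := Real.log_le_sub_one_of_pos htpos
  have h7 : 0 ≤ Real.log z := Real.log_nonneg hz1
  have h8 : Real.log z ≤ 4 * t := by linarith
  calc Real.log z ^ 2 ≤ (4 * t) ^ 2 := pow_le_pow_left₀ h7 h8 2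
    _ = 16 * s := by rw [← htt]; ring

private lemma l11_logT {M z T : ℕ} (hM : 1 ≤ M) (hz : 30 ≤ z) (h1 : z ^ (30 * M) ≤ T)
    (h2 : T < (z + 1) ^ (30 * M)) :
    0 < Real.log T ∧ Real.log T ≤ 31 * M * Real.log z ∧ 1 ≤ Real.log z := by
  have hz0 : (30 : ℝ) ≤ z := by exact_mod_cast hz
  have hzpos : (0 : ℝ) < z := by linarith
  have hlz : 1 ≤ Real.log z := by
    rw [Real.le_log_iff_exp_le hzpos]
    have := Real.exp_one_lt_d9
    linarith
  have hT2 : 2 ≤ T := by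
    have h3 : z ^ 1 ≤ z ^ (30 * M) := Nat.pow_le_pow_right (by omega) (by omega)
    rw [pow_one] at h3
    omega
  have hT0 : (2 : ℝ) ≤ T := by exact_mod_cast hT2
  refine ⟨Real.log_pos (by linarith), ?_, hlz⟩
  have h3 : (T : ℝ) ≤ ((z : ℝ) + 1) ^ (30 * M) := by exact_mod_cast h2.le
  have h4 : Real.log T ≤ (30 * M : ℕ) * Real.log ((z : ℝ) + 1) := by
    rw [← Real.log_pow]
    exact Real.log_le_log (by linarith) h3
  have h5 : Real.log ((z : ℝ) + 1) ≤ Real.log z + 1 / z := by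
    have h6 : (z : ℝ) + 1 = z * (1 + 1 / z) := by
      field_simp
    rw [h6, Real.log_mul (by positivity) (by positivity)]
    have h7 : Real.log (1 + 1 / (z : ℝ)) ≤ (1 + 1 / z) - 1 :=
      Real.log_le_sub_one_of_pos (by positivity)
    linarith
  have h6 : 1 / (z : ℝ) ≤ 1 / 30 := one_div_le_one_div_of_le (by norm_num) hz0
  have h7 : Real.log ((z : ℝ) + 1) ≤ (31 / 30) * Real.log z := by linarith
  have hM0 : (0 : ℝ) ≤ M := Nat.cast_nonneg M
  calc Real.log T ≤ (30 * M : ℕ) * Real.log ((z : ℝ) + 1) := h4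
    _ ≤ (30 * M : ℕ) * ((31 / 30) * Real.log z) := mul_le_mul_of_nonneg_left h7 (Nat.cast_nonneg _)
    _ = 31 * M * Real.log z := by
      push_cast
      ring

theorem S1_low : ∃ c : ℝ, 0 < c ∧ ∀ P : Par, P.Adm → ∃ z0 : ℕ, ∀ z T : ℕ, z0 ≤ z → P.TZ z T →
    c * P.U0 z T ≤ ((S1 P z T).card : ℝ) := by
  classical
  obtain ⟨cV, hcV, hV⟩ := V_low
  obtain ⟨cB, hcB, hB⟩ := sum_BB
  obtain ⟨cC, hcC, hC⟩ := card_Cl
  refine ⟨0.35 * cV * cC * cB / 24025, by positivity, fun P hP => ?_⟩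
  have hM := l11_M hP
  have hw : 384 ≤ P.w := hP.hw
  have hW0 : 0 < WW P.w := by
    unfold WW
    have : 0 < ∏ p ∈ oP P.w, p := prod_pos fun p hp => by
      unfold oP at hp
      exact (mem_filter.1 hp).2.pos
    omega
  obtain ⟨x0, hx0⟩ := q_low (WW P.w) hW0
  obtain ⟨zV, hzV⟩ := hV P.M hM
  obtain ⟨zL, hzL⟩ := L_low hP
  obtain ⟨zs, hzs⟩ := sieve_low hP
  obtain ⟨Ce, hCe, herr⟩ := err_sum P.M hM
  set Φ : ℝ := ((WW P.w).totient : ℝ) with hΦ
  have hΦ0 : 0 < Φ := by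
    rw [hΦ]
    exact_mod_cast Nat.totient_pos.2 hW0
  have hM0 : (0 : ℝ) < P.M := by exact_mod_cast hM
  set A : ℝ := Ce * 25 * Φ ^ 2 * 961 * (P.M : ℝ) ^ 3 * 2 ^ P.J / (0.35 * cV) with hA
  have hA0 : 0 < A := by positivity
  refine ⟨max (max (max P.w 30) (max zV zL)) (max (max zs x0) ⌈(16 * A) ^ 2⌉₊),
    fun z T hz hTZ => ?_⟩
  obtain ⟨h0, h0'⟩ := max_le_iff.1 hz
  obtain ⟨h01, h02⟩ := max_le_iff.1 h0
  obtain ⟨h03, hzA⟩ := max_le_iff.1 h0'
  obtain ⟨hzw, hz30⟩ := max_le_iff.1 h01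
  obtain ⟨hzV', hzL'⟩ := max_le_iff.1 h02
  obtain ⟨hzs', hzx⟩ := max_le_iff.1 h03
  have hz2 : 2 ≤ z := by omega
  obtain ⟨hT1, hT2⟩ := hTZ
  obtain ⟨hlT, hlT2, hlz⟩ := l11_logT hM hz30 hT1 hT2
  have hV1 := hzV z hzV'
  have hz0 : (0 : ℝ) < z := by
    have : 0 < z := by omega
    exact_mod_cast this
  set Pl : ℝ := ∏ i ∈ range P.J, P.L z i with hPl
  have hPl1 : (1 / 2 : ℝ) ^ P.J ≤ Pl := by
    rw [hPl]
    calc (1 / 2 : ℝ) ^ P.J = ∏ i ∈ range P.J, (1 / 2 : ℝ) := by simp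
      _ ≤ _ := prod_le_prod (fun _ _ => by norm_num) fun i hi => hzL z hzL' i (mem_range.1 hi)
  have hPl0 : 0 < Pl := lt_of_lt_of_le (by positivity) hPl1
  set τ : ℝ := (T : ℝ) with hτ
  have hτ0 : 0 < τ := by
    have : 0 < T := lt_of_lt_of_le (Nat.pow_pos (by omega)) hT1
    rw [hτ]
    exact_mod_cast this
  set lT : ℝ := Real.log τ with hlTd
  set lz : ℝ := Real.log z with hlzd
  set K : ℝ := 0.7 * (cV / P.M) * Pl * (τ / (5 * Φ * lT)) ^ 2 with hK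
  set E : ℝ := Ce * τ ^ 2 / z with hE
  have hK0 : 0 < K := by positivity
  -- the error term is small
  have hEK : E ≤ K / 2 := by
    have k1 : A * lz ^ 2 ≤ z := by
      have k2 : lz ^ 2 ≤ 16 * Real.sqrt z := l11_log (by omega)
      have k3 : 16 * A ≤ Real.sqrt z := by
        rw [Real.le_sqrt (by positivity) hz0.le]
        calc (16 * A) ^ 2 ≤ (⌈(16 * A) ^ 2⌉₊ : ℝ) := Nat.le_ceil _
          _ ≤ z := by exact_mod_cast hzA
      have k4 : Real.sqrt z * Real.sqrt z = z := Real.mul_self_sqrt hz0.le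
      calc A * lz ^ 2 ≤ A * (16 * Real.sqrt z) := mul_le_mul_of_nonneg_left k2 hA0.le
        _ = 16 * A * Real.sqrt z := by ring
        _ ≤ Real.sqrt z * Real.sqrt z := mul_le_mul_of_nonneg_right k3 (Real.sqrt_nonneg _)
        _ = z := k4
    have k5 : lT ^ 2 ≤ 961 * (P.M : ℝ) ^ 2 * lz ^ 2 := by
      calc lT ^ 2 ≤ (31 * P.M * lz) ^ 2 := pow_le_pow_left₀ hlT.le hlT2 2
        _ = 961 * (P.M : ℝ) ^ 2 * lz ^ 2 := by ring
    have k6 : Ce * 25 * Φ ^ 2 * (P.M : ℝ) * 2 ^ P.J * lT ^ 2 ≤ 0.35 * cV * z := by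
      have k7 : Ce * 25 * Φ ^ 2 * (P.M : ℝ) * 2 ^ P.J * lT ^ 2 ≤
          Ce * 25 * Φ ^ 2 * (P.M : ℝ) * 2 ^ P.J * (961 * (P.M : ℝ) ^ 2 * lz ^ 2) :=
        mul_le_mul_of_nonneg_left k5 (by positivity)
      have k8 : Ce * 25 * Φ ^ 2 * (P.M : ℝ) * 2 ^ P.J * (961 * (P.M : ℝ) ^ 2 * lz ^ 2) =
          0.35 * cV * (A * lz ^ 2) := by
        rw [hA]
        field_simp
      rw [k8] at k7
      exact k7.trans (mul_le_mul_of_nonneg_left k1 (by positivity))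
    have k9 : 1 ≤ 2 ^ P.J * Pl := by
      calc (1 : ℝ) = 2 ^ P.J * (1 / 2) ^ P.J := by
            rw [← mul_pow]
            norm_num
        _ ≤ 2 ^ P.J * Pl := mul_le_mul_of_nonneg_left hPl1 (by positivity)
    have k10 : Ce * 25 * Φ ^ 2 * (P.M : ℝ) * lT ^ 2 ≤ 0.35 * cV * z * Pl := by
      have k11 : Ce * 25 * Φ ^ 2 * (P.M : ℝ) * lT ^ 2 * 1 ≤
          Ce * 25 * Φ ^ 2 * (P.M : ℝ) * lT ^ 2 * (2 ^ P.J * Pl) :=
        mul_le_mul_of_nonneg_left k9 (by positivity)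
      have k12 : Ce * 25 * Φ ^ 2 * (P.M : ℝ) * lT ^ 2 * (2 ^ P.J * Pl) =
          Ce * 25 * Φ ^ 2 * (P.M : ℝ) * 2 ^ P.J * lT ^ 2 * Pl := by ring
      rw [k12, mul_one] at k11
      exact k11.trans (mul_le_mul_of_nonneg_right k6 hPl0.le)
    have k13 : K / 2 = 0.35 * cV * Pl * τ ^ 2 / (25 * Φ ^ 2 * (P.M : ℝ) * lT ^ 2) := by
      rw [hK]
      field_simp
      ring
    rw [k13, hE, div_le_div_iff₀ hz0 (by positivity)]
    have k14 := mul_le_mul_of_nonneg_right k10 (sq_nonneg τ)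
    linarith [k14]
  -- one pair
  have hone : ∀ b ∈ Bset P.w z, ∀ c ∈ (Bset P.w z).filter (fun c => b.Coprime c),
      ∀ x ∈ Cl P.w, K / 2 * (1 / ((b : ℝ) * c)) ≤
        ((∑ pp ∈ Fintype.piFinset (fun i : Fin P.J => P.I z i), NB P z T b c x.1 x.2 pp : ℕ) : ℝ) := by
    intro b hb c hc x hx
    rw [mem_filter] at hc
    have hbI : 1 ≤ b ∧ b ≤ z := by
      have := hb
      simp only [Bset, mem_filter, mem_Icc] at this
      exact this.1
    have hcI : 1 ≤ c ∧ c ≤ z := by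
      have := hc.1
      simp only [Bset, mem_filter, mem_Icc] at this
      exact this.1
    have hb0 : (0 : ℝ) < b := by exact_mod_cast hbI.1
    have hc0 : (0 : ℝ) < c := by exact_mod_cast hcI.1
    simp only [Cl, mem_filter, mem_product, mem_range] at hx
    obtain ⟨⟨hx1, hx2⟩, hα, hβ, hx3⟩ := hx
    have hαc : x.1.Coprime (WW P.w) := l11_cop (by omega) fun p hp => (hx3 p hp).1
    have hβc : x.2.Coprime (WW P.w) := l11_cop (by omega) fun p hp => (hx3 p hp).2.1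
    have hxb : ∀ b : ℕ, b ≤ z → x0 * b ≤ T := by
      intro b hb
      calc x0 * b ≤ z * z := Nat.mul_le_mul hzx hb
        _ = z ^ 2 := by ring
        _ ≤ z ^ (30 * P.M) := Nat.pow_le_pow_right (by omega) (by omega)
        _ ≤ T := hT1
    have q1 := l11_card hw hb hαc hx1 hx0 (hxb b hbI.2)
    have q2 := l11_card hw hc.1 hβc hx2 hx0 (hxb c hcI.2)
    have s1 := hzs z T b c x.1 x.2 hzs'
    have e1 := herr z b c (T / b) (T / c) hz2 hbI.1 hbI.2 hcI.1 hcI.2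
      (l11_N hM hz2 hT1 hbI.1 hbI.2) (l11_N hM hz2 hT1 hcI.1 hcI.2) _ _
      (l11_mem (w := P.w) (α := x.1) hM hz2 hT1 hbI.1 hbI.2)
      (l11_mem (w := P.w) (α := x.2) hM hz2 hT1 hcI.1 hcI.2)
    have e2 : Ce * ((T / b : ℕ) : ℝ) * ((T / c : ℕ) : ℝ) / z ≤ E * (1 / ((b : ℝ) * c)) := by
      have e3 : ((T / b : ℕ) : ℝ) ≤ τ / b := Nat.cast_div_le
      have e4 : ((T / c : ℕ) : ℝ) ≤ τ / c := Nat.cast_div_le
      calc Ce * ((T / b : ℕ) : ℝ) * ((T / c : ℕ) : ℝ) / z ≤ Ce * (τ / b) * (τ / c) / z := by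
            gcongr
        _ = E * (1 / ((b : ℝ) * c)) := by
            rw [hE]
            field_simp
    have m1 : K * (1 / ((b : ℝ) * c)) ≤ 0.7 * VV0 z P.M * ((Qa P.w T b x.1).card : ℝ) *
        (Qa P.w T c x.2).card * Pl := by
      have q1' : τ / (5 * b * Φ * lT) ≤ ((Qa P.w T b x.1).card : ℝ) := q1
      have q2' : τ / (5 * c * Φ * lT) ≤ ((Qa P.w T c x.2).card : ℝ) := q2
      have hd1 : 0 ≤ τ / (5 * b * Φ * lT) := by positivity
      have hd2 : 0 ≤ τ / (5 * c * Φ * lT) := by positivity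
      have hcVM : 0 ≤ cV / P.M := by positivity
      have hVV0 : 0 ≤ VV0 z P.M := hcVM.trans hV1
      calc K * (1 / ((b : ℝ) * c)) =
            0.7 * (cV / P.M) * (τ / (5 * b * Φ * lT)) * (τ / (5 * c * Φ * lT)) * Pl := by
            rw [hK]
            field_simp
        _ ≤ _ := by
            gcongr
    have hcast : ((∑ pp ∈ Fintype.piFinset (fun i : Fin P.J => P.I z i),
        NB P z T b c x.1 x.2 pp : ℕ) : ℝ) =
        ∑ pp ∈ Fintype.piFinset (fun i : Fin P.J => P.I z i), (NB P z T b c x.1 x.2 pp : ℝ) := by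
      push_cast
      rfl
    rw [hcast]
    have hEb : E * (1 / ((b : ℝ) * c)) ≤ K / 2 * (1 / ((b : ℝ) * c)) :=
      mul_le_mul_of_nonneg_right hEK (by positivity)
    have f1 : K / 2 * (1 / ((b : ℝ) * c)) = K * (1 / ((b : ℝ) * c)) - K / 2 * (1 / ((b : ℝ) * c)) := by
      ring
    linarith
  -- the sum over the pairs
  have hsum : ((Cl P.w).card : ℝ) * (K / 2) * ∑ b ∈ Bset P.w z,
      ∑ c ∈ (Bset P.w z).filter (fun c => b.Coprime c), 1 / ((b : ℝ) * c) ≤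
      ((S1 P z T).card : ℝ) := by
    have h1 := card_S1 hP hz2 hzw ⟨hT1, hT2⟩
    have h2 : ((∑ b ∈ Bset P.w z, ∑ c ∈ (Bset P.w z).filter (fun c => b.Coprime c),
        ∑ x ∈ Cl P.w, ∑ pp ∈ Fintype.piFinset (fun i : Fin P.J => P.I z i),
        NB P z T b c x.1 x.2 pp : ℕ) : ℝ) ≤ ((S1 P z T).card : ℝ) := by exact_mod_cast h1
    refine le_trans ?_ h2
    rw [Nat.cast_sum, mul_sum]
    refine sum_le_sum fun b hb => ?_
    rw [Nat.cast_sum, mul_sum]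
    refine sum_le_sum fun c hc => ?_
    rw [Nat.cast_sum]
    calc ((Cl P.w).card : ℝ) * (K / 2) * (1 / ((b : ℝ) * c)) =
          ∑ x ∈ Cl P.w, K / 2 * (1 / ((b : ℝ) * c)) := by
          rw [sum_const, nsmul_eq_mul]
          ring
      _ ≤ _ := sum_le_sum fun x hx => hone b hb c hc x hx
  refine le_trans ?_ hsum
  have hlw : 0 < Real.log P.w := by
    apply Real.log_pos
    have : (384 : ℝ) ≤ P.w := by exact_mod_cast hw
    linarith
  have hC1 := hC P.w (by omega)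
  have hB1 := hB P.w z hw hzw
  have hC2 : cC / Real.log P.w * Φ ^ 2 ≤ ((Cl P.w).card : ℝ) := by
    rwa [le_div_iff₀ (by positivity)] at hC1
  set lw : ℝ := Real.log P.w with hlwd
  calc 0.35 * cV * cC * cB / 24025 * P.U0 z T =
        0.35 * cV * cC * cB / 24025 * (τ ^ 2 / ((P.M : ℝ) ^ 3 * lw ^ 3) * Pl) := rfl
    _ ≤ cC / lw * Φ ^ 2 * (K / 2) * (cB * (lz / lw) ^ 2) := by
        have k5 : lT ^ 2 ≤ 961 * (P.M : ℝ) ^ 2 * lz ^ 2 := by
          calc lT ^ 2 ≤ (31 * P.M * lz) ^ 2 := pow_le_pow_left₀ hlT.le hlT2 2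
            _ = 961 * (P.M : ℝ) ^ 2 * lz ^ 2 := by ring
        have k13 : K / 2 = 0.35 * cV * Pl * τ ^ 2 / (25 * Φ ^ 2 * (P.M : ℝ) * lT ^ 2) := by
          rw [hK]
          field_simp
          ring
        have k14 : cC / lw * Φ ^ 2 * (K / 2) * (cB * (lz / lw) ^ 2) =
            0.35 * cV * cC * cB * Pl * τ ^ 2 * lz ^ 2 / (25 * (P.M : ℝ) * lT ^ 2 * lw ^ 3) := by
          rw [k13]
          field_simp
        have k15 : 0.35 * cV * cC * cB / 24025 * (τ ^ 2 / ((P.M : ℝ) ^ 3 * lw ^ 3) * Pl) =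
            0.35 * cV * cC * cB * Pl * τ ^ 2 / (24025 * (P.M : ℝ) ^ 3 * lw ^ 3) := by
          field_simp
        rw [k14, k15, div_le_div_iff₀ (by positivity) (by positivity)]
        have k16 : 0 ≤ 0.35 * cV * cC * cB * Pl * τ ^ 2 * (25 * (P.M : ℝ) * lw ^ 3) := by positivity
        have k17 := mul_le_mul_of_nonneg_left k5 k16
        have k18 : 0.35 * cV * cC * cB * Pl * τ ^ 2 * (25 * (P.M : ℝ) * lT ^ 2 * lw ^ 3) =
            0.35 * cV * cC * cB * Pl * τ ^ 2 * (25 * (P.M : ℝ) * lw ^ 3) * lT ^ 2 := by ring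
        have k19 : 0.35 * cV * cC * cB * Pl * τ ^ 2 * lz ^ 2 * (24025 * (P.M : ℝ) ^ 3 * lw ^ 3) =
            0.35 * cV * cC * cB * Pl * τ ^ 2 * (25 * (P.M : ℝ) * lw ^ 3) *
              (961 * (P.M : ℝ) ^ 2 * lz ^ 2) := by ring
        rw [k18, k19]
        exact k17
    _ ≤ ((Cl P.w).card : ℝ) * (K / 2) * ∑ b ∈ Bset P.w z,
        ∑ c ∈ (Bset P.w z).filter (fun c => b.Coprime c), 1 / ((b : ℝ) * c) := by
        gcongr

end Pool.Agent.H77.K4
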