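import Pool.Agent.H77.K4.N1
import Pool.Agent.H77.K4.Defs3

/-!
# W2: the sum of the weights

For `2 ≤ w ≤ z`, `1 ≤ T`: `sum_φ Wt T φ = prod_(w < p ≤ z) (1 + 6/p^2 + 6 (1+3/p)/(2 p^(1+σ)))
≤ prod (1 + 3/p + 15/p^2) ≤ exp (3 sum 1/p + 15 sum 1/p^2) ≤ C (log z/log w)^3` (`mert2`;
`Stt 3` has one state `none`, one state `some none` of weight `6/p^2` and 6 states
`some (some (i, ρ))`; `Finset.prod_univ_sum` / `Fintype.piFinset`).

`sum_wt_sq`: the sum over the `φ` with a prime of state `some none` is at most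
`sum_(p > w) 6/p^2 * (product over the other primes) ≤ (C/w) (log z/log w)^3`
(`sum_(n > w) 1/n^2 ≤ 1/w`, i.e. over `p > w`).
-/

set_option autoImplicit false

namespace Pool.Agent.H77.K4

open Finset Pool.Agent.H77.SV

private theorem w2_nonneg (σ : ℝ) (p : ℕ) (s : Stt 3) : 0 ≤ wN 3 σ p s := by
  rcases s with _ | _ | a <;> simp only [wN] <;> positivity

/-- the sum of the weights at `p` -/
private noncomputable def w2g (σ : ℝ) (p : ℕ) : ℝ := ∑ s : Stt 3, wN 3 σ p s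

private theorem w2g_eq (σ : ℝ) (p : ℕ) : w2g σ p = 1 + (6 / (p : ℝ) ^ 2 +
    6 * ((1 + 3 / (p : ℝ)) / (2 * (p : ℝ) ^ (1 + σ)))) := by
  unfold w2g
  rw [Fintype.sum_option, Fintype.sum_option]
  simp only [wN, sum_const, card_univ, nsmul_eq_mul]
  have h : Fintype.card (Fin 3 × ZMod 2) = 6 := by decide
  rw [h]
  push_cast
  norm_num

private theorem w2g_le {σ : ℝ} (hσ : 0 ≤ σ) {p : ℕ} (hp : 1 ≤ p) :
    1 ≤ w2g σ p ∧ w2g σ p ≤ Real.exp (3 * (1 / (p : ℝ)) + 15 * ((p : ℝ) ^ 2)⁻¹) := by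
  have hp0 : (1 : ℝ) ≤ p := by exact_mod_cast hp
  have hpp : (0 : ℝ) < p := by linarith
  have h1 : (p : ℝ) ≤ (p : ℝ) ^ (1 + σ) := by
    calc (p : ℝ) = (p : ℝ) ^ (1 : ℝ) := (Real.rpow_one _).symm
      _ ≤ (p : ℝ) ^ (1 + σ) := Real.rpow_le_rpow_of_exponent_le hp0 (by linarith)
  have h2 : (1 + 3 / (p : ℝ)) / (2 * (p : ℝ) ^ (1 + σ)) ≤ (1 + 3 / (p : ℝ)) / (2 * (p : ℝ)) := by
    apply div_le_div_of_nonneg_left (by positivity) (by positivity)
    linarith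
  rw [w2g_eq]
  refine ⟨?_, ?_⟩
  · have : 0 ≤ 6 / (p : ℝ) ^ 2 + 6 * ((1 + 3 / (p : ℝ)) / (2 * (p : ℝ) ^ (1 + σ))) := by
      positivity
    linarith
  · have h3 : 6 * ((1 + 3 / (p : ℝ)) / (2 * (p : ℝ))) = 3 * (1 / (p : ℝ)) + 9 * ((p : ℝ) ^ 2)⁻¹ := by
      field_simp
      ring
    have h4 : 6 / (p : ℝ) ^ 2 = 6 * ((p : ℝ) ^ 2)⁻¹ := by
      rw [div_eq_mul_inv]
    have h5 := Real.add_one_le_exp (3 * (1 / (p : ℝ)) + 15 * ((p : ℝ) ^ 2)⁻¹)
    nlinarith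

private theorem w2_sig (T : ℕ) : 0 ≤ 1 / Real.log (T : ℝ) := by
  have := Real.log_natCast_nonneg T
  positivity

private theorem w2_pos {w z : ℕ} (p : Pr w z) : 1 ≤ (p : ℕ) := (mem_filter.1 p.2).2.one_le

private theorem w2_sq {w z : ℕ} (hw : 2 ≤ w) (hwz : w ≤ z) :
    ∑ p ∈ Pr w z, ((p : ℝ) ^ 2)⁻¹ ≤ (w : ℝ)⁻¹ := by
  have h1 : ∑ p ∈ Pr w z, ((p : ℝ) ^ 2)⁻¹ ≤ ∑ p ∈ Ioc w z, ((p : ℝ) ^ 2)⁻¹ :=
    sum_le_sum_of_subset_of_nonneg (filter_subset _ _) fun p _ _ => by positivity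
  have h2 : ∑ p ∈ Ioc w z, ((p : ℝ) ^ 2)⁻¹ ≤ (w : ℝ)⁻¹ - (z : ℝ)⁻¹ :=
    sum_Ioc_inv_sq_le_sub (by omega) hwz
  have h3 : 0 ≤ (z : ℝ)⁻¹ := by positivity
  linarith

private theorem w2_prod : ∃ C : ℝ, 0 < C ∧ ∀ w z T : ℕ, 2 ≤ w → w ≤ z → 1 ≤ T →
    ∏ p : Pr w z, w2g (1 / Real.log T) p ≤ C * (Real.log z / Real.log w) ^ 3 := by
  obtain ⟨C, hC0, hC⟩ := mert2
  refine ⟨Real.exp (3 * (C / Real.log 2) + 15), Real.exp_pos _, fun w z T hw hwz hT => ?_⟩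
  have hl2 : 0 < Real.log 2 := Real.log_pos (by norm_num)
  have hw2 : (2 : ℝ) ≤ w := by exact_mod_cast hw
  have hwz' : (w : ℝ) ≤ z := by exact_mod_cast hwz
  have hlw : Real.log 2 ≤ Real.log w := Real.log_le_log (by norm_num) hw2
  have hlz : Real.log w ≤ Real.log z := Real.log_le_log (by linarith) hwz'
  have hlw0 : 0 < Real.log w := by linarith
  have hlz0 : 0 < Real.log z := by linarith
  have h1 : ∏ p : Pr w z, w2g (1 / Real.log T) p ≤
      ∏ p : Pr w z, Real.exp (3 * (1 / ((p : ℕ) : ℝ)) + 15 * (((p : ℕ) : ℝ) ^ 2)⁻¹) := by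
    refine prod_le_prod (fun p _ => ?_) fun p _ => (w2g_le (w2_sig T) (w2_pos p)).2
    linarith [(w2g_le (w2_sig T) (w2_pos p)).1]
  have h2 : ∏ p : Pr w z, Real.exp (3 * (1 / ((p : ℕ) : ℝ)) + 15 * (((p : ℕ) : ℝ) ^ 2)⁻¹) =
      Real.exp (3 * ∑ p ∈ Pr w z, 1 / (p : ℝ) + 15 * ∑ p ∈ Pr w z, ((p : ℝ) ^ 2)⁻¹) := by
    rw [← Real.exp_sum, Finset.sum_coe_sort (Pr w z)
      (fun p : ℕ => 3 * (1 / (p : ℝ)) + 15 * ((p : ℝ) ^ 2)⁻¹), sum_add_distrib, mul_sum, mul_sum]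
  rw [h2] at h1
  refine h1.trans ?_
  have h3 : ∑ p ∈ Pr w z, 1 / (p : ℝ) ≤
      (Real.log (Real.log z) - Real.log (Real.log w)) + C / Real.log 2 := by
    have h4 := (abs_le.1 (hC w z hw hwz)).2
    have h5 : C / Real.log w ≤ C / Real.log 2 :=
      div_le_div_of_nonneg_left hC0.le hl2 hlw
    have h6 : ∑ p ∈ Pr w z, 1 / (p : ℝ) = ∑ p ∈ (Ioc w z).filter Nat.Prime, 1 / (p : ℝ) := rfl
    rw [h6]
    linarith
  have h7 := w2_sq hw hwz
  have h8 : (w : ℝ)⁻¹ ≤ 1 := inv_le_one_of_one_le₀ (by linarith)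
  have h9 : Real.exp (3 * ∑ p ∈ Pr w z, 1 / (p : ℝ) + 15 * ∑ p ∈ Pr w z, ((p : ℝ) ^ 2)⁻¹) ≤
      Real.exp ((3 * (C / Real.log 2) + 15) + 3 * (Real.log (Real.log z) - Real.log (Real.log w))) := by
    apply Real.exp_le_exp.2
    linarith
  refine h9.trans (le_of_eq ?_)
  rw [Real.exp_add]
  congr 1
  have h10 : Real.log (Real.log z) - Real.log (Real.log w) = Real.log (Real.log z / Real.log w) :=
    (Real.log_div hlz0.ne' hlw0.ne').symm
  have h11 : (3 : ℝ) * Real.log (Real.log z / Real.log w) =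
      Real.log ((Real.log z / Real.log w) ^ 3) := by
    rw [Real.log_pow]
    norm_num
  rw [h10, h11, Real.exp_log (by positivity)]

private theorem w2_pi {w z : ℕ} (h : Pr w z → Stt 3 → ℝ) :
    ∑ φ : Pr w z → Stt 3, ∏ p : Pr w z, h p (φ p) = ∏ p : Pr w z, ∑ s : Stt 3, h p s := by
  rw [Finset.prod_univ_sum, Fintype.piFinset_univ]

theorem sum_wt : ∃ C : ℝ, 0 < C ∧ ∀ w z T : ℕ, 2 ≤ w → w ≤ z → 1 ≤ T →
    ∑ φ : Pr w z → Stt 3, Wt T φ ≤ C * (Real.log z / Real.log w) ^ 3 := by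
  obtain ⟨C, hC0, hC⟩ := w2_prod
  refine ⟨C, hC0, fun w z T hw hwz hT => ?_⟩
  unfold Wt
  rw [w2_pi (fun p s => wN 3 (1 / Real.log T) p s)]
  exact hC w z T hw hwz hT

open Classical in
theorem sum_wt_sq : ∃ C : ℝ, 0 < C ∧ ∀ w z T : ℕ, 2 ≤ w → w ≤ z → 1 ≤ T →
    (∑ φ : Pr w z → Stt 3, if ∃ p, φ p = some none then Wt T φ else 0) ≤
      C / w * (Real.log z / Real.log w) ^ 3 := by
  obtain ⟨C, hC0, hC⟩ := w2_prod
  refine ⟨6 * C, by linarith, fun w z T hw hwz hT => ?_⟩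
  have hw2 : (2 : ℝ) ≤ w := by exact_mod_cast hw
  set σ : ℝ := 1 / Real.log T with hσ
  have hσ0 : 0 ≤ σ := w2_sig T
  have hG := hC w z T hw hwz hT
  rw [← hσ] at hG
  set G : ℝ := ∏ p : Pr w z, w2g σ p with hGd
  have hG0 : 0 ≤ G := prod_nonneg fun p _ => by linarith [(w2g_le hσ0 (w2_pos p)).1]
  have h1 : ∀ φ : Pr w z → Stt 3, (if ∃ p, φ p = some none then Wt T φ else 0) ≤
      ∑ p0 : Pr w z, if φ p0 = some none then Wt T φ else 0 := by
    intro φ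
    have hW : 0 ≤ Wt T φ := prod_nonneg fun p _ => w2_nonneg _ _ _
    split_ifs with h
    · obtain ⟨p0, hp0⟩ := h
      have h2 : (if φ p0 = some none then Wt T φ else 0) ≤
          ∑ p0 : Pr w z, if φ p0 = some none then Wt T φ else 0 :=
        single_le_sum (f := fun p0 : Pr w z => if φ p0 = some none then Wt T φ else 0)
          (fun p _ => by
            show 0 ≤ if φ p = some none then Wt T φ else 0
            split_ifs
            · exact hW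
            · exact le_rfl) (mem_univ p0)
      rw [if_pos hp0] at h2
      exact h2
    · refine sum_nonneg fun p _ => ?_
      split_ifs
      · exact hW
      · exact le_rfl
  have h2 : ∀ p0 : Pr w z, ∑ φ : Pr w z → Stt 3, (if φ p0 = some none then Wt T φ else 0) ≤
      6 * (((p0 : ℕ) : ℝ) ^ 2)⁻¹ * G := by
    intro p0
    have h3 : ∀ φ : Pr w z → Stt 3, (if φ p0 = some none then Wt T φ else 0) =
        ∏ p : Pr w z, (if p = p0 ∧ φ p ≠ some none then 0 else wN 3 σ p (φ p)) := by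
      intro φ
      split_ifs with h
      · unfold Wt
        refine prod_congr rfl fun p _ => ?_
        rw [if_neg]
        rintro ⟨h4, h5⟩
        rw [h4] at h5
        exact h5 h
      · symm
        refine prod_eq_zero (mem_univ p0) ?_
        rw [if_pos ⟨rfl, h⟩]
    rw [sum_congr rfl fun φ _ => h3 φ,
      w2_pi (fun p s => if p = p0 ∧ s ≠ some none then 0 else wN 3 σ p s)]
    have h4 : 6 * (((p0 : ℕ) : ℝ) ^ 2)⁻¹ * G =
        ∏ p : Pr w z, ((if p = p0 then 6 * (((p0 : ℕ) : ℝ) ^ 2)⁻¹ else 1) * w2g σ p) := by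
      rw [prod_mul_distrib, prod_ite_eq' univ p0, if_pos (mem_univ p0)]
    rw [h4]
    refine prod_le_prod (fun p _ => sum_nonneg fun s _ => ?_) fun p _ => ?_
    · split_ifs
      · exact le_rfl
      · exact w2_nonneg _ _ _
    · by_cases hp : p = p0
      · rw [if_pos hp]
        have h5 : ∑ s : Stt 3, (if p = p0 ∧ s ≠ some none then 0 else wN 3 σ p s) =
            6 * (((p0 : ℕ) : ℝ) ^ 2)⁻¹ := by
          rw [Fintype.sum_eq_single (some none)]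
          · rw [if_neg (fun h => h.2 rfl), hp]
            simp only [wN]
            rw [div_eq_mul_inv]
            norm_num
          · intro s hs
            rw [if_pos ⟨hp, hs⟩]
        rw [h5]
        have h6 := (w2g_le hσ0 (w2_pos p)).1
        have h7 : 0 ≤ 6 * (((p0 : ℕ) : ℝ) ^ 2)⁻¹ := by positivity
        nlinarith
      · rw [if_neg hp, one_mul]
        refine le_of_eq (sum_congr rfl fun s _ => ?_)
        rw [if_neg (fun h => hp h.1)]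
  calc (∑ φ : Pr w z → Stt 3, if ∃ p, φ p = some none then Wt T φ else 0)
      ≤ ∑ φ : Pr w z → Stt 3, ∑ p0 : Pr w z, (if φ p0 = some none then Wt T φ else 0) :=
        sum_le_sum fun φ _ => h1 φ
    _ = ∑ p0 : Pr w z, ∑ φ : Pr w z → Stt 3, (if φ p0 = some none then Wt T φ else 0) :=
        sum_comm
    _ ≤ ∑ p0 : Pr w z, 6 * (((p0 : ℕ) : ℝ) ^ 2)⁻¹ * G := sum_le_sum fun p0 _ => h2 p0
    _ = 6 * (∑ p ∈ Pr w z, ((p : ℝ) ^ 2)⁻¹) * G := by
        rw [← sum_mul, ← mul_sum, Finset.sum_coe_sort (Pr w z) (fun p : ℕ => ((p : ℝ) ^ 2)⁻¹)]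
    _ ≤ 6 * (w : ℝ)⁻¹ * (C * (Real.log z / Real.log w) ^ 3) := by
        refine mul_le_mul ?_ hG hG0 (by positivity)
        exact mul_le_mul_of_nonneg_left (w2_sq hw hwz) (by norm_num)
    _ = 6 * C / w * (Real.log z / Real.log w) ^ 3 := by
        rw [div_eq_mul_inv]
        ring

end Pool.Agent.H77.K4
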