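import Pool.Agent.H77.K4.W2

/-!
# W3: large smooth parts are rare

The sum of `Wt T φ` over the `φ` for which the product of the primes of state `some (some (0, ρ))`
exceeds `z^A` is at most `(C/A) (log z/log w)^3`.

Proof (Markov). If the product exceeds `z^A` then
`sum_(p : state some (some (0,_))) log p ≥ A log z`. So the sum is at most
`1/(A log z) * sum_p log p * sum_(φ : φ p = some (some (0, ρ)), some ρ) Wt T φ`; the inner sum is at
most `2 (1+3/p)/(2 p^(1+σ))` times the product over the other primes of their total weights (each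
total is `≥ 1`), so it is `≤ (2/p) * 2 * C0 (log z/log w)^3`, as in `sum_wt`
(`1 + 3/p ≤ 2` for `p ≥ 3`). And `sum_(p ≤ z) log p / p ≤ log z + C ≤ C' log z`
(`Pool.Agent.H34.NA.mertens_primes`).
-/

set_option autoImplicit false

namespace Pool.Agent.H77.K4

open Finset Pool.Agent.H77.SV

private theorem w3_nonneg (k : ℕ) (σ : ℝ) (p : ℕ) (s : Stt k) : 0 ≤ wN k σ p s := by
  rcases s with _ | _ | a <;> simp only [wN] <;> positivity

open Classical in
private theorem w3_two {σ : ℝ} (hσ : 0 ≤ σ) {p : ℕ} (hp : 3 ≤ p) :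
    (∑ s : Stt 3, if ∃ ρ, s = some (some (0, ρ)) then wN 3 σ p s else 0) ≤ 2 / (p : ℝ) := by
  have hp0 : (3 : ℝ) ≤ p := by exact_mod_cast hp
  have hterm : (1 + (3 : ℝ) / p) / (2 * (p : ℝ) ^ (1 + σ)) ≤ 1 / p := by
    have h1 : (3 : ℝ) / p ≤ 1 := by
      rw [div_le_one (by linarith)]
      exact hp0
    have h2 : (p : ℝ) ≤ (p : ℝ) ^ (1 + σ) := by
      nth_rewrite 1 [← Real.rpow_one (p : ℝ)]
      exact Real.rpow_le_rpow_of_exponent_le (by linarith) (by linarith)
    rw [div_le_div_iff₀ (by positivity) (by linarith)]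
    nlinarith
  have heq : ∀ s : Stt 3, (if ∃ ρ, s = some (some (0, ρ)) then wN 3 σ p s else 0) ≤
      if ∃ ρ, s = some (some (0, ρ)) then 1 / (p : ℝ) else 0 := by
    intro s
    split_ifs with h
    · obtain ⟨ρ, rfl⟩ := h
      simpa [wN] using hterm
    · exact le_rfl
  refine (Finset.sum_le_sum fun s _ => heq s).trans ?_
  rw [← Finset.sum_filter, Finset.sum_const, nsmul_eq_mul]
  have hcard : (univ.filter fun s : Stt 3 => ∃ ρ, s = some (some (0, ρ))).card ≤ 2 := by
    have hsub : (univ.filter fun s : Stt 3 => ∃ ρ, s = some (some (0, ρ))) ⊆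
        (univ : Finset (ZMod 2)).image fun ρ => some (some (0, ρ)) := by
      intro s hs
      rw [Finset.mem_filter] at hs
      obtain ⟨ρ, rfl⟩ := hs.2
      exact Finset.mem_image_of_mem _ (Finset.mem_univ ρ)
    refine (Finset.card_le_card hsub).trans (Finset.card_image_le.trans ?_)
    rw [Finset.card_univ, ZMod.card]
  have hcard' : (((univ.filter fun s : Stt 3 => ∃ ρ, s = some (some (0, ρ))).card : ℕ) : ℝ) ≤ 2 := by
    exact_mod_cast hcard
  calc _ ≤ 2 * (1 / (p : ℝ)) := mul_le_mul_of_nonneg_right hcard' (by positivity)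
    _ = 2 / (p : ℝ) := by ring

open Classical in
private theorem w3_inner {w z T : ℕ} (hw : 2 ≤ w) (_hT : 1 ≤ T) (p0 : Pr w z) :
    (∑ φ : Pr w z → Stt 3, if ∃ ρ, φ p0 = some (some (0, ρ)) then Wt T φ else 0) ≤
      2 / ((p0 : ℕ) : ℝ) * ∑ φ : Pr w z → Stt 3, Wt T φ := by
  have hσ : (0 : ℝ) ≤ 1 / Real.log T := by
    have : 0 ≤ Real.log T := Real.log_natCast_nonneg T
    positivity
  have hp3 : 3 ≤ (p0 : ℕ) := by
    have h := Finset.mem_Ioc.1 (Finset.mem_filter.1 p0.2).1
    omega
  set W : Pr w z → Stt 3 → ℝ := fun p s => wN 3 (1 / Real.log T) p s with hW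
  set g : Pr w z → Stt 3 → ℝ := fun p s =>
    if p = p0 ∧ ¬ ∃ ρ, s = some (some (0, ρ)) then 0 else W p s with hg
  have hWt : ∀ φ : Pr w z → Stt 3, Wt T φ = ∏ p, W p (φ p) := fun φ => rfl
  have h1 : ∀ φ : Pr w z → Stt 3,
      (if ∃ ρ, φ p0 = some (some (0, ρ)) then Wt T φ else 0) = ∏ p, g p (φ p) := by
    intro φ
    split_ifs with h
    · rw [hWt]
      apply Finset.prod_congr rfl
      intro p _
      simp only [hg]
      rw [if_neg]
      rintro ⟨rfl, h2⟩
      exact h2 h
    · symm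
      apply Finset.prod_eq_zero (Finset.mem_univ p0)
      simp only [hg]
      rw [if_pos]
      exact ⟨trivial, h⟩
  have hprod : ∀ F : Pr w z → Stt 3 → ℝ,
      (∑ φ : Pr w z → Stt 3, ∏ p, F p (φ p)) = ∏ p, ∑ s : Stt 3, F p s := by
    intro F
    rw [Finset.prod_univ_sum, Fintype.piFinset_univ]
  rw [Finset.sum_congr rfl (fun φ _ => h1 φ), Finset.sum_congr rfl (fun φ _ => hWt φ), hprod,
    hprod]
  have htot : ∀ p : Pr w z, 1 ≤ ∑ s : Stt 3, W p s := by
    intro p
    have h2 := Finset.single_le_sum (f := fun s => W p s)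
      (fun s _ => w3_nonneg 3 _ _ s) (Finset.mem_univ (none : Stt 3))
    refine le_trans (le_of_eq ?_) h2
    simp only [hW, wN]
  have hle : ∏ p, ∑ s : Stt 3, g p s ≤
      ∏ p, ((if p = p0 then 2 / ((p0 : ℕ) : ℝ) else 1) * ∑ s : Stt 3, W p s) := by
    apply Finset.prod_le_prod
    · intro p _
      apply Finset.sum_nonneg
      intro s _
      simp only [hg]
      split_ifs
      · exact le_rfl
      · exact w3_nonneg 3 _ _ s
    · intro p _
      by_cases hp : p = p0
      · subst hp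
        rw [if_pos rfl]
        have h2 : ∑ s : Stt 3, g p s ≤ 2 / ((p : ℕ) : ℝ) := by
          refine le_trans (le_of_eq ?_) (w3_two hσ hp3)
          apply Finset.sum_congr rfl
          intro s _
          simp only [hg, hW, true_and]
          by_cases h3 : ∃ ρ, s = some (some (0, ρ))
          · rw [if_neg (not_not.2 h3), if_pos h3]
          · rw [if_pos h3, if_neg h3]
        have h4 : 0 ≤ 2 / ((p : ℕ) : ℝ) := by positivity
        nlinarith [htot p]
      · rw [if_neg hp, one_mul]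
        apply le_of_eq
        apply Finset.sum_congr rfl
        intro s _
        simp only [hg]
        rw [if_neg]
        rintro ⟨h3, -⟩
        exact hp h3
  refine hle.trans (le_of_eq ?_)
  rw [Finset.prod_mul_distrib, Finset.prod_ite_eq', if_pos (Finset.mem_univ _)]

open Classical in
theorem sum_wt_big : ∃ C : ℝ, 0 < C ∧ ∀ w z T A : ℕ, 2 ≤ w → w ≤ z → 1 ≤ T → 1 ≤ A →
    (∑ φ : Pr w z → Stt 3,
      if z ^ A < ∏ p : Pr w z, (if ∃ ρ, φ p = some (some (0, ρ)) then (p : ℕ) else 1)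
      then Wt T φ else 0) ≤ C / A * (Real.log z / Real.log w) ^ 3 := by
  obtain ⟨C0, hC0, h0⟩ := sum_wt
  obtain ⟨C1, hC1, h1⟩ := Pool.Agent.H34.NA.mertens_primes
  have hl2 : 0 < Real.log 2 := Real.log_pos (by norm_num)
  refine ⟨2 * C0 * (1 + C1 / Real.log 2), by positivity, fun w z T A hw hwz hT hA => ?_⟩
  have hz2 : (2 : ℝ) ≤ z := by exact_mod_cast hw.trans hwz
  have hlz : Real.log 2 ≤ Real.log z := Real.log_le_log (by norm_num) hz2
  have hlz0 : 0 < Real.log z := lt_of_lt_of_le hl2 hlz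
  have hA0 : (0 : ℝ) < A := by exact_mod_cast hA
  have hWt0 : ∀ φ : Pr w z → Stt 3, 0 ≤ Wt T φ := fun φ =>
    Finset.prod_nonneg fun p _ => w3_nonneg 3 _ _ _
  have hp0 : ∀ p : Pr w z, (1 : ℝ) ≤ ((p : ℕ) : ℝ) := by
    intro p
    have h := Finset.mem_Ioc.1 (Finset.mem_filter.1 p.2).1
    have : 1 ≤ (p : ℕ) := by omega
    exact_mod_cast this
  -- Markov
  have hmar : ∀ φ : Pr w z → Stt 3,
      (if z ^ A < ∏ p : Pr w z, (if ∃ ρ, φ p = some (some (0, ρ)) then (p : ℕ) else 1)
        then Wt T φ else 0) ≤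
      1 / (A * Real.log z) * ∑ p : Pr w z, Real.log ((p : ℕ) : ℝ) *
        (if ∃ ρ, φ p = some (some (0, ρ)) then Wt T φ else 0) := by
    intro φ
    have hs0 : ∀ p : Pr w z, 0 ≤ Real.log ((p : ℕ) : ℝ) *
        (if ∃ ρ, φ p = some (some (0, ρ)) then Wt T φ else 0) := by
      intro p
      apply mul_nonneg (Real.log_nonneg (hp0 p))
      split_ifs
      · exact hWt0 φ
      · exact le_rfl
    split_ifs with h
    · have h2 : (A : ℝ) * Real.log z ≤ ∑ p : Pr w z,
          (if ∃ ρ, φ p = some (some (0, ρ)) then Real.log ((p : ℕ) : ℝ) else 0) := by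
        have h3 : ((z : ℝ) ^ A) ≤ ((∏ p : Pr w z,
            (if ∃ ρ, φ p = some (some (0, ρ)) then (p : ℕ) else 1) : ℕ) : ℝ) := by
          exact_mod_cast h.le
        have h4 := Real.log_le_log (by positivity) h3
        rw [Real.log_pow, Nat.cast_prod, Real.log_prod] at h4
        · refine h4.trans (le_of_eq ?_)
          apply Finset.sum_congr rfl
          intro p _
          split_ifs <;> simp
        · intro p _
          split_ifs
          · have := hp0 p
            exact ne_of_gt (by linarith)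
          · simp
      have h5 : ∑ p : Pr w z, Real.log ((p : ℕ) : ℝ) *
          (if ∃ ρ, φ p = some (some (0, ρ)) then Wt T φ else 0) = (∑ p : Pr w z,
          (if ∃ ρ, φ p = some (some (0, ρ)) then Real.log ((p : ℕ) : ℝ) else 0)) * Wt T φ := by
        rw [Finset.sum_mul]
        apply Finset.sum_congr rfl
        intro p _
        split_ifs <;> simp
      rw [h5, one_div, ← div_eq_inv_mul, le_div_iff₀ (by positivity), mul_comm]
      exact mul_le_mul_of_nonneg_right h2 (hWt0 φ)
    · apply mul_nonneg (by positivity)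
      exact Finset.sum_nonneg fun p _ => hs0 p
  refine (Finset.sum_le_sum fun φ _ => hmar φ).trans ?_
  rw [← Finset.mul_sum, Finset.sum_comm]
  have hin : ∀ p : Pr w z, ∑ φ : Pr w z → Stt 3, Real.log ((p : ℕ) : ℝ) *
      (if ∃ ρ, φ p = some (some (0, ρ)) then Wt T φ else 0) ≤
      (Real.log ((p : ℕ) : ℝ) / ((p : ℕ) : ℝ)) *
        (2 * (C0 * (Real.log z / Real.log w) ^ 3)) := by
    intro p
    rw [← Finset.mul_sum]
    have h2 := w3_inner hw hT p
    have h3 := h0 w z T hw hwz hT
    have h4 : 0 ≤ 2 / ((p : ℕ) : ℝ) := by positivity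
    calc _ ≤ Real.log ((p : ℕ) : ℝ) * (2 / ((p : ℕ) : ℝ) *
          (C0 * (Real.log z / Real.log w) ^ 3)) := by
          apply mul_le_mul_of_nonneg_left _ (Real.log_nonneg (hp0 p))
          exact h2.trans (mul_le_mul_of_nonneg_left h3 h4)
      _ = _ := by ring
  have hlw : 0 < Real.log w := Real.log_pos (by exact_mod_cast (by omega : 1 < w))
  have hsum : ∑ p : Pr w z, Real.log ((p : ℕ) : ℝ) / ((p : ℕ) : ℝ) ≤
      Real.log z * (1 + C1 / Real.log 2) := by
    have h2 : ∑ p : Pr w z, Real.log ((p : ℕ) : ℝ) / ((p : ℕ) : ℝ) =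
        ∑ p ∈ Pr w z, Real.log (p : ℝ) / (p : ℝ) :=
      Finset.sum_coe_sort (Pr w z) (fun p : ℕ => Real.log (p : ℝ) / (p : ℝ))
    have h3 : ∑ p ∈ Pr w z, Real.log (p : ℝ) / (p : ℝ) ≤
        ∑ p ∈ (Ioc 0 z).filter Nat.Prime, Real.log (p : ℝ) / (p : ℝ) := by
      apply Finset.sum_le_sum_of_subset_of_nonneg
      · intro p hp
        have hp1 := Finset.mem_filter.1 hp
        have hp2 := Finset.mem_Ioc.1 hp1.1
        rw [Finset.mem_filter, Finset.mem_Ioc]
        exact ⟨⟨by omega, hp2.2⟩, hp1.2⟩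
      · intro p _ _
        exact div_nonneg (Real.log_natCast_nonneg p) (Nat.cast_nonneg p)
    have h4 := h1 z (by omega)
    rw [abs_le] at h4
    have h5 : C1 ≤ Real.log z * (C1 / Real.log 2) := by
      rw [← mul_div_assoc, le_div_iff₀ hl2, mul_comm]
      exact mul_le_mul_of_nonneg_right hlz hC1
    rw [h2]
    nlinarith [h4.2]
  have hin2 := Finset.sum_le_sum fun (p : Pr w z) (_ : p ∈ univ) => hin p
  rw [← Finset.sum_mul] at hin2
  have hK : 0 ≤ 2 * (C0 * (Real.log z / Real.log w) ^ 3) := by positivity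
  calc _ ≤ 1 / (A * Real.log z) * ((Real.log z * (1 + C1 / Real.log 2)) *
        (2 * (C0 * (Real.log z / Real.log w) ^ 3))) := by
        apply mul_le_mul_of_nonneg_left _ (by positivity)
        exact hin2.trans (mul_le_mul_of_nonneg_right hsum hK)
    _ = _ := by
        field_simp

end Pool.Agent.H77.K4
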