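import Pool.Agent.H77.K4.W1
import Pool.Agent.H77.K4.W2
import Pool.Agent.H77.K4.W3
import Pool.Agent.H77.K4.L7
import Pool.Agent.H77.K4.Defs4
import Pool.Agent.H77.SV.SmTail

/-!
# L12: the elements of `S1` which are not in `SS`

There is an absolute `C` such that for admissible `P` and `z ≥ z0(P)`:
`# (S1 \ SS) ≤ (C/w + C/A) U0 + C exp (-3M) T^2`.

Proof. Let `x = (Y, Z) ∈ S1 \ SS`, `q = lpf Y`, `r = lpf Z`, `b = Y/q`, `c = Z/r ≤ z`, `q, r > z^M` primes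
(as in X1). Then one of the following holds.
(i) `q = r`. At most `z^2 T` elements, `≤ T^2/z` (`T ≥ z^(30M)`).
(ii) `q ≠ r` and `p^2 | X` for a prime `p > z`. At most
`sum_(z < p ≤ sqrt(2T)) T (T/p^2 + 1) ≤ T^2/z + 2 T^(3/2) ≤ 2 T^2/z`.
In the remaining cases `Y`, `Z` are coprime (`b, c` coprime; `q ∤ c`, `r ∤ b`), `Y`, `Z` are squarefree,
and all conditions of `Bs` hold except perhaps `Good`.
(iii) not `Good T (z^M)`. The `z^M`-smooth part of `(Y+Z) Y Z` is `sm X sm Y sm Z` with `sm Y = b ≤ z`,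
`sm Z = c ≤ z`, `sm_(z^M) X = sm_z X * (product of the ppI i) ≤ sm_z X * z^M` (`sum ff i ≤ M`; no
squares of primes `> z`). So `sm_z X ≥ T^(1/4) z^(-M-2) > z^(6M)`; by `smooth_tail` (`SV/SmTail.lean`,
`N = 2T`, `y = z^(6M)`) there are at most `C 2T exp (-3M)` values of `X ≤ 2T`, and at most `T` pairs
for each.
(iv) `Good`, so `x ∈ BS`, and `p^2 | X` for a prime `p ≤ z`, `p ≠ 2`: then `p > w` and its state is
`some none`. By `ubgen` with `g φ pp = [some state is some none]` and `sum_wt_sq`: at most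
`C0 T^2 M^(-3) (log z)^(-3) (prod L_i) (C/w) (log z/log w)^3 = (C0 C/w) U0`.
(v) `Good`, no odd `p^2 | X`, and the product of the odd primes `≤ z` of `X` is `> z^A`: their state
is `some (some (0, ρ))` (they are `> w`). `ubgen` and `sum_wt_big`: at most `(C0 C/A) U0`.
If none of (i) to (v) holds then `x ∈ SS`: `hsq` (`X, Y, Z` pairwise coprime).
(i), (ii): `3 T^2/z ≤ exp (-3M) T^2` for `z ≥ z0(P)`.
-/

set_option autoImplicit false

namespace Pool.Agent.H77.K4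

open Finset Pool.Agent.H77.SV

private theorem l12_M {P : Par} (hP : P.Adm) : 400 ≤ P.M := by
  have h1 := hP.hE
  have h2 : 1 ≤ (13 * P.B) ^ P.J := Nat.one_le_pow _ _ (by have := hP.hB; omega)
  have h3 : P.E0 ≤ P.E0 * (13 * P.B) ^ P.J := Nat.le_mul_of_pos_right _ h2
  have h4 := hP.hA
  show 400 ≤ P.E0 * (13 * P.B) ^ P.J
  omega

/-! ### smooth parts -/

private theorem l12_sm_eq (y N : ℕ) :
    sm y N = ∏ p ∈ (range (y + 1)).filter Nat.Prime, p ^ N.factorization p := by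
  unfold sm
  refine prod_subset_one_on_sdiff ?_ ?_ fun p _ => rfl
  · intro p hp
    rw [mem_filter, Nat.mem_primeFactors] at hp
    rw [mem_filter, mem_range]
    exact ⟨by omega, hp.1.1⟩
  · intro p hp
    rw [mem_sdiff, mem_filter, mem_filter, mem_range] at hp
    have h : p ∉ N.primeFactors := fun h => hp.2 ⟨h, by omega⟩
    rw [← Nat.support_factorization, Finsupp.notMem_support_iff] at h
    rw [h, pow_zero]

private theorem l12_sm_mul (y : ℕ) {m n : ℕ} (hm : m ≠ 0) (hn : n ≠ 0) :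
    sm y (m * n) = sm y m * sm y n := by
  rw [l12_sm_eq, l12_sm_eq, l12_sm_eq, ← prod_mul_distrib]
  refine prod_congr rfl fun p _ => ?_
  rw [Nat.factorization_mul hm hn, Finsupp.add_apply, pow_add]

private theorem l12_sm_le (y : ℕ) {b : ℕ} (hb : b ≠ 0) : sm y b ≤ b := by
  have h1 : sm y b ∣ b := by
    conv_rhs => rw [← Nat.prod_factorization_pow_eq_self hb]
    unfold sm
    rw [Finsupp.prod, Nat.support_factorization]
    exact prod_dvd_prod_of_subset _ _ _ (filter_subset _ _)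
  exact Nat.le_of_dvd (Nat.pos_of_ne_zero hb) h1

private theorem l12_sm_prime {y q : ℕ} (hq : q.Prime) (hy : y < q) : sm y q = 1 := by
  unfold sm
  rw [hq.primeFactors]
  have : ({q} : Finset ℕ).filter (· ≤ y) = ∅ := by
    rw [Finset.filter_eq_empty_iff]
    intro p hp
    rw [mem_singleton] at hp
    omega
  rw [this, prod_empty]

private theorem l12_sm_split {z y X : ℕ} (hX : X ≠ 0) (hzy : z ≤ y)
    (hsq : ∀ p : ℕ, p.Prime → z < p → ¬ p ^ 2 ∣ X) :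
    sm y X = sm z X * ∏ p ∈ X.primeFactors.filter (fun p => z < p ∧ p ≤ y), p := by
  unfold sm
  have h1 : X.primeFactors.filter (· ≤ y) = X.primeFactors.filter (· ≤ z) ∪
      X.primeFactors.filter (fun p => z < p ∧ p ≤ y) := by
    ext p
    simp only [mem_union, mem_filter]
    constructor
    · rintro ⟨h1, h2⟩
      by_cases h3 : p ≤ z
      · exact Or.inl ⟨h1, h3⟩
      · exact Or.inr ⟨h1, by omega, h2⟩
    · rintro (⟨h1, h2⟩ | ⟨h1, -, h2⟩)
      · exact ⟨h1, by omega⟩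
      · exact ⟨h1, h2⟩
  have h2 : Disjoint (X.primeFactors.filter (· ≤ z))
      (X.primeFactors.filter (fun p => z < p ∧ p ≤ y)) := by
    rw [Finset.disjoint_left]
    intro p hp hp'
    have := (mem_filter.1 hp).2
    have := (mem_filter.1 hp').2.1
    omega
  rw [h1, prod_union h2]
  congr 1
  refine prod_congr rfl fun p hp => ?_
  rw [mem_filter, Nat.mem_primeFactors] at hp
  obtain ⟨⟨hpp, hd, -⟩, h3, -⟩ := hp
  have h4 : 1 ≤ X.factorization p := (hpp.dvd_iff_one_le_factorization hX).1 hd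
  have h5 : X.factorization p ≤ 1 := by
    by_contra h6
    exact hsq p hpp h3 ((hpp.pow_dvd_iff_le_factorization hX).2 (by omega))
  rw [le_antisymm h5 h4, pow_one]

private theorem l12_sum_ff {P : Par} (hP : P.Adm) (n : ℕ) :
    ∑ i ∈ range n, P.ff i ≤ P.ee n := by
  induction n with
  | zero => simp
  | succ n ih =>
    have h1 : P.ee (n + 1) = 13 * P.ff n := by
      unfold Par.ff Par.ee
      rw [pow_succ]
      ring
    have h2 : P.ee n ≤ P.ff n := Nat.le_mul_of_pos_left _ (by have := hP.hB; omega)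
    rw [sum_range_succ]
    omega

private theorem l12_med {P : Par} {z X : ℕ}
    (hI : ∀ i < P.J, ((P.I z i).filter (· ∣ X)).card = 1) (n : ℕ)
    (hn : n ≤ P.J) (S : Finset ℕ) (hS : ∀ p ∈ S, p ∣ X ∧ ∃ i < n, p ∈ P.I z i) :
    ∏ p ∈ S, p ≤ z ^ (∑ i ∈ range n, P.ff i) := by
  classical
  induction n generalizing S with
  | zero =>
    have h1 : S = ∅ := by
      rw [Finset.eq_empty_iff_forall_notMem]
      intro p hp
      obtain ⟨-, i, hi, -⟩ := hS p hp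
      omega
    rw [h1]
    simp
  | succ n ih =>
    have hI := hI n (by omega)
    obtain ⟨q, hq⟩ := Finset.card_eq_one.1 hI
    have hq1 : q ∈ (P.I z n).filter (· ∣ X) := by
      rw [hq]
      exact mem_singleton_self q
    have hq2 : q ≤ z ^ P.ff n := by
      have h1 := (mem_filter.1 hq1).1
      simp only [Par.I, mem_filter, mem_Ioc] at h1
      exact h1.1.2
    have hq3 : 1 ≤ q := by
      have h1 := (mem_filter.1 hq1).1
      simp only [Par.I, mem_filter, mem_Ioc] at h1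
      exact h1.2.one_le
    have hsub : S ⊆ insert q (S.erase q) := by
      intro p hp
      by_cases h : p = q
      · exact mem_insert.2 (Or.inl h)
      · exact mem_insert.2 (Or.inr (mem_erase.2 ⟨h, hp⟩))
    have hpr : ∀ p ∈ insert q (S.erase q), 1 ≤ p := by
      intro p hp
      rcases mem_insert.1 hp with h | h
      · omega
      · obtain ⟨-, i, -, h2⟩ := hS p (mem_of_mem_erase h)
        simp only [Par.I, mem_filter, mem_Ioc] at h2
        exact h2.2.one_le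
    have h1 : ∏ p ∈ S.erase q, p ≤ z ^ (∑ i ∈ range n, P.ff i) := by
      refine ih (by omega) _ fun p hp => ?_
      obtain ⟨h2, h3⟩ := mem_erase.1 hp
      obtain ⟨h4, i, h5, h6⟩ := hS p h3
      refine ⟨h4, i, ?_, h6⟩
      by_contra h7
      have h8 : i = n := by omega
      rw [h8] at h6
      have h9 : p ∈ (P.I z n).filter (· ∣ X) := mem_filter.2 ⟨h6, h4⟩
      rw [hq] at h9
      exact h2 (mem_singleton.1 h9)
    have h0 : ∏ p ∈ S, p ≤ ∏ p ∈ insert q (S.erase q), p :=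
      Finset.prod_le_prod_of_subset_of_one_le' hsub fun p hp _ => hpr p hp
    calc ∏ p ∈ S, p ≤ ∏ p ∈ insert q (S.erase q), p := h0
      _ = q * ∏ p ∈ S.erase q, p := Finset.prod_insert (notMem_erase q S)
      _ ≤ z ^ P.ff n * z ^ (∑ i ∈ range n, P.ff i) := Nat.mul_le_mul hq2 h1
      _ = z ^ (∑ i ∈ range (n + 1), P.ff i) := by
        rw [sum_range_succ, pow_add, mul_comm]

/-! ### one of the two numbers -/

private theorem l12_lpf {N : ℕ} (hN : 2 ≤ N) : (lpf N).Prime ∧ lpf N ∣ N := by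
  have hne : N.primeFactors.Nonempty := Nat.nonempty_primeFactors.2 hN
  obtain ⟨p, hp, h⟩ := Finset.exists_mem_eq_sup _ hne (id : ℕ → ℕ)
  have h1 : lpf N = p := h
  rw [h1]
  exact ⟨Nat.prime_of_mem_primeFactors hp, Nat.dvd_of_mem_primeFactors hp⟩

private theorem l12_one {M z T Y : ℕ} (hM : 1 ≤ M) (hz : 2 ≤ z) (hT : z ^ (30 * M) ≤ T)
    (h2 : T < 2 * Y) (hq : Y ≤ z * lpf Y) (hY2 : 2 ≤ Y) (hs : Squarefree (Y / lpf Y)) :
    ((lpf Y).Prime ∧ Y = lpf Y * (Y / lpf Y)) ∧ z ^ M < lpf Y ∧ (1 ≤ Y / lpf Y ∧ Y / lpf Y ≤ z) ∧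
      Squarefree Y ∧ sm (z ^ M) Y ≤ z := by
  obtain ⟨pq, dq⟩ := l12_lpf hY2
  set q := lpf Y with hqd
  have hYq : Y = q * (Y / q) := (Nat.mul_div_cancel' dq).symm
  have h1 : 1 ≤ Y / q := Nat.div_pos (Nat.le_of_dvd (by omega) dq) pq.pos
  have hb : Y / q ≤ z := Nat.div_le_of_le_mul (by rw [mul_comm]; exact hq)
  have hbig : z ^ M < q := by
    have h3 : T < 2 * z * q := by
      calc T < 2 * Y := h2
        _ ≤ 2 * (z * q) := Nat.mul_le_mul_left 2 hq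
        _ = 2 * z * q := by ring
    have h4 : z ^ (30 * M) < z ^ 2 * q := by
      calc z ^ (30 * M) ≤ T := hT
        _ < 2 * z * q := h3
        _ ≤ z * z * q := Nat.mul_le_mul_right q (Nat.mul_le_mul_right z hz)
        _ = z ^ 2 * q := by ring
    have h5 : z ^ (30 * M) = z ^ 2 * z ^ (30 * M - 2) := by
      rw [← pow_add]
      congr 1
      omega
    rw [h5] at h4
    have h6 : z ^ (30 * M - 2) < q := Nat.lt_of_mul_lt_mul_left h4
    exact lt_of_le_of_lt (Nat.pow_le_pow_right (by omega) (by omega)) h6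
  have hzM : z ≤ z ^ M := Nat.le_self_pow (by omega) z
  have hcop : Nat.Coprime q (Y / q) := by
    rw [Nat.Prime.coprime_iff_not_dvd pq]
    intro h
    have := Nat.le_of_dvd (by omega) h
    omega
  refine ⟨⟨pq, hYq⟩, hbig, ⟨h1, hb⟩, ?_, ?_⟩
  · rw [hYq, Nat.squarefree_mul hcop]
    exact ⟨pq.squarefree, hs⟩
  · rw [hYq, l12_sm_mul _ pq.ne_zero (by omega), l12_sm_prime pq hbig, one_mul]
    exact (l12_sm_le _ (by omega)).trans hb

/-! ### counting -/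

private theorem l12_pairs (T : ℕ) (Q : ℕ → Prop) [DecidablePred Q] :
    (((Icc 1 T) ×ˢ (Icc 1 T)).filter fun x : ℕ × ℕ => Q (x.1 + x.2)).card ≤
      T * ((Icc 1 (2 * T)).filter Q).card := by
  have h : T * ((Icc 1 (2 * T)).filter Q).card =
      ((Icc 1 T) ×ˢ ((Icc 1 (2 * T)).filter Q)).card := by
    rw [card_product, Nat.card_Icc]
    simp
  rw [h]
  apply card_le_card_of_injOn (fun x => (x.1, x.1 + x.2))
  · intro x hx
    rw [Finset.mem_coe, mem_filter, mem_product, mem_Icc, mem_Icc] at hx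
    rw [Finset.mem_coe, mem_product, mem_filter, mem_Icc, mem_Icc]
    obtain ⟨⟨⟨h1, h2⟩, h3, h4⟩, h5⟩ := hx
    exact ⟨⟨h1, h2⟩, ⟨by simp only; omega, by simp only; omega⟩, h5⟩
  · intro x _ y _ hxy
    simp only [Prod.mk.injEq] at hxy
    exact Prod.ext hxy.1 (by omega)

open Classical in
private theorem l12_sq (z N : ℕ) (hz : 1 ≤ z) :
    (((Icc 1 N).filter fun X => ∃ p : ℕ, z < p ∧ p ^ 2 ∣ X).card : ℝ) ≤ N / z := by
  have hsub : ((Icc 1 N).filter fun X => ∃ p : ℕ, z < p ∧ p ^ 2 ∣ X) ⊆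
      (Ioc z N).biUnion fun p => (Ioc 0 N).filter fun X => p ^ 2 ∣ X := by
    intro X hX
    rw [mem_filter, mem_Icc] at hX
    obtain ⟨⟨h1, h2⟩, p, h3, h4⟩ := hX
    have h5 : p ^ 2 ≤ X := Nat.le_of_dvd (by omega) h4
    have h6 : p ≤ p ^ 2 := Nat.le_self_pow (by norm_num) p
    rw [mem_biUnion]
    refine ⟨p, mem_Ioc.2 ⟨h3, by omega⟩, ?_⟩
    rw [mem_filter, mem_Ioc]
    exact ⟨⟨by omega, h2⟩, h4⟩
  have h1 := (card_le_card hsub).trans card_biUnion_le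
  have h2 : (((Icc 1 N).filter fun X => ∃ p : ℕ, z < p ∧ p ^ 2 ∣ X).card : ℝ) ≤
      ∑ p ∈ Ioc z N, (N : ℝ) * ((p : ℝ) ^ 2)⁻¹ := by
    calc (((Icc 1 N).filter fun X => ∃ p : ℕ, z < p ∧ p ^ 2 ∣ X).card : ℝ)
        ≤ ((∑ p ∈ Ioc z N, ((Ioc 0 N).filter fun X => p ^ 2 ∣ X).card : ℕ) : ℝ) := by
          exact_mod_cast h1
      _ = ∑ p ∈ Ioc z N, (((Ioc 0 N).filter fun X => p ^ 2 ∣ X).card : ℝ) := by push_cast; rfl
      _ ≤ ∑ p ∈ Ioc z N, (N : ℝ) * ((p : ℝ) ^ 2)⁻¹ := by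
          refine sum_le_sum fun p _ => ?_
          rw [Nat.Ioc_filter_dvd_card_eq_div]
          have := @Nat.cast_div_le ℝ _ _ _ N (p ^ 2)
          refine this.trans (le_of_eq ?_)
          push_cast
          rw [div_eq_mul_inv]
  refine h2.trans ?_
  rw [← mul_sum, div_eq_mul_inv]
  refine mul_le_mul_of_nonneg_left ?_ (Nat.cast_nonneg N)
  rcases le_total z N with h | h
  · have h3 := sum_Ioc_inv_sq_le_sub (α := ℝ) (k := z) (n := N) (by omega) h
    refine h3.trans ?_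
    have : (0 : ℝ) ≤ (N : ℝ)⁻¹ := by positivity
    linarith
  · rw [Finset.Ioc_eq_empty (by omega), sum_empty]
    positivity

/-! ### states -/

private theorem l12_P (Y Z : ℕ) : F3.P (Y : ℤ) (Z : ℤ) = (((Y + Z) * Y * Z : ℕ) : ℤ) := by
  simp [Fam.P, Fam.l, F3, Fin.prod_univ_three]

private theorem l12_l1 (Y Z : ℕ) : F3.l 1 (Y : ℤ) (Z : ℤ) = (Y : ℤ) := by
  simp [Fam.l, F3]

private theorem l12_l2 (Y Z : ℕ) : F3.l 2 (Y : ℤ) (Z : ℤ) = (Z : ℤ) := by
  simp [Fam.l, F3]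

private theorem l12_st_sq {p Y Z : ℕ} (h : p ^ 2 ∣ (Y + Z) * Y * Z) :
    F3.st (Y : ℤ) (Z : ℤ) p = some none := by
  have h1 : (p : ℤ) ^ 2 ∣ F3.P (Y : ℤ) (Z : ℤ) := by
    rw [l12_P, ← Nat.cast_pow, Int.natCast_dvd_natCast]
    exact h
  have h2 : (p : ℤ) ∣ F3.P (Y : ℤ) (Z : ℤ) := (dvd_pow_self _ (by norm_num)).trans h1
  unfold Fam.st
  rw [if_pos h2, if_pos h1]

private theorem l12_st_one {p Y Z : ℕ} (hp : p.Prime) (hX : p ∣ Y + Z) (hY : ¬ p ∣ Y)
    (hZ : ¬ p ∣ Z) (h : ¬ p ^ 2 ∣ (Y + Z) * Y * Z) :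
    ∃ ρ, F3.st (Y : ℤ) (Z : ℤ) p = some (some (0, ρ)) := by
  have h1 : ¬ (p : ℤ) ^ 2 ∣ F3.P (Y : ℤ) (Z : ℤ) := by
    rw [l12_P, ← Nat.cast_pow, Int.natCast_dvd_natCast]
    exact h
  have h2 : (p : ℤ) ∣ F3.P (Y : ℤ) (Z : ℤ) := by
    rw [l12_P, Int.natCast_dvd_natCast, mul_assoc]
    exact Dvd.dvd.mul_right hX _
  have hidx : F3.idx p (Y : ℤ) (Z : ℤ) = 0 := by
    have h5 := idx_dvd (F := F3) hp h2
    have h6 : ∀ j : Fin 3, j = 0 ∨ j = 1 ∨ j = 2 := by decide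
    rcases h6 (F3.idx p (Y : ℤ) (Z : ℤ)) with h7 | h7 | h7
    · exact h7
    · rw [h7, l12_l1, Int.natCast_dvd_natCast] at h5
      exact absurd h5 hY
    · rw [h7, l12_l2, Int.natCast_dvd_natCast] at h5
      exact absurd h5 hZ
  unfold Fam.st
  rw [if_pos h2, if_neg h1, hidx]
  exact ⟨_, rfl⟩

/-! ### the cases -/

open Classical in
private theorem l12_cases {P : Par} (hP : P.Adm) {z T : ℕ} (hz : P.w + 2 ≤ z) (hTZ : P.TZ z T)
    {x : ℕ × ℕ} (hx : x ∈ S1 P z T \ SS P z T) :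
    lpf x.1 = lpf x.2 ∨ (∃ p : ℕ, z < p ∧ p ^ 2 ∣ x.1 + x.2) ∨
      (z ^ (6 * P.M) < sm z (x.1 + x.2)) ∨
      (x ∈ BS P z T ∧ ∃ p : Pr P.w z, stt P.w z x.1 x.2 p = some none) ∨
      (x ∈ BS P z T ∧ z ^ P.A < ∏ p : Pr P.w z,
        (if ∃ ρ, stt P.w z x.1 x.2 p = some (some (0, ρ)) then (p : ℕ) else 1)) := by
  obtain ⟨Y, Z⟩ := x
  rw [mem_sdiff] at hx
  obtain ⟨hx1, hx2⟩ := hx
  unfold S1 at hx1
  rw [mem_filter, mem_product, mem_Ioc, mem_Ioc] at hx1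
  obtain ⟨⟨⟨hY1, hY2⟩, hZ1, hZ2⟩, hok⟩ := hx1
  simp only at hY1 hY2 hZ1 hZ2 hok ⊢
  have hM := l12_M hP
  have hY16 := hok.hY
  have hZ16 := hok.hZ
  have hT4 : 4 ≤ T := by
    have h1 : 2 ^ 2 ≤ z ^ (30 * P.M) := (Nat.pow_le_pow_left (by omega) 2).trans
      (Nat.pow_le_pow_right (by omega) (by omega))
    exact h1.trans hTZ.1
  obtain ⟨⟨pq, hYq⟩, gq, ⟨b1, bz⟩, sY, smY⟩ := l12_one (M := P.M) (by omega) (by omega) hTZ.1
    (by omega) hok.hq (by omega) hok.sb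
  obtain ⟨⟨pr, hZr⟩, gr, ⟨c1, cz⟩, sZ, smZ⟩ := l12_one (M := P.M) (by omega) (by omega) hTZ.1
    (by omega) hok.hr (by omega) hok.sc
  by_cases h1 : lpf Y = lpf Z
  · exact Or.inl h1
  right
  by_cases h2 : ∃ p : ℕ, z < p ∧ p ^ 2 ∣ Y + Z
  · exact Or.inl h2
  right
  push Not at h2
  have hzM : z ≤ z ^ P.M := Nat.le_self_pow (by omega) z
  -- coprimality
  have hcop : Y.Coprime Z := by
    rw [Nat.coprime_iff_gcd_eq_one]
    by_contra hne
    obtain ⟨p, hp, hpd⟩ := Nat.exists_prime_and_dvd hne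
    have hpY : p ∣ Y := hpd.trans (Nat.gcd_dvd_left _ _)
    have hpZ : p ∣ Z := hpd.trans (Nat.gcd_dvd_right _ _)
    rw [hYq, hp.dvd_mul, Nat.prime_dvd_prime_iff_eq hp pq] at hpY
    rw [hZr, hp.dvd_mul, Nat.prime_dvd_prime_iff_eq hp pr] at hpZ
    rcases hpY with h3 | h3 <;> rcases hpZ with h4 | h4
    · exact h1 (h3.symm.trans h4)
    · have := Nat.le_of_dvd (by omega) h4
      omega
    · have := Nat.le_of_dvd (by omega) h3
      omega
    · have h5 := Nat.dvd_gcd h3 h4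
      rw [Nat.coprime_iff_gcd_eq_one.1 hok.bc] at h5
      exact hp.one_lt.ne' (Nat.dvd_one.1 h5)
  have hcX : ∀ p : ℕ, p.Prime → p ∣ Y + Z → ¬ p ∣ Y ∧ ¬ p ∣ Z := by
    intro p hp hd
    have h3 : ¬ (p ∣ Y ∧ p ∣ Z) := fun h => by
      have h5 := Nat.dvd_gcd h.1 h.2
      rw [Nat.coprime_iff_gcd_eq_one.1 hcop] at h5
      exact hp.one_lt.ne' (Nat.dvd_one.1 h5)
    constructor
    · intro h4
      exact h3 ⟨h4, (Nat.dvd_add_right h4).1 hd⟩
    · intro h4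
      exact h3 ⟨(Nat.dvd_add_left h4).1 hd, h4⟩
  have hX0 : Y + Z ≠ 0 := by omega
  have hY0 : Y ≠ 0 := by omega
  have hZ0 : Z ≠ 0 := by omega
  by_cases hg : sm (z ^ P.M) ((Y + Z) * Y * Z) ^ 4 ≤ T
  swap
  · -- large smooth part
    left
    by_contra h3
    rw [not_lt] at h3
    apply hg
    have h4 : sm (z ^ P.M) (Y + Z) ≤ z ^ (6 * P.M) * z ^ P.M := by
      rw [l12_sm_split hX0 hzM (fun p _ hp => h2 p hp)]
      refine Nat.mul_le_mul h3 ?_
      have h5 := l12_med hok.hI P.J le_rfl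
        ((Y + Z).primeFactors.filter (fun p => z < p ∧ p ≤ z ^ P.M)) (fun p hp => by
          rw [mem_filter, Nat.mem_primeFactors] at hp
          exact ⟨hp.1.2.1, hok.hn p hp.1.1 hp.1.2.1 hp.2.1 hp.2.2⟩)
      refine h5.trans (Nat.pow_le_pow_right (by omega) ?_)
      exact l12_sum_ff hP P.J
    have h6 : sm (z ^ P.M) ((Y + Z) * Y * Z) ≤ z ^ (7 * P.M + 2) := by
      rw [l12_sm_mul _ (Nat.mul_ne_zero hX0 hY0) hZ0, l12_sm_mul _ hX0 hY0]
      calc sm (z ^ P.M) (Y + Z) * sm (z ^ P.M) Y * sm (z ^ P.M) Z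
          ≤ z ^ (6 * P.M) * z ^ P.M * z * z := Nat.mul_le_mul (Nat.mul_le_mul h4 smY) smZ
        _ = z ^ (7 * P.M + 2) := by ring
    calc sm (z ^ P.M) ((Y + Z) * Y * Z) ^ 4 ≤ (z ^ (7 * P.M + 2)) ^ 4 := Nat.pow_le_pow_left h6 4
      _ = z ^ ((7 * P.M + 2) * 4) := by rw [← pow_mul]
      _ ≤ z ^ (30 * P.M) := Nat.pow_le_pow_right (by omega) (by omega)
      _ ≤ T := hTZ.1
  right
  have hyz : ∀ p : ℕ, p.Prime → z < p → p ≤ z ^ P.M → ¬ p ∣ Y * Z := by
    intro p hp h3 h4 h5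
    rcases (Nat.Prime.dvd_mul hp).1 h5 with h | h
    · rw [hYq, hp.dvd_mul, Nat.prime_dvd_prime_iff_eq hp pq] at h
      rcases h with h | h
      · omega
      · have := Nat.le_of_dvd (by omega) h
        omega
    · rw [hZr, hp.dvd_mul, Nat.prime_dvd_prime_iff_eq hp pr] at h
      rcases h with h | h
      · omega
      · have := Nat.le_of_dvd (by omega) h
        omega
  have hBS : (Y, Z) ∈ BS P z T := by
    unfold BS
    rw [mem_filter, mem_product, mem_Icc, mem_Icc]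
    refine ⟨⟨⟨by show 1 ≤ Y; omega, hY2⟩, ⟨by show 1 ≤ Z; omega, hZ2⟩⟩,
      ⟨⟨by show 1 ≤ Y; omega, hY2⟩, ⟨by show 1 ≤ Z; omega, hZ2⟩, hcop, ?_, hyz, hok.hI, ?_, ?_⟩⟩
    · intro p hp h3 h4
      exact hok.hw p hp (by omega) h4
    · intro p hp h3 h4 h5
      exact ⟨hok.hn p hp h5 h3 h4, h2 p h3⟩
    · unfold Fam.Good
      rw [l12_P, Int.natAbs_natCast]
      exact hg
  by_cases h3 : ∃ p : ℕ, p.Prime ∧ p ≠ 2 ∧ p ^ 2 ∣ (Y + Z) * Y * Z
  · left
    obtain ⟨p, hp, hp2, hd⟩ := h3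
    have hd1 : p ∣ (Y + Z) * Y * Z := (dvd_pow_self _ (by norm_num)).trans hd
    have hpw : P.w < p := by
      by_contra h4
      exact hok.hw p hp hp2 (by omega) hd1
    -- p ^ 2 divides X
    have hsqY : ¬ p ^ 2 ∣ Y := fun h => by
      have := sY p (by rw [← sq]; exact h)
      exact hp.one_lt.ne' (Nat.isUnit_iff.1 this)
    have hsqZ : ¬ p ^ 2 ∣ Z := fun h => by
      have := sZ p (by rw [← sq]; exact h)
      exact hp.one_lt.ne' (Nat.isUnit_iff.1 this)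
    have hpX : p ^ 2 ∣ Y + Z := by
      by_cases h4 : p ∣ Y + Z
      · obtain ⟨h5, h6⟩ := hcX p hp h4
        have h7 : Nat.Coprime (p ^ 2) Z :=
          Nat.Coprime.pow_left 2 ((Nat.Prime.coprime_iff_not_dvd hp).mpr h6)
        have h8 : Nat.Coprime (p ^ 2) Y :=
          Nat.Coprime.pow_left 2 ((Nat.Prime.coprime_iff_not_dvd hp).mpr h5)
        exact h8.dvd_of_dvd_mul_right (h7.dvd_of_dvd_mul_right hd)
      · exfalso
        have h7 : Nat.Coprime (p ^ 2) (Y + Z) :=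
          Nat.Coprime.pow_left 2 ((Nat.Prime.coprime_iff_not_dvd hp).mpr h4)
        rw [mul_assoc] at hd
        have h8 := h7.dvd_of_dvd_mul_left hd
        by_cases h9 : p ∣ Y
        · have h10 : ¬ p ∣ Z := fun h => by
            have h5 := Nat.dvd_gcd h9 h
            rw [Nat.coprime_iff_gcd_eq_one.1 hcop] at h5
            exact hp.one_lt.ne' (Nat.dvd_one.1 h5)
          have h11 : Nat.Coprime (p ^ 2) Z :=
            Nat.Coprime.pow_left 2 ((Nat.Prime.coprime_iff_not_dvd hp).mpr h10)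
          exact hsqY (h11.dvd_of_dvd_mul_right h8)
        · have h11 : Nat.Coprime (p ^ 2) Y :=
            Nat.Coprime.pow_left 2 ((Nat.Prime.coprime_iff_not_dvd hp).mpr h9)
          exact hsqZ (h11.dvd_of_dvd_mul_left h8)
    have hpz : p ≤ z := by
      by_contra h4
      exact h2 p (by omega) hpX
    have hPr : p ∈ Pr P.w z := by
      unfold Pr
      rw [mem_filter, mem_Ioc]
      exact ⟨⟨hpw, hpz⟩, hp⟩
    refine ⟨hBS, ⟨p, hPr⟩, ?_⟩
    exact l12_st_sq hd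
  · right
    push Not at h3
    refine ⟨hBS, ?_⟩
    by_contra h4
    rw [not_lt] at h4
    apply hx2
    unfold SS
    rw [mem_filter, mem_product, mem_Ioc, mem_Ioc]
    refine ⟨⟨⟨hY1, hY2⟩, hZ1, hZ2⟩, ⟨hok.hY, hok.hZ, hcop, hok.hw, h3, hok.hq, hok.hr, hok.hI,
      hok.hn, ?_⟩⟩
    refine le_trans ?_ h4
    have h5 : ∏ p : Pr P.w z,
        (if ∃ ρ, stt P.w z Y Z p = some (some (0, ρ)) then (p : ℕ) else 1) =
        ∏ p ∈ (Pr P.w z).filter (fun p => ∃ ρ, F3.st (Y : ℤ) (Z : ℤ) p = some (some (0, ρ))), p := by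
      rw [Finset.prod_filter, ← Finset.prod_coe_sort (Pr P.w z)
        (fun p => if ∃ ρ, F3.st (Y : ℤ) (Z : ℤ) p = some (some (0, ρ)) then p else 1)]
      rfl
    rw [h5]
    refine Finset.prod_le_prod_of_subset_of_one_le' ?_ ?_
    · intro p hp
      simp only [mem_filter, smP, oddP, mem_erase, Nat.mem_primeFactors] at hp
      obtain ⟨⟨⟨hp2, hpp, hd, -⟩, hpz⟩, hX⟩ := hp
      have hpw : P.w < p := by
        by_contra h6
        exact hok.hw p hpp hp2 (by omega) hd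
      obtain ⟨h6, h7⟩ := hcX p hpp hX
      rw [mem_filter]
      refine ⟨?_, l12_st_one hpp hX h6 h7 (h3 p hpp hp2)⟩
      unfold Pr
      rw [mem_filter, mem_Ioc]
      exact ⟨⟨hpw, hpz⟩, hpp⟩
    · intro p hp _
      rw [mem_filter] at hp
      have h6 := hp.1
      unfold Pr at h6
      rw [mem_filter] at h6
      exact h6.2.one_le

/-! ### the upper bound for `BS` -/

private theorem l12_ub {P : Par} {z T : ℕ} (C0 C1 D : ℝ) (hP : P.Adm) (hz : P.w + 2 ≤ z)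
    (hC0 : 0 < C0)
    (hub : ∀ g : (Pr P.w z → Stt 3) → (Fin P.J → ℕ) → ℝ, (∀ φ pp, 0 ≤ g φ pp) →
      ∑ x ∈ BS P z T, g (stt P.w z x.1 x.2) (fun i => P.ppI z x.1 x.2 i) ≤
      C0 * (T : ℝ) ^ 2 / Real.log ((z : ℝ) ^ P.M) ^ 3 *
        ∑ pp ∈ Fintype.piFinset (fun i : Fin P.J => P.I z i),
          (∏ i, 1 / (pp i : ℝ)) * ∑ φ : Pr P.w z → Stt 3, g φ pp * Wt T φ)
    (Q : (Pr P.w z → Stt 3) → Prop) (d2 : DecidablePred Q)
    (d3 : DecidablePred (fun x : ℕ × ℕ => Q (stt P.w z x.1 x.2)))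
    (hs : (∑ φ : Pr P.w z → Stt 3, @ite ℝ (Q φ) (d2 φ) (Wt T φ) 0) ≤
      C1 / D * (Real.log z / Real.log P.w) ^ 3) :
    (((@Finset.filter (ℕ × ℕ) (fun x => Q (stt P.w z x.1 x.2)) d3 (BS P z T))).card : ℝ) ≤
      (C0 * C1 / D) * P.U0 z T := by
  have h1 : (((@Finset.filter (ℕ × ℕ) (fun x => Q (stt P.w z x.1 x.2)) d3 (BS P z T))).card : ℝ) =
      ∑ x ∈ BS P z T, @ite ℝ (Q (stt P.w z x.1 x.2)) (d2 _) 1 0 := by
    rw [Finset.card_filter]
    push_cast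
    refine sum_congr rfl fun x _ => ?_
    by_cases h : Q (stt P.w z x.1 x.2)
    · simp [h]
    · simp [h]
  rw [h1]
  refine (hub (fun φ _ => if Q φ then 1 else 0) (fun φ _ => ?_)).trans ?_
  · split_ifs
    · exact zero_le_one
    · exact le_rfl
  have h2 : ∑ φ : Pr P.w z → Stt 3, (if Q φ then (1 : ℝ) else 0) * Wt T φ =
      ∑ φ : Pr P.w z → Stt 3, if Q φ then Wt T φ else 0 := by
    refine sum_congr rfl fun φ _ => ?_
    split_ifs
    · rw [one_mul]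
    · rw [zero_mul]
  rw [h2, ← Finset.sum_mul]
  have h3 : ∑ pp ∈ Fintype.piFinset (fun i : Fin P.J => P.I z i), ∏ i, 1 / (pp i : ℝ) =
      ∏ i ∈ range P.J, P.L z i := by
    rw [← Fin.prod_univ_eq_prod_range (fun i => P.L z i) P.J]
    unfold Par.L
    rw [Finset.prod_univ_sum]
  rw [h3]
  have hw2 := hP.hw
  have hlw : 0 < Real.log P.w := Real.log_pos (by exact_mod_cast (by omega : 1 < P.w))
  have hlz : 0 < Real.log z := Real.log_pos (by exact_mod_cast (by omega : 1 < z))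
  have hM := l12_M hP
  have hM0 : (0 : ℝ) < P.M := by exact_mod_cast (by omega : 0 < P.M)
  have hL : 0 ≤ ∏ i ∈ range P.J, P.L z i := by
    refine prod_nonneg fun i _ => ?_
    unfold Par.L
    positivity
  rw [Real.log_pow]
  have h4 : 0 ≤ C0 * (T : ℝ) ^ 2 / ((P.M : ℝ) * Real.log z) ^ 3 := by positivity
  calc C0 * (T : ℝ) ^ 2 / ((P.M : ℝ) * Real.log z) ^ 3 * ((∏ i ∈ range P.J, P.L z i) *
        ∑ φ : Pr P.w z → Stt 3, if Q φ then Wt T φ else 0)
      ≤ C0 * (T : ℝ) ^ 2 / ((P.M : ℝ) * Real.log z) ^ 3 * ((∏ i ∈ range P.J, P.L z i) *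
        (C1 / D * (Real.log z / Real.log P.w) ^ 3)) := by
        exact mul_le_mul_of_nonneg_left (mul_le_mul_of_nonneg_left hs hL) h4
    _ = (C0 * C1 / D) * P.U0 z T := by
        unfold Par.U0
        field_simp

open Classical in
theorem S1_sdiff : ∃ C : ℝ, 0 < C ∧ ∀ P : Par, P.Adm → ∃ z0 : ℕ, ∀ z T : ℕ, z0 ≤ z →
    P.TZ z T → (((S1 P z T) \ (SS P z T)).card : ℝ) ≤
      (C / P.w + C / P.A) * P.U0 z T + C * Real.exp (-(3 * P.M)) * (T : ℝ) ^ 2 := by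
  obtain ⟨C0, hC0, hub⟩ := ubgen
  obtain ⟨C1, hC1, hsq⟩ := sum_wt_sq
  obtain ⟨C2, hC2, hbig⟩ := sum_wt_big
  obtain ⟨C3, hC3, htail⟩ := smooth_tail
  refine ⟨C0 * C1 + C0 * C2 + 2 * C3 + 1, by positivity, fun P hP => ?_⟩
  obtain ⟨z1, hz1⟩ := hub P hP
  have hM := l12_M hP
  obtain ⟨z2, hz2⟩ := exists_nat_ge (3 / Real.exp (-(3 * P.M)))
  refine ⟨max (max z1 z2) (P.w + 2), fun z T hz hTZ => ?_⟩
  have hz1' : z1 ≤ z := (le_max_left _ _).trans ((le_max_left _ _).trans hz)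
  have hz2' : z2 ≤ z := (le_max_right _ _).trans ((le_max_left _ _).trans hz)
  have hzw : P.w + 2 ≤ z := (le_max_right _ _).trans hz
  have hT1 : 1 ≤ T := (Nat.one_le_pow _ _ (by omega)).trans hTZ.1
  have hz0 : (0 : ℝ) < z := by exact_mod_cast (by omega : 0 < z)
  have hw2 := hP.hw
  have hA := hP.hA
  have hw0 : (0 : ℝ) < P.w := by exact_mod_cast (by omega : 0 < P.w)
  have hA0 : (0 : ℝ) < P.A := by exact_mod_cast (by omega : 0 < P.A)
  -- the five sets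
  set A1 : Finset (ℕ × ℕ) := ((Icc 1 z) ×ˢ ((Icc 1 z) ×ˢ (Icc 1 T))).image
    (fun t => (t.2.2 * t.1, t.2.2 * t.2.1)) with hA1
  set A2 : Finset (ℕ × ℕ) := ((Icc 1 T) ×ˢ (Icc 1 T)).filter
    (fun x : ℕ × ℕ => ∃ p : ℕ, z < p ∧ p ^ 2 ∣ x.1 + x.2) with hA2
  set A3 : Finset (ℕ × ℕ) := ((Icc 1 T) ×ˢ (Icc 1 T)).filter
    (fun x : ℕ × ℕ => (z : ℝ) ^ (6 * P.M) < (sm z (x.1 + x.2) : ℝ)) with hA3
  set A4 : Finset (ℕ × ℕ) := (BS P z T).filter
    (fun x => ∃ p : Pr P.w z, stt P.w z x.1 x.2 p = some none) with hA4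
  set A5 : Finset (ℕ × ℕ) := (BS P z T).filter
    (fun x => z ^ P.A < ∏ p : Pr P.w z,
        (if ∃ ρ, stt P.w z x.1 x.2 p = some (some (0, ρ)) then (p : ℕ) else 1)) with hA5
  have hsub : S1 P z T \ SS P z T ⊆ A1 ∪ (A2 ∪ (A3 ∪ (A4 ∪ A5))) := by
    intro x hx
    have hx1 : x ∈ S1 P z T := (mem_sdiff.1 hx).1
    unfold S1 at hx1
    rw [mem_filter, mem_product, mem_Ioc, mem_Ioc] at hx1
    obtain ⟨⟨⟨hY1, hY2⟩, hZ1, hZ2⟩, hok⟩ := hx1
    have hY16 := hok.hY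
    have hZ16 := hok.hZ
    have hT4 : 4 ≤ T := by
      have h1 : 2 ^ 2 ≤ z ^ (30 * P.M) := (Nat.pow_le_pow_left (by omega) 2).trans
        (Nat.pow_le_pow_right (by omega) (by omega))
      exact h1.trans hTZ.1
    have hbox : x ∈ (Icc 1 T) ×ˢ (Icc 1 T) := by
      rw [mem_product, mem_Icc, mem_Icc]
      exact ⟨⟨by omega, hY2⟩, by omega, hZ2⟩
    rw [mem_union, mem_union, mem_union, mem_union]
    rcases l12_cases hP hzw hTZ hx with h | h | h | h | h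
    · left
      obtain ⟨⟨pq, hYq⟩, -, ⟨b1, bz⟩, -, -⟩ := l12_one (M := P.M) (z := z) (T := T) (Y := x.1)
        (by omega) (by omega) hTZ.1 (by omega) hok.hq (by omega) hok.sb
      obtain ⟨⟨pr, hZr⟩, -, ⟨c1, cz⟩, -, -⟩ := l12_one (M := P.M) (z := z) (T := T) (Y := x.2)
        (by omega) (by omega) hTZ.1 (by omega) hok.hr (by omega) hok.sc
      rw [hA1, mem_image]
      refine ⟨(x.1 / lpf x.1, x.2 / lpf x.2, lpf x.1), ?_, ?_⟩
      · rw [mem_product, mem_product, mem_Icc, mem_Icc, mem_Icc]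
        refine ⟨⟨b1, bz⟩, ⟨c1, cz⟩, pq.one_le, ?_⟩
        exact (Nat.le_of_dvd (by omega) ⟨_, hYq⟩).trans hY2
      · refine Prod.ext hYq.symm ?_
        simp only
        rw [h]
        exact hZr.symm
    · right; left
      rw [hA2, mem_filter]
      exact ⟨hbox, h⟩
    · right; right; left
      rw [hA3, mem_filter]
      refine ⟨hbox, ?_⟩
      exact_mod_cast h
    · right; right; right; left
      rw [hA4, mem_filter]
      exact h
    · right; right; right; right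
      rw [hA5, mem_filter]
      exact h
  have hcard : ((S1 P z T \ SS P z T).card : ℝ) ≤
      (A1.card : ℝ) + (A2.card + (A3.card + (A4.card + A5.card))) := by
    have h1 : (S1 P z T \ SS P z T).card ≤
        A1.card + (A2.card + (A3.card + (A4.card + A5.card))) := by
      refine (card_le_card hsub).trans ((card_union_le _ _).trans ?_)
      refine Nat.add_le_add_left ((card_union_le _ _).trans ?_) _
      refine Nat.add_le_add_left ((card_union_le _ _).trans ?_) _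
      exact Nat.add_le_add_left (card_union_le _ _) _
    exact_mod_cast h1
  -- bounds
  have hT0 : (0 : ℝ) < T := by exact_mod_cast hT1
  have b1 : (A1.card : ℝ) ≤ (T : ℝ) ^ 2 / z := by
    have h1 : A1.card ≤ z * (z * T) := by
      refine card_image_le.trans ?_
      rw [card_product, card_product, Nat.card_Icc, Nat.card_Icc]
      simp
    have h2 : z ^ 3 ≤ T := (Nat.pow_le_pow_right (by omega) (by omega)).trans hTZ.1
    have h3 : (z : ℝ) ^ 3 ≤ T := by exact_mod_cast h2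
    rw [le_div_iff₀ hz0]
    calc (A1.card : ℝ) * z ≤ ((z * (z * T) : ℕ) : ℝ) * z := by
          refine mul_le_mul_of_nonneg_right ?_ hz0.le
          exact_mod_cast h1
      _ = (z : ℝ) ^ 3 * T := by push_cast; ring
      _ ≤ T * T := mul_le_mul_of_nonneg_right h3 hT0.le
      _ = (T : ℝ) ^ 2 := by ring
  have b2 : (A2.card : ℝ) ≤ 2 * (T : ℝ) ^ 2 / z := by
    have h1 := l12_pairs T (fun X => ∃ p : ℕ, z < p ∧ p ^ 2 ∣ X)
    have h2 := l12_sq z (2 * T) (by omega)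
    calc (A2.card : ℝ) ≤ ((T * ((Icc 1 (2 * T)).filter
          (fun X => ∃ p : ℕ, z < p ∧ p ^ 2 ∣ X)).card : ℕ) : ℝ) := Nat.cast_le.mpr h1
      _ = (T : ℝ) * (((Icc 1 (2 * T)).filter
          (fun X => ∃ p : ℕ, z < p ∧ p ^ 2 ∣ X)).card : ℝ) := by push_cast; rfl
      _ ≤ (T : ℝ) * (((2 * T : ℕ) : ℝ) / z) := mul_le_mul_of_nonneg_left h2 hT0.le
      _ = 2 * (T : ℝ) ^ 2 / z := by push_cast; ring
  have b3 : (A3.card : ℝ) ≤ 2 * C3 * Real.exp (-(3 * P.M)) * (T : ℝ) ^ 2 := by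
    have h1 := l12_pairs T (fun X => (z : ℝ) ^ (6 * P.M) < (sm z X : ℝ))
    have hz1r : (1 : ℝ) ≤ z := by exact_mod_cast (by omega : 1 ≤ z)
    have h2 := htail (2 * T) z ((z : ℝ) ^ (6 * P.M)) (by omega) (one_le_pow₀ hz1r)
    have hlz : 0 < Real.log z := Real.log_pos (by exact_mod_cast (by omega : 1 < z))
    have h3 : Real.log ((z : ℝ) ^ (6 * P.M)) / (2 * Real.log z) = 3 * P.M := by
      rw [Real.log_pow]
      push_cast
      field_simp
      ring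
    rw [h3] at h2
    calc (A3.card : ℝ) ≤ ((T * ((Icc 1 (2 * T)).filter
          (fun X => (z : ℝ) ^ (6 * P.M) < (sm z X : ℝ))).card : ℕ) : ℝ) := Nat.cast_le.mpr h1
      _ = (T : ℝ) * (((Icc 1 (2 * T)).filter
          (fun X => (z : ℝ) ^ (6 * P.M) < (sm z X : ℝ))).card : ℝ) := by push_cast; rfl
      _ ≤ (T : ℝ) * (C3 * ((2 * T : ℕ) : ℝ) * Real.exp (-(3 * P.M))) :=
          mul_le_mul_of_nonneg_left h2 hT0.le
      _ = 2 * C3 * Real.exp (-(3 * P.M)) * (T : ℝ) ^ 2 := by push_cast; ring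
  have b4 : (A4.card : ℝ) ≤ (C0 * C1 / P.w) * P.U0 z T := by
    exact l12_ub C0 C1 P.w hP hzw hC0 (hz1 z T hz1' hTZ) (fun φ => ∃ p, φ p = some none) _ _
      (hsq P.w z T (by omega) (by omega) hT1)
  have b5 : (A5.card : ℝ) ≤ (C0 * C2 / P.A) * P.U0 z T := by
    exact l12_ub C0 C2 P.A hP hzw hC0 (hz1 z T hz1' hTZ) (fun φ => z ^ P.A < ∏ p : Pr P.w z,
        (if ∃ ρ, φ p = some (some (0, ρ)) then (p : ℕ) else 1)) _ _
      (hbig P.w z T P.A (by omega) (by omega) hT1 hA)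
  have hU0 : 0 ≤ P.U0 z T := by
    unfold Par.U0
    have hlw : 0 < Real.log P.w := Real.log_pos (by exact_mod_cast (by omega : 1 < P.w))
    refine mul_nonneg (by positivity) (prod_nonneg fun i _ => ?_)
    unfold Par.L
    positivity
  have hexp : 3 * (T : ℝ) ^ 2 / z ≤ Real.exp (-(3 * P.M)) * (T : ℝ) ^ 2 := by
    have he : 0 < Real.exp (-(3 * P.M)) := Real.exp_pos _
    have h1 : 3 / Real.exp (-(3 * (P.M : ℝ))) ≤ z := hz2.trans (by exact_mod_cast hz2')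
    rw [div_le_iff₀ he] at h1
    rw [div_le_iff₀ hz0]
    have h2 := mul_le_mul_of_nonneg_right h1 (by positivity : (0 : ℝ) ≤ (T : ℝ) ^ 2)
    linarith
  have e1 : (C0 * C1 + C0 * C2 + 2 * C3 + 1) / P.w * P.U0 z T =
      (C0 * C1 / P.w) * P.U0 z T + (C0 * C2 + 2 * C3 + 1) / P.w * P.U0 z T := by ring
  have e2 : (C0 * C1 + C0 * C2 + 2 * C3 + 1) / P.A * P.U0 z T =
      (C0 * C2 / P.A) * P.U0 z T + (C0 * C1 + 2 * C3 + 1) / P.A * P.U0 z T := by ring
  have p1 : 0 ≤ (C0 * C2 + 2 * C3 + 1) / P.w * P.U0 z T := by positivity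
  have p2 : 0 ≤ (C0 * C1 + 2 * C3 + 1) / P.A * P.U0 z T := by positivity
  have p3 : 0 ≤ (C0 * C1 + C0 * C2) * Real.exp (-(3 * P.M)) * (T : ℝ) ^ 2 := by positivity
  have e3 : (T : ℝ) ^ 2 / z + 2 * (T : ℝ) ^ 2 / z = 3 * (T : ℝ) ^ 2 / z := by ring
  have e4 : (C0 * C1 + C0 * C2 + 2 * C3 + 1) * Real.exp (-(3 * P.M)) * (T : ℝ) ^ 2 =
      (C0 * C1 + C0 * C2) * Real.exp (-(3 * P.M)) * (T : ℝ) ^ 2 +
      2 * C3 * Real.exp (-(3 * P.M)) * (T : ℝ) ^ 2 + Real.exp (-(3 * P.M)) * (T : ℝ) ^ 2 := by ring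
  rw [add_mul, e1, e2, e4]
  linarith

end Pool.Agent.H77.K4
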