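import Pool.Agent.H77.K4.L11
import Pool.Agent.H77.K4.L12

/-!
# L13: lower bound for `SS`

There are `c > 0`, `w ≥ 384`, `A ≥ 1` such that for all `B ≥ 3`, `J ≥ 2` there is `E1` such that for
`E0 ≥ E1` the parameters are admissible and `# SS ≥ c U0` for `z ≥ z0`.

Proof. `c0` from `S1_low`, `C` from `S1_sdiff`. Choose `w, A` with `C/w + C/A ≤ c0/4`. By `L_low`
`U0 ≥ T^2 2^(-J) M^(-3) (log w)^(-3)`, and `C exp (-3M) 2^J M^3 (log w)^3 ≤ c0/4` for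
`M ≥ E0 ≥ E1(w, J)`. `E1 ≥ 100 (A+3)`. Then `# SS ≥ # S1 - # (S1 \ SS) ≥ (c0/2) U0`.
-/

set_option autoImplicit false

namespace Pool.Agent.H77.K4

open Finset Pool.Agent.H77.SV

private theorem prod_low {P : Par} {z : ℕ} (h : ∀ i < P.J, 1 / 2 ≤ P.L z i) :
    (1 / 2 : ℝ) ^ P.J ≤ ∏ i ∈ range P.J, P.L z i := by
  calc (1 / 2 : ℝ) ^ P.J = ∏ _i ∈ range P.J, (1 / 2 : ℝ) := by simp
    _ ≤ ∏ i ∈ range P.J, P.L z i :=
      prod_le_prod (fun _ _ => by norm_num) fun i hi => h i (mem_range.mp hi)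

theorem lower : ∃ (c : ℝ) (w A : ℕ), 0 < c ∧ 384 ≤ w ∧ 1 ≤ A ∧ ∀ B J : ℕ, 3 ≤ B → 2 ≤ J →
    ∃ E1 : ℕ, ∀ E0 : ℕ, E1 ≤ E0 → (⟨w, A, B, J, E0⟩ : Par).Adm ∧
      ∃ z0 : ℕ, ∀ z T : ℕ, z0 ≤ z → (⟨w, A, B, J, E0⟩ : Par).TZ z T →
        c * (⟨w, A, B, J, E0⟩ : Par).U0 z T ≤ ((SS ⟨w, A, B, J, E0⟩ z T).card : ℝ) := by
  classical
  obtain ⟨c0, hc0, h1⟩ := S1_low
  obtain ⟨C, hC, h2⟩ := S1_sdiff
  obtain ⟨n, hn⟩ := exists_nat_gt (8 * C / c0)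
  obtain ⟨w, hw⟩ : ∃ w : ℕ, w = n + 384 := ⟨_, rfl⟩
  obtain ⟨A, hA⟩ : ∃ A : ℕ, A = n + 1 := ⟨_, rfl⟩
  have hw1 : 384 ≤ w := by omega
  have hA1 : 1 ≤ A := by omega
  have hwR : C / (w : ℝ) ≤ c0 / 8 := by
    have hw0 : (0 : ℝ) < w := by exact_mod_cast (by omega : 0 < w)
    rw [div_le_iff₀ hw0]
    have h : 8 * C / c0 < w := by
      have : (n : ℝ) ≤ w := by exact_mod_cast (by omega : n ≤ w)
      linarith
    rw [div_lt_iff₀ hc0] at h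
    linarith
  have hAR : C / (A : ℝ) ≤ c0 / 8 := by
    have hw0 : (0 : ℝ) < A := by exact_mod_cast (by omega : 0 < A)
    rw [div_le_iff₀ hw0]
    have h : 8 * C / c0 < A := by
      have : (n : ℝ) ≤ A := by exact_mod_cast (by omega : n ≤ A)
      linarith
    rw [div_lt_iff₀ hc0] at h
    linarith
  have hlog : 0 < Real.log w := Real.log_pos (by
    have : (384 : ℝ) ≤ w := by exact_mod_cast hw1
    linarith)
  refine ⟨c0 / 2, w, A, by positivity, hw1, hA1, fun B J hB hJ => ?_⟩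
  have ht := Real.tendsto_pow_mul_exp_neg_atTop_nhds_zero 3
  have hd : 0 < c0 / 4 / (C * 2 ^ J * Real.log w ^ 3) := by positivity
  obtain ⟨x1, hx1⟩ := Filter.eventually_atTop.mp (ht.eventually (gt_mem_nhds hd))
  obtain ⟨n1, hn1⟩ := exists_nat_ge x1
  refine ⟨n1 + 100 * (A + 3), fun E0 hE0 => ?_⟩
  have hEA : 100 * (A + 3) ≤ E0 := le_trans (Nat.le_add_left _ _) hE0
  have hAdm : (⟨w, A, B, J, E0⟩ : Par).Adm := ⟨hw1, hA1, hB, hJ, hEA⟩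
  refine ⟨hAdm, ?_⟩
  set P : Par := ⟨w, A, B, J, E0⟩ with hP
  obtain ⟨z1, hz1⟩ := h1 P hAdm
  obtain ⟨z2, hz2⟩ := h2 P hAdm
  obtain ⟨z3, hz3⟩ := L_low hAdm
  refine ⟨max z1 (max z2 z3), fun z T hz hT => ?_⟩
  have e1 := hz1 z T (by omega) hT
  have e2 := hz2 z T (by omega) hT
  have e3 := prod_low (hz3 z (by omega))
  have hME : E0 ≤ P.M := by
    show E0 ≤ E0 * (13 * B) ^ J
    exact Nat.le_mul_of_pos_right _ (by positivity)
  have hM1 : x1 ≤ (P.M : ℝ) := by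
    have : (n1 : ℝ) ≤ P.M := by exact_mod_cast (by omega : n1 ≤ P.M)
    linarith
  have hM0 : (0 : ℝ) < P.M := by
    have : 0 < P.M := by omega
    exact_mod_cast this
  have e4 := hx1 _ hM1
  have hU : 0 ≤ P.U0 z T := by
    unfold Par.U0
    have : (0 : ℝ) ≤ ∏ i ∈ range P.J, P.L z i := le_trans (by positivity) e3
    exact mul_nonneg (div_nonneg (by positivity) (mul_nonneg (by positivity)
      (pow_nonneg hlog.le 3))) this
  have hU2 : (T : ℝ) ^ 2 / ((P.M : ℝ) ^ 3 * Real.log w ^ 3) * (1 / 2 : ℝ) ^ J ≤ P.U0 z T := by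
    unfold Par.U0
    exact mul_le_mul_of_nonneg_left e3 (by positivity)
  have e5 : C * Real.exp (-(3 * P.M)) * (T : ℝ) ^ 2 ≤ c0 / 4 * P.U0 z T := by
    have h6 : Real.exp (-(3 * P.M)) ≤ Real.exp (-(P.M : ℝ)) := by
      apply Real.exp_le_exp.mpr
      linarith
    have h7 : C * Real.exp (-(P.M : ℝ)) ≤
        c0 / 4 * (1 / ((P.M : ℝ) ^ 3 * Real.log w ^ 3) * (1 / 2 : ℝ) ^ J) := by
      rw [lt_div_iff₀ (by positivity)] at e4
      have h8 : c0 / 4 * (1 / ((P.M : ℝ) ^ 3 * Real.log w ^ 3) * (1 / 2 : ℝ) ^ J) =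
          c0 / 4 / ((P.M : ℝ) ^ 3 * Real.log w ^ 3 * 2 ^ J) := by
        rw [one_div_pow]
        field_simp
      rw [h8, le_div_iff₀ (by positivity)]
      calc C * Real.exp (-(P.M : ℝ)) * ((P.M : ℝ) ^ 3 * Real.log w ^ 3 * 2 ^ J) =
          (P.M : ℝ) ^ 3 * Real.exp (-(P.M : ℝ)) * (C * 2 ^ J * Real.log w ^ 3) := by ring
        _ ≤ c0 / 4 := e4.le
    calc C * Real.exp (-(3 * P.M)) * (T : ℝ) ^ 2 ≤ C * Real.exp (-(P.M : ℝ)) * (T : ℝ) ^ 2 := by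
          gcongr
      _ ≤ c0 / 4 * (1 / ((P.M : ℝ) ^ 3 * Real.log w ^ 3) * (1 / 2 : ℝ) ^ J) * (T : ℝ) ^ 2 :=
          mul_le_mul_of_nonneg_right h7 (by positivity)
      _ = c0 / 4 * ((T : ℝ) ^ 2 / ((P.M : ℝ) ^ 3 * Real.log w ^ 3) * (1 / 2 : ℝ) ^ J) := by ring
      _ ≤ c0 / 4 * P.U0 z T := mul_le_mul_of_nonneg_left hU2 (by positivity)
  have e6 : (C / P.w + C / P.A) * P.U0 z T ≤ c0 / 4 * P.U0 z T := by
    apply mul_le_mul_of_nonneg_right _ hU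
    show C / (w : ℝ) + C / (A : ℝ) ≤ c0 / 4
    linarith
  have e7 : ((S1 P z T).card : ℝ) ≤ ((S1 P z T \ SS P z T).card : ℝ) + ((SS P z T).card : ℝ) := by
    have h9 : (S1 P z T).card ≤ (S1 P z T \ SS P z T).card + (SS P z T).card :=
      calc (S1 P z T).card ≤ ((S1 P z T \ SS P z T) ∪ SS P z T).card := by
            apply card_le_card
            intro x hx
            by_cases h : x ∈ SS P z T
            · exact mem_union_right _ h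
            · exact mem_union_left _ (mem_sdiff.mpr ⟨hx, h⟩)
        _ ≤ _ := card_union_le _ _
    exact_mod_cast h9
  have e2' : ((S1 P z T \ SS P z T).card : ℝ) ≤
      (C / P.w + C / P.A) * P.U0 z T + C * Real.exp (-(3 * P.M)) * (T : ℝ) ^ 2 := by
    convert e2
  linarith

end Pool.Agent.H77.K4
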