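import Pool.Agent.H77.K4.Defs4

/-!
# L2: characters

`char_exp`: `b, c` prime to `d`, all elements of `Qs`, `Rs` prime to `d`. Then
`|Er Qs Rs b c d| ≤ (1/φ(d)) sum_(χ ≠ 1 mod d) Sx Qs χ * Sx Rs χ`.
Proof. `d | b q + c r` iff `b q = - c r` in `ZMod d` (units). By orthogonality
(`Pool.Agent.H37.SFQ.sum_char_mul_conj`) the number is
`(1/φ(d)) sum_χ sum_(q,r) χ(b q) conj χ(- c r) =
(1/φ(d)) sum_χ χ(b) conj χ(-c) (sum_q χ(q)) conj (sum_r χ(r))`. The term `χ = 1` is
`# Qs # Rs / φ(d)`; the others are bounded by absolute values (`|χ| ≤ 1`).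

`prim_red`: `sum_(χ ≠ 1 mod d) Sx Qs χ Sx Rs χ ≤ sum_(f | d, f ≠ 1) sum_(χ ∈ prims f) Sx Qs χ Sx Rs χ`.
Proof. Each `χ mod d` is induced by its primitive character `χ.primitiveCharacter` of level
`χ.conductor | d`, and both have the same values at integers prime to `d`
(`DirichletCharacter.changeLevel`), so the same `Sx`; the conductor is `1` only for `χ = 1`; and `χ` is
determined by the primitive character (`χ = changeLevel`), so the map
`χ ↦ (conductor, primitive character)` is injective.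
-/

set_option autoImplicit false

/-!
# L2: characters

`char_exp`: `b, c` prime to `d`, all elements of `Qs`, `Rs` prime to `d`. Then
`|Er Qs Rs b c d| ≤ (1/φ(d)) sum_(χ ≠ 1 mod d) Sx Qs χ * Sx Rs χ`.
Proof. `d | b q + c r` iff `b q = - c r` in `ZMod d` (units). By orthogonality
(`Pool.Agent.H37.SFQ.sum_char_mul_conj`) the number is
`(1/φ(d)) sum_χ sum_(q,r) χ(b q) conj χ(- c r) =
(1/φ(d)) sum_χ χ(b) conj χ(-c) (sum_q χ(q)) conj (sum_r χ(r))`. The term `χ = 1` is
`# Qs # Rs / φ(d)`; the others are bounded by absolute values (`|χ| ≤ 1`).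

`prim_red`: `sum_(χ ≠ 1 mod d) Sx Qs χ Sx Rs χ ≤ sum_(f | d, f ≠ 1) sum_(χ ∈ prims f) Sx Qs χ Sx Rs χ`.
Proof. Each `χ mod d` is induced by its primitive character `χ.primitiveCharacter` of level
`χ.conductor | d`, and both have the same values at integers prime to `d`
(`DirichletCharacter.changeLevel`), so the same `Sx`; the conductor is `1` only for `χ = 1`; and `χ` is
determined by the primitive character (`χ = changeLevel`), so the map
`χ ↦ (conductor, primitive character)` is injective.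
-/

namespace Pool.Agent.H77.K4

open Finset Pool.Agent.H77.SV Pool.Agent.H37.SFQ

open Classical in
theorem char_exp {d b c : ℕ} [NeZero d] (hb : b.Coprime d) (hc : c.Coprime d) (Qs Rs : Finset ℕ)
    (hQ : ∀ q ∈ Qs, q.Coprime d) (hR : ∀ q ∈ Rs, q.Coprime d) :
    |Er Qs Rs b c d| ≤ 1 / (d.totient : ℝ) *
      ∑ χ ∈ (univ : Finset (DirichletCharacter ℂ d)).erase 1, Sx Qs χ * Sx Rs χ := by
  have hφ : (0 : ℝ) < d.totient := by
    have : 0 < d.totient := Nat.totient_pos.2 (Nat.pos_of_ne_zero (NeZero.ne d))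
    exact_mod_cast this
  set N : ℕ := ((Qs ×ˢ Rs).filter fun x => d ∣ b * x.1 + c * x.2).card with hN
  -- the general term
  set G : DirichletCharacter ℂ d → ℂ := fun χ =>
    χ ((b : ZMod d)) * (starRingEnd ℂ) (χ (-(c : ZMod d))) *
      ((∑ q ∈ Qs, χ (q : ZMod d)) * (starRingEnd ℂ) (∑ r ∈ Rs, χ (r : ZMod d))) with hG
  have h1 : ∀ x ∈ Qs ×ˢ Rs, (if d ∣ b * x.1 + c * x.2 then (d.totient : ℂ) else 0) =
      ∑ χ : DirichletCharacter ℂ d, χ ((b : ZMod d) * (x.1 : ZMod d)) *
        (starRingEnd ℂ) (χ (-(c : ZMod d) * (x.2 : ZMod d))) := by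
    intro x hx
    rw [mem_product] at hx
    rw [sum_char_mul_conj]
    have hu : IsUnit (-(c : ZMod d) * (x.2 : ZMod d)) := by
      rw [neg_mul, IsUnit.neg_iff]
      exact ((ZMod.isUnit_iff_coprime c d).2 hc).mul
        ((ZMod.isUnit_iff_coprime x.2 d).2 (hR _ hx.2))
    have he : (d ∣ b * x.1 + c * x.2) ↔
        ((b : ZMod d) * (x.1 : ZMod d) = -(c : ZMod d) * (x.2 : ZMod d) ∧
          IsUnit (-(c : ZMod d) * (x.2 : ZMod d))) := by
      rw [← ZMod.natCast_eq_zero_iff]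
      push_cast
      constructor
      · intro h
        refine ⟨?_, hu⟩
        rw [neg_mul]
        exact eq_neg_of_add_eq_zero_left h
      · intro h
        rw [h.1]
        ring
    by_cases hd : d ∣ b * x.1 + c * x.2
    · rw [if_pos hd, if_pos (he.1 hd)]
    · rw [if_neg hd, if_neg (fun h => hd (he.2 h))]
  have h2 : (d.totient : ℂ) * N = ∑ χ : DirichletCharacter ℂ d, G χ := by
    have a1 : (d.totient : ℂ) * N =
        ∑ x ∈ Qs ×ˢ Rs, (if d ∣ b * x.1 + c * x.2 then (d.totient : ℂ) else 0) := by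
      rw [← Finset.sum_filter, Finset.sum_const, nsmul_eq_mul, mul_comm]
    rw [a1, Finset.sum_congr rfl h1, Finset.sum_comm]
    refine Finset.sum_congr rfl fun χ _ => ?_
    simp only [hG]
    rw [map_sum, Finset.sum_mul_sum, Finset.mul_sum, Finset.sum_product]
    refine Finset.sum_congr rfl fun q _ => ?_
    rw [Finset.mul_sum]
    refine Finset.sum_congr rfl fun r _ => ?_
    rw [map_mul, map_mul, map_mul]
    ring
  have h3 : G 1 = (Qs.card : ℂ) * Rs.card := by
    simp only [hG]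
    have b1 : (1 : DirichletCharacter ℂ d) (b : ZMod d) = 1 :=
      MulChar.one_apply ((ZMod.isUnit_iff_coprime b d).2 hb)
    have b2 : (1 : DirichletCharacter ℂ d) (-(c : ZMod d)) = 1 := by
      refine MulChar.one_apply ?_
      rw [IsUnit.neg_iff]
      exact (ZMod.isUnit_iff_coprime c d).2 hc
    have b3 : ∑ q ∈ Qs, (1 : DirichletCharacter ℂ d) (q : ZMod d) = Qs.card := by
      rw [Finset.sum_congr rfl fun q hq =>
        MulChar.one_apply ((ZMod.isUnit_iff_coprime q d).2 (hQ q hq))]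
      simp
    have b4 : ∑ q ∈ Rs, (1 : DirichletCharacter ℂ d) (q : ZMod d) = Rs.card := by
      rw [Finset.sum_congr rfl fun q hq =>
        MulChar.one_apply ((ZMod.isUnit_iff_coprime q d).2 (hR q hq))]
      simp
    rw [b1, b2, b3, b4]
    simp
  have h4 : (d.totient : ℂ) * N - (Qs.card : ℂ) * Rs.card =
      ∑ χ ∈ (univ : Finset (DirichletCharacter ℂ d)).erase 1, G χ := by
    rw [h2, ← h3, ← Finset.add_sum_erase _ _ (mem_univ (1 : DirichletCharacter ℂ d))]
    ring
  have h5 : |(d.totient : ℝ) * N - (Qs.card : ℝ) * Rs.card| ≤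
      ∑ χ ∈ (univ : Finset (DirichletCharacter ℂ d)).erase 1, Sx Qs χ * Sx Rs χ := by
    have c1 : |(d.totient : ℝ) * N - (Qs.card : ℝ) * Rs.card| =
        ‖(d.totient : ℂ) * N - (Qs.card : ℂ) * Rs.card‖ := by
      rw [← Real.norm_eq_abs, ← Complex.norm_real]
      push_cast
      rfl
    rw [c1, h4]
    refine (norm_sum_le _ _).trans (Finset.sum_le_sum fun χ _ => ?_)
    simp only [hG]
    rw [norm_mul, norm_mul, norm_mul, RCLike.norm_conj, RCLike.norm_conj]
    have d1 : ‖χ (b : ZMod d)‖ ≤ 1 := χ.norm_le_one _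
    have d2 : ‖χ (-(c : ZMod d))‖ ≤ 1 := χ.norm_le_one _
    have d3 : ‖χ (b : ZMod d)‖ * ‖χ (-(c : ZMod d))‖ ≤ 1 :=
      mul_le_one₀ d1 (norm_nonneg _) d2
    have d4 : 0 ≤ Sx Qs χ * Sx Rs χ := mul_nonneg (norm_nonneg _) (norm_nonneg _)
    have d5 := mul_le_mul_of_nonneg_right d3 d4
    rw [one_mul] at d5
    exact d5
  have h6 : Er Qs Rs b c d =
      1 / (d.totient : ℝ) * ((d.totient : ℝ) * N - (Qs.card : ℝ) * Rs.card) := by
    have e1 : Er Qs Rs b c d = (N : ℝ) - (Qs.card : ℝ) * Rs.card / d.totient := by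
      rw [hN]
      unfold Er
      congr!
    rw [e1]
    field_simp
  rw [h6, abs_mul, abs_of_pos (by positivity : (0 : ℝ) < 1 / (d.totient : ℝ))]
  exact mul_le_mul_of_nonneg_left h5 (by positivity)

lemma Sx_primitiveCharacter {d : ℕ} [NeZero d] (Qs : Finset ℕ) (hQ : ∀ q ∈ Qs, q.Coprime d)
    (χ : DirichletCharacter ℂ d) : Sx Qs χ.primitiveCharacter = Sx Qs χ := by
  unfold Sx
  congr 1
  refine Finset.sum_congr rfl fun q hq => ?_
  have h := χ.primitiveCharacter_apply_of_isCoprime (a := (q : ℤ))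
    (Nat.isCoprime_iff_coprime.2 (hQ q hq))
  simpa using h

open Classical in
theorem prim_red {d : ℕ} [NeZero d] (Qs Rs : Finset ℕ)
    (hQ : ∀ q ∈ Qs, q.Coprime d) (hR : ∀ q ∈ Rs, q.Coprime d) :
    ∑ χ ∈ (univ : Finset (DirichletCharacter ℂ d)).erase 1, Sx Qs χ * Sx Rs χ ≤
      ∑ f ∈ d.divisors.erase 1, ∑ χ ∈ prims f, Sx Qs χ * Sx Rs χ := by
  rw [Finset.sum_sigma']
  set i : DirichletCharacter ℂ d → (Σ f : ℕ, DirichletCharacter ℂ f) :=
    fun χ => ⟨χ.conductor, χ.primitiveCharacter⟩ with hi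
  set g : (Σ f : ℕ, DirichletCharacter ℂ f) → DirichletCharacter ℂ d :=
    fun x => if h : x.1 ∣ d then DirichletCharacter.changeLevel h x.2 else 1 with hg
  have hgi : ∀ χ, g (i χ) = χ := by
    intro χ
    simp only [hg, hi]
    rw [dif_pos χ.conductor_dvd_level]
    exact χ.changeLevel_primitiveCharacter
  have hinj : Function.Injective i := Function.LeftInverse.injective hgi
  have h1 : ∑ χ ∈ (univ : Finset (DirichletCharacter ℂ d)).erase 1, Sx Qs χ * Sx Rs χ =
      ∑ x ∈ ((univ : Finset (DirichletCharacter ℂ d)).erase 1).image i,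
        Sx Qs x.2 * Sx Rs x.2 := by
    rw [Finset.sum_image (fun x _ y _ h => hinj h)]
    refine Finset.sum_congr rfl fun χ _ => ?_
    have e1 := Sx_primitiveCharacter Qs hQ χ
    have e2 := Sx_primitiveCharacter Rs hR χ
    change Sx Qs χ * Sx Rs χ = Sx Qs χ.primitiveCharacter * Sx Rs χ.primitiveCharacter
    rw [e1, e2]
  rw [h1]
  refine Finset.sum_le_sum_of_subset_of_nonneg ?_ fun x _ _ =>
    mul_nonneg (norm_nonneg _) (norm_nonneg _)
  intro x hx
  rw [mem_image] at hx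
  obtain ⟨χ, hχ, rfl⟩ := hx
  rw [mem_erase] at hχ
  rw [mem_sigma, mem_erase]
  refine ⟨⟨?_, ?_⟩, ?_⟩
  · intro h
    exact hχ.1 (DirichletCharacter.eq_one_iff_conductor_eq_one.2 h)
  · rw [Nat.mem_divisors]
    exact ⟨χ.conductor_dvd_level, NeZero.ne d⟩
  · rw [mem_prims]
    exact χ.primitiveCharacter_isPrimitive

end Pool.Agent.H77.K4
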