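import Pool.Agent.H77.K4.Defs4

/-!
# L5: the Brun-Hooley lower bound sieve, combinatorial part

`bh_lower`: for every finite set `A` (of primes): `sum_(D ⊆ A) lam y D ≤ 1` if `A` is empty and `≤ 0`
otherwise. Proof. Let `A_k = {p ∈ A : blk y p = k}`, `n_k = # A_k`, `r_k = 2k + 2`. The subsets `D` which
are admissible are those with `# (D ∩ A_k) ≤ r_k` for all `k`, and those with exactly one `k` with
`# (D ∩ A_k) = r_k + 1`, the others `≤ r_j`. So
`sum lam = prod_k y_k - sum_k E_k prod_(j ≠ k) y_j`, with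
`y_k = sum_(i ≤ r_k) (-1)^i C(n_k, i)`, `E_k = C(n_k, r_k + 1)` (the sign: `(-1)^(# D)` and
`r_k + 1` is odd), products over the finitely many blocks which occur. `y_k = 1` if `n_k = 0`, and
`y_k = C(n_k - 1, r_k) ≥ 0` if `n_k ≥ 1` (alternating sum, `r_k` even;
`Int.alternating_sum_range_choose_of_ne`, or induction), and
`C(n_k - 1, r_k) ≤ C(n_k, r_k + 1) = E_k`. If some `n_k ≥ 1` then
`prod y = y_k prod_(j≠k) y_j ≤ E_k prod_(j ≠ k) y_j ≤` the subtracted sum.

`bh_level`: if `AdmD y D`, all `p ∈ D` are primes with `p ≤ y`, `1 ≤ y`, then `prod_(p ∈ D) p ≤ y^9`.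
Proof. `p ∈ D` in the block `k` satisfies `p^(2^k) ≤ y` (`Nat.pow_log_le_self`), so
`log p ≤ log y / 2^k`, and `sum_k (2k+2)/2^k ≤ 8`, plus at most one more prime `≤ y`.
-/

set_option autoImplicit false

namespace Pool.Agent.H77.K4

open Finset Pool.Agent.H77.SV

private theorem l5_blocks (b : ℕ → ℕ) (f : ℕ → ℕ → ℝ) (K : Finset ℕ) :
    ∀ A : Finset ℕ, (∀ p ∈ A, b p ∈ K) →
    ∑ D ∈ A.powerset, (-1 : ℝ) ^ D.card * ∏ k ∈ K, f k (D.filter fun p => b p = k).card =
    ∏ k ∈ K, ∑ D ∈ (A.filter fun p => b p = k).powerset, (-1 : ℝ) ^ D.card * f k D.card := by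
  induction K using Finset.induction_on with
  | empty =>
    intro A hA
    have : A = ∅ := Finset.eq_empty_of_forall_notMem fun p hp => by simpa using hA p hp
    subst this
    simp
  | insert k0 K hk0 ih =>
    intro A hA
    rw [Finset.prod_insert hk0]
    have hA' : ∀ p ∈ A.filter (fun p => b p ≠ k0), b p ∈ K := by
      intro p hp
      rw [Finset.mem_filter] at hp
      rcases Finset.mem_insert.1 (hA p hp.1) with h | h
      · exact absurd h hp.2
      · exact h
    have ih' := ih (A.filter fun p => b p ≠ k0) hA'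
    have hfil : ∀ k ∈ K, ((A.filter fun p => b p ≠ k0).filter fun p => b p = k) =
        A.filter fun p => b p = k := by
      intro k hk
      ext p
      simp only [Finset.mem_filter]
      constructor
      · rintro ⟨⟨h1, _⟩, h3⟩
        exact ⟨h1, h3⟩
      · rintro ⟨h1, h3⟩
        exact ⟨⟨h1, fun h => hk0 (by rw [← h, h3]; exact hk)⟩, h3⟩
    have ih2 : ∑ D ∈ (A.filter fun p => b p ≠ k0).powerset,
        (-1 : ℝ) ^ D.card * ∏ k ∈ K, f k (D.filter fun p => b p = k).card =
        ∏ k ∈ K, ∑ D ∈ (A.filter fun p => b p = k).powerset, (-1 : ℝ) ^ D.card * f k D.card := by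
      rw [ih']
      exact Finset.prod_congr rfl fun k hk => by rw [hfil k hk]
    rw [← ih2, Finset.sum_mul_sum, ← Finset.sum_product']
    refine Finset.sum_nbij' (fun D => (D.filter fun p => b p = k0, D.filter fun p => b p ≠ k0))
      (fun x => x.1 ∪ x.2) ?_ ?_ ?_ ?_ ?_
    · intro D hD
      rw [Finset.mem_powerset] at hD
      rw [Finset.mem_product, Finset.mem_powerset, Finset.mem_powerset]
      exact ⟨Finset.filter_subset_filter _ hD, Finset.filter_subset_filter _ hD⟩
    · intro x hx
      rw [Finset.mem_product, Finset.mem_powerset, Finset.mem_powerset] at hx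
      rw [Finset.mem_powerset]
      exact Finset.union_subset (hx.1.trans (Finset.filter_subset _ _))
        (hx.2.trans (Finset.filter_subset _ _))
    · intro D _
      exact Finset.filter_union_filter_not_eq _ _
    · rintro ⟨D0, D1⟩ hx
      rw [Finset.mem_product, Finset.mem_powerset, Finset.mem_powerset] at hx
      have h0 : ∀ p ∈ D0, b p = k0 := fun p hp => (Finset.mem_filter.1 (hx.1 hp)).2
      have h1 : ∀ p ∈ D1, b p ≠ k0 := fun p hp => (Finset.mem_filter.1 (hx.2 hp)).2
      refine Prod.ext ?_ ?_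
      · ext p
        simp only [Finset.mem_filter, Finset.mem_union]
        constructor
        · rintro ⟨h | h, h'⟩
          · exact h
          · exact absurd h' (h1 p h)
        · intro h
          exact ⟨Or.inl h, h0 p h⟩
      · ext p
        simp only [Finset.mem_filter, Finset.mem_union]
        constructor
        · rintro ⟨h | h, h'⟩
          · exact absurd (h0 p h) h'
          · exact h
        · intro h
          exact ⟨Or.inr h, h1 p h⟩
    · intro D hD
      have hcard : D.card = (D.filter fun p => b p = k0).card + (D.filter fun p => b p ≠ k0).card :=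
        (Finset.card_filter_add_card_filter_not (s := D) (fun p => b p = k0)).symm
      have hf : ∏ k ∈ K, f k (D.filter fun p => b p = k).card =
          ∏ k ∈ K, f k ((D.filter fun p => b p ≠ k0).filter fun p => b p = k).card := by
        refine Finset.prod_congr rfl fun k hk => ?_
        have : ((D.filter fun p => b p ≠ k0).filter fun p => b p = k) =
            D.filter fun p => b p = k := by
          ext p
          simp only [Finset.mem_filter]
          constructor
          · rintro ⟨⟨h1, _⟩, h3⟩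
            exact ⟨h1, h3⟩
          · rintro ⟨h1, h3⟩
            exact ⟨⟨h1, fun h => hk0 (by rw [← h, h3]; exact hk)⟩, h3⟩
        rw [this]
      rw [Finset.prod_insert hk0, hf, hcard, pow_add]
      ring

private theorem l5_alt (n m : ℕ) :
    ∑ i ∈ range (m + 1), (-1 : ℝ) ^ i * ((n + 1).choose i : ℝ) = (-1) ^ m * (n.choose m : ℝ) := by
  induction m with
  | zero => simp
  | succ m ih =>
    rw [Finset.sum_range_succ, ih, Nat.choose_succ_succ n m]
    push_cast
    rw [pow_succ]
    ring

private theorem l5_y_eq (A : Finset ℕ) (r : ℕ) :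
    ∑ D ∈ A.powerset, (-1 : ℝ) ^ D.card * (if D.card ≤ r then (1 : ℝ) else 0) =
      ∑ i ∈ range (r + 1), (-1 : ℝ) ^ i * (A.card.choose i : ℝ) := by
  rw [Finset.sum_powerset_apply_card
    (f := fun m => (-1 : ℝ) ^ m * (if m ≤ r then (1 : ℝ) else 0))]
  have h1 : ∀ m ∈ range (A.card + 1), A.card.choose m • ((-1 : ℝ) ^ m * (if m ≤ r then (1 : ℝ) else 0))
      = if m ∈ range (r + 1) then (-1 : ℝ) ^ m * (A.card.choose m : ℝ) else 0 := by
    intro m _
    by_cases h : m ≤ r
    · have : m ∈ range (r + 1) := Finset.mem_range.2 (by omega)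
      rw [if_pos h, if_pos this, nsmul_eq_mul]
      ring
    · have : m ∉ range (r + 1) := fun hh => h (by have := Finset.mem_range.1 hh; omega)
      rw [if_neg h, if_neg this, mul_zero, smul_zero]
  rw [Finset.sum_congr rfl h1, Finset.sum_ite_mem]
  have h2 : ∀ m ∈ range (r + 1), m ∉ range (A.card + 1) ∩ range (r + 1) →
      (-1 : ℝ) ^ m * (A.card.choose m : ℝ) = 0 := by
    intro m hm hm'
    have : ¬ m < A.card + 1 := fun h => hm' (Finset.mem_inter.2 ⟨Finset.mem_range.2 h, hm⟩)
    rw [Nat.choose_eq_zero_of_lt (by omega)]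
    simp
  exact Finset.sum_subset Finset.inter_subset_right h2

private theorem l5_e_eq (A : Finset ℕ) (r : ℕ) :
    ∑ D ∈ A.powerset, (-1 : ℝ) ^ D.card * (if D.card = r then (1 : ℝ) else 0) =
      (-1) ^ r * (A.card.choose r : ℝ) := by
  rw [Finset.sum_powerset_apply_card
    (f := fun m => (-1 : ℝ) ^ m * (if m = r then (1 : ℝ) else 0))]
  rw [Finset.sum_eq_single r]
  · rw [if_pos rfl, nsmul_eq_mul]
    ring
  · intro m _ hm
    rw [if_neg hm, mul_zero, smul_zero]
  · intro h
    have : ¬ r < A.card + 1 := fun h' => h (Finset.mem_range.2 h')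
    rw [Nat.choose_eq_zero_of_lt (by omega)]
    simp

private theorem l5_ite (K : Finset ℕ) (c : ℕ → ℕ) (hc : ∀ k, k ∉ K → c k = 0)
    (P : Prop) [Decidable P]
    (hP : P ↔ (∀ k, c k ≤ 2 * k + 3) ∧ ∀ k k', c k = 2 * k + 3 → c k' = 2 * k' + 3 → k = k') :
    (if P then (1 : ℝ) else 0) = ∏ k ∈ K, (if c k ≤ 2 * k + 2 then (1 : ℝ) else 0) +
      ∑ k ∈ K, (if c k = 2 * k + 3 then (1 : ℝ) else 0) *
        ∏ j ∈ K.erase k, (if c j ≤ 2 * j + 2 then (1 : ℝ) else 0) := by
  by_cases h : ∃ k ∈ K, c k = 2 * k + 3 ∧ ∀ j ∈ K.erase k, c j ≤ 2 * j + 2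
  · obtain ⟨k, hk, h1, h2⟩ := h
    have hlt : ∀ j, j ≠ k → c j ≤ 2 * j + 2 := by
      intro j hj
      by_cases hjK : j ∈ K
      · exact h2 j (Finset.mem_erase.2 ⟨hj, hjK⟩)
      · rw [hc j hjK]
        omega
    have hPt : P := by
      rw [hP]
      refine ⟨fun j => ?_, fun i j hi hj => ?_⟩
      · by_cases hj : j = k
        · rw [hj, h1]
        · have := hlt j hj
          omega
      · have hik : i = k := by
          by_contra hne
          have := hlt i hne
          omega
        have hjk : j = k := by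
          by_contra hne
          have := hlt j hne
          omega
        rw [hik, hjk]
    have hprod : ∏ k ∈ K, (if c k ≤ 2 * k + 2 then (1 : ℝ) else 0) = 0 :=
      Finset.prod_eq_zero hk (by rw [if_neg (by omega)])
    rw [if_pos hPt, hprod, zero_add, Finset.sum_eq_single k]
    · rw [if_pos h1, one_mul]
      exact (Finset.prod_eq_one fun j hj => if_pos (h2 j hj)).symm
    · intro i _ hik
      rw [Finset.prod_eq_zero (i := k) (Finset.mem_erase.2 ⟨hik.symm, hk⟩) (by rw [if_neg (by omega)]),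
        mul_zero]
    · intro h'
      exact absurd hk h'
  · have hsum : ∑ k ∈ K, (if c k = 2 * k + 3 then (1 : ℝ) else 0) *
        ∏ j ∈ K.erase k, (if c j ≤ 2 * j + 2 then (1 : ℝ) else 0) = 0 := by
      refine Finset.sum_eq_zero fun k hk => ?_
      by_cases h1 : c k = 2 * k + 3
      · have : ∃ j ∈ K.erase k, ¬ c j ≤ 2 * j + 2 := by
          by_contra hcon
          push Not at hcon
          exact h ⟨k, hk, h1, hcon⟩
        obtain ⟨j, hj, hj'⟩ := this
        rw [Finset.prod_eq_zero hj (by rw [if_neg hj']), mul_zero]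
      · rw [if_neg h1, zero_mul]
    rw [hsum, add_zero]
    by_cases hall : ∀ k ∈ K, c k ≤ 2 * k + 2
    · have hlt : ∀ k, c k ≤ 2 * k + 2 := by
        intro k
        by_cases hk : k ∈ K
        · exact hall k hk
        · rw [hc k hk]
          omega
      have hPt : P := by
        rw [hP]
        refine ⟨fun j => ?_, fun i j hi hj => ?_⟩
        · have := hlt j
          omega
        · have := hlt i
          omega
      rw [if_pos hPt]
      exact (Finset.prod_eq_one fun j hj => if_pos (hall j hj)).symm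
    · push Not at hall
      obtain ⟨k, hk, hk'⟩ := hall
      have hPf : ¬ P := by
        rw [hP]
        rintro ⟨h1, h2⟩
        have hk1 : c k = 2 * k + 3 := by
          have := h1 k
          omega
        refine h ⟨k, hk, hk1, fun j hj => ?_⟩
        have hjk : j ≠ k := (Finset.mem_erase.1 hj).1
        have h3 := h1 j
        by_contra hcon
        exact hjk (h2 j k (by omega) hk1)
      rw [if_neg hPf]
      exact (Finset.prod_eq_zero hk (by rw [if_neg (by omega)])).symm

theorem bh_lower (y : ℕ) (A : Finset ℕ) :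
    ∑ D ∈ A.powerset, lam y D ≤ if A = ∅ then 1 else 0 := by
  classical
  by_cases hA : A = ∅
  · subst hA
    rw [if_pos rfl, Finset.powerset_empty, Finset.sum_singleton, lam]
    split_ifs <;> simp
  · rw [if_neg hA]
    set K : Finset ℕ := A.image (blk y) with hK
    have hAK : ∀ p ∈ A, blk y p ∈ K := fun p hp => Finset.mem_image_of_mem _ hp
    set f0 : ℕ → ℕ → ℝ := fun k i => if i ≤ 2 * k + 2 then 1 else 0 with hf0
    set g : ℕ → ℕ → ℕ → ℝ := fun k j i =>
      if j = k then (if i = 2 * k + 3 then 1 else 0) else f0 j i with hg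
    have hlam : ∀ D ∈ A.powerset, lam y D =
        (-1 : ℝ) ^ D.card * ∏ k ∈ K, f0 k (D.filter fun p => blk y p = k).card +
        ∑ k ∈ K, (-1 : ℝ) ^ D.card * ∏ j ∈ K, g k j (D.filter fun p => blk y p = j).card := by
      intro D hD
      rw [Finset.mem_powerset] at hD
      have hc : ∀ k, k ∉ K → (D.filter fun p => blk y p = k).card = 0 := by
        intro k hk
        rw [Finset.card_eq_zero, Finset.filter_eq_empty_iff]
        intro p hp h
        exact hk (h ▸ hAK p (hD hp))
      have h1 := l5_ite K (fun k => (D.filter fun p => blk y p = k).card) hc (AdmD y D) Iff.rfl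
      have h2 : lam y D = (-1 : ℝ) ^ D.card * (if AdmD y D then (1 : ℝ) else 0) := by
        rw [lam]
        split_ifs <;> simp
      rw [h2, h1, mul_add, Finset.mul_sum]
      congr 1
      refine Finset.sum_congr rfl fun k hk => ?_
      rw [← Finset.mul_prod_erase K _ hk]
      have h3 : g k k (D.filter fun p => blk y p = k).card =
          if (D.filter fun p => blk y p = k).card = 2 * k + 3 then (1 : ℝ) else 0 := by
        simp only [hg, if_true]
      have h4 : ∏ j ∈ K.erase k, g k j (D.filter fun p => blk y p = j).card =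
          ∏ j ∈ K.erase k, (if (D.filter fun p => blk y p = j).card ≤ 2 * j + 2 then (1 : ℝ) else 0) :=
        Finset.prod_congr rfl fun j hj => by
          simp only [hg, hf0, if_neg (Finset.mem_erase.1 hj).1]
      rw [h3, h4]
    rw [Finset.sum_congr rfl hlam, Finset.sum_add_distrib, Finset.sum_comm,
      l5_blocks (blk y) f0 K A hAK]
    have hB : ∀ k ∈ K, ∑ D ∈ A.powerset,
        (-1 : ℝ) ^ D.card * ∏ j ∈ K, g k j (D.filter fun p => blk y p = j).card =
        ∏ j ∈ K, ∑ D ∈ (A.filter fun p => blk y p = j).powerset, (-1 : ℝ) ^ D.card * g k j D.card :=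
      fun k _ => l5_blocks (blk y) (g k) K A hAK
    rw [Finset.sum_congr rfl hB]
    set Y : ℕ → ℝ := fun k =>
      ∑ D ∈ (A.filter fun p => blk y p = k).powerset, (-1 : ℝ) ^ D.card * f0 k D.card with hY
    set E : ℕ → ℝ := fun k => (((A.filter fun p => blk y p = k).card).choose (2 * k + 3) : ℝ) with hE
    have hYeq : ∀ k, Y k = ∑ i ∈ range (2 * k + 2 + 1),
        (-1 : ℝ) ^ i * ((A.filter fun p => blk y p = k).card.choose i : ℝ) := by
      intro k
      simp only [hY, hf0]
      exact l5_y_eq _ _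
    have hY0 : ∀ k, 0 ≤ Y k := by
      intro k
      rw [hYeq]
      rcases Nat.eq_zero_or_pos (A.filter fun p => blk y p = k).card with h | h
      · rw [h, Finset.sum_range_succ']
        have : ∀ i ∈ range (2 * k + 2), (-1 : ℝ) ^ (i + 1) * ((0 : ℕ).choose (i + 1) : ℝ) = 0 :=
          fun i _ => by simp
        rw [Finset.sum_eq_zero this]
        simp
      · obtain ⟨n, hn⟩ : ∃ n, (A.filter fun p => blk y p = k).card = n + 1 :=
          ⟨(A.filter fun p => blk y p = k).card - 1, by omega⟩
        rw [hn, l5_alt, Even.neg_one_pow ⟨k + 1, by ring⟩, one_mul]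
        positivity
    have hYE : ∀ k ∈ K, Y k ≤ E k := by
      intro k hk
      have hpos : 0 < (A.filter fun p => blk y p = k).card := by
        rw [Finset.card_pos]
        obtain ⟨p, hp, hpk⟩ := Finset.mem_image.1 hk
        exact ⟨p, Finset.mem_filter.2 ⟨hp, hpk⟩⟩
      obtain ⟨n, hn⟩ : ∃ n, (A.filter fun p => blk y p = k).card = n + 1 :=
        ⟨(A.filter fun p => blk y p = k).card - 1, by omega⟩
      rw [hYeq]
      simp only [hE]
      rw [hn, l5_alt, Even.neg_one_pow ⟨k + 1, by ring⟩, one_mul,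
        show 2 * k + 3 = (2 * k + 2) + 1 from rfl, Nat.choose_succ_succ n (2 * k + 2)]
      push_cast
      have : (0 : ℝ) ≤ (n.choose (2 * k + 2 + 1) : ℝ) := Nat.cast_nonneg _
      linarith
    have hterm : ∀ k ∈ K, ∏ j ∈ K, ∑ D ∈ (A.filter fun p => blk y p = j).powerset,
        (-1 : ℝ) ^ D.card * g k j D.card = -(E k * ∏ j ∈ K.erase k, Y j) := by
      intro k hk
      rw [← Finset.mul_prod_erase K _ hk]
      have h1 : ∑ D ∈ (A.filter fun p => blk y p = k).powerset, (-1 : ℝ) ^ D.card * g k k D.card =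
          -E k := by
        have : ∀ D ∈ (A.filter fun p => blk y p = k).powerset, (-1 : ℝ) ^ D.card * g k k D.card =
            (-1 : ℝ) ^ D.card * (if D.card = 2 * k + 3 then (1 : ℝ) else 0) := by
          intro D _
          simp only [hg, if_true]
        rw [Finset.sum_congr rfl this, l5_e_eq, Odd.neg_one_pow ⟨k + 1, by ring⟩]
        simp only [hE]
        ring
      have h2 : ∏ j ∈ K.erase k, ∑ D ∈ (A.filter fun p => blk y p = j).powerset,
          (-1 : ℝ) ^ D.card * g k j D.card = ∏ j ∈ K.erase k, Y j := by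
        refine Finset.prod_congr rfl fun j hj => ?_
        simp only [hg, if_neg (Finset.mem_erase.1 hj).1, hY]
      rw [h1, h2]
      ring
    rw [Finset.sum_congr rfl hterm, Finset.sum_neg_distrib]
    obtain ⟨p0, hp0⟩ := Finset.nonempty_iff_ne_empty.2 hA
    have hk0 : blk y p0 ∈ K := hAK p0 hp0
    have hE0 : ∀ k, 0 ≤ E k := fun k => Nat.cast_nonneg _
    have hPn : ∀ k, 0 ≤ ∏ j ∈ K.erase k, Y j := fun k => Finset.prod_nonneg fun j _ => hY0 j
    have h5 : E (blk y p0) * ∏ j ∈ K.erase (blk y p0), Y j ≤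
        ∑ k ∈ K, E k * ∏ j ∈ K.erase k, Y j :=
      Finset.single_le_sum (f := fun k => E k * ∏ j ∈ K.erase k, Y j)
        (fun k _ => mul_nonneg (hE0 k) (hPn k)) hk0
    have h6 : ∏ k ∈ K, Y k ≤ E (blk y p0) * ∏ j ∈ K.erase (blk y p0), Y j := by
      rw [← Finset.mul_prod_erase K _ hk0]
      exact mul_le_mul_of_nonneg_right (hYE _ hk0) (hPn _)
    linarith

private theorem l5_geo (N : ℕ) :
    ∑ k ∈ range N, (2 * (k : ℝ) + 2) / 2 ^ k = 8 - (4 * (N : ℝ) + 8) / 2 ^ N := by
  induction N with
  | zero => norm_num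
  | succ N ih =>
    rw [Finset.sum_range_succ, ih]
    have h : (2 : ℝ) ^ N ≠ 0 := by positivity
    rw [pow_succ]
    push_cast
    field_simp
    ring

theorem bh_level {y : ℕ} (hy : 1 ≤ y) {D : Finset ℕ} (hD : AdmD y D)
    (hp : ∀ p ∈ D, p.Prime ∧ p ≤ y) : ∏ p ∈ D, p ≤ y ^ 9 := by
  classical
  have hyR : (1 : ℝ) ≤ y := by exact_mod_cast hy
  have hlogy : 0 ≤ Real.log y := Real.log_nonneg hyR
  have hlog : ∀ p ∈ D, Real.log p ≤ Real.log y / 2 ^ (blk y p) := by
    intro p hpD
    obtain ⟨h1, h2⟩ := hp p hpD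
    have hl : Nat.log p y ≠ 0 := by
      have := Nat.log_pos h1.one_lt h2
      omega
    have h3 : p ^ (2 ^ (blk y p)) ≤ y := by
      calc p ^ (2 ^ (blk y p)) ≤ p ^ (Nat.log p y) :=
            Nat.pow_le_pow_right h1.pos (Nat.pow_log_le_self 2 hl)
        _ ≤ y := Nat.pow_log_le_self p (by omega)
    have h4 : ((p : ℝ)) ^ (2 ^ (blk y p)) ≤ y := by exact_mod_cast h3
    have h5 : Real.log ((p : ℝ) ^ (2 ^ (blk y p))) ≤ Real.log y :=
      Real.log_le_log (by have : (0 : ℝ) < p := by exact_mod_cast h1.pos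
                          positivity) h4
    rw [Real.log_pow] at h5
    rw [le_div_iff₀ (by positivity)]
    push_cast at h5
    linarith
  set K : Finset ℕ := D.image (blk y) with hK
  have hDK : ∀ p ∈ D, blk y p ∈ K := fun p hp' => Finset.mem_image_of_mem _ hp'
  set c : ℕ → ℕ := fun k => (D.filter fun p => blk y p = k).card with hc
  have hsum : ∑ p ∈ D, Real.log p ≤ ∑ k ∈ K, (c k : ℝ) * (Real.log y / 2 ^ k) := by
    rw [← Finset.sum_fiberwise_of_maps_to hDK]
    refine Finset.sum_le_sum fun k _ => ?_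
    have : ∀ p ∈ D.filter (fun p => blk y p = k), Real.log p ≤ Real.log y / 2 ^ k := by
      intro p hp'
      obtain ⟨h1, h2⟩ := Finset.mem_filter.1 hp'
      have := hlog p h1
      rwa [h2] at this
    calc ∑ p ∈ D.filter (fun p => blk y p = k), Real.log p
        ≤ (D.filter fun p => blk y p = k).card • (Real.log y / 2 ^ k) :=
          Finset.sum_le_card_nsmul _ _ _ this
      _ = (c k : ℝ) * (Real.log y / 2 ^ k) := by rw [nsmul_eq_mul]
  have hcb : ∀ k ∈ K, (c k : ℝ) ≤ (2 * (k : ℝ) + 2) + (if c k = 2 * k + 3 then 1 else 0) := by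
    intro k _
    have h1 : c k ≤ 2 * k + 3 := hD.1 k
    split_ifs with h
    · rw [h]
      push_cast
      linarith
    · have : c k ≤ 2 * k + 2 := by omega
      have : (c k : ℝ) ≤ ((2 * k + 2 : ℕ) : ℝ) := by exact_mod_cast this
      push_cast at this
      linarith
  have hexc : ∑ k ∈ K, (if c k = 2 * k + 3 then (1 : ℝ) else 0) ≤ 1 := by
    rw [← Finset.sum_filter, Finset.sum_const, nsmul_eq_mul, mul_one]
    have : (K.filter fun k => c k = 2 * k + 3).card ≤ 1 := by
      rw [Finset.card_le_one]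
      intro a ha b hb
      exact hD.2 a b (Finset.mem_filter.1 ha).2 (Finset.mem_filter.1 hb).2
    exact_mod_cast this
  obtain ⟨N, hN⟩ : ∃ N, K ⊆ range N := Finset.exists_nat_subset_range K
  have hgeo : ∑ k ∈ K, (2 * (k : ℝ) + 2) / 2 ^ k ≤ 8 := by
    have h1 : ∑ k ∈ K, (2 * (k : ℝ) + 2) / 2 ^ k ≤ ∑ k ∈ range N, (2 * (k : ℝ) + 2) / 2 ^ k :=
      Finset.sum_le_sum_of_subset_of_nonneg hN fun k _ _ => by positivity
    rw [l5_geo] at h1
    have : (0 : ℝ) ≤ (4 * (N : ℝ) + 8) / 2 ^ N := by positivity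
    linarith
  have htot : ∑ p ∈ D, Real.log p ≤ 9 * Real.log y := by
    have h1 : ∑ k ∈ K, (c k : ℝ) * (Real.log y / 2 ^ k) ≤
        ∑ k ∈ K, (Real.log y * ((2 * (k : ℝ) + 2) / 2 ^ k) +
          Real.log y * (if c k = 2 * k + 3 then (1 : ℝ) else 0)) := by
      refine Finset.sum_le_sum fun k hk => ?_
      have h2 := hcb k hk
      have h3 : 0 ≤ Real.log y / 2 ^ k := by positivity
      have h4 : Real.log y / 2 ^ k ≤ Real.log y :=
        div_le_self hlogy (one_le_pow₀ (by norm_num))
      calc (c k : ℝ) * (Real.log y / 2 ^ k)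
          ≤ ((2 * (k : ℝ) + 2) + (if c k = 2 * k + 3 then 1 else 0)) * (Real.log y / 2 ^ k) :=
            mul_le_mul_of_nonneg_right h2 h3
        _ = Real.log y * ((2 * (k : ℝ) + 2) / 2 ^ k) +
            (if c k = 2 * k + 3 then 1 else 0) * (Real.log y / 2 ^ k) := by ring
        _ ≤ Real.log y * ((2 * (k : ℝ) + 2) / 2 ^ k) +
            Real.log y * (if c k = 2 * k + 3 then (1 : ℝ) else 0) := by
          split_ifs
          · linarith
          · simp
    rw [Finset.sum_add_distrib, ← Finset.mul_sum, ← Finset.mul_sum] at h1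
    have h5 : Real.log y * ∑ k ∈ K, (2 * (k : ℝ) + 2) / 2 ^ k ≤ Real.log y * 8 :=
      mul_le_mul_of_nonneg_left hgeo hlogy
    have h6 : Real.log y * ∑ k ∈ K, (if c k = 2 * k + 3 then (1 : ℝ) else 0) ≤ Real.log y * 1 :=
      mul_le_mul_of_nonneg_left hexc hlogy
    linarith
  have hppos : ∀ p ∈ D, (p : ℝ) ≠ 0 := fun p hp' => by
    have := (hp p hp').1.pos
    positivity
  rw [← Real.log_prod (fun p hp' => hppos p hp')] at htot
  have h7 : Real.log (∏ p ∈ D, (p : ℝ)) ≤ Real.log ((y : ℝ) ^ 9) := by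
    rw [Real.log_pow]
    push_cast
    exact htot
  have hpr : (0 : ℝ) < ∏ p ∈ D, (p : ℝ) := Finset.prod_pos fun p hp' => by
    have := (hp p hp').1.pos
    positivity
  have h8 : (∏ p ∈ D, (p : ℝ)) ≤ (y : ℝ) ^ 9 :=
    (Real.log_le_log_iff hpr (by positivity)).1 h7
  have h9 : ((∏ p ∈ D, p : ℕ) : ℝ) ≤ ((y ^ 9 : ℕ) : ℝ) := by
    push_cast
    exact h8
  exact Nat.cast_le.1 h9

end Pool.Agent.H77.K4
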