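import Pool.Agent.H77.K4.P1
import Pool.Agent.H77.K4.P2

/-!
# P3: the Selmer group has even dimension if `Y = Z = 1 mod 16`

Let `Y = Z = 1 mod 16`, coprime, `p^2 ∤ X Y Z` for odd primes `p`, `X = Y + Z`. Then
`dim Sl Y Z` is even, so `# Sl` is a power of 4.

Proof. `even_rank` for `E = EP Y Z` (dimension `2 # P + 2`), the form `BF` (bilinear by its formula and
`toE_add`; symmetric by `bf_symm`), and the vector `e = (v, 0, 0)` with `v_p = (1, 0)` for `p | Y Z` and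
`v_p = 0` for `p | X`. The kernel of `BF` is isomorphic to `Sl Y Z` by `toE` (`bf_ker`; `toE` is linear
and injective, and every `d ∈ Sl Y Z` is `toE x` with `x = (d.1 on P, d.2.1.2, d.2.2.2)`: its first
sign is `0`, and `cL2 = 0` gives `d.2.2.1 = a.2 + s.2`). So `dim Sl` is even.

`BF x e = BF x x`: `a(e) = (sum_(p | YZ) ε_p, 0) = 0`, because `Y Z = 1 mod 4` is a product of
different primes; `b(e) = (sum_(p | Y Z) e_p, 0) = 0` as `Y Z = 1 mod 8`; so `c(e) = 0`, `b(e).1 = 0`,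
`t(e) = s(e) = 0` and `BF x e = sum_p om (x_p) (Y_p(e))`. `Y_p(e)`: the second coordinate of
`sum_(q ≠ p) [q/p] v_q` is `0`. For `p | X`: first coordinate `[Y Z/p] = [-Y^2/p] = ε_p`, `v_p = 0`:
`Y_p(e) = (ε_p, 0)`, `om (x_p) (ε_p, 0) = ε_p (x_p).2`. For `p | Y`: `[ (Y/p) Z / p] + rho = 0`,
`NN 1 ε (1,0) = (0, ε)`: `Y_p(e) = (0, ε_p)`, `om = ε_p (x_p).1`. For `p | Z`: `[Y (Z/p)/p] + rho = 0`
(`rho = [X (Z/p)/p]`, `X = Y mod p`), `NN 2 ε (1,0) = 0`: `Y_p(e) = 0`. This is `bf_diag`.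
`BF e e = sum_(p | Y) ε_p = 0` as `Y = 1 mod 4`.
-/

set_option autoImplicit false

namespace Pool.Agent.H77.K4

open Finset Pool.Agent.H77.SV

private theorem p3_self {p : ℕ} (hp : p.Prime) : bt p (p : ℤ) = 0 := by
  have h : bt p (p : ℤ) = bt p 0 := bt_congr (Int.modEq_zero_iff_dvd.2 dvd_rfl)
  rw [h]
  unfold bt
  rw [jacobiSym.zero_left hp.one_lt]
  decide

private theorem p3_sum2 (S : Finset ℕ) : (∀ p ∈ S, p.Prime ∧ p ≠ 2) →
    (∑ p ∈ S, bt p 2 = if (∏ p ∈ S, p) % 8 = 3 ∨ (∏ p ∈ S, p) % 8 = 5 then 1 else 0) ∧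
    (∑ p ∈ S, bt p (-1) = if (∏ p ∈ S, p) % 4 = 3 then 1 else 0) ∧ (∏ p ∈ S, p) % 2 = 1 := by
  classical
  induction S using Finset.induction_on with
  | empty => intro _; simp
  | insert a S ha ih =>
    intro h
    obtain ⟨h1, h2, h3⟩ := ih fun p hp => h p (mem_insert_of_mem hp)
    obtain ⟨hp, hp2⟩ := h a (mem_insert_self _ _)
    have hodd : a % 2 = 1 := hp.eq_two_or_odd.resolve_left hp2
    rw [sum_insert ha, sum_insert ha, prod_insert ha, h1, h2, bt_two hp hp2, bt_neg_one hp hp2]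
    generalize (∏ p ∈ S, p) = N at *
    have e8 : a * N % 8 = (a % 8) * (N % 8) % 8 := Nat.mul_mod a N 8
    have e4 : a * N % 4 = (a % 4) * (N % 4) % 4 := Nat.mul_mod a N 4
    have e2 : a * N % 2 = (a % 2) * (N % 2) % 2 := Nat.mul_mod a N 2
    have ea : a % 8 = 1 ∨ a % 8 = 3 ∨ a % 8 = 5 ∨ a % 8 = 7 := by omega
    have eN : N % 8 = 1 ∨ N % 8 = 3 ∨ N % 8 = 5 ∨ N % 8 = 7 := by omega
    have ea4 : a % 4 = (a % 8) % 4 := by omega
    have eN4 : N % 4 = (N % 8) % 4 := by omega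
    rw [e8, e4, e2, hodd, h3, ea4, eN4]
    rcases ea with h5 | h5 | h5 | h5 <;> rcases eN with h6 | h6 | h6 | h6 <;> rw [h5, h6] <;> decide

private theorem p3_pf {N : ℕ} (hN : Squarefree N) (ho : N % 8 = 1) :
    (∑ p ∈ N.primeFactors, bt p 2 = 0) ∧ (∑ p ∈ N.primeFactors, bt p (-1) = 0) := by
  have h := p3_sum2 N.primeFactors fun p hp => by
    refine ⟨Nat.prime_of_mem_primeFactors hp, fun h2 => ?_⟩
    have := Nat.dvd_of_mem_primeFactors hp
    rw [h2] at this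
    omega
  rw [Nat.prod_primeFactors_of_squarefree hN] at h
  obtain ⟨h1, h2, -⟩ := h
  rw [if_neg (by omega)] at h1 h2
  exact ⟨h1, h2⟩

private theorem p3_C {p N : ℕ} (hp : p.Prime) (hN : Squarefree N) (hd : ¬ p ∣ N) :
    ∑ q ∈ N.primeFactors, bt p (q : ℤ) = bt p (N : ℤ) := by
  have h := bt_prod hp N.primeFactors (fun q => (q : ℤ)) fun q hq h => hd
    ((Int.natCast_dvd_natCast.1 h).trans (Nat.dvd_of_mem_primeFactors hq))
  rw [← h.1, ← Nat.cast_prod, Nat.prod_primeFactors_of_squarefree hN]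

private theorem p3_Cd {p N : ℕ} (hp : p.Prime) (hN : Squarefree N) (hd : p ∣ N) :
    ∑ q ∈ N.primeFactors, bt p (q : ℤ) = bt p ((N / p : ℕ) : ℤ) ∧ ¬ p ∣ N / p := by
  have hN0 : N ≠ 0 := hN.ne_zero
  obtain ⟨M, rfl⟩ := hd
  have hM : M ≠ 0 := fun h => hN0 (by rw [h, mul_zero])
  have hpM : ¬ p ∣ M := by
    intro h
    have h1 : p * p ∣ p * M := Nat.mul_dvd_mul_left p h
    have h2 := hN p h1
    exact hp.one_lt.ne' (Nat.isUnit_iff.1 h2)
  have hMs : Squarefree M := hN.squarefree_of_dvd (Dvd.intro_left p rfl)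
  rw [Nat.mul_div_cancel_left M hp.pos, Nat.primeFactors_mul hp.ne_zero hM, hp.primeFactors,
    sum_union (by
      rw [Finset.disjoint_singleton_left]
      exact fun h => hpM (Nat.dvd_of_mem_primeFactors h)), sum_singleton, p3_self hp, zero_add]
  exact ⟨p3_C hp hMs hpM, hpM⟩

private theorem p3_z {p N : ℕ} (h : ¬ p ∣ N) : ¬ (p : ℤ) ∣ (N : ℤ) := fun h1 =>
  h (Int.natCast_dvd_natCast.1 h1)

/-- facts -/
private structure P3 (Y Z : ℕ) : Prop where
  sY : Squarefree Y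
  sZ : Squarefree Z
  oY : Y % 8 = 1
  oZ : Z % 8 = 1
  YZ : ∀ p : ℕ, p.Prime → p ∣ Y → p ∣ Z → False

private theorem p3_facts {Y Z : ℕ} (hY : Y % 16 = 1) (hZ : Z % 16 = 1) (hc : Y.Coprime Z)
    (hsq : ∀ p : ℕ, p.Prime → p ≠ 2 → ¬ p ^ 2 ∣ (Y + Z) * Y * Z) : P3 Y Z := by
  have hs : ∀ N : ℕ, N % 2 = 1 → N ∣ (Y + Z) * Y * Z → Squarefree N := by
    intro N hN hd
    rw [Nat.squarefree_iff_prime_squarefree]
    intro p hp hpp
    have hp2 : p ≠ 2 := by
      rintro rfl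
      omega
    refine hsq p hp hp2 ?_
    rw [sq]
    exact hpp.trans hd
  refine ⟨hs _ (by omega) ?_, hs _ (by omega) ?_, by omega, by omega, fun p hp h1 h2 =>
    hp.one_lt.ne' (Nat.dvd_one.1 (hc ▸ Nat.dvd_gcd h1 h2))⟩
  · exact dvd_mul_of_dvd_left (dvd_mul_left _ _) _
  · exact dvd_mul_left _ _

private theorem p3_typ {Y Z : ℕ} (p : ℕ) : typ Y Z p = 0 ↔ ¬ p ∣ Y ∧ ¬ p ∣ Z := by
  unfold typ
  split_ifs <;> simp_all

private theorem p3_filter {Y Z : ℕ} (h : P3 Y Z) :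
    (oddP Y Z).filter (fun p => ¬ typ Y Z p = 0) = Y.primeFactors ∪ Z.primeFactors := by
  have h2 := h.oY
  have h3 := h.oZ
  have hY0 : Y ≠ 0 := by omega
  have hZ0 : Z ≠ 0 := by omega
  have hS : Y + Z ≠ 0 := by omega
  have hne : (Y + Z) * Y * Z ≠ 0 := by positivity
  ext p
  simp only [mem_filter, mem_union, oddP, mem_erase, Nat.mem_primeFactors, p3_typ, ne_eq]
  constructor
  · rintro ⟨⟨h4, h5, h6, h7⟩, h8⟩
    by_cases h9 : p ∣ Y
    · exact Or.inl ⟨h5, h9, hY0⟩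
    · refine Or.inr ⟨h5, ?_, hZ0⟩
      by_contra h10
      exact h8 ⟨h9, h10⟩
  · rintro (⟨h4, h5, -⟩ | ⟨h4, h5, -⟩)
    · refine ⟨⟨?_, h4, dvd_mul_of_dvd_left (dvd_mul_of_dvd_right h5 _) _, hne⟩, fun h6 => h6.1 h5⟩
      rintro rfl
      omega
    · refine ⟨⟨?_, h4, dvd_mul_of_dvd_right h5 _, hne⟩, fun h6 => h6.2 h5⟩
      rintro rfl
      omega

/-- the characteristic vector at a prime -/
private def cv (Y Z p : ℕ) : V2 := if typ Y Z p = 0 then 0 else (1, 0)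

private theorem p3_sum {Y Z : ℕ} (h : P3 Y Z) (g : ℕ → ZMod 2) :
    ∑ p ∈ oddP Y Z, g p • cv Y Z p =
      (∑ p ∈ Y.primeFactors, g p + ∑ p ∈ Z.primeFactors, g p) • ((1, 0) : V2) := by
  have h1 : ∀ p ∈ oddP Y Z, g p • cv Y Z p =
      if ¬ typ Y Z p = 0 then g p • ((1, 0) : V2) else 0 := by
    intro p _
    unfold cv
    by_cases hp : typ Y Z p = 0
    · rw [if_pos hp, if_neg (not_not.2 hp), smul_zero]
    · rw [if_neg hp, if_pos hp]
  rw [sum_congr rfl h1, ← sum_filter, p3_filter h, sum_union, ← sum_smul, ← sum_smul, ← add_smul]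
  rw [Finset.disjoint_left]
  intro p h1 h2
  exact h.YZ p (Nat.prime_of_mem_primeFactors h1) (Nat.dvd_of_mem_primeFactors h1)
    (Nat.dvd_of_mem_primeFactors h2)

/-- the characteristic vector -/
private def cE (Y Z : ℕ) : EP Y Z := (fun p => cv Y Z p, 0, 0)

private theorem p3_a {Y Z : ℕ} (h : P3 Y Z) : aV (cE Y Z).1 = 0 := by
  have h1 : aV (cE Y Z).1 = ∑ p ∈ oddP Y Z, bt p (-1) • cv Y Z p :=
    Finset.sum_coe_sort (oddP Y Z) fun p => bt p (-1) • cv Y Z p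
  rw [h1, p3_sum h, (p3_pf h.sY h.oY).2, (p3_pf h.sZ h.oZ).2, add_zero, zero_smul]

private theorem p3_b {Y Z : ℕ} (h : P3 Y Z) : bV (cE Y Z).1 = 0 := by
  have h1 : bV (cE Y Z).1 = ∑ p ∈ oddP Y Z, bt p 2 • cv Y Z p :=
    Finset.sum_coe_sort (oddP Y Z) fun p => bt p 2 • cv Y Z p
  rw [h1, p3_sum h, (p3_pf h.sY h.oY).1, (p3_pf h.sZ h.oZ).1, add_zero, zero_smul]

private theorem p3_toE {Y Z : ℕ} (h : P3 Y Z) : toE (cE Y Z) =
    (fun p => if p ∈ oddP Y Z then cv Y Z p else 0, (0, 0), (0, 0)) := by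
  unfold toE
  rw [p3_a h]
  refine Prod.ext (funext fun p => ?_) ?_
  · show exv (cE Y Z).1 p = if p ∈ oddP Y Z then cv Y Z p else 0
    unfold exv
    by_cases hp : p ∈ oddP Y Z
    · rw [dif_pos hp, if_pos hp]
      rfl
    · rw [dif_neg hp, if_neg hp]
  · show (((0 : ZMod 2), (cE Y Z).2.1), ((0 : V2).2 + (cE Y Z).2.1, (cE Y Z).2.2)) = _
    rfl

private theorem p3_y {Y Z : ℕ} (h : P3 Y Z) {p : ℕ} (hp : p ∈ oddP Y Z) :
    yL Y Z p (toE (cE Y Z)) = if typ Y Z p = 0 then (bt p (-1), 0) else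
      if typ Y Z p = 1 then (0, bt p (-1)) else 0 := by
  have hp1 : p.Prime := Nat.prime_of_mem_primeFactors (mem_of_mem_erase hp)
  have hp2 : p ≠ 2 := ne_of_mem_erase hp
  have hdd : p ∣ (Y + Z) * Y * Z := Nat.dvd_of_mem_primeFactors (mem_of_mem_erase hp)
  have e0 : yL Y Z p (toE (cE Y Z)) = ∑ q ∈ (oddP Y Z).erase p,
      bt p q • (if q ∈ oddP Y Z then cv Y Z q else 0) + rho Y Z p • cv Y Z p +
        NN (typ Y Z p) (bt p (-1)) (cv Y Z p) := by
    rw [p3_toE h]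
    show ∑ q ∈ (oddP Y Z).erase p, bt p q • (if q ∈ oddP Y Z then cv Y Z q else 0) +
      bt p 2 • ((0, 0) : V2) + bt p (-1) • ((0, 0) : V2) +
      rho Y Z p • (if p ∈ oddP Y Z then cv Y Z p else 0) +
      NN (typ Y Z p) (bt p (-1)) (if p ∈ oddP Y Z then cv Y Z p else 0) = _
    rw [if_pos hp]
    have : ((0, 0) : V2) = 0 := rfl
    rw [this, smul_zero, smul_zero, add_zero, add_zero]
  have e1 : ∑ q ∈ (oddP Y Z).erase p, bt p q • (if q ∈ oddP Y Z then cv Y Z q else 0) =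
      (∑ q ∈ Y.primeFactors, bt p (q : ℤ) + ∑ q ∈ Z.primeFactors, bt p (q : ℤ)) • ((1, 0) : V2) := by
    rw [← p3_sum h fun q => bt p (q : ℤ)]
    have e2 : ∑ q ∈ (oddP Y Z).erase p, bt p q • (if q ∈ oddP Y Z then cv Y Z q else 0) =
        ∑ q ∈ (oddP Y Z).erase p, bt p (q : ℤ) • cv Y Z q :=
      sum_congr rfl fun q hq => by rw [if_pos (mem_of_mem_erase hq)]
    rw [e2]
    apply sum_subset (erase_subset _ _)
    intro q hq hq'
    have h5 : q = p := by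
      by_contra h6
      exact hq' (mem_erase.2 ⟨h6, hq⟩)
    rw [h5, p3_self hp1, zero_smul]
  rw [e0, e1]
  by_cases dY : p ∣ Y
  · have nZ : ¬ p ∣ Z := fun h5 => h.YZ p hp1 dY h5
    obtain ⟨c1, c2⟩ := p3_Cd hp1 h.sY dY
    have ht : typ Y Z p = 1 := by simp [typ, dY]
    have hcv : cv Y Z p = (1, 0) := by
      unfold cv
      rw [ht]
      rfl
    have hr : rho Y Z p = bt p ((Y / p : ℕ) : ℤ) + bt p (Z : ℤ) := by
      unfold rho
      rw [if_pos dY, Nat.cast_mul, bt_mul hp1 (p3_z c2) (p3_z nZ)]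
    rw [c1, p3_C hp1 h.sZ nZ, hr, hcv, ht]
    generalize bt p (-1) = e
    generalize bt p ((Y / p : ℕ) : ℤ) = x
    generalize bt p (Z : ℤ) = y
    revert e x y
    decide
  · by_cases dZ : p ∣ Z
    · obtain ⟨c1, c2⟩ := p3_Cd hp1 h.sZ dZ
      have nS : ¬ p ∣ Y + Z := fun h5 => dY ((Nat.dvd_add_left dZ).1 h5)
      have ht : typ Y Z p = 2 := by simp [typ, dY, dZ]
      have hcv : cv Y Z p = (1, 0) := by
        unfold cv
        rw [ht]
        rfl
      have hY : bt p ((Y + Z : ℕ) : ℤ) = bt p (Y : ℤ) := by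
        apply bt_congr
        rw [Int.modEq_iff_dvd]
        push_cast
        have h5 : ((Y : ℤ) - (Y + Z)) = -(Z : ℤ) := by ring
        rw [h5, dvd_neg]
        exact Int.natCast_dvd_natCast.2 dZ
      have hr : rho Y Z p = bt p (Y : ℤ) + bt p ((Z / p : ℕ) : ℤ) := by
        unfold rho
        rw [if_neg dY, if_pos dZ, Nat.cast_mul, bt_mul hp1 (p3_z nS) (p3_z c2), hY]
      rw [c1, p3_C hp1 h.sY dY, hr, hcv, ht]
      generalize bt p (-1) = e
      generalize bt p ((Z / p : ℕ) : ℤ) = x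
      generalize bt p (Y : ℤ) = y
      revert e x y
      decide
    · have dS : p ∣ Y + Z := by
        rcases (Nat.Prime.dvd_mul hp1).1 hdd with h5 | h5
        · rcases (Nat.Prime.dvd_mul hp1).1 h5 with h6 | h6
          · exact h6
          · exact absurd h6 dY
        · exact absurd h5 dZ
      have ht : typ Y Z p = 0 := by simp [typ, dY, dZ]
      have hcv : cv Y Z p = 0 := by
        unfold cv
        rw [ht]
        rfl
      have hm1 : ¬ (p : ℤ) ∣ -1 := by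
        intro h5
        rw [dvd_neg] at h5
        have h6 : p ∣ 1 := Int.natCast_dvd_natCast.1 (by exact_mod_cast h5)
        exact hp1.one_lt.ne' (Nat.dvd_one.1 h6)
      have hZ : bt p (Z : ℤ) = bt p (-1) + bt p (Y : ℤ) := by
        rw [← bt_mul hp1 hm1 (p3_z dY)]
        apply bt_congr
        rw [Int.modEq_iff_dvd]
        have h5 : (p : ℤ) ∣ ((Y + Z : ℕ) : ℤ) := Int.natCast_dvd_natCast.2 dS
        have h6 : (-1 * (Y : ℤ) - (Z : ℤ)) = -((Y + Z : ℕ) : ℤ) := by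
          push_cast
          ring
        rw [h6]
        exact h5.neg_right
      rw [p3_C hp1 h.sY dY, p3_C hp1 h.sZ dZ, hcv, ht, hZ]
      generalize bt p (-1) = e
      generalize bt p (Y : ℤ) = y
      generalize rho Y Z p = r
      revert e y r
      decide

private theorem p3_BF {Y Z : ℕ} (h : P3 Y Z) (x : EP Y Z) : BF Y Z x (cE Y Z) =
    ∑ p : oddP Y Z, (if typ Y Z p = 0 then bt (p : ℕ) (-1) * (x.1 p).2 else
      if typ Y Z p = 1 then bt (p : ℕ) (-1) * (x.1 p).1 else 0) := by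
  unfold BF
  rw [p3_a h, p3_b h]
  have h0 : (0 : V2).1 + (0 : V2).2 = 0 := rfl
  have h1 : (0 : V2).1 = 0 := rfl
  rw [h0, h1, mul_zero, mul_zero, add_zero, add_zero]
  refine sum_congr rfl fun p _ => ?_
  rw [p3_y h p.2]
  unfold om
  split_ifs
  · show (x.1 p).1 * 0 + (x.1 p).2 * bt p (-1) = _
    ring
  · show (x.1 p).1 * bt p (-1) + (x.1 p).2 * 0 = _
    ring
  · show (x.1 p).1 * 0 + (x.1 p).2 * 0 = _
    ring

private theorem p3_ee {Y Z : ℕ} (h : P3 Y Z) : BF Y Z (cE Y Z) (cE Y Z) = 0 := by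
  rw [p3_BF h]
  have h1 : ∑ p : oddP Y Z, (if typ Y Z p = 0 then bt (p : ℕ) (-1) * ((cE Y Z).1 p).2 else
      if typ Y Z p = 1 then bt (p : ℕ) (-1) * ((cE Y Z).1 p).1 else 0) =
      ∑ p ∈ oddP Y Z, if typ Y Z p = 1 then bt p (-1) else 0 := by
    rw [← Finset.sum_coe_sort (oddP Y Z) fun p => if typ Y Z p = 1 then bt p (-1) else 0]
    refine sum_congr rfl fun p _ => ?_
    show (if typ Y Z p = 0 then bt (p : ℕ) (-1) * (cv Y Z p).2 else
      if typ Y Z p = 1 then bt (p : ℕ) (-1) * (cv Y Z p).1 else 0) = _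
    unfold cv
    by_cases h0 : typ Y Z p = 0
    · rw [if_pos h0, if_pos h0, h0]
      simp
    · rw [if_neg h0, if_neg h0]
      simp
  rw [h1, ← sum_filter]
  have h2 : (oddP Y Z).filter (fun p => typ Y Z p = 1) = Y.primeFactors := by
    have h3 := h.oY
    have h4 := h.oZ
    have hY0 : Y ≠ 0 := by omega
    have hZ0 : Z ≠ 0 := by omega
    have hS : Y + Z ≠ 0 := by omega
    have hne : (Y + Z) * Y * Z ≠ 0 := by positivity
    have ht : ∀ p, typ Y Z p = 1 ↔ p ∣ Y := by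
      intro p
      unfold typ
      split_ifs <;> simp_all
    ext p
    simp only [mem_filter, oddP, mem_erase, Nat.mem_primeFactors, ht, ne_eq]
    constructor
    · rintro ⟨⟨h5, h6, h7, h8⟩, h9⟩
      exact ⟨h6, h9, hY0⟩
    · rintro ⟨h5, h6, -⟩
      refine ⟨⟨?_, h5, dvd_mul_of_dvd_left (dvd_mul_of_dvd_right h6 _) _, hne⟩, h6⟩
      rintro rfl
      omega
  rw [h2, (p3_pf h.sY h.oY).2]

private theorem p3_al {Y Z : ℕ} (x x' y : EP Y Z) :
    BF Y Z (x + x') y = BF Y Z x y + BF Y Z x' y := by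
  unfold BF
  have h1 : aV (x + x').1 = aV x.1 + aV x'.1 := by
    unfold aV
    rw [← sum_add_distrib]
    exact sum_congr rfl fun p _ => smul_add _ _ _
  have h2 : ∀ p : oddP Y Z, om ((x + x').1 p) (yL Y Z p (toE y)) =
      om (x.1 p) (yL Y Z p (toE y)) + om (x'.1 p) (yL Y Z p (toE y)) := by
    intro p
    unfold om
    show ((x.1 p).1 + (x'.1 p).1) * _ + ((x.1 p).2 + (x'.1 p).2) * _ = _
    ring
  rw [h1, sum_congr rfl fun p _ => h2 p, sum_add_distrib]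
  show _ + ((aV x.1).2 + (aV x'.1).2 + (x.2.1 + x'.2.1)) * _ + (x.2.2 + x'.2.2) * _ = _
  ring

private theorem p3_sl {Y Z : ℕ} (c : ZMod 2) (x y : EP Y Z) :
    BF Y Z (c • x) y = c • BF Y Z x y := by
  unfold BF
  have h1 : aV (c • x).1 = c • aV x.1 := by
    unfold aV
    rw [smul_sum]
    refine sum_congr rfl fun p _ => ?_
    show bt (p : ℕ) (-1) • c • x.1 p = c • bt (p : ℕ) (-1) • x.1 p
    exact smul_comm _ _ _
  have h2 : ∀ p : oddP Y Z, om ((c • x).1 p) (yL Y Z p (toE y)) =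
      c * om (x.1 p) (yL Y Z p (toE y)) := by
    intro p
    unfold om
    show (c * (x.1 p).1) * _ + (c * (x.1 p).2) * _ = _
    ring
  rw [h1, sum_congr rfl fun p _ => h2 p, ← mul_sum]
  show _ + (c * (aV x.1).2 + c * x.2.1) * _ + (c * x.2.2) * _ = c * _
  ring

/-- the bilinear form -/
private def BL (Y Z : ℕ) : EP Y Z →ₗ[ZMod 2] EP Y Z →ₗ[ZMod 2] ZMod 2 :=
  LinearMap.mk₂ (ZMod 2) (BF Y Z) p3_al p3_sl
    (fun x y y' => by rw [bf_symm, p3_al, bf_symm y, bf_symm y'])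
    (fun c x y => by rw [bf_symm, p3_sl, bf_symm y])

/-- the inverse of `toE` -/
private def ps (Y Z : ℕ) : EE →ₗ[ZMod 2] EP Y Z where
  toFun d := (fun p => d.1 p, d.2.1.2, d.2.2.2)
  map_add' _ _ := rfl
  map_smul' _ _ := rfl

private theorem ps_toE {Y Z : ℕ} (x : EP Y Z) : ps Y Z (toE x) = x := by
  refine Prod.ext (funext fun p => ?_) rfl
  show exv x.1 p = x.1 p
  unfold exv
  rw [dif_pos p.2]

private theorem toE_ps {Y Z : ℕ} {d : EE} (hd : d ∈ Sl Y Z) : toE (ps Y Z d) = d := by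
  obtain ⟨⟨h1, h2, h3, h4, h5⟩, -⟩ := mem_DDQ.1 hd
  refine Prod.ext (funext fun p => ?_) (Prod.ext (Prod.ext h2.symm rfl) (Prod.ext ?_ rfl))
  · show exv (ps Y Z d).1 p = d.1 p
    unfold exv
    by_cases hp : p ∈ oddP Y Z
    · rw [dif_pos hp]
      rfl
    · rw [dif_neg hp, h1 p hp]
  · show (aV (ps Y Z d).1).2 + d.2.1.2 = d.2.2.1
    have h6 : aV (ps Y Z d).1 = ∑ p ∈ oddP Y Z, bt p (-1) • d.1 p :=
      Finset.sum_coe_sort (oddP Y Z) fun p => bt p (-1) • d.1 p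
    have h7 : (aV (ps Y Z d).1).2 = ∑ p ∈ oddP Y Z, bt p (-1) * (d.1 p).2 := by
      rw [h6, Prod.snd_sum]
      rfl
    have h8 : ∑ p ∈ oddP Y Z, bt p (-1) * (d.1 p).2 + d.2.1.2 + d.2.2.1 = 0 := h4
    rw [h7]
    generalize ∑ p ∈ oddP Y Z, bt p (-1) * (d.1 p).2 = u at *
    have h9 : ∀ a b c : ZMod 2, a + b + c = 0 → a + b = c := by decide
    exact h9 _ _ _ h8

private theorem p3_ker {Y Z : ℕ} (x : EP Y Z) : x ∈ LinearMap.ker (BL Y Z) ↔ toE x ∈ Sl Y Z := by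
  rw [← bf_ker, LinearMap.mem_ker]
  constructor
  · intro h y
    rw [bf_symm]
    show BL Y Z x y = 0
    rw [h]
    rfl
  · intro h
    apply LinearMap.ext
    intro y
    show BF Y Z x y = 0
    rw [bf_symm]
    exact h y

private theorem p3_fin (Y Z : ℕ) :
    Module.finrank (ZMod 2) (Sl Y Z) = Module.finrank (ZMod 2) (LinearMap.ker (BL Y Z)) := by
  have hm : ∀ d : Sl Y Z, (ps Y Z).comp (Sl Y Z).subtype d ∈ LinearMap.ker (BL Y Z) := by
    intro d
    rw [p3_ker]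
    show toE (ps Y Z d.1) ∈ Sl Y Z
    rw [toE_ps d.2]
    exact d.2
  let f : Sl Y Z →ₗ[ZMod 2] LinearMap.ker (BL Y Z) :=
    ((ps Y Z).comp (Sl Y Z).subtype).codRestrict _ hm
  have hf : Function.Bijective f := by
    constructor
    · intro d d' hdd
      have h1 : ps Y Z d.1 = ps Y Z d'.1 := congrArg Subtype.val hdd
      apply Subtype.ext
      rw [← toE_ps d.2, ← toE_ps d'.2, h1]
    · intro x
      refine ⟨⟨toE x.1, (p3_ker x.1).1 x.2⟩, ?_⟩
      apply Subtype.ext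
      exact ps_toE x.1
  exact (LinearEquiv.ofBijective f hf).finrank_eq

theorem even_dim {Y Z : ℕ} (hY : Y % 16 = 1) (hZ : Z % 16 = 1) (hc : Y.Coprime Z)
    (hsq : ∀ p : ℕ, p.Prime → p ≠ 2 → ¬ p ^ 2 ∣ (Y + Z) * Y * Z) :
    Even (Module.finrank (ZMod 2) (Sl Y Z)) := by
  have h := p3_facts hY hZ hc hsq
  have h1 := even_rank (BL Y Z) (fun x y => bf_symm x y) (cE Y Z)
    (fun x => by
      show BF Y Z x x = BF Y Z x (cE Y Z)
      rw [bf_diag, p3_BF h]) (p3_ee h)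
  rw [← p3_fin] at h1
  have h2 : Module.finrank (ZMod 2) (EP Y Z) = 2 * ((oddP Y Z).card + 1) := by
    rw [Module.finrank_prod, Module.finrank_prod, Module.finrank_pi_fintype, Module.finrank_self]
    have h3 : ∀ p : oddP Y Z, Module.finrank (ZMod 2) V2 = 2 := by
      intro p
      rw [Module.finrank_prod, Module.finrank_self]
    rw [sum_congr rfl fun p _ => h3 p, sum_const, card_univ, Fintype.card_coe, smul_eq_mul]
    ring
  rw [h2] at h1
  exact (Nat.even_add.1 h1).1 (even_two_mul _)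

end Pool.Agent.H77.K4
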