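import Pool.Agent.H77.K4.X2
import Pool.Agent.H77.K4.B2

/-!
# X4: the algebraic data of an element of `SS` are good, and `All` is the order of the Selmer group

Let `(Y, Z) ∈ SSk P z T k`.

`dat_good`. R1: for `d, d' ∈ DD` apply `R1` of B2; the terms with `p ∈ smP` vanish (`yL = 0` there,
`mem_DDQ`), and `oddP` is the disjoint union of `smP`, `bgX = {uu j : j < k}` (injective) and
`{lpf Y, lpf Z}` (`Fac.odd`). R2: the element is `tor Y Z τ` (`tor_mem`; it is in `Sl ≤ DD`, all its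
`y` vanish). For `p = uu j`: `typ = 0` (`p | X`, not `Y`, not `Z`: coprime), so `a = τ`; `typ (lpf Y) =
1`, `typ (lpf Z) = 2`, and `(τ.2, τ.1 + τ.2) + (τ.1 + τ.2, τ.1) = τ`.

`all_eq`. `Sl Y Z ≤ DD z Y Z` consists of the `d ∈ DD` with `yL = 0` at the primes of `bgX`,
`lpf Y`, `lpf Z`.
-/

set_option autoImplicit false

namespace Pool.Agent.H77.K4

open Finset Pool.Agent.H77.SV

private theorem x4_SS {P : Par} {z T k : ℕ} {x : ℕ × ℕ} (hx : x ∈ SSk P z T k) :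
    x ∈ SS P z T := (mem_filter.mp hx).1

private theorem x4_yL {z Y Z : ℕ} (d : DD z Y Z) {p : ℕ} (hp : p ∈ smP z Y Z) :
    yL Y Z p d.1 = 0 := (mem_DDQ.mp d.2).2 p hp

private theorem x4_bgX {P : Par} {z Y Z k : ℕ} (hU : UU P z Y Z k) :
    bgX z Y Z = univ.image (fun j : Fin k => uu z Y Z j) := by
  ext p
  simp only [mem_image, mem_univ, true_and]
  constructor
  · intro hp
    obtain ⟨j, hj, h⟩ := hU.surj p hp
    exact ⟨⟨j, hj⟩, h⟩
  · rintro ⟨j, rfl⟩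
    exact hU.mem j j.2

private theorem x4_inj {P : Par} {z Y Z k : ℕ} (hU : UU P z Y Z k) :
    Function.Injective (fun j : Fin k => uu z Y Z j) := by
  intro i j h
  simp only at h
  rcases lt_trichotomy (i : ℕ) (j : ℕ) with h1 | h1 | h1
  · have := hU.mono i j h1 j.2
    omega
  · exact Fin.ext h1
  · have := hU.mono j i h1 i.2
    omega

private theorem x4_sum {P : Par} {z T Y Z k : ℕ} (hF : Fac P z T Y Z) (hU : UU P z Y Z k)
    (g : ℕ → ZMod 2) (hg : ∀ p ∈ smP z Y Z, g p = 0) :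
    ∑ p ∈ oddP Y Z, g p = ∑ j : Fin k, g (uu z Y Z j) + g (lpf Y) + g (lpf Z) := by
  rw [hF.odd, sum_union hF.dj2, sum_union hF.dj1, sum_eq_zero hg, zero_add, x4_bgX hU,
    sum_image (fun i _ j _ h => x4_inj hU h), sum_pair hF.ne, add_assoc]

private theorem x4_odd_uu {P : Par} {z T Y Z k : ℕ} (hF : Fac P z T Y Z) (hU : UU P z Y Z k)
    {j : ℕ} (hj : j < k) : uu z Y Z j ∈ oddP Y Z := by
  rw [hF.odd]
  exact mem_union_left _ (mem_union_right _ (hU.mem j hj))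

private theorem x4_odd_q {P : Par} {z T Y Z : ℕ} (hF : Fac P z T Y Z) : lpf Y ∈ oddP Y Z := by
  rw [hF.odd]
  exact mem_union_right _ (by simp)

private theorem x4_odd_r {P : Par} {z T Y Z : ℕ} (hF : Fac P z T Y Z) : lpf Z ∈ oddP Y Z := by
  rw [hF.odd]
  exact mem_union_right _ (by simp)

private theorem x4_nd {Y Z p : ℕ} (hc : Y.Coprime Z) (hp : p.Prime) (h : p ∣ Y + Z) :
    ¬ p ∣ Y ∧ ¬ p ∣ Z := by
  have key : ¬ (p ∣ Y ∧ p ∣ Z) := fun ⟨h1, h2⟩ =>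
    Nat.Prime.not_coprime_iff_dvd.mpr ⟨p, hp, h1, h2⟩ hc
  constructor
  · intro h1
    exact key ⟨h1, (Nat.dvd_add_right h1).mp h⟩
  · intro h2
    exact key ⟨(Nat.dvd_add_left h2).mp h, h2⟩

private theorem x4_fin : ∀ τ : V2, (if (1 : Fin 3) = 0 then τ else
    if (1 : Fin 3) = 1 then (τ.2, τ.1 + τ.2) else (τ.1 + τ.2, τ.1)) +
      (if (2 : Fin 3) = 0 then τ else
        if (2 : Fin 3) = 1 then (τ.2, τ.1 + τ.2) else (τ.1 + τ.2, τ.1)) = τ := by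
  decide

private theorem x4_key {P : Par} {z T Y Z k : ℕ} (hF : Fac P z T Y Z) (hU : UU P z Y Z k)
    (d : EE) (hd : d ∈ DD z Y Z) : ((∀ u : Fin k, yL Y Z (uu z Y Z u) d = 0) ∧
      yL Y Z (lpf Y) d = 0 ∧ yL Y Z (lpf Z) d = 0) ↔ d ∈ Sl Y Z := by
  constructor
  · rintro ⟨h1, h2, h3⟩
    refine mem_DDQ.mpr ⟨(mem_DDQ.mp hd).1, fun p hp => ?_⟩
    rw [hF.odd, mem_union, mem_union] at hp
    rcases hp with (hp | hp) | hp
    · exact (mem_DDQ.mp hd).2 p hp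
    · obtain ⟨j, hj, rfl⟩ := hU.surj p hp
      exact h1 ⟨j, hj⟩
    · rcases mem_insert.mp hp with rfl | hp
      · exact h2
      · rw [mem_singleton.mp hp]
        exact h3
  · intro h
    exact ⟨fun u => (mem_DDQ.mp h).2 _ (x4_odd_uu hF hU u.2), (mem_DDQ.mp h).2 _ (x4_odd_q hF),
      (mem_DDQ.mp h).2 _ (x4_odd_r hF)⟩

private theorem x4_le {z Y Z : ℕ} {d : EE} (h : d ∈ Sl Y Z) : d ∈ DD z Y Z :=
  mem_DDQ.mpr ⟨(mem_DDQ.mp h).1, fun p hp => (mem_DDQ.mp h).2 p (mem_filter.mp hp).1⟩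

theorem dat_good {P : Par} (hP : P.Adm) {z T k : ℕ} (hz : 2 ≤ z) (hT : P.TZ z T) {x : ℕ × ℕ}
    (hx : x ∈ SSk P z T k) : (dat z x.1 x.2 k).Good := by
  have hF := fac hP hz hT (x4_SS hx)
  have hU := uufac hP hz hT hx
  constructor
  · intro d d'
    have h := R1 (mem_DDQ.mp d.2).1 (mem_DDQ.mp d'.2).1
    rw [x4_sum hF hU] at h
    · exact h
    · intro p hp
      rw [x4_yL d hp, x4_yL d' hp]
      simp [om]
  · intro τ
    have hm := mem_DDQ.mp (tor_mem hF.nice τ)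
    have hD : tor x.1 x.2 τ ∈ DD z x.1 x.2 :=
      mem_DDQ.mpr ⟨hm.1, fun p hp => hm.2 p (mem_filter.mp hp).1⟩
    refine ⟨⟨tor x.1 x.2 τ, hD⟩, fun u => ⟨?_, ?_⟩, ?_, ?_, ?_⟩
    · have h1 := x4_nd hF.hok.hc (hU.prime u u.2) (hU.dvd u u.2)
      show (if uu z x.1 x.2 u ∈ oddP x.1 x.2 then
        (if typ x.1 x.2 (uu z x.1 x.2 u) = 0 then τ else
          if typ x.1 x.2 (uu z x.1 x.2 u) = 1 then (τ.2, τ.1 + τ.2) else (τ.1 + τ.2, τ.1))
        else 0) = τ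
      rw [if_pos (x4_odd_uu hF hU u.2), if_pos]
      unfold typ
      rw [if_neg h1.1, if_neg h1.2]
    · exact hm.2 _ (x4_odd_uu hF hU u.2)
    · exact hm.2 _ (x4_odd_q hF)
    · exact hm.2 _ (x4_odd_r hF)
    · have hq : typ x.1 x.2 (lpf x.1) = 1 := by
        unfold typ
        rw [if_pos hF.dq]
      have hnr : ¬ lpf x.2 ∣ x.1 := fun h =>
        Nat.Prime.not_coprime_iff_dvd.mpr ⟨_, hF.pr, h, hF.dr⟩ hF.hok.hc
      have hr : typ x.1 x.2 (lpf x.2) = 2 := by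
        unfold typ
        rw [if_neg hnr, if_pos hF.dr]
      show (if lpf x.1 ∈ oddP x.1 x.2 then
        (if typ x.1 x.2 (lpf x.1) = 0 then τ else
          if typ x.1 x.2 (lpf x.1) = 1 then (τ.2, τ.1 + τ.2) else (τ.1 + τ.2, τ.1))
        else 0) + (if lpf x.2 ∈ oddP x.1 x.2 then
        (if typ x.1 x.2 (lpf x.2) = 0 then τ else
          if typ x.1 x.2 (lpf x.2) = 1 then (τ.2, τ.1 + τ.2) else (τ.1 + τ.2, τ.1))
        else 0) = τ
      rw [if_pos (x4_odd_q hF), if_pos (x4_odd_r hF), hq, hr]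
      exact x4_fin τ

theorem all_eq {P : Par} (hP : P.Adm) {z T k : ℕ} (hz : 2 ≤ z) (hT : P.TZ z T) {x : ℕ × ℕ}
    (hx : x ∈ SSk P z T k) : (dat z x.1 x.2 k).All = Nat.card (Sl x.1 x.2) := by
  have hF := fac hP hz hT (x4_SS hx)
  have hU := uufac hP hz hT hx
  have key : ∀ d : DD z x.1 x.2, ((∀ u, (dat z x.1 x.2 k).y u d = 0) ∧
      (dat z x.1 x.2 k).yq d = 0 ∧ (dat z x.1 x.2 k).yr d = 0) ↔ d.1 ∈ Sl x.1 x.2 := by
    intro d
    rw [← x4_key hF hU d.1 d.2]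
    rfl
  unfold Dat.All
  let e : {d : DD z x.1 x.2 // (∀ u, (dat z x.1 x.2 k).y u d = 0) ∧
      (dat z x.1 x.2 k).yq d = 0 ∧ (dat z x.1 x.2 k).yr d = 0} → Sl x.1 x.2 :=
    fun d => ⟨d.1.1, (key d.1).mp d.2⟩
  refine Nat.card_congr (Equiv.ofBijective e ⟨?_, ?_⟩)
  · intro d d' h
    have h2 : (e d).1 = (e d').1 := congrArg (fun s => s.1) h
    exact Subtype.ext (Subtype.ext h2)
  · rintro ⟨d, hd⟩
    exact ⟨⟨⟨d, x4_le hd⟩, (key ⟨d, x4_le hd⟩).mpr hd⟩, rfl⟩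

end Pool.Agent.H77.K4
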