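import Pool.Agent.H77.K4.V0

/-!
# V1: translation of the conditions

Let `(Y, Z) ∈ SSk P z T k`, `d ∈ G2 Y Z` with `d.1 (lpf Y) = d.1 (lpf Z) = a`, `d.1 (uu j) = 0` for
`J ≤ j < k` and `d.1 (uu i) = β i` for `i < J` (`uu i = ppI i`, UU.pp). Put
`v p = d.1 p + (a if p | Y Z, p ∈ smP; else 0)` for `p ∈ Pr w z` (so `v p = 0` for `p ∉ smP`),
`s' = d.2.1 + a`, `t = d.2.2`.

Write `q = lpf Y`, `r = lpf Z`, `b = Y / q`, `c = Z / r` (odd, squarefree, coprime, with primes in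
`smP`); `[x/p] = bt p x`, `ε = bt p (-1)`.
Key: for `p | X` odd: `b q = - c r mod p`, so `[q r/p] = [b c/p] + ε` (`(b q)(c r) = - (c r)^2`).
For `p | b`: `rho = [(b/p) q c r / p]`, so `[q r/p] = rho + [(b/p) c/p]`. For `p | c`: `X = Y mod p`,
`rho = [b q (c/p) r/p]`, so `[q r/p] = rho + [b (c/p)/p]`.

`conv_sm` (for `p ∈ smP`, `yF = yL Y Z p d`): `yF = 0` iff the equation of `SolP` holds at `p` with
`h p = sum_i [uu i / p] β i`. Computation: `yF = sum_(p' small, ≠ p) [p'/p] d.1 p' + [q r/p] a +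
sum_i [uu i/p] β_i + [2/p] t + ε s + rho d.1 p + NN (d.1 p)`. Type 0: `d.1 p = v p`;
`sum [p'/p] d.1 p' = sum [p'/p] v p' + [b c/p] a`, `ε s = ε s' + ε a`; so all terms with `a` cancel.
Type 1: `d.1 p = v p + a`; `sum_(p' ≠ p) [p'/p] d.1 p' = sum [p'/p] v p' + [(b/p) c/p] a`; the terms
with `a` are `[(b/p)c/p] a + (rho + [(b/p)c/p]) a + ε a + rho a + NN 1 ε a = ε a + (0, ε (a.1 + a.2)) =
(ε a.1, ε a.1) = exx 1 ε a`. Type 2: `ε a + (0, ε a.2) = (ε a.1, 0) = exx 2 ε a`.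

`conv_pp` (at `p = uu l`, `l < J`, with `β l = 0`): `dot c (yL Y Z (uu l) d) =
bt (uu l) (Dc c v s' t) + sum_(i ≠ l) bt (uu l) (uu i) * dot c (β i)` for every `c`. (`rho` and `NN` do
not contribute; `bt_prod` for `Dc`.)

`conv_inj`: `d` is determined by `(v, a, s', t, β)`.
-/

set_option autoImplicit false

namespace Pool.Agent.H77.K4

open Finset Pool.Agent.H77.SV

/-- the vector `v` -/
def vv (w z Y Z : ℕ) (a : V2) (d : EE) : Pr w z → V2 :=
  fun p => d.1 p + if (p : ℕ) ∈ smP z Y Z ∧ (p : ℕ) ∣ Y * Z then a else 0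

/-- `d` has the value `a` at `lpf Y` and `lpf Z`, `0` at the big primes of `X` and `β` at the
medium ones -/
structure Hd (P : Par) (z Y Z k : ℕ) (a : V2) (β : ℕ → V2) (d : EE) : Prop where
  mem : d ∈ G2 Y Z
  hq : d.1 (lpf Y) = a
  hr : d.1 (lpf Z) = a
  hb : ∀ j, P.J ≤ j → j < k → d.1 (uu z Y Z j) = 0
  hm : ∀ i, i < P.J → d.1 (uu z Y Z i) = β i

private theorem v1_self {p : ℕ} (hp : p.Prime) : bt p (p : ℤ) = 0 := by
  have h : bt p (p : ℤ) = bt p 0 := bt_congr (Int.modEq_zero_iff_dvd.2 dvd_rfl)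
  rw [h]
  unfold bt
  rw [jacobiSym.zero_left hp.one_lt]
  decide

private theorem v1_C {p N : ℕ} (hp : p.Prime) (hN : Squarefree N) (hd : ¬ p ∣ N) :
    ∑ q ∈ N.primeFactors, bt p (q : ℤ) = bt p (N : ℤ) := by
  have h := bt_prod hp N.primeFactors (fun q => (q : ℤ)) fun q hq h => hd
    ((Int.natCast_dvd_natCast.1 h).trans (Nat.dvd_of_mem_primeFactors hq))
  rw [← h.1, ← Nat.cast_prod, Nat.prod_primeFactors_of_squarefree hN]

private theorem v1_Cd {p N : ℕ} (hp : p.Prime) (hN : Squarefree N) (hd : p ∣ N) :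
    ∑ q ∈ N.primeFactors, bt p (q : ℤ) = bt p ((N / p : ℕ) : ℤ) ∧ ¬ p ∣ N / p := by
  have hN0 : N ≠ 0 := hN.ne_zero
  obtain ⟨M, rfl⟩ := hd
  have hM : M ≠ 0 := fun h => hN0 (by rw [h, mul_zero])
  have hpM : ¬ p ∣ M := by
    intro h
    have h1 : p * p ∣ p * M := Nat.mul_dvd_mul_left p h
    have h2 := hN p h1
    exact hp.one_lt.ne' (Nat.isUnit_iff.1 h2)
  have hMs : Squarefree M := hN.squarefree_of_dvd (Dvd.intro_left p rfl)
  rw [Nat.mul_div_cancel_left M hp.pos, Nat.primeFactors_mul hp.ne_zero hM, hp.primeFactors,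
    sum_union (by
      rw [Finset.disjoint_singleton_left]
      exact fun h => hpM (Nat.dvd_of_mem_primeFactors h)), sum_singleton, v1_self hp, zero_add]
  exact ⟨v1_C hp hMs hpM, hpM⟩

private theorem v1_cop {Y Z : ℕ} (hc : Y.Coprime Z) {p : ℕ} (hp : p.Prime) :
    ¬ (p ∣ Y ∧ p ∣ Z) := fun ⟨h1, h2⟩ =>
  hp.one_lt.ne' (Nat.dvd_one.1 (hc ▸ Nat.dvd_gcd h1 h2))

private theorem v1_sq {P : Par} {z T Y Z : ℕ} (hF : Fac P z T Y Z) (N : ℕ) (hN : N % 2 = 1)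
    (hd : N ∣ (Y + Z) * Y * Z) : Squarefree N := by
  rw [Nat.squarefree_iff_prime_squarefree]
  intro p hp hpp
  have hp2 : p ≠ 2 := by
    rintro rfl
    omega
  refine hF.hok.hsq p hp hp2 ?_
  rw [sq]
  exact hpp.trans hd

private theorem v1_mem {P : Par} {z T Y Z : ℕ} (hF : Fac P z T Y Z) {p : ℕ} :
    p ∈ oddP Y Z ↔ p ≠ 2 ∧ p.Prime ∧ p ∣ (Y + Z) * Y * Z := by
  have h1 := hF.hT
  have h2 : 0 < Y := by omega
  have h3 : 0 < Z := by omega
  have hne : (Y + Z) * Y * Z ≠ 0 := by positivity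
  simp only [oddP, mem_erase, Nat.mem_primeFactors]
  exact ⟨fun h => ⟨h.1, h.2.1, h.2.2.1⟩, fun h => ⟨h.1, h.2.1, h.2.2, hne⟩⟩

private theorem v1_pf {P : Par} {z T Y Z : ℕ} (hF : Fac P z T Y Z) (hzM : z ≤ z ^ P.M) :
    Y.primeFactors = insert (lpf Y) ((smP z Y Z).filter (· ∣ Y)) ∧
    lpf Y ∉ (smP z Y Z).filter (· ∣ Y) ∧
    Z.primeFactors = insert (lpf Z) ((smP z Y Z).filter (· ∣ Z)) ∧
    lpf Z ∉ (smP z Y Z).filter (· ∣ Z) := by
  have h1 := hF.hT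
  have hY := hF.hok.hY
  have hZ := hF.hok.hZ
  have gq := hF.gq
  have gr := hF.gr
  refine ⟨?_, ?_, ?_, ?_⟩
  · ext p
    simp only [mem_insert, mem_filter, smP, v1_mem hF, Nat.mem_primeFactors]
    constructor
    · rintro ⟨hp, hd, -⟩
      by_cases hz : p ≤ z
      · refine Or.inr ⟨⟨⟨?_, hp, dvd_mul_of_dvd_left (dvd_mul_of_dvd_right hd _) _⟩, hz⟩, hd⟩
        rintro rfl
        omega
      · exact Or.inl (hF.uq p hp (not_le.1 hz) hd)
    · rintro (h | h)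
      · rw [h]
        exact ⟨hF.pq, hF.dq, by omega⟩
      · exact ⟨h.1.1.2.1, h.2, by omega⟩
  · intro h
    have h2 := (mem_filter.1 (mem_filter.1 h).1).2
    omega
  · ext p
    simp only [mem_insert, mem_filter, smP, v1_mem hF, Nat.mem_primeFactors]
    constructor
    · rintro ⟨hp, hd, -⟩
      by_cases hz : p ≤ z
      · refine Or.inr ⟨⟨⟨?_, hp, dvd_mul_of_dvd_right hd _⟩, hz⟩, hd⟩
        rintro rfl
        omega
      · exact Or.inl (hF.ur p hp (not_le.1 hz) hd)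
    · rintro (h | h)
      · rw [h]
        exact ⟨hF.pr, hF.dr, by omega⟩
      · exact ⟨h.1.1.2.1, h.2, by omega⟩
  · intro h
    have h2 := (mem_filter.1 (mem_filter.1 h).1).2
    omega

/-- the sum over the small primes of `Y Z` -/
private theorem v1_kap {P : Par} {z T Y Z : ℕ} (hF : Fac P z T Y Z) (hzM : z ≤ z ^ P.M)
    {p : ℕ} (hp : p ∈ oddP Y Z) :
    bt p ((lpf Y : ℕ) : ℤ) + bt p ((lpf Z : ℕ) : ℤ) +
      ∑ s ∈ (smP z Y Z).filter (· ∣ Y * Z), bt p ((s : ℕ) : ℤ) =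
      if typ Y Z p = 0 then bt p (-1) else rho Y Z p := by
  obtain ⟨hp2, hpp, hd⟩ := (v1_mem hF).1 hp
  obtain ⟨f1, f2, f3, f4⟩ := v1_pf hF hzM
  have hcop := v1_cop hF.hok.hc hpp
  have hTT := hF.hT
  have hpi : Prime (p : ℤ) := Nat.prime_iff_prime_int.1 hpp
  have hY := hF.hok.hY
  have hZ := hF.hok.hZ
  have sY : Squarefree Y := v1_sq hF Y (by omega) ((dvd_mul_left _ _).mul_right _)
  have sZ : Squarefree Z := v1_sq hF Z (by omega) (dvd_mul_left _ _)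
  have hsplit : (smP z Y Z).filter (· ∣ Y * Z) =
      (smP z Y Z).filter (· ∣ Y) ∪ (smP z Y Z).filter (· ∣ Z) := by
    ext s
    simp only [mem_union, mem_filter]
    constructor
    · rintro ⟨h1, h2⟩
      have h3 : s.Prime := ((v1_mem hF).1 (mem_filter.1 h1).1).2.1
      rcases (Nat.Prime.dvd_mul h3).1 h2 with h | h
      · exact Or.inl ⟨h1, h⟩
      · exact Or.inr ⟨h1, h⟩
    · rintro (h | h)
      · exact ⟨h.1, h.2.mul_right _⟩
      · exact ⟨h.1, h.2.mul_left _⟩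
  have hdis : Disjoint ((smP z Y Z).filter (· ∣ Y)) ((smP z Y Z).filter (· ∣ Z)) := by
    rw [Finset.disjoint_left]
    intro s h1 h2
    have h3 : s.Prime := ((v1_mem hF).1 (mem_filter.1 (mem_filter.1 h1).1).1).2.1
    exact v1_cop hF.hok.hc h3 ⟨(mem_filter.1 h1).2, (mem_filter.1 h2).2⟩
  have hl : bt p ((lpf Y : ℕ) : ℤ) + bt p ((lpf Z : ℕ) : ℤ) +
      ∑ s ∈ (smP z Y Z).filter (· ∣ Y * Z), bt p ((s : ℕ) : ℤ) =
      ∑ s ∈ Y.primeFactors, bt p ((s : ℕ) : ℤ) + ∑ s ∈ Z.primeFactors, bt p ((s : ℕ) : ℤ) := by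
    rw [hsplit, sum_union hdis, f1, sum_insert f2, f3, sum_insert f4]
    ring
  rw [hl]
  by_cases hpY : p ∣ Y
  · have hpZ : ¬ p ∣ Z := fun h => hcop ⟨hpY, h⟩
    have ht : typ Y Z p = 1 := by
      unfold typ
      rw [if_pos hpY]
    have hr : rho Y Z p = bt p ((Y / p * Z : ℕ) : ℤ) := by
      unfold rho
      rw [if_pos hpY]
    obtain ⟨g1, g2⟩ := v1_Cd hpp sY hpY
    rw [ht, if_neg (by decide), hr, g1, v1_C hpp sZ hpZ, Nat.cast_mul,
      bt_mul hpp (fun h => g2 (Int.natCast_dvd_natCast.1 h))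
        (fun h => hpZ (Int.natCast_dvd_natCast.1 h))]
  · by_cases hpZ : p ∣ Z
    · have ht : typ Y Z p = 2 := by
        unfold typ
        rw [if_neg hpY, if_pos hpZ]
      have hr : rho Y Z p = bt p (((Y + Z) * (Z / p) : ℕ) : ℤ) := by
        unfold rho
        rw [if_neg hpY, if_pos hpZ]
      obtain ⟨g1, g2⟩ := v1_Cd hpp sZ hpZ
      have hpX : ¬ p ∣ Y + Z := fun h => hpY ((Nat.dvd_add_left hpZ).1 h)
      have he : bt p ((Y + Z : ℕ) : ℤ) = bt p (Y : ℤ) := by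
        apply bt_congr
        rw [Int.modEq_iff_dvd]
        push_cast
        have h1 : (p : ℤ) ∣ (Z : ℤ) := Int.natCast_dvd_natCast.2 hpZ
        have h2 : (Y : ℤ) - ((Y : ℤ) + (Z : ℤ)) = - (Z : ℤ) := by ring
        rw [h2]
        exact (dvd_neg).2 h1
      rw [ht, if_neg (by decide), hr, g1, v1_C hpp sY hpY, Nat.cast_mul,
        bt_mul hpp (fun h => hpX (Int.natCast_dvd_natCast.1 h))
          (fun h => g2 (Int.natCast_dvd_natCast.1 h)), he]
    · have ht : typ Y Z p = 0 := by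
        unfold typ
        rw [if_neg hpY, if_neg hpZ]
      have hpX : p ∣ Y + Z := by
        rcases (Nat.Prime.dvd_mul hpp).1 hd with h | h
        · rcases (Nat.Prime.dvd_mul hpp).1 h with h | h
          · exact h
          · exact absurd h hpY
        · exact absurd h hpZ
      have hnZ : ¬ (p : ℤ) ∣ (Z : ℤ) := fun h => hpZ (Int.natCast_dvd_natCast.1 h)
      have he : bt p (Y : ℤ) = bt p (-1) + bt p (Z : ℤ) := by
        have h1 : bt p (Y : ℤ) = bt p (-1 * (Z : ℤ)) := by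
          apply bt_congr
          rw [Int.modEq_iff_dvd]
          have h1 : (p : ℤ) ∣ ((Y + Z : ℕ) : ℤ) := Int.natCast_dvd_natCast.2 hpX
          push_cast at h1
          have h2 : -1 * (Z : ℤ) - (Y : ℤ) = - ((Y : ℤ) + (Z : ℤ)) := by ring
          rw [h2]
          exact (dvd_neg).2 h1
        rw [h1]
        refine bt_mul hpp (fun h => ?_) hnZ
        exact hpi.not_dvd_one ((dvd_neg).1 h)
      rw [ht, if_pos rfl, v1_C hpp sY hpY, v1_C hpp sZ hpZ, he, add_assoc,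
        CharTwo.add_self_eq_zero, add_zero]

private theorem v1_bgX {P : Par} {z Y Z k : ℕ} (hU : UU P z Y Z k) :
    bgX z Y Z = (range k).image (fun j => uu z Y Z j) := by
  ext p
  simp only [mem_image, mem_range]
  constructor
  · intro hp
    exact hU.surj p hp
  · rintro ⟨j, hj, rfl⟩
    exact hU.mem j hj

private theorem v1_inj {P : Par} {z Y Z k : ℕ} (hU : UU P z Y Z k) {i j : ℕ} (hi : i < k)
    (hj : j < k) (h : uu z Y Z i = uu z Y Z j) : i = j := by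
  rcases lt_trichotomy i j with h1 | h1 | h1
  · have := hU.mono i j h1 hj
    omega
  · exact h1
  · have := hU.mono j i h1 hi
    omega

private theorem v1_sum {P : Par} {z T Y Z k : ℕ} (hF : Fac P z T Y Z) (hU : UU P z Y Z k)
    (g : ℕ → V2) (hg : ∀ j, P.J ≤ j → j < k → g (uu z Y Z j) = 0) :
    ∑ p ∈ oddP Y Z, g p = ∑ p ∈ smP z Y Z, g p + ∑ j ∈ range P.J, g (uu z Y Z j) +
      (g (lpf Y) + g (lpf Z)) := by
  rw [hF.odd, sum_union hF.dj2, sum_union hF.dj1, v1_bgX hU,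
    sum_image (fun i hi j hj h => v1_inj hU (mem_range.1 hi) (mem_range.1 hj) h),
    sum_pair hF.ne]
  congr 2
  symm
  refine sum_subset (range_subset_range.2 hU.Jk) fun j hj1 hj2 => ?_
  exact hg j (not_lt.1 fun h => hj2 (mem_range.2 h)) (mem_range.1 hj1)

private theorem v1_Pr {P : Par} {z T Y Z : ℕ} (hF : Fac P z T Y Z) {p : ℕ} (hp : p ∈ smP z Y Z) :
    p ∈ Pr P.w z := by
  obtain ⟨h1, h2⟩ := mem_filter.1 hp
  obtain ⟨h3, h4, h5⟩ := (v1_mem hF).1 h1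
  refine mem_filter.2 ⟨mem_Ioc.2 ⟨?_, h2⟩, h4⟩
  by_contra h
  exact hF.hok.hw p h4 h3 (not_lt.1 h) h5

/-- the vector `v` on natural numbers -/
private def v1V (z Y Z : ℕ) (a : V2) (d : EE) (p : ℕ) : V2 :=
  d.1 p + if p ∈ smP z Y Z ∧ p ∣ Y * Z then a else 0

private theorem v1V_zero {z Y Z : ℕ} {a : V2} {d : EE} (hd : ∀ p, p ∉ oddP Y Z → d.1 p = 0)
    {p : ℕ} (hz : p ≤ z) (hp : p ∉ smP z Y Z) : v1V z Y Z a d p = 0 := by
  unfold v1V
  rw [if_neg (fun h => hp h.1), add_zero]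
  exact hd p fun h => hp (mem_filter.2 ⟨h, hz⟩)

private theorem v1_univ {P : Par} {z T Y Z : ℕ} (hF : Fac P z T Y Z) {A : Type}
    [AddCommMonoid A] (g : ℕ → A) (hg : ∀ p, p ≤ z → p ∉ smP z Y Z → g p = 0) :
    ∑ p : Pr P.w z, g p = ∑ p ∈ smP z Y Z, g p := by
  rw [Finset.sum_coe_sort (Pr P.w z) g]
  symm
  refine sum_subset (fun p hp => v1_Pr hF hp) fun p h1 h2 => hg p ?_ h2
  exact (mem_Ioc.1 (mem_filter.1 h1).1).2

private theorem v1_two (x : V2) : x + x = 0 := by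
  ext <;> exact CharTwo.add_self_eq_zero _

private theorem v1_zM {P : Par} (hP : P.Adm) {z : ℕ} (hz : 2 ≤ z) : z ≤ z ^ P.M := by
  have h1 := hP.hE
  have h2 : 1 ≤ (13 * P.B) ^ P.J := Nat.one_le_pow _ _ (by have := hP.hB; omega)
  have h3 : P.E0 ≤ P.E0 * (13 * P.B) ^ P.J := Nat.le_mul_of_pos_right _ h2
  have h4 : P.M = P.E0 * (13 * P.B) ^ P.J := rfl
  calc z = z ^ 1 := (pow_one z).symm
    _ ≤ z ^ P.M := Nat.pow_le_pow_right (by omega) (by omega)

/-- the value of `yF` -/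
private theorem v1_yF {P : Par} {z T k Y Z : ℕ} (hF : Fac P z T Y Z) (hU : UU P z Y Z k)
    (hzM : z ≤ z ^ P.M) {a : V2} {β : ℕ → V2} {d : EE} (hd : Hd P z Y Z k a β d)
    {p : ℕ} (hp : p ∈ oddP Y Z) :
    yL Y Z p d = ∑ s ∈ smP z Y Z, bt p (s : ℤ) • v1V z Y Z a d s +
      ∑ i ∈ range P.J, bt p ((uu z Y Z i : ℕ) : ℤ) • β i +
      (if typ Y Z p = 0 then bt p (-1) else rho Y Z p) • a + bt p 2 • d.2.2 +
      bt p (-1) • d.2.1 + rho Y Z p • d.1 p + NN (typ Y Z p) (bt p (-1)) (d.1 p) := by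
  obtain ⟨hp2, hpp, hdd⟩ := (v1_mem hF).1 hp
  show yF Y Z d.1 d.2.1 d.2.2 p = _
  unfold yF
  have h1 : ∑ q ∈ (oddP Y Z).erase p, bt p (q : ℤ) • d.1 q =
      ∑ q ∈ oddP Y Z, bt p (q : ℤ) • d.1 q := by
    refine sum_erase _ ?_
    rw [v1_self hpp, zero_smul]
  have h2 := v1_sum hF hU (fun q => bt p (q : ℤ) • d.1 q) (fun j h1 h2 => by
    show bt p ((uu z Y Z j : ℕ) : ℤ) • d.1 (uu z Y Z j) = 0
    rw [hd.hb j h1 h2, smul_zero])
  have h3 : ∑ j ∈ range P.J, bt p ((uu z Y Z j : ℕ) : ℤ) • d.1 (uu z Y Z j) =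
      ∑ i ∈ range P.J, bt p ((uu z Y Z i : ℕ) : ℤ) • β i :=
    sum_congr rfl fun i hi => by rw [hd.hm i (mem_range.1 hi)]
  have h4 : ∑ s ∈ smP z Y Z, bt p (s : ℤ) • v1V z Y Z a d s =
      ∑ s ∈ smP z Y Z, bt p (s : ℤ) • d.1 s +
        (∑ s ∈ (smP z Y Z).filter (· ∣ Y * Z), bt p ((s : ℕ) : ℤ)) • a := by
    rw [sum_smul, sum_filter, ← sum_add_distrib]
    refine sum_congr rfl fun s hs => ?_
    unfold v1V
    by_cases h : s ∣ Y * Z
    · rw [if_pos h, if_pos ⟨hs, h⟩, smul_add]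
    · rw [if_neg h, if_neg (fun h5 => h h5.2), add_zero, add_zero]
  have h5 := v1_kap hF hzM hp
  rw [h1, h2, h3, hd.hq, hd.hr, h4, ← h5]
  simp only [add_smul]
  have h6 := v1_two ((∑ s ∈ (smP z Y Z).filter (· ∣ Y * Z), bt p ((s : ℕ) : ℤ)) • a)
  generalize (∑ s ∈ (smP z Y Z).filter (· ∣ Y * Z), bt p ((s : ℕ) : ℤ)) • a = K at h6 ⊢
  generalize ∑ s ∈ smP z Y Z, bt p (s : ℤ) • d.1 s = S1
  generalize ∑ i ∈ range P.J, bt p ((uu z Y Z i : ℕ) : ℤ) • β i = S2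
  generalize bt p ((lpf Y : ℕ) : ℤ) • a = A1
  generalize bt p ((lpf Z : ℕ) : ℤ) • a = A2
  generalize bt p 2 • d.2.2 = A3
  generalize bt p (-1) • d.2.1 = A4
  generalize rho Y Z p • d.1 p = A5
  generalize NN (typ Y Z p) (bt p (-1)) (d.1 p) = A6
  have h7 : S1 + K + S2 + (A1 + A2 + K) + A3 + A4 + A5 + A6 =
      S1 + S2 + (A1 + A2) + A3 + A4 + A5 + A6 + (K + K) := by abel
  rw [h7, h6, add_zero]

private theorem v1_lin {P : Par} {z T k Y Z : ℕ} (hF : Fac P z T Y Z) {a : V2} {β : ℕ → V2}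
    {d : EE} (hd : Hd P z Y Z k a β d) (p : Pr P.w z) :
    lin (Pr P.w z) (vv P.w z Y Z a d) p =
      ∑ s ∈ smP z Y Z, bt (p : ℕ) (s : ℤ) • v1V z Y Z a d s := by
  have hpp : (p : ℕ).Prime := (mem_filter.1 p.2).2
  unfold lin
  rw [sum_erase _ (by rw [v1_self hpp, zero_smul])]
  exact v1_univ hF (fun s => bt (p : ℕ) (s : ℤ) • v1V z Y Z a d s) fun s h1 h2 => by
    show bt (p : ℕ) (s : ℤ) • v1V z Y Z a d s = 0
    rw [v1V_zero hd.mem.1 h1 h2, smul_zero]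

private theorem v1_alg : ∀ (τ : Fin 3) (ε ρ : ZMod 2) (v a s : V2),
    (if τ = 0 then ε else ρ) • a + ε • s +
      ρ • (v + if τ = 0 then 0 else a) + NN τ ε (v + if τ = 0 then 0 else a) =
    (ε • (s + a) + exx τ ε a) + (ρ • v + NN τ ε v) := by
  unfold NN exx
  decide

/-- the equation at a small prime -/
private theorem v1_eq {P : Par} {z T k Y Z : ℕ} (hF : Fac P z T Y Z) (hU : UU P z Y Z k)
    (hzM : z ≤ z ^ P.M) {a : V2} {β : ℕ → V2} {d : EE} (hd : Hd P z Y Z k a β d)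
    (p : Pr P.w z) (hp : (p : ℕ) ∈ smP z Y Z) :
    yL Y Z p d = (lin (Pr P.w z) (vv P.w z Y Z a d) p + bt (p : ℕ) 2 • d.2.2 +
      bt (p : ℕ) (-1) • (d.2.1 + a) + exx (typ Y Z p) (bt (p : ℕ) (-1)) a +
      ∑ i ∈ range P.J, bt (p : ℕ) ((uu z Y Z i : ℕ) : ℤ) • β i) +
      (rho Y Z p • vv P.w z Y Z a d p +
        NN (typ Y Z p) (bt (p : ℕ) (-1)) (vv P.w z Y Z a d p)) := by
  have hpo : (p : ℕ) ∈ oddP Y Z := (mem_filter.1 hp).1
  obtain ⟨hp2, hpp, hdd⟩ := (v1_mem hF).1 hpo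
  have hdv : d.1 p = vv P.w z Y Z a d p + if typ Y Z p = 0 then 0 else a := by
    have ht : typ Y Z p = 0 ↔ ¬ (p : ℕ) ∣ Y * Z := by
      rw [Nat.Prime.dvd_mul hpp]
      unfold typ
      split_ifs with h1 h2
      · simp [h1]
      · simp [h2]
      · simp [h1, h2]
    unfold vv
    by_cases h : (p : ℕ) ∣ Y * Z
    · rw [if_pos ⟨hp, h⟩, if_neg (fun h1 => ht.1 h1 h), add_assoc, v1_two, add_zero]
    · rw [if_neg (fun h1 => h h1.2), if_pos (ht.2 h), add_zero, add_zero]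
  rw [v1_yF hF hU hzM hd hpo, v1_lin hF hd p]
  have h1 := v1_alg (typ Y Z p) (bt (p : ℕ) (-1)) (rho Y Z p) (vv P.w z Y Z a d p) a d.2.1
  rw [← hdv] at h1
  generalize ∑ s ∈ smP z Y Z, bt (p : ℕ) (s : ℤ) • v1V z Y Z a d s = S1
  generalize ∑ i ∈ range P.J, bt (p : ℕ) ((uu z Y Z i : ℕ) : ℤ) • β i = S2
  generalize bt (p : ℕ) 2 • d.2.2 = A3
  have h2 : ∀ x1 x2 x3 x4 : V2, S1 + S2 + x1 + A3 + x2 + x3 + x4 =
      (x1 + x2 + x3 + x4) + (S1 + S2 + A3) := by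
    intro x1 x2 x3 x4
    abel
  rw [h2, h1]
  abel

private theorem v1_addz {x y : V2} (h : x + y = 0) : x = y := by
  have h1 : x + y + y = y := by rw [h, zero_add]
  rwa [add_assoc, v1_two, add_zero] at h1

theorem conv_sm {P : Par} (hP : P.Adm) {z T k : ℕ} (hz : 2 ≤ z) (hT : P.TZ z T) {x : ℕ × ℕ}
    (hx : x ∈ SSk P z T k) {a : V2} {β : ℕ → V2} {d : EE} (hd : Hd P z x.1 x.2 k a β d) :
    (∀ p ∈ smP z x.1 x.2, yL x.1 x.2 p d = 0) ↔
      SolP (jn (stt P.w z x.1 x.2)) (fun p => ∑ i ∈ range P.J,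
        bt p ((uu z x.1 x.2 i : ℕ) : ℤ) • β i) (vv P.w z x.1 x.2 a d) a (d.2.1 + a) d.2.2 := by
  have hF := fac hP hz hT (mem_filter.1 hx).1
  have hU := uufac hP hz hT hx
  have hzM := v1_zM hP hz
  have hxS : x ∈ SS P z T := (mem_filter.1 hx).1
  obtain ⟨Y, Z⟩ := x
  change Fac P z T Y Z at hF
  change UU P z Y Z k at hU
  change Hd P z Y Z k a β d at hd
  have hst : ∀ p : Pr P.w z, jn (stt P.w z Y Z) p =
      if (p : ℕ) ∈ oddP Y Z then some (typ Y Z p, rho Y Z p) else none := by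
    intro p
    have hp := p.2
    simp only [Pr, mem_filter, mem_Ioc] at hp
    have h1 := hP.hw
    have h2 : F3.st (Y : ℤ) (Z : ℤ) (p : ℕ) =
      if (p : ℕ) ∈ oddP Y Z then some (some (typ Y Z p, rho Y Z p)) else none :=
      st_eq hP hz hT hxS hp.2 (by omega)
    show (F3.st (Y : ℤ) (Z : ℤ) (p : ℕ)).join = _
    rw [h2]
    split_ifs <;> rfl
  show (∀ p ∈ smP z Y Z, yL Y Z p d = 0) ↔ _
  unfold SolP
  constructor
  · intro h p
    rw [hst p]
    by_cases hp : (p : ℕ) ∈ oddP Y Z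
    · have hps : (p : ℕ) ∈ smP z Y Z :=
        mem_filter.2 ⟨hp, (mem_Ioc.1 (mem_filter.1 p.2).1).2⟩
      rw [if_pos hp]
      have h1 := h p hps
      rw [v1_eq hF hU hzM hd p hps] at h1
      exact v1_addz h1
    · rw [if_neg hp]
      show vv P.w z Y Z a d p = 0
      unfold vv
      rw [if_neg (fun h => hp (mem_filter.1 h.1).1), add_zero]
      exact hd.mem.1 p hp
  · intro h p hps
    have hp : p ∈ oddP Y Z := (mem_filter.1 hps).1
    have h1 := h ⟨p, v1_Pr hF hps⟩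
    rw [hst ⟨p, v1_Pr hF hps⟩, if_pos hp] at h1
    rw [v1_eq hF hU hzM hd ⟨p, v1_Pr hF hps⟩ hps]
    simp only at h1
    rw [h1, v1_two]

theorem conv_pp {P : Par} (hP : P.Adm) {z T k : ℕ} (hz : 2 ≤ z) (hT : P.TZ z T) {x : ℕ × ℕ}
    (hx : x ∈ SSk P z T k) {a : V2} {β : ℕ → V2} {d : EE} (hd : Hd P z x.1 x.2 k a β d)
    {l : ℕ} (hl : l < P.J) (hβ : β l = 0) (c : V2) :
    dot c (yL x.1 x.2 (uu z x.1 x.2 l) d) =
      bt (uu z x.1 x.2 l) (Dc c (vv P.w z x.1 x.2 a d) (d.2.1 + a) d.2.2) +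
        ∑ i ∈ (range P.J).erase l, bt (uu z x.1 x.2 l) ((uu z x.1 x.2 i : ℕ) : ℤ) *
          dot c (β i) := by
  have hF := fac hP hz hT (mem_filter.1 hx).1
  have hU := uufac hP hz hT hx
  have hzM := v1_zM hP hz
  obtain ⟨Y, Z⟩ := x
  change Fac P z T Y Z at hF
  change UU P z Y Z k at hU
  change Hd P z Y Z k a β d at hd
  show dot c (yL Y Z (uu z Y Z l) d) = bt (uu z Y Z l) (Dc c (vv P.w z Y Z a d) (d.2.1 + a) d.2.2) +
        ∑ i ∈ (range P.J).erase l, bt (uu z Y Z l) ((uu z Y Z i : ℕ) : ℤ) * dot c (β i)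
  have hlk : l < k := lt_of_lt_of_le hl hU.Jk
  have hpp := hU.prime l hlk
  have hpX := hU.dvd l hlk
  have hpz := hU.gt l hlk
  have hpo : uu z Y Z l ∈ oddP Y Z := by
    rw [hF.odd]
    exact mem_union_left _ (mem_union_right _ (hU.mem l hlk))
  have hcop := v1_cop hF.hok.hc hpp
  have hpY : ¬ uu z Y Z l ∣ Y := fun h => hcop ⟨h, (Nat.dvd_add_right h).1 hpX⟩
  have hpZ : ¬ uu z Y Z l ∣ Z := fun h => hcop ⟨(Nat.dvd_add_left h).1 hpX, h⟩
  have ht : typ Y Z (uu z Y Z l) = 0 := by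
    unfold typ
    rw [if_neg hpY, if_neg hpZ]
  have hd0 : d.1 (uu z Y Z l) = 0 := by
    rw [hd.hm l hl, hβ]
  have hy := v1_yF hF hU hzM hd hpo
  generalize hup : uu z Y Z l = p at *
  rw [hy, ht, if_pos rfl, hd0, smul_zero]
  have hNN : NN (0 : Fin 3) (bt p (-1)) 0 = 0 := by
    unfold NN
    simp
  rw [hNN, add_zero, add_zero]
  have e1 : ∑ i ∈ range P.J, bt p ((uu z Y Z i : ℕ) : ℤ) • β i =
      ∑ i ∈ (range P.J).erase l, bt p ((uu z Y Z i : ℕ) : ℤ) • β i := by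
    rw [sum_erase]
    rw [hβ, smul_zero]
  rw [e1]
  have hbt : bt p (Dc c (vv P.w z Y Z a d) (d.2.1 + a) d.2.2) =
      bt p (-1) * dot c (d.2.1 + a) + bt p 2 * dot c d.2.2 +
      ∑ s ∈ smP z Y Z, bt p (s : ℤ) * dot c (v1V z Y Z a d s) := by
    have hpi : Prime (p : ℤ) := Nat.prime_iff_prime_int.1 hpp
    have hp2 : (2 : ℕ) < p := by omega
    have n1 : ¬ (p : ℤ) ∣ -1 := fun h => hpi.not_dvd_one ((dvd_neg).1 h)
    have n0 : ¬ (p : ℤ) ∣ 1 := fun h => hpi.not_dvd_one h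
    have n2 : ¬ (p : ℤ) ∣ 2 := by
      intro h
      have h1 : p ∣ 2 := by exact_mod_cast Int.natCast_dvd_natCast.1 (by exact_mod_cast h)
      have h2 := Nat.le_of_dvd (by norm_num) h1
      omega
    have key : ∀ (x : ZMod 2) (m : ℤ), ¬ (p : ℤ) ∣ m →
        bt p (if x = 1 then m else 1) = bt p m * x ∧ ¬ (p : ℤ) ∣ (if x = 1 then m else 1) := by
      intro x m hm
      by_cases h : x = 1
      · rw [if_pos h, h, mul_one]
        exact ⟨rfl, hm⟩
      · have h0 : x = 0 := by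
          revert h
          revert x
          decide
        rw [if_neg h, h0, mul_zero, bt_one]
        exact ⟨rfl, n0⟩
    have nd : ∀ s : Pr P.w z, ¬ (p : ℤ) ∣ ((s : ℕ) : ℤ) := by
      intro s h
      have h1 : p ∣ (s : ℕ) := Int.natCast_dvd_natCast.1 h
      have h2 := (mem_Ioc.1 (mem_filter.1 s.2).1).2
      have h3 := (mem_filter.1 s.2).2
      have h4 := Nat.le_of_dvd h3.pos h1
      omega
    have hprod : ∀ S : Finset (Pr P.w z),
        bt p (∏ s ∈ S, (if dot c (vv P.w z Y Z a d s) = 1 then ((s : ℕ) : ℤ) else 1)) =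
          ∑ s ∈ S, bt p ((s : ℕ) : ℤ) * dot c (vv P.w z Y Z a d s) ∧
        ¬ (p : ℤ) ∣ ∏ s ∈ S, (if dot c (vv P.w z Y Z a d s) = 1 then ((s : ℕ) : ℤ) else 1) := by
      classical
      intro S
      induction S using Finset.induction_on with
      | empty =>
        rw [Finset.prod_empty, Finset.sum_empty, bt_one]
        exact ⟨rfl, n0⟩
      | insert b S hb ih =>
        obtain ⟨g1, g2⟩ := ih
        obtain ⟨k1, k2⟩ := key (dot c (vv P.w z Y Z a d b)) ((b : ℕ) : ℤ) (nd b)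
        rw [Finset.prod_insert hb, Finset.sum_insert hb, bt_mul hpp k2 g2, k1, g1]
        refine ⟨rfl, fun h => ?_⟩
        rcases hpi.dvd_or_dvd h with h | h
        · exact k2 h
        · exact g2 h
    obtain ⟨a1, a2⟩ := key (dot c (d.2.1 + a)) (-1) n1
    obtain ⟨b1, b2⟩ := key (dot c d.2.2) 2 n2
    obtain ⟨c1, c2⟩ := hprod univ
    have ab : ¬ (p : ℤ) ∣ (if dot c (d.2.1 + a) = 1 then (-1 : ℤ) else 1) *
        (if dot c d.2.2 = 1 then 2 else 1) := by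
      intro h
      rcases hpi.dvd_or_dvd h with h | h
      · exact a2 h
      · exact b2 h
    unfold Dc
    rw [bt_mul hpp ab c2, bt_mul hpp a2 b2, a1, b1, c1]
    congr 1
    refine v1_univ hF (fun s => bt p (s : ℤ) * dot c (v1V z Y Z a d s)) fun s h1 h2 => ?_
    show bt p (s : ℤ) * dot c (v1V z Y Z a d s) = 0
    rw [v1V_zero hd.mem.1 h1 h2]
    unfold dot
    simp
  rw [hbt]
  have dadd : ∀ x y : V2, dot c (x + y) = dot c x + dot c y := by
    intro x y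
    unfold dot
    simp only [Prod.fst_add, Prod.snd_add]
    ring
  have dsm : ∀ (u : ZMod 2) (x : V2), dot c (u • x) = u * dot c x := by
    intro u x
    unfold dot
    simp only [Prod.smul_fst, Prod.smul_snd, smul_eq_mul]
    ring
  have d0 : dot c 0 = 0 := by
    unfold dot
    simp
  have dsum : ∀ (S : Finset ℕ) (g : ℕ → V2), dot c (∑ s ∈ S, g s) = ∑ s ∈ S, dot c (g s) := by
    intro S g
    classical
    induction S using Finset.induction_on with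
    | empty => simp [d0]
    | insert b S hb ih => rw [sum_insert hb, sum_insert hb, dadd, ih]
  simp only [dadd, dsm, dsum]
  ring

theorem conv_inj {P : Par} (hP : P.Adm) {z T k : ℕ} (hz : 2 ≤ z) (hT : P.TZ z T) {x : ℕ × ℕ}
    (hx : x ∈ SSk P z T k) {a : V2} {β : ℕ → V2} {d d' : EE} (hd : Hd P z x.1 x.2 k a β d)
    (hd' : Hd P z x.1 x.2 k a β d')
    (h1 : vv P.w z x.1 x.2 a d = vv P.w z x.1 x.2 a d') (h2 : d.2 = d'.2) : d = d' := by
  have hF := fac hP hz hT (mem_filter.1 hx).1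
  have hU := uufac hP hz hT hx
  obtain ⟨Y, Z⟩ := x
  change Fac P z T Y Z at hF
  change UU P z Y Z k at hU
  change Hd P z Y Z k a β d at hd
  change Hd P z Y Z k a β d' at hd'
  refine Prod.ext (funext fun p => ?_) h2
  by_cases hp : p ∈ oddP Y Z
  · have hp1 := hp
    rw [hF.odd, mem_union, mem_union, mem_insert, mem_singleton] at hp1
    rcases hp1 with (h | h) | (h | h)
    · have h3 := congrFun h1 ⟨p, v1_Pr hF h⟩
      exact add_right_cancel h3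
    · obtain ⟨j, hj, rfl⟩ := hU.surj p h
      by_cases hjJ : j < P.J
      · rw [hd.hm j hjJ, hd'.hm j hjJ]
      · rw [hd.hb j (not_lt.1 hjJ) hj, hd'.hb j (not_lt.1 hjJ) hj]
    · rw [h, hd.hq, hd'.hq]
    · rw [h, hd.hr, hd'.hr]
  · rw [hd.mem.1 p hp, hd'.mem.1 p hp]

end Pool.Agent.H77.K4
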