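import Pool.Agent.H77.K4.V1

/-!
# V2: `Str`

`sq_Dc`: `Dc c v s t` (`v` supported on odd primes: all elements of `Pr w z`, `2 ≤ w`) is a square iff
`dot c s = 0`, `dot c t = 0`, `dot c (v p) = 0` for all `p` (it is `±` a squarefree number).

`str_le`: for `x ∈ SSk`: `Str ≤ 1 + sum over c = (1,0), (0,1) of #{(v,a,s,t) ∈ solF (jn (stt ..)) 0 :
Dc c v s t is not a square, and bt (ppI i) (Dc c v s t) = 0 for all i < J}`.

Proof. Let `d ∈ DD` be counted by `Str`, `d ≠ 0`, and `a = aq d = ar d`. `Hd` holds with `β = 0`. By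
`conv_sm` `(vv a d, a, d.2.1 + a, d.2.2) ∈ solF _ 0`, and by `conv_pp` (all `y_u = 0`)
`bt (uu i) (Dc c ..) = 0` for all `c`, `uu i = ppI i`. The map is injective (`conv_inj`; `a` is a
component). It remains to see that `Dc c .. ` is not a square for `c = (1,0)` or `c = (0,1)`.
Otherwise `vv a d = 0`, `d.2.1 = a`, `d.2.2 = 0` (`sq_Dc`). So `d.1 p = a` for the primes of `smP`
dividing `Y Z`, and for `lpf Y`, `lpf Z`, and `d.1 p = 0` for all other `p`. `d ∈ G2` gives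
`d.2.1.1 = 0`, so `a.1 = 0`. If `a = (0,1)`, then
`0 = cL2 = sum over all primes p | Y Z of bt p (-1) + 1 + 0`; but the number of primes `= 3 mod 4` of
`Y Z` is even, because `Y Z` is squarefree and `= 1 mod 4`. Contradiction. So `a = 0`, `d = 0`.
-/

set_option autoImplicit false

namespace Pool.Agent.H77.K4

open Finset Pool.Agent.H77.SV

private theorem v2_nsq {l : ℕ} (hl : l.Prime) {R : ℤ} (hR : ¬ (l : ℤ) ∣ R) :
    ¬ IsSquare ((l : ℤ) * R) := by
  rintro ⟨m, hm⟩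
  have hpi : Prime (l : ℤ) := Nat.prime_iff_prime_int.1 hl
  have h1 : (l : ℤ) ∣ m * m := hm ▸ Dvd.intro R rfl
  have h2 : (l : ℤ) ∣ m := by
    rcases hpi.dvd_or_dvd h1 with h | h
    · exact h
    · exact h
  obtain ⟨n, rfl⟩ := h2
  have hl0 : (l : ℤ) ≠ 0 := hpi.ne_zero
  have h3 : (l : ℤ) * R = (l : ℤ) * (n * ((l : ℤ) * n)) := by
    rw [hm]
    ring
  have h4 : R = n * ((l : ℤ) * n) := mul_left_cancel₀ hl0 h3
  exact hR ⟨n * n, by rw [h4]; ring⟩

private theorem v2_nd {w z : ℕ} (f : Pr w z → ℤ) (hf : ∀ p, f p = ((p : ℕ) : ℤ) ∨ f p = 1)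
    {l : ℕ} (hl : l.Prime) (S : Finset (Pr w z)) (hS : ∀ p ∈ S, (p : ℕ) ≠ l) :
    ¬ (l : ℤ) ∣ ∏ p ∈ S, f p := by
  have hpi : Prime (l : ℤ) := Nat.prime_iff_prime_int.1 hl
  intro h
  obtain ⟨p, hp, hd⟩ := (hpi.dvd_finsetProd_iff _).1 h
  rcases hf p with h1 | h1
  · rw [h1] at hd
    have h2 : l ∣ (p : ℕ) := Int.natCast_dvd_natCast.1 hd
    exact hS p hp ((Nat.prime_dvd_prime_iff_eq hl (mem_filter.1 p.2).2).1 h2).symm
  · rw [h1] at hd
    exact hpi.not_dvd_one hd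

private theorem v2_01 : ∀ x : ZMod 2, x ≠ 0 → x = 1 := by decide

private theorem v2_neg (S : Finset ℕ) : (∀ p ∈ S, p.Prime ∧ p ≠ 2) →
    (∑ p ∈ S, bt p (-1) = if (∏ p ∈ S, p) % 4 = 3 then 1 else 0) ∧ (∏ p ∈ S, p) % 2 = 1 := by
  classical
  induction S using Finset.induction_on with
  | empty => intro _; simp
  | insert a S ha ih =>
    intro h
    obtain ⟨h2, h3⟩ := ih fun p hp => h p (mem_insert_of_mem hp)
    obtain ⟨hp, hp2⟩ := h a (mem_insert_self _ _)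
    have hodd : a % 2 = 1 := hp.eq_two_or_odd.resolve_left hp2
    rw [sum_insert ha, prod_insert ha, h2, bt_neg_one hp hp2]
    generalize (∏ p ∈ S, p) = N at *
    have e4 : a * N % 4 = (a % 4) * (N % 4) % 4 := Nat.mul_mod a N 4
    have e2 : a * N % 2 = (a % 2) * (N % 2) % 2 := Nat.mul_mod a N 2
    have ea : a % 4 = 1 ∨ a % 4 = 3 := by omega
    have eN : N % 4 = 1 ∨ N % 4 = 3 := by omega
    rw [e4, e2, hodd, h3]
    rcases ea with h5 | h5 <;> rcases eN with h6 | h6 <;> rw [h5, h6] <;> decide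

private theorem v2_pf {N : ℕ} (hN : Squarefree N) (ho : N % 2 = 1) :
    ∑ p ∈ N.primeFactors, bt p (-1) = if N % 4 = 3 then 1 else 0 := by
  have h := v2_neg N.primeFactors fun p hp => by
    refine ⟨Nat.prime_of_mem_primeFactors hp, fun h2 => ?_⟩
    have := Nat.dvd_of_mem_primeFactors hp
    rw [h2] at this
    omega
  rw [Nat.prod_primeFactors_of_squarefree hN] at h
  exact h.1

private theorem v2_sq {P : Par} {z T Y Z : ℕ} (hF : Fac P z T Y Z) (N : ℕ) (hN : N % 2 = 1)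
    (hd : N ∣ (Y + Z) * Y * Z) : Squarefree N := by
  rw [Nat.squarefree_iff_prime_squarefree]
  intro p hp hpp
  have hp2 : p ≠ 2 := by
    rintro rfl
    omega
  refine hF.hok.hsq p hp hp2 ?_
  rw [sq]
  exact hpp.trans hd

private theorem v2_mem {P : Par} {z T Y Z : ℕ} (hF : Fac P z T Y Z) {p : ℕ} :
    p ∈ oddP Y Z ↔ p ≠ 2 ∧ p.Prime ∧ p ∣ (Y + Z) * Y * Z := by
  have h1 := hF.hT
  have h2 : 0 < Y := by omega
  have h3 : 0 < Z := by omega
  have hne : (Y + Z) * Y * Z ≠ 0 := by positivity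
  simp only [oddP, mem_erase, Nat.mem_primeFactors]
  exact ⟨fun h => ⟨h.1, h.2.1, h.2.2.1⟩, fun h => ⟨h.1, h.2.1, h.2.2, hne⟩⟩

private theorem v2_two (x : V2) : x + x = 0 := by
  ext <;> exact CharTwo.add_self_eq_zero _

private theorem v2_Pr {P : Par} {z T Y Z : ℕ} (hF : Fac P z T Y Z) {p : ℕ} (hp : p ∈ smP z Y Z) :
    p ∈ Pr P.w z := by
  obtain ⟨h1, h2⟩ := mem_filter.1 hp
  obtain ⟨h3, h4, h5⟩ := (v2_mem hF).1 h1
  refine mem_filter.2 ⟨mem_Ioc.2 ⟨?_, h2⟩, h4⟩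
  by_contra h
  exact hF.hok.hw p h4 h3 (not_lt.1 h) h5

/-- the number of primes `= 3 mod 4` of `Y Z` is even -/
private theorem v2_even {P : Par} {z T Y Z : ℕ} (hF : Fac P z T Y Z) :
    ∑ p ∈ (oddP Y Z).filter (· ∣ Y * Z), bt p (-1) = 0 := by
  have hTT := hF.hT
  have hY := hF.hok.hY
  have hZ := hF.hok.hZ
  have sY : Squarefree Y := v2_sq hF Y (by omega) ((dvd_mul_left _ _).mul_right _)
  have sZ : Squarefree Z := v2_sq hF Z (by omega) (dvd_mul_left _ _)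
  have h1 : (oddP Y Z).filter (· ∣ Y * Z) = Y.primeFactors ∪ Z.primeFactors := by
    ext p
    simp only [mem_filter, v2_mem hF, mem_union, Nat.mem_primeFactors]
    constructor
    · rintro ⟨⟨h2, h3, h4⟩, h5⟩
      rcases (Nat.Prime.dvd_mul h3).1 h5 with h | h
      · exact Or.inl ⟨h3, h, by omega⟩
      · exact Or.inr ⟨h3, h, by omega⟩
    · rintro (h | h)
      · refine ⟨⟨?_, h.1, (h.2.1.mul_left _).mul_right _⟩, h.2.1.mul_right _⟩
        rintro rfl
        have := h.2.1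
        omega
      · refine ⟨⟨?_, h.1, h.2.1.mul_left _⟩, h.2.1.mul_left _⟩
        rintro rfl
        have := h.2.1
        omega
  have h2 : Disjoint Y.primeFactors Z.primeFactors := hF.hok.hc.disjoint_primeFactors
  rw [h1, sum_union h2, v2_pf sY (by omega), v2_pf sZ (by omega)]
  have h3 : Y % 4 = Z % 4 := by omega
  rw [h3]
  split_ifs <;> decide

theorem sq_Dc {w z : ℕ} (hw : 2 ≤ w) (c : V2) (v : Pr w z → V2) (s t : V2) :
    IsSquare (Dc c v s t) ↔ dot c s = 0 ∧ dot c t = 0 ∧ ∀ p, dot c (v p) = 0 := by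
  have hf : ∀ p : Pr w z, (if dot c (v p) = 1 then ((p : ℕ) : ℤ) else 1) = ((p : ℕ) : ℤ) ∨
      (if dot c (v p) = 1 then ((p : ℕ) : ℤ) else 1) = 1 := by
    intro p
    split_ifs
    · exact Or.inl rfl
    · exact Or.inr rfl
  have hpos : ∀ p : Pr w z, (0 : ℤ) < if dot c (v p) = 1 then ((p : ℕ) : ℤ) else 1 := by
    intro p
    have h1 := (mem_filter.1 p.2).2.pos
    split_ifs
    · exact_mod_cast h1
    · norm_num
  have hprod : (0 : ℤ) < ∏ p : Pr w z, (if dot c (v p) = 1 then ((p : ℕ) : ℤ) else 1) :=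
    prod_pos fun p _ => hpos p
  have hgt : ∀ p : Pr w z, (p : ℕ) ≠ 2 := by
    intro p h
    have h1 := (mem_Ioc.1 (mem_filter.1 p.2).1).1
    omega
  constructor
  · intro hsq
    have hs : dot c s = 0 := by
      by_contra h
      have h1 := v2_01 _ h
      obtain ⟨m, hm⟩ := hsq
      unfold Dc at hm
      rw [if_pos h1] at hm
      have h2 : (0 : ℤ) < if dot c t = 1 then 2 else 1 := by split_ifs <;> norm_num
      have h3 : 0 ≤ m * m := mul_self_nonneg m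
      have h4 := mul_pos h2 hprod
      nlinarith
    have hA : (if dot c s = 1 then (-1 : ℤ) else 1) = 1 := by
      rw [if_neg]
      rw [hs]
      decide
    unfold Dc at hsq
    rw [hA, one_mul] at hsq
    have ht : dot c t = 0 := by
      by_contra h
      have h1 := v2_01 _ h
      rw [if_pos h1] at hsq
      exact v2_nsq Nat.prime_two (v2_nd _ hf Nat.prime_two univ fun p _ => hgt p) hsq
    have hB : (if dot c t = 1 then (2 : ℤ) else 1) = 1 := by
      rw [if_neg]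
      rw [ht]
      decide
    rw [hB, one_mul] at hsq
    refine ⟨hs, ht, fun p => ?_⟩
    by_contra h
    have h1 := v2_01 _ h
    rw [← mul_prod_erase univ _ (mem_univ p), if_pos h1] at hsq
    refine v2_nsq (mem_filter.1 p.2).2 (v2_nd _ hf (mem_filter.1 p.2).2 _ fun p' hp' h2 => ?_) hsq
    exact (mem_erase.1 hp').1 (Subtype.ext h2)
  · rintro ⟨h1, h2, h3⟩
    have h4 : Dc c v s t = 1 := by
      unfold Dc
      rw [h1, h2, if_neg (by decide), if_neg (by decide), one_mul, one_mul]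
      refine prod_eq_one fun p _ => ?_
      rw [h3 p, if_neg (by decide)]
    rw [h4]
    exact ⟨1, rfl⟩

open Classical in
/-- solutions with a nonsquare `Dc` which is a square modulo all medium primes -/
noncomputable def cntS {w z J : ℕ} (ψ : Pr w z → Option (Fin 3 × ZMod 2)) (pp : Fin J → ℕ)
    (c : V2) : ℕ :=
  ((solF ψ 0).filter fun x => ¬ IsSquare (Dc c x.1 x.2.2.1 x.2.2.2) ∧
    ∀ i, bt (pp i) (Dc c x.1 x.2.2.1 x.2.2.2) = 0).card

theorem str_le {P : Par} (hP : P.Adm) {z T k : ℕ} (hz : 2 ≤ z) (hT : P.TZ z T) {x : ℕ × ℕ}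
    (hx : x ∈ SSk P z T k) :
    (dat z x.1 x.2 k).Str ≤ 1 +
      cntS (jn (stt P.w z x.1 x.2)) (fun i : Fin P.J => P.ppI z x.1 x.2 i) (1, 0) +
      cntS (jn (stt P.w z x.1 x.2)) (fun i : Fin P.J => P.ppI z x.1 x.2 i) (0, 1) := by
  classical
  have hF := fac hP hz hT (mem_filter.1 hx).1
  have hU := uufac hP hz hT hx
  set ψ := jn (stt P.w z x.1 x.2) with hψ
  set pp : Fin P.J → ℕ := fun i : Fin P.J => P.ppI z x.1 x.2 i with hpp
  set F1 := (solF ψ 0).filter fun y => ¬ IsSquare (Dc (1, 0) y.1 y.2.2.1 y.2.2.2) ∧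
    ∀ i, bt (pp i) (Dc (1, 0) y.1 y.2.2.1 y.2.2.2) = 0 with hF1
  set F2 := (solF ψ 0).filter fun y => ¬ IsSquare (Dc (0, 1) y.1 y.2.2.1 y.2.2.2) ∧
    ∀ i, bt (pp i) (Dc (0, 1) y.1 y.2.2.1 y.2.2.2) = 0 with hF2
  have hcs : cntS ψ pp (1, 0) = F1.card := rfl
  have hcs2 : cntS ψ pp (0, 1) = F2.card := rfl
  rw [hcs, hcs2]
  set W := {d : DD z x.1 x.2 // (∀ u, (dat z x.1 x.2 k).a u d = 0 ∧ (dat z x.1 x.2 k).y u d = 0) ∧
    (dat z x.1 x.2 k).yq d = 0 ∧ (dat z x.1 x.2 k).yr d = 0 ∧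
    (dat z x.1 x.2 k).aq d = (dat z x.1 x.2 k).ar d} with hW
  have hStr : (dat z x.1 x.2 k).Str = Nat.card W := rfl
  rw [hStr]
  have : Fintype W := Fintype.ofFinite W
  rw [Nat.card_eq_fintype_card]
  let g : W → (Pr P.w z → V2) × V2 × V2 × V2 := fun d =>
    (vv P.w z x.1 x.2 (d.1.1.1 (lpf x.1)) d.1.1, d.1.1.1 (lpf x.1),
      d.1.1.2.1 + d.1.1.1 (lpf x.1), d.1.1.2.2)
  have hHd : ∀ d : W, Hd P z x.1 x.2 k (d.1.1.1 (lpf x.1)) (fun _ => 0) d.1.1 := by
    intro d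
    refine ⟨(mem_DDQ.1 d.1.2).1, rfl, d.2.2.2.2.symm, fun j h1 h2 => ?_, fun i hi => ?_⟩
    · exact (d.2.1 ⟨j, h2⟩).1
    · exact (d.2.1 ⟨i, lt_of_lt_of_le hi hU.Jk⟩).1
  have hinj : Function.Injective g := by
    intro d d' h
    have h1 : vv P.w z x.1 x.2 (d.1.1.1 (lpf x.1)) d.1.1 =
        vv P.w z x.1 x.2 (d'.1.1.1 (lpf x.1)) d'.1.1 := congrArg (fun y => y.1) h
    have h2 : d.1.1.1 (lpf x.1) = d'.1.1.1 (lpf x.1) := congrArg (fun y => y.2.1) h
    have h3 : d.1.1.2.1 + d.1.1.1 (lpf x.1) = d'.1.1.2.1 + d'.1.1.1 (lpf x.1) :=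
      congrArg (fun y => y.2.2.1) h
    have h4 : d.1.1.2.2 = d'.1.1.2.2 := congrArg (fun y => y.2.2.2) h
    rw [← h2] at h3 h1
    have h5 := add_right_cancel h3
    have h6 := hHd d'
    rw [← h2] at h6
    exact Subtype.ext (Subtype.ext (conv_inj hP hz hT hx (hHd d) h6 h1 (Prod.ext h5 h4)))
  have hsol : ∀ d : W, g d ∈ solF ψ 0 := by
    intro d
    have h1 := (conv_sm hP hz hT hx (hHd d)).1 (mem_DDQ.1 d.1.2).2
    have h2 : (fun p : ℕ => ∑ i ∈ range P.J, bt p ((uu z x.1 x.2 i : ℕ) : ℤ) • (0 : V2)) = 0 := by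
      funext p
      simp
    rw [h2] at h1
    exact mem_filter.2 ⟨mem_univ _, h1⟩
  have hbt : ∀ (d : W) (c : V2) (i : Fin P.J), bt (pp i) (Dc c (g d).1 (g d).2.2.1 (g d).2.2.2) = 0 := by
    intro d c i
    have h1 := conv_pp hP hz hT hx (hHd d) i.2 rfl c
    have h2 : yL x.1 x.2 (uu z x.1 x.2 i) d.1.1 = 0 :=
      (d.2.1 ⟨i, lt_of_lt_of_le i.2 hU.Jk⟩).2
    have h3 : dot c 0 = 0 := by
      unfold dot
      simp
    rw [h2, h3] at h1
    simp only [mul_zero, sum_const_zero, add_zero] at h1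
    show bt (P.ppI z x.1 x.2 i) _ = 0
    rw [← hU.pp i i.2]
    exact h1.symm
  have hne : ∀ d : W, d.1.1 ≠ 0 → ¬ IsSquare (Dc (1, 0) (g d).1 (g d).2.2.1 (g d).2.2.2) ∨
      ¬ IsSquare (Dc (0, 1) (g d).1 (g d).2.2.1 (g d).2.2.2) := by
    intro d hd0
    by_contra hcon
    rw [not_or, not_not, not_not] at hcon
    have hw2 : 2 ≤ P.w := by
      have := hP.hw
      omega
    obtain ⟨s1, t1, v1⟩ := (sq_Dc hw2 _ _ _ _).1 hcon.1
    obtain ⟨s2, t2, v2⟩ := (sq_Dc hw2 _ _ _ _).1 hcon.2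
    have hz2 : ∀ y : V2, dot (1, 0) y = 0 → dot (0, 1) y = 0 → y = 0 := by
      intro y
      revert y
      unfold dot
      decide
    have hs0 : d.1.1.2.1 + d.1.1.1 (lpf x.1) = 0 := hz2 _ s1 s2
    have ht0 : d.1.1.2.2 = 0 := hz2 _ t1 t2
    have hv0 : ∀ p : Pr P.w z, vv P.w z x.1 x.2 (d.1.1.1 (lpf x.1)) d.1.1 p = 0 :=
      fun p => hz2 _ (v1 p) (v2 p)
    have hm := (mem_DDQ.1 d.1.2).1
    have hHdd := hHd d
    have hsame : d.1.1.2.1 = d.1.1.1 (lpf x.1) := by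
      have h1 : d.1.1.2.1 + d.1.1.1 (lpf x.1) + d.1.1.1 (lpf x.1) = d.1.1.1 (lpf x.1) := by
        rw [hs0, zero_add]
      rwa [add_assoc, v2_two, add_zero] at h1
    have ha1 : (d.1.1.1 (lpf x.1)).1 = 0 := by
      rw [← hsame]
      exact hm.2.1
    have hval : ∀ p ∈ oddP x.1 x.2, d.1.1.1 p =
        if p ∣ x.1 * x.2 then d.1.1.1 (lpf x.1) else 0 := by
      intro p hp
      have hp1 := hp
      rw [hF.odd, mem_union, mem_union, mem_insert, mem_singleton] at hp1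
      rcases hp1 with (h | h) | (h | h)
      · have h3 := hv0 ⟨p, v2_Pr hF h⟩
        unfold vv at h3
        by_cases h4 : p ∣ x.1 * x.2
        · rw [if_pos h4]
          rw [if_pos ⟨h, h4⟩] at h3
          have h5 : d.1.1.1 p + d.1.1.1 (lpf x.1) + d.1.1.1 (lpf x.1) = d.1.1.1 (lpf x.1) := by
            rw [h3, zero_add]
          rwa [add_assoc, v2_two, add_zero] at h5
        · rw [if_neg h4]
          rw [if_neg (fun h5 => h4 h5.2), add_zero] at h3
          exact h3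
      · obtain ⟨j, hj, rfl⟩ := hU.surj p h
        rw [if_neg]
        · exact (d.2.1 ⟨j, hj⟩).1
        · intro h4
          have hpr := hU.prime j hj
          have hdX := hU.dvd j hj
          have hcop : ¬ (uu z x.1 x.2 j ∣ x.1 ∧ uu z x.1 x.2 j ∣ x.2) := fun ⟨h1, h2⟩ =>
            hpr.one_lt.ne' (Nat.dvd_one.1 (hF.hok.hc ▸ Nat.dvd_gcd h1 h2))
          rcases (Nat.Prime.dvd_mul hpr).1 h4 with h5 | h5
          · exact hcop ⟨h5, (Nat.dvd_add_right h5).1 hdX⟩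
          · exact hcop ⟨(Nat.dvd_add_left h5).1 hdX, h5⟩
      · rw [h, if_pos (hF.dq.mul_right _)]
      · rw [h, if_pos (hF.dr.mul_left _)]
        exact hHdd.hr
    have hc2 : ∑ p ∈ oddP x.1 x.2, bt p (-1) * (d.1.1.1 p).2 + d.1.1.2.1.2 + d.1.1.2.2.1 = 0 :=
      hm.2.2.2.1
    have hsum : ∑ p ∈ oddP x.1 x.2, bt p (-1) * (d.1.1.1 p).2 = 0 := by
      have h1 : ∑ p ∈ oddP x.1 x.2, bt p (-1) * (d.1.1.1 p).2 =
          (∑ p ∈ (oddP x.1 x.2).filter (· ∣ x.1 * x.2), bt p (-1)) * (d.1.1.1 (lpf x.1)).2 := by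
        rw [sum_mul, sum_filter]
        refine sum_congr rfl fun p hp => ?_
        rw [hval p hp]
        split_ifs
        · rfl
        · simp
      rw [h1, v2_even hF, zero_mul]
    have ha2 : (d.1.1.1 (lpf x.1)).2 = 0 := by
      rw [hsum, ht0, hsame] at hc2
      simpa using hc2
    have ha : d.1.1.1 (lpf x.1) = 0 := Prod.ext ha1 ha2
    rw [ha] at hHdd
    have hH0 : Hd P z x.1 x.2 k 0 (fun _ => 0) (0 : EE) :=
      ⟨zero_mem _, rfl, rfl, fun _ _ _ => rfl, fun _ _ => rfl⟩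
    refine hd0 (conv_inj hP hz hT hx hHdd hH0 ?_ ?_)
    · funext p
      have h1 := hv0 p
      rw [ha] at h1
      rw [h1]
      unfold vv
      simp
    · rw [ha, add_zero] at hs0
      exact Prod.ext hs0 ht0
  have h0 : (0 : EE) ∈ DD z x.1 x.2 := zero_mem _
  let g0 : (Pr P.w z → V2) × V2 × V2 × V2 := (vv P.w z x.1 x.2 0 0, 0, 0 + 0, 0)
  have hcard : (univ : Finset W).card ≤ (insert g0 (F1 ∪ F2)).card := by
    refine card_le_card_of_injOn g (fun d _ => ?_) (fun d _ d' _ h => hinj h)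
    rw [mem_coe, mem_insert, mem_union]
    by_cases hd : d.1.1 = 0
    · left
      show (vv P.w z x.1 x.2 (d.1.1.1 (lpf x.1)) d.1.1, d.1.1.1 (lpf x.1),
        d.1.1.2.1 + d.1.1.1 (lpf x.1), d.1.1.2.2) = g0
      rw [hd]
      rfl
    · right
      rcases hne d hd with h | h
      · left
        exact mem_filter.2 ⟨hsol d, h, hbt d _⟩
      · right
        exact mem_filter.2 ⟨hsol d, h, hbt d _⟩
  rw [card_univ] at hcard
  have h2 := card_insert_le g0 (F1 ∪ F2)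
  have h3 := card_union_le F1 F2
  omega

end Pool.Agent.H77.K4
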