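import Pool.Agent.H77.K4.V1

/-!
# V3: `Km` and `K0`

`km_le`: for `t0 ≠ 0`, `x ∈ SSk`: `Km (MM J k) t0` is at most the sum over `α : Fin J → Bool` of the
number `cntK` of `(v,a,s,t) ∈ solF (jn (stt ..)) (hal pp α t0)` with
`bt (pp i) (Dc (J2 t0) v s t) = 0` for all `i` with `α i = false` (`pp i = ppI i`).

Proof. Let `d` be counted by `Km`; `a = aq d = ar d`, `α i` says whether `d.1 (uu i) = t0` (otherwise it
is `0`), `β i = t0` or `0`. `Hd` holds, `conv_sm` gives the membership in `solF` (the function `h` is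
`hal pp α t0` as `uu i = ppI i`). Injective: `conv_inj`, `β` is determined by `α`. For `α l = false`:
`y_l ∈ {0, t0}` gives `dot (J2 t0) y_l = 0` (`dot (J2 t0) t0 = 2 t0.1 t0.2 = 0`), and in `conv_pp` the sum
over `i` vanishes because `dot (J2 t0) (β i) = 0`. So `bt (uu l) (Dc (J2 t0) ..) = 0`.

`k0_le`: `K0 ≤ # solF (jn (stt ..)) 0` (`a = 0`, `β = 0`).

`card_solF`: `# solF ψ h ≤ 64 * # Sel F3.ty F3.N (Pr w z) ψ`: for fixed `(a, s, t)` (64 values) the
difference of two solutions `v` is in `Sel` (`ty_F3`, `VV none = CC none = univ`, `mat_N`; linearity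
of `lin`, `NN`; take `c = (1,0)`, `(0,1)`), so there are at most `# Sel` solutions. (`DecidableEq`
instances in `Sel` are classical.)
-/

set_option autoImplicit false

namespace Pool.Agent.H77.K4

open Finset Pool.Agent.H77.SV

open Classical in
/-- solutions for a given `α` -/
noncomputable def cntK {w z J : ℕ} (ψ : Pr w z → Option (Fin 3 × ZMod 2)) (pp : Fin J → ℕ)
    (t0 : V2) (α : Fin J → Bool) : Finset ((Pr w z → V2) × V2 × V2 × V2) :=
  (solF ψ (hal pp α t0)).filter fun x =>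
    ∀ i, α i = false → bt (pp i) (Dc (J2 t0) x.1 x.2.2.1 x.2.2.2) = 0

private lemma v3_v2self (a : V2) : a + a = 0 := by
  have h : ∀ b : ZMod 2, b + b = 0 := by decide
  exact Prod.ext (h a.1) (h a.2)

private lemma v3_card {α : Type} (s : Finset α) : Nat.card s = s.card := by
  rw [Nat.card_eq_fintype_card, Fintype.card_coe]

private lemma v3_dotJ (t : V2) : dot (J2 t) t = 0 := by
  revert t
  decide

private lemma v3_dot0 (c : V2) : dot c 0 = 0 := by
  simp [dot]

private lemma v3_NN_add (τ : Fin 3) (ε : ZMod 2) (v v' : V2) :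
    NN τ ε (v + v') = NN τ ε v + NN τ ε v' := by
  unfold NN
  split_ifs <;> ext <;> simp <;> ring

private lemma v3_lin_add (S : Finset ℕ) (v v' : S → V2) (p : S) :
    lin S (v + v') p = lin S v p + lin S v' p := by
  unfold lin
  rw [← sum_add_distrib]
  refine sum_congr rfl fun q _ => ?_
  rw [Pi.add_apply, smul_add]

theorem km_le {P : Par} (hP : P.Adm) {z T k : ℕ} (hz : 2 ≤ z) (hT : P.TZ z T) {x : ℕ × ℕ}
    (hx : x ∈ SSk P z T k) {t0 : V2} (h0 : t0 ≠ 0) :
    (dat z x.1 x.2 k).Km (MM P.J k) t0 ≤ ∑ α : Fin P.J → Bool,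
      (cntK (jn (stt P.w z x.1 x.2)) (fun i : Fin P.J => P.ppI z x.1 x.2 i) t0 α).card := by
  classical
  have hU := uufac hP hz hT hx
  rw [← Finset.card_sigma]
  unfold Dat.Km
  set Sg := (univ : Finset (Fin P.J → Bool)).sigma fun α =>
    cntK (jn (stt P.w z x.1 x.2)) (fun i : Fin P.J => P.ppI z x.1 x.2 i) t0 α with hSg
  -- the map
  let al : EE → (Fin P.J → Bool) := fun d i => decide (d.1 (uu z x.1 x.2 i) = t0)
  let be : (Fin P.J → Bool) → ℕ → V2 := fun α i =>
    if h : i < P.J then (if α ⟨i, h⟩ then t0 else 0) else 0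
  have key : ∀ d : {d : DD z x.1 x.2 //
      (∀ u, (u ∉ MM P.J k → (dat z x.1 x.2 k).a u d = 0) ∧
      ((dat z x.1 x.2 k).a u d = 0 ∨ (dat z x.1 x.2 k).a u d = t0) ∧
      ((dat z x.1 x.2 k).y u d = 0 ∨ (dat z x.1 x.2 k).y u d = t0)) ∧
      (dat z x.1 x.2 k).aq d = (dat z x.1 x.2 k).ar d ∧
      (dat z x.1 x.2 k).yq d = (dat z x.1 x.2 k).yr d ∧
      ((dat z x.1 x.2 k).yq d = 0 ∨ (dat z x.1 x.2 k).yq d = t0)},
      Hd P z x.1 x.2 k (d.1.1.1 (lpf x.1)) (be (al d.1.1)) d.1.1 := by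
    rintro ⟨⟨d, hd⟩, h1, h2, h3, h4⟩
    have ha : ∀ j (hj : j < k), d.1 (uu z x.1 x.2 j) = (dat z x.1 x.2 k).a ⟨j, hj⟩ ⟨d, hd⟩ :=
      fun j hj => rfl
    refine ⟨?_, rfl, ?_, ?_, ?_⟩
    · exact hd.1
    · exact h2.symm
    · intro j hj hjk
      rw [ha j hjk]
      apply (h1 ⟨j, hjk⟩).1
      simp only [MM, mem_filter, mem_univ, true_and, not_lt]
      exact hj
    · intro i hi
      have hik : i < k := lt_of_lt_of_le hi hU.Jk
      have h5 := (h1 ⟨i, hik⟩).2.1
      rw [← ha i hik] at h5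
      show d.1 (uu z x.1 x.2 i) = be (al d) i
      simp only [be, al, dif_pos hi, decide_eq_true_eq]
      split_ifs with h6
      · exact h6
      · rcases h5 with h5 | h5
        · exact h5
        · exact absurd h5 h6
  have hdb : ∀ (α : Fin P.J → Bool) (i : ℕ), dot (J2 t0) (be α i) = 0 := by
    intro α i
    simp only [be]
    split_ifs
    · exact v3_dotJ t0
    · exact v3_dot0 _
    · exact v3_dot0 _
  have hmem : ∀ d : {d : DD z x.1 x.2 //
      (∀ u, (u ∉ MM P.J k → (dat z x.1 x.2 k).a u d = 0) ∧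
      ((dat z x.1 x.2 k).a u d = 0 ∨ (dat z x.1 x.2 k).a u d = t0) ∧
      ((dat z x.1 x.2 k).y u d = 0 ∨ (dat z x.1 x.2 k).y u d = t0)) ∧
      (dat z x.1 x.2 k).aq d = (dat z x.1 x.2 k).ar d ∧
      (dat z x.1 x.2 k).yq d = (dat z x.1 x.2 k).yr d ∧
      ((dat z x.1 x.2 k).yq d = 0 ∨ (dat z x.1 x.2 k).yq d = t0)},
      (⟨al d.1.1, (vv P.w z x.1 x.2 (d.1.1.1 (lpf x.1)) d.1.1, d.1.1.1 (lpf x.1),
        d.1.1.2.1 + d.1.1.1 (lpf x.1), d.1.1.2.2)⟩ :
        (_ : Fin P.J → Bool) × ((Pr P.w z → V2) × V2 × V2 × V2)) ∈ Sg := by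
    intro d
    have hHd := key d
    obtain ⟨⟨d, hd⟩, h1, h2, h3, h4⟩ := d
    rw [hSg, mem_sigma]
    refine ⟨mem_univ _, ?_⟩
    have hsol := (conv_sm hP hz hT hx hHd).1 ?_
    swap
    · intro p hp
      have h5 := hd.2
      rw [SetLike.mem_coe, Submodule.mem_iInf] at h5
      have h6 := h5 p
      rw [Submodule.mem_iInf] at h6
      exact LinearMap.mem_ker.1 (h6 hp)
    have hhal : (fun p => ∑ i ∈ range P.J, bt p ((uu z x.1 x.2 i : ℕ) : ℤ) • be (al d) i) =
        hal (fun i : Fin P.J => P.ppI z x.1 x.2 i) (al d) t0 := by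
      funext p
      rw [hal, Finset.sum_range]
      refine sum_congr rfl fun i _ => ?_
      rw [hU.pp i i.2]
      simp only [be, dif_pos i.2, Fin.eta]
      split_ifs
      · rfl
      · rw [smul_zero]
    rw [hhal] at hsol
    unfold cntK solF
    simp only [mem_filter, mem_univ, true_and]
    refine ⟨hsol, ?_⟩
    intro i hi
    have hβ : be (al d) i = 0 := by
      simp only [be, dif_pos i.2, Fin.eta]
      rw [if_neg]
      rw [hi]
      exact Bool.false_ne_true
    have h5 := conv_pp hP hz hT hx hHd i.2 hβ (J2 t0)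
    simp only [hdb, mul_zero, sum_const_zero, add_zero] at h5
    have hik : (i : ℕ) < k := lt_of_lt_of_le i.2 hU.Jk
    have h6 := (h1 ⟨i, hik⟩).2.2
    have h7 : (dat z x.1 x.2 k).y ⟨i, hik⟩ ⟨d, hd⟩ = yL x.1 x.2 (uu z x.1 x.2 i) d := rfl
    rw [h7] at h6
    have h8 : dot (J2 t0) (yL x.1 x.2 (uu z x.1 x.2 i) d) = 0 := by
      rcases h6 with h6 | h6
      · rw [h6]
        exact v3_dot0 _
      · rw [h6]
        exact v3_dotJ t0
    rw [h8, hU.pp i i.2] at h5
    exact h5.symm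
  have hcard := Nat.card_le_card_of_injective
    (fun d => (⟨_, hmem d⟩ : Sg)) ?_
  · rw [v3_card] at hcard
    exact hcard
  · intro d d' h
    have hHd := key d
    have hHd' := key d'
    have h1 := congrArg Subtype.val h
    simp only [Sigma.mk.injEq, heq_eq_eq, Prod.mk.injEq] at h1
    obtain ⟨e1, e2, e3, e4, e5⟩ := h1
    apply Subtype.ext
    apply Subtype.ext
    rw [← e1, ← e3] at hHd'
    refine conv_inj hP hz hT hx hHd hHd' ?_ ?_
    · rw [e2, ← e3]
    · refine Prod.ext ?_ e5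
      rw [← e3] at e4
      exact add_right_cancel e4

theorem k0_le {P : Par} (hP : P.Adm) {z T k : ℕ} (hz : 2 ≤ z) (hT : P.TZ z T) {x : ℕ × ℕ}
    (hx : x ∈ SSk P z T k) :
    (dat z x.1 x.2 k).K0 ≤ (solF (jn (stt P.w z x.1 x.2)) 0).card := by
  classical
  have hU := uufac hP hz hT hx
  unfold Dat.K0
  have key : ∀ d : {d : DD z x.1 x.2 // (∀ u, (dat z x.1 x.2 k).a u d = 0) ∧
      (dat z x.1 x.2 k).aq d = 0 ∧ (dat z x.1 x.2 k).ar d = 0},
      Hd P z x.1 x.2 k 0 (fun _ => 0) d.1.1 := by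
    rintro ⟨⟨d, hd⟩, h1, h2, h3⟩
    refine ⟨hd.1, h2, h3, ?_, ?_⟩
    · intro j hj hjk
      exact h1 ⟨j, hjk⟩
    · intro i hi
      exact h1 ⟨i, lt_of_lt_of_le hi hU.Jk⟩
  have hmem : ∀ d : {d : DD z x.1 x.2 // (∀ u, (dat z x.1 x.2 k).a u d = 0) ∧
      (dat z x.1 x.2 k).aq d = 0 ∧ (dat z x.1 x.2 k).ar d = 0},
      (vv P.w z x.1 x.2 0 d.1.1, (0 : V2), d.1.1.2.1 + 0, d.1.1.2.2) ∈
        solF (jn (stt P.w z x.1 x.2)) 0 := by
    intro d
    have hHd := key d
    obtain ⟨⟨d, hd⟩, h1, h2, h3⟩ := d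
    have hsol := (conv_sm hP hz hT hx hHd).1 ?_
    swap
    · intro p hp
      have h5 := hd.2
      rw [SetLike.mem_coe, Submodule.mem_iInf] at h5
      have h6 := h5 p
      rw [Submodule.mem_iInf] at h6
      exact LinearMap.mem_ker.1 (h6 hp)
    have hhal : (fun p => ∑ i ∈ range P.J, bt p ((uu z x.1 x.2 i : ℕ) : ℤ) • (0 : V2)) =
        (0 : ℕ → V2) := by
      funext p
      simp
    rw [hhal] at hsol
    unfold solF
    simp only [mem_filter, mem_univ, true_and]
    exact hsol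
  have hcard := Nat.card_le_card_of_injective
    (fun d => (⟨_, hmem d⟩ : (solF (jn (stt P.w z x.1 x.2)) 0 :
      Finset ((Pr P.w z → V2) × V2 × V2 × V2)))) ?_
  · rw [v3_card] at hcard
    exact hcard
  · intro d d' h
    have h1 := congrArg Subtype.val h
    simp only [Prod.mk.injEq] at h1
    obtain ⟨e2, -, e4, e5⟩ := h1
    apply Subtype.ext
    apply Subtype.ext
    refine conv_inj hP hz hT hx (key d) (key d') e2 ?_
    exact Prod.ext (add_right_cancel e4) e5

private lemma v3_Sel {w z : ℕ} (ψ : Pr w z → Option (Fin 3 × ZMod 2)) {v : Pr w z → V2}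
    (hv : ∀ p : Pr w z, match ψ p with
      | none => v p = 0
      | some x => lin (Pr w z) v p = x.2 • v p + NN x.1 (bt p (-1)) (v p)) :
    v ∈ Sel F3.ty F3.N (Pr w z) ψ := by
  classical
  unfold Sel
  rw [mem_filter]
  refine ⟨mem_univ _, fun p => ?_⟩
  have h := hv p
  unfold LocC
  cases hψ : ψ p with
  | none =>
    rw [hψ] at h
    exact h
  | some x =>
    rw [hψ] at h
    simp only at h ⊢
    rw [ty_F3]
    refine ⟨mem_univ _, fun c _ => ?_⟩
    rw [mat_N, h]
    simp only [dot, Prod.fst_add, Prod.snd_add, Prod.smul_fst, Prod.smul_snd, smul_eq_mul]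
    ring

theorem card_solF {w z : ℕ} (ψ : Pr w z → Option (Fin 3 × ZMod 2)) (h : ℕ → V2) :
    (solF ψ h).card ≤ 64 * (Sel F3.ty F3.N (Pr w z) ψ).card := by
  classical
  have h64 : (univ : Finset (V2 × V2 × V2)).card = 64 := by
    rw [Finset.card_univ]
    rfl
  rw [Finset.card_eq_sum_card_fiberwise (f := Prod.snd) (t := univ) fun _ _ => mem_univ _]
  refine (Finset.sum_le_card_nsmul univ _ (Sel F3.ty F3.N (Pr w z) ψ).card fun y _ => ?_).trans ?_
  swap
  · rw [h64, smul_eq_mul]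
  rcases Finset.eq_empty_or_nonempty ((solF ψ h).filter fun x => x.2 = y) with he | ⟨u, hu⟩
  · rw [he, card_empty]
    exact Nat.zero_le _
  · refine Finset.card_le_card_of_injOn (fun x => x.1 + u.1) ?_ ?_
    · intro x hx
      rw [mem_coe, mem_filter] at hx
      rw [mem_filter] at hu
      obtain ⟨hx1, hx2⟩ := hx
      obtain ⟨hu1, hu2⟩ := hu
      rw [solF, mem_filter] at hx1 hu1
      obtain ⟨-, hx1⟩ := hx1
      obtain ⟨-, hu1⟩ := hu1
      rw [hx2] at hx1
      rw [hu2] at hu1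
      refine v3_Sel ψ fun p => ?_
      have h1 := hx1 p
      have h2 := hu1 p
      cases hψ : ψ p with
      | none =>
        rw [hψ] at h1 h2
        simp only at h1 h2 ⊢
        rw [Pi.add_apply, h1, h2, add_zero]
      | some τ =>
        rw [hψ] at h1 h2
        simp only at h1 h2 ⊢
        have h3 := congrArg₂ (· + ·) h1 h2
        rw [Pi.add_apply, v3_NN_add, v3_lin_add, smul_add]
        have h4 : ∀ a b c d e f : V2, (a + c + d + e + f) + (b + c + d + e + f) = a + b := by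
          intro a b c d e f
          have : (a + c + d + e + f) + (b + c + d + e + f) =
            a + b + ((c + c) + (d + d) + (e + e) + (f + f)) := by abel
          rw [this, v3_v2self c, v3_v2self d, v3_v2self e, v3_v2self f]
          simp
        rw [h4] at h3
        rw [h3]
        abel
    · intro x hx x' hx' hxx
      rw [mem_coe, mem_filter] at hx hx'
      refine Prod.ext (add_right_cancel hxx) ?_
      rw [hx.2, hx'.2]

end Pool.Agent.H77.K4
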