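import Mathlib

/-!
# V4: rank and corank

For a matrix `M` over `F_2` with rows `R` and columns `C`:
`#(ker M) * 2^#R = #(ker M^T) * 2^#C`. Proof: `# ker M = 2^(#C - rank M)`, `# ker M^T =
2^(#R - rank M)` (`Matrix.rank_transpose`, rank-nullity,
`Module.card_eq_pow_finrank`).
-/

set_option autoImplicit false

namespace Pool.Agent.H77.K4

open Finset

private lemma v4_card {R C : Type} [Fintype R] [Fintype C] [DecidableEq R] [DecidableEq C]
    (A : Matrix R C (ZMod 2)) :
    (univ.filter fun x : C → ZMod 2 => ∀ r, ∑ c, A r c * x c = 0).card * 2 ^ A.rank =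
      2 ^ Fintype.card C := by
  have h1 : (univ.filter fun x : C → ZMod 2 => ∀ r, ∑ c, A r c * x c = 0).card =
      Nat.card (LinearMap.ker A.mulVecLin) := by
    rw [← Fintype.card_subtype, ← Nat.card_eq_fintype_card]
    refine Nat.card_congr (Equiv.subtypeEquivRight fun x => ?_)
    rw [LinearMap.mem_ker, Matrix.mulVecLin_apply, funext_iff]
    rfl
  have h2 : Nat.card (LinearMap.ker A.mulVecLin) =
      2 ^ Module.finrank (ZMod 2) (LinearMap.ker A.mulVecLin) := by
    rw [Module.natCard_eq_pow_finrank (K := ZMod 2) (V := LinearMap.ker A.mulVecLin),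
      Nat.card_zmod]
  have h3 : Module.finrank (ZMod 2) (LinearMap.range A.mulVecLin) +
      Module.finrank (ZMod 2) (LinearMap.ker A.mulVecLin) = Fintype.card C := by
    rw [LinearMap.finrank_range_add_finrank_ker, Module.finrank_fintype_fun_eq_card]
  have h4 : A.rank = Module.finrank (ZMod 2) (LinearMap.range A.mulVecLin) := rfl
  rw [h1, h2, ← pow_add, h4, add_comm, h3]

theorem card_ker {R C : Type} [Fintype R] [Fintype C] [DecidableEq R] [DecidableEq C]
    (M : R → C → ZMod 2) :
    (univ.filter fun x : C → ZMod 2 => ∀ r, ∑ c, M r c * x c = 0).card * 2 ^ Fintype.card R =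
      (univ.filter fun y : R → ZMod 2 => ∀ c, ∑ r, y r * M r c = 0).card * 2 ^ Fintype.card C := by
  have h1 := v4_card (Matrix.of M)
  have h2 := v4_card (Matrix.of M).transpose
  rw [Matrix.rank_transpose] at h2
  simp only [Matrix.transpose_apply, Matrix.of_apply] at h1 h2
  have h3 : (univ.filter fun y : R → ZMod 2 => ∀ c, ∑ r, y r * M r c = 0) =
      univ.filter fun y : R → ZMod 2 => ∀ c, ∑ r, M r c * y r = 0 := by
    refine Finset.filter_congr fun y _ => ?_
    simp only [mul_comm]
  rw [h3, ← h1, ← h2]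
  ring

end Pool.Agent.H77.K4
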