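import Pool.Agent.H77.K4.Defs3
import Pool.Agent.H77.K4.B1
import Pool.Agent.H77.K4.V4
import Pool.Agent.H77.SV.Lc

/-!
# V5: the homogeneous group and its dual

`w ≥ 2`, `ψ : Pr w z → Option ..`, `t0 ≠ 0`, `pp i` distinct odd primes which are not in `Pr w z`.
`Phs ψ t0 pp`: the set of `(δ, e1, e2, α)`, `δ : Pr w z → F_2`, `e1, e2 ∈ F_2`, `α : Fin J → F_2`, such
that `δ p = 0` if `ψ p = none` or `Fo ψ t0 p`, and for every `p` with `ψ p = some x`:
`sum_(q ≠ p) [q/p] δ q + e1 [-1/p] + e2 [2/p] + sum_i α i [pp i/p] = δ p (x.2 + nn t0 x.1 [-1/p])`.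

Claim `card_Phs`: `# Phs * 2^(n3 ψ t0) = 2^(J + 2) * # R0s ψ t0 pp`.

Proof. Let `R = {p : ψ p ≠ none}` (rows) and `C = {p ∈ R : not Fo} ⊕ {-1, 2} ⊕ Fin J` (columns); `Phs` is
the kernel of the matrix with the coefficients of the equations, `# C = # R - n3 + 2 + J`. By V4
`# Phs * 2^#R = # (left kernel) * 2^(#R - n3 + 2 + J)`. The left kernel consists of the `α` on `R` with
(column `-1`) `sum α_p [-1/p] = 0`, (column `2`) `sum α_p [2/p] = 0`,
(column `p' ∈ R`, not `Fo`) `sum_(p ≠ p') α_p [p'/p] + α_p' (ρ + nn ε') = 0`, `ε' = [-1/p']`,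
(column `i`) `sum α_p [pp i/p] = 0`. By `bt_qr` `[p'/p] = [p/p'] + [-1/p] ε'`, so with the first
condition `sum_(p ≠ p') α_p [p'/p] = sum_(p ≠ p') α_p [p/p'] + ε' (α_p' ε')`; this gives the
condition in `R0s`; and `sum α_p [pp i/p] = sum α_p [p/pp i] + [-1/pp i] * 0 = bt (pp i) (Da α)`
(`bt_prod`). So the left kernel is `R0s`.
-/

set_option autoImplicit false

namespace Pool.Agent.H77.K4

open Finset Pool.Agent.H77.SV

open Classical in
/-- the homogeneous group -/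
noncomputable def Phs {w z J : ℕ} (ψ : Pr w z → Option (Fin 3 × ZMod 2)) (t0 : V2)
    (pp : Fin J → ℕ) : Finset ((Pr w z → ZMod 2) × ZMod 2 × ZMod 2 × (Fin J → ZMod 2)) :=
  univ.filter fun x =>
    (∀ p, ψ p = none ∨ Fo ψ t0 p → x.1 p = 0) ∧
    ∀ p y, ψ p = some y →
      ∑ q ∈ univ.erase p, bt (p : ℕ) ((q : ℕ) : ℤ) * x.1 q + x.2.1 * bt p (-1) +
        x.2.2.1 * bt p 2 + ∑ i, x.2.2.2 i * bt (p : ℕ) ((pp i : ℕ) : ℤ) =
        x.1 p * (y.2 + nn t0 y.1 * bt p (-1))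

private theorem sum_sub {ι : Type} [Fintype ι] (P : ι → Prop) [Fintype {p // P p}] (f : ι → ZMod 2)
    (h : ∀ p, ¬ P p → f p = 0) : ∑ c : {p // P p}, f c.1 = ∑ p, f p := by
  classical
  rw [← Finset.sum_subtype (univ.filter P) (by simp) f]
  refine Finset.sum_filter_of_ne fun x _ hx => ?_
  by_contra hP
  exact hx (h x hP)

/-- the diagonal entries -/
private def gg {w z : ℕ} (ψ : Pr w z → Option (Fin 3 × ZMod 2)) (t0 : V2) (p : Pr w z) : ZMod 2 :=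
  match ψ p with
  | none => 0
  | some y => y.2 + nn t0 y.1 * bt (p : ℕ) (-1)

private theorem gg_some {w z : ℕ} {ψ : Pr w z → Option (Fin 3 × ZMod 2)} {t0 : V2} {p : Pr w z}
    {y : Fin 3 × ZMod 2} (h : ψ p = some y) : gg ψ t0 p = y.2 + nn t0 y.1 * bt (p : ℕ) (-1) := by
  simp only [gg, h]

open Classical in
/-- the matrix -/
private noncomputable def Mt {w z J : ℕ} (ψ : Pr w z → Option (Fin 3 × ZMod 2)) (t0 : V2)
    (pp : Fin J → ℕ) (r : {p : Pr w z // ψ p ≠ none}) :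
    ({p : Pr w z // ψ p ≠ none ∧ ¬ Fo ψ t0 p} ⊕ ((Unit ⊕ Unit) ⊕ Fin J)) → ZMod 2
  | Sum.inl c => if c.1 = r.1 then gg ψ t0 r.1 else bt (r.1 : ℕ) ((c.1 : ℕ) : ℤ)
  | Sum.inr (Sum.inl (Sum.inl _)) => bt (r.1 : ℕ) (-1)
  | Sum.inr (Sum.inl (Sum.inr _)) => bt (r.1 : ℕ) 2
  | Sum.inr (Sum.inr i) => bt (r.1 : ℕ) ((pp i : ℕ) : ℤ)

private theorem z2 {a b : ZMod 2} : a = b ↔ a + b = 0 := by
  revert a b; decide

private theorem z3 (a : ZMod 2) : a * a = a := by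
  revert a; decide

private theorem z4 (a : ZMod 2) : a + a = 0 := by
  revert a; decide

open Classical in
private theorem mem_Phs' {w z J : ℕ} (ψ : Pr w z → Option (Fin 3 × ZMod 2)) (t0 : V2)
    (pp : Fin J → ℕ) (x : (Pr w z → ZMod 2) × ZMod 2 × ZMod 2 × (Fin J → ZMod 2)) :
    x ∈ Phs ψ t0 pp ↔ (∀ p, ¬ (ψ p ≠ none ∧ ¬ Fo ψ t0 p) → x.1 p = 0) ∧
      ∀ p, ψ p ≠ none → ∑ q ∈ univ.erase p, bt (p : ℕ) ((q : ℕ) : ℤ) * x.1 q + x.2.1 * bt p (-1) +
        x.2.2.1 * bt p 2 + ∑ i, x.2.2.2 i * bt (p : ℕ) ((pp i : ℕ) : ℤ) = x.1 p * gg ψ t0 p := by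
  unfold Phs
  rw [mem_filter]
  constructor
  · rintro ⟨-, h1, h2⟩
    refine ⟨fun p hp => h1 p ?_, fun p hp => ?_⟩
    · by_contra hc
      rw [not_or] at hc
      exact hp hc
    · obtain ⟨y, hy⟩ := Option.ne_none_iff_exists'.1 hp
      rw [gg_some hy]
      exact h2 p y hy
  · rintro ⟨h1, h2⟩
    refine ⟨mem_univ _, fun p hp => h1 p ?_, fun p y hy => ?_⟩
    · rintro ⟨h3, h4⟩
      exact hp.elim h3 h4
    · rw [← gg_some hy]
      exact h2 p (by rw [hy]; exact Option.some_ne_none y)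

open Classical in
private theorem row_sum {w z J : ℕ} (ψ : Pr w z → Option (Fin 3 × ZMod 2)) (t0 : V2)
    (pp : Fin J → ℕ) (δ : Pr w z → ZMod 2) (e1 e2 : ZMod 2) (α : Fin J → ZMod 2)
    (hδ : ∀ p, ¬ (ψ p ≠ none ∧ ¬ Fo ψ t0 p) → δ p = 0) (r : {p : Pr w z // ψ p ≠ none}) :
    ∑ c, Mt ψ t0 pp r c *
      (Sum.elim (fun c => δ c.1) (Sum.elim (Sum.elim (fun _ => e1) (fun _ => e2)) α) :
        ({p : Pr w z // ψ p ≠ none ∧ ¬ Fo ψ t0 p} ⊕ ((Unit ⊕ Unit) ⊕ Fin J)) → ZMod 2) c =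
      ∑ q ∈ univ.erase r.1, bt (r.1 : ℕ) ((q : ℕ) : ℤ) * δ q + e1 * bt r.1 (-1) +
        e2 * bt r.1 2 + ∑ i, α i * bt (r.1 : ℕ) ((pp i : ℕ) : ℤ) + δ r.1 * gg ψ t0 r.1 := by
  rw [Fintype.sum_sum_type, Fintype.sum_sum_type, Fintype.sum_sum_type]
  simp only [Mt, Sum.elim_inl, Sum.elim_inr, Finset.univ_unique, Finset.sum_singleton]
  have h1 : ∑ c : {p : Pr w z // ψ p ≠ none ∧ ¬ Fo ψ t0 p},
      (if c.1 = r.1 then gg ψ t0 r.1 else bt (r.1 : ℕ) ((c.1 : ℕ) : ℤ)) * δ c.1 =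
      ∑ q ∈ univ.erase r.1, bt (r.1 : ℕ) ((q : ℕ) : ℤ) * δ q + δ r.1 * gg ψ t0 r.1 := by
    rw [sum_sub (fun p => ψ p ≠ none ∧ ¬ Fo ψ t0 p)
      (fun q => (if q = r.1 then gg ψ t0 r.1 else bt (r.1 : ℕ) ((q : ℕ) : ℤ)) * δ q)
      (fun p hp => by simp only [hδ p hp, mul_zero])]
    rw [← Finset.sum_erase_add _ _ (Finset.mem_univ r.1)]
    congr 1
    · refine Finset.sum_congr rfl fun q hq => ?_
      rw [if_neg (Finset.ne_of_mem_erase hq)]
    · rw [if_pos rfl, mul_comm]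
  rw [h1]
  simp only [mul_comm (bt (r.1 : ℕ) (-1)), mul_comm (bt (r.1 : ℕ) 2)]
  have h2 : ∑ i, bt (r.1 : ℕ) ((pp i : ℕ) : ℤ) * α i = ∑ i, α i * bt (r.1 : ℕ) ((pp i : ℕ) : ℤ) :=
    Finset.sum_congr rfl fun i _ => mul_comm _ _
  rw [h2]
  ring

open Classical in
private theorem card_A {w z J : ℕ} (ψ : Pr w z → Option (Fin 3 × ZMod 2)) (t0 : V2)
    (pp : Fin J → ℕ) :
    (univ.filter fun x : ({p : Pr w z // ψ p ≠ none ∧ ¬ Fo ψ t0 p} ⊕ ((Unit ⊕ Unit) ⊕ Fin J)) →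
      ZMod 2 => ∀ r, ∑ c, Mt ψ t0 pp r c * x c = 0).card = (Phs ψ t0 pp).card := by
  refine Finset.card_nbij'
    (fun x => (fun p => if h : ψ p ≠ none ∧ ¬ Fo ψ t0 p then x (Sum.inl ⟨p, h⟩) else 0,
      x (Sum.inr (Sum.inl (Sum.inl ()))), x (Sum.inr (Sum.inl (Sum.inr ()))),
      fun i => x (Sum.inr (Sum.inr i))))
    (fun y => Sum.elim (fun c => y.1 c.1) (Sum.elim (Sum.elim (fun _ => y.2.1) (fun _ => y.2.2.1))
      y.2.2.2)) ?_ ?_ ?_ ?_
  · intro x hx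
    rw [Finset.mem_coe, mem_filter] at hx
    rw [Finset.mem_coe, mem_Phs']
    have hδ : ∀ p, ¬ (ψ p ≠ none ∧ ¬ Fo ψ t0 p) →
        (if h : ψ p ≠ none ∧ ¬ Fo ψ t0 p then x (Sum.inl ⟨p, h⟩) else 0) = 0 :=
      fun p hp => dif_neg hp
    refine ⟨hδ, fun p hp => ?_⟩
    rw [z2, ← row_sum ψ t0 pp _ _ _ _ hδ ⟨p, hp⟩, ← hx.2 ⟨p, hp⟩]
    refine Finset.sum_congr rfl fun c _ => ?_
    congr 1
    rcases c with c | (c | c) | i
    · simp only [Sum.elim_inl]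
      exact dif_pos c.2
    · rfl
    · rfl
    · rfl
  · intro y hy
    rw [Finset.mem_coe, mem_Phs'] at hy
    rw [Finset.mem_coe, mem_filter]
    refine ⟨mem_univ _, fun r => ?_⟩
    rw [row_sum ψ t0 pp y.1 y.2.1 y.2.2.1 y.2.2.2 hy.1 r, hy.2 r.1 r.2]
    exact z4 _
  · intro x hx
    funext c
    rcases c with c | (c | c) | i
    · simp only [Sum.elim_inl]
      exact dif_pos c.2
    · rfl
    · rfl
    · rfl
  · intro y hy
    rw [Finset.mem_coe, mem_Phs'] at hy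
    refine Prod.ext (funext fun p => ?_) rfl
    by_cases h : ψ p ≠ none ∧ ¬ Fo ψ t0 p
    · simp only [dif_pos h, Sum.elim_inl]
    · simp only [dif_neg h]
      exact (hy.1 p h).symm

private theorem prOdd {w z : ℕ} (hw : 2 ≤ w) (p : Pr w z) : (p : ℕ).Prime ∧ (p : ℕ) ≠ 2 ∧
    (p : ℕ) ≤ z := by
  have := p.2
  unfold Pr at this
  rw [mem_filter, mem_Ioc] at this
  exact ⟨this.2, by omega, this.1.2⟩

open Classical in
private theorem bt_Da {w z : ℕ} (hw : 2 ≤ w) {u : ℕ} (hu : u.Prime) (hz : z < u)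
    (α : Pr w z → ZMod 2) : bt u (Da α) = ∑ p, α p * bt u ((p : ℕ) : ℤ) := by
  have key : ∀ S : Finset (Pr w z),
      bt u (∏ p ∈ S, (if α p = 1 then ((p : ℕ) : ℤ) else 1)) = ∑ p ∈ S, α p * bt u ((p : ℕ) : ℤ) ∧
        ¬ (u : ℤ) ∣ ∏ p ∈ S, (if α p = 1 then ((p : ℕ) : ℤ) else 1) := by
    intro S
    induction S using Finset.induction_on with
    | empty =>
      rw [Finset.prod_empty, Finset.sum_empty]
      refine ⟨bt_one u, fun h => ?_⟩
      have := Int.natAbs_dvd_natAbs.2 h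
      simp only [Int.natAbs_natCast, Int.natAbs_one, Nat.dvd_one] at this
      exact hu.one_lt.ne' this
    | insert a S ha ih =>
      rw [Finset.prod_insert ha, Finset.sum_insert ha]
      have hnd : ¬ (u : ℤ) ∣ (if α a = 1 then ((a : ℕ) : ℤ) else 1) := by
        split_ifs
        · intro h
          have h1 := Int.natCast_dvd_natCast.1 h
          have h2 := (Nat.prime_dvd_prime_iff_eq hu (prOdd hw a).1).1 h1
          have h3 := (prOdd hw a).2.2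
          omega
        · intro h
          have := Int.natAbs_dvd_natAbs.2 h
          simp only [Int.natAbs_natCast, Int.natAbs_one, Nat.dvd_one] at this
          exact hu.one_lt.ne' this
      refine ⟨?_, ?_⟩
      · rw [bt_mul hu hnd ih.2, ih.1]
        congr 1
        by_cases h : α a = 1
        · rw [if_pos h, h, one_mul]
        · rw [if_neg h, bt_one]
          have : α a = 0 := by
            have h0 : ∀ t : ZMod 2, t ≠ 1 → t = 0 := by decide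
            exact h0 _ h
          rw [this, zero_mul]
      · intro h
        rcases (Int.Prime.dvd_mul' hu h) with h | h
        · exact hnd h
        · exact ih.2 h
  exact (key univ).1

open Classical in
private theorem mem_R0 {w z J : ℕ} (hw : 2 ≤ w) (ψ : Pr w z → Option (Fin 3 × ZMod 2)) (t0 : V2)
    (pp : Fin J → ℕ) (hpp : ∀ i, (pp i).Prime ∧ z < pp i) (α : Pr w z → ZMod 2) :
    α ∈ R0s ψ t0 pp ↔ (∀ p, ¬ ψ p ≠ none → α p = 0) ∧
      ∀ c, ∑ r : {p : Pr w z // ψ p ≠ none}, α r.1 * Mt ψ t0 pp r c = 0 := by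
  unfold R0s
  rw [mem_filter]
  have hsum : ∀ (f : Pr w z → ZMod 2), (∀ p, ¬ ψ p ≠ none → α p = 0) →
      ∑ r : {p : Pr w z // ψ p ≠ none}, α r.1 * f r.1 = ∑ p, α p * f p := by
    intro f h
    exact sum_sub (fun p => ψ p ≠ none) (fun p => α p * f p) (fun p hp => by
      simp only [h p hp, zero_mul])
  have hcol : (∀ p, ¬ ψ p ≠ none → α p = 0) → ∑ p, α p * bt (p : ℕ) (-1) = 0 →
      ∀ p : Pr w z, ∑ r : {p : Pr w z // ψ p ≠ none},
        α r.1 * (if p = r.1 then gg ψ t0 r.1 else bt (r.1 : ℕ) ((p : ℕ) : ℤ)) =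
        ∑ q ∈ univ.erase p, α q * bt (p : ℕ) ((q : ℕ) : ℤ) +
          α p * (gg ψ t0 p + bt (p : ℕ) (-1)) := by
    intro h0 h1 p
    rw [hsum (fun q => if p = q then gg ψ t0 q else bt (q : ℕ) ((p : ℕ) : ℤ)) h0,
      ← Finset.sum_erase_add _ _ (Finset.mem_univ p), if_pos rfl]
    rw [← Finset.sum_erase_add _ _ (Finset.mem_univ p)] at h1
    have h2 : ∑ x ∈ univ.erase p, α x * (if p = x then gg ψ t0 x else bt (x : ℕ) ((p : ℕ) : ℤ)) =
        ∑ q ∈ univ.erase p, α q * bt (p : ℕ) ((q : ℕ) : ℤ) +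
          (∑ q ∈ univ.erase p, α q * bt (q : ℕ) (-1)) * bt (p : ℕ) (-1) := by
      rw [Finset.sum_mul, ← Finset.sum_add_distrib]
      refine Finset.sum_congr rfl fun q hq => ?_
      have hne : q ≠ p := Finset.ne_of_mem_erase hq
      rw [if_neg (fun h => hne h.symm)]
      have := bt_qr (prOdd hw p).1 (prOdd hw q).1 (prOdd hw p).2.1 (prOdd hw q).2.1
        (fun h => hne (Subtype.ext h.symm))
      have h3 : bt (q : ℕ) ((p : ℕ) : ℤ) = bt (p : ℕ) ((q : ℕ) : ℤ) +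
          bt (q : ℕ) (-1) * bt (p : ℕ) (-1) := by
        rw [mul_comm, ← this, ← add_assoc, z4, zero_add]
      rw [h3]
      ring
    rw [h2]
    have h4 : ∑ q ∈ univ.erase p, α q * bt (q : ℕ) (-1) = α p * bt (p : ℕ) (-1) := z2.2 h1
    rw [h4]
    have h5 : α p * bt (p : ℕ) (-1) * bt (p : ℕ) (-1) = α p * bt (p : ℕ) (-1) := by
      rw [mul_assoc, z3]
    rw [h5]
    ring
  have hpi : (∀ p, ¬ ψ p ≠ none → α p = 0) → ∑ p, α p * bt (p : ℕ) (-1) = 0 →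
      ∀ i, ∑ r : {p : Pr w z // ψ p ≠ none}, α r.1 * bt (r.1 : ℕ) ((pp i : ℕ) : ℤ) =
        bt (pp i) (Da α) := by
    intro h0 h1 i
    rw [hsum (fun q => bt (q : ℕ) ((pp i : ℕ) : ℤ)) h0, bt_Da hw (hpp i).1 (hpp i).2]
    have h2 : ∑ p, α p * bt (p : ℕ) ((pp i : ℕ) : ℤ) = ∑ p, α p * bt (pp i) ((p : ℕ) : ℤ) +
        (∑ p, α p * bt (p : ℕ) (-1)) * bt (pp i) (-1) := by
      rw [Finset.sum_mul, ← Finset.sum_add_distrib]
      refine Finset.sum_congr rfl fun q _ => ?_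
      have hq := prOdd hw q
      have hi := hpp i
      have hq2 := hq.1.two_le
      have := bt_qr hi.1 hq.1 (by omega) hq.2.1 (by omega)
      have h3 : bt (q : ℕ) ((pp i : ℕ) : ℤ) = bt (pp i) ((q : ℕ) : ℤ) +
          bt (q : ℕ) (-1) * bt (pp i) (-1) := by
        rw [mul_comm, ← this, ← add_assoc, z4, zero_add]
      rw [h3]
      ring
    rw [h2, h1, zero_mul, add_zero]
  constructor
  · rintro ⟨-, h0, h1, h2, h3, h4⟩
    have h0' : ∀ p, ¬ ψ p ≠ none → α p = 0 := fun p hp => h0 p (not_not.1 hp)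
    refine ⟨h0', ?_⟩
    rintro (c | (c | c) | i)
    · simp only [Mt]
      rw [hcol h0' h1 c.1, ← z2]
      obtain ⟨y, hy⟩ := Option.ne_none_iff_exists'.1 c.2.1
      rw [gg_some hy]
      exact h3 c.1 y hy c.2.2
    · simp only [Mt]
      rw [hsum (fun q => bt (q : ℕ) (-1)) h0']
      exact h1
    · simp only [Mt]
      rw [hsum (fun q => bt (q : ℕ) 2) h0']
      exact h2
    · simp only [Mt]
      rw [hpi h0' h1 i]
      exact h4 i
  · rintro ⟨h0, h⟩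
    have h1 := h (Sum.inr (Sum.inl (Sum.inl ())))
    have h2 := h (Sum.inr (Sum.inl (Sum.inr ())))
    simp only [Mt] at h1 h2
    rw [hsum (fun q => bt (q : ℕ) (-1)) h0] at h1
    rw [hsum (fun q => bt (q : ℕ) 2) h0] at h2
    refine ⟨mem_univ _, fun p hp => h0 p (not_not.2 hp), h1, h2, fun p y hy hF => ?_, fun i => ?_⟩
    · have h3 := h (Sum.inl ⟨p, by rw [hy]; exact Option.some_ne_none y, hF⟩)
      simp only [Mt] at h3
      rw [hcol h0 h1 p, ← z2, gg_some hy] at h3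
      exact h3
    · have h3 := h (Sum.inr (Sum.inr i))
      simp only [Mt] at h3
      rw [hpi h0 h1 i] at h3
      exact h3

open Classical in
private theorem card_B {w z J : ℕ} (hw : 2 ≤ w) (ψ : Pr w z → Option (Fin 3 × ZMod 2)) (t0 : V2)
    (pp : Fin J → ℕ) (hpp : ∀ i, (pp i).Prime ∧ z < pp i) :
    (univ.filter fun y : {p : Pr w z // ψ p ≠ none} → ZMod 2 =>
      ∀ c, ∑ r, y r * Mt ψ t0 pp r c = 0).card = (R0s ψ t0 pp).card := by
  refine Finset.card_nbij' (fun y p => if h : ψ p ≠ none then y ⟨p, h⟩ else 0)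
    (fun α r => α r.1) ?_ ?_ ?_ ?_
  · intro y hy
    rw [Finset.mem_coe, mem_filter] at hy
    rw [Finset.mem_coe, mem_R0 hw ψ t0 pp hpp]
    refine ⟨fun p hp => dif_neg hp, fun c => ?_⟩
    refine Eq.trans (Finset.sum_congr rfl fun r _ => ?_) (hy.2 c)
    congr 1
    exact dif_pos r.2
  · intro α hα
    rw [Finset.mem_coe, mem_R0 hw ψ t0 pp hpp] at hα
    rw [Finset.mem_coe, mem_filter]
    exact ⟨mem_univ _, hα.2⟩
  · intro y _
    funext r
    exact dif_pos r.2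
  · intro α hα
    rw [Finset.mem_coe, mem_R0 hw ψ t0 pp hpp] at hα
    funext p
    by_cases h : ψ p ≠ none
    · exact dif_pos h
    · exact (dif_neg h).trans (hα.1 p h).symm

theorem card_Phs {w z J : ℕ} (hw : 2 ≤ w) (ψ : Pr w z → Option (Fin 3 × ZMod 2)) (t0 : V2)
    (pp : Fin J → ℕ) (hpp : ∀ i, (pp i).Prime ∧ z < pp i) :
    (Phs ψ t0 pp).card * 2 ^ n3 ψ t0 = 2 ^ (J + 2) * (R0s ψ t0 pp).card := by
  classical
  have key := card_ker (Mt ψ t0 pp)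
  rw [card_A, card_B hw ψ t0 pp hpp] at key
  have hC : Fintype.card ({p : Pr w z // ψ p ≠ none ∧ ¬ Fo ψ t0 p} ⊕ ((Unit ⊕ Unit) ⊕ Fin J)) =
      Fintype.card {p : Pr w z // ψ p ≠ none ∧ ¬ Fo ψ t0 p} + (J + 2) := by
    rw [Fintype.card_sum, Fintype.card_sum, Fintype.card_sum, Fintype.card_fin]
    simp only [Fintype.card_unit]
    ring
  have hR : Fintype.card {p : Pr w z // ψ p ≠ none} =
      Fintype.card {p : Pr w z // ψ p ≠ none ∧ ¬ Fo ψ t0 p} + n3 ψ t0 := by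
    unfold n3
    rw [Fintype.card_subtype, Fintype.card_subtype, ← Finset.card_union_of_disjoint]
    · congr 1
      ext p
      simp only [mem_filter, mem_univ, true_and, mem_union]
      constructor
      · intro h
        by_cases hF : Fo ψ t0 p
        · exact Or.inr hF
        · exact Or.inl ⟨h, hF⟩
      · rintro (h | h)
        · exact h.1
        · obtain ⟨_, ρ, hρ⟩ := h
          rw [hρ]
          exact Option.some_ne_none _
    · rw [Finset.disjoint_left]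
      intro p hp hq
      rw [mem_filter] at hp hq
      exact hp.2.2 hq.2
  rw [hC, hR, pow_add, pow_add] at key
  have hpos : 0 < 2 ^ Fintype.card {p : Pr w z // ψ p ≠ none ∧ ¬ Fo ψ t0 p} := by positivity
  refine Nat.eq_of_mul_eq_mul_left hpos ?_
  calc 2 ^ Fintype.card {p : Pr w z // ψ p ≠ none ∧ ¬ Fo ψ t0 p} *
        ((Phs ψ t0 pp).card * 2 ^ n3 ψ t0) =
      (Phs ψ t0 pp).card * (2 ^ Fintype.card {p : Pr w z // ψ p ≠ none ∧ ¬ Fo ψ t0 p} *
        2 ^ n3 ψ t0) := by ring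
    _ = (R0s ψ t0 pp).card * (2 ^ Fintype.card {p : Pr w z // ψ p ≠ none ∧ ¬ Fo ψ t0 p} *
        2 ^ (J + 2)) := key
    _ = _ := by ring

end Pool.Agent.H77.K4
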