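import Pool.Agent.H77.K4.V5
import Pool.Agent.H77.K4.V3
import Pool.Agent.H77.K4.V2

/-!
# V6: the square part of `Km`, and the bound of the dual group by the Selmer group

`t0 ≠ 0`.

`sq_part`: `sum over α : Fin J → Bool of #{x ∈ solF ψ (hal pp α t0) : Dc (J2 t0) x is a square}` is at
most `4 * # Phs ψ t0 pp`. Proof: `Dc (J2 t0) v s t` is a square iff `dot (J2 t0) = 0` for `s`, `t` and
all `v p` (`sq_Dc` in V2; here reprove or import), that is `v p, s, t ∈ {0, t0}`: `v p = δ p • t0`,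
`s = e1 • t0`, `t = e2 • t0`. For fixed `a` consider the set of all `(δ, e1, e2, α)` obtained; the
difference (sum) of two of them is in `Phs`: subtract the two equations of `SolP` at `p`
(`exx a` cancels): `(sum_(q≠p) [q/p] δ q + [2/p] e2 + [-1/p] e1 + sum_i [pp i/p] α i) • t0 =
ρ δ p • t0 + δ p • NN x.1 ε t0`. If `Fo ψ t0 p` then `ε = 1` and `NN (ft t0) 1 t0 ∉ {0, t0}` (finite
check), so `δ p = 0`; otherwise `NN x.1 ε t0 = (nn * ε) • t0` (finite check: `ε = bt p (-1) = 0` unless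
`p = 3 mod 4`). Compare the coefficients of `t0 ≠ 0`. So for each of the four values of `a` there are
at most `# Phs` elements.

`r_le_sel`: `# R0s ψ t0 (Fin.elim0) ≤ 2^(n3 ψ t0) * # Sel F3.ty F3.N (Pr w z) ψ`: by `card_Phs` with
`J = 0`: `4 * # R0s = # Phs * 2^n3`, and `# Phs ≤ 4 * # Sel`: for fixed `e1, e2` the differences
`(δ, 0, 0)` satisfy the homogeneous equations, and `v = δ • t0 ∈ Sel` (`ty_F3`, `mat_N`, as in
`card_solF`).
-/

set_option autoImplicit false

namespace Pool.Agent.H77.K4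

open Finset Pool.Agent.H77.SV

private theorem v6_cases : ∀ t0 y : V2, t0 ≠ 0 → dot (J2 t0) y = 0 → y = 0 ∨ y = t0 := by
  unfold dot J2
  decide

private theorem v6_ft : ∀ t0 : V2, t0 ≠ 0 → NN (ft t0) 1 t0 ≠ 0 ∧ NN (ft t0) 1 t0 ≠ t0 := by
  decide

private theorem v6_nf : ∀ (t0 : V2) (τ : Fin 3), t0 ≠ 0 → τ ≠ ft t0 →
    NN τ 1 t0 = nn t0 τ • t0 := by
  decide

private theorem v6_nz : ∀ (τ : Fin 3) (v : V2), NN τ 0 v = 0 := by
  decide

private theorem v6_ns : ∀ (τ : Fin 3) (e c : ZMod 2) (v : V2), NN τ e (c • v) = c • NN τ e v := by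
  decide

private theorem v6_zm : ∀ e : ZMod 2, e = 0 ∨ e = 1 := by decide

private theorem v6_sm : ∀ (c : ZMod 2) (t : V2), t ≠ 0 → c • t = 0 → c = 0 := by decide

private theorem v6_dbl (x : V2) : x + x = 0 := by
  revert x
  decide

private theorem v6_dz (x : ZMod 2) : x + x = 0 := by
  revert x
  decide

/-- coefficient -/
private def v6s (y : V2) : ZMod 2 := if y = 0 then 0 else 1

private theorem v6s_eq {t0 y : V2} (h : y = 0 ∨ y = t0) : y = v6s y • t0 := by
  rcases h with h | h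
  · simp [v6s, h]
  · by_cases h0 : y = 0
    · simp [v6s, h0]
    · rw [v6s, if_neg h0, one_smul]
      exact h

/-- bits of a Boolean -/
private def v6b (b : Bool) : ZMod 2 := if b then 1 else 0

private theorem v6b_inj : ∀ b c : Bool, v6b b = v6b c → b = c := by decide

private theorem v6_bt {w z : ℕ} (hw : 2 ≤ w) (p : Pr w z) :
    bt (p : ℕ) (-1) = 0 ∨ (bt (p : ℕ) (-1) = 1 ∧ (p : ℕ) % 4 = 3) := by
  have hp : (p : ℕ).Prime ∧ w < (p : ℕ) := by
    have h := p.2
    unfold Pr at h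
    rw [mem_filter, mem_Ioc] at h
    exact ⟨h.2, h.1.1⟩
  rw [bt_neg_one hp.1 (by omega)]
  by_cases h : (p : ℕ) % 4 = 3
  · right
    exact ⟨if_pos h, h⟩
  · left
    exact if_neg h

/-- `NN` at a prime which is not in `Fo` -/
private theorem v6_NN {w z : ℕ} (hw : 2 ≤ w) {ψ : Pr w z → Option (Fin 3 × ZMod 2)} {t0 : V2}
    (h0 : t0 ≠ 0) {p : Pr w z} {x : Fin 3 × ZMod 2} (hx : ψ p = some x) (hF : ¬ Fo ψ t0 p) :
    NN x.1 (bt (p : ℕ) (-1)) t0 = (nn t0 x.1 * bt (p : ℕ) (-1)) • t0 := by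
  rcases v6_bt hw p with h | ⟨h, h4⟩
  · rw [h, v6_nz, mul_zero, zero_smul]
  · rw [h, mul_one]
    refine v6_nf t0 x.1 h0 fun hc => hF ⟨h4, x.2, ?_⟩
    rw [hx, ← hc]

/-- the coefficient of `t0` on the left-hand side -/
private def v6S {w z J : ℕ} (pp : Fin J → ℕ) (p : Pr w z) (δ : Pr w z → ZMod 2)
    (e1 e2 : ZMod 2) (α : Fin J → ZMod 2) : ZMod 2 :=
  ∑ q ∈ univ.erase p, bt (p : ℕ) ((q : ℕ) : ℤ) * δ q + e1 * bt (p : ℕ) (-1) +
    e2 * bt (p : ℕ) 2 + ∑ i, α i * bt (p : ℕ) ((pp i : ℕ) : ℤ)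

private theorem v6S_add {w z J : ℕ} (pp : Fin J → ℕ) (p : Pr w z) (δ δ' : Pr w z → ZMod 2)
    (e1 e2 e1' e2' : ZMod 2) (α α' : Fin J → ZMod 2) :
    v6S pp p (fun q => δ q + δ' q) (e1 + e1') (e2 + e2') (fun i => α i + α' i) =
      v6S pp p δ e1 e2 α + v6S pp p δ' e1' e2' α' := by
  unfold v6S
  simp only [mul_add, add_mul, sum_add_distrib]
  ring

private theorem v6_lin {w z : ℕ} (t0 : V2) {v : Pr w z → V2} {δ : Pr w z → ZMod 2}
    (hv : ∀ q, v q = δ q • t0) (p : Pr w z) :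
    lin (Pr w z) v p = (∑ q ∈ univ.erase p, bt (p : ℕ) ((q : ℕ) : ℤ) * δ q) • t0 := by
  unfold lin
  rw [sum_smul]
  refine sum_congr rfl fun q _ => ?_
  rw [hv q, smul_smul]

private theorem v6_hal {J : ℕ} (pp : Fin J → ℕ) (α : Fin J → Bool) (t0 : V2) (p : ℕ) :
    hal pp α t0 p = (∑ i, v6b (α i) * bt p ((pp i : ℕ) : ℤ)) • t0 := by
  unfold hal
  rw [sum_smul]
  refine sum_congr rfl fun i _ => ?_
  unfold v6b
  cases α i <;> simp

private theorem v6_eq {w z J : ℕ} {ψ : Pr w z → Option (Fin 3 × ZMod 2)} {t0 : V2}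
    {pp : Fin J → ℕ} {α : Fin J → Bool} {v : Pr w z → V2} {a s t : V2}
    (hS : SolP ψ (hal pp α t0) v a s t) {δ : Pr w z → ZMod 2} {e1 e2 : ZMod 2}
    (hv : ∀ q, v q = δ q • t0) (hs : s = e1 • t0) (ht : t = e2 • t0)
    {p : Pr w z} {x : Fin 3 × ZMod 2} (hx : ψ p = some x) :
    v6S pp p δ e1 e2 (fun i => v6b (α i)) • t0 + exx x.1 (bt (p : ℕ) (-1)) a =
      (x.2 * δ p) • t0 + δ p • NN x.1 (bt (p : ℕ) (-1)) t0 := by
  have h := hS p
  rw [hx] at h
  simp only at h
  rw [v6_lin t0 hv p, v6_hal, hs, ht, hv p, v6_ns, smul_smul, smul_smul, smul_smul] at h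
  rw [← h]
  unfold v6S
  simp only [add_smul]
  rw [mul_comm e1, mul_comm e2]
  abel

/-- the difference of two solutions with the same `a` -/
private theorem v6_diff {w z J : ℕ} (hw : 2 ≤ w) {ψ : Pr w z → Option (Fin 3 × ZMod 2)} {t0 : V2}
    (h0 : t0 ≠ 0) {pp : Fin J → ℕ} {α α' : Fin J → Bool} {v v' : Pr w z → V2} {a s t s' t' : V2}
    (hS : SolP ψ (hal pp α t0) v a s t) (hS' : SolP ψ (hal pp α' t0) v' a s' t')
    {δ δ' : Pr w z → ZMod 2} {e1 e2 e1' e2' : ZMod 2}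
    (hv : ∀ q, v q = δ q • t0) (hs : s = e1 • t0) (ht : t = e2 • t0)
    (hv' : ∀ q, v' q = δ' q • t0) (hs' : s' = e1' • t0) (ht' : t' = e2' • t0) :
    (fun q => δ q + δ' q, e1 + e1', e2 + e2', fun i => v6b (α i) + v6b (α' i)) ∈
      Phs ψ t0 pp := by
  classical
  have key : ∀ p x, ψ p = some x →
      v6S pp p (fun q => δ q + δ' q) (e1 + e1') (e2 + e2') (fun i => v6b (α i) + v6b (α' i)) • t0 =
        (x.2 * (δ p + δ' p)) • t0 + (δ p + δ' p) • NN x.1 (bt (p : ℕ) (-1)) t0 := by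
    intro p x hx
    have h1 := v6_eq hS hv hs ht hx
    have h2 := v6_eq hS' hv' hs' ht' hx
    have h3 := congrArg₂ (fun x y : V2 => x + y) h1 h2
    have h4 := v6_dbl (exx x.1 (bt (p : ℕ) (-1)) a)
    rw [v6S_add, add_smul, mul_add, add_smul, add_smul]
    calc _ = v6S pp p δ e1 e2 (fun i => v6b (α i)) • t0 + exx x.1 (bt (p : ℕ) (-1)) a +
          (v6S pp p δ' e1' e2' (fun i => v6b (α' i)) • t0 + exx x.1 (bt (p : ℕ) (-1)) a) -
          (exx x.1 (bt (p : ℕ) (-1)) a + exx x.1 (bt (p : ℕ) (-1)) a) := by abel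
      _ = _ := by rw [h3, h4]; abel
  have hnone : ∀ p, ψ p = none → δ p + δ' p = 0 := by
    intro p hp
    have h1 := hS p
    have h2 := hS' p
    rw [hp] at h1 h2
    simp only at h1 h2
    rw [hv p] at h1
    rw [hv' p] at h2
    rw [v6_sm _ _ h0 h1, v6_sm _ _ h0 h2, add_zero]
  have hFo : ∀ p, Fo ψ t0 p → δ p + δ' p = 0 := by
    rintro p ⟨h4, ρ, hx⟩
    have hb : bt (p : ℕ) (-1) = 1 := by
      have hp : (p : ℕ).Prime ∧ w < (p : ℕ) := by
        have h := p.2
        unfold Pr at h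
        rw [mem_filter, mem_Ioc] at h
        exact ⟨h.2, h.1.1⟩
      rw [bt_neg_one hp.1 (by omega), if_pos h4]
    have h1 := key p _ hx
    simp only [hb] at h1
    obtain ⟨f1, f2⟩ := v6_ft t0 h0
    rcases v6_zm (δ p + δ' p) with h | h
    · exact h
    · exfalso
      rw [h, one_smul, mul_one] at h1
      generalize v6S pp p (fun q => δ q + δ' q) (e1 + e1') (e2 + e2')
        (fun i => v6b (α i) + v6b (α' i)) = S at h1
      have h5 : NN (ft t0) 1 t0 = (S + ρ) • t0 := by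
        rw [add_smul, h1]
        have := v6_dbl (ρ • t0)
        calc _ = ρ • t0 + ρ • t0 + NN (ft t0) 1 t0 := by rw [this, zero_add]
          _ = _ := by abel
      rcases v6_zm (S + ρ) with h6 | h6
      · rw [h6, zero_smul] at h5
        exact f1 h5
      · rw [h6, one_smul] at h5
        exact f2 h5
  unfold Phs
  rw [mem_filter]
  refine ⟨mem_univ _, fun p hp => ?_, fun p y hy => ?_⟩
  · rcases hp with hp | hp
    · exact hnone p hp
    · exact hFo p hp
  · have h1 := key p y hy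
    have h2 : v6S pp p (fun q => δ q + δ' q) (e1 + e1') (e2 + e2')
        (fun i => v6b (α i) + v6b (α' i)) =
        (δ p + δ' p) * (y.2 + nn t0 y.1 * bt (p : ℕ) (-1)) := by
      by_cases hF : Fo ψ t0 p
      · rw [hFo p hF, mul_zero, zero_smul, zero_smul, add_zero] at h1
        rw [hFo p hF, zero_mul]
        exact v6_sm _ _ h0 h1
      · rw [v6_NN hw h0 hy hF, smul_smul, ← add_smul] at h1
        have h3 := v6_sm (v6S pp p (fun q => δ q + δ' q) (e1 + e1') (e2 + e2')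
          (fun i => v6b (α i) + v6b (α' i)) - (y.2 * (δ p + δ' p) +
          (δ p + δ' p) * (nn t0 y.1 * bt (p : ℕ) (-1)))) t0 h0 (by rw [sub_smul, h1, sub_self])
        rw [sub_eq_zero] at h3
        rw [h3]
        ring
    exact h2

open Classical in
theorem sq_part {w z J : ℕ} (hw : 2 ≤ w) (ψ : Pr w z → Option (Fin 3 × ZMod 2)) {t0 : V2}
    (h0 : t0 ≠ 0) (pp : Fin J → ℕ) (hpp : ∀ i, (pp i).Prime ∧ z < pp i) :
    ∑ α : Fin J → Bool, ((solF ψ (hal pp α t0)).filter fun x =>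
      IsSquare (Dc (J2 t0) x.1 x.2.2.1 x.2.2.2)).card ≤ 4 * (Phs ψ t0 pp).card := by
  have h4 : Fintype.card V2 = 4 := by decide
  rw [← Finset.card_sigma]
  set T := (univ : Finset (Fin J → Bool)).sigma fun α =>
    (solF ψ (hal pp α t0)).filter fun x => IsSquare (Dc (J2 t0) x.1 x.2.2.1 x.2.2.2) with hT
  have hmem : ∀ y ∈ T, SolP ψ (hal pp y.1 t0) y.2.1 y.2.2.1 y.2.2.2.1 y.2.2.2.2 ∧
      (∀ p, y.2.1 p = v6s (y.2.1 p) • t0) ∧ y.2.2.2.1 = v6s y.2.2.2.1 • t0 ∧
      y.2.2.2.2 = v6s y.2.2.2.2 • t0 := by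
    intro y hy
    rw [hT, mem_sigma, mem_filter] at hy
    obtain ⟨_, h1, h2⟩ := hy
    rw [sq_Dc hw] at h2
    unfold solF at h1
    rw [mem_filter] at h1
    exact ⟨h1.2, fun p => v6s_eq (v6_cases _ _ h0 (h2.2.2 p)), v6s_eq (v6_cases _ _ h0 h2.1),
      v6s_eq (v6_cases _ _ h0 h2.2.1)⟩
  have hfib : ∀ a ∈ T.image (fun y => y.2.2.1), (T.filter fun y => y.2.2.1 = a).card ≤
      (Phs ψ t0 pp).card := by
    intro a ha
    rw [mem_image] at ha
    obtain ⟨y0, hy0, ha0⟩ := ha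
    obtain ⟨k1, k2, k3, k4⟩ := hmem y0 hy0
    refine Finset.card_le_card_of_injOn (fun y => (fun q => v6s (y.2.1 q) + v6s (y0.2.1 q),
      v6s y.2.2.2.1 + v6s y0.2.2.2.1, v6s y.2.2.2.2 + v6s y0.2.2.2.2,
      fun i => v6b (y.1 i) + v6b (y0.1 i))) ?_ ?_
    · intro y hy
      rw [Finset.mem_coe, mem_filter] at hy
      obtain ⟨l1, l2, l3, l4⟩ := hmem y hy.1
      rw [hy.2] at l1
      rw [ha0] at k1
      exact v6_diff hw h0 l1 k1 l2 l3 l4 k2 k3 k4
    · intro y hy y' hy' he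
      rw [Finset.mem_coe, mem_filter] at hy hy'
      obtain ⟨_, l2, l3, l4⟩ := hmem y hy.1
      obtain ⟨_, m2, m3, m4⟩ := hmem y' hy'.1
      simp only [Prod.mk.injEq] at he
      obtain ⟨e1, e2, e3, e4⟩ := he
      obtain ⟨α, v, b, s, t⟩ := y
      obtain ⟨α', v', b', s', t'⟩ := y'
      simp only at l2 l3 l4 m2 m3 m4 e1 e2 e3 e4 hy hy'
      have f1 : α = α' := by
        funext i
        exact v6b_inj _ _ (add_right_cancel (congrFun e4 i))
      have f2 : v = v' := by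
        funext q
        rw [l2 q, m2 q, add_right_cancel (congrFun e1 q)]
      have f3 : s = s' := by rw [l3, m3, add_right_cancel e2]
      have f4 : t = t' := by rw [l4, m4, add_right_cancel e3]
      have f5 : b = b' := hy.2.trans hy'.2.symm
      rw [f1, f2, f3, f4, f5]
  have h1 := Finset.card_le_mul_card_image (f := fun y : (Σ _ : Fin J → Bool,
    (Pr w z → V2) × V2 × V2 × V2) => y.2.2.1) T (Phs ψ t0 pp).card hfib
  have h2 : (T.image (fun y => y.2.2.1)).card ≤ 4 := by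
    rw [← h4]
    exact Finset.card_le_univ _
  calc T.card ≤ (Phs ψ t0 pp).card * (T.image (fun y => y.2.2.1)).card := h1
    _ ≤ (Phs ψ t0 pp).card * 4 := Nat.mul_le_mul_left _ h2
    _ = _ := mul_comm _ _

theorem r_le_sel {w z : ℕ} (hw : 2 ≤ w) (ψ : Pr w z → Option (Fin 3 × ZMod 2)) {t0 : V2}
    (h0 : t0 ≠ 0) :
    (R0s ψ t0 (fun i : Fin 0 => (i : ℕ))).card ≤
      2 ^ n3 ψ t0 * (Sel F3.ty F3.N (Pr w z) ψ).card := by
  classical
  have hc := card_Phs hw ψ t0 (fun i : Fin 0 => (i : ℕ)) (fun i => i.elim0)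
  have hle : (Phs ψ t0 (fun i : Fin 0 => (i : ℕ))).card ≤
      4 * (Sel F3.ty F3.N (Pr w z) ψ).card := by
    have h4 : Fintype.card (ZMod 2 × ZMod 2) = 4 := by decide
    set T := Phs ψ t0 (fun i : Fin 0 => (i : ℕ)) with hT
    have hmem : ∀ x ∈ T, (∀ p, ψ p = none ∨ Fo ψ t0 p → x.1 p = 0) ∧
        ∀ p y, ψ p = some y → v6S (fun i : Fin 0 => (i : ℕ)) p x.1 x.2.1 x.2.2.1 x.2.2.2 =
          x.1 p * (y.2 + nn t0 y.1 * bt (p : ℕ) (-1)) := by
      intro x hx
      rw [hT] at hx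
      unfold Phs at hx
      rw [mem_filter] at hx
      exact hx.2
    have hfib : ∀ b ∈ T.image (fun x => (x.2.1, x.2.2.1)),
        (T.filter fun x => (x.2.1, x.2.2.1) = b).card ≤
        (Sel F3.ty F3.N (Pr w z) ψ).card := by
      intro b hb
      rw [mem_image] at hb
      obtain ⟨x0, hx0, hb0⟩ := hb
      obtain ⟨k1, k2⟩ := hmem x0 hx0
      refine Finset.card_le_card_of_injOn (fun x => fun p => (x.1 p + x0.1 p) • t0) ?_ ?_
      · intro x hx
        rw [Finset.mem_coe, mem_filter] at hx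
        obtain ⟨l1, l2⟩ := hmem x hx.1
        have he := hx.2.trans hb0.symm
        simp only [Prod.mk.injEq] at he
        have hlin : ∀ p, lin (Pr w z) (fun p => (x.1 p + x0.1 p) • t0) p =
            (∑ q ∈ univ.erase p, bt (p : ℕ) ((q : ℕ) : ℤ) * (x.1 q + x0.1 q)) • t0 :=
          fun p => v6_lin t0 (fun q => rfl) p
        have hsum : ∀ p y, ψ p = some y →
            ∑ q ∈ univ.erase p, bt (p : ℕ) ((q : ℕ) : ℤ) * (x.1 q + x0.1 q) =
              (x.1 p + x0.1 p) * (y.2 + nn t0 y.1 * bt (p : ℕ) (-1)) := by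
          intro p y hy
          have g1 := l2 p y hy
          have g2 := k2 p y hy
          rw [he.1, he.2] at g1
          rw [add_mul, ← g1, ← g2]
          unfold v6S
          simp only [mul_add, sum_add_distrib, univ_eq_empty, sum_empty, add_zero]
          have d1 := v6_dz (x0.2.1 * bt (p : ℕ) (-1))
          have d2 := v6_dz (x0.2.2.1 * bt (p : ℕ) 2)
          generalize x0.2.1 * bt (p : ℕ) (-1) = u1 at *
          generalize x0.2.2.1 * bt (p : ℕ) 2 = u2 at *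
          generalize (∑ q ∈ univ.erase p, bt (p : ℕ) ((q : ℕ) : ℤ) * x.1 q) = u3
          generalize (∑ q ∈ univ.erase p, bt (p : ℕ) ((q : ℕ) : ℤ) * x0.1 q) = u4
          linear_combination -d1 - d2
        rw [Finset.mem_coe]
        unfold Sel
        rw [mem_filter]
        refine ⟨mem_univ _, fun p => ?_⟩
        unfold LocC
        cases hy : ψ p with
        | none =>
          simp only
          rw [l1 p (Or.inl hy), k1 p (Or.inl hy), add_zero, zero_smul]
        | some y =>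
          simp only
          refine ⟨by rw [ty_F3]; exact mem_univ _, fun c _ => ?_⟩
          rw [hlin p, hsum p y hy, mat_N, v6_ns]
          by_cases hF : Fo ψ t0 p
          · rw [l1 p (Or.inr hF), k1 p (Or.inr hF), add_zero, zero_mul, zero_smul, zero_smul]
            simp [dot]
          · rw [v6_NN hw h0 hy hF]
            simp only [dot, Prod.smul_fst, Prod.smul_snd, smul_eq_mul]
            ring
      · intro x hx x' hx' he
        rw [Finset.mem_coe, mem_filter] at hx hx'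
        have h5 := hx.2.trans hx'.2.symm
        simp only [Prod.mk.injEq] at h5
        obtain ⟨δ, e1, e2, α⟩ := x
        obtain ⟨δ', e1', e2', α'⟩ := x'
        simp only at h5 he
        have f1 : δ = δ' := by
          funext q
          have h6 := congrFun he q
          have h7 := v6_sm ((δ q + x0.1 q) - (δ' q + x0.1 q)) t0 h0
            (by rw [sub_smul, h6, sub_self])
          have h8 := sub_eq_zero.1 h7
          exact add_right_cancel h8
        have f2 : α = α' := Subsingleton.elim _ _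
        rw [f1, f2, h5.1, h5.2]
    have h1 := Finset.card_le_mul_card_image (f := fun x : ((Pr w z → ZMod 2) × ZMod 2 × ZMod 2 ×
      (Fin 0 → ZMod 2)) => (x.2.1, x.2.2.1)) T (Sel F3.ty F3.N (Pr w z) ψ).card hfib
    have h2 : (T.image (fun x => (x.2.1, x.2.2.1))).card ≤ 4 := by
      rw [← h4]
      exact Finset.card_le_univ _
    calc T.card ≤ (Sel F3.ty F3.N (Pr w z) ψ).card *
          (T.image (fun x => (x.2.1, x.2.2.1))).card := h1
      _ ≤ (Sel F3.ty F3.N (Pr w z) ψ).card * 4 := Nat.mul_le_mul_left _ h2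
      _ = _ := mul_comm _ _
  have h5 : 4 * (R0s ψ t0 (fun i : Fin 0 => (i : ℕ))).card ≤
      4 * (2 ^ n3 ψ t0 * (Sel F3.ty F3.N (Pr w z) ψ).card) := by
    calc 4 * (R0s ψ t0 (fun i : Fin 0 => (i : ℕ))).card =
          (Phs ψ t0 (fun i : Fin 0 => (i : ℕ))).card * 2 ^ n3 ψ t0 := by rw [hc]; norm_num
      _ ≤ 4 * (Sel F3.ty F3.N (Pr w z) ψ).card * 2 ^ n3 ψ t0 := Nat.mul_le_mul_right _ hle
      _ = _ := by ring
  exact Nat.le_of_mul_le_mul_left h5 (by norm_num)

end Pool.Agent.H77.K4
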