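import Pool.Agent.H77.K4.W2
import Pool.Agent.H41.SF.Mertens

/-!
# W4: many primes `3 mod 4`

For fixed `w ≥ 2`, `t0` and `ε > 0`, for `z ≥ z0` and all `T ≥ 1`:
`sum_φ Wt T φ (1/2)^(n3 (jn φ) t0) ≤ ε (log z / log w)^3`. The gain comes from the factor `1/2` for
the states `some (some (ft t0, ρ))` of the primes `p = 3 mod 4` (the exponent `σ = 1/log T ≥ 0` only
makes the weights smaller).

Proof. The sum is the product over `p ∈ (w, z]` of
`1 + 6/p^2 + (6 - 2 [p = 3 mod 4]) /2 * (1 + 3/p)/p^(1+σ) + [p = 3 mod 4] (1/2) (1 + 3/p)/p^(1+σ)`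
`= 1 + 6/p^2 + (3 - (1/2) [p = 3 mod 4]) (1+3/p)/p^(1+σ) ≤ 1 + 6/p^2 + (3 - (1/2)[p = 3 mod 4])(1/p + 3/p^2)`
`≤ exp (3/p - (1/2) [p = 3 mod 4]/p + 15/p^2)`.
(`(jn φ) p = some (ft t0, ρ)` iff `φ p = some (some (ft t0, ρ))`.) So the sum is at most
`C (log z/log w)^3 exp (- (1/2) sum_(w < p ≤ z, p = 3 mod 4) 1/p)`, and the sum over the primes
`= 3 mod 4` tends to infinity with `z`: from `mertens_AP` (`H41/SF/Mertens.lean`, `q = 4`, `a = 3`):
`sum_(p ≤ N, p = 3 mod 4) log p/p = (log N)/2 + O(1)`, so the sum of `log p / p` over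
`(N, N^2]` is at least `(log N)/2 - 2C ≥ (log N)/4` for large `N` and the sum of `1/p` over
`(N, N^2]` is at least `1/8`; infinitely many disjoint such intervals.
(`w` is fixed, so `C (log z/log w)^3 e^(-S/2) ≤ ε (log z/log w)^3` for `z ≥ z0`.)
-/

set_option autoImplicit false

namespace Pool.Agent.H77.K4

open Finset Pool.Agent.H77.SV

private theorem w4_div (w M : ℕ) : ∃ z0 : ℕ, ∀ z : ℕ, z0 ≤ z →
    (M : ℝ) / 8 ≤ ∑ p ∈ (Ioc w z).filter (fun p => p.Prime ∧ p % 4 = 3), 1 / (p : ℝ) := by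
  have hu : IsUnit (((3 : ℕ) : ZMod 4)) := (ZMod.isUnit_iff_coprime 3 4).mpr (by norm_num)
  obtain ⟨C, hC0, hC⟩ := Pool.Agent.H41.SF.mertens_AP (q := 4) hu
  have htot : Nat.totient 4 = 2 := by decide
  have hC' : ∀ N : ℕ, 1 ≤ N →
      |∑ p ∈ (Ioc 0 N).filter (fun p : ℕ => p.Prime ∧ p % 4 = 3), Real.log p / p -
        Real.log N / 2| ≤ C := by
    intro N hN
    have h1 := hC N hN
    rw [htot] at h1
    have h2 : (Ioc 0 N).filter (fun p : ℕ => p.Prime ∧ (p : ZMod 4) = ((3 : ℕ) : ZMod 4)) =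
        (Ioc 0 N).filter (fun p : ℕ => p.Prime ∧ p % 4 = 3) := by
      apply Finset.filter_congr
      intro p _
      rw [ZMod.natCast_eq_natCast_iff']
    rw [h2] at h1
    exact_mod_cast h1
  obtain ⟨N0, hN0⟩ : ∃ N0 : ℕ, ∀ N : ℕ, N0 ≤ N → 16 * C + 1 ≤ Real.log N := by
    have h := (Real.tendsto_log_atTop.comp tendsto_natCast_atTop_atTop).eventually_ge_atTop
      (16 * C + 1)
    obtain ⟨N0, hN0⟩ := Filter.eventually_atTop.mp h
    exact ⟨N0, fun N hN => hN0 N hN⟩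
  have hwin : ∀ N : ℕ, N0 ≤ N → 2 ≤ N →
      1 / 8 ≤ ∑ p ∈ (Ioc N (N ^ 2)).filter (fun p => p.Prime ∧ p % 4 = 3), 1 / (p : ℝ) := by
    intro N hN h2
    have hL := hN0 N hN
    have hNN : N ≤ N ^ 2 := Nat.le_self_pow (by norm_num) N
    have h3 := hC' N (by omega)
    have h4 := hC' (N ^ 2) (by omega)
    have h5 : Real.log ((N ^ 2 : ℕ) : ℝ) = 2 * Real.log N := by
      push_cast
      rw [Real.log_pow]
      norm_num
    rw [h5] at h4
    have h6 : ∑ p ∈ (Ioc 0 (N ^ 2)).filter (fun p : ℕ => p.Prime ∧ p % 4 = 3), Real.log p / p =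
        ∑ p ∈ (Ioc 0 N).filter (fun p : ℕ => p.Prime ∧ p % 4 = 3), Real.log p / p +
        ∑ p ∈ (Ioc N (N ^ 2)).filter (fun p : ℕ => p.Prime ∧ p % 4 = 3), Real.log p / p := by
      rw [← Finset.sum_union]
      · congr 1
        rw [← Finset.filter_union, Finset.Ioc_union_Ioc_eq_Ioc (Nat.zero_le _) hNN]
      · apply Finset.disjoint_filter_filter
        rw [Finset.disjoint_left]
        intro x hx hx'
        rw [Finset.mem_Ioc] at hx hx'
        omega
    have h7 : ∑ p ∈ (Ioc N (N ^ 2)).filter (fun p : ℕ => p.Prime ∧ p % 4 = 3),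
        Real.log p / p ≤ (2 * Real.log N) *
        ∑ p ∈ (Ioc N (N ^ 2)).filter (fun p => p.Prime ∧ p % 4 = 3), 1 / (p : ℝ) := by
      rw [Finset.mul_sum]
      apply Finset.sum_le_sum
      intro p hp
      rw [Finset.mem_filter, Finset.mem_Ioc] at hp
      have hp0 : (0 : ℝ) < p := by exact_mod_cast hp.2.1.pos
      rw [mul_one_div]
      apply div_le_div_of_nonneg_right _ hp0.le
      rw [← h5]
      exact Real.log_le_log hp0 (by exact_mod_cast hp.1.2)
    rw [abs_le] at h3 h4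
    rw [h6] at h4
    have h8 : Real.log N / 2 - 2 * C ≤ (2 * Real.log N) *
        ∑ p ∈ (Ioc N (N ^ 2)).filter (fun p => p.Prime ∧ p % 4 = 3), 1 / (p : ℝ) := by
      linarith [h3.1, h3.2, h4.1, h4.2]
    set s := ∑ p ∈ (Ioc N (N ^ 2)).filter (fun p => p.Prime ∧ p % 4 = 3), 1 / (p : ℝ) with hs
    by_contra hlt
    push Not at hlt
    have h9 : (2 * Real.log N) * s < (2 * Real.log N) * (1 / 8) :=
      mul_lt_mul_of_pos_left hlt (by linarith)
    linarith
  induction M with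
  | zero =>
    refine ⟨0, fun z _ => ?_⟩
    simp only [Nat.cast_zero, zero_div]
    apply Finset.sum_nonneg
    intro p _
    positivity
  | succ M ih =>
    obtain ⟨z1, hz1⟩ := ih
    set N := max (max z1 N0) (max w 2) with hN
    refine ⟨N ^ 2, fun z hz => ?_⟩
    have e1 : z1 ≤ N := le_trans (le_max_left _ _) (le_max_left _ _)
    have e2 : N0 ≤ N := le_trans (le_max_right _ _) (le_max_left _ _)
    have e3 : w ≤ N := le_trans (le_max_left _ _) (le_max_right _ _)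
    have e4 : 2 ≤ N := le_trans (le_max_right _ _) (le_max_right _ _)
    have h1 := hz1 N e1
    have h2 := hwin N e2 e4
    have hNN : N ≤ N ^ 2 := Nat.le_self_pow (by norm_num) N
    have h3 : ∑ p ∈ (Ioc w N).filter (fun p => p.Prime ∧ p % 4 = 3), 1 / (p : ℝ) +
        ∑ p ∈ (Ioc N (N ^ 2)).filter (fun p => p.Prime ∧ p % 4 = 3), 1 / (p : ℝ) ≤
        ∑ p ∈ (Ioc w z).filter (fun p => p.Prime ∧ p % 4 = 3), 1 / (p : ℝ) := by
      rw [← Finset.sum_union]
      · apply Finset.sum_le_sum_of_subset_of_nonneg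
        · rw [← Finset.filter_union, Finset.Ioc_union_Ioc_eq_Ioc e3 hNN]
          apply Finset.filter_subset_filter
          exact Finset.Ioc_subset_Ioc_right hz
        · intro p _ _
          positivity
      · apply Finset.disjoint_filter_filter
        rw [Finset.disjoint_left]
        intro x hx hx'
        rw [Finset.mem_Ioc] at hx hx'
        omega
    push_cast
    linarith

open Classical in
/-- one factor -/
private noncomputable def fw (T : ℕ) (t0 : V2) (p : ℕ) (s : Stt 3) : ℝ :=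
  wN 3 (1 / Real.log T) p s *
    (if p % 4 = 3 ∧ ∃ ρ, s.join = some (ft t0, ρ) then 1 / 2 else 1)

private theorem w4_prod {w z : ℕ} (T : ℕ) (t0 : V2) (φ : Pr w z → Stt 3) :
    Wt T φ * (1 / 2 : ℝ) ^ n3 (jn φ) t0 = ∏ p : Pr w z, fw T t0 p (φ p) := by
  classical
  unfold Wt n3 fw
  rw [Finset.prod_mul_distrib]
  congr 1
  rw [Finset.prod_ite, Finset.prod_const, Finset.prod_const_one, mul_one]
  congr 2
  ext x
  simp only [Finset.mem_filter, Finset.mem_univ, true_and]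
  rfl

private theorem w4_fin (τ : Fin 3) : ∑ i : Fin 3, (if i = τ then (1 / 2 : ℝ) else 1) = 5 / 2 := by
  fin_cases τ <;> simp [Fin.sum_univ_three] <;> norm_num

private theorem w4_fac {T p : ℕ} (hT : 1 ≤ T) (t0 : V2) (hp : 1 ≤ p) :
    ∑ s : Stt 3, fw T t0 p s ≤ Real.exp (3 * (1 / (p : ℝ)) -
      (if p % 4 = 3 then 1 / 2 * (1 / (p : ℝ)) else 0) + 15 * ((p : ℝ) ^ 2)⁻¹) := by
  classical
  have hp0 : (0 : ℝ) < p := by exact_mod_cast hp
  have hp1 : (1 : ℝ) ≤ p := by exact_mod_cast hp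
  have hσ : 0 ≤ 1 / Real.log T := by
    apply div_nonneg zero_le_one
    exact Real.log_nonneg (by exact_mod_cast hT)
  set W : ℝ := (1 + ((3 : ℕ) : ℝ) / p) / (2 * (p : ℝ) ^ (1 + 1 / Real.log T)) with hW
  have hW1 : W ≤ (1 + 3 / p) / (2 * p) := by
    rw [hW]
    have h1 : (p : ℝ) ≤ (p : ℝ) ^ (1 + 1 / Real.log T) := by
      calc (p : ℝ) = (p : ℝ) ^ (1 : ℝ) := (Real.rpow_one _).symm
        _ ≤ (p : ℝ) ^ (1 + 1 / Real.log T) :=
          Real.rpow_le_rpow_of_exponent_le hp1 (by linarith)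
    push_cast
    apply div_le_div_of_nonneg_left (by positivity) (by positivity)
    linarith
  have hW0 : 0 ≤ W := by
    rw [hW]
    positivity
  have hs : ∑ s : Stt 3, fw T t0 p s = 1 + 6 / (p : ℝ) ^ 2 +
      (if p % 4 = 3 then 5 else 6) * W := by
    rw [Fintype.sum_option, Fintype.sum_option]
    have h1 : fw T t0 p none = 1 := by
      unfold fw
      simp [wN]
    have h2 : fw T t0 p (some none) = 6 / (p : ℝ) ^ 2 := by
      unfold fw
      simp [wN]
      norm_num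
    rw [h1, h2, Fintype.sum_prod_type]
    have h3 : ∀ (i : Fin 3) (ρ : ZMod 2), fw T t0 p (some (some (i, ρ))) =
        W * (if p % 4 = 3 then (if i = ft t0 then 1 / 2 else 1) else 1) := by
      intro i ρ
      unfold fw
      have h4 : (∃ ρ', (some (some (i, ρ)) : Stt 3).join = some (ft t0, ρ')) ↔ i = ft t0 := by
        constructor
        · rintro ⟨ρ', h⟩
          simp only [Option.join_some, Option.some.injEq, Prod.mk.injEq] at h
          exact h.1
        · intro h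
          exact ⟨ρ, by simp [h]⟩
      simp only [h4]
      have h5 : wN 3 (1 / Real.log T) p (some (some (i, ρ))) = W := rfl
      rw [h5]
      by_cases a1 : p % 4 = 3
      · by_cases a2 : i = ft t0 <;> simp [a1, a2]
      · simp [a1]
    simp only [h3]
    rw [Finset.sum_congr rfl (fun i _ => Finset.sum_const _)]
    simp only [Finset.card_univ, ZMod.card, nsmul_eq_mul]
    rw [← Finset.mul_sum, ← Finset.mul_sum]
    by_cases a1 : p % 4 = 3
    · simp only [a1, if_true]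
      rw [w4_fin]
      push_cast
      ring
    · simp only [a1, if_false]
      simp
      ring
  rw [hs]
  have hexp : ∀ x y : ℝ, x ≤ 1 + y → x ≤ Real.exp y := by
    intro x y h
    have := Real.add_one_le_exp y
    linarith
  apply hexp
  have hq : ((p : ℝ) ^ 2)⁻¹ = 1 / p * (1 / p) := by
    rw [pow_two, mul_inv, one_div]
  have h6 : 6 / (p : ℝ) ^ 2 = 6 * (1 / p * (1 / p)) := by
    rw [div_eq_mul_inv, hq]
  have hW2 : W ≤ (1 / p + 3 * (1 / p * (1 / p))) / 2 := by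
    refine hW1.trans (le_of_eq ?_)
    field_simp
  have hi : 0 ≤ 1 / (p : ℝ) * (1 / p) := by positivity
  rw [h6, hq]
  split_ifs <;> linarith

theorem sum_wt_n3 (w : ℕ) (hw : 2 ≤ w) (t0 : V2) (ε : ℝ) (hε : 0 < ε) :
    ∃ z0 : ℕ, ∀ z T : ℕ, z0 ≤ z → 1 ≤ T →
    ∑ φ : Pr w z → Stt 3, Wt T φ * (1 / 2 : ℝ) ^ n3 (jn φ) t0 ≤
      ε * (Real.log z / Real.log w) ^ 3 := by
  classical
  obtain ⟨C, hC0, hC⟩ := mert2
  have hw0 : 0 < Real.log w := Real.log_pos (by exact_mod_cast hw)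
  set K : ℝ := 3 * (C / Real.log w) + 15 with hK
  obtain ⟨M, hM⟩ := exists_nat_ge (16 * (K - Real.log ε))
  obtain ⟨z1, hz1⟩ := w4_div w M
  refine ⟨max z1 w, fun z T hz hT => ?_⟩
  have hz1' : z1 ≤ z := le_trans (le_max_left _ _) hz
  have hwz : w ≤ z := le_trans (le_max_right _ _) hz
  have hz0 : 0 < Real.log z := Real.log_pos (by exact_mod_cast lt_of_lt_of_le hw hwz)
  have h1 : ∑ φ : Pr w z → Stt 3, Wt T φ * (1 / 2 : ℝ) ^ n3 (jn φ) t0 =
      ∏ p : Pr w z, ∑ s : Stt 3, fw T t0 p s := by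
    rw [Finset.prod_univ_sum, Fintype.piFinset_univ]
    exact Finset.sum_congr rfl fun φ _ => w4_prod T t0 φ
  rw [h1]
  have hpp : ∀ p ∈ Pr w z, p.Prime := fun p hp => (Finset.mem_filter.mp hp).2
  have hnn : ∀ p : ℕ, 0 ≤ ∑ s : Stt 3, fw T t0 p s := by
    intro p
    apply Finset.sum_nonneg
    intro s _
    unfold fw
    apply mul_nonneg
    · rcases s with _ | _ | a
      · exact zero_le_one
      · show (0 : ℝ) ≤ 2 * ((3 : ℕ) : ℝ) / (p : ℝ) ^ 2
        positivity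
      · show (0 : ℝ) ≤ (1 + ((3 : ℕ) : ℝ) / p) / (2 * (p : ℝ) ^ (1 + 1 / Real.log T))
        positivity
    · split_ifs <;> norm_num
  rw [Finset.prod_coe_sort (Pr w z) (fun p => ∑ s : Stt 3, fw T t0 p s)]
  have h2 : ∏ p ∈ Pr w z, ∑ s : Stt 3, fw T t0 p s ≤
      ∏ p ∈ Pr w z, Real.exp (3 * (1 / (p : ℝ)) -
        (if p % 4 = 3 then 1 / 2 * (1 / (p : ℝ)) else 0) + 15 * ((p : ℝ) ^ 2)⁻¹) :=
    Finset.prod_le_prod (fun p _ => hnn p) (fun p hp => w4_fac hT t0 (hpp p hp).one_lt.le)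
  refine h2.trans ?_
  rw [← Real.exp_sum, Finset.sum_add_distrib, Finset.sum_sub_distrib, ← Finset.mul_sum,
    ← Finset.mul_sum]
  have h3 : ∑ p ∈ Pr w z, 1 / (p : ℝ) ≤
      Real.log (Real.log z) - Real.log (Real.log w) + C / Real.log w := by
    have := hC w z hw hwz
    rw [abs_le] at this
    unfold Pr
    linarith [this.2]
  have h4 : ∑ p ∈ Pr w z, ((p : ℝ) ^ 2)⁻¹ ≤ 1 := by
    calc ∑ p ∈ Pr w z, ((p : ℝ) ^ 2)⁻¹ ≤ ∑ p ∈ Ioc w z, ((p : ℝ) ^ 2)⁻¹ := by
          apply Finset.sum_le_sum_of_subset_of_nonneg (Finset.filter_subset _ _)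
          intro p _ _
          positivity
      _ ≤ (w : ℝ)⁻¹ - (z : ℝ)⁻¹ := sum_Ioc_inv_sq_le_sub (by omega) hwz
      _ ≤ 1 := by
          have h5 : (w : ℝ)⁻¹ ≤ 1 := inv_le_one_of_one_le₀ (by exact_mod_cast (by omega : 1 ≤ w))
          have h6 : 0 ≤ (z : ℝ)⁻¹ := by positivity
          linarith
  have h5 : ∑ p ∈ Pr w z, (if p % 4 = 3 then 1 / 2 * (1 / (p : ℝ)) else 0) =
      1 / 2 * ∑ p ∈ (Ioc w z).filter (fun p => p.Prime ∧ p % 4 = 3), 1 / (p : ℝ) := by
    rw [Finset.mul_sum, ← Finset.sum_filter]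
    unfold Pr
    rw [Finset.filter_filter]
  have h6 := hz1 z hz1'
  rw [h5]
  calc Real.exp (3 * ∑ p ∈ Pr w z, 1 / (p : ℝ) -
        1 / 2 * ∑ p ∈ (Ioc w z).filter (fun p => p.Prime ∧ p % 4 = 3), 1 / (p : ℝ) +
        15 * ∑ p ∈ Pr w z, ((p : ℝ) ^ 2)⁻¹)
      ≤ Real.exp (3 * (Real.log (Real.log z) - Real.log (Real.log w)) + Real.log ε) := by
        apply Real.exp_le_exp.mpr
        linarith
    _ = ε * (Real.log z / Real.log w) ^ 3 := by
        rw [Real.exp_add, Real.exp_log hε, mul_comm ε]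
        congr 1
        rw [← Real.log_div hz0.ne' hw0.ne']
        have h7 : 3 * Real.log (Real.log z / Real.log w) =
            Real.log ((Real.log z / Real.log w) ^ 3) := by
          rw [Real.log_pow]
          norm_num
        rw [h7, Real.exp_log (by positivity)]

end Pool.Agent.H77.K4
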