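import Pool.Agent.H77.K4.Defs3
import Pool.Agent.H77.K4.D4
import Pool.Agent.H77.SV.SelAvg

/-!
# W5: the average of the Selmer sets over the restricted states

For fixed `w ≥ 384` and `a`: `sum over the φ with Rest a φ of Wt T φ * #Sel(jn φ) ≤ C (log z)^3`
for all `z ≥ 8`, `T ≥ 1`.

Proof. `σ' = 1/log z ≤ 1/2`. If `Rest a φ` then
`prod_(p : φ p ≠ none) p^σ' ≤ (z^a)^σ' = e^a`. The weight of a state `some (some _)` is
`(1+3/p)/(2 p^(1+σ)) ≤ p^σ' (1+3/p)/(2 p^(1+σ'))` (`p^(1+σ) ≥ p`), that of `none` is `1`, and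
`some none` does not occur. So `Wt T φ ≤ e^a prod_(p : φ p ≠ none) (1+3/p)/(2 p^(1+σ'))`. The map
`φ ↦ jn φ` is injective on the `φ` without `some none`, and `(jn φ) p` is `some` iff `φ p ≠ none`. So
the sum is at most `e^a` times the sum in `sel_avg` (`SV/SelAvg.lean`, `F3`, `big`), which is at most
`C0 σ'^(-3) = C0 (log z)^3`.
-/

set_option autoImplicit false

namespace Pool.Agent.H77.K4

open Finset Pool.Agent.H77.SV

private theorem w5_log {z : ℕ} (hz : 8 ≤ z) : 2 ≤ Real.log z := by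
  have h1 : Real.log 8 ≤ Real.log z := Real.log_le_log (by norm_num) (by exact_mod_cast hz)
  have h2 : Real.log 8 = 3 * Real.log 2 := by
    rw [show (8 : ℝ) = 2 ^ 3 by norm_num, Real.log_pow]
    norm_num
  have h3 := Real.log_two_gt_d9
  linarith

private theorem w5_term (σ σ' : ℝ) (hσ : 0 ≤ σ) (p : ℕ) (hp : p.Prime) (x : Stt 3)
    (hx : x ≠ some none) :
    wN 3 σ p x ≤ ((if x = none then 1 else (p : ℕ) : ℕ) : ℝ) ^ σ' *
      (if (x.join).isSome then (1 + ((3 : ℕ) : ℝ) / p) / (2 * (p : ℝ) ^ (1 + σ')) else 1) := by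
  have hp0 : (0 : ℝ) < p := by exact_mod_cast hp.pos
  have hp1 : (1 : ℝ) ≤ p := by exact_mod_cast hp.one_lt.le
  rcases x with _ | _ | y
  · simp [wN]
  · exact absurd rfl hx
  · have h1 : (p : ℝ) ^ (1 + σ') = p ^ σ' * p := by
      rw [Real.rpow_add hp0, Real.rpow_one, mul_comm]
    have h2 : (p : ℝ) ≤ (p : ℝ) ^ (1 + σ) := by
      calc (p : ℝ) = (p : ℝ) ^ (1 : ℝ) := (Real.rpow_one _).symm
        _ ≤ _ := Real.rpow_le_rpow_of_exponent_le hp1 (by linarith)
    have h3 : (0 : ℝ) < (p : ℝ) ^ σ' := Real.rpow_pos_of_pos hp0 _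
    have h4 : (p : ℝ) ^ σ' * ((1 + ((3 : ℕ) : ℝ) / p) / (2 * (p : ℝ) ^ (1 + σ'))) =
        (1 + ((3 : ℕ) : ℝ) / p) / (2 * p) := by
      rw [h1]
      field_simp
    have h5 : wN 3 σ p (some (some y)) = (1 + ((3 : ℕ) : ℝ) / p) / (2 * (p : ℝ) ^ (1 + σ)) := rfl
    have h6 : ((some (some y) : Stt 3).join).isSome = true := rfl
    rw [h5, h6, if_pos rfl, if_neg (by simp), h4]
    exact div_le_div_of_nonneg_left (by positivity) (by positivity) (by linarith)

open Classical in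
theorem sum_sel (w : ℕ) (hw : 384 ≤ w) (a : ℕ) : ∃ C : ℝ, 0 < C ∧ ∀ z T : ℕ, 8 ≤ z → 1 ≤ T →
    (∑ φ : Pr w z → Stt 3,
      if Rest a φ then Wt T φ * ((Sel F3.ty F3.N (Pr w z) (jn φ)).card : ℝ) else 0) ≤
      C * Real.log z ^ 3 := by
  obtain ⟨C0, hC0, h0⟩ := sel_avg (big hw)
  refine ⟨C0 * Real.exp a, by positivity, fun z T hz hT => ?_⟩
  have hlog := w5_log hz
  have hl0 : 0 < Real.log z := by linarith
  have hσ0 : (0 : ℝ) < 1 / Real.log z := by positivity
  have hσ1 : 1 / Real.log z ≤ 1 / 2 := one_div_le_one_div_of_le (by norm_num) hlog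
  have hmain := h0 (1 / Real.log z) hσ0 hσ1 z
  set σ' : ℝ := 1 / Real.log z with hσ'
  set G : (Pr w z → Option (Fin 3 × ZMod 2)) → ℝ := fun ψ => ∏ p : Pr w z,
    (if (ψ p).isSome then (1 + ((3 : ℕ) : ℝ) / p) / (2 * (p : ℝ) ^ (1 + σ')) else 1) with hG
  have hT0 : (0 : ℝ) ≤ 1 / Real.log T := by
    have : 0 ≤ Real.log T := Real.log_nonneg (by exact_mod_cast hT)
    positivity
  have hG0 : ∀ ψ, 0 ≤ G ψ := by
    intro ψ
    refine prod_nonneg fun p _ => ?_
    split_ifs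
    · positivity
    · exact zero_le_one
  -- the weight of a restricted state
  have hwt : ∀ φ : Pr w z → Stt 3, Rest a φ → Wt T φ ≤ Real.exp a * G (jn φ) := by
    intro φ hφ
    have h1 : Wt T φ ≤ ∏ p : Pr w z,
        (((if φ p = none then 1 else (p : ℕ) : ℕ) : ℝ) ^ σ' *
          (if ((φ p).join).isSome then
            (1 + ((3 : ℕ) : ℝ) / (p : ℕ)) / (2 * ((p : ℕ) : ℝ) ^ (1 + σ')) else 1)) := by
      refine prod_le_prod (fun p _ => ?_) fun p _ => ?_
      · rcases h : φ p with _ | _ | y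
        · exact zero_le_one
        · exact absurd h (hφ.1 p)
        · show (0 : ℝ) ≤ (1 + ((3 : ℕ) : ℝ) / (p : ℕ)) / (2 * ((p : ℕ) : ℝ) ^ (1 + 1 / Real.log T))
          positivity
      · exact w5_term _ _ hT0 p (mem_filter.mp p.2).2 (φ p) (hφ.1 p)
    refine h1.trans ?_
    rw [prod_mul_distrib]
    have h2 : ∏ p : Pr w z, (((if φ p = none then 1 else (p : ℕ) : ℕ) : ℝ) ^ σ') =
        ((∏ p : Pr w z, (if φ p = none then 1 else (p : ℕ)) : ℕ) : ℝ) ^ σ' := by
      rw [Real.finsetProd_rpow _ _ (fun p _ => Nat.cast_nonneg _), Nat.cast_prod]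
    have h3 : ((∏ p : Pr w z, (if φ p = none then 1 else (p : ℕ)) : ℕ) : ℝ) ^ σ' ≤
        Real.exp a := by
      have hz0 : (0 : ℝ) < z := by
        have : 0 < z := by omega
        exact_mod_cast this
      calc ((∏ p : Pr w z, (if φ p = none then 1 else (p : ℕ)) : ℕ) : ℝ) ^ σ'
          ≤ ((z : ℝ) ^ a) ^ σ' := Real.rpow_le_rpow (Nat.cast_nonneg _)
            (by exact_mod_cast hφ.2) hσ0.le
        _ = Real.exp a := by
            rw [← Real.rpow_natCast, ← Real.rpow_mul hz0.le, Real.rpow_def_of_pos hz0, hσ']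
            congr 1
            field_simp
    rw [h2]
    exact mul_le_mul_of_nonneg_right h3 (hG0 (jn φ))
  rw [← sum_filter]
  have hinj : Set.InjOn (jn (w := w) (z := z))
      ((univ.filter fun φ : Pr w z → Stt 3 => Rest a φ : Finset _) : Set (Pr w z → Stt 3)) := by
    intro φ hφ φ' hφ' h
    rw [Finset.mem_coe, mem_filter] at hφ hφ'
    funext p
    have h1 := congrFun h p
    have h2 := hφ.2.1 p
    have h3 := hφ'.2.1 p
    unfold jn at h1
    rcases h4 : φ p with _ | _ | y <;> rcases h5 : φ' p with _ | _ | y' <;>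
      rw [h4] at h1 h2 <;> rw [h5] at h1 h3 <;> simp_all
  calc ∑ φ ∈ univ.filter (fun φ : Pr w z → Stt 3 => Rest a φ),
        Wt T φ * ((Sel F3.ty F3.N (Pr w z) (jn φ)).card : ℝ)
      ≤ ∑ φ ∈ univ.filter (fun φ : Pr w z → Stt 3 => Rest a φ),
        Real.exp a * (G (jn φ) * ((Sel F3.ty F3.N (Pr w z) (jn φ)).card : ℝ)) := by
        refine sum_le_sum fun φ hφ => ?_
        rw [← mul_assoc]
        exact mul_le_mul_of_nonneg_right (hwt φ (mem_filter.mp hφ).2) (Nat.cast_nonneg _)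
    _ = ∑ ψ ∈ (univ.filter (fun φ : Pr w z → Stt 3 => Rest a φ)).image jn,
        Real.exp a * (G ψ * ((Sel F3.ty F3.N (Pr w z) ψ).card : ℝ)) := by
        rw [sum_image hinj]
    _ ≤ ∑ ψ : Pr w z → Option (Fin 3 × ZMod 2),
        Real.exp a * (G ψ * ((Sel F3.ty F3.N (Pr w z) ψ).card : ℝ)) :=
        sum_le_sum_of_subset_of_nonneg (subset_univ _) fun ψ _ _ =>
          mul_nonneg (Real.exp_pos _).le (mul_nonneg (hG0 ψ) (Nat.cast_nonneg _))
    _ = Real.exp a * ∑ ψ : Pr w z → Option (Fin 3 × ZMod 2),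
        G ψ * ((Sel F3.ty F3.N (Pr w z) ψ).card : ℝ) := by rw [mul_sum]
    _ ≤ Real.exp a * (C0 * σ' ^ (-((3 : ℕ) : ℝ))) :=
        mul_le_mul_of_nonneg_left hmain (Real.exp_pos _).le
    _ = C0 * Real.exp a * Real.log z ^ 3 := by
        have h1 : σ' ^ (-((3 : ℕ) : ℝ)) = Real.log z ^ 3 := by
          rw [Real.rpow_neg hσ0.le, Real.rpow_natCast, hσ']
          field_simp
        rw [h1]
        ring

end Pool.Agent.H77.K4
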