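import Mathlib

/-!
# W6: summation over tuples of primes with conditions

`I i`, `i < J`, finite sets, `u ≥ 0` a weight, `K` a set of indices, `θ, R ≥ 0`. For each tuple `pp`
there is a finite set `S pp`, which does not change if the `pp i` with `i ∈ K` are changed, with
`# S pp ≤ R`. If for all `pp`, `x ∈ S pp`, `i ∈ K` the `u`-mass of `{p ∈ I i : Q x p}` is at most `θ` times that
of `I i`, then
`sum_(pp ∈ prod I i) (prod_i u (pp i)) #{x ∈ S pp : Q x (pp i) for all i ∈ K} ≤
 θ^#K R prod_i sum_(p ∈ I i) u p`.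

Proof. For example by induction on `K` or directly: split `pp = (pp on K, pp off K)`. For fixed `pp`
off `K` the set `S` is fixed and
`sum over pp on K of prod_(i ∈ K) u (pp i) #{x ∈ S : ...} = sum_(x ∈ S) prod_(i ∈ K)
(sum_(p ∈ I i, Q x p) u p) ≤ R prod_(i ∈ K) θ (sum_(p ∈ I i) u p)`. Then sum over `pp` off `K`.
If some `I i` is empty both sides are trivial. A convenient way: the function
`G(pp) = #{x ∈ S pp : ∀ i ∈ K, Q x (pp i)}`; remove one index `i0 ∈ K` at a time: summing over the
value of `pp i0` only (`Function.update`) replaces the condition at `i0` by the factor `θ`: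
Induction statement for `K' ⊆ K`:
`sum_pp (prod u) #{x ∈ S pp : ∀ i ∈ K', Q x (pp i)} ≤ θ^#K' R prod_i (sum u)`.
-/

set_option autoImplicit false

namespace Pool.Agent.H77.K4

open Finset

namespace W6

/-- exchanging one coordinate with an outer variable -/
theorem exch {J : ℕ} (I : Fin J → Finset ℕ) (u : ℕ → ℝ) (i0 : Fin J) (F : (Fin J → ℕ) → ℝ) :
    (∑ p ∈ I i0, u p) * ∑ pp ∈ Fintype.piFinset I, (∏ i, u (pp i)) * F pp =
      ∑ pp ∈ Fintype.piFinset I, (∏ i, u (pp i)) *
        ∑ p ∈ I i0, u p * F (Function.update pp i0 p) := by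
  have e1 : (∑ p ∈ I i0, u p) * ∑ pp ∈ Fintype.piFinset I, (∏ i, u (pp i)) * F pp =
      ∑ x ∈ Fintype.piFinset I ×ˢ I i0, u x.2 * ((∏ i, u (x.1 i)) * F x.1) := by
    rw [sum_product, mul_comm, sum_mul]
    refine sum_congr rfl fun pp _ => ?_
    rw [mul_sum]
    exact sum_congr rfl fun p _ => by ring
  have e2 : ∑ pp ∈ Fintype.piFinset I, (∏ i, u (pp i)) *
        ∑ p ∈ I i0, u p * F (Function.update pp i0 p) =
      ∑ x ∈ Fintype.piFinset I ×ˢ I i0,
        (∏ i, u (x.1 i)) * (u x.2 * F (Function.update x.1 i0 x.2)) := by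
    rw [sum_product]
    refine sum_congr rfl fun pp _ => ?_
    rw [mul_sum]
  rw [e1, e2]
  refine sum_nbij' (fun x => (Function.update x.1 i0 x.2, x.1 i0))
    (fun x => (Function.update x.1 i0 x.2, x.1 i0)) ?_ ?_ ?_ ?_ ?_
  · rintro ⟨pp, p⟩ h
    simp only [mem_product, Fintype.mem_piFinset] at h ⊢
    refine ⟨fun a => ?_, h.1 i0⟩
    by_cases ha : a = i0
    · subst ha
      simpa using h.2
    · rw [Function.update_of_ne ha]
      exact h.1 a
  · rintro ⟨pp, p⟩ h
    simp only [mem_product, Fintype.mem_piFinset] at h ⊢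
    refine ⟨fun a => ?_, h.1 i0⟩
    by_cases ha : a = i0
    · subst ha
      simpa using h.2
    · rw [Function.update_of_ne ha]
      exact h.1 a
  · rintro ⟨pp, p⟩ _
    simp
  · rintro ⟨pp, p⟩ _
    simp
  · rintro ⟨pp, p⟩ _
    simp only [Function.update_idem, Function.update_eq_self]
    have h1 : ∏ i, u (pp i) = u (pp i0) * ∏ i ∈ univ.erase i0, u (pp i) :=
      (mul_prod_erase univ (fun i => u (pp i)) (mem_univ i0)).symm
    have h2 : ∏ i, u (Function.update pp i0 p i) = u p * ∏ i ∈ univ.erase i0, u (pp i) := by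
      rw [← mul_prod_erase univ (fun i => u (Function.update pp i0 p i)) (mem_univ i0),
        Function.update_self]
      congr 1
      refine prod_congr rfl fun i hi => ?_
      rw [Function.update_of_ne (ne_of_mem_erase hi)]
    rw [h1, h2]
    ring

open Classical in
theorem step {X : Type} {J : ℕ} (I : Fin J → Finset ℕ) (K : Finset (Fin J)) (u : ℕ → ℝ)
    (hu : ∀ p, 0 ≤ u p) (θ : ℝ) (hθ : 0 ≤ θ) (S : (Fin J → ℕ) → Finset X)
    (hS : ∀ pp pp' : Fin J → ℕ, (∀ i, i ∉ K → pp i = pp' i) → S pp = S pp')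
    (Q : X → ℕ → Prop)
    (hQ : ∀ pp, ∀ x ∈ S pp, ∀ i ∈ K, ∑ p ∈ (I i).filter (Q x), u p ≤ θ * ∑ p ∈ I i, u p)
    (K' : Finset (Fin J)) (i0 : Fin J) (hi0 : i0 ∈ K) (hi : i0 ∉ K') :
    ∑ pp ∈ Fintype.piFinset I, (∏ i, u (pp i)) *
      (((S pp).filter fun x => ∀ i ∈ insert i0 K', Q x (pp i)).card : ℝ) ≤
      θ * ∑ pp ∈ Fintype.piFinset I, (∏ i, u (pp i)) *
      (((S pp).filter fun x => ∀ i ∈ K', Q x (pp i)).card : ℝ) := by
  set A : ℝ := ∑ p ∈ I i0, u p with hA
  have hA0 : 0 ≤ A := sum_nonneg fun p _ => hu p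
  rcases hA0.eq_or_lt with h0 | h0
  · have hz : ∀ pp ∈ Fintype.piFinset I, ∏ i, u (pp i) = 0 := by
      intro pp hpp
      refine prod_eq_zero (mem_univ i0) ?_
      exact (sum_eq_zero_iff_of_nonneg (fun p _ => hu p)).mp h0.symm _
        (Fintype.mem_piFinset.mp hpp i0)
    rw [sum_eq_zero fun pp hpp => by rw [hz pp hpp, zero_mul],
      sum_eq_zero fun pp hpp => by rw [hz pp hpp, zero_mul], mul_zero]
  · refine le_of_mul_le_mul_left ?_ h0
    rw [hA, exch I u i0 (fun pp => (((S pp).filter fun x => ∀ i ∈ insert i0 K', Q x (pp i)).card : ℝ)),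
      ← hA, ← mul_assoc, mul_sum]
    refine sum_le_sum fun pp _ => ?_
    have hw : 0 ≤ ∏ i, u (pp i) := prod_nonneg fun i _ => hu _
    rw [mul_left_comm]
    refine mul_le_mul_of_nonneg_left ?_ hw
    have hc : ∀ p, (((S (Function.update pp i0 p)).filter fun x =>
        ∀ i ∈ insert i0 K', Q x (Function.update pp i0 p i)).card : ℝ) =
        ∑ x ∈ (S pp).filter (fun x => ∀ i ∈ K', Q x (pp i)), if Q x p then (1 : ℝ) else 0 := by
      intro p
      have e : S (Function.update pp i0 p) = S pp := by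
        refine hS _ _ fun i hiK => ?_
        rw [Function.update_of_ne]
        rintro rfl
        exact hiK hi0
      rw [e, ← sum_filter, sum_const, nsmul_eq_mul, mul_one, filter_filter]
      congr 2
      refine filter_congr fun x _ => ?_
      constructor
      · intro h
        refine ⟨fun i hiK' => ?_, ?_⟩
        · have := h i (mem_insert_of_mem hiK')
          rwa [Function.update_of_ne] at this
          rintro rfl
          exact hi hiK'
        · have := h i0 (mem_insert_self _ _)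
          rwa [Function.update_self] at this
      · rintro ⟨h1, h2⟩ i hiK'
        by_cases hne : i = i0
        · subst hne
          rwa [Function.update_self]
        · rw [Function.update_of_ne hne]
          exact h1 i (mem_of_mem_insert_of_ne hiK' hne)
    calc ∑ p ∈ I i0, u p * (((S (Function.update pp i0 p)).filter fun x =>
        ∀ i ∈ insert i0 K', Q x (Function.update pp i0 p i)).card : ℝ)
        = ∑ p ∈ I i0, ∑ x ∈ (S pp).filter (fun x => ∀ i ∈ K', Q x (pp i)),
            if Q x p then u p else 0 := by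
          refine sum_congr rfl fun p _ => ?_
          rw [hc p, mul_sum]
          refine sum_congr rfl fun x _ => ?_
          split_ifs <;> simp
      _ = ∑ x ∈ (S pp).filter (fun x => ∀ i ∈ K', Q x (pp i)), ∑ p ∈ (I i0).filter (Q x), u p := by
          rw [sum_comm]
          refine sum_congr rfl fun x _ => ?_
          rw [sum_filter]
      _ ≤ ∑ x ∈ (S pp).filter (fun x => ∀ i ∈ K', Q x (pp i)), θ * A :=
          sum_le_sum fun x hx => hQ pp x (mem_filter.mp hx).1 i0 hi0
      _ = A * θ * (((S pp).filter (fun x => ∀ i ∈ K', Q x (pp i))).card : ℝ) := by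
          rw [sum_const, nsmul_eq_mul]
          ring

end W6

open Classical in
theorem mix {X : Type} {J : ℕ} (I : Fin J → Finset ℕ) (K : Finset (Fin J)) (u : ℕ → ℝ)
    (hu : ∀ p, 0 ≤ u p) (θ R : ℝ) (hθ : 0 ≤ θ) (hR : 0 ≤ R) (S : (Fin J → ℕ) → Finset X)
    (hS : ∀ pp pp' : Fin J → ℕ, (∀ i, i ∉ K → pp i = pp' i) → S pp = S pp')
    (Q : X → ℕ → Prop)
    (hQ : ∀ pp, ∀ x ∈ S pp, ∀ i ∈ K, ∑ p ∈ (I i).filter (Q x), u p ≤ θ * ∑ p ∈ I i, u p)
    (hSR : ∀ pp, ((S pp).card : ℝ) ≤ R) :
    ∑ pp ∈ Fintype.piFinset I, (∏ i, u (pp i)) *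
      (((S pp).filter fun x => ∀ i ∈ K, Q x (pp i)).card : ℝ) ≤
      θ ^ K.card * R * ∏ i, ∑ p ∈ I i, u p := by
  have key : ∀ K' : Finset (Fin J), K' ⊆ K →
      ∑ pp ∈ Fintype.piFinset I, (∏ i, u (pp i)) *
      (((S pp).filter fun x => ∀ i ∈ K', Q x (pp i)).card : ℝ) ≤
      θ ^ K'.card * R * ∏ i, ∑ p ∈ I i, u p := by
    intro K'
    induction K' using Finset.induction_on with
    | empty =>
      intro _
      rw [card_empty, pow_zero, one_mul, prod_univ_sum, mul_sum]
      refine sum_le_sum fun pp _ => ?_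
      rw [mul_comm R]
      refine mul_le_mul_of_nonneg_left ?_ (prod_nonneg fun i _ => hu _)
      refine le_trans ?_ (hSR pp)
      exact_mod_cast card_filter_le _ _
    | insert i0 K' hi ih =>
      intro hK
      refine (W6.step I K u hu θ hθ S hS Q hQ K' i0 (hK (mem_insert_self _ _)) hi).trans ?_
      rw [card_insert_of_notMem hi, pow_succ]
      calc _ ≤ θ * (θ ^ K'.card * R * ∏ i, ∑ p ∈ I i, u p) :=
            mul_le_mul_of_nonneg_left (ih ((subset_insert _ _).trans hK)) hθ
        _ = _ := by ring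
  exact key K (Subset.refl _)

end Pool.Agent.H77.K4
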