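import Pool.Agent.H77.K4.W1
import Pool.Agent.H77.K4.W4
import Pool.Agent.H77.K4.W5
import Pool.Agent.H77.K4.W6
import Pool.Agent.H77.K4.V6
import Pool.Agent.H77.K4.V2

/-!
# W9: the square part of `Km`

`t0 ≠ 0`. `cntQ ψ pp t0`: the sum over `α` of the number of elements of `cntK ψ pp t0 α` whose
`Dc (J2 t0)` is a square. Claim: for given `w, A` there is `C` such that for admissible
`P` with `PH`, for every `ε > 0` and `z ≥ z0(P, ε)`:
`(1/2)^J sum_(x ∈ SS) cntQ ≤ (C 0.7^J + ε) U0`.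

Proof. By `sq_part` (drop the condition on `bt (pp i)`) and `card_Phs`:
`cntQ ≤ 4 # Phs = 4 * 2^(J+2) (1/2)^n3 # R0s ψ t0 pp`, so `(1/2)^J cntQ ≤ 16 (1/2)^n3 # R0s ψ t0 pp`.
And `R0s ψ t0 pp` = `{α ∈ R0s ψ t0 (no primes) : bt (pp i) (Da α) = 0 for all i}`, which contains `0`:
`# R0s ψ t0 pp = 1 + #{α ∈ R'' \ {0} : bt (pp i) (Da α) = 0 ∀ i}`, `R'' = R0s ψ t0 (Fin 0)`.
(At `x ∈ SS` the primes `ppI i` are `> z`.) Apply `ubgen` (`SS ⊆ BS`, `rest`) with
`g φ pp = [Rest (A+2) φ] 16 (1/2)^n3(jn φ) (1 + #{...})` for `pp` with all `pp i > z` prime (`g = 0`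
otherwise).
* The term `1`: `16 sum_φ Wt T φ (1/2)^n3 ≤ 16 ε' (log z/log w)^3` by `sum_wt_n3`; the factor
  `sum_pp prod 1/pp_i = prod L_i` (`piFinset`). Total `C0 T^2 M^(-3) (log z)^(-3) * 16 ε'
  (log z/log w)^3 prod L_i = 16 C0 ε' U0`; choose `ε' = ε/(16 C0)`.
* The rest: `α ≠ 0`: `Da α > 1` is squarefree, so not a square, `|Da α| ≤ z^(A+2)` (`α p = 0` if
  `ψ p = none`). `mix` with `K` = everything, `S = R'' \ {0}`, `R = # R''`, `θ = 0.7`, and
  `(1/2)^n3 # R'' ≤ # Sel` (`r_le_sel`), `sum_sel` (constant depends on `w`, `A`).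
-/

set_option autoImplicit false

namespace Pool.Agent.H77.K4

open Finset Pool.Agent.H77.SV

open Classical in
/-- the square part -/
noncomputable def cntQ {w z J : ℕ} (ψ : Pr w z → Option (Fin 3 × ZMod 2)) (pp : Fin J → ℕ)
    (t0 : V2) : ℕ :=
  ∑ α : Fin J → Bool, ((cntK ψ pp t0 α).filter fun x =>
    IsSquare (Dc (J2 t0) x.1 x.2.2.1 x.2.2.2)).card

/-- `R0s` for `pp` inside `R0s` for no primes -/
theorem R0s_eq {w z J : ℕ} (ψ : Pr w z → Option (Fin 3 × ZMod 2)) (t0 : V2) (pp : Fin J → ℕ)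
    (α : Pr w z → ZMod 2) : α ∈ R0s ψ t0 pp ↔
      α ∈ R0s ψ t0 (fun i : Fin 0 => (i : ℕ)) ∧ ∀ i, bt (pp i) (Da α) = 0 := by
  classical
  unfold R0s
  simp only [mem_filter, mem_univ, true_and]
  constructor
  · rintro ⟨h1, h2, h3, h4, h5⟩
    exact ⟨⟨h1, h2, h3, h4, fun i => i.elim0⟩, h5⟩
  · rintro ⟨⟨h1, h2, h3, h4, -⟩, h5⟩
    exact ⟨h1, h2, h3, h4, h5⟩

private theorem w9_Wt_nonneg {w z : ℕ} (T : ℕ) (φ : Pr w z → Stt 3) : 0 ≤ Wt T φ := by
  unfold Wt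
  refine prod_nonneg fun p _ => ?_
  rcases φ p with _ | _ | a <;> simp only [wN] <;> positivity

private theorem w9_ee {P : Par} (hP : P.Adm) (i : ℕ) : 1 ≤ P.ee i := by
  have h1 := hP.hE
  have h2 := hP.hB
  unfold Par.ee
  exact Nat.mul_pos (by omega) (pow_pos (by omega) _)

private theorem w9_ee_E0 {P : Par} (hP : P.Adm) (i : ℕ) : P.E0 ≤ P.ee i := by
  have h2 := hP.hB
  unfold Par.ee
  exact Nat.le_mul_of_pos_right _ (pow_pos (by omega) _)

private theorem w9_mem_I {P : Par} (hP : P.Adm) {z i p : ℕ} (hz : 2 ≤ z) (h : p ∈ P.I z i) :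
    p.Prime ∧ z < p := by
  unfold Par.I at h
  rw [mem_filter, mem_Ioc] at h
  refine ⟨h.2, lt_of_le_of_lt ?_ h.1.1⟩
  calc z = z ^ 1 := (pow_one z).symm
    _ ≤ z ^ P.ee i := Nat.pow_le_pow_right (by omega) (w9_ee hP i)

private theorem w9_ppI {P : Par} (hP : P.Adm) {z Y Z i : ℕ} (hz : 2 ≤ z)
    (h : ((P.I z i).filter (· ∣ Y + Z)).card = 1) :
    (P.ppI z Y Z i).Prime ∧ z < P.ppI z Y Z i := by
  obtain ⟨p, hp⟩ := card_eq_one.1 h
  have h1 : P.ppI z Y Z i = p := by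
    unfold Par.ppI
    rw [hp]
    simp
  have h2 : p ∈ (P.I z i).filter (· ∣ Y + Z) := by
    rw [hp]
    exact mem_singleton_self _
  rw [h1]
  exact w9_mem_I hP hz (mem_filter.1 h2).1

private theorem w9_prime {w z : ℕ} (p : Pr w z) : (p : ℕ).Prime := (mem_filter.1 p.2).2

private theorem w9_Da_pos {w z : ℕ} (α : Pr w z → ZMod 2) : 0 < Da α := by
  unfold Da
  refine prod_pos fun p _ => ?_
  split_ifs
  · exact_mod_cast (w9_prime p).pos
  · norm_num

private theorem w9_Da_nsq {w z : ℕ} {α : Pr w z → ZMod 2} (h : α ≠ 0) :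
    ¬ IsSquare (Da α) := by
  classical
  obtain ⟨p, hp⟩ := Function.ne_iff.1 h
  have hp1 : α p = 1 := by
    have h2 : ∀ x : ZMod 2, x ≠ 0 → x = 1 := by decide
    exact h2 _ hp
  have hpp : (p : ℕ).Prime := w9_prime p
  rintro ⟨m, hm⟩
  have hprime : Prime ((p : ℕ) : ℤ) := Nat.prime_iff_prime_int.1 hpp
  have hsplit : Da α =
      ((p : ℕ) : ℤ) * ∏ q ∈ univ.erase p, (if α q = 1 then ((q : ℕ) : ℤ) else 1) := by
    unfold Da
    rw [← mul_prod_erase univ _ (mem_univ p), if_pos hp1]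
  have h1 : ((p : ℕ) : ℤ) ∣ m * m := ⟨_, by rw [← hm, hsplit]⟩
  have h2 : ((p : ℕ) : ℤ) ∣ m := by
    rcases hprime.dvd_or_dvd h1 with h | h <;> exact h
  obtain ⟨r, hr⟩ := h2
  have h3 : (∏ q ∈ univ.erase p, (if α q = 1 then ((q : ℕ) : ℤ) else 1)) =
      ((p : ℕ) : ℤ) * (r * r) := by
    have h5 : ((p : ℕ) : ℤ) * ∏ q ∈ univ.erase p, (if α q = 1 then ((q : ℕ) : ℤ) else 1) =
        ((p : ℕ) : ℤ) * (((p : ℕ) : ℤ) * (r * r)) := by
      rw [← hsplit, hm, hr]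
      ring
    exact mul_left_cancel₀ hprime.ne_zero h5
  have h4 : ((p : ℕ) : ℤ) ∣ ∏ q ∈ univ.erase p, (if α q = 1 then ((q : ℕ) : ℤ) else 1) := ⟨_, h3⟩
  obtain ⟨q, hq, hq1⟩ := (hprime.dvd_finsetProd_iff _).1 h4
  split_ifs at hq1
  · have h6 : (p : ℕ) ∣ (q : ℕ) := by exact_mod_cast hq1
    have h7 := (Nat.prime_dvd_prime_iff_eq hpp (w9_prime q)).1 h6
    exact (mem_erase.1 hq).1 (Subtype.ext h7.symm)
  · exact hprime.not_isUnit (isUnit_of_dvd_one hq1)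

private theorem w9_Da_le {w z a : ℕ} {φ : Pr w z → Stt 3} (hr : Rest a φ)
    {α : Pr w z → ZMod 2} (h : ∀ p, jn φ p = none → α p = 0) : |Da α| ≤ (z : ℤ) ^ a := by
  rw [abs_of_pos (w9_Da_pos α)]
  calc Da α ≤ ∏ p : Pr w z, (if φ p = none then (1 : ℤ) else ((p : ℕ) : ℤ)) := by
        unfold Da
        refine prod_le_prod (fun p _ => ?_) fun p _ => ?_
        · split_ifs
          · positivity
          · norm_num
        · by_cases hφ : φ p = none
          · have h1 : α p = 0 := h p (by unfold jn; rw [hφ]; rfl)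
            rw [if_pos hφ, if_neg (by rw [h1]; decide)]
          · rw [if_neg hφ]
            split_ifs
            · exact le_rfl
            · exact_mod_cast (w9_prime p).one_lt.le
    _ = ((∏ p : Pr w z, (if φ p = none then 1 else (p : ℕ)) : ℕ) : ℤ) := by
        push_cast
        rfl
    _ ≤ _ := by exact_mod_cast hr.2

private theorem w9_phi {P : Par} {z : ℕ} (hz : 2 ≤ z)
    (hPH : ∀ i : Fin P.J, ∀ D : ℤ, ¬ IsSquare D → |D| ≤ (z : ℤ) ^ (P.A + 3) →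
      ∑ p ∈ (P.I z i).filter (fun p => bt p D = 0), 1 / (p : ℝ) ≤
        0.7 * ∑ p ∈ P.I z i, 1 / (p : ℝ))
    (φ : Pr P.w z → Stt 3) (hr : Rest (P.A + 2) φ) (t0 : V2) :
    ∑ pp ∈ Fintype.piFinset (fun i : Fin P.J => P.I z i),
      (∏ i, 1 / (pp i : ℝ)) * ((R0s (jn φ) t0 pp).card : ℝ) ≤
      (1 + 0.7 ^ P.J * ((R0s (jn φ) t0 (fun i : Fin 0 => (i : ℕ))).card : ℝ)) *
        ∏ i : Fin P.J, ∑ p ∈ P.I z i, 1 / (p : ℝ) := by
  classical
  set R := R0s (jn φ) t0 (fun i : Fin 0 => (i : ℕ)) with hR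
  have hle : ∀ pp : Fin P.J → ℕ, ((R0s (jn φ) t0 pp).card : ℝ) ≤
      1 + (((R.erase 0).filter fun α => ∀ i ∈ (univ : Finset (Fin P.J)),
        bt (pp i) (Da α) = 0).card : ℝ) := by
    intro pp
    have h1 : R0s (jn φ) t0 pp ⊆ insert 0 ((R.erase 0).filter fun α =>
        ∀ i ∈ (univ : Finset (Fin P.J)), bt (pp i) (Da α) = 0) := by
      intro α hα
      obtain ⟨h2, h3⟩ := (R0s_eq _ _ _ _).1 hα
      by_cases h0 : α = 0
      · rw [h0]
        exact mem_insert_self _ _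
      · exact mem_insert_of_mem (mem_filter.2 ⟨mem_erase.2 ⟨h0, h2⟩, fun i _ => h3 i⟩)
    have h2 := (card_le_card h1).trans (card_insert_le _ _)
    have h3 : ((R0s (jn φ) t0 pp).card : ℝ) ≤ ((((R.erase 0).filter fun α =>
      ∀ i ∈ (univ : Finset (Fin P.J)), bt (pp i) (Da α) = 0).card + 1 : ℕ) : ℝ) := by
      exact_mod_cast h2
    rw [Nat.cast_add, Nat.cast_one] at h3
    linarith
  have hmix := mix (X := Pr P.w z → ZMod 2) (fun i : Fin P.J => P.I z i) univ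
    (fun p => 1 / (p : ℝ)) (fun p => by positivity) 0.7 (R.card : ℝ) (by norm_num)
    (Nat.cast_nonneg _) (fun _ => R.erase 0) (fun _ _ _ => rfl)
    (fun α p => bt p (Da α) = 0) (by
      intro pp α hα i _
      have h1 := mem_erase.1 hα
      have h2 : ∀ p, jn φ p = none → α p = 0 := by
        have h3 := h1.2
        rw [hR] at h3
        unfold R0s at h3
        exact (mem_filter.1 h3).2.1
      have h4 := hPH i (Da α) (w9_Da_nsq h1.1) ((w9_Da_le hr h2).trans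
        (pow_le_pow_right₀ (by exact_mod_cast (by omega : 1 ≤ z)) (by omega)))
      refine (le_of_eq (sum_congr ?_ fun _ _ => rfl)).trans h4
      ext p
      simp only [mem_filter])
    (fun _ => by exact_mod_cast card_le_card (erase_subset _ _))
  rw [card_univ, Fintype.card_fin] at hmix
  have hprod : ∏ i : Fin P.J, ∑ p ∈ P.I z i, 1 / (p : ℝ) =
      ∑ pp ∈ Fintype.piFinset (fun i : Fin P.J => P.I z i), ∏ i, 1 / (pp i : ℝ) :=
    prod_univ_sum (fun i : Fin P.J => P.I z i) (fun _ p => 1 / (p : ℝ))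
  calc ∑ pp ∈ Fintype.piFinset (fun i : Fin P.J => P.I z i),
      (∏ i, 1 / (pp i : ℝ)) * ((R0s (jn φ) t0 pp).card : ℝ)
      ≤ ∑ pp ∈ Fintype.piFinset (fun i : Fin P.J => P.I z i),
        (∏ i, 1 / (pp i : ℝ)) * (1 + (((R.erase 0).filter fun α =>
          ∀ i ∈ (univ : Finset (Fin P.J)), bt (pp i) (Da α) = 0).card : ℝ)) :=
        sum_le_sum fun pp _ => mul_le_mul_of_nonneg_left (hle pp)
          (prod_nonneg fun i _ => by positivity)
    _ = ∏ i : Fin P.J, ∑ p ∈ P.I z i, 1 / (p : ℝ) +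
        ∑ pp ∈ Fintype.piFinset (fun i : Fin P.J => P.I z i),
        (∏ i, 1 / (pp i : ℝ)) * (((R.erase 0).filter fun α =>
          ∀ i ∈ (univ : Finset (Fin P.J)), bt (pp i) (Da α) = 0).card : ℝ) := by
        rw [hprod, ← sum_add_distrib]
        exact sum_congr rfl fun pp _ => by ring
    _ ≤ ∏ i : Fin P.J, ∑ p ∈ P.I z i, 1 / (p : ℝ) + 0.7 ^ P.J * (R.card : ℝ) *
        ∏ i : Fin P.J, ∑ p ∈ P.I z i, 1 / (p : ℝ) := by
        refine add_le_add le_rfl (le_trans (le_of_eq ?_) hmix)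
        refine sum_congr rfl fun pp _ => ?_
        congr 3
        ext x
        simp only [mem_filter]
    _ = _ := by ring

private theorem w9_cntQ {w z J : ℕ} (hw : 2 ≤ w) (ψ : Pr w z → Option (Fin 3 × ZMod 2))
    {t0 : V2} (h0 : t0 ≠ 0) (pp : Fin J → ℕ) (hpp : ∀ i, (pp i).Prime ∧ z < pp i) :
    (1 / 2 : ℝ) ^ J * (cntQ ψ pp t0 : ℝ) ≤
      16 * ((1 / 2 : ℝ) ^ n3 ψ t0 * ((R0s ψ t0 pp).card : ℝ)) := by
  classical
  have h1 : cntQ ψ pp t0 ≤ 4 * (Phs ψ t0 pp).card := by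
    refine le_trans ?_ (sq_part hw ψ h0 pp hpp)
    unfold cntQ
    refine sum_le_sum fun α _ => card_le_card ?_
    unfold cntK
    intro x hx
    rw [mem_filter, mem_filter] at hx
    exact mem_filter.2 ⟨hx.1.1, hx.2⟩
  have h2 := card_Phs hw ψ t0 pp hpp
  have h3 : (cntQ ψ pp t0 : ℝ) ≤ 4 * ((Phs ψ t0 pp).card : ℝ) := by exact_mod_cast h1
  have h4 : ((Phs ψ t0 pp).card : ℝ) * 2 ^ n3 ψ t0 =
      2 ^ (J + 2) * ((R0s ψ t0 pp).card : ℝ) := by exact_mod_cast h2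
  have h5 : ((Phs ψ t0 pp).card : ℝ) =
      (1 / 2 : ℝ) ^ n3 ψ t0 * (2 ^ (J + 2) * ((R0s ψ t0 pp).card : ℝ)) := by
    rw [← h4]
    have h6 : (1 / 2 : ℝ) ^ n3 ψ t0 * 2 ^ n3 ψ t0 = 1 := by
      rw [← mul_pow]
      norm_num
    calc ((Phs ψ t0 pp).card : ℝ) = ((Phs ψ t0 pp).card : ℝ) *
          ((1 / 2 : ℝ) ^ n3 ψ t0 * 2 ^ n3 ψ t0) := by rw [h6, mul_one]
      _ = _ := by ring
  have h7 : (1 / 2 : ℝ) ^ J * 2 ^ J = 1 := by
    rw [← mul_pow]
    norm_num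
  calc (1 / 2 : ℝ) ^ J * (cntQ ψ pp t0 : ℝ)
      ≤ (1 / 2 : ℝ) ^ J * (4 * ((Phs ψ t0 pp).card : ℝ)) :=
        mul_le_mul_of_nonneg_left h3 (by positivity)
    _ = ((1 / 2 : ℝ) ^ J * 2 ^ J) *
        (16 * ((1 / 2 : ℝ) ^ n3 ψ t0 * ((R0s ψ t0 pp).card : ℝ))) := by
        rw [h5]
        ring
    _ = _ := by rw [h7, one_mul]

theorem ub_kmQ (w A : ℕ) (t0 : V2) (h0 : t0 ≠ 0) :
    ∃ C : ℝ, 0 < C ∧ ∀ B J E0 : ℕ, (⟨w, A, B, J, E0⟩ : Par).Adm →
    PH B E0 (A + 3) → ∀ ε : ℝ, 0 < ε →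
    ∃ z0 : ℕ, ∀ z T : ℕ, z0 ≤ z → (⟨w, A, B, J, E0⟩ : Par).TZ z T →
    (1 / 2 : ℝ) ^ J * ∑ x ∈ SS ⟨w, A, B, J, E0⟩ z T,
      (cntQ (jn (stt w z x.1 x.2))
        (fun i : Fin J => (⟨w, A, B, J, E0⟩ : Par).ppI z x.1 x.2 i) t0 : ℝ) ≤
      (C * 0.7 ^ J + ε) * (⟨w, A, B, J, E0⟩ : Par).U0 z T := by
  classical
  obtain ⟨C0, hC0, hub⟩ := ubgen
  by_cases hw : 384 ≤ w
  swap
  · refine ⟨1, one_pos, fun B J E0 hP => ?_⟩
    exact absurd hP.hw hw
  obtain ⟨C1, hC1, hsel⟩ := sum_sel w hw (A + 2)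
  have hlw : 0 < Real.log w := Real.log_pos (by exact_mod_cast (by omega : 1 < w))
  refine ⟨16 * C0 * C1 * Real.log w ^ 3, by positivity, ?_⟩
  intro B J E0 hP hPH ε hε
  set P : Par := ⟨w, A, B, J, E0⟩ with hPdef
  obtain ⟨z1, hz1⟩ := hub P hP
  obtain ⟨z2, hz2⟩ := sum_wt_n3 w (by omega) t0 (ε / (16 * C0)) (by positivity)
  have hPH' : ∀ i : ℕ, ∃ z0 : ℕ, ∀ z : ℕ, z0 ≤ z → ∀ D : ℤ, ¬ IsSquare D →
      |D| ≤ (z : ℤ) ^ (A + 3) →
      ∑ p ∈ (P.I z i).filter (fun p => bt p D = 0), 1 / (p : ℝ) ≤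
        0.7 * ∑ p ∈ P.I z i, 1 / (p : ℝ) := by
    intro i
    obtain ⟨z0, h⟩ := hPH (P.ee i) (w9_ee_E0 hP i)
    refine ⟨z0, fun z hz D hD hD' => ?_⟩
    have h1 := h z hz D hD hD'
    have h2 : (P.I z i).filter (fun p => bt p D = 0) =
        (Ioc (z ^ P.ee i) (z ^ (B * P.ee i))).filter (fun p => p.Prime ∧ bt p D = 0) := by
      unfold Par.I
      rw [filter_filter]
      rfl
    rw [h2]
    exact h1
  choose zf hzf using hPH'
  refine ⟨z1 + z2 + w + 8 + ∑ i ∈ range J, zf i, ?_⟩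
  intro z T hz hT
  have hzw : w ≤ z := by omega
  have hz8 : 8 ≤ z := by omega
  have hz22 : 2 ≤ z := by omega
  have hT1 : 1 ≤ T := le_trans (Nat.one_le_pow _ _ (by omega)) hT.1
  have hzi : ∀ i : Fin P.J, zf i ≤ z := by
    intro i
    have h1 : zf i ≤ ∑ i ∈ range J, zf i :=
      single_le_sum (f := zf) (fun _ _ => Nat.zero_le _) (mem_range.2 i.2)
    omega
  set LL0 : ℝ := ∏ i : Fin P.J, ∑ p ∈ P.I z i, 1 / (p : ℝ) with hLL0
  have hLL : 0 ≤ LL0 := prod_nonneg fun i _ => sum_nonneg fun p _ => by positivity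
  have hlz : 0 < Real.log z := Real.log_pos (by exact_mod_cast (by omega : 1 < z))
  have hMpos : 0 < (P.M : ℝ) := by
    exact_mod_cast w9_ee hP P.J
  -- the function g
  set g : (Pr P.w z → Stt 3) → (Fin P.J → ℕ) → ℝ := fun φ pp =>
    if Rest (P.A + 2) φ then
      16 * ((1 / 2 : ℝ) ^ n3 (jn φ) t0 * ((R0s (jn φ) t0 pp).card : ℝ)) else 0 with hg
  have hg0 : ∀ φ pp, 0 ≤ g φ pp := by
    intro φ pp
    simp only [hg]
    split_ifs
    · positivity
    · exact le_rfl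
  have hstep1 : (1 / 2 : ℝ) ^ J * ∑ x ∈ SS P z T,
      (cntQ (jn (stt w z x.1 x.2)) (fun i : Fin J => P.ppI z x.1 x.2 i) t0 : ℝ) ≤
      ∑ x ∈ BS P z T, g (stt P.w z x.1 x.2) (fun i => P.ppI z x.1 x.2 i) := by
    rw [mul_sum]
    refine le_trans (sum_le_sum fun x hx => ?_)
      (sum_le_sum_of_subset_of_nonneg (ss_bs hP hz22 hzw hT) fun x _ _ => hg0 _ _)
    have hr := rest hP hz22 hT hx
    simp only [hg]
    rw [if_pos hr]
    have hok : Ok P z x.1 x.2 := by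
      unfold SS at hx
      exact (mem_filter.1 hx).2
    exact w9_cntQ (by omega) _ h0 _ fun i => w9_ppI hP hz22 (hok.hI i i.2)
  have hstep2 := hz1 z T (by omega) hT g hg0
  have hstep3 : ∑ pp ∈ Fintype.piFinset (fun i : Fin P.J => P.I z i),
      (∏ i, 1 / (pp i : ℝ)) * ∑ φ : Pr P.w z → Stt 3, g φ pp * Wt T φ ≤
      16 * LL0 * (ε / (16 * C0) * (Real.log z / Real.log w) ^ 3 +
        0.7 ^ J * (C1 * Real.log z ^ 3)) := by
    calc ∑ pp ∈ Fintype.piFinset (fun i : Fin P.J => P.I z i),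
        (∏ i, 1 / (pp i : ℝ)) * ∑ φ : Pr P.w z → Stt 3, g φ pp * Wt T φ
        = ∑ φ : Pr P.w z → Stt 3, Wt T φ *
          ∑ pp ∈ Fintype.piFinset (fun i : Fin P.J => P.I z i),
            (∏ i, 1 / (pp i : ℝ)) * g φ pp := by
          simp_rw [mul_sum]
          rw [sum_comm]
          exact sum_congr rfl fun φ _ => sum_congr rfl fun pp _ => by ring
      _ ≤ ∑ φ : Pr P.w z → Stt 3, (16 * LL0 * (Wt T φ * (1 / 2 : ℝ) ^ n3 (jn φ) t0) +
          16 * LL0 * 0.7 ^ J * (if Rest (A + 2) φ then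
            Wt T φ * ((Sel F3.ty F3.N (Pr w z) (jn φ)).card : ℝ) else 0)) := by
          refine sum_le_sum fun φ _ => ?_
          have hW := w9_Wt_nonneg T φ
          by_cases hr : Rest (P.A + 2) φ
          · have h1 := w9_phi hz22 (fun i D hD hD' => hzf i z (hzi i) D hD hD') φ hr t0
            have h2 : (∑ pp ∈ Fintype.piFinset (fun i : Fin P.J => P.I z i),
                (∏ i, 1 / (pp i : ℝ)) * g φ pp) = 16 * (1 / 2 : ℝ) ^ n3 (jn φ) t0 *
                ∑ pp ∈ Fintype.piFinset (fun i : Fin P.J => P.I z i),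
                  (∏ i, 1 / (pp i : ℝ)) * ((R0s (jn φ) t0 pp).card : ℝ) := by
              rw [mul_sum]
              refine sum_congr rfl fun pp _ => ?_
              simp only [hg]
              rw [if_pos hr]
              ring
            have h3 := r_le_sel (by omega : 2 ≤ w) (jn φ) h0
            have h4 : ((R0s (jn φ) t0 (fun i : Fin 0 => (i : ℕ))).card : ℝ) ≤
                2 ^ n3 (jn φ) t0 * ((Sel F3.ty F3.N (Pr w z) (jn φ)).card : ℝ) := by
              exact_mod_cast h3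
            have h5 : (1 / 2 : ℝ) ^ n3 (jn φ) t0 *
                ((R0s (jn φ) t0 (fun i : Fin 0 => (i : ℕ))).card : ℝ) ≤
                ((Sel F3.ty F3.N (Pr w z) (jn φ)).card : ℝ) := by
              have h6 : (1 / 2 : ℝ) ^ n3 (jn φ) t0 * 2 ^ n3 (jn φ) t0 = 1 := by
                rw [← mul_pow]
                norm_num
              calc (1 / 2 : ℝ) ^ n3 (jn φ) t0 *
                  ((R0s (jn φ) t0 (fun i : Fin 0 => (i : ℕ))).card : ℝ)
                  ≤ (1 / 2 : ℝ) ^ n3 (jn φ) t0 *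
                    (2 ^ n3 (jn φ) t0 * ((Sel F3.ty F3.N (Pr w z) (jn φ)).card : ℝ)) :=
                    mul_le_mul_of_nonneg_left h4 (by positivity)
                _ = ((1 / 2 : ℝ) ^ n3 (jn φ) t0 * 2 ^ n3 (jn φ) t0) *
                    ((Sel F3.ty F3.N (Pr w z) (jn φ)).card : ℝ) := by ring
                _ = _ := by rw [h6, one_mul]
            rw [h2, if_pos hr]
            calc Wt T φ * (16 * (1 / 2 : ℝ) ^ n3 (jn φ) t0 *
                ∑ pp ∈ Fintype.piFinset (fun i : Fin P.J => P.I z i),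
                  (∏ i, 1 / (pp i : ℝ)) * ((R0s (jn φ) t0 pp).card : ℝ))
                ≤ Wt T φ * (16 * (1 / 2 : ℝ) ^ n3 (jn φ) t0 *
                  ((1 + 0.7 ^ P.J * ((R0s (jn φ) t0 (fun i : Fin 0 => (i : ℕ))).card : ℝ)) *
                    LL0)) :=
                  mul_le_mul_of_nonneg_left (mul_le_mul_of_nonneg_left h1 (by positivity)) hW
              _ = 16 * LL0 * (Wt T φ * (1 / 2 : ℝ) ^ n3 (jn φ) t0) +
                  16 * LL0 * 0.7 ^ J * (Wt T φ * ((1 / 2 : ℝ) ^ n3 (jn φ) t0 *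
                    ((R0s (jn φ) t0 (fun i : Fin 0 => (i : ℕ))).card : ℝ))) := by
                  ring
              _ ≤ _ := by
                  refine add_le_add le_rfl (mul_le_mul_of_nonneg_left ?_ (by positivity))
                  exact mul_le_mul_of_nonneg_left h5 hW
          · have h2 : (∑ pp ∈ Fintype.piFinset (fun i : Fin P.J => P.I z i),
                (∏ i, 1 / (pp i : ℝ)) * g φ pp) = 0 := by
              refine sum_eq_zero fun pp _ => ?_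
              simp only [hg]
              rw [if_neg hr, mul_zero]
            rw [h2, mul_zero, if_neg hr, mul_zero, add_zero]
            positivity
      _ = 16 * LL0 * (∑ φ : Pr P.w z → Stt 3, Wt T φ * (1 / 2 : ℝ) ^ n3 (jn φ) t0) +
          16 * LL0 * 0.7 ^ J * ∑ φ : Pr P.w z → Stt 3, (if Rest (A + 2) φ then
            Wt T φ * ((Sel F3.ty F3.N (Pr w z) (jn φ)).card : ℝ) else 0) := by
          rw [sum_add_distrib, mul_sum, mul_sum]
      _ ≤ 16 * LL0 * (ε / (16 * C0) * (Real.log z / Real.log w) ^ 3) +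
          16 * LL0 * 0.7 ^ J * (C1 * Real.log z ^ 3) := by
          refine add_le_add (mul_le_mul_of_nonneg_left (hz2 z T (by omega) hT1) (by positivity))
            (mul_le_mul_of_nonneg_left ?_ (by positivity))
          have h1 := hsel z T hz8 hT1
          refine le_trans (le_of_eq ?_) h1
          exact sum_congr rfl fun φ _ => by congr
      _ = _ := by ring
  have hU : P.U0 z T = (T : ℝ) ^ 2 / ((P.M : ℝ) ^ 3 * Real.log w ^ 3) * LL0 := by
    unfold Par.U0 Par.L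
    rw [hLL0, ← Fin.prod_univ_eq_prod_range (fun i => ∑ p ∈ P.I z i, 1 / (p : ℝ)) P.J]
  have hlogM : Real.log ((z : ℝ) ^ P.M) = P.M * Real.log z := by
    rw [Real.log_pow]
  refine hstep1.trans (hstep2.trans ?_)
  rw [hlogM]
  refine (mul_le_mul_of_nonneg_left hstep3 (by positivity)).trans (le_of_eq ?_)
  rw [hU]
  field_simp
  ring

end Pool.Agent.H77.K4
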