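import Pool.Agent.H77.K4.W8
import Pool.Agent.H77.K4.W9

/-!
# W10: the average of `Km`

Sum `km_le` over `x ∈ SS` (`k = # bgX`), split `cntK` into the elements with nonsquare and square
`Dc (J2 t0)` (`cntN`, `cntQ`), use W8 and W9; `0.7^J ≤ 0.85^J`, `U0 ≥ 0`.
-/

set_option autoImplicit false

namespace Pool.Agent.H77.K4

open Finset Pool.Agent.H77.SV

theorem ub_km (w A : ℕ) (t0 : V2) (h0 : t0 ≠ 0) :
    ∃ C : ℝ, 0 < C ∧ ∀ B J E0 : ℕ, (⟨w, A, B, J, E0⟩ : Par).Adm →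
    PH B E0 (A + 3) → ∀ ε : ℝ, 0 < ε →
    ∃ z0 : ℕ, ∀ z T : ℕ, z0 ≤ z → (⟨w, A, B, J, E0⟩ : Par).TZ z T →
    (1 / 2 : ℝ) ^ J * ∑ x ∈ SS ⟨w, A, B, J, E0⟩ z T,
      ((dat z x.1 x.2 (bgX z x.1 x.2).card).Km (MM J (bgX z x.1 x.2).card) t0 : ℝ) ≤
      (C * 0.85 ^ J + ε) * (⟨w, A, B, J, E0⟩ : Par).U0 z T := by
  obtain ⟨C1, hC1, h1⟩ := ub_kmN w A t0 h0
  obtain ⟨C2, hC2, h2⟩ := ub_kmQ w A t0 h0
  refine ⟨C1 + C2, by positivity, ?_⟩
  intro B J E0 hAdm hPH ε hε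
  obtain ⟨z1, hz1⟩ := h1 B J E0 hAdm hPH
  obtain ⟨z2, hz2⟩ := h2 B J E0 hAdm hPH ε hε
  refine ⟨max (max z1 z2) 2, ?_⟩
  intro z T hz hT
  have hzz1 : z1 ≤ z := le_trans (le_trans (le_max_left _ _) (le_max_left _ _)) hz
  have hzz2 : z2 ≤ z := le_trans (le_trans (le_max_right _ _) (le_max_left _ _)) hz
  have hzz3 : 2 ≤ z := le_trans (le_max_right _ _) hz
  have hN := hz1 z T hzz1 hT
  have hQ := hz2 z T hzz2 hT
  have hU : 0 ≤ (⟨w, A, B, J, E0⟩ : Par).U0 z T := by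
    unfold Par.U0
    apply mul_nonneg
    · apply div_nonneg (by positivity)
      apply mul_nonneg (by positivity)
      exact pow_nonneg (Real.log_natCast_nonneg _) 3
    · apply Finset.prod_nonneg
      intro i _
      unfold Par.L
      exact Finset.sum_nonneg fun p _ => by positivity
  have hsum : ∑ x ∈ SS ⟨w, A, B, J, E0⟩ z T,
      ((dat z x.1 x.2 (bgX z x.1 x.2).card).Km (MM J (bgX z x.1 x.2).card) t0 : ℝ) ≤
      ∑ x ∈ SS ⟨w, A, B, J, E0⟩ z T, (cntN (jn (stt w z x.1 x.2))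
        (fun i : Fin J => (⟨w, A, B, J, E0⟩ : Par).ppI z x.1 x.2 i) t0 : ℝ) +
      ∑ x ∈ SS ⟨w, A, B, J, E0⟩ z T, (cntQ (jn (stt w z x.1 x.2))
        (fun i : Fin J => (⟨w, A, B, J, E0⟩ : Par).ppI z x.1 x.2 i) t0 : ℝ) := by
    rw [← Finset.sum_add_distrib]
    apply Finset.sum_le_sum
    intro x hx
    have hxk : x ∈ SSk ⟨w, A, B, J, E0⟩ z T (bgX z x.1 x.2).card := by
      unfold SSk
      rw [Finset.mem_filter]
      exact ⟨hx, rfl⟩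
    have h3 := km_le hAdm hzz3 hT hxk h0
    have h4 : ∑ α : Fin J → Bool,
        (cntK (jn (stt w z x.1 x.2))
          (fun i : Fin J => (⟨w, A, B, J, E0⟩ : Par).ppI z x.1 x.2 i) t0 α).card =
        cntN (jn (stt w z x.1 x.2))
          (fun i : Fin J => (⟨w, A, B, J, E0⟩ : Par).ppI z x.1 x.2 i) t0 +
        cntQ (jn (stt w z x.1 x.2))
          (fun i : Fin J => (⟨w, A, B, J, E0⟩ : Par).ppI z x.1 x.2 i) t0 := by
      unfold cntN cntQ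
      rw [← Finset.sum_add_distrib]
      apply Finset.sum_congr rfl
      intro α _
      rw [add_comm]
      exact (Finset.card_filter_add_card_filter_not _).symm
    have h5 : (dat z x.1 x.2 (bgX z x.1 x.2).card).Km (MM J (bgX z x.1 x.2).card) t0 ≤
        cntN (jn (stt w z x.1 x.2))
          (fun i : Fin J => (⟨w, A, B, J, E0⟩ : Par).ppI z x.1 x.2 i) t0 +
        cntQ (jn (stt w z x.1 x.2))
          (fun i : Fin J => (⟨w, A, B, J, E0⟩ : Par).ppI z x.1 x.2 i) t0 := by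
      rw [← h4]
      exact h3
    exact_mod_cast h5
  have hpow : (0.7 : ℝ) ^ J ≤ 0.85 ^ J := pow_le_pow_left₀ (by norm_num) (by norm_num) J
  have hJ : (0 : ℝ) ≤ (1 / 2) ^ J := by positivity
  calc _ ≤ (1 / 2 : ℝ) ^ J * (∑ x ∈ SS ⟨w, A, B, J, E0⟩ z T, (cntN (jn (stt w z x.1 x.2))
        (fun i : Fin J => (⟨w, A, B, J, E0⟩ : Par).ppI z x.1 x.2 i) t0 : ℝ) +
      ∑ x ∈ SS ⟨w, A, B, J, E0⟩ z T, (cntQ (jn (stt w z x.1 x.2))
        (fun i : Fin J => (⟨w, A, B, J, E0⟩ : Par).ppI z x.1 x.2 i) t0 : ℝ)) :=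
        mul_le_mul_of_nonneg_left hsum hJ
    _ ≤ C1 * 0.85 ^ J * (⟨w, A, B, J, E0⟩ : Par).U0 z T +
        (C2 * 0.7 ^ J + ε) * (⟨w, A, B, J, E0⟩ : Par).U0 z T := by
        rw [mul_add]
        exact add_le_add hN hQ
    _ ≤ ((C1 + C2) * 0.85 ^ J + ε) * (⟨w, A, B, J, E0⟩ : Par).U0 z T := by
        have h6 : C2 * 0.7 ^ J * (⟨w, A, B, J, E0⟩ : Par).U0 z T ≤
            C2 * 0.85 ^ J * (⟨w, A, B, J, E0⟩ : Par).U0 z T := by
          apply mul_le_mul_of_nonneg_right _ hU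
          exact mul_le_mul_of_nonneg_left hpow hC2.le
        nlinarith [h6]

end Pool.Agent.H77.K4
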