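import Pool.Agent.H77.K4.W1
import Pool.Agent.H77.K4.W5
import Pool.Agent.H77.K4.W6
import Pool.Agent.H77.K4.V2
import Pool.Agent.H77.K4.V3

/-!
# W7: the average of `Str`

For given `w, A` there is `C` such that for all admissible `P = (w, A, B, J, E0)` with
`PH B E0 (A+3)`, for `z ≥ z0(P)`: `sum_(x ∈ SS) Str(x) ≤ #SS + C 0.7^J U0`.

Proof. For `x ∈ SS`, `k = # bgX`, `str_le`: `Str ≤ 1 + cntS ψ pp (1,0) + cntS ψ pp (0,1)` with
`ψ = jn (stt x)`, `pp i = ppI i`, and the states satisfy `Rest (A+2)` (`rest`). `SS ⊆ BS` (`ss_bs`), so by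
`ubgen` with `g φ pp = [Rest (A+2) φ] cntS (jn φ) pp c` (for each of the two `c`)
`sum ≤ C T^2 (log z^M)^(-3) sum_φ [Rest] Wt T φ * sum_pp (prod 1/pp_i) cntS (jn φ) pp c`. For fixed `φ`
with `Rest` apply `mix` with `K` = everything, `I i = P.I z i`, `u p = 1/p`, `θ = 0.7`,
`S pp = (solF (jn φ) 0).filter (Dc c not a square)` (independent of `pp`),
`Q x p = (bt p (Dc c x) = 0)`, `R = 64 # Sel` (`card_solF`). The hypothesis `hQ`: `Dc c x` is not a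
square, `|Dc c x| ≤ 2 prod_(p : φ p ≠ none) p ≤ 2 z^(A+2) ≤ z^(A+3)` (`v p = 0` where
`jn φ p = none`), so it is `PH` with `e = ee i ≥ E0` (`ff i = B ee i`; `z0` is the maximum over `i < J` of
the `z0` of `PH`). So the inner sum is `≤ 0.7^J 64 # Sel prod_i L i`. With `sum_sel`:
`sum ≤ C' T^2 M^(-3) (log z)^(-3) 0.7^J (prod L_i) (log z)^3`, and
`U0 = T^2 M^(-3) (log w)^(-3) prod L_i`; so the constant is `C' (log w)^3`.
-/

set_option autoImplicit false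

namespace Pool.Agent.H77.K4

open Finset Pool.Agent.H77.SV

/-- bound for the integer `Dc` -/
private theorem w7_Dc {w z a : ℕ} (hz : 2 ≤ z) {φ : Pr w z → Stt 3} (hφ : Rest a φ)
    {x : (Pr w z → V2) × V2 × V2 × V2} (hx : x ∈ solF (jn φ) 0) (c : V2) :
    |Dc c x.1 x.2.2.1 x.2.2.2| ≤ (z : ℤ) ^ (a + 1) := by
  have hx' : SolP (jn φ) 0 x.1 x.2.1 x.2.2.1 x.2.2.2 := by
    classical
    unfold solF at hx
    exact (mem_filter.mp hx).2
  have h1 : |(if dot c x.2.2.1 = 1 then (-1 : ℤ) else 1)| = 1 := by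
    split_ifs <;> simp
  have h2 : |(if dot c x.2.2.2 = 1 then (2 : ℤ) else 1)| ≤ 2 := by
    split_ifs <;> simp
  have h3 : ∏ p : Pr w z, |(if dot c (x.1 p) = 1 then ((p : ℕ) : ℤ) else 1)| ≤
      ∏ p : Pr w z, (if φ p = none then (1 : ℤ) else ((p : ℕ) : ℤ)) := by
    refine prod_le_prod (fun _ _ => abs_nonneg _) fun p _ => ?_
    have hp1 : (1 : ℤ) ≤ ((p : ℕ) : ℤ) := by
      have := (mem_filter.mp p.2).2.one_lt
      exact_mod_cast this.le
    by_cases h0 : φ p = none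
    · have h4 : jn φ p = none := by
        unfold jn
        rw [h0]
        rfl
      have h5 := hx' p
      rw [h4] at h5
      dsimp only at h5
      rw [if_pos h0, h5]
      have h6 : ¬ (dot c 0 = 1) := by
        unfold dot
        simp
      rw [if_neg h6, abs_one]
    · rw [if_neg h0]
      split_ifs
      · rw [abs_of_nonneg (by omega)]
      · rw [abs_one]
        exact hp1
  have h4 : ∏ p : Pr w z, (if φ p = none then (1 : ℤ) else ((p : ℕ) : ℤ)) ≤ (z : ℤ) ^ a := by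
    have h5 := hφ.2
    have h6 : ((∏ p : Pr w z, (if φ p = none then 1 else (p : ℕ)) : ℕ) : ℤ) ≤
        ((z ^ a : ℕ) : ℤ) := by exact_mod_cast h5
    push_cast at h6
    exact h6
  unfold Dc
  rw [abs_mul, abs_mul, abs_prod, h1, one_mul]
  have h7 : (0 : ℤ) ≤ (z : ℤ) ^ a := by positivity
  have h8 : (2 : ℤ) ≤ (z : ℤ) := by exact_mod_cast hz
  calc |(if dot c x.2.2.2 = 1 then (2 : ℤ) else 1)| *
        ∏ p : Pr w z, |(if dot c (x.1 p) = 1 then ((p : ℕ) : ℤ) else 1)|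
      ≤ 2 * (z : ℤ) ^ a := by
        exact mul_le_mul h2 (h3.trans h4) (prod_nonneg fun _ _ => abs_nonneg _) (by norm_num)
    _ ≤ (z : ℤ) * (z : ℤ) ^ a := by nlinarith
    _ = (z : ℤ) ^ (a + 1) := by ring

private theorem w7_prodL (P : Par) (z : ℕ) :
    ∏ i : Fin P.J, ∑ p ∈ P.I z i, 1 / (p : ℝ) = ∏ i ∈ range P.J, P.L z i := by
  unfold Par.L
  exact (Finset.prod_range fun i => ∑ p ∈ P.I z i, 1 / (p : ℝ)).symm

open Classical in
/-- the sum over the medium primes for fixed states -/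
private theorem w7_mix {P : Par} {z : ℕ} (hz : 2 ≤ z)
    (hPH : ∀ i < P.J, ∀ D : ℤ, ¬ IsSquare D → |D| ≤ (z : ℤ) ^ (P.A + 3) →
      ∑ p ∈ (Ioc (z ^ P.ee i) (z ^ (P.B * P.ee i))).filter (fun p => p.Prime ∧ bt p D = 0),
        1 / (p : ℝ) ≤
      0.7 * ∑ p ∈ (Ioc (z ^ P.ee i) (z ^ (P.B * P.ee i))).filter Nat.Prime, 1 / (p : ℝ))
    (c : V2) {φ : Pr P.w z → Stt 3} (hφ : Rest (P.A + 2) φ) :
    ∑ pp ∈ Fintype.piFinset (fun i : Fin P.J => P.I z i), (∏ i, 1 / (pp i : ℝ)) *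
      (cntS (jn φ) pp c : ℝ) ≤
    0.7 ^ P.J * (64 * ((Sel F3.ty F3.N (Pr P.w z) (jn φ)).card : ℝ)) *
      ∏ i ∈ range P.J, P.L z i := by
  have h := mix (X := (Pr P.w z → V2) × V2 × V2 × V2) (J := P.J) (fun i => P.I z i) univ
    (fun p => 1 / (p : ℝ)) (fun p => by positivity) 0.7
    (64 * ((Sel F3.ty F3.N (Pr P.w z) (jn φ)).card : ℝ)) (by norm_num) (by positivity)
    (fun _ => (solF (jn φ) 0).filter fun x => ¬ IsSquare (Dc c x.1 x.2.2.1 x.2.2.2))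
    (fun _ _ _ => rfl) (fun x p => bt p (Dc c x.1 x.2.2.1 x.2.2.2) = 0)
    (by
      intro pp x hx i _
      rw [mem_filter] at hx
      have h1 := hPH i i.2 (Dc c x.1 x.2.2.1 x.2.2.2) hx.2 (w7_Dc hz hφ hx.1 c)
      refine le_trans (le_of_eq (sum_congr ?_ fun _ _ => rfl)) h1
      ext p
      simp only [Par.I, Par.ff, mem_filter, and_assoc])
    (by
      intro pp
      have h1 : ((solF (jn φ) 0).filter fun x =>
          ¬ IsSquare (Dc c x.1 x.2.2.1 x.2.2.2)).card ≤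
          64 * (Sel F3.ty F3.N (Pr P.w z) (jn φ)).card :=
        (card_filter_le _ _).trans (card_solF (jn φ) 0)
      exact_mod_cast h1)
  rw [card_univ, Fintype.card_fin, w7_prodL] at h
  refine le_trans (le_of_eq ?_) h
  refine sum_congr rfl fun pp _ => ?_
  congr 2
  unfold cntS
  rw [filter_filter]
  congr 1
  ext x
  simp only [mem_filter, mem_univ, forall_true_left]

private theorem w7_Wt {w z : ℕ} (T : ℕ) (φ : Pr w z → Stt 3) : 0 ≤ Wt T φ := by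
  unfold Wt
  refine prod_nonneg fun p _ => ?_
  rcases φ p with _ | _ | a
  · simp [wN]
  · simp only [wN]
    positivity
  · simp only [wN]
    positivity

open Classical in
/-- the general scheme: a function `f` on `SS` bounded by `g` at the states -/
private theorem w7_gen (w A : ℕ) (hw : 384 ≤ w) : ∃ C : ℝ, 0 < C ∧ ∀ B J E0 : ℕ,
    (⟨w, A, B, J, E0⟩ : Par).Adm → ∃ z0 : ℕ, ∀ z T : ℕ, z0 ≤ z →
    (⟨w, A, B, J, E0⟩ : Par).TZ z T → ∀ (θ : ℝ), 0 ≤ θ →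
    ∀ g : (Pr w z → Stt 3) → (Fin J → ℕ) → ℝ, (∀ φ pp, 0 ≤ g φ pp) →
    (∀ φ, Rest (A + 2) φ →
      ∑ pp ∈ Fintype.piFinset (fun i : Fin J => (⟨w, A, B, J, E0⟩ : Par).I z i),
        (∏ i, 1 / (pp i : ℝ)) * g φ pp ≤
      θ * (64 * ((Sel F3.ty F3.N (Pr w z) (jn φ)).card : ℝ)) *
        ∏ i ∈ range J, (⟨w, A, B, J, E0⟩ : Par).L z i) →
    ∑ x ∈ SS ⟨w, A, B, J, E0⟩ z T, g (stt w z x.1 x.2)
      (fun i => (⟨w, A, B, J, E0⟩ : Par).ppI z x.1 x.2 i) ≤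
      C * θ * (⟨w, A, B, J, E0⟩ : Par).U0 z T := by
  obtain ⟨C1, hC1, h1⟩ := ubgen
  obtain ⟨C2, hC2, h2⟩ := sum_sel w hw (A + 2)
  have hlw : 0 < Real.log w := Real.log_pos (by
    have : (384 : ℝ) ≤ w := by exact_mod_cast hw
    linarith)
  refine ⟨64 * C1 * C2 * Real.log w ^ 3, by positivity, fun B J E0 hP => ?_⟩
  obtain ⟨z0, hz0⟩ := h1 ⟨w, A, B, J, E0⟩ hP
  refine ⟨max z0 (max w 8), fun z T hz hT θ hθ g hg hgr => ?_⟩
  have hzz0 : z0 ≤ z := (le_max_left _ _).trans hz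
  have hzw : w ≤ z := ((le_max_left _ _).trans (le_max_right _ _)).trans hz
  have hz8 : 8 ≤ z := ((le_max_right _ _).trans (le_max_right _ _)).trans hz
  have hz2 : 2 ≤ z := by omega
  have hT1 : 1 ≤ T := by
    have := hT.1
    exact (Nat.one_le_pow _ _ (by omega)).trans this
  have hlz : 0 < Real.log z := Real.log_pos (by
    have : (8 : ℝ) ≤ z := by exact_mod_cast hz8
    linarith)
  have hM : 0 < (⟨w, A, B, J, E0⟩ : Par).M := by
    have hE := hP.hE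
    have hB := hP.hB
    dsimp only at hE hB
    unfold Par.M Par.ee
    dsimp only
    have : 0 < E0 := by omega
    have : 0 < 13 * B := by omega
    positivity
  have hM' : (0 : ℝ) < ((⟨w, A, B, J, E0⟩ : Par).M : ℝ) := by exact_mod_cast hM
  have hL0 : 0 ≤ ∏ i ∈ range J, (⟨w, A, B, J, E0⟩ : Par).L z i :=
    prod_nonneg fun i _ => sum_nonneg fun p _ => by positivity
  -- the restricted function
  have h3 : ∑ x ∈ SS ⟨w, A, B, J, E0⟩ z T, g (stt w z x.1 x.2)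
      (fun i => (⟨w, A, B, J, E0⟩ : Par).ppI z x.1 x.2 i) ≤
      ∑ x ∈ BS ⟨w, A, B, J, E0⟩ z T, (fun (φ : Pr w z → Stt 3) (pp : Fin J → ℕ) =>
        if Rest (A + 2) φ then g φ pp else 0) (stt w z x.1 x.2)
        (fun i => (⟨w, A, B, J, E0⟩ : Par).ppI z x.1 x.2 i) := by
    refine le_trans (le_of_eq (sum_congr rfl fun x hx => ?_))
      (sum_le_sum_of_subset_of_nonneg (ss_bs hP hz2 hzw hT) fun x _ _ => ?_)
    · have h4 := rest hP hz2 hT hx
      dsimp only at h4 ⊢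
      rw [if_pos h4]
    · dsimp only
      split_ifs
      · exact hg _ _
      · exact le_rfl
  have h4 := hz0 z T hzz0 hT (fun (φ : Pr w z → Stt 3) (pp : Fin J → ℕ) =>
        if Rest (A + 2) φ then g φ pp else 0) (by
      intro φ pp
      split_ifs
      · exact hg _ _
      · exact le_rfl)
  refine h3.trans (h4.trans ?_)
  have h5 : ∑ pp ∈ Fintype.piFinset (fun i : Fin J => (⟨w, A, B, J, E0⟩ : Par).I z i),
      (∏ i, 1 / (pp i : ℝ)) * ∑ φ : Pr w z → Stt 3,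
        (if Rest (A + 2) φ then g φ pp else 0) * Wt T φ =
      ∑ φ : Pr w z → Stt 3, if Rest (A + 2) φ then Wt T φ *
        ∑ pp ∈ Fintype.piFinset (fun i : Fin J => (⟨w, A, B, J, E0⟩ : Par).I z i),
          (∏ i, 1 / (pp i : ℝ)) * g φ pp else 0 := by
    simp only [mul_sum]
    rw [sum_comm]
    refine sum_congr rfl fun φ _ => ?_
    split_ifs
    · refine sum_congr rfl fun pp _ => ?_
      ring
    · simp
  have h6 : ∑ φ : Pr w z → Stt 3, (if Rest (A + 2) φ then Wt T φ *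
        ∑ pp ∈ Fintype.piFinset (fun i : Fin J => (⟨w, A, B, J, E0⟩ : Par).I z i),
          (∏ i, 1 / (pp i : ℝ)) * g φ pp else 0) ≤
      θ * 64 * (∏ i ∈ range J, (⟨w, A, B, J, E0⟩ : Par).L z i) * (C2 * Real.log z ^ 3) := by
    refine le_trans ?_ (mul_le_mul_of_nonneg_left (h2 z T hz8 hT1)
      (mul_nonneg (mul_nonneg hθ (by norm_num)) hL0))
    rw [mul_sum]
    refine sum_le_sum fun φ _ => ?_
    split_ifs with hr
    · calc Wt T φ * ∑ pp ∈ Fintype.piFinset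
            (fun i : Fin J => (⟨w, A, B, J, E0⟩ : Par).I z i), (∏ i, 1 / (pp i : ℝ)) * g φ pp
          ≤ Wt T φ * (θ * (64 * ((Sel F3.ty F3.N (Pr w z) (jn φ)).card : ℝ)) *
            ∏ i ∈ range J, (⟨w, A, B, J, E0⟩ : Par).L z i) :=
            mul_le_mul_of_nonneg_left (hgr φ hr) (w7_Wt T φ)
        _ = _ := by ring
    · simp
  have hlog : Real.log ((z : ℝ) ^ (⟨w, A, B, J, E0⟩ : Par).M) =
      ((⟨w, A, B, J, E0⟩ : Par).M : ℝ) * Real.log z := Real.log_pow _ _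
  have h7 : 0 ≤ C1 * (T : ℝ) ^ 2 / Real.log ((z : ℝ) ^ (⟨w, A, B, J, E0⟩ : Par).M) ^ 3 := by
    rw [hlog]
    positivity
  dsimp only at h5 h6 ⊢
  rw [h5]
  refine (mul_le_mul_of_nonneg_left h6 h7).trans (le_of_eq ?_)
  rw [hlog]
  unfold Par.U0
  dsimp only
  have hlz' := hlz.ne'
  have hlw' := hlw.ne'
  have hM'' := hM'.ne'
  field_simp

theorem ub_str (w A : ℕ) : ∃ C : ℝ, 0 < C ∧ ∀ B J E0 : ℕ, (⟨w, A, B, J, E0⟩ : Par).Adm →
    PH B E0 (A + 3) → ∃ z0 : ℕ, ∀ z T : ℕ, z0 ≤ z → (⟨w, A, B, J, E0⟩ : Par).TZ z T →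
    ∑ x ∈ SS ⟨w, A, B, J, E0⟩ z T, ((dat z x.1 x.2 (bgX z x.1 x.2).card).Str : ℝ) ≤
      ((SS ⟨w, A, B, J, E0⟩ z T).card : ℝ) + C * 0.7 ^ J * (⟨w, A, B, J, E0⟩ : Par).U0 z T := by
  classical
  by_cases hw : 384 ≤ w
  swap
  · exact ⟨1, one_pos, fun B J E0 hP _ => absurd hP.hw hw⟩
  obtain ⟨C, hC, h⟩ := w7_gen w A hw
  refine ⟨2 * C, by positivity, fun B J E0 hP hPH => ?_⟩
  obtain ⟨z0, hz0⟩ := h B J E0 hP
  have hee : ∀ i, E0 ≤ (⟨w, A, B, J, E0⟩ : Par).ee i := by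
    intro i
    have hB := hP.hB
    dsimp only at hB
    unfold Par.ee
    dsimp only
    exact Nat.le_mul_of_pos_right _ (Nat.pow_pos (by omega))
  choose f hf using fun i : ℕ => hPH ((⟨w, A, B, J, E0⟩ : Par).ee i) (hee i)
  refine ⟨max z0 (max 2 ((range J).sup f)), fun z T hz hT => ?_⟩
  have hzz0 : z0 ≤ z := (le_max_left _ _).trans hz
  have hz2 : 2 ≤ z := ((le_max_left _ _).trans (le_max_right _ _)).trans hz
  have hzf : (range J).sup f ≤ z := ((le_max_right _ _).trans (le_max_right _ _)).trans hz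
  have hmain : ∀ c : V2, ∑ x ∈ SS ⟨w, A, B, J, E0⟩ z T,
      (cntS (jn (stt w z x.1 x.2))
        (fun i : Fin J => (⟨w, A, B, J, E0⟩ : Par).ppI z x.1 x.2 i) c : ℝ) ≤
      C * 0.7 ^ J * (⟨w, A, B, J, E0⟩ : Par).U0 z T := by
    intro c
    have h1 := hz0 z T hzz0 hT (0.7 ^ J) (by positivity)
      (fun φ pp => (cntS (jn φ) pp c : ℝ)) (fun _ _ => Nat.cast_nonneg _)
      (fun φ hφ => w7_mix (P := ⟨w, A, B, J, E0⟩) hz2 (fun i hi D hD hD' =>
        hf i z (((le_sup (f := f) (mem_range.mpr hi))).trans hzf) D hD hD') c hφ)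
    exact h1
  have hx : ∀ x ∈ SS ⟨w, A, B, J, E0⟩ z T,
      ((dat z x.1 x.2 (bgX z x.1 x.2).card).Str : ℝ) ≤ 1 +
      (cntS (jn (stt w z x.1 x.2))
        (fun i : Fin J => (⟨w, A, B, J, E0⟩ : Par).ppI z x.1 x.2 i) (1, 0) : ℝ) +
      (cntS (jn (stt w z x.1 x.2))
        (fun i : Fin J => (⟨w, A, B, J, E0⟩ : Par).ppI z x.1 x.2 i) (0, 1) : ℝ) := by
    intro x hx
    have hk : x ∈ SSk ⟨w, A, B, J, E0⟩ z T (bgX z x.1 x.2).card := by
      unfold SSk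
      exact mem_filter.mpr ⟨hx, rfl⟩
    have h1 := str_le hP hz2 hT hk
    exact_mod_cast h1
  calc ∑ x ∈ SS ⟨w, A, B, J, E0⟩ z T, ((dat z x.1 x.2 (bgX z x.1 x.2).card).Str : ℝ)
      ≤ ∑ x ∈ SS ⟨w, A, B, J, E0⟩ z T, (1 +
      (cntS (jn (stt w z x.1 x.2))
        (fun i : Fin J => (⟨w, A, B, J, E0⟩ : Par).ppI z x.1 x.2 i) (1, 0) : ℝ) +
      (cntS (jn (stt w z x.1 x.2))
        (fun i : Fin J => (⟨w, A, B, J, E0⟩ : Par).ppI z x.1 x.2 i) (0, 1) : ℝ)) :=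
        sum_le_sum hx
    _ = ((SS ⟨w, A, B, J, E0⟩ z T).card : ℝ) + ∑ x ∈ SS ⟨w, A, B, J, E0⟩ z T,
      (cntS (jn (stt w z x.1 x.2))
        (fun i : Fin J => (⟨w, A, B, J, E0⟩ : Par).ppI z x.1 x.2 i) (1, 0) : ℝ) +
      ∑ x ∈ SS ⟨w, A, B, J, E0⟩ z T, (cntS (jn (stt w z x.1 x.2))
        (fun i : Fin J => (⟨w, A, B, J, E0⟩ : Par).ppI z x.1 x.2 i) (0, 1) : ℝ) := by
        rw [sum_add_distrib, sum_add_distrib, sum_const, nsmul_eq_mul, mul_one]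
    _ ≤ _ := by
        have h1 := hmain (1, 0)
        have h2 := hmain (0, 1)
        linarith

theorem ub_k0 (w A : ℕ) : ∃ C : ℝ, 0 < C ∧ ∀ B J E0 : ℕ, (⟨w, A, B, J, E0⟩ : Par).Adm →
    ∃ z0 : ℕ, ∀ z T : ℕ, z0 ≤ z → (⟨w, A, B, J, E0⟩ : Par).TZ z T →
    ∑ x ∈ SS ⟨w, A, B, J, E0⟩ z T, ((dat z x.1 x.2 (bgX z x.1 x.2).card).K0 : ℝ) ≤
      C * (⟨w, A, B, J, E0⟩ : Par).U0 z T := by
  classical
  by_cases hw : 384 ≤ w
  swap
  · exact ⟨1, one_pos, fun B J E0 hP => absurd hP.hw hw⟩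
  obtain ⟨C, hC, h⟩ := w7_gen w A hw
  refine ⟨C, hC, fun B J E0 hP => ?_⟩
  obtain ⟨z0, hz0⟩ := h B J E0 hP
  refine ⟨max z0 2, fun z T hz hT => ?_⟩
  have hzz0 : z0 ≤ z := (le_max_left _ _).trans hz
  have hz2 : 2 ≤ z := (le_max_right _ _).trans hz
  have h1 := hz0 z T hzz0 hT 1 zero_le_one
    (fun φ _ => 64 * ((Sel F3.ty F3.N (Pr w z) (jn φ)).card : ℝ)) (fun _ _ => by positivity)
    (fun φ _ => by
      have hprod : ∏ i : Fin J, ∑ p ∈ (⟨w, A, B, J, E0⟩ : Par).I z i, 1 / (p : ℝ) =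
          ∏ i ∈ range J, (⟨w, A, B, J, E0⟩ : Par).L z i := w7_prodL ⟨w, A, B, J, E0⟩ z
      rw [← sum_mul, ← hprod, Finset.prod_univ_sum]
      apply le_of_eq
      ring)
  refine le_trans (sum_le_sum fun x hx => ?_) (h1.trans (le_of_eq (by ring)))
  have hk : x ∈ SSk ⟨w, A, B, J, E0⟩ z T (bgX z x.1 x.2).card := by
    unfold SSk
    exact mem_filter.mpr ⟨hx, rfl⟩
  have h2 := (k0_le hP hz2 hT hk).trans (card_solF _ _)
  dsimp only at h2 ⊢
  exact_mod_cast h2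

end Pool.Agent.H77.K4
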