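import Pool.Agent.H77.K4.B3

/-!
# X1: the structure of the elements of `SS`

Let `(Y, Z) ∈ SS P z T`, `P.Adm`, `P.TZ z T`, `2 ≤ z`. `M = P.M ≥ E0 ≥ 400`.

* `Nice Y Z` (from `384 ≤ w`).
* `Y > T / 2` (natural division), so `2 Y > T ≥ z^(30 M)`; `Y ≤ z lpf Y` gives
  `lpf Y ≥ Y / z > z^(29 M - 2) ≥ z^M`. `lpf Y` is a prime factor of `Y` (the largest one). The same
  for `Z`. (`z^(30M) < 2 z lpf Y ≤ z^2 lpf Y`.)
* `b = Y / lpf Y ≤ z`.
* `lpf Y ≠ lpf Z` as `Y`, `Z` are coprime.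
* A prime `p > z` dividing `Y` is `lpf Y` (it divides `Y = b lpf Y` and `b ≤ z`, `b > 0`).
* `oddP Y Z` is the disjoint union of `smP`, `bgX`, `{lpf Y}`, `{lpf Z}` (`2 ≤ z`, so `2` is not in
  `bgX`; a prime of `oddP` which is `> z` divides `X`, `Y` or `Z`).
-/

set_option autoImplicit false

namespace Pool.Agent.H77.K4

open Finset Pool.Agent.H77.SV

/-- facts on the large primes -/
structure Fac (P : Par) (z T Y Z : ℕ) : Prop where
  hT : T < 2 * Y ∧ Y ≤ T ∧ T < 2 * Z ∧ Z ≤ T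
  hok : Ok P z Y Z
  nice : Nice Y Z
  pq : (lpf Y).Prime
  pr : (lpf Z).Prime
  dq : lpf Y ∣ Y
  dr : lpf Z ∣ Z
  gq : z ^ P.M < lpf Y
  gr : z ^ P.M < lpf Z
  gzq : T < 2 * z * lpf Y
  gzr : T < 2 * z * lpf Z
  bq : Y / lpf Y ≤ z
  cr : Z / lpf Z ≤ z
  ne : lpf Y ≠ lpf Z
  uq : ∀ p : ℕ, p.Prime → z < p → p ∣ Y → p = lpf Y
  ur : ∀ p : ℕ, p.Prime → z < p → p ∣ Z → p = lpf Z
  nqX : ¬ lpf Y ∣ Y + Z
  nrX : ¬ lpf Z ∣ Y + Z
  odd : oddP Y Z = smP z Y Z ∪ bgX z Y Z ∪ {lpf Y, lpf Z}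
  dj1 : Disjoint (smP z Y Z) (bgX z Y Z)
  dj2 : Disjoint (smP z Y Z ∪ bgX z Y Z) {lpf Y, lpf Z}

private theorem x1_lpf_mem {N : ℕ} (hN : 2 ≤ N) : (lpf N).Prime ∧ lpf N ∣ N := by
  have hne : N.primeFactors.Nonempty := Nat.nonempty_primeFactors.2 hN
  obtain ⟨p, hp, h⟩ := Finset.exists_mem_eq_sup _ hne (id : ℕ → ℕ)
  have h1 : lpf N = p := h
  rw [h1]
  exact ⟨Nat.prime_of_mem_primeFactors hp, Nat.dvd_of_mem_primeFactors hp⟩

private theorem x1_big {M z T Y q : ℕ} (hM : 1 ≤ M) (hz : 2 ≤ z) (hT : z ^ (30 * M) ≤ T)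
    (h2 : T < 2 * Y) (hq : Y ≤ z * q) : z ^ M < q ∧ T < 2 * z * q := by
  have h3 : T < 2 * z * q := by
    calc T < 2 * Y := h2
      _ ≤ 2 * (z * q) := Nat.mul_le_mul_left 2 hq
      _ = 2 * z * q := by ring
  refine ⟨?_, h3⟩
  have h4 : z ^ (30 * M) < z ^ 2 * q := by
    calc z ^ (30 * M) ≤ T := hT
      _ < 2 * z * q := h3
      _ ≤ z * z * q := Nat.mul_le_mul_right q (Nat.mul_le_mul_right z hz)
      _ = z ^ 2 * q := by ring
  have h5 : z ^ (30 * M) = z ^ 2 * z ^ (30 * M - 2) := by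
    rw [← pow_add]
    congr 1
    omega
  rw [h5] at h4
  have h6 : z ^ (30 * M - 2) < q := Nat.lt_of_mul_lt_mul_left h4
  exact lt_of_le_of_lt (Nat.pow_le_pow_right (by omega) (by omega)) h6

private theorem x1_uniq {z Y q : ℕ} (hY : 0 < Y) (hq : q.Prime) (hd : q ∣ Y) (hb : Y / q ≤ z)
    {p : ℕ} (hp : p.Prime) (hz : z < p) (hpY : p ∣ Y) : p = q := by
  by_contra hne
  have h1 : Y = q * (Y / q) := (Nat.mul_div_cancel' hd).symm
  have h2 : p ∣ q * (Y / q) := h1 ▸ hpY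
  rcases (Nat.Prime.dvd_mul hp).1 h2 with h | h
  · exact hne ((Nat.prime_dvd_prime_iff_eq hp hq).1 h)
  · have h3 : 0 < Y / q := Nat.div_pos (Nat.le_of_dvd hY hd) hq.pos
    have := Nat.le_of_dvd h3 h
    omega

theorem fac {P : Par} (hP : P.Adm) {z T : ℕ} (hz : 2 ≤ z) (hT : P.TZ z T) {x : ℕ × ℕ}
    (hx : x ∈ SS P z T) : Fac P z T x.1 x.2 := by
  classical
  obtain ⟨Y, Z⟩ := x
  simp only [SS, mem_filter, mem_product, mem_Ioc] at hx
  obtain ⟨⟨⟨hY1, hY2⟩, hZ1, hZ2⟩, hok⟩ := hx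
  show Fac P z T Y Z
  have hY16 := hok.hY
  have hZ16 := hok.hZ
  have hM : 1 ≤ P.M := by
    have h1 : 1 ≤ P.E0 := by
      have := hP.hE
      omega
    have h2 : 1 ≤ (13 * P.B) ^ P.J := Nat.one_le_pow _ _ (by have := hP.hB; omega)
    show 1 ≤ P.E0 * (13 * P.B) ^ P.J
    exact Nat.mul_pos h1 h2
  have hzM : z ≤ z ^ P.M := by
    calc z = z ^ 1 := (pow_one z).symm
      _ ≤ z ^ P.M := Nat.pow_le_pow_right (by omega) hM
  have hT4 : 4 ≤ T := by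
    have h1 : 2 ^ 2 ≤ z ^ (30 * P.M) := (Nat.pow_le_pow_left hz 2).trans
      (Nat.pow_le_pow_right (by omega) (by omega))
    exact h1.trans hT.1
  have hY0 : 2 ≤ Y := by omega
  have hZ0 : 2 ≤ Z := by omega
  obtain ⟨pq, dq⟩ := x1_lpf_mem hY0
  obtain ⟨pr, dr⟩ := x1_lpf_mem hZ0
  have hTY : T < 2 * Y := by omega
  have hTZ : T < 2 * Z := by omega
  obtain ⟨gq, gzq⟩ := x1_big hM hz hT.1 hTY hok.hq
  obtain ⟨gr, gzr⟩ := x1_big hM hz hT.1 hTZ hok.hr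
  have bq : Y / lpf Y ≤ z := Nat.div_le_of_le_mul (by rw [mul_comm]; exact hok.hq)
  have cr : Z / lpf Z ≤ z := Nat.div_le_of_le_mul (by rw [mul_comm]; exact hok.hr)
  have hcop : ∀ p : ℕ, p.Prime → p ∣ Y → p ∣ Z → False := fun p hp h1 h2 =>
    hp.one_lt.ne' (Nat.dvd_one.1 (hok.hc ▸ Nat.dvd_gcd h1 h2))
  have ne : lpf Y ≠ lpf Z := fun h => hcop _ pq dq (h ▸ dr)
  have uq : ∀ p : ℕ, p.Prime → z < p → p ∣ Y → p = lpf Y := fun p hp h1 h2 =>
    x1_uniq (by omega) pq dq bq hp h1 h2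
  have ur : ∀ p : ℕ, p.Prime → z < p → p ∣ Z → p = lpf Z := fun p hp h1 h2 =>
    x1_uniq (by omega) pr dr cr hp h1 h2
  have nqX : ¬ lpf Y ∣ Y + Z := fun h => hcop _ pq dq ((Nat.dvd_add_right dq).1 h)
  have nrX : ¬ lpf Z ∣ Y + Z := fun h => hcop _ pr ((Nat.dvd_add_left dr).1 h) dr
  have hprod : (Y + Z) * Y * Z ≠ 0 := by
    have : 0 < (Y + Z) * Y * Z := Nat.mul_pos (Nat.mul_pos (by omega) (by omega)) (by omega)
    exact this.ne'
  have hqo : lpf Y ∈ oddP Y Z := by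
    simp only [oddP, mem_erase, Nat.mem_primeFactors]
    exact ⟨by omega, pq, dvd_mul_of_dvd_left (dvd_mul_of_dvd_right dq _) _, hprod⟩
  have hro : lpf Z ∈ oddP Y Z := by
    simp only [oddP, mem_erase, Nat.mem_primeFactors]
    exact ⟨by omega, pr, dvd_mul_of_dvd_right dr _, hprod⟩
  refine ⟨⟨hTY, hY2, hTZ, hZ2⟩, hok, ⟨hok.hY, hok.hZ, hok.hc, fun p hp h2 hle =>
    hok.hw p hp h2 (hle.trans hP.hw), hok.hsq⟩, pq, pr, dq, dr, gq, gr, gzq, gzr, bq, cr, ne, uq, ur,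
    nqX, nrX, ?_, ?_, ?_⟩
  · ext p
    simp only [mem_union, mem_insert, mem_singleton]
    constructor
    · intro hp
      by_cases hpz : p ≤ z
      · exact Or.inl (Or.inl (mem_filter.2 ⟨hp, hpz⟩))
      · have hzp : z < p := not_le.1 hpz
        have hp' := hp
        simp only [oddP, mem_erase, Nat.mem_primeFactors] at hp'
        obtain ⟨h2, hpp, hd, -⟩ := hp'
        rcases (Nat.Prime.dvd_mul hpp).1 hd with h | h
        · rcases (Nat.Prime.dvd_mul hpp).1 h with h | h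
          · refine Or.inl (Or.inr (mem_filter.2 ⟨?_, hzp⟩))
            exact Nat.mem_primeFactors.2 ⟨hpp, h, by omega⟩
          · exact Or.inr (Or.inl (uq p hpp hzp h))
        · exact Or.inr (Or.inr (ur p hpp hzp h))
    · rintro ((h | h) | (h | h))
      · exact (mem_filter.1 h).1
      · obtain ⟨h1, h2⟩ := mem_filter.1 h
        obtain ⟨h3, h4, h5⟩ := Nat.mem_primeFactors.1 h1
        simp only [oddP, mem_erase, Nat.mem_primeFactors]
        exact ⟨by omega, h3, dvd_mul_of_dvd_left (dvd_mul_of_dvd_left h4 _) _, hprod⟩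
      · rw [h]; exact hqo
      · rw [h]; exact hro
  · rw [Finset.disjoint_left]
    intro p h1 h2
    have h3 := (mem_filter.1 h1).2
    have h4 := (mem_filter.1 h2).2
    omega
  · rw [Finset.disjoint_left]
    intro p h1 h2
    simp only [mem_insert, mem_singleton] at h2
    rcases mem_union.1 h1 with h | h
    · have h3 := (mem_filter.1 h).2
      rcases h2 with h2 | h2 <;> omega
    · have h3 := Nat.dvd_of_mem_primeFactors (mem_filter.1 h).1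
      rcases h2 with h2 | h2
      · exact nqX (h2 ▸ h3)
      · exact nrX (h2 ▸ h3)

end Pool.Agent.H77.K4
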