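import Pool.Agent.H77.K4.X2

/-!
# X3: the number of large primes

For `z ≥ z0(P)`: if `(Y, Z) ∈ SS P z T` then `# bgX z Y Z ≤ J + 30`. Proof: `J` of the primes are in
the intervals `I`, the others are `> z^M`; if there were 31 of them, then
`z^(31 M) < X ≤ 2 T < 2 (z+1)^(30 M)`. But `(1 + 1/z)^(30 M) ≤ 2` for `z ≥ 60 M` (Bernoulli type
inequality, `(1 + 1/z)^n ≤ exp (n / z)`), so this gives `z^M < 4`, false.
-/

set_option autoImplicit false

namespace Pool.Agent.H77.K4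

open Finset Pool.Agent.H77.SV

private theorem x3_bern {z n : ℕ} (h : 2 * n ≤ z) : (z + 1) ^ n ≤ 2 * z ^ n := by
  have h0 : (0 : ℝ) < (z : ℝ) + 1 := by positivity
  have h1 : (-2 : ℝ) ≤ -(1 / ((z : ℝ) + 1)) := by
    have : 1 / ((z : ℝ) + 1) ≤ 1 := by
      rw [div_le_one h0]
      have : (0 : ℝ) ≤ (z : ℝ) := Nat.cast_nonneg z
      linarith
    linarith
  have h2 := one_add_mul_le_pow h1 n
  have h3 : 1 + -(1 / ((z : ℝ) + 1)) = (z : ℝ) / ((z : ℝ) + 1) := by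
    field_simp
    ring
  rw [h3, div_pow] at h2
  have h4 : (1 : ℝ) / 2 ≤ 1 + (n : ℝ) * -(1 / ((z : ℝ) + 1)) := by
    have h5 : (n : ℝ) * (1 / ((z : ℝ) + 1)) ≤ 1 / 2 := by
      rw [mul_one_div, div_le_iff₀ h0]
      have : (2 * (n : ℝ)) ≤ z := by exact_mod_cast h
      linarith
    have h6 : (n : ℝ) * -(1 / ((z : ℝ) + 1)) = -((n : ℝ) * (1 / ((z : ℝ) + 1))) := by ring
    rw [h6]
    linarith
  have h7 : (1 : ℝ) / 2 ≤ (z : ℝ) ^ n / ((z : ℝ) + 1) ^ n := le_trans h4 h2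
  rw [le_div_iff₀ (by positivity)] at h7
  have h8 : (((z + 1) ^ n : ℕ) : ℝ) ≤ ((2 * z ^ n : ℕ) : ℝ) := by
    push_cast
    linarith
  exact_mod_cast h8

private theorem x3_posM {P : Par} (hP : P.Adm) : 1 ≤ P.M := by
  have h1 : 1 ≤ P.E0 := by
    have := hP.hE
    omega
  have h2 : 1 ≤ (13 * P.B) ^ P.J := Nat.one_le_pow _ _ (by have := hP.hB; omega)
  exact Nat.mul_pos h1 h2

theorem card_bgX {P : Par} (hP : P.Adm) : ∃ z0 : ℕ, ∀ z T : ℕ, z0 ≤ z → P.TZ z T →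
    ∀ x ∈ SS P z T, (bgX z x.1 x.2).card ≤ P.J + 30 := by
  classical
  have hM : 1 ≤ P.M := x3_posM hP
  refine ⟨60 * P.M + 4, fun z T hz hT x hx => ?_⟩
  by_contra hcon
  push_neg at hcon
  have hz2 : 2 ≤ z := by omega
  obtain ⟨Y, Z⟩ := x
  have hF := fac hP hz2 hT hx
  have hk : ((Y, Z) : ℕ × ℕ) ∈ SSk P z T (bgX z Y Z).card := by
    rw [SSk, mem_filter]
    exact ⟨hx, rfl⟩
  have hU := uufac hP hz2 hT hk
  dsimp only at hF hU hcon
  have hTF := hF.hT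
  have hXne : Y + Z ≠ 0 := by omega
  -- 31 distinct large primes
  have hsub : (Finset.Ico P.J (P.J + 31)).image (uu z Y Z) ⊆ (Y + Z).primeFactors := by
    intro p hp
    obtain ⟨j, hj, rfl⟩ := mem_image.1 hp
    rw [mem_Ico] at hj
    have hj2 : j < (bgX z Y Z).card := by omega
    exact Nat.mem_primeFactors.2 ⟨hU.prime j hj2, hU.dvd j hj2, hXne⟩
  have hinj : Set.InjOn (uu z Y Z) (Finset.Ico P.J (P.J + 31) : Finset ℕ) := by
    intro i hi j hj h
    rw [Finset.mem_coe, mem_Ico] at hi hj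
    rcases lt_trichotomy i j with h1 | h1 | h1
    · exact absurd (hU.mono i j h1 (by omega)) (by omega)
    · exact h1
    · exact absurd (hU.mono j i h1 (by omega)) (by omega)
  have hprod : ∏ j ∈ Finset.Ico P.J (P.J + 31), uu z Y Z j ≤ Y + Z := by
    rw [← Finset.prod_image (f := fun p => p) hinj]
    have h1 : ∏ p ∈ (Finset.Ico P.J (P.J + 31)).image (uu z Y Z), p ∣ ∏ p ∈ (Y + Z).primeFactors, p :=
      Finset.prod_dvd_prod_of_subset _ _ _ hsub
    exact Nat.le_of_dvd (by omega) (h1.trans (Nat.prod_primeFactors_dvd _))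
  have hlow : z ^ (31 * P.M) ≤ ∏ j ∈ Finset.Ico P.J (P.J + 31), uu z Y Z j := by
    have h1 : ∏ _j ∈ Finset.Ico P.J (P.J + 31), z ^ P.M = z ^ (31 * P.M) := by
      rw [Finset.prod_const, Nat.card_Ico, Nat.add_sub_cancel_left, ← pow_mul, mul_comm]
    rw [← h1]
    refine Finset.prod_le_prod' fun j hj => ?_
    rw [mem_Ico] at hj
    exact (hU.big j hj.1 (by omega)).le
  have hup : Y + Z < 4 * z ^ (30 * P.M) := by
    have h1 := hT.2
    have h2 := x3_bern (z := z) (n := 30 * P.M) (by omega)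
    omega
  have h3 : z ^ (31 * P.M) = z ^ P.M * z ^ (30 * P.M) := by
    rw [← pow_add]
    congr 1
    ring
  have h4 : 4 ≤ z ^ P.M := by
    calc 4 ≤ z := by omega
      _ = z ^ 1 := (pow_one z).symm
      _ ≤ z ^ P.M := Nat.pow_le_pow_right (by omega) hM
  have h5 : 4 * z ^ (30 * P.M) ≤ z ^ P.M * z ^ (30 * P.M) := Nat.mul_le_mul_right _ h4
  omega

end Pool.Agent.H77.K4
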