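import Pool.Agent.H77.K4.A8
import Pool.Agent.H77.K4.X3
import Pool.Agent.H77.K4.C17

/-!
# Z1: the sum of the orders of the Selmer groups

For `x ∈ SSk`, `alg_main` for `dat z Y Z k` (`dat_good`), `M = MM J k` (`# = J`, as `J ≤ k` by
`UU.Jk`), with `All = # Sl` (`all_eq`), `k ≤ J + 30` (`card_bgX`), `4^(k - J) ≤ 4^30`. Sum over
`x ∈ SS = disjoint union of the SSk, k ≤ J + 30`; the coupled parts are at most
`(J + 31) T^2/z` (`coupled`).
-/

set_option autoImplicit false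

namespace Pool.Agent.H77.K4

open Finset Pool.Agent.H77.SV

private lemma z1_cardMM {J k : ℕ} (h : J ≤ k) : (MM J k).card = J := by
  unfold MM
  rw [Fin.card_filter_val_lt]
  omega

open Classical in
/-- the coupled part -/
private noncomputable def z1_g (P : Par) (z k : ℕ) (x : ℕ × ℕ) : ℝ :=
  ∑ v : Fin k → LL, ∑ vq : LL, ∑ vr : LL,
      if Unc (MM P.J k) v vq vr then 0 else TT z x.1 x.2 k v vq vr

open Classical in
private lemma z1_one {P : Par} (hP : P.Adm) {z T : ℕ} (hz : 2 ≤ z) (hT : P.TZ z T) {x : ℕ × ℕ}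
    (hx : x ∈ SS P z T) (hk : (bgX z x.1 x.2).card ≤ P.J + 30) :
    (Nat.card (Sl x.1 x.2) : ℝ) ≤
      12 * ((dat z x.1 x.2 (bgX z x.1 x.2).card).Str : ℝ) +
      4 * ((1 / 2 : ℝ) ^ P.J *
        ((dat z x.1 x.2 (bgX z x.1 x.2).card).Km (MM P.J (bgX z x.1 x.2).card) (1, 0) : ℝ)) +
      4 * ((1 / 2 : ℝ) ^ P.J *
        ((dat z x.1 x.2 (bgX z x.1 x.2).card).Km (MM P.J (bgX z x.1 x.2).card) (0, 1) : ℝ)) +
      4 * ((1 / 2 : ℝ) ^ P.J *
        ((dat z x.1 x.2 (bgX z x.1 x.2).card).Km (MM P.J (bgX z x.1 x.2).card) (1, 1) : ℝ)) +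
      2 ^ 80 * (1 / 2 : ℝ) ^ P.J *
        ((dat z x.1 x.2 (bgX z x.1 x.2).card).K0 : ℝ) + z1_g P z (bgX z x.1 x.2).card x := by
  set k := (bgX z x.1 x.2).card with hkd
  have hxk : x ∈ SSk P z T k := by
    unfold SSk
    rw [mem_filter]
    exact ⟨hx, rfl⟩
  have hJk : P.J ≤ k := (uufac hP hz hT hxk).Jk
  have hM : (MM P.J k).card = P.J := z1_cardMM hJk
  have h := alg_main (dat_good hP hz hT hxk) (MM P.J k) (by rw [hM]; have := hP.hJ; omega)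
  rw [all_eq hP hz hT hxk, hM, Fintype.card_fin] at h
  have h4 : (4 : ℝ) ^ (k - P.J) ≤ 2 ^ 60 := by
    calc (4 : ℝ) ^ (k - P.J) ≤ 4 ^ 30 := pow_le_pow_right₀ (by norm_num) (by omega)
      _ = 2 ^ 60 := by norm_num
  have h5 : 2 ^ 20 * (1 / 2 : ℝ) ^ P.J * 4 ^ (k - P.J) * ((dat z x.1 x.2 k).K0 : ℝ) ≤
      2 ^ 80 * (1 / 2 : ℝ) ^ P.J * ((dat z x.1 x.2 k).K0 : ℝ) := by
    have h6 : 2 ^ 20 * (1 / 2 : ℝ) ^ P.J * 4 ^ (k - P.J) ≤ 2 ^ 20 * (1 / 2 : ℝ) ^ P.J * 2 ^ 60 :=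
      mul_le_mul_of_nonneg_left h4 (by positivity)
    have h7 : 2 ^ 20 * (1 / 2 : ℝ) ^ P.J * 2 ^ 60 = 2 ^ 80 * (1 / 2 : ℝ) ^ P.J := by ring
    rw [h7] at h6
    exact mul_le_mul_of_nonneg_right h6 (by positivity)
  have h8 : (∑ v : Fin k → LL, ∑ vq : LL, ∑ vr : LL,
      if Unc (MM P.J k) v vq vr then 0 else (dat z x.1 x.2 k).Tm v vq vr) = z1_g P z k x := by
    unfold z1_g TT
    rfl
  rw [← h8]
  simp only [mul_add] at h
  refine h.trans ?_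
  have h9 : ∀ a b c d e f g : ℝ, e ≤ f → a + (b + c + d) + e + g ≤ a + b + c + d + f + g := by
    intro a b c d e f g h; linarith
  simp only [← mul_assoc] at h5 ⊢
  exact h9 _ _ _ _ _ _ _ h5

theorem sum_Sl {P : Par} (hP : P.Adm) : ∃ z0 : ℕ, ∀ z T : ℕ, z0 ≤ z → P.TZ z T →
    ∑ x ∈ SS P z T, (Nat.card (Sl x.1 x.2) : ℝ) ≤
      12 * ∑ x ∈ SS P z T, ((dat z x.1 x.2 (bgX z x.1 x.2).card).Str : ℝ) +
      4 * ((1 / 2 : ℝ) ^ P.J * ∑ x ∈ SS P z T,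
        ((dat z x.1 x.2 (bgX z x.1 x.2).card).Km (MM P.J (bgX z x.1 x.2).card) (1, 0) : ℝ)) +
      4 * ((1 / 2 : ℝ) ^ P.J * ∑ x ∈ SS P z T,
        ((dat z x.1 x.2 (bgX z x.1 x.2).card).Km (MM P.J (bgX z x.1 x.2).card) (0, 1) : ℝ)) +
      4 * ((1 / 2 : ℝ) ^ P.J * ∑ x ∈ SS P z T,
        ((dat z x.1 x.2 (bgX z x.1 x.2).card).Km (MM P.J (bgX z x.1 x.2).card) (1, 1) : ℝ)) +
      2 ^ 80 * (1 / 2 : ℝ) ^ P.J * ∑ x ∈ SS P z T,
        ((dat z x.1 x.2 (bgX z x.1 x.2).card).K0 : ℝ) + (P.J + 31) * (T : ℝ) ^ 2 / z := by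
  obtain ⟨z1, hz1⟩ := card_bgX hP
  obtain ⟨z2, hz2⟩ := coupled hP
  refine ⟨max 2 (max z1 z2), fun z T hz hT => ?_⟩
  have h2 : 2 ≤ z := le_trans (le_max_left _ _) hz
  have h1' : z1 ≤ z := le_trans (le_trans (le_max_left _ _) (le_max_right _ _)) hz
  have h2' : z2 ≤ z := le_trans (le_trans (le_max_right _ _) (le_max_right _ _)) hz
  have hc := hz1 z T h1' hT
  have hsum := sum_le_sum fun x (hx : x ∈ SS P z T) => z1_one hP h2 hT hx (hc x hx)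
  simp only [sum_add_distrib, ← mul_sum] at hsum
  have hg : ∑ x ∈ SS P z T, z1_g P z (bgX z x.1 x.2).card x ≤ (P.J + 31) * (T : ℝ) ^ 2 / z := by
    have hmap : ∀ x ∈ SS P z T, (bgX z x.1 x.2).card ∈ range (P.J + 31) := fun x hx =>
      mem_range.2 (by have := hc x hx; omega)
    rw [← sum_fiberwise_of_maps_to hmap]
    calc _ ≤ ∑ k ∈ range (P.J + 31), (T : ℝ) ^ 2 / z := by
          refine sum_le_sum fun k hk => ?_
          have h3 := hz2 z T h2' hT k (by have := mem_range.1 hk; omega)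
          refine le_trans (le_of_eq ?_) (le_trans (le_abs_self _) h3)
          unfold SSk
          refine sum_congr (by ext; simp) fun x hx => ?_
          rw [(mem_filter.1 hx).2]
          rfl
      _ = (P.J + 31) * (T : ℝ) ^ 2 / z := by
          rw [sum_const, card_range, nsmul_eq_mul]
          push_cast
          ring
  linarith

end Pool.Agent.H77.K4
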