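import Pool.Agent.H77.K4.Z3
import Pool.Agent.H77.K4.P3

/-!
# Z4: rank 0 for a positive proportion of the fibres

As in Z3, but `# Sl Y Z` is a power of 4 (`even_dim`), at least `2^(rank + 2)`. So it is `4` (and then the
rank is `0`) or at least `16`.
-/

set_option autoImplicit false

namespace Pool.Agent.H77.K4

open Finset Pool.Agent.H77.SV

private theorem z4_z {M z0 T : ℕ} (hM : 1 ≤ M) (hT : z0 ^ (30 * M) ≤ T) :
    ∃ z : ℕ, z0 ≤ z ∧ z ^ (30 * M) ≤ T ∧ T < (z + 1) ^ (30 * M) := by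
  classical
  have h0 : z0 ≤ T := (Nat.le_self_pow (by omega) z0).trans hT
  refine ⟨Nat.findGreatest (fun z => z ^ (30 * M) ≤ T) T,
    Nat.le_findGreatest h0 hT, Nat.findGreatest_spec (P := fun z => z ^ (30 * M) ≤ T) h0 hT, ?_⟩
  by_contra hcon
  push Not at hcon
  have h1 : Nat.findGreatest (fun z => z ^ (30 * M) ≤ T) T + 1 ≤ T :=
    (Nat.le_self_pow (by omega) _).trans hcon
  have h2 := Nat.le_findGreatest (P := fun z => z ^ (30 * M) ≤ T) h1 hcon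
  omega

/-- the order of the Selmer group is a power of 4 -/
theorem card_four {Y Z : ℕ} (h : Nice Y Z) (hr : Module.finrank ℤ (F3.E (Y : ℤ) (Z : ℤ)).Point ≠ 0) :
    16 ≤ Nat.card (Sl Y Z) := by
  have h1 := descent h
  obtain ⟨m, hm⟩ := even_dim h.hY h.hZ h.hc h.hsq
  have h2 : Nat.card (Sl Y Z) = 2 ^ Module.finrank (ZMod 2) (Sl Y Z) := by
    have : Fintype (Sl Y Z) := Fintype.ofFinite _
    rw [Nat.card_eq_fintype_card, Module.card_eq_pow_finrank (K := ZMod 2), ZMod.card]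
  have h3 : 2 ^ 3 ≤ Nat.card (Sl Y Z) :=
    (Nat.pow_le_pow_right (by norm_num) (by omega)).trans h1
  rw [h2] at h3 ⊢
  have h4 : 3 ≤ Module.finrank (ZMod 2) (Sl Y Z) := (Nat.pow_le_pow_iff_right (by norm_num)).1 h3
  have h5 : 4 ≤ Module.finrank (ZMod 2) (Sl Y Z) := by omega
  calc 16 = 2 ^ 4 := by norm_num
    _ ≤ _ := Nat.pow_le_pow_right (by norm_num) h5

open Classical in
theorem main0 : ∃ c : ℝ, 0 < c ∧ ∃ T0 : ℕ, ∀ T : ℕ, T0 ≤ T →
    c * (T : ℝ) ^ 2 ≤ ((((Icc (-(T : ℤ)) T) ×ˢ (Icc (-(T : ℤ)) T)).filter fun x =>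
      IsCoprime x.1 x.2 ∧ x.1 * x.2 * (x.1 + x.2) ≠ 0 ∧
        Module.finrank ℤ (F3.E x.1 x.2).Point = 0).card : ℝ) := by
  obtain ⟨P, c, hP, hc, z0, h⟩ := avg
  have hM : 1 ≤ P.M := by
    have h1 := hP.hE
    have h2 := hP.hB
    unfold Par.M Par.ee
    exact Nat.one_le_iff_ne_zero.2 (Nat.mul_ne_zero (by omega) (pow_ne_zero _ (by omega)))
  refine ⟨c / 4, by positivity, (max z0 2) ^ (30 * P.M), fun T hT => ?_⟩
  obtain ⟨z, hz, hz1, hz2⟩ := z4_z hM hT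
  have hz0 : z0 ≤ z := (le_max_left _ _).trans hz
  have hz3 : 2 ≤ z := (le_max_right _ _).trans hz
  have hTZ : P.TZ z T := ⟨hz1, hz2⟩
  obtain ⟨h1, h2⟩ := h z T hz0 hTZ
  set S := SS P z T with hS
  set S1 := S.filter fun x => Module.finrank ℤ (F3.E (x.1 : ℤ) (x.2 : ℤ)).Point = 0 with hS1
  set S2 := S.filter fun x => ¬ Module.finrank ℤ (F3.E (x.1 : ℤ) (x.2 : ℤ)).Point = 0 with hS2
  have hcard : S1.card + S2.card = S.card := Finset.card_filter_add_card_filter_not _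
  have hsum : ∑ x ∈ S, (Nat.card (Sl x.1 x.2) : ℝ) =
      ∑ x ∈ S1, (Nat.card (Sl x.1 x.2) : ℝ) + ∑ x ∈ S2, (Nat.card (Sl x.1 x.2) : ℝ) :=
    (Finset.sum_filter_add_sum_filter_not S _ _).symm
  have hs1 : 4 * (S1.card : ℝ) ≤ ∑ x ∈ S1, (Nat.card (Sl x.1 x.2) : ℝ) := by
    have : ∑ _x ∈ S1, (4 : ℝ) ≤ ∑ x ∈ S1, (Nat.card (Sl x.1 x.2) : ℝ) := by
      refine Finset.sum_le_sum fun x hx => ?_
      have h3 := descent (fac hP hz3 hTZ (Finset.mem_filter.1 hx).1).nice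
      have h4 : 2 ^ 2 ≤ 2 ^ (Module.finrank ℤ (F3.E (x.1 : ℤ) (x.2 : ℤ)).Point + 2) :=
        Nat.pow_le_pow_right (by norm_num) (by omega)
      have h5 : 4 ≤ Nat.card (Sl x.1 x.2) := le_trans (by norm_num at h4 ⊢; exact h4) h3
      exact_mod_cast h5
    rw [Finset.sum_const, nsmul_eq_mul] at this
    linarith
  have hs2 : 16 * (S2.card : ℝ) ≤ ∑ x ∈ S2, (Nat.card (Sl x.1 x.2) : ℝ) := by
    have : ∑ _x ∈ S2, (16 : ℝ) ≤ ∑ x ∈ S2, (Nat.card (Sl x.1 x.2) : ℝ) := by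
      refine Finset.sum_le_sum fun x hx => ?_
      exact_mod_cast card_four (fac hP hz3 hTZ (Finset.mem_filter.1 hx).1).nice
        (Finset.mem_filter.1 hx).2
    rw [Finset.sum_const, nsmul_eq_mul] at this
    linarith
  have hcR : (S1.card : ℝ) + S2.card = S.card := by exact_mod_cast hcard
  have hmain : c / 4 * (T : ℝ) ^ 2 ≤ (S1.card : ℝ) := by
    have h0 : (0 : ℝ) ≤ (S1.card : ℝ) := Nat.cast_nonneg _
    nlinarith [h1, h2, hs1, hs2, hsum, hcR]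
  refine hmain.trans ?_
  have hinj : S1.card ≤ (((Icc (-(T : ℤ)) T) ×ˢ (Icc (-(T : ℤ)) T)).filter fun x =>
      IsCoprime x.1 x.2 ∧ x.1 * x.2 * (x.1 + x.2) ≠ 0 ∧
        Module.finrank ℤ (F3.E x.1 x.2).Point = 0).card := by
    refine Finset.card_le_card_of_injOn (fun x : ℕ × ℕ => ((x.1 : ℤ), (x.2 : ℤ))) ?_ ?_
    · intro x hx
      have hx' := Finset.mem_filter.1 (Finset.mem_coe.1 hx)
      have F := fac hP hz3 hTZ hx'.1
      obtain ⟨f1, f2, f3, f4⟩ := F.hT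
      have hY := F.hok.hY
      have hZ := F.hok.hZ
      have hcp := F.hok.hc
      rw [Finset.mem_coe, Finset.mem_filter, Finset.mem_product, Finset.mem_Icc, Finset.mem_Icc]
      refine ⟨⟨⟨?_, ?_⟩, ?_, ?_⟩, ?_, ?_, hx'.2⟩
      · show -(T : ℤ) ≤ (x.1 : ℤ); omega
      · show (x.1 : ℤ) ≤ (T : ℤ); omega
      · show -(T : ℤ) ≤ (x.2 : ℤ); omega
      · show (x.2 : ℤ) ≤ (T : ℤ); omega
      · exact Nat.isCoprime_iff_coprime.2 hcp
      · have a1 : 0 < (x.1 : ℤ) := by omega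
        have a2 : 0 < (x.2 : ℤ) := by omega
        show (x.1 : ℤ) * (x.2 : ℤ) * ((x.1 : ℤ) + (x.2 : ℤ)) ≠ 0
        positivity
    · intro x _ y _ hxy
      have e := Prod.mk.inj hxy
      exact Prod.ext (by exact_mod_cast e.1) (by exact_mod_cast e.2)
  exact_mod_cast hinj

end Pool.Agent.H77.K4
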